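import Pool.Agent.Z3.SumA
import Pool.Agent.PNT.Main

/-!
# The prime sum side, parameter-free

Small and bad primes contribute o(n); the others are distributed over the cells of n/p in the periods
n/p in (m, m+1).
-/

open Finset Filter Topology

namespace Pool.Agent.Z23

open Pool.Agent.Z3 (theta_interval sum_le_list list_lim)

/-- p divides no number d*n+e with 1 <= d <= L, |e| <= E -/
def GoodG (L E n p : ℕ) : Prop :=
  ∀ d : ℕ, 1 ≤ d → d ≤ L → ∀ e : ℤ, |e| ≤ (E : ℤ) → ¬ (p : ℤ) ∣ (d : ℤ) * (n : ℤ) + e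

theorem log_mul_log_leG (p M : ℕ) (hM : 1 ≤ M) :
    (Nat.log p M : ℝ) * Real.log p ≤ Real.log M := by
  rcases Nat.eq_zero_or_pos p with rfl | hp
  · simp
    exact Real.log_nonneg (by exact_mod_cast hM)
  have h1 : p ^ Nat.log p M ≤ M := Nat.pow_log_le_self p (by omega)
  have h2 : ((p ^ Nat.log p M : ℕ) : ℝ) ≤ (M : ℝ) := by exact_mod_cast h1
  have h3 : (0 : ℝ) < ((p ^ Nat.log p M : ℕ) : ℝ) := by
    exact_mod_cast Nat.pow_pos hp
  have h4 := Real.log_le_log h3 h2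
  rwa [Nat.cast_pow, Real.log_pow] at h4

/-- numbers whose square is at most M -/
theorem card_smallG (M : ℕ) (P : Finset ℕ) (h : ∀ p ∈ P, p ^ 2 ≤ M) :
    (P.card : ℝ) ≤ Real.sqrt M + 1 := by
  have h1 : P ⊆ range (Nat.sqrt M + 1) := by
    intro p hp
    rw [mem_range]
    have := Nat.le_sqrt'.mpr (h p hp)
    omega
  have h2 := card_le_card h1
  rw [card_range] at h2
  have h3 : (Nat.sqrt M : ℝ) ≤ Real.sqrt M := Real.nat_sqrt_le_real_sqrt
  have h4 : (P.card : ℝ) ≤ (Nat.sqrt M : ℝ) + 1 := by exact_mod_cast h2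
  linarith

/-- bad primes with large square -/
theorem card_badG (L E c n : ℕ) (hE : E ≤ c) (hn : E + 1 ≤ n) (P : Finset ℕ)
    (h : ∀ p ∈ P, p.Prime ∧ L * n + c < p ^ 2 ∧ ¬ GoodG L E n p) : P.card ≤ L * (2 * E + 1) := by
  classical
  have hex : ∀ p : ℕ, p ∈ P → ∃ x : ℕ × ℤ, x ∈ (Finset.Icc 1 L) ×ˢ (Finset.Icc (-(E : ℤ)) (E : ℤ)) ∧
      (p : ℤ) ∣ (x.1 : ℤ) * (n : ℤ) + x.2 := by
    intro p hp
    have h1 := (h p hp).2.2
    unfold GoodG at h1
    push Not at h1
    obtain ⟨d, hd1, hd2, e, he, hde⟩ := h1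
    exact ⟨(d, e), mem_product.mpr ⟨Finset.mem_Icc.mpr ⟨hd1, hd2⟩,
      Finset.mem_Icc.mpr (abs_le.mp he)⟩, hde⟩
  choose! f hf using hex
  have hc : ((Finset.Icc 1 L) ×ˢ (Finset.Icc (-(E : ℤ)) (E : ℤ)) : Finset (ℕ × ℤ)).card =
      L * (2 * E + 1) := by
    rw [card_product]
    simp
    left
    omega
  rw [← hc]
  refine card_le_card_of_injOn f (fun p hp => (hf p hp).1) ?_
  intro p hp q hq hpq
  have hp' : p ∈ P := hp
  have hq' : q ∈ P := hq
  by_contra hne
  obtain ⟨hp1, hp2, _⟩ := h p hp'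
  obtain ⟨hq1, hq2, _⟩ := h q hq'
  obtain ⟨hf1, hf2⟩ := hf p hp'
  obtain ⟨_, hf4⟩ := hf q hq'
  rw [← hpq] at hf4
  rw [mem_product, Finset.mem_Icc, Finset.mem_Icc] at hf1
  have hd1' := hf1.1.1
  have hd2' := hf1.1.2
  set d : ℤ := ((f p).1 : ℤ) with hd
  set e : ℤ := (f p).2
  have hcop : IsCoprime (p : ℤ) (q : ℤ) :=
    Nat.isCoprime_iff_coprime.mpr ((Nat.coprime_primes hp1 hq1).mpr hne)
  have hdvd : (p : ℤ) * q ∣ d * (n : ℤ) + e := hcop.mul_dvd hf2 hf4
  have hd1 : (1 : ℤ) ≤ d := by rw [hd]; exact_mod_cast hd1'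
  have hd2 : d ≤ L := by rw [hd]; exact_mod_cast hd2'
  have hn' : (E : ℤ) + 1 ≤ n := by exact_mod_cast hn
  have hpos : (0 : ℤ) < d * (n : ℤ) + e := by nlinarith [hf1.2.1]
  have hle : (p : ℤ) * q ≤ d * (n : ℤ) + e := Int.le_of_dvd hpos hdvd
  have hE' : (E : ℤ) ≤ c := by exact_mod_cast hE
  have hub : d * (n : ℤ) + e ≤ L * n + c := by nlinarith [hf1.2.2]
  have hp3 : (L : ℤ) * n + c + 1 ≤ (p : ℤ) ^ 2 := by exact_mod_cast hp2
  have hq3 : (L : ℤ) * n + c + 1 ≤ (q : ℤ) ^ 2 := by exact_mod_cast hq2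
  have hp0 : (0 : ℤ) < p := by exact_mod_cast hp1.pos
  have hq0 : (0 : ℤ) < q := by exact_mod_cast hq1.pos
  have hneZ : (p : ℤ) ≠ q := by exact_mod_cast hne
  rcases lt_or_gt_of_ne hneZ with hlt | hlt
  · have : (p : ℤ) ^ 2 < p * q := by rw [sq]; exact mul_lt_mul_of_pos_left hlt hp0
    linarith
  · have : (q : ℤ) ^ 2 < p * q := by rw [sq]; exact mul_lt_mul_of_pos_right hlt hq0
    linarith

/-- the small and the bad primes contribute o(n) -/
theorem sum_badG (L E c C : ℕ) (hL : 1 ≤ L) (hE : E ≤ c) (δ : ℝ) (hδ : 0 < δ) :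
    ∀ᶠ n : ℕ in atTop, ∀ P : Finset ℕ,
    (∀ p ∈ P, p.Prime ∧ (p ^ 2 ≤ L * n + c ∨ ¬ GoodG L E n p)) →
    ∑ p ∈ P, ((C : ℝ) * (Nat.log p (L * n + c) : ℝ)) * Real.log p ≤ δ * n := by
  classical
  set N0 : ℝ := ((L * (2 * E + 1) : ℕ) : ℝ) with hN0
  have hN0' : 0 ≤ N0 := Nat.cast_nonneg _
  have hlim : Tendsto (fun n : ℕ => Real.sqrt (Real.sqrt ((L : ℝ) * (n : ℝ) + c))) atTop atTop := by
    have h1 : Tendsto (fun n : ℕ => (L : ℝ) * (n : ℝ) + c) atTop atTop :=
      tendsto_atTop_add_const_right _ _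
        (tendsto_natCast_atTop_atTop.const_mul_atTop (by exact_mod_cast hL))
    exact Real.tendsto_sqrt_atTop.comp (Real.tendsto_sqrt_atTop.comp h1)
  filter_upwards [eventually_ge_atTop (E + 1),
    hlim.eventually_ge_atTop (4 * C * (N0 + 2) * (L + c) / δ),
    hlim.eventually_ge_atTop 1] with n hn hy1 hy2 P hP
  set M : ℕ := L * n + c with hM
  have hMr : (M : ℝ) = (L : ℝ) * (n : ℝ) + c := by rw [hM]; push_cast; ring
  set y : ℝ := Real.sqrt (Real.sqrt ((L : ℝ) * (n : ℝ) + c)) with hy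
  have hnr : (1 : ℝ) ≤ n := by exact_mod_cast (by omega : 1 ≤ n)
  have hLr : (1 : ℝ) ≤ L := by exact_mod_cast hL
  have hcr : (0 : ℝ) ≤ c := Nat.cast_nonneg _
  have hCr : (0 : ℝ) ≤ C := Nat.cast_nonneg _
  have hy0 : 0 < y := by linarith
  have hM1 : 1 ≤ M := by rw [hM]; nlinarith
  have hsq : Real.sqrt (M : ℝ) = y ^ 2 := by
    rw [hy, Real.sq_sqrt (Real.sqrt_nonneg _), hMr]
  have hM4 : (M : ℝ) = y ^ 4 := by
    have : y ^ 4 = (y ^ 2) ^ 2 := by ring
    rw [this, ← hsq, Real.sq_sqrt (by rw [hMr]; positivity)]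
  have hlog : Real.log (M : ℝ) ≤ 4 * y := by
    rw [hM4, Real.log_pow]
    have := Real.log_le_sub_one_of_pos hy0
    push_cast
    linarith
  have hlog0 : 0 ≤ Real.log (M : ℝ) := Real.log_nonneg (by exact_mod_cast hM1)
  -- the number of elements of P
  have hcard : (P.card : ℝ) ≤ y ^ 2 + 1 + N0 := by
    have h1 := card_smallG M (P.filter (fun p => p ^ 2 ≤ M)) (fun p hp => (mem_filter.mp hp).2)
    have h2 := card_badG L E c n hE hn (P.filter (fun p => ¬ p ^ 2 ≤ M)) (by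
      intro p hp
      rw [mem_filter] at hp
      obtain ⟨hp1, hp3⟩ := hP p hp.1
      exact ⟨hp1, not_le.mp hp.2, hp3.resolve_left hp.2⟩)
    have h3 := card_filter_add_card_filter_not (s := P) (fun p => p ^ 2 ≤ M)
    have h4 : (P.card : ℝ) = ((P.filter (fun p => p ^ 2 ≤ M)).card : ℝ) +
        ((P.filter (fun p => ¬ p ^ 2 ≤ M)).card : ℝ) := by
      rw [← Nat.cast_add, h3]
    have h5 : ((P.filter (fun p => ¬ p ^ 2 ≤ M)).card : ℝ) ≤ N0 := by
      rw [hN0]
      exact_mod_cast h2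
    rw [hsq] at h1
    linarith
  have hterm : ∀ p ∈ P, ((C : ℝ) * (Nat.log p M : ℝ)) * Real.log p ≤ C * Real.log (M : ℝ) := by
    intro p _
    have := log_mul_log_leG p M hM1
    calc ((C : ℝ) * (Nat.log p M : ℝ)) * Real.log p = C * ((Nat.log p M : ℝ) * Real.log p) := by ring
      _ ≤ _ := mul_le_mul_of_nonneg_left this hCr
  calc ∑ p ∈ P, ((C : ℝ) * (Nat.log p M : ℝ)) * Real.log p
      ≤ ∑ p ∈ P, C * Real.log (M : ℝ) := sum_le_sum hterm
    _ = (P.card : ℝ) * (C * Real.log (M : ℝ)) := by rw [sum_const, nsmul_eq_mul]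
    _ ≤ (y ^ 2 + 1 + N0) * (C * (4 * y)) := by
        apply mul_le_mul hcard _ (by positivity) (by positivity)
        exact mul_le_mul_of_nonneg_left hlog hCr
    _ ≤ ((N0 + 2) * y ^ 2) * (C * (4 * y)) := by
        apply mul_le_mul_of_nonneg_right _ (by positivity)
        have hy3 : 1 ≤ y ^ 2 := one_le_pow₀ hy2
        nlinarith [mul_nonneg hN0' (sub_nonneg.2 hy3)]
    _ = (4 * C * (N0 + 2)) * y ^ 3 := by ring
    _ ≤ δ * n := by
        have h1 : 4 * C * (N0 + 2) * (L + c) ≤ δ * y := by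
          rw [div_le_iff₀ hδ] at hy1
          linarith
        have h2 : y ^ 4 ≤ (L + c) * n := by
          rw [← hM4, hMr]
          nlinarith
        have h3 : 0 < y ^ 3 := by positivity
        have h4 : (4 * C * (N0 + 2) * (L + c)) * y ^ 3 ≤ (δ * y) * y ^ 3 :=
          mul_le_mul_of_nonneg_right h1 h3.le
        have h5 : (δ * y) * y ^ 3 = δ * y ^ 4 := by ring
        have h6 : δ * y ^ 4 ≤ δ * ((L + c) * n) := mul_le_mul_of_nonneg_left h2 hδ.le
        have h7 : (0 : ℝ) < L + c := by linarith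
        have h8 : ((4 * C * (N0 + 2)) * y ^ 3) * (L + c) ≤ (δ * n) * (L + c) := by
          calc ((4 * C * (N0 + 2)) * y ^ 3) * (L + c) = (4 * C * (N0 + 2) * (L + c)) * y ^ 3 := by ring
            _ ≤ δ * y ^ 4 := by rw [← h5]; exact h4
            _ ≤ δ * ((L + c) * n) := h6
            _ = _ := by ring
        exact le_of_mul_le_mul_right h8 h7

/-! ### cells -/

/-- a cell (a/b, c/d) with weight w -/
structure Cell where
  a : ℕ
  b : ℕ
  c : ℕ
  d : ℕ
  w : ℕ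
  deriving DecidableEq

/-- x/p lies strictly in the cell -/
def Cell.Mem (x : Cell) (r p : ℕ) : Prop := x.a * p < r * x.b ∧ r * x.d < x.c * p

instance (x : Cell) (r p : ℕ) : Decidable (x.Mem r p) := by unfold Cell.Mem; infer_instance

/-- weight of the cell containing r/p -/
def tabW (l : List Cell) (r p : ℕ) : ℕ :=
  ((l.find? (fun x => decide (x.Mem r p))).map Cell.w).getD 3

/-- the cells are consecutive intervals from `a / b` to `1` with endpoints of denominator at most L -/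
def chainG (L : ℕ) : ℕ → ℕ → List Cell → Bool
  | a, b, [] => decide (a = 1) && decide (b = 1)
  | a, b, x :: l => decide (x.a = a) && decide (x.b = b) && decide (0 < x.d) &&
      decide (x.d ≤ L) && chainG L x.c x.d l

theorem chainG_cover {L r p : ℕ} (hr : r < p) (hne : ∀ d, 0 < d → d ≤ L → ∀ c, r * d ≠ c * p) :
    ∀ (l : List Cell) (a b : ℕ), chainG L a b l = true → a * p < r * b → ∃ x ∈ l, x.Mem r p
  | [], a, b, h, h1 => by
    simp only [chainG, Bool.and_eq_true, decide_eq_true_eq] at h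
    rw [h.1, h.2] at h1
    omega
  | x :: l, a, b, h, h1 => by
    simp only [chainG, Bool.and_eq_true, decide_eq_true_eq] at h
    obtain ⟨⟨⟨⟨ha, hb⟩, hd⟩, hd'⟩, hl⟩ := h
    rcases lt_trichotomy (r * x.d) (x.c * p) with h2 | h2 | h2
    · exact ⟨x, List.mem_cons_self, by rw [ha, hb]; exact h1, h2⟩
    · exact absurd h2 (hne _ hd hd' _)
    · obtain ⟨x', hx', h3⟩ := chainG_cover hr hne l _ _ hl h2
      exact ⟨x', List.mem_cons_of_mem _ hx', h3⟩

theorem goodG_ne {L E n p : ℕ} (hg : GoodG L E n p) (d : ℕ) (hd : 0 < d) (hd' : d ≤ L) (c : ℕ) :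
    n % p * d ≠ c * p := by
  intro h
  have h1 := hg d hd hd' 0 (by simp)
  apply h1
  rw [add_zero]
  have h2 : p ∣ d * n := by
    rw [← Nat.div_add_mod n p, Nat.mul_add]
    refine (Nat.dvd_add_right (Dvd.intro_left (d * (n / p)) (by ring))).2 ?_
    rw [Nat.mul_comm, h]
    exact Dvd.intro_left _ rfl
  exact_mod_cast h2

/-- for good p the residue n % p lies strictly in a cell and tabW is its weight -/
theorem tabW_eq {L E n p : ℕ} {l : List Cell} (hl : chainG L 0 1 l = true) (hL : 1 ≤ L)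
    (hp : 0 < p) (hg : GoodG L E n p) :
    ∃ x ∈ l, x.Mem (n % p) p ∧ tabW l (n % p) p = x.w := by
  have hcov : ∃ x ∈ l, x.Mem (n % p) p := by
    refine chainG_cover (Nat.mod_lt _ hp) (fun d hd hd' c => goodG_ne hg d hd hd' c) l 0 1 hl ?_
    rw [Nat.zero_mul, Nat.mul_one]
    rcases Nat.eq_zero_or_pos (n % p) with h | h
    · exact absurd (by rw [h]; ring) (goodG_ne hg 1 one_pos hL 0)
    · exact h
  obtain ⟨x, hx, h1⟩ := hcov
  unfold tabW
  rcases hf : l.find? (fun x => decide (x.Mem (n % p) p)) with _ | x'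
  · have h3 := List.find?_eq_none.1 hf x hx
    simp only [decide_eq_true_eq] at h3
    exact absurd h1 h3
  · have h3 := List.find?_some hf
    simp only [decide_eq_true_eq] at h3
    exact ⟨x', List.mem_of_find?_eq_some hf, h3, by rw [hf, Option.map_some, Option.getD_some]⟩

/-- the interval of p/n belonging to the cell x in period m -/
noncomputable def Cell.item (m : ℕ) (x : Cell) : ℝ × ℝ × ℝ :=
  ((x.w : ℝ), (x.d : ℝ) / ((m : ℝ) * x.d + x.c), (x.b : ℝ) / ((m : ℝ) * x.b + x.a))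

/-- a proper cell: positive denominators, a/b < c/d -/
def Cell.ok (x : Cell) : Bool :=
  decide (1 ≤ x.b) && decide (1 ≤ x.d) && decide (1 ≤ x.c) && decide (x.a * x.d < x.b * x.c)

theorem Cell.ok_iff (x : Cell) : x.ok = true ↔ 1 ≤ x.b ∧ 1 ≤ x.d ∧ 1 ≤ x.c ∧ x.a * x.d < x.b * x.c := by
  unfold Cell.ok
  simp only [Bool.and_eq_true, decide_eq_true_eq, and_assoc]

theorem Cell.item_diff (m : ℕ) (x : Cell) (hx : x.ok = true) (h : 0 < m * x.b + x.a) :
    (x.item m).2.2 - (x.item m).2.1 =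
      ((x.b * x.c - x.a * x.d : ℕ) : ℝ) / (((m * x.b + x.a) * (m * x.d + x.c) : ℕ) : ℝ) := by
  obtain ⟨h1, h2, h3, h4⟩ := (Cell.ok_iff x).1 hx
  have e1 : (0 : ℝ) < (m : ℝ) * x.b + x.a := by exact_mod_cast h
  have e2 : (0 : ℝ) < (m : ℝ) * x.d + x.c := by
    have : 0 < m * x.d + x.c := by omega
    exact_mod_cast this
  unfold Cell.item
  simp only
  rw [div_sub_div _ _ e1.ne' e2.ne', Nat.cast_sub h4.le]
  push_cast
  congr 1
  ring

theorem Cell.item_ok (m : ℕ) (x : Cell) (hx : x.ok = true) (h : 0 < m * x.b + x.a) :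
    0 ≤ (x.item m).1 ∧ 0 ≤ (x.item m).2.1 ∧ (x.item m).2.1 ≤ (x.item m).2.2 := by
  refine ⟨by unfold Cell.item; positivity, by unfold Cell.item; positivity, ?_⟩
  have h1 := Cell.item_diff m x hx h
  have h2 : (0 : ℝ) ≤ ((x.b * x.c - x.a * x.d : ℕ) : ℝ) /
      (((m * x.b + x.a) * (m * x.d + x.c) : ℕ) : ℝ) := by positivity
  linarith

/-- scaled upper bound for one term -/
def Cell.sc (m : ℕ) (x : Cell) : ℕ :=
  x.w * (x.b * x.c - x.a * x.d) * 10 ^ 12 / ((m * x.b + x.a) * (m * x.d + x.c)) + 1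

theorem div_le_scaledG (w X : ℕ) : (w : ℝ) / X ≤ ((w * 10 ^ 12 / X + 1 : ℕ) : ℝ) / 10 ^ 12 := by
  rcases Nat.eq_zero_or_pos X with h | h
  · subst h
    simp
  · rw [div_le_div_iff₀ (by exact_mod_cast h) (by positivity)]
    have h1 : w * 10 ^ 12 < (w * 10 ^ 12 / X + 1) * X := by
      have := Nat.lt_div_mul_add (a := w * 10 ^ 12) h
      linarith [add_mul (w * 10 ^ 12 / X) 1 X]
    exact_mod_cast h1.le

theorem Cell.term_le (m : ℕ) (x : Cell) (hx : x.ok = true) (h : 0 < m * x.b + x.a) :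
    (x.item m).1 * ((x.item m).2.2 - (x.item m).2.1) ≤ ((x.sc m : ℕ) : ℝ) / 10 ^ 12 := by
  rw [Cell.item_diff m x hx h]
  have h1 := div_le_scaledG (x.w * (x.b * x.c - x.a * x.d)) ((m * x.b + x.a) * (m * x.d + x.c))
  have h2 : (x.item m).1 = (x.w : ℝ) := rfl
  rw [h2, ← mul_div_assoc]
  unfold Cell.sc
  refine le_trans (le_of_eq ?_) h1
  push_cast
  ring

theorem list_sum_le_sc (m : ℕ) (l : List Cell) (hl : ∀ x ∈ l, x.ok = true ∧ 0 < m * x.b + x.a) :
    ((l.map (Cell.item m)).map (fun x => x.1 * (x.2.2 - x.2.1))).sum ≤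
      (((l.map (Cell.sc m)).sum : ℕ) : ℝ) / 10 ^ 12 := by
  induction l with
  | nil => simp
  | cons x l ih =>
    simp only [List.map_cons, List.sum_cons, Nat.cast_add, add_div]
    refine add_le_add ?_ (ih fun y hy => hl y (List.mem_cons_of_mem _ hy))
    obtain ⟨h1, h2⟩ := hl x List.mem_cons_self
    exact x.term_le m h1 h2

theorem flatMap_sum_le_sc (ms : List ℕ) (l : List Cell) (hl : ∀ m ∈ ms, ∀ x ∈ l, x.ok = true ∧
    0 < m * x.b + x.a) :
    ((ms.flatMap (fun m => l.map (Cell.item m))).map (fun x => x.1 * (x.2.2 - x.2.1))).sum ≤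
      (((ms.map (fun m : ℕ => (l.map (Cell.sc m)).sum)).sum : ℕ) : ℝ) / 10 ^ 12 := by
  induction ms with
  | nil => simp
  | cons m ms ih =>
    simp only [List.flatMap_cons, List.map_append, List.sum_append, List.map_cons, List.sum_cons,
      Nat.cast_add, add_div]
    refine add_le_add ?_ (ih fun m' hm' => hl m' (List.mem_cons_of_mem _ hm'))
    exact list_sum_le_sc m l (hl m List.mem_cons_self)

/-- the cells of the period 0 that matter -/
def posA (l : List Cell) : List Cell := l.filter (fun x => decide (1 ≤ x.a))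

/-- all intervals -/
noncomputable def itemsG (l0 l1 : List Cell) (T : ℕ) : List (ℝ × ℝ × ℝ) :=
  (3, 0, 1 / ((T : ℝ) + 1)) :: ((posA l0).map (Cell.item 0) ++
    ((List.range T).map (· + 1)).flatMap (fun m => l1.map (Cell.item m)))

/-- the numerical check: period 0 with the cells l0, the periods 1..T with l1, the rest with weight 3 -/
def scG (l0 l1 : List Cell) (T : ℕ) : ℕ :=
  3 * 10 ^ 12 / (T + 1) + 1 + ((posA l0).map (Cell.sc 0)).sum +
    (((List.range T).map (· + 1)).map (fun m : ℕ => (l1.map (Cell.sc m)).sum)).sum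

theorem itemsG_sum (l0 l1 : List Cell) (T : ℕ) (h0 : ∀ x ∈ l0, x.ok = true)
    (h1 : ∀ x ∈ l1, x.ok = true) :
    ((itemsG l0 l1 T).map (fun x => x.1 * (x.2.2 - x.2.1))).sum ≤ ((scG l0 l1 T : ℕ) : ℝ) / 10 ^ 12 := by
  unfold itemsG scG
  rw [List.map_cons, List.map_append, List.sum_cons, List.sum_append]
  have a1 := list_sum_le_sc 0 (posA l0) (by
    intro x hx
    unfold posA at hx
    rw [List.mem_filter, decide_eq_true_eq] at hx
    exact ⟨h0 x hx.1, by omega⟩)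
  have a2 := flatMap_sum_le_sc ((List.range T).map (· + 1)) l1 (by
    intro m hm x hx
    have h2 := h1 x hx
    refine ⟨h2, ?_⟩
    rw [List.mem_map] at hm
    obtain ⟨k, _, rfl⟩ := hm
    obtain ⟨h3, -, -, -⟩ := (Cell.ok_iff x).1 h2
    have : 0 < (k + 1) * x.b := Nat.mul_pos (Nat.succ_pos k) h3
    omega)
  have a3 : (3 : ℝ) * (1 / ((T : ℝ) + 1) - 0) ≤ ((3 * 10 ^ 12 / (T + 1) + 1 : ℕ) : ℝ) / 10 ^ 12 := by
    have := div_le_scaledG 3 (T + 1)
    rw [sub_zero, mul_one_div]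
    push_cast at this ⊢
    exact this
  push_cast at a1 a2 a3 ⊢
  linarith

theorem itemsG_ok (l0 l1 : List Cell) (T : ℕ) (h0 : ∀ x ∈ l0, x.ok = true)
    (h1 : ∀ x ∈ l1, x.ok = true) :
    ∀ x ∈ itemsG l0 l1 T, 0 ≤ x.1 ∧ 0 ≤ x.2.1 ∧ x.2.1 ≤ x.2.2 := by
  intro x hx
  unfold itemsG at hx
  rw [List.mem_cons, List.mem_append] at hx
  rcases hx with rfl | hx | hx
  · refine ⟨by norm_num, le_rfl, by positivity⟩
  · rw [List.mem_map] at hx
    obtain ⟨y, hy, rfl⟩ := hx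
    unfold posA at hy
    rw [List.mem_filter, decide_eq_true_eq] at hy
    exact y.item_ok 0 (h0 y hy.1) (by omega)
  · rw [List.mem_flatMap] at hx
    obtain ⟨m, hm, hx⟩ := hx
    rw [List.mem_map] at hx hm
    obtain ⟨y, hy, rfl⟩ := hx
    obtain ⟨k, _, rfl⟩ := hm
    have h2 := h1 y hy
    obtain ⟨h3, -, -, -⟩ := (Cell.ok_iff y).1 h2
    have : 0 < (k + 1) * y.b := Nat.mul_pos (Nat.succ_pos k) h3
    exact y.item_ok (k + 1) h2 (by omega)

/-- **The prime sum.** -/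
theorem prime_sumG (L E c C T : ℕ) (hL : 1 ≤ L) (hE : E ≤ c) (l0 l1 : List Cell)
    (hok0 : ∀ x ∈ l0, x.ok = true) (hok1 : ∀ x ∈ l1, x.ok = true)
    (hz : ∀ x ∈ l0, x.a = 0 → x.w = 0) (hw : ∀ x ∈ l1, x.w ≤ 3)
    (S : ℝ) (hS : ((scG l0 l1 T : ℕ) : ℝ) / 10 ^ 12 < S)
    (ex : ℕ → ℕ → ℕ)
    (hbad : ∀ n p : ℕ, 1 ≤ n → p.Prime → (p ^ 2 ≤ L * n + c ∨ ¬ GoodG L E n p) →
      ex n p ≤ C * Nat.log p (L * n + c))
    (hc0 : ∀ n p : ℕ, 1 ≤ n → p.Prime → ¬ (p ^ 2 ≤ L * n + c ∨ ¬ GoodG L E n p) → n < p →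
      ∃ x ∈ l0, x.Mem n p ∧ ex n p ≤ x.w)
    (hc1 : ∀ n p : ℕ, 1 ≤ n → p.Prime → ¬ (p ^ 2 ≤ L * n + c ∨ ¬ GoodG L E n p) → p < n →
      ∃ x ∈ l1, x.Mem (n % p) p ∧ ex n p ≤ x.w) :
    ∀ᶠ n : ℕ in atTop, ∀ P : Finset ℕ, (∀ p ∈ P, p.Prime) →
      ∑ p ∈ P, (ex n p : ℝ) * Real.log (p : ℝ) ≤ S * n := by
  classical
  set S0 : ℝ := ((scG l0 l1 T : ℕ) : ℝ) / 10 ^ 12 with hS0
  set δ : ℝ := (S - S0) / 2 with hδ
  have hδ0 : 0 < δ := by rw [hδ]; linarith
  have hlim := list_lim PNT.theta_asymp (itemsG l0 l1 T) (fun x hx => (itemsG_ok l0 l1 T hok0 hok1 x hx).2)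
  have hlt : ((itemsG l0 l1 T).map (fun x => x.1 * (x.2.2 - x.2.1))).sum < S0 + δ :=
    lt_of_le_of_lt (itemsG_sum l0 l1 T hok0 hok1) (by linarith)
  filter_upwards [eventually_ge_atTop 1, hlim.eventually_lt_const hlt,
    sum_badG L E c C hL hE δ hδ0] with n hn h1 h2 P hP
  have hn0 : (0 : ℝ) < n := by exact_mod_cast hn
  rw [div_lt_iff₀ hn0] at h1
  rw [← Finset.sum_filter_add_sum_filter_not P (fun p => p ^ 2 ≤ L * n + c ∨ ¬ GoodG L E n p)]
  have hbad' : ∑ p ∈ P.filter (fun p => p ^ 2 ≤ L * n + c ∨ ¬ GoodG L E n p),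
      (ex n p : ℝ) * Real.log (p : ℝ) ≤ δ * n := by
    refine le_trans ?_ (h2 (P.filter (fun p => p ^ 2 ≤ L * n + c ∨ ¬ GoodG L E n p)) ?_)
    · refine Finset.sum_le_sum fun p hp => ?_
      rw [mem_filter] at hp
      refine mul_le_mul_of_nonneg_right ?_ (Real.log_natCast_nonneg p)
      exact_mod_cast hbad n p hn (hP p hp.1) hp.2
    · intro p hp
      rw [mem_filter] at hp
      exact ⟨hP p hp.1, hp.2⟩
  -- the primes with positive exponent
  have hsplit : ∑ p ∈ P.filter (fun p => ¬ (p ^ 2 ≤ L * n + c ∨ ¬ GoodG L E n p)),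
      (ex n p : ℝ) * Real.log (p : ℝ) =
      ∑ p ∈ (P.filter (fun p => ¬ (p ^ 2 ≤ L * n + c ∨ ¬ GoodG L E n p))).filter
        (fun p => ex n p ≠ 0), (ex n p : ℝ) * Real.log (p : ℝ) := by
    symm
    apply Finset.sum_filter_of_ne
    intro p _ hne h0
    apply hne
    rw [h0]
    simp
  have hgood : ∑ p ∈ (P.filter (fun p => ¬ (p ^ 2 ≤ L * n + c ∨ ¬ GoodG L E n p))).filter
      (fun p => ex n p ≠ 0), (ex n p : ℝ) * Real.log (p : ℝ) ≤
      ((itemsG l0 l1 T).map (fun x => x.1 * (Chebyshev.theta (x.2.2 * n) -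
        Chebyshev.theta (x.2.1 * n)))).sum := by
    refine sum_le_list n (fun p => (ex n p : ℝ)) (itemsG l0 l1 T) (itemsG_ok l0 l1 T hok0 hok1) _ ?_
    intro p hp
    rw [mem_filter, mem_filter] at hp
    obtain ⟨⟨hpP, hng⟩, hne⟩ := hp
    have hpp := hP p hpP
    refine ⟨hpp, ?_⟩
    have hg : GoodG L E n p := by
      by_contra h
      exact hng (Or.inr h)
    have key : ∀ (x : Cell) (m : ℕ), x.Mem (n % p) p → n / p = m → 0 < m * x.b + x.a →
        x.ok = true → (x.item m).2.1 * n < (p : ℝ) ∧ (p : ℝ) ≤ (x.item m).2.2 * n := by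
      intro x m hx hm h0 hok
      obtain ⟨k1, k2, k3, k4⟩ := (Cell.ok_iff x).1 hok
      obtain ⟨hc1', hc2'⟩ := hx
      have hdiv : p * m + n % p = n := by rw [← hm]; exact Nat.div_add_mod n p
      have hlo : x.d * n < p * (m * x.d + x.c) := by
        calc x.d * n = x.d * (p * m + n % p) := by rw [hdiv]
          _ = p * m * x.d + (n % p) * x.d := by ring
          _ < p * m * x.d + x.c * p := by omega
          _ = _ := by ring
      have hhi : p * (m * x.b + x.a) ≤ x.b * n := by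
        calc p * (m * x.b + x.a) = p * m * x.b + x.a * p := by ring
          _ ≤ p * m * x.b + (n % p) * x.b := by omega
          _ = x.b * (p * m + n % p) := by ring
          _ = _ := by rw [hdiv]
      unfold Cell.item
      simp only
      constructor
      · have h2 : (0 : ℝ) < (m : ℝ) * x.d + x.c := by
          have h3 : 0 < m * x.d + x.c := by omega
          exact_mod_cast h3
        rw [div_mul_eq_mul_div, div_lt_iff₀ h2]
        exact_mod_cast hlo
      · have h2 : (0 : ℝ) < (m : ℝ) * x.b + x.a := by exact_mod_cast h0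
        rw [div_mul_eq_mul_div, le_div_iff₀ h2]
        exact_mod_cast hhi
    rcases lt_trichotomy n p with hnp | hnp | hnp
    · -- period 0
      obtain ⟨x, hx, hxm, hxw⟩ := hc0 n p hn hpp hng hnp
      have hxa : 1 ≤ x.a := by
        by_contra h
        have := hz x hx (by omega)
        omega
      have hmod : n % p = n := Nat.mod_eq_of_lt hnp
      have hdv : n / p = 0 := Nat.div_eq_of_lt hnp
      refine ⟨x.item 0, ?_, ?_, key x 0 (by rw [hmod]; exact hxm) hdv (by omega) (hok0 x hx)⟩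
      · unfold itemsG
        rw [List.mem_cons, List.mem_append]
        refine Or.inr (Or.inl (List.mem_map.2 ⟨x, ?_, rfl⟩))
        unfold posA
        rw [List.mem_filter, decide_eq_true_eq]
        exact ⟨hx, hxa⟩
      · show ((ex n p : ℕ) : ℝ) ≤ (x.w : ℝ)
        exact_mod_cast hxw
    · exfalso
      refine hg 1 le_rfl hL 0 (by simp) ?_
      rw [hnp]
      simp
    · obtain ⟨x, hx, hxm, hxw⟩ := hc1 n p hn hpp hng hnp
      have hxw3 := hw x hx
      by_cases hT : T < n / p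
      · refine ⟨(3, 0, 1 / ((T : ℝ) + 1)), List.mem_cons_self, ?_, ?_, ?_⟩
        · show ((ex n p : ℕ) : ℝ) ≤ 3
          exact_mod_cast hxw.trans hxw3
        · simp only [zero_mul]
          exact_mod_cast hpp.pos
        · have h3 : (T + 1) * p ≤ n := by
            calc (T + 1) * p ≤ (n / p) * p := Nat.mul_le_mul_right _ hT
              _ ≤ n := Nat.div_mul_le_self n p
          have h4 : ((T : ℝ) + 1) * p ≤ n := by exact_mod_cast h3
          simp only
          rw [div_mul_eq_mul_div, one_mul, le_div_iff₀ (by positivity)]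
          linarith
      · have hm1 : 1 ≤ n / p := by
          rw [Nat.one_le_div_iff hpp.pos]
          exact hnp.le
        have hok := hok1 x hx
        obtain ⟨k1, -, -, -⟩ := (Cell.ok_iff x).1 hok
        refine ⟨x.item (n / p), ?_, ?_, key x (n / p) hxm rfl ?_ hok⟩
        · unfold itemsG
          rw [List.mem_cons, List.mem_append]
          refine Or.inr (Or.inr (List.mem_flatMap.2 ⟨n / p, ?_, List.mem_map.2 ⟨x, hx, rfl⟩⟩))
          rw [List.mem_map]
          exact ⟨n / p - 1, List.mem_range.2 (by omega), by omega⟩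
        · show ((ex n p : ℕ) : ℝ) ≤ (x.w : ℝ)
          exact_mod_cast hxw
        · have : 0 < (n / p) * x.b := Nat.mul_pos hm1 k1
          omega
  rw [hsplit]
  have e1 : S = (S0 + δ) + δ := by rw [hδ]; ring
  rw [e1, add_mul]
  linarith

/-- logarithm of a product of prime powers with a separate power of 2 -/
theorem log_prodG (n e2 : ℕ) (P : Finset ℕ) (hP : ∀ p ∈ P, p.Prime) (ex : ℕ → ℕ → ℕ) :
    Real.log ((2 ^ (e2 * n) * ∏ p ∈ P, p ^ ex n p : ℕ) : ℝ) =
      e2 * Real.log 2 * n + ∑ p ∈ P, (ex n p : ℝ) * Real.log (p : ℝ) := by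
  have h1 : ((∏ p ∈ P, p ^ ex n p : ℕ) : ℝ) ≠ 0 := by
    have : 0 < ∏ p ∈ P, p ^ ex n p := Finset.prod_pos fun p hp => pow_pos (hP p hp).pos _
    exact_mod_cast this.ne'
  rw [Nat.cast_mul, Real.log_mul (by positivity) h1, Nat.cast_pow, Real.log_pow, Nat.cast_prod,
    Real.log_prod]
  · have : ∑ p ∈ P, Real.log ((p ^ ex n p : ℕ) : ℝ) = ∑ p ∈ P, (ex n p : ℝ) * Real.log (p : ℝ) := by
      refine Finset.sum_congr rfl fun p _ => ?_
      rw [Nat.cast_pow, Real.log_pow]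
    rw [this]
    push_cast
    ring
  · intro p hp
    exact_mod_cast (pow_pos (hP p hp).pos _).ne'

end Pool.Agent.Z23
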