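import Pool.Agent.Z23.Main
import Pool.Agent.Z23.PSumG

/-!
# The configuration of the proof that 1, zeta(2), zeta(3) are linearly independent

Zeros at the integers -i, i in [0,16n) and i in [2n,14n), zeros at -(i+1/2), i in [10n,19n);
poles at -i, i in [18n,38n+2) and i in [19n,36n+2).  Lines Re t = -10n-1/4 and -10n-1/2.
Base points: 14n for the form in zeta(3); 32n for the form in zeta(2) (or, separately, 16n for the
integers and 19n for the half-integers, see Split.lean).
-/

open Finset

namespace Pool.Agent.Z23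

/-- the block data -/
def dd (n : ℕ) : BD where
  a1 := 0
  l1 := 16 * n
  a2 := 2 * n
  l2 := 12 * n
  a3 := 10 * n
  l3 := 9 * n
  b1 := 18 * n
  m1 := 20 * n + 2
  b2 := 19 * n
  m2 := 17 * n + 2

theorem dd_ok (n : ℕ) (hn : 1 ≤ n) : (dd n).OK := by
  constructor <;> simp only [dd] <;> omega

/-- the blocks, written out -/
theorem dd_Zs (n : ℕ) : (dd n).Zs = [Ico 0 (16 * n), Ico (2 * n) (14 * n)] := by
  simp only [BD.Zs, dd, zero_add, ← Nat.add_mul]

theorem dd_Hs (n : ℕ) : (dd n).Hs = [Ico (10 * n) (19 * n)] := by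
  simp only [BD.Hs, dd, ← Nat.add_mul]

theorem dd_K1 (n : ℕ) : (dd n).K1 = Ico (18 * n) (38 * n + 2) := by
  simp only [BD.K1, dd]
  congr 1
  ring

theorem dd_K2 (n : ℕ) : (dd n).K2 = Ico (19 * n) (36 * n + 2) := by
  simp only [BD.K2, dd]
  congr 1
  ring

/-- bound of the small primes: everything is crude for p^2 <= MM n; also the last prime of Dn -/
def MM (n : ℕ) : ℕ := 200 * n + 100

/-- p-adic bound for the three rational numbers, j = 0, 1, 2 -/
def PBn (n p w : ℕ) : Prop := PBD (dd n) (32 * n) (14 * n) p w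

/-- p divides no number d*n+e, 1 <= d <= 200, |e| <= 6 -/
def Good (n p : ℕ) : Prop := GoodG 200 6 n p

end Pool.Agent.Z23
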