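import Pool.Agent.Z3.Psi

/-!
The function governing the size of the linear forms, for a general configuration:
concavity and tangent lines. `l` is a list of pairs (coefficient, length).
-/

open Finset Filter Topology

namespace Pool.Agent.Z23

open Pool.Agent.Z3 (Hf)
open Pool.Agent.Z3.PsiAux (hasDerivAt_Hf continuous_Hf hasDerivAt_arctan_div)

/-- the function -/
noncomputable def PsiL (l : List (ℝ × ℝ)) (y : ℝ) : ℝ :=
  (l.map (fun q => q.1 * Hf q.2 y)).sum - 2 * Real.pi * y

/-- its derivative -/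
noncomputable def DL (l : List (ℝ × ℝ)) (y : ℝ) : ℝ :=
  (l.map (fun q => q.1 * Real.arctan (q.2 / y))).sum - 2 * Real.pi

/-- the value at `0` of the tangent line at `y` -/
noncomputable def TL (l : List (ℝ × ℝ)) (y : ℝ) : ℝ :=
  (l.map (fun q => q.1 * (q.2 / 2 * Real.log (q.2 ^ 2 + y ^ 2)))).sum

/-- the condition on the list: positive coefficients for the lengths up to `m`, negative ones
for the lengths from `m` on, and total `0` -/
structure AdmPsi (l : List (ℝ × ℝ)) (m : ℝ) : Prop where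
  pos : 0 < m
  sgn : ∀ q ∈ l, 0 < q.2 ∧ ((0 ≤ q.1 ∧ q.2 ≤ m) ∨ (q.1 ≤ 0 ∧ m ≤ q.2))
  bal : (l.map (fun q => q.1 * q.2)).sum = 0

theorem hasDerivAt_listsum (l : List (ℝ × ℝ)) (f : ℝ × ℝ → ℝ → ℝ) (f' : ℝ × ℝ → ℝ) (y : ℝ)
    (h : ∀ q ∈ l, HasDerivAt (f q) (f' q) y) :
    HasDerivAt (fun z => (l.map (fun q => f q z)).sum) ((l.map f').sum) y := by
  induction l with
  | nil => simpa using hasDerivAt_const y (0 : ℝ)
  | cons q l ih =>
    have h1 := h q List.mem_cons_self
    have h2 := ih fun r hr => h r (List.mem_cons_of_mem _ hr)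
    simp only [List.map_cons, List.sum_cons]
    exact h1.fun_add h2

theorem continuousOn_listsum (l : List (ℝ × ℝ)) (f : ℝ × ℝ → ℝ → ℝ) (s : Set ℝ)
    (h : ∀ q ∈ l, ContinuousOn (f q) s) :
    ContinuousOn (fun z => (l.map (fun q => f q z)).sum) s := by
  induction l with
  | nil => simpa using (continuousOn_const (c := (0 : ℝ)))
  | cons q l ih =>
    have h1 := h q List.mem_cons_self
    have h2 := ih fun r hr => h r (List.mem_cons_of_mem _ hr)
    simp only [List.map_cons, List.sum_cons]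
    exact h1.add h2

theorem hasDerivAt_PsiL (l : List (ℝ × ℝ)) (hl : ∀ q ∈ l, 0 < q.2) (y : ℝ) (hy : 0 < y) :
    HasDerivAt (PsiL l) (DL l y) y := by
  have h1 := hasDerivAt_listsum l (fun q z => q.1 * Hf q.2 z)
    (fun q => q.1 * Real.arctan (q.2 / y)) y
    (fun q hq => (hasDerivAt_Hf q.2 y (hl q hq) hy).const_mul q.1)
  have h2 := (hasDerivAt_id' y).const_mul (2 * Real.pi)
  exact (h1.fun_sub h2).congr_deriv (by unfold DL; ring)

theorem continuousOn_PsiL (l : List (ℝ × ℝ)) (hl : ∀ q ∈ l, 0 < q.2) :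
    ContinuousOn (PsiL l) (Set.Ici 0) := by
  have h1 := continuousOn_listsum l (fun q z => q.1 * Hf q.2 z) (Set.Ici 0)
    (fun q hq => (continuous_Hf q.2 (hl q hq)).const_smul q.1)
  have h2 : ContinuousOn (fun y : ℝ => 2 * Real.pi * y) (Set.Ici 0) := by fun_prop
  exact h1.sub h2

theorem hasDerivAt_DL (l : List (ℝ × ℝ)) (y : ℝ) (hy : 0 < y) :
    HasDerivAt (DL l) ((l.map (fun q => q.1 * (-(q.2 / (q.2 ^ 2 + y ^ 2))))).sum) y := by
  have h1 := hasDerivAt_listsum l (fun q z => q.1 * Real.arctan (q.2 / z))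
    (fun q => q.1 * (-(q.2 / (q.2 ^ 2 + y ^ 2)))) y
    (fun q _ => (hasDerivAt_arctan_div q.2 y hy).const_mul q.1)
  have h2 := hasDerivAt_const y (2 * Real.pi)
  exact (h1.fun_sub h2).congr_deriv (by ring)

theorem DL_antitone (l : List (ℝ × ℝ)) (m : ℝ) (hl : AdmPsi l m) :
    AntitoneOn (DL l) (Set.Ioi 0) := by
  apply antitoneOn_of_deriv_nonpos (convex_Ioi 0)
  · intro y hy
    exact (hasDerivAt_DL l y hy).continuousAt.continuousWithinAt
  · intro y hy
    rw [interior_Ioi] at hy
    exact (hasDerivAt_DL l y hy).differentiableAt.differentiableWithinAt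
  · intro y hy
    rw [interior_Ioi] at hy
    have hy' : 0 < y := hy
    rw [(hasDerivAt_DL l y hy').deriv]
    have hm := hl.pos
    have key : ∀ q ∈ l, q.1 * (-(q.2 / (q.2 ^ 2 + y ^ 2))) ≤
        -(1 / (m ^ 2 + y ^ 2)) * (q.1 * q.2) := by
      intro q hq
      obtain ⟨h0, h1⟩ := hl.sgn q hq
      have e : -(1 / (m ^ 2 + y ^ 2)) * (q.1 * q.2) = q.1 * (-(q.2 / (m ^ 2 + y ^ 2))) := by
        ring
      rw [e]
      rcases h1 with ⟨h1, h2⟩ | ⟨h1, h2⟩
      · refine mul_le_mul_of_nonneg_left (neg_le_neg ?_) h1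
        refine div_le_div_of_nonneg_left h0.le (by positivity) ?_
        have : q.2 ^ 2 ≤ m ^ 2 := pow_le_pow_left₀ h0.le h2 2
        linarith
      · refine mul_le_mul_of_nonpos_left (neg_le_neg ?_) h1
        refine div_le_div_of_nonneg_left h0.le (by positivity) ?_
        have : m ^ 2 ≤ q.2 ^ 2 := pow_le_pow_left₀ hm.le h2 2
        linarith
    refine (List.sum_le_sum key).trans (le_of_eq ?_)
    rw [List.sum_map_mul_left, hl.bal, mul_zero]

/-- tangent line inequality -/
theorem tangentL (l : List (ℝ × ℝ)) (m : ℝ) (hl : AdmPsi l m) (y0 : ℝ) (hy0 : 0 < y0) (y : ℝ)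
    (hy : 0 ≤ y) : PsiL l y ≤ PsiL l y0 + DL l y0 * (y - y0) := by
  have hp : ∀ q ∈ l, 0 < q.2 := fun q hq => (hl.sgn q hq).1
  have hd : ∀ z : ℝ, 0 < z →
      HasDerivAt (fun z => PsiL l z - DL l y0 * (z - y0)) (DL l z - DL l y0) z := by
    intro z hz
    have := (hasDerivAt_PsiL l hp z hz).fun_sub
      (((hasDerivAt_id' z).sub_const y0).const_mul (DL l y0))
    exact this.congr_deriv (by ring)
  have hc : ContinuousOn (fun z => PsiL l z - DL l y0 * (z - y0)) (Set.Ici 0) := by
    apply (continuousOn_PsiL l hp).sub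
    fun_prop
  rcases le_total y y0 with h | h
  · have hm : MonotoneOn (fun z => PsiL l z - DL l y0 * (z - y0)) (Set.Icc 0 y0) := by
      apply monotoneOn_of_deriv_nonneg (convex_Icc 0 y0)
      · exact hc.mono Set.Icc_subset_Ici_self
      · intro z hz
        rw [interior_Icc] at hz
        exact (hd z hz.1).differentiableAt.differentiableWithinAt
      · intro z hz
        rw [interior_Icc] at hz
        rw [(hd z hz.1).deriv]
        have := DL_antitone l m hl (show z ∈ Set.Ioi 0 from hz.1)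
          (show y0 ∈ Set.Ioi 0 from hy0) hz.2.le
        linarith
    have := hm ⟨hy, h⟩ ⟨hy0.le, le_rfl⟩ h
    simp only [sub_self, mul_zero, sub_zero] at this
    linarith
  · have hm : AntitoneOn (fun z => PsiL l z - DL l y0 * (z - y0)) (Set.Ici y0) := by
      apply antitoneOn_of_deriv_nonpos (convex_Ici y0)
      · exact hc.mono (Set.Ici_subset_Ici.mpr hy0.le)
      · intro z hz
        rw [interior_Ici] at hz
        exact (hd z (hy0.trans hz)).differentiableAt.differentiableWithinAt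
      · intro z hz
        rw [interior_Ici] at hz
        rw [(hd z (hy0.trans hz)).deriv]
        have := DL_antitone l m hl (show y0 ∈ Set.Ioi 0 from hy0)
          (show z ∈ Set.Ioi 0 from hy0.trans hz) (le_of_lt hz)
        linarith
    have := hm (Set.mem_Ici.mpr le_rfl) (Set.mem_Ici.mpr h) h
    simp only [sub_self, mul_zero, sub_zero] at this
    linarith

theorem PsiL_eq (l : List (ℝ × ℝ)) (y : ℝ) (hb : (l.map (fun q => q.1 * q.2)).sum = 0) :
    PsiL l y = TL l y + DL l y * y := by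
  have h : ∀ l : List (ℝ × ℝ), (l.map (fun q => q.1 * Hf q.2 y)).sum =
      (l.map (fun q => q.1 * (q.2 / 2 * Real.log (q.2 ^ 2 + y ^ 2)))).sum
        - (l.map (fun q => q.1 * q.2)).sum
        + (l.map (fun q => q.1 * Real.arctan (q.2 / y))).sum * y := by
    intro l
    induction l with
    | nil => simp
    | cons q l ih =>
      simp only [List.map_cons, List.sum_cons]
      rw [ih]
      unfold Hf
      ring
  unfold PsiL TL DL
  rw [h l, hb]
  ring

/-- tangent line inequality, with the logarithmic part separated -/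
theorem tangentL' (l : List (ℝ × ℝ)) (m : ℝ) (hl : AdmPsi l m) (y0 : ℝ) (hy0 : 0 < y0) (y : ℝ)
    (hy : 0 ≤ y) : PsiL l y ≤ TL l y0 + DL l y0 * y := by
  have h1 := tangentL l m hl y0 hy0 y hy
  rw [PsiL_eq l y0 hl.bal] at h1
  linarith

/-- the derivative in terms of the small quotients `y / u` -/
theorem DL_eq (l : List (ℝ × ℝ)) (hl : ∀ q ∈ l, 0 < q.2) (y : ℝ) (hy : 0 < y) :
    DL l y = (l.map Prod.fst).sum * (Real.pi / 2)
      - (l.map (fun q => q.1 * Real.arctan (y / q.2))).sum - 2 * Real.pi := by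
  unfold DL
  congr 1
  induction l with
  | nil => simp
  | cons q l ih =>
    have h1 := ih fun r hr => hl r (List.mem_cons_of_mem _ hr)
    have h2 : 0 < y / q.2 := div_pos hy (hl q List.mem_cons_self)
    have h3 := Real.arctan_inv_of_pos h2
    rw [inv_div] at h3
    simp only [List.map_cons, List.sum_cons]
    rw [h1, h3]
    ring

/-- the two hypotheses of `int_bound` from two tangent lines: slope at most `ε` at `a`,
slope at most `-1/s` at `b` -/
theorem two_tangents (l : List (ℝ × ℝ)) (m : ℝ) (hl : AdmPsi l m) (a b ε s c Y : ℝ) (ha : 0 < a)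
    (hb : 0 < b) (hs : 0 < s) (hε : 0 ≤ ε) (h1 : DL l a ≤ ε)
    (h2 : DL l b ≤ -(1 / s)) (hTa : TL l a + ε * Y ≤ -c) (hTb : TL l b - Y / s ≤ -c) :
    (∀ z, 0 ≤ z → PsiL l z ≤ -c) ∧ ∀ z, 0 ≤ z → Y ≤ z → PsiL l z ≤ -c - (z - Y) / s := by
  have h3 : ∀ z, 0 ≤ z → Y ≤ z → PsiL l z ≤ -c - (z - Y) / s := by
    intro z hz hzY
    have h4 := tangentL' l m hl b hb z hz
    have h5 := mul_le_mul_of_nonneg_right h2 hz
    have h6 : -(1 / s) * z = -(z - Y) / s - Y / s := by ring
    have h7 : -(z - Y) / s = -((z - Y) / s) := by ring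
    linarith
  refine ⟨fun z hz => ?_, h3⟩
  rcases le_total z Y with h | h
  · have h4 := tangentL' l m hl a ha z hz
    have h5 := mul_le_mul_of_nonneg_right h1 hz
    have h6 := mul_le_mul_of_nonneg_left h hε
    linarith
  · have h4 := h3 z hz h
    have : 0 ≤ (z - Y) / s := div_nonneg (by linarith) hs.le
    linarith

end Pool.Agent.Z23
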