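import Pool.Agent.Z3.Shift

/-!
# The kernel 1 / (2 cosh(pi v)) and moving the line of integration across an integer
-/

open Finset Filter Topology Complex MeasureTheory
open scoped BigOperators

namespace Pool.Agent.Z23

open Pool.Agent.Z3 (PolyGrowth Sq Sq_mul Sq_ne_zero differentiable_Sq integrable_exp_neg_abs
  pow_le_exp_aux sinh_sq_le sinh_lower line_re line_im)

/-- the kernel 1 / (2 cosh(pi v)) -/
noncomputable def Ks (v : ℝ) : ℝ := 1 / (2 * Real.cosh (Real.pi * v))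

/-- the integral of g times the kernel over the line Re u = m - 1/2 -/
noncomputable def J (m : ℤ) (g : ℂ → ℂ) : ℂ :=
  ∫ v : ℝ, g ((m : ℂ) - 1 / 2 + (v : ℂ) * Complex.I) * (Ks v : ℂ)

theorem Ks_pos (v : ℝ) : 0 < Ks v := by
  unfold Ks
  have := Real.cosh_pos (Real.pi * v)
  positivity

theorem continuous_Ks : Continuous Ks := by
  unfold Ks
  refine Continuous.div continuous_const ?_ ?_
  · exact continuous_const.mul (Real.continuous_cosh.comp (continuous_const.mul continuous_id))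
  · intro v
    have := Real.cosh_pos (Real.pi * v)
    positivity

theorem Ks_le (v : ℝ) : Ks v ≤ Real.exp (-(Real.pi * |v|)) := by
  have h1 : Real.exp (Real.pi * |v|) / 2 ≤ Real.cosh (Real.pi * v) := by
    rw [← Real.cosh_abs (Real.pi * v), abs_mul, abs_of_pos Real.pi_pos, Real.cosh_eq]
    have := Real.exp_pos (-(Real.pi * |v|))
    linarith
  unfold Ks
  have h5 : 0 < Real.cosh (Real.pi * v) := Real.cosh_pos _
  rw [div_le_iff₀ (by positivity), Real.exp_neg]
  have h6 : 0 < Real.exp (Real.pi * |v|) := Real.exp_pos _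
  calc (1 : ℝ) = (Real.exp (Real.pi * |v|))⁻¹ * (2 * (Real.exp (Real.pi * |v|) / 2)) := by
        field_simp
    _ ≤ _ := by gcongr

/-- integrability of polynomially bounded functions against the kernel -/
theorem integrable_Ks_mul (f : ℝ → ℂ) (hf : Continuous f) (C : ℝ) (d : ℕ)
    (h : ∀ y, ‖f y‖ ≤ C * (1 + |y|) ^ d) :
    Integrable (fun y : ℝ => f y * (Ks y : ℂ)) := by
  have hC : 0 ≤ C := by
    have := h 0
    simp only [abs_zero, add_zero, one_pow, mul_one] at this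
    exact le_trans (norm_nonneg _) this
  refine ((integrable_exp_neg_abs).const_mul
    (C * ((d.factorial : ℝ) * Real.exp 1))).mono' ?_ ?_
  · exact (hf.mul (Complex.continuous_ofReal.comp continuous_Ks)).aestronglyMeasurable
  · refine Eventually.of_forall fun y => ?_
    rw [norm_mul, Complex.norm_real, Real.norm_of_nonneg (Ks_pos y).le]
    have h1 := pow_le_exp_aux d |y| (abs_nonneg y)
    have h2 := Ks_le y
    have h3 : Real.exp |y| * Real.exp (-(Real.pi * |y|)) ≤ Real.exp (-|y|) := by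
      rw [← Real.exp_add, Real.exp_le_exp]
      have := Real.pi_gt_three
      nlinarith [abs_nonneg y]
    calc ‖f y‖ * Ks y ≤ (C * (1 + |y|) ^ d) * Real.exp (-(Real.pi * |y|)) :=
          mul_le_mul (h y) h2 (Ks_pos y).le (by positivity)
      _ ≤ (C * ((d.factorial : ℝ) * Real.exp 1 * Real.exp |y|)) *
          Real.exp (-(Real.pi * |y|)) := by gcongr
      _ = C * ((d.factorial : ℝ) * Real.exp 1) *
          (Real.exp |y| * Real.exp (-(Real.pi * |y|))) := by ring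
      _ ≤ C * ((d.factorial : ℝ) * Real.exp 1) * Real.exp (-|y|) := by gcongr

theorem integrable_Ks : Integrable Ks := by
  have h := integrable_Ks_mul (fun _ => 1) continuous_const 1 0 (by simp)
  have h2 := h.re
  refine h2.congr (Eventually.of_forall fun y => ?_)
  simp

theorem integrable_Ks_complex : Integrable (fun y : ℝ => (Ks y : ℂ)) := by
  have h := integrable_Ks_mul (fun _ => 1) continuous_const 1 0 (by simp)
  simpa using h

theorem integral_Ks : ∫ y : ℝ, Ks y = 1 / 2 := by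
  have hpi := Real.pi_pos
  have hder : ∀ y : ℝ, HasDerivAt
      (fun y : ℝ => (1 / Real.pi) * Real.arctan (Real.exp (Real.pi * y))) (Ks y) y := by
    intro y
    have h1 : HasDerivAt (fun y : ℝ => Real.exp (Real.pi * y))
        (Real.exp (Real.pi * y) * Real.pi) y := by
      have := ((hasDerivAt_id y).const_mul Real.pi).exp
      simpa using this
    have h2 := (h1.arctan).const_mul (1 / Real.pi)
    refine h2.congr_deriv ?_
    unfold Ks
    rw [Real.cosh_eq, Real.exp_neg]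
    have h4 : 0 < Real.exp (Real.pi * y) := Real.exp_pos _
    field_simp
    ring
  have h := integral_of_hasDerivAt_of_tendsto hder integrable_Ks (m := 0) (n := 1 / 2) ?_ ?_
  · rw [h]; norm_num
  · have h1 : Tendsto (fun y : ℝ => Real.pi * y) atBot atBot :=
      tendsto_id.const_mul_atBot hpi
    have h2 := (Real.continuous_arctan.tendsto 0).comp (Real.tendsto_exp_atBot.comp h1)
    have h3 := h2.const_mul (1 / Real.pi)
    simpa using h3
  · have h1 : Tendsto (fun y : ℝ => Real.pi * y) atTop atTop :=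
      tendsto_id.const_mul_atTop hpi
    have h2 := (tendsto_nhds_of_tendsto_nhdsWithin Real.tendsto_arctan_atTop).comp
      (Real.tendsto_exp_atTop.comp h1)
    have h3 := h2.const_mul (1 / Real.pi)
    have e : 1 / Real.pi * (Real.pi / 2) = 1 / 2 := by field_simp
    rw [e] at h3
    exact h3

theorem integral_Ks_complex : ∫ y : ℝ, (Ks y : ℂ) = 1 / 2 := by
  rw [integral_complex_ofReal, integral_Ks]
  push_cast
  rfl

/-- the sine on the line through a half integer -/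
theorem sin_line (m : ℤ) (y : ℝ) :
    Complex.sin (Real.pi * ((m : ℂ) - 1 / 2 + (y : ℂ) * Complex.I)) =
      -(Complex.cos ((m : ℂ) * Real.pi) * ((Real.cosh (Real.pi * y) : ℝ) : ℂ)) := by
  have e : (Real.pi : ℂ) * ((m : ℂ) - 1 / 2 + (y : ℂ) * Complex.I) =
      ((m : ℂ) * Real.pi + ((Real.pi * y : ℝ) : ℂ) * Complex.I) - Real.pi / 2 := by
    push_cast
    ring
  rw [e, Complex.sin_sub_pi_div_two, Complex.cos_add, Complex.sin_int_mul_pi, zero_mul, sub_zero,
    Complex.cos_mul_I]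
  push_cast
  ring

theorem cos_sq_int (m : ℤ) : Complex.cos ((m : ℂ) * Real.pi) ^ 2 = 1 := by
  have := Complex.sin_sq_add_cos_sq ((m : ℂ) * Real.pi)
  rw [Complex.sin_int_mul_pi] at this
  simpa using this

theorem cos_int_ne (m : ℤ) : Complex.cos ((m : ℂ) * Real.pi) ≠ 0 := by
  intro h
  have := cos_sq_int m
  rw [h] at this
  norm_num at this

theorem cos_int_succ (m : ℤ) :
    Complex.cos (((m + 1 : ℤ) : ℂ) * Real.pi) = -Complex.cos ((m : ℂ) * Real.pi) := by
  have e : ((m + 1 : ℤ) : ℂ) * Real.pi = (m : ℂ) * Real.pi + Real.pi := by push_cast; ring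
  rw [e, Complex.cos_add_pi]

/-- the remainder times the cosecant, as an analytic function -/
noncomputable def Phi1 (m : ℤ) (g : ℂ → ℂ) (t : ℂ) : ℂ := dslope g (m : ℂ) t / Sq m t

theorem Phi1_mul (m : ℤ) (g : ℂ → ℂ) (t : ℂ) (h : Sq m t ≠ 0) :
    Phi1 m g t * Complex.sin (Real.pi * t) = g t - g m := by
  have h1 := sub_smul_dslope g (m : ℂ) t
  simp only [smul_eq_mul] at h1
  rw [Phi1, ← Sq_mul m t, ← h1]
  field_simp

theorem Phi1_differentiable (m : ℤ) (g : ℂ → ℂ) (U : Set ℂ) (hU : IsOpen U)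
    (hsub : ∀ t : ℂ, (m : ℝ) - 1 / 2 ≤ t.re → t.re ≤ (m : ℝ) + 1 / 2 → t ∈ U)
    (hg : DifferentiableOn ℂ g U) (t : ℂ) (h1 : (m : ℝ) - 1 / 2 ≤ t.re)
    (h2 : t.re ≤ (m : ℝ) + 1 / 2) : DifferentiableAt ℂ (Phi1 m g) t := by
  have hm : U ∈ 𝓝 (m : ℂ) := hU.mem_nhds (hsub _ (by simp) (by simp))
  have hh : DifferentiableOn ℂ (dslope g (m : ℂ)) U := (Complex.differentiableOn_dslope hm).mpr hg
  have ht : U ∈ 𝓝 t := hU.mem_nhds (hsub t h1 h2)
  exact (hh.differentiableAt ht).div (differentiable_Sq m t) (Sq_ne_zero m t h1 h2)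

theorem Phi1_line (m : ℤ) (g : ℂ → ℂ) (m' : ℤ) (y : ℝ) (hm' : m' = m ∨ m' = m + 1) :
    Phi1 m g ((m' : ℂ) - 1 / 2 + (y : ℂ) * Complex.I) =
      -(2 * Complex.cos ((m' : ℂ) * Real.pi)) *
        ((g ((m' : ℂ) - 1 / 2 + (y : ℂ) * Complex.I) - g m) * (Ks y : ℂ)) := by
  have hre : ((m' : ℂ) - 1 / 2 + (y : ℂ) * Complex.I).re = (m' : ℝ) - 1 / 2 := by simp
  have hne : Sq m ((m' : ℂ) - 1 / 2 + (y : ℂ) * Complex.I) ≠ 0 := by
    refine Sq_ne_zero m _ ?_ ?_ <;> rw [hre] <;> rcases hm' with h | h <;> rw [h] <;>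
      push_cast <;> linarith
  have h1 := Phi1_mul m g _ hne
  rw [sin_line] at h1
  have h2 : ((Real.cosh (Real.pi * y) : ℝ) : ℂ) ≠ 0 := by
    exact_mod_cast (Real.cosh_pos (Real.pi * y)).ne'
  have h3 : (Ks y : ℂ) * (2 * ((Real.cosh (Real.pi * y) : ℝ) : ℂ)) = 1 := by
    have : Ks y * (2 * Real.cosh (Real.pi * y)) = 1 := by
      unfold Ks
      have := Real.cosh_pos (Real.pi * y)
      field_simp
    exact_mod_cast this
  have h4 := cos_sq_int m'
  set c := Complex.cos ((m' : ℂ) * Real.pi) with hc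
  set ch := ((Real.cosh (Real.pi * y) : ℝ) : ℂ) with hch
  set P := Phi1 m g ((m' : ℂ) - 1 / 2 + (y : ℂ) * Complex.I) with hP
  rw [← h1]
  linear_combination (-P) * h4 + (-P * c ^ 2) * h3

/-- exponential decay on the horizontal sides -/
theorem Phi1_decay (m : ℤ) (g : ℂ → ℂ) (hgr : PolyGrowth m g) :
    ∃ K : ℝ, 0 ≤ K ∧ ∀ t : ℂ, (m : ℝ) - 1 / 2 ≤ t.re → t.re ≤ (m : ℝ) + 1 / 2 → 1 ≤ |t.im| →
      ‖Phi1 m g t‖ ≤ K * Real.exp (-|t.im|) := by
  obtain ⟨C, d, hC⟩ := hgr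
  set C1 : ℝ := |C| + ‖g m‖ with hC1
  have hC1n : 0 ≤ C1 := by positivity
  refine ⟨C1 * ((d.factorial : ℝ) * Real.exp 1) * 4, by positivity, ?_⟩
  intro t h1 h2 h3
  have hne := Sq_ne_zero m t h1 h2
  have hP := Phi1_mul m g t hne
  have hN : ‖Phi1 m g t‖ * ‖Complex.sin (Real.pi * t)‖ = ‖g t - g m‖ := by
    rw [← hP, norm_mul]
  have hone : (1 : ℝ) ≤ 1 + |t.im| := by linarith [abs_nonneg t.im]
  have hR : ‖g t - g m‖ ≤ C1 * (1 + |t.im|) ^ d := by
    have a1 : ‖g t‖ ≤ |C| * (1 + |t.im|) ^ d := by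
      calc ‖g t‖ ≤ C * (1 + |t.im|) ^ d := hC t h1 h2
        _ ≤ |C| * (1 + |t.im|) ^ d := by gcongr; exact le_abs_self C
    have a2 : ‖g m‖ ≤ ‖g m‖ * (1 + |t.im|) ^ d :=
      le_mul_of_one_le_right (norm_nonneg _) (one_le_pow₀ hone)
    calc ‖g t - g m‖ ≤ ‖g t‖ + ‖g m‖ := norm_sub_le _ _
      _ ≤ |C| * (1 + |t.im|) ^ d + ‖g m‖ * (1 + |t.im|) ^ d := by linarith
      _ = C1 * (1 + |t.im|) ^ d := by rw [hC1]; ring
  have hS : Real.exp (Real.pi * |t.im|) / 4 ≤ ‖Complex.sin (Real.pi * t)‖ := by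
    have b1 := sinh_lower |t.im| h3
    have b2 : Real.sinh (Real.pi * t.im) ^ 2 = Real.sinh (Real.pi * |t.im|) ^ 2 := by
      rcases abs_cases t.im with ⟨h, _⟩ | ⟨h, _⟩ <;> rw [h]
      rw [mul_neg, Real.sinh_neg, neg_sq]
    have b3 : Real.sinh (Real.pi * |t.im|) ^ 2 ≤ ‖Complex.sin (Real.pi * t)‖ ^ 2 :=
      b2 ▸ sinh_sq_le t
    have b4 : 0 ≤ Real.sinh (Real.pi * |t.im|) := by
      refine le_trans ?_ b1
      positivity
    exact b1.trans ((pow_le_pow_iff_left₀ b4 (norm_nonneg _) two_ne_zero).mp b3)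
  have hE : 0 < Real.exp (Real.pi * |t.im|) := Real.exp_pos _
  have h5 : ‖Phi1 m g t‖ * (Real.exp (Real.pi * |t.im|) / 4) ≤ C1 * (1 + |t.im|) ^ d := by
    calc ‖Phi1 m g t‖ * (Real.exp (Real.pi * |t.im|) / 4)
        ≤ ‖Phi1 m g t‖ * ‖Complex.sin (Real.pi * t)‖ := by gcongr
      _ = ‖g t - g m‖ := hN
      _ ≤ C1 * (1 + |t.im|) ^ d := hR
  have h6 := pow_le_exp_aux d |t.im| (abs_nonneg _)
  have h7 : Real.exp |t.im| * Real.exp |t.im| ≤ Real.exp (Real.pi * |t.im|) := by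
    rw [← Real.exp_add, Real.exp_le_exp]
    have := Real.pi_gt_three
    nlinarith [abs_nonneg t.im]
  have h8 : Real.exp (-|t.im|) * Real.exp |t.im| = 1 := by
    rw [← Real.exp_add]
    simp
  have h9 : ‖Phi1 m g t‖ * Real.exp (Real.pi * |t.im|) ≤
      C1 * ((d.factorial : ℝ) * Real.exp 1) * 4 * Real.exp |t.im| := by
    calc ‖Phi1 m g t‖ * Real.exp (Real.pi * |t.im|)
        = 4 * (‖Phi1 m g t‖ * (Real.exp (Real.pi * |t.im|) / 4)) := by ring
      _ ≤ 4 * (C1 * (1 + |t.im|) ^ d) := by gcongr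
      _ ≤ 4 * (C1 * ((d.factorial : ℝ) * Real.exp 1 * Real.exp |t.im|)) := by gcongr
      _ = _ := by ring
  have h10 : ‖Phi1 m g t‖ * Real.exp |t.im| ≤ C1 * ((d.factorial : ℝ) * Real.exp 1) * 4 := by
    have c1 : ‖Phi1 m g t‖ * Real.exp |t.im| * Real.exp |t.im| ≤
        C1 * ((d.factorial : ℝ) * Real.exp 1) * 4 * Real.exp |t.im| := by
      calc ‖Phi1 m g t‖ * Real.exp |t.im| * Real.exp |t.im|
          = ‖Phi1 m g t‖ * (Real.exp |t.im| * Real.exp |t.im|) := by ring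
        _ ≤ ‖Phi1 m g t‖ * Real.exp (Real.pi * |t.im|) := by gcongr
        _ ≤ _ := h9
    exact le_of_mul_le_mul_right c1 (Real.exp_pos _)
  calc ‖Phi1 m g t‖ = (‖Phi1 m g t‖ * Real.exp |t.im|) * Real.exp (-|t.im|) := by
        rw [mul_assoc, mul_comm (Real.exp |t.im|), h8, mul_one]
    _ ≤ _ := by gcongr

/-- the horizontal sides vanish in the limit -/
theorem horiz1_tendsto (m : ℤ) (g : ℂ → ℂ) (hgr : PolyGrowth m g) (s : ℝ) (hs : |s| = 1) :
    Tendsto (fun T : ℝ => ∫ x : ℝ in ((m : ℝ) - 1 / 2)..((m : ℝ) + 1 / 2),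
      Phi1 m g ((x : ℂ) + ((s * T : ℝ) : ℂ) * Complex.I)) atTop (𝓝 0) := by
  obtain ⟨K, hK0, hK⟩ := Phi1_decay m g hgr
  have hlim : Tendsto (fun T : ℝ => K * Real.exp (-T)) atTop (𝓝 0) := by
    have := (Real.tendsto_exp_neg_atTop_nhds_zero).const_mul K
    simpa using this
  refine squeeze_zero_norm' ?_ hlim
  filter_upwards [eventually_ge_atTop 1] with T hT
  have hb : ∀ x ∈ Set.uIoc ((m : ℝ) - 1 / 2) ((m : ℝ) + 1 / 2),
      ‖Phi1 m g ((x : ℂ) + ((s * T : ℝ) : ℂ) * Complex.I)‖ ≤ K * Real.exp (-T) := by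
    intro x hx
    rw [Set.uIoc_of_le (by linarith)] at hx
    have e1 : ((x : ℂ) + ((s * T : ℝ) : ℂ) * Complex.I).re = x := by simp
    have e2 : |((x : ℂ) + ((s * T : ℝ) : ℂ) * Complex.I).im| = T := by
      have : ((x : ℂ) + ((s * T : ℝ) : ℂ) * Complex.I).im = s * T := by
        rw [Complex.add_im, Complex.ofReal_im, Complex.im_ofReal_mul, Complex.I_im]
        ring
      rw [this, abs_mul, hs, one_mul, abs_of_nonneg (by linarith)]
    have := hK ((x : ℂ) + ((s * T : ℝ) : ℂ) * Complex.I) (by rw [e1]; exact hx.1.le)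
      (by rw [e1]; exact hx.2) (by rw [e2]; exact hT)
    rwa [e2] at this
  have := intervalIntegral.norm_integral_le_of_norm_le_const hb
  rwa [show ((m : ℝ) + 1 / 2) - ((m : ℝ) - 1 / 2) = 1 by ring, abs_one, mul_one] at this

/-- integrability of `g` on one of the two lines -/
theorem line1_integrable (m : ℤ) (g : ℂ → ℂ) (U : Set ℂ) (hU : IsOpen U)
    (hsub : ∀ t : ℂ, (m : ℝ) - 1 / 2 ≤ t.re → t.re ≤ (m : ℝ) + 1 / 2 → t ∈ U)
    (hg : DifferentiableOn ℂ g U) (hgr : PolyGrowth m g) (m' : ℤ) (hm' : m' = m ∨ m' = m + 1) :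
    Integrable (fun y : ℝ => g ((m' : ℂ) - 1 / 2 + (y : ℂ) * Complex.I) * (Ks y : ℂ)) := by
  obtain ⟨C, d, hC⟩ := hgr
  have h1 : ∀ y : ℝ, (m : ℝ) - 1 / 2 ≤ ((m' : ℂ) - 1 / 2 + (y : ℂ) * Complex.I).re := by
    intro y
    rw [line_re]
    rcases hm' with h | h <;> rw [h] <;> push_cast <;> linarith
  have h2 : ∀ y : ℝ, ((m' : ℂ) - 1 / 2 + (y : ℂ) * Complex.I).re ≤ (m : ℝ) + 1 / 2 := by
    intro y
    rw [line_re]
    rcases hm' with h | h <;> rw [h] <;> push_cast <;> linarith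
  refine integrable_Ks_mul (fun y : ℝ => g ((m' : ℂ) - 1 / 2 + (y : ℂ) * Complex.I)) ?_ C d ?_
  · rw [continuous_iff_continuousAt]
    intro y
    have hc : ContinuousAt g ((m' : ℂ) - 1 / 2 + (y : ℂ) * Complex.I) :=
      (hg.differentiableAt (hU.mem_nhds (hsub _ (h1 y) (h2 y)))).continuousAt
    exact ContinuousAt.comp (f := fun y : ℝ => (m' : ℂ) - 1 / 2 + (y : ℂ) * Complex.I) hc
      (Continuous.continuousAt (continuous_const.add
        (Complex.continuous_ofReal.mul continuous_const)))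
  · intro y
    have := hC _ (h1 y) (h2 y)
    rwa [line_im] at this

theorem Rem1_integrable (m : ℤ) (g : ℂ → ℂ) (U : Set ℂ) (hU : IsOpen U)
    (hsub : ∀ t : ℂ, (m : ℝ) - 1 / 2 ≤ t.re → t.re ≤ (m : ℝ) + 1 / 2 → t ∈ U)
    (hg : DifferentiableOn ℂ g U) (hgr : PolyGrowth m g) (m' : ℤ) (hm' : m' = m ∨ m' = m + 1) :
    Integrable (fun y : ℝ =>
      (g ((m' : ℂ) - 1 / 2 + (y : ℂ) * Complex.I) - g m) * (Ks y : ℂ)) := by
  have h := (line1_integrable m g U hU hsub hg hgr m' hm').sub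
    (integrable_Ks_complex.const_mul (g m))
  refine h.congr (Eventually.of_forall fun y => ?_)
  simp only [Pi.sub_apply]
  ring

theorem Rem1_integral (m : ℤ) (g : ℂ → ℂ) (U : Set ℂ) (hU : IsOpen U)
    (hsub : ∀ t : ℂ, (m : ℝ) - 1 / 2 ≤ t.re → t.re ≤ (m : ℝ) + 1 / 2 → t ∈ U)
    (hg : DifferentiableOn ℂ g U) (hgr : PolyGrowth m g) (m' : ℤ) (hm' : m' = m ∨ m' = m + 1) :
    ∫ y : ℝ, (g ((m' : ℂ) - 1 / 2 + (y : ℂ) * Complex.I) - g m) * (Ks y : ℂ) =
      J m' g - g m / 2 := by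
  have i1 := line1_integrable m g U hU hsub hg hgr m' hm'
  have i2 := integrable_Ks_complex.const_mul (g m)
  have e : (fun y : ℝ => (g ((m' : ℂ) - 1 / 2 + (y : ℂ) * Complex.I) - g m) * (Ks y : ℂ)) =
      fun y : ℝ => g ((m' : ℂ) - 1 / 2 + (y : ℂ) * Complex.I) * (Ks y : ℂ) -
      g m * (Ks y : ℂ) := by
    funext y
    ring
  rw [e, integral_sub i1 i2, integral_const_mul, integral_Ks_complex, J]
  ring

/-- moving the line across the integer m -/
theorem J_shift (m : ℤ) (g : ℂ → ℂ) (U : Set ℂ) (hU : IsOpen U)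
    (hsub : ∀ t : ℂ, (m : ℝ) - 1 / 2 ≤ t.re → t.re ≤ (m : ℝ) + 1 / 2 → t ∈ U)
    (hg : DifferentiableOn ℂ g U) (hgr : PolyGrowth m g) :
    J m g + J (m + 1) g = g m := by
  set c : ℂ := Complex.cos ((m : ℂ) * Real.pi) with hc
  have hc0 : c ≠ 0 := cos_int_ne m
  -- the two vertical integrals of the remainder agree
  have hrect : ∀ T : ℝ, 0 < T →
      (∫ x : ℝ in ((m : ℝ) - 1 / 2)..((m : ℝ) + 1 / 2),
        Phi1 m g ((x : ℂ) + (((-1) * T : ℝ) : ℂ) * Complex.I)) -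
      (∫ x : ℝ in ((m : ℝ) - 1 / 2)..((m : ℝ) + 1 / 2),
        Phi1 m g ((x : ℂ) + ((1 * T : ℝ) : ℂ) * Complex.I)) +
      Complex.I * (∫ y : ℝ in (-T)..T, (2 * c) *
        ((g (((m + 1 : ℤ) : ℂ) - 1 / 2 + (y : ℂ) * Complex.I) - g m) * (Ks y : ℂ))) -
      Complex.I * (∫ y : ℝ in (-T)..T, (-(2 * c)) *
        ((g ((m : ℂ) - 1 / 2 + (y : ℂ) * Complex.I) - g m) * (Ks y : ℂ))) = 0 := by
    intro T hT
    have h := Complex.integral_boundary_rect_eq_zero_of_differentiableOn (Phi1 m g)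
      ⟨(m : ℝ) - 1 / 2, -T⟩ ⟨(m : ℝ) + 1 / 2, T⟩ ?_
    · simp only [smul_eq_mul] at h
      have e1 : ∀ y : ℝ, (((m : ℝ) + 1 / 2 : ℝ) : ℂ) + (y : ℂ) * Complex.I =
          ((m + 1 : ℤ) : ℂ) - 1 / 2 + (y : ℂ) * Complex.I := by
        intro y
        push_cast
        ring
      have e2 : ∀ y : ℝ, (((m : ℝ) - 1 / 2 : ℝ) : ℂ) + (y : ℂ) * Complex.I =
          (m : ℂ) - 1 / 2 + (y : ℂ) * Complex.I := by
        intro y
        push_cast
        ring
      have e3 : -(2 * Complex.cos (((m + 1 : ℤ) : ℂ) * Real.pi)) = 2 * c := by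
        rw [cos_int_succ]
        ring
      simp only [e1, e2, Phi1_line m g (m + 1) _ (Or.inr rfl), Phi1_line m g m _ (Or.inl rfl),
        e3] at h
      rw [show (-1 : ℝ) * T = -T by ring, show (1 : ℝ) * T = T by ring]
      exact h
    · intro t ht
      rw [Complex.mem_reProdIm] at ht
      have h1 := ht.1
      rw [Set.uIcc_of_le (by simp only; linarith)] at h1
      exact (Phi1_differentiable m g U hU hsub hg t h1.1 h1.2).differentiableWithinAt
  have l1 := horiz1_tendsto m g hgr (-1) (by norm_num)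
  have l2 := horiz1_tendsto m g hgr 1 (by norm_num)
  have l3 := intervalIntegral_tendsto_integral
    ((Rem1_integrable m g U hU hsub hg hgr (m + 1) (Or.inr rfl)).const_mul (2 * c))
    tendsto_neg_atTop_atBot tendsto_id
  have l4 := intervalIntegral_tendsto_integral
    ((Rem1_integrable m g U hU hsub hg hgr m (Or.inl rfl)).const_mul (-(2 * c)))
    tendsto_neg_atTop_atBot tendsto_id
  have l5 := ((l1.sub l2).add (l3.const_mul Complex.I)).sub (l4.const_mul Complex.I)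
  have l6 := tendsto_nhds_unique (l5.congr' (by
    filter_upwards [eventually_gt_atTop 0] with T hT
    exact hrect T hT)) tendsto_const_nhds
  rw [integral_const_mul, integral_const_mul,
    Rem1_integral m g U hU hsub hg hgr (m + 1) (Or.inr rfl),
    Rem1_integral m g U hU hsub hg hgr m (Or.inl rfl)] at l6
  have l7 : (Complex.I * (2 * c)) * (J m g + J (m + 1) g - g m) = 0 := by
    linear_combination l6
  have l8 := (mul_eq_zero.mp l7).resolve_left
    (mul_ne_zero Complex.I_ne_zero (mul_ne_zero two_ne_zero hc0))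
  linear_combination l8

end Pool.Agent.Z23
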