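import Pool.Agent.Z23.Arch
import Pool.Agent.Z23.PsiGen
import Pool.Agent.Z23.Sech

/-!
The size of the two integrals for a general configuration: integer zero blocks `[a1,b1)`, `[a2,b2)`,
half-integer block `[h,b3)`, poles `[c1,d1)`, `[c2,d2)` (in units of `N`, with offsets `e1`, `e2`).
-/

open Finset Filter Topology Complex
open scoped BigOperators

namespace Pool.Agent.Z23

open Pool.Agent.Z3 (Hf Iint Ker Ker_le Ker_pos)

/-- the parameters -/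
structure Cfg where
  a1 : ℕ
  b1 : ℕ
  a2 : ℕ
  b2 : ℕ
  h : ℕ
  b3 : ℕ
  c1 : ℕ
  d1 : ℕ
  e1 : ℕ
  c2 : ℕ
  d2 : ℕ
  e2 : ℕ

/-- the conditions -/
structure Cfg.Ok (k : Cfg) : Prop where
  a1h : k.a1 < k.h
  hb1 : k.h < k.b1
  a2h : k.a2 < k.h
  hb2 : k.h < k.b2
  hb3 : k.h < k.b3
  hc1 : k.h + 3 ≤ k.c1
  cd1 : k.c1 ≤ k.d1
  hc2 : k.h + 3 ≤ k.c2
  cd2 : k.c2 ≤ k.d2
  bal : k.b1 + k.b2 + k.b3 + k.c1 + k.c2 = k.a1 + k.a2 + k.h + k.d1 + k.d2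

/-- the list for `PsiL` -/
noncomputable def Cfg.l (k : Cfg) : List (ℝ × ℝ) :=
  [(1, ((k.h - k.a1 : ℕ) : ℝ)), (1, ((k.b1 - k.h : ℕ) : ℝ)), (1, ((k.h - k.a2 : ℕ) : ℝ)),
    (1, ((k.b2 - k.h : ℕ) : ℝ)), (1, ((k.b3 - k.h : ℕ) : ℝ)), (-1, ((k.d1 - k.h : ℕ) : ℝ)),
    (1, ((k.c1 - k.h : ℕ) : ℝ)), (-1, ((k.d2 - k.h : ℕ) : ℝ)), (1, ((k.c2 - k.h : ℕ) : ℝ))]

/-- the rational function -/
noncomputable def Cfg.R (k : Cfg) (N j : ℕ) (t : ℂ) : ℂ :=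
  t ^ j * ((∏ i ∈ Ico (k.a1 * N) (k.b1 * N), (t + (i : ℂ))) *
    (∏ i ∈ Ico (k.a2 * N) (k.b2 * N), (t + (i : ℂ))) *
    ∏ i ∈ Ico (k.h * N) (k.b3 * N), (t + (i : ℂ) + 1 / 2)) /
  ((∏ i ∈ Ico (k.c1 * N) (k.d1 * N + k.e1), (t + (i : ℂ))) *
    ∏ i ∈ Ico (k.c2 * N) (k.d2 * N + k.e2), (t + (i : ℂ)))

theorem norm_lin_le (h : ℕ) (θ : ℝ) (h0 : 0 ≤ θ) (h1 : θ ≤ 1) (y : ℝ) :
    ‖lin h θ y‖ ≤ h + |y| + 1 := by
  unfold lin
  refine (norm_add_le _ _).trans ?_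
  rw [Complex.norm_real, norm_mul, Complex.norm_I, Complex.norm_real, Real.norm_eq_abs,
    Real.norm_eq_abs, mul_one, abs_of_nonpos (by
      have : (0 : ℝ) ≤ h := Nat.cast_nonneg h
      linarith)]
  linarith

/-- pointwise bound -/
theorem Cfg.R_bound (k : Cfg) (hk : k.Ok) (N j : ℕ) (hN : 1 ≤ N) (hj : j ≤ 2) (θ : ℝ)
    (h0 : 0 ≤ θ) (h1 : θ ≤ 1) (y : ℝ) :
    ‖k.R N j (lin (k.h * N) θ y)‖ ≤
      (((k.b1 + k.b2 + k.b3 + k.d1 + k.d2 + k.e1 + k.e2 + 10 : ℕ) : ℝ) * ((N : ℝ) + |y|)) ^ 20 *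
        Real.exp (N * (PsiL k.l (|y| / N) + 2 * Real.pi * (|y| / N))) := by
  have hN' : (1 : ℝ) ≤ N := by exact_mod_cast hN
  have hy := abs_nonneg y
  set S : ℕ := k.b1 + k.b2 + k.b3 + k.d1 + k.d2 + k.e1 + k.e2 + 10 with hS
  set X : ℝ := (S : ℝ) * ((N : ℝ) + |y|) with hX
  have hSb : ∀ b : ℕ, b + 10 ≤ S → (b : ℝ) * N + |y| + 5 ≤ X := by
    intro b hb
    have hb' : (b : ℝ) + 10 ≤ S := by exact_mod_cast hb
    have h2 : ((b : ℝ) + 10) * ((N : ℝ) + |y|) ≤ X :=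
      mul_le_mul_of_nonneg_right hb' (by positivity)
    have h3 : 0 ≤ (b : ℝ) * |y| := by positivity
    nlinarith
  have hX0 : 0 < X := by
    have := hSb 0 (by omega)
    push_cast at this
    linarith
  set L : ℝ := Real.log X with hL
  have hexpL : Real.exp L = X := Real.exp_log hX0
  have hL0 : 0 ≤ L := Real.log_nonneg (by
    have := hSb 0 (by omega)
    push_cast at this
    linarith)
  -- the five blocks
  have p1 := sblk_up k.a1 k.h k.b1 N hk.a1h hk.hb1 hN θ h0 h1 y L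
    (by rw [hexpL]; exact hSb k.b1 (by omega))
  have p2 := sblk_up k.a2 k.h k.b2 N hk.a2h hk.hb2 hN θ h0 h1 y L
    (by rw [hexpL]; exact hSb k.b2 (by omega))
  have p3 := sblk_half k.h k.b3 N hk.hb3 hN θ h0 h1 y L
    (by rw [hexpL]; exact hSb k.b3 (by omega))
  have p4 := sblk_down k.c1 k.h k.d1 k.e1 N hk.hc1 hk.cd1 hN θ h1 y L (by
    rw [hexpL]
    refine le_trans ?_ (hSb (k.d1 + k.e1) (by omega))
    push_cast
    nlinarith [mul_nonneg (Nat.cast_nonneg (α := ℝ) k.e1) (sub_nonneg.2 hN')])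
  have p5 := sblk_down k.c2 k.h k.d2 k.e2 N hk.hc2 hk.cd2 hN θ h1 y L (by
    rw [hexpL]
    refine le_trans ?_ (hSb (k.d2 + k.e2) (by omega))
    push_cast
    nlinarith [mul_nonneg (Nat.cast_nonneg (α := ℝ) k.e2) (sub_nonneg.2 hN')])
  have p0 : ‖lin (k.h * N) θ y ^ j‖ ≤ Real.exp (2 * L) := by
    have q1 : ‖lin (k.h * N) θ y‖ ≤ X := by
      refine (norm_lin_le _ θ h0 h1 y).trans ?_
      have := hSb k.h (by have := hk.hb1; omega)
      push_cast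
      linarith
    have q2 : ‖lin (k.h * N) θ y‖ ^ j ≤ X ^ j := pow_le_pow_left₀ (norm_nonneg _) q1 j
    have q3 : X ^ j ≤ X ^ 2 := by
      refine pow_le_pow_right₀ ?_ hj
      have := hSb 0 (by omega)
      push_cast at this
      linarith
    have q4 : Real.exp (2 * L) = X ^ 2 := by
      rw [two_mul, Real.exp_add, hexpL]; ring
    rw [norm_pow, q4]
    exact q2.trans q3
  set A1 := ‖∏ i ∈ Ico (k.a1 * N) (k.b1 * N), (lin (k.h * N) θ y + (i : ℂ))‖ with hA1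
  set A2 := ‖∏ i ∈ Ico (k.a2 * N) (k.b2 * N), (lin (k.h * N) θ y + (i : ℂ))‖ with hA2
  set A3 := ‖∏ i ∈ Ico (k.h * N) (k.b3 * N), (lin (k.h * N) θ y + (i : ℂ) + 1 / 2)‖ with hA3
  set A4 := ‖∏ i ∈ Ico (k.c1 * N) (k.d1 * N + k.e1), (lin (k.h * N) θ y + (i : ℂ))‖ with hA4
  set A5 := ‖∏ i ∈ Ico (k.c2 * N) (k.d2 * N + k.e2), (lin (k.h * N) θ y + (i : ℂ))‖ with hA5
  have hR : ‖k.R N j (lin (k.h * N) θ y)‖ =
      ‖lin (k.h * N) θ y ^ j‖ * (A1 * A2 * A3) / (A4 * A5) := by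
    unfold Cfg.R
    rw [norm_div, norm_mul, norm_mul, norm_mul, norm_mul]
  rw [hR]
  set z := |y| / N with hz
  set E1 := N * (Hf (k.h - k.a1 : ℕ) z + Hf (k.b1 - k.h : ℕ) z)
        + N * ((k.b1 : ℝ) - k.a1) * Real.log N + 6 * L with hE1
  set E2 := N * (Hf (k.h - k.a2 : ℕ) z + Hf (k.b2 - k.h : ℕ) z)
        + N * ((k.b2 : ℝ) - k.a2) * Real.log N + 6 * L with hE2
  set E3 := N * Hf (k.b3 - k.h : ℕ) z + N * ((k.b3 : ℝ) - k.h) * Real.log N + 2 * L with hE3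
  set E4 := N * (Hf (k.d1 - k.h : ℕ) z - Hf (k.c1 - k.h : ℕ) z)
        + N * ((k.d1 : ℝ) - k.c1) * Real.log N - 2 * L with hE4
  set E5 := N * (Hf (k.d2 - k.h : ℕ) z - Hf (k.c2 - k.h : ℕ) z)
        + N * ((k.d2 : ℝ) - k.c2) * Real.log N - 2 * L with hE5
  have hnn : ∀ x : ℂ, 0 ≤ ‖x‖ := fun x => norm_nonneg x
  have hA1' : 0 ≤ A1 := norm_nonneg _
  have hA2' : 0 ≤ A2 := norm_nonneg _
  have hA3' : 0 ≤ A3 := norm_nonneg _
  have s1 : ‖lin (k.h * N) θ y ^ j‖ * (A1 * A2 * A3) / (A4 * A5) ≤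
      Real.exp (2 * L) * (Real.exp E1 * Real.exp E2 * Real.exp E3) /
        (Real.exp E4 * Real.exp E5) := by
    gcongr
  refine s1.trans ?_
  rw [← Real.exp_add, ← Real.exp_add, ← Real.exp_add, ← Real.exp_add, ← Real.exp_sub]
  have hpow : X ^ 20 = Real.exp (20 * L) := by
    have := Real.exp_nat_mul L 20
    rw [hexpL] at this
    rw [← this]
    norm_num
  rw [hpow, ← Real.exp_add, Real.exp_le_exp]
  have hbal : (k.b1 : ℝ) + k.b2 + k.b3 + k.c1 + k.c2 = k.a1 + k.a2 + k.h + k.d1 + k.d2 := by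
    exact_mod_cast hk.bal
  have hPsi : PsiL k.l z + 2 * Real.pi * z =
      (Hf (k.h - k.a1 : ℕ) z + Hf (k.b1 - k.h : ℕ) z) +
        (Hf (k.h - k.a2 : ℕ) z + Hf (k.b2 - k.h : ℕ) z) + Hf (k.b3 - k.h : ℕ) z -
        (Hf (k.d1 - k.h : ℕ) z - Hf (k.c1 - k.h : ℕ) z) -
        (Hf (k.d2 - k.h : ℕ) z - Hf (k.c2 - k.h : ℕ) z) := by
    unfold PsiL Cfg.l
    simp only [List.map_cons, List.map_nil, List.sum_cons, List.sum_nil]
    ring
  rw [hPsi, hE1, hE2, hE3, hE4, hE5]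
  have hcanc : (N : ℝ) * Real.log N * (((k.b1 : ℝ) - k.a1) + ((k.b2 : ℝ) - k.a2) +
      ((k.b3 : ℝ) - k.h) - ((k.d1 : ℝ) - k.c1) - ((k.d2 : ℝ) - k.c2)) = 0 := by
    have : ((k.b1 : ℝ) - k.a1) + ((k.b2 : ℝ) - k.a2) +
      ((k.b3 : ℝ) - k.h) - ((k.d1 : ℝ) - k.c1) - ((k.d2 : ℝ) - k.c2) = 0 := by linarith
    rw [this, mul_zero]
  nlinarith [hcanc, hL0]

/-- the integral against the squared kernel -/
theorem Cfg.F3_bound (k : Cfg) (hk : k.Ok) (c z0 s : ℝ) (hs : 0 < s) (hz0 : 0 ≤ z0)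
    (h1 : ∀ z, 0 ≤ z → PsiL k.l z ≤ -c)
    (h2 : ∀ z, 0 ≤ z → z0 ≤ z → PsiL k.l z ≤ -c - (z - z0) / s) :
    ∃ C : ℝ, ∃ D : ℕ, ∀ N j : ℕ, 1 ≤ N → j ≤ 2 →
      ‖Iint (-((k.h * N : ℕ) : ℤ)) (k.R N j)‖ ≤ C * (N : ℝ) ^ D * Real.exp (-(c * N)) := by
  set S : ℕ := k.b1 + k.b2 + k.b3 + k.d1 + k.d2 + k.e1 + k.e2 + 10 with hS
  obtain ⟨C, D, H⟩ := int_bound (PsiL k.l) c z0 s h1 h2 hs hz0 (S : ℝ) (Nat.cast_nonneg _) 21
  refine ⟨C, D, fun N j hN hj => ?_⟩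
  have hN' : (1 : ℝ) ≤ N := by exact_mod_cast hN
  refine H N hN _ fun y => ?_
  have hy := abs_nonneg y
  have e : ((-((k.h * N : ℕ) : ℤ) : ℤ) : ℂ) - 1 / 2 + (y : ℂ) * Complex.I =
      lin (k.h * N) (1 / 2) y := by
    unfold lin
    push_cast
    ring
  rw [e, norm_mul, Complex.norm_real, Real.norm_eq_abs, abs_of_pos (Ker_pos y)]
  have b1 := k.R_bound hk N j hN hj (1 / 2) (by norm_num) (by norm_num) y
  have b2 := Ker_le y
  rw [← hS] at b1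
  set X : ℝ := (S : ℝ) * ((N : ℝ) + |y|) with hX
  have hX1 : 2 * Real.pi ≤ X := by
    have h3 : (10 : ℝ) ≤ S := by
      have : 10 ≤ S := by omega
      exact_mod_cast this
    have h4 : (10 : ℝ) * 1 ≤ X := mul_le_mul h3 (by linarith) (by norm_num) (by positivity)
    have := Real.pi_lt_four
    linarith
  have hX0 : 0 < X := lt_of_lt_of_le (by positivity) hX1
  calc ‖k.R N j (lin (k.h * N) (1 / 2) y)‖ * Ker y
      ≤ (X ^ 20 * Real.exp (N * (PsiL k.l (|y| / N) + 2 * Real.pi * (|y| / N)))) *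
        (2 * Real.pi * Real.exp (-(2 * Real.pi * |y|))) :=
        mul_le_mul b1 b2 (Ker_pos y).le (by positivity)
    _ = 2 * Real.pi * X ^ 20 * Real.exp (N * PsiL k.l (|y| / N)) := by
        have h5 : Real.exp (N * (PsiL k.l (|y| / N) + 2 * Real.pi * (|y| / N))) =
            Real.exp (N * PsiL k.l (|y| / N)) * Real.exp (2 * Real.pi * |y|) := by
          rw [← Real.exp_add]
          congr 1
          field_simp
        have h6 : Real.exp (2 * Real.pi * |y|) * Real.exp (-(2 * Real.pi * |y|)) = 1 := by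
          rw [← Real.exp_add]; simp
        rw [h5]
        linear_combination (2 * Real.pi * X ^ 20 * Real.exp (N * PsiL k.l (|y| / N))) * h6
    _ ≤ X * X ^ 20 * Real.exp (N * PsiL k.l (|y| / N)) := by gcongr
    _ = X ^ 21 * Real.exp (N * PsiL k.l (|y| / N)) := by ring

/-- the integral against the kernel `1 / (2 cosh (pi v))` -/
theorem Cfg.F2_bound (k : Cfg) (hk : k.Ok) (c z0 s : ℝ) (hs : 0 < s) (hz0 : 0 ≤ z0)
    (h1 : ∀ z, 0 ≤ z → PsiL k.l z ≤ -c)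
    (h2 : ∀ z, 0 ≤ z → z0 ≤ z → PsiL k.l z ≤ -c - (z - z0) / s) :
    ∃ C : ℝ, ∃ D : ℕ, ∀ N j : ℕ, 1 ≤ N → j ≤ 2 →
      ‖J (2 * (-((k.h * N : ℕ) : ℤ))) (fun u => k.R N j (u / 2))‖ ≤
        C * (N : ℝ) ^ D * Real.exp (-(c * N)) := by
  set S : ℕ := k.b1 + k.b2 + k.b3 + k.d1 + k.d2 + k.e1 + k.e2 + 10 with hS
  have h1' : ∀ z, 0 ≤ z → (fun z => PsiL k.l (z / 2)) z ≤ -c := fun z hz => h1 _ (by positivity)
  have h2' : ∀ z, 0 ≤ z → 2 * z0 ≤ z →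
      (fun z => PsiL k.l (z / 2)) z ≤ -c - (z - 2 * z0) / (2 * s) := by
    intro z hz hz2
    refine (h2 (z / 2) (by positivity) (by linarith)).trans (le_of_eq ?_)
    field_simp
  obtain ⟨C, D, H⟩ := int_bound (fun z => PsiL k.l (z / 2)) c (2 * z0) (2 * s) h1' h2'
    (by positivity) (by positivity) (S : ℝ) (Nat.cast_nonneg _) 20
  refine ⟨C, D, fun N j hN hj => ?_⟩
  have hN' : (1 : ℝ) ≤ N := by exact_mod_cast hN
  refine H N hN _ fun v => ?_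
  have hv := abs_nonneg v
  have e : (((2 * (-((k.h * N : ℕ) : ℤ)) : ℤ) : ℂ) - 1 / 2 + (v : ℂ) * Complex.I) / 2 =
      lin (k.h * N) (1 / 4) (v / 2) := by
    unfold lin
    push_cast
    ring
  simp only [e]
  rw [norm_mul, Complex.norm_real, Real.norm_eq_abs, abs_of_pos (Ks_pos v)]
  have b1 := k.R_bound hk N j hN hj (1 / 4) (by norm_num) (by norm_num) (v / 2)
  have b2 := Ks_le v
  rw [← hS] at b1
  have e2 : |v / 2| = |v| / 2 := by rw [abs_div, abs_of_pos (by norm_num : (0 : ℝ) < 2)]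
  rw [e2] at b1
  have e3 : |v| / 2 / (N : ℝ) = |v| / N / 2 := by ring
  rw [e3] at b1
  set X : ℝ := (S : ℝ) * ((N : ℝ) + |v|) with hX
  have hX0 : 0 ≤ X := by positivity
  have hX2 : (S : ℝ) * ((N : ℝ) + |v| / 2) ≤ X :=
    mul_le_mul_of_nonneg_left (by linarith) (Nat.cast_nonneg _)
  calc ‖k.R N j (lin (k.h * N) (1 / 4) (v / 2))‖ * Ks v
      ≤ (((S : ℝ) * ((N : ℝ) + |v| / 2)) ^ 20 *
          Real.exp (N * (PsiL k.l (|v| / N / 2) + 2 * Real.pi * (|v| / N / 2)))) *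
        Real.exp (-(Real.pi * |v|)) :=
        mul_le_mul b1 b2 (Ks_pos v).le (by positivity)
    _ ≤ (X ^ 20 * Real.exp (N * (PsiL k.l (|v| / N / 2) + 2 * Real.pi * (|v| / N / 2)))) *
        Real.exp (-(Real.pi * |v|)) := by
        gcongr
    _ = X ^ 20 * Real.exp (N * PsiL k.l (|v| / N / 2)) := by
        have h5 : Real.exp (N * (PsiL k.l (|v| / N / 2) + 2 * Real.pi * (|v| / N / 2))) =
            Real.exp (N * PsiL k.l (|v| / N / 2)) * Real.exp (Real.pi * |v|) := by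
          rw [← Real.exp_add]
          congr 1
          field_simp
        have h6 : Real.exp (Real.pi * |v|) * Real.exp (-(Real.pi * |v|)) = 1 := by
          rw [← Real.exp_add]; simp
        rw [h5]
        linear_combination (X ^ 20 * Real.exp (N * PsiL k.l (|v| / N / 2))) * h6

end Pool.Agent.Z23
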