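import Pool.Agent.Z23.LogList
import Pool.Agent.Z23.FBound
import Pool.Agent.Z23.Conf
import Pool.Agent.Z3.ABound

/-!
The size of the common coefficient `QG` of the two linear forms.
-/

open Finset
open scoped BigOperators

namespace Pool.Agent.Z23

open Pool.Agent.Z3 (choose_bound FB_fl FB_fu)
open Pool.Agent.Z3.PFaux (prod_Ico_below prod_erase)

/-- comparison of two products of powers, upper bound with a factor `e^T` -/
theorem log_list_ge (pos neg : List (ℕ × ℕ)) (hp : ∀ q ∈ pos, 0 < q.1) (hn : ∀ q ∈ neg, 0 < q.1)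
    (T : ℕ) (h : (pos.map (fun q => q.1 ^ q.2)).prod * 100000 ^ T ≤
      (neg.map (fun q => q.1 ^ q.2)).prod * 271828 ^ T) :
    (pos.map (fun q => (q.2 : ℝ) * Real.log q.1)).sum ≤
      (neg.map (fun q => (q.2 : ℝ) * Real.log q.1)).sum + T := by
  obtain ⟨p1, p2⟩ := log_list pos hp
  obtain ⟨n1, n2⟩ := log_list neg hn
  rw [← p2, ← n2]
  have h1 : (((pos.map (fun q => q.1 ^ q.2)).prod : ℕ) : ℝ) * 100000 ^ T ≤
      (((neg.map (fun q => q.1 ^ q.2)).prod : ℕ) : ℝ) * 271828 ^ T := by
    exact_mod_cast h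
  have hP : (0 : ℝ) < (((pos.map (fun q => q.1 ^ q.2)).prod : ℕ) : ℝ) := by exact_mod_cast p1
  have hN : (0 : ℝ) < (((neg.map (fun q => q.1 ^ q.2)).prod : ℕ) : ℝ) := by exact_mod_cast n1
  have h2 := Real.log_le_log (by positivity) h1
  rw [Real.log_mul hP.ne' (by positivity), Real.log_mul hN.ne' (by positivity), Real.log_pow,
    Real.log_pow] at h2
  have h3 : Real.log (271828 / 100000) ≤ 1 := by
    rw [Real.log_le_iff_le_exp (by norm_num)]
    have := Real.exp_one_gt_d9
    linarith
  rw [Real.log_div (by norm_num) (by norm_num)] at h3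
  have h4 : (0 : ℝ) ≤ T := Nat.cast_nonneg T
  nlinarith

/-- the product over a block below `k` -/
theorem below_choose (a b k : ℕ) (hab : a ≤ b) (hb : b ≤ k) :
    |∏ i ∈ Ico a b, ((i : ℚ) - k)| = ((b - a).factorial : ℚ) * ((k - a).choose (b - a) : ℚ) := by
  rw [prod_Ico_below a k b hab hb, abs_mul, abs_pow, abs_neg, abs_one, one_pow, one_mul,
    abs_of_nonneg (by positivity)]
  have h := Nat.choose_mul_factorial_mul_factorial (show b - a ≤ k - a by omega)
  have e : k - a - (b - a) = k - b := by omega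
  rw [e] at h
  rw [← h]
  have h2 : ((k - b).factorial : ℚ) ≠ 0 := by positivity
  push_cast
  field_simp

/-- the product over the poles -/
theorem erase_choose (a m k : ℕ) (ha : a ≤ k) (hk : k < a + m + 1) :
    |∏ i ∈ (Ico a (a + m + 1)).erase k, ((i : ℚ) - k)| * (m.choose (k - a) : ℚ) =
      (m.factorial : ℚ) := by
  rw [prod_erase a (a + m + 1) k ha hk, abs_mul, abs_mul, abs_pow, abs_neg, abs_one, one_pow, one_mul,
    abs_of_nonneg (by positivity), abs_of_nonneg (by positivity)]
  have h := Nat.choose_mul_factorial_mul_factorial (show k - a ≤ m by omega)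
  have e : a + m + 1 - 1 - k = m - (k - a) := by omega
  rw [e, ← h]
  push_cast
  ring

/-- the product over a half-integer block below `k` -/
theorem half_choose (a b k : ℕ) (hab : a ≤ b) (hb : b ≤ k) :
    |∏ i ∈ Ico a b, (-(k : ℚ) + ((i : ℚ) + 1 / 2))| ≤
      ((b - a).factorial : ℚ) * ((k - a).choose (b - a) : ℚ) := by
  rw [← below_choose a b k hab hb, abs_prod, abs_prod]
  refine prod_le_prod (fun _ _ => abs_nonneg _) fun i hi => ?_
  have hi' : i + 1 ≤ k := by
    have := (mem_Ico.mp hi).2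
    omega
  have h1 : (i : ℚ) + 1 ≤ k := by exact_mod_cast hi'
  rw [abs_of_nonpos (by linarith), abs_of_nonpos (by linarith)]
  linarith

/-- the coefficient, in terms of binomial coefficients -/
theorem A0L_le (n k : ℕ) (hk : k ∈ (dd n).K2) :
    |A0L (dd n).Zs (dd n).Hs (dd n).K1 (dd n).K2 k| ≤
      (((16 * n).factorial : ℚ) * (12 * n).factorial * (9 * n).factorial) /
        (((20 * n + 1).factorial : ℚ) * (17 * n + 1).factorial) *
      ((k.choose (16 * n) : ℚ) * ((k - 2 * n).choose (12 * n) : ℚ) *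
        ((k - 10 * n).choose (9 * n) : ℚ) * ((20 * n + 1).choose (k - 18 * n) : ℚ) *
        ((17 * n + 1).choose (k - 19 * n) : ℚ)) := by
  have hk' := hk
  rw [dd_K2, mem_Ico] at hk'
  unfold A0L
  rw [if_pos hk]
  have h1 := below_choose 0 (16 * n) k (by omega) (by omega)
  have h2 := below_choose (2 * n) (14 * n) k (by omega) (by omega)
  have h3 := half_choose (10 * n) (19 * n) k (by omega) (by omega)
  have h4 := erase_choose (18 * n) (20 * n + 1) k (by omega) (by omega)
  have h5 := erase_choose (19 * n) (17 * n + 1) k (by omega) (by omega)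
  have e1 : 16 * n - 0 = 16 * n := by omega
  have e2 : 14 * n - 2 * n = 12 * n := by omega
  have e3 : 19 * n - 10 * n = 9 * n := by omega
  have e4 : 18 * n + (20 * n + 1) + 1 = 38 * n + 2 := by ring
  have e5 : 19 * n + (17 * n + 1) + 1 = 36 * n + 2 := by ring
  rw [e1, Nat.sub_zero] at h1
  rw [e2] at h2
  rw [e3] at h3
  rw [e4, ← dd_K1] at h4
  rw [e5, ← dd_K2] at h5
  have hnum : |numL (dd n).Zs (dd n).Hs (-(k : ℚ))| ≤
      ((16 * n).factorial * (k.choose (16 * n) : ℚ)) *
        ((12 * n).factorial * ((k - 2 * n).choose (12 * n) : ℚ)) *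
        ((9 * n).factorial * ((k - 10 * n).choose (9 * n) : ℚ)) := by
    have e : numL (dd n).Zs (dd n).Hs (-(k : ℚ)) =
        (∏ i ∈ Ico 0 (16 * n), ((i : ℚ) - k)) * (∏ i ∈ Ico (2 * n) (14 * n), ((i : ℚ) - k)) *
          ∏ i ∈ Ico (10 * n) (19 * n), (-(k : ℚ) + ((i : ℚ) + 1 / 2)) := by
      rw [dd_Zs, dd_Hs]
      unfold numL
      simp only [List.map_cons, List.map_nil, List.prod_cons, List.prod_nil, mul_one]
      congr 2
      · exact prod_congr rfl fun i _ => by ring
      · exact prod_congr rfl fun i _ => by ring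
    rw [e, abs_mul, abs_mul, h1, h2]
    exact mul_le_mul_of_nonneg_left h3 (by positivity)
  rw [abs_div, abs_mul]
  have c1 : (0 : ℚ) < ((20 * n + 1).choose (k - 18 * n) : ℚ) := by
    exact_mod_cast Nat.choose_pos (by omega)
  have c2 : (0 : ℚ) < ((17 * n + 1).choose (k - 19 * n) : ℚ) := by
    exact_mod_cast Nat.choose_pos (by omega)
  have d1 : |dK (dd n).K1 k| = ((20 * n + 1).factorial : ℚ) / ((20 * n + 1).choose (k - 18 * n) : ℚ) := by
    rw [eq_div_iff c1.ne']
    exact h4
  have d2 : |dK (dd n).K2 k| = ((17 * n + 1).factorial : ℚ) / ((17 * n + 1).choose (k - 19 * n) : ℚ) := by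
    rw [eq_div_iff c2.ne']
    exact h5
  rw [d1, d2, div_le_iff₀ (by positivity)]
  refine hnum.trans (le_of_eq ?_)
  have f1 : ((20 * n + 1).factorial : ℚ) ≠ 0 := by positivity
  have f2 : ((17 * n + 1).factorial : ℚ) ≠ 0 := by positivity
  field_simp

theorem choose_log (m r : ℕ) (hr : r ≤ m) (x : ℝ) (hx : 0 < x) :
    Real.log (m.choose r : ℝ) ≤ m * Real.log (1 + x) - r * Real.log x := by
  have h := choose_bound m r x hx
  have h0 : (0 : ℝ) < (m.choose r : ℝ) := by exact_mod_cast Nat.choose_pos hr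
  have h1 := Real.log_le_log h0 h
  rw [Real.log_mul (by positivity) (by positivity), Real.log_pow, Real.log_pow, one_div,
    Real.log_inv] at h1
  linarith

/-- the exponent -/
noncomputable def kA : ℝ :=
  16 * Real.log 16 + 12 * Real.log 12 + 9 * Real.log 9 + 27 * Real.log 67 + 20 * Real.log 99 +
    17 * Real.log 93061 - (20 * Real.log 20 + 17 * Real.log 17 + 3 * Real.log 33 +
    16 * Real.log 34 + 2 * Real.log 32 + 5 * Real.log 19 + 12 * Real.log 13 + 9 * Real.log 28 +
    17 * Real.log 24453)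

theorem kA_le : kA ≤ 64.7 := by
  have h := log_list_ge
    [(16, 160), (12, 120), (9, 90), (67, 270), (99, 200), (93061, 170)]
    [(20, 200), (17, 170), (33, 30), (34, 160), (32, 20), (19, 50), (13, 120), (28, 90),
      (24453, 170)] (by decide) (by decide) 647 (by decide +kernel)
  simp only [List.map_cons, List.map_nil, List.sum_cons, List.sum_nil] at h
  push_cast at h
  unfold kA
  linarith

theorem log_div' (a b : ℕ) (x : ℝ) (ha : 0 < a) (hb : 0 < b) (h : x = (a : ℝ) / b) :
    Real.log x = Real.log a - Real.log b := by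
  rw [h, Real.log_div (by exact_mod_cast ha.ne') (by exact_mod_cast hb.ne')]

theorem log_24453 : Real.log 24453 = Real.log 33 + Real.log 19 + Real.log 39 := by
  rw [← Real.log_mul (by norm_num) (by norm_num), ← Real.log_mul (by norm_num) (by norm_num)]
  norm_num

theorem log_68608 : Real.log 68608 = Real.log 67 + Real.log 32 + Real.log 32 := by
  rw [← Real.log_mul (by norm_num) (by norm_num), ← Real.log_mul (by norm_num) (by norm_num)]
  norm_num

/-- the binomial part -/
theorem choose_part (n r : ℕ) (hr : r ≤ 17 * n + 1) :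
    Real.log (((19 * n + r).choose (16 * n) : ℕ) : ℝ) +
      Real.log (((17 * n + r).choose (12 * n) : ℕ) : ℝ) +
      Real.log (((9 * n + r).choose (9 * n) : ℕ) : ℝ) +
      Real.log (((20 * n + 1).choose (n + r) : ℕ) : ℝ) +
      Real.log (((17 * n + 1).choose r : ℕ) : ℝ) ≤
    n * (27 * Real.log 67 + 20 * Real.log 99 + 17 * Real.log 93061 - (3 * Real.log 33 +
    16 * Real.log 34 + 2 * Real.log 32 + 5 * Real.log 19 + 12 * Real.log 13 + 9 * Real.log 28 +
    17 * Real.log 24453)) + (Real.log (99 / 32) + Real.log (93061 / 24453)) := by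
  have c1 := choose_log (19 * n + r) (16 * n) (by omega) (34 / 33) (by norm_num)
  have c2 := choose_log (17 * n + r) (12 * n) (by omega) (13 / 19) (by norm_num)
  have c3 := choose_log (9 * n + r) (9 * n) (by omega) (28 / 39) (by norm_num)
  have c4 := choose_log (20 * n + 1) (n + r) (by omega) (67 / 32) (by norm_num)
  have c5 := choose_log (17 * n + 1) r hr (68608 / 24453) (by norm_num)
  rw [log_div' 67 33 (1 + 34 / 33) (by norm_num) (by norm_num) (by norm_num),
    log_div' 34 33 (34 / 33) (by norm_num) (by norm_num) (by norm_num)] at c1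
  rw [log_div' 32 19 (1 + 13 / 19) (by norm_num) (by norm_num) (by norm_num),
    log_div' 13 19 (13 / 19) (by norm_num) (by norm_num) (by norm_num)] at c2
  rw [log_div' 67 39 (1 + 28 / 39) (by norm_num) (by norm_num) (by norm_num),
    log_div' 28 39 (28 / 39) (by norm_num) (by norm_num) (by norm_num)] at c3
  rw [log_div' 99 32 (1 + 67 / 32) (by norm_num) (by norm_num) (by norm_num),
    log_div' 67 32 (67 / 32) (by norm_num) (by norm_num) (by norm_num)] at c4
  rw [log_div' 93061 24453 (1 + 68608 / 24453) (by norm_num) (by norm_num) (by norm_num),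
    log_div' 68608 24453 (68608 / 24453) (by norm_num) (by norm_num) (by norm_num)] at c5
  rw [log_div' 99 32 (99 / 32) (by norm_num) (by norm_num) (by norm_num),
    log_div' 93061 24453 (93061 / 24453) (by norm_num) (by norm_num) (by norm_num)]
  push_cast at c1 c2 c3 c4 c5 ⊢
  have e1 := log_24453
  have e2 := log_68608
  rw [e2, e1] at c5
  rw [e1]
  linarith

/-- the constant part -/
theorem const_part (n : ℕ) (hn : 1 ≤ n) :
    Real.log ((16 * n).factorial : ℝ) + Real.log ((12 * n).factorial : ℝ) +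
      Real.log ((9 * n).factorial : ℝ) - Real.log ((20 * n + 1).factorial : ℝ) -
      Real.log ((17 * n + 1).factorial : ℝ) ≤
    n * (16 * Real.log 16 + 12 * Real.log 12 + 9 * Real.log 9 - 20 * Real.log 20 -
      17 * Real.log 17) + 9 * Real.log (23 * n) := by
  have hn' : (1 : ℝ) ≤ n := by exact_mod_cast hn
  set L := Real.log (23 * n) with hL
  have hL1 : 1 ≤ L := by
    rw [hL, Real.le_log_iff_exp_le (by positivity)]
    have := Real.exp_one_lt_d9
    linarith
  have hLc : ∀ c : ℕ, c ≤ 20 → Real.log ((c : ℝ) * n + 1) ≤ L := by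
    intro c hc
    have hc' : (c : ℝ) ≤ 20 := by exact_mod_cast hc
    refine Real.log_le_log (by positivity) ?_
    nlinarith
  have u : ∀ c : ℕ, 1 ≤ c → c ≤ 20 → Real.log ((c * n).factorial : ℝ) ≤
      (c : ℝ) * n * Real.log n + n * (c * Real.log c) - c * n + 3 * L := by
    intro c hc1 hc2
    refine le_trans ?_ (FB_fu c n hc1 hn L hL1 (hLc c hc2))
    refine Real.log_le_log (by positivity) ?_
    exact_mod_cast Nat.factorial_le (Nat.le_succ _)
  have l : ∀ c : ℕ, 1 ≤ c → (c : ℝ) * n * Real.log n + n * (c * Real.log c) - c * n ≤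
      Real.log ((c * n + 1).factorial : ℝ) := by
    intro c hc1
    refine (FB_fl c n hc1 hn).trans ?_
    refine Real.log_le_log (by positivity) ?_
    exact_mod_cast Nat.factorial_le (Nat.le_succ _)
  have u1 := u 16 (by norm_num) (by norm_num)
  have u2 := u 12 (by norm_num) (by norm_num)
  have u3 := u 9 (by norm_num) (by norm_num)
  have l1 := l 20 (by norm_num)
  have l2 := l 17 (by norm_num)
  push_cast at u1 u2 u3 l1 l2
  linarith

/-- size of the coefficients -/
theorem A0L_size (n k : ℕ) (hn : 1 ≤ n) :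
    |((A0L (dd n).Zs (dd n).Hs (dd n).K1 (dd n).K2 k : ℚ) : ℝ)| ≤
      (99 / 32) * (93061 / 24453) * (23 * (n : ℝ)) ^ 9 * Real.exp (64.7 * n) := by
  have hn' : (1 : ℝ) ≤ n := by exact_mod_cast hn
  by_cases hk : k ∈ (dd n).K2
  · have h := A0L_le n k hk
    have hk' := hk
    rw [dd_K2, mem_Ico] at hk'
    obtain ⟨r, hr⟩ : ∃ r, k = 19 * n + r := ⟨k - 19 * n, by omega⟩
    subst hr
    have hr' : r ≤ 17 * n + 1 := by omega
    have e1 : 19 * n + r - 2 * n = 17 * n + r := by omega
    have e2 : 19 * n + r - 10 * n = 9 * n + r := by omega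
    have e3 : 19 * n + r - 18 * n = n + r := by omega
    have e4 : 19 * n + r - 19 * n = r := by omega
    rw [e1, e2, e3, e4] at h
    have h' : |((A0L (dd n).Zs (dd n).Hs (dd n).K1 (dd n).K2 (19 * n + r) : ℚ) : ℝ)| ≤
      (((16 * n).factorial : ℝ) * (12 * n).factorial * (9 * n).factorial) /
        (((20 * n + 1).factorial : ℝ) * (17 * n + 1).factorial) *
      (((19 * n + r).choose (16 * n) : ℝ) * ((17 * n + r).choose (12 * n) : ℝ) *
        ((9 * n + r).choose (9 * n) : ℝ) * ((20 * n + 1).choose (n + r) : ℝ) *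
        ((17 * n + 1).choose r : ℝ)) := by
      have := (Rat.cast_le (K := ℝ)).mpr h
      rw [Rat.cast_abs] at this
      push_cast at this ⊢
      exact this
    have f : ∀ m : ℕ, (0 : ℝ) < (m.factorial : ℝ) := fun m => by exact_mod_cast m.factorial_pos
    have c : ∀ a b : ℕ, b ≤ a → (0 : ℝ) < (a.choose b : ℝ) := fun a b hb => by
      exact_mod_cast Nat.choose_pos hb
    have f1 := f (16 * n)
    have f2 := f (12 * n)
    have f3 := f (9 * n)
    have f4 := f (20 * n + 1)
    have f5 := f (17 * n + 1)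
    have c1 := c (19 * n + r) (16 * n) (by omega)
    have c2 := c (17 * n + r) (12 * n) (by omega)
    have c3 := c (9 * n + r) (9 * n) (by omega)
    have c4 := c (20 * n + 1) (n + r) (by omega)
    have c5 := c (17 * n + 1) r hr'
    refine h'.trans ?_
    rw [← Real.log_le_log_iff (by positivity) (by positivity)]
    rw [Real.log_mul (by positivity) (by positivity), Real.log_div (by positivity) (by positivity),
      Real.log_mul (by positivity) (by positivity), Real.log_mul (by positivity) (by positivity),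
      Real.log_mul (by positivity) (by positivity), Real.log_mul (by positivity) (by positivity),
      Real.log_mul (by positivity) (by positivity), Real.log_mul (by positivity) (by positivity),
      Real.log_mul (by positivity) (by positivity),
      Real.log_mul (by positivity) (by positivity), Real.log_mul (by positivity) (by positivity),
      Real.log_mul (by positivity) (by positivity), Real.log_exp, Real.log_pow]
    have k1 := choose_part n r hr'
    have k2 := const_part n hn
    have k3 := kA_le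
    unfold kA at k3
    push_cast
    nlinarith
  · have : A0L (dd n).Zs (dd n).Hs (dd n).K1 (dd n).K2 k = 0 := by
      unfold A0L
      rw [if_neg hk]
    rw [this]
    simp only [Rat.cast_zero, abs_zero]
    positivity

/-- **size of the common coefficient** -/
theorem QG_size : ∃ C : ℝ, ∃ D : ℕ, ∀ N j : ℕ, 1 ≤ N → j ≤ 2 →
    |(((dd N).QG 1 j : ℚ) : ℝ)| ≤ C * (N : ℝ) ^ D * Real.exp (64.7 * N) := by
  refine ⟨2 * 22 * (40 ^ 2 * ((99 / 32) * (93061 / 24453) * 23 ^ 9)), 12, fun N j hN hj => ?_⟩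
  have hN' : (1 : ℝ) ≤ N := by exact_mod_cast hN
  set W : ℝ := (99 / 32) * (93061 / 24453) * (23 * (N : ℝ)) ^ 9 * Real.exp (64.7 * N) with hW
  have hW0 : 0 ≤ W := by positivity
  have hterm : ∀ k ∈ (dd N).K1, |(((dd N).AA 1 j k : ℚ) : ℝ)| ≤ (40 * (N : ℝ)) ^ 2 * W := by
    intro k hk
    rw [dd_K1, mem_Ico] at hk
    unfold BD.AA
    push_cast
    rw [one_mul, abs_mul, abs_pow, abs_neg, Nat.abs_cast]
    have h1 : (k : ℝ) ≤ 40 * N := by
      have : k ≤ 40 * N := by omega
      exact_mod_cast this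
    have h2 : (k : ℝ) ^ j ≤ (40 * (N : ℝ)) ^ 2 := by
      calc (k : ℝ) ^ j ≤ (40 * (N : ℝ)) ^ j := by gcongr
        _ ≤ (40 * (N : ℝ)) ^ 2 := pow_le_pow_right₀ (by linarith) hj
    exact mul_le_mul h2 (A0L_size N k hN) (abs_nonneg _) (by positivity)
  unfold BD.QG
  push_cast
  rw [abs_mul, abs_of_nonneg (by norm_num : (0 : ℝ) ≤ 2)]
  have hsum : |∑ k ∈ (dd N).K1, (((dd N).AA 1 j k : ℚ) : ℝ)| ≤ (22 * N) * ((40 * (N : ℝ)) ^ 2 * W) := by
    refine (abs_sum_le_sum_abs _ _).trans ?_
    refine (sum_le_sum hterm).trans ?_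
    rw [sum_const, nsmul_eq_mul]
    apply mul_le_mul_of_nonneg_right _ (by positivity)
    have : ((dd N).K1).card ≤ 22 * N := by
      rw [dd_K1, Nat.card_Ico]
      omega
    exact_mod_cast this
  calc 2 * |∑ k ∈ (dd N).K1, (((dd N).AA 1 j k : ℚ) : ℝ)|
      ≤ 2 * ((22 * N) * ((40 * (N : ℝ)) ^ 2 * W)) := by gcongr
    _ = 2 * 22 * (40 ^ 2 * ((99 / 32) * (93061 / 24453) * 23 ^ 9)) * (N : ℝ) ^ 12 *
        Real.exp (64.7 * N) := by
        rw [hW]
        ring

/-- the half-integer block, with sign -/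
theorem half_sign (a b k : ℕ) (hb : b ≤ k) :
    ∃ P : ℚ, 0 < P ∧ ∏ i ∈ Ico a b, (-(k : ℚ) + ((i : ℚ) + 1 / 2)) = (-1) ^ (b - a) * P := by
  refine ⟨∏ i ∈ Ico a b, ((k : ℚ) - i - 1 / 2), prod_pos fun i hi => ?_, ?_⟩
  · have hi' : i + 1 ≤ k := by
      have := (mem_Ico.mp hi).2
      omega
    have h1 : (i : ℚ) + 1 ≤ k := by exact_mod_cast hi'
    linarith
  · rw [← Nat.card_Ico, ← prod_const, ← prod_mul_distrib]
    exact prod_congr rfl fun i _ => by ring

theorem A0L_pos (n k : ℕ) (hk : k ∈ (dd n).K2) :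
    0 < A0L (dd n).Zs (dd n).Hs (dd n).K1 (dd n).K2 k := by
  have hk' := hk
  rw [dd_K2, mem_Ico] at hk'
  obtain ⟨r, hr⟩ : ∃ r, k = 19 * n + r := ⟨k - 19 * n, by omega⟩
  obtain ⟨P, hP, hP2⟩ := half_sign (10 * n) (19 * n) k (by omega)
  unfold A0L
  rw [if_pos hk]
  have e : numL (dd n).Zs (dd n).Hs (-(k : ℚ)) =
      (∏ i ∈ Ico 0 (16 * n), ((i : ℚ) - k)) * (∏ i ∈ Ico (2 * n) (14 * n), ((i : ℚ) - k)) *
        ∏ i ∈ Ico (10 * n) (19 * n), (-(k : ℚ) + ((i : ℚ) + 1 / 2)) := by
    rw [dd_Zs, dd_Hs]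
    unfold numL
    simp only [List.map_cons, List.map_nil, List.prod_cons, List.prod_nil, mul_one]
    congr 2
    · exact prod_congr rfl fun i _ => by ring
    · exact prod_congr rfl fun i _ => by ring
  rw [e, hP2, prod_Ico_below 0 k (16 * n) (by omega) (by omega),
    prod_Ico_below (2 * n) k (14 * n) (by omega) (by omega)]
  unfold dK
  rw [dd_K1, dd_K2, prod_erase (18 * n) (38 * n + 2) k (by omega) (by omega),
    prod_erase (19 * n) (36 * n + 2) k (by omega) (by omega)]
  have e1 : 16 * n - 0 = 16 * n := by omega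
  have e2 : 14 * n - 2 * n = 12 * n := by omega
  have e3 : 19 * n - 10 * n = 9 * n := by omega
  have e4 : k - 18 * n = n + r := by omega
  have e5 : k - 19 * n = r := by omega
  rw [e1, e2, e3, e4, e5]
  have f : ∀ m : ℕ, (0 : ℚ) < (m.factorial : ℚ) := fun m => by exact_mod_cast m.factorial_pos
  have g1 := f (k - 0)
  have g2 := f (k - 16 * n)
  have g3 := f (k - 2 * n)
  have g4 := f (k - 14 * n)
  have g5 := f (n + r)
  have g6 := f (38 * n + 2 - 1 - k)
  have g7 := f r
  have g8 := f (36 * n + 2 - 1 - k)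
  have hs : ((-1 : ℚ) ^ (16 * n)) * (-1) ^ (12 * n) * (-1) ^ (9 * n) =
      (-1) ^ (n + r) * (-1) ^ r := by
    rw [← pow_add, ← pow_add, ← pow_add]
    refine neg_one_pow_congr ?_
    rw [Nat.even_iff, Nat.even_iff]
    omega
  have hne : ((-1 : ℚ) ^ (n + r) * (-1) ^ r) ≠ 0 := by
    refine mul_ne_zero (pow_ne_zero _ (by norm_num)) (pow_ne_zero _ (by norm_num))
  have hfin : (-1) ^ (16 * n) * (((k - 0).factorial : ℚ) / (k - 16 * n).factorial) *
      ((-1) ^ (12 * n) * (((k - 2 * n).factorial : ℚ) / (k - 14 * n).factorial)) *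
      ((-1) ^ (9 * n) * P) /
      ((-1) ^ (n + r) * ((n + r).factorial : ℚ) * ((38 * n + 2 - 1 - k).factorial : ℚ) *
        ((-1) ^ r * (r.factorial : ℚ) * ((36 * n + 2 - 1 - k).factorial : ℚ))) =
      ((((k - 0).factorial : ℚ) / (k - 16 * n).factorial) *
        (((k - 2 * n).factorial : ℚ) / (k - 14 * n).factorial) * P) /
        (((n + r).factorial : ℚ) * ((38 * n + 2 - 1 - k).factorial : ℚ) *
        ((r.factorial : ℚ) * ((36 * n + 2 - 1 - k).factorial : ℚ))) := by
    rw [div_eq_div_iff (by positivity) (by positivity)]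
    linear_combination ((((k - 0).factorial : ℚ) / (k - 16 * n).factorial) *
        (((k - 2 * n).factorial : ℚ) / (k - 14 * n).factorial) * P *
        (((n + r).factorial : ℚ) * ((38 * n + 2 - 1 - k).factorial : ℚ) *
        ((r.factorial : ℚ) * ((36 * n + 2 - 1 - k).factorial : ℚ)))) * hs
  rw [hfin]
  positivity

/-- the common coefficient does not vanish for `j = 0` -/
theorem QG_ne (N : ℕ) (hN : 1 ≤ N) : (dd N).QG 1 0 ≠ 0 := by
  have h : 0 < (dd N).QG 1 0 := by
    unfold BD.QG
    refine mul_pos (by norm_num) (sum_pos' (fun k hk => ?_) ⟨19 * N, ?_, ?_⟩)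
    · unfold BD.AA
      rw [pow_zero, one_mul, one_mul]
      by_cases hk2 : k ∈ (dd N).K2
      · exact (A0L_pos N k hk2).le
      · unfold A0L
        rw [if_neg hk2]
    · rw [dd_K1, mem_Ico]
      omega
    · unfold BD.AA
      rw [pow_zero, one_mul, one_mul]
      refine A0L_pos N (19 * N) ?_
      rw [dd_K2, mem_Ico]
      omega
  exact h.ne'

end Pool.Agent.Z23
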