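import Pool.Agent.Z23.FormG

/-!
# Independent starting points for the integer and the half-integer part of the zeta(2) form

`OH s m` is the sum of 1/(2i+1)^s for 0 <= i < m (and minus the corresponding sum over negative
odd numbers for negative m), `P2s K α β s h` is the rational part of the zeta(2) form in which
the integer points start at -s+1 and the half-integer points at -h+1/2.
-/

open Finset Filter Topology Complex
open scoped BigOperators

namespace Pool.Agent.Z23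

open Pool.Agent.Z3 (Iint H zeta3)

/-- sums over odd numbers, extended to negative arguments -/
def OH (s : ℕ) (m : ℤ) : ℚ :=
  ∑ i ∈ range m.toNat, 1 / (2 * (i : ℚ) + 1) ^ s -
    ∑ i ∈ range (-m).toNat, 1 / (-(2 * (i : ℚ) + 1)) ^ s

theorem OH_nat (s r : ℕ) : OH s (r : ℤ) = ∑ i ∈ range r, 1 / (2 * (i : ℚ) + 1) ^ s := by
  unfold OH
  simp

theorem OH_step (s : ℕ) (m : ℤ) : OH s m - OH s (m - 1) = 1 / (2 * (m : ℚ) - 1) ^ s := by
  unfold OH
  rcases le_or_gt m 0 with h | h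
  · obtain ⟨r, rfl⟩ : ∃ r : ℕ, m = -(r : ℤ) := ⟨(-m).toNat, by omega⟩
    have e1 : (-(r : ℤ)).toNat = 0 := by omega
    have e2 : (-(r : ℤ) - 1).toNat = 0 := by omega
    have e3 : (-(-(r : ℤ))).toNat = r := by omega
    have e4 : (-(-(r : ℤ) - 1)).toNat = r + 1 := by omega
    rw [e1, e2, e3, e4, sum_range_succ]
    push_cast
    have e5 : (-(2 * (r : ℚ) + 1)) = 2 * -(r : ℚ) - 1 := by ring
    rw [e5]
    ring
  · obtain ⟨r, rfl⟩ : ∃ r : ℕ, m = (r : ℤ) + 1 := ⟨(m - 1).toNat, by omega⟩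
    have e1 : ((r : ℤ) + 1).toNat = r + 1 := by omega
    have e2 : ((r : ℤ) + 1 - 1).toNat = r := by omega
    have e3 : (-((r : ℤ) + 1)).toNat = 0 := by omega
    have e4 : (-((r : ℤ) + 1 - 1)).toNat = 0 := by omega
    rw [e1, e2, e3, e4, sum_range_succ]
    push_cast
    have e5 : (2 * ((r : ℚ) + 1) - 1) = 2 * (r : ℚ) + 1 := by ring
    rw [e5]
    ring

/-- the alternating sums over an even range -/
theorem AH_split (s r : ℕ) : AH s (2 * r) = OH s (r : ℤ) - H s r / 2 ^ s := by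
  rw [OH_nat]
  induction r with
  | zero => simp [AH, H]
  | succ r ih =>
    have e : 2 * (r + 1) = 2 * r + 1 + 1 := by ring
    have h1 : AH s (2 * (r + 1)) = AH s (2 * r) + (-1) ^ (2 * r) / (((2 * r : ℕ) : ℚ) + 1) ^ s +
        (-1) ^ (2 * r + 1) / (((2 * r + 1 : ℕ) : ℚ) + 1) ^ s := by
      rw [e]; unfold AH; rw [sum_range_succ, sum_range_succ]
    have h3 : H s (r + 1) = H s r + 1 / ((r : ℚ) + 1) ^ s := by
      unfold H; rw [sum_range_succ]
    have h6 : (-1 : ℚ) ^ (2 * r) = 1 := by rw [pow_mul]; norm_num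
    have h7 : (-1 : ℚ) ^ (2 * r + 1) = -1 := by rw [pow_add, h6]; norm_num
    rw [h1, h3, ih, h6, h7, sum_range_succ]
    have e2 : (((2 * r + 1 : ℕ) : ℚ) + 1) ^ s = 2 ^ s * ((r : ℚ) + 1) ^ s := by
      rw [← mul_pow]; push_cast; ring
    rw [e2]
    push_cast
    have h5 : ((r : ℚ) + 1) ^ s ≠ 0 := by positivity
    have h8 : (2 : ℚ) ^ s ≠ 0 := by positivity
    field_simp
    ring

/-- the rational part of the zeta(2) form, integer start `s`, half-integer start `h` -/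
def P2s (K : Finset ℕ) (α β : ℕ → ℚ) (s h : ℕ) : ℚ :=
  ∑ k ∈ K, (α k * (4 * OH 2 ((k : ℤ) - h) - H 2 (k - s)) +
    β k * (2 * OH 1 ((k : ℤ) - h) - H 1 (k - s)))

theorem P2_eq_P2s (K : Finset ℕ) (α β : ℕ → ℚ) (a : ℕ) (ha : ∀ k ∈ K, a ≤ k) :
    P2 K α β (2 * a) = P2s K α β a a := by
  unfold P2 P2s
  apply sum_congr rfl
  intro k hk
  have h1 := ha k hk
  have e1 : 2 * k - 2 * a = 2 * (k - a) := by omega
  have e2 : (k : ℤ) - a = ((k - a : ℕ) : ℤ) := by push_cast [Nat.cast_sub h1]; ring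
  rw [e1, AH_split, AH_split, e2]
  ring

variable (g : ℂ → ℂ) (K : Finset ℕ) (α β : ℕ → ℚ)

/-- moving the integer start across a zero -/
theorem P2s_int (s h : ℕ) (hs : ∀ k ∈ K, s + 1 ≤ k)
    (hg : ∀ t : ℂ, (∀ k ∈ K, t + (k : ℂ) ≠ 0) → g t = pfun K α β t) (h0 : g (-(s : ℂ)) = 0) :
    P2s K α β (s + 1) h = P2s K α β s h := by
  have hne : ∀ k ∈ K, ((k : ℚ) - s) ≠ 0 := by
    intro k hk h1
    have h2 : (k : ℚ) = s := by linarith
    have h3 : k = s := by exact_mod_cast h2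
    have := hs k hk
    omega
  have h1 : pfun K α β (-(s : ℂ)) = 0 := by
    rw [← hg _ ?_, h0]
    intro k hk h1
    apply hne k hk
    have h2 : ((k : ℂ) - s) = 0 := by linear_combination h1
    exact_mod_cast h2
  have h2 : ((∑ k ∈ K, (α k / ((k : ℚ) - s) ^ 2 + β k / ((k : ℚ) - s)) : ℚ) : ℂ) = 0 := by
    rw [← h1]
    unfold pfun
    push_cast
    apply sum_congr rfl
    intro k _
    have e : -(s : ℂ) + (k : ℂ) = (k : ℂ) - s := by ring
    rw [e]
  have h3 : ∑ k ∈ K, (α k / ((k : ℚ) - s) ^ 2 + β k / ((k : ℚ) - s)) = 0 := by exact_mod_cast h2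
  have h4 : P2s K α β (s + 1) h - P2s K α β s h =
      ∑ k ∈ K, (α k / ((k : ℚ) - s) ^ 2 + β k / ((k : ℚ) - s)) := by
    unfold P2s
    rw [← sum_sub_distrib]
    apply sum_congr rfl
    intro k hk
    have h5 := hs k hk
    obtain ⟨r, rfl⟩ : ∃ r : ℕ, k = s + 1 + r := ⟨k - (s + 1), by omega⟩
    have e1 : s + 1 + r - (s + 1) = r := by omega
    have e2 : s + 1 + r - s = r + 1 := by omega
    have e3 : ∀ j : ℕ, H j (r + 1) = H j r + 1 / ((r : ℚ) + 1) ^ j := by
      intro j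
      unfold H
      rw [sum_range_succ]
    have e4 : (((s + 1 + r : ℕ) : ℚ) - s) = (r : ℚ) + 1 := by push_cast; ring
    rw [e1, e2, e3, e3, e4]
    ring
  linarith

/-- moving the half-integer start across a zero -/
theorem P2s_half (s h : ℕ)
    (hg : ∀ t : ℂ, (∀ k ∈ K, t + (k : ℂ) ≠ 0) → g t = pfun K α β t)
    (h0 : g (-((2 * h + 1 : ℕ) : ℂ) / 2) = 0) : P2s K α β s (h + 1) = P2s K α β s h := by
  have hne : ∀ k : ℕ, (2 * ((k : ℚ) - h) - 1) ≠ 0 := by
    intro k h1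
    have h2 : (2 * (k : ℚ)) = 2 * h + 1 := by linarith
    have h3 : 2 * k = 2 * h + 1 := by exact_mod_cast h2
    omega
  have h1 : pfun K α β (-((2 * h + 1 : ℕ) : ℂ) / 2) = 0 := by
    rw [← hg _ ?_, h0]
    intro k hk h1
    apply hne k
    have h2 : (2 * ((k : ℂ) - h) - 1) = 0 := by
      push_cast at h1
      linear_combination 2 * h1
    exact_mod_cast h2
  have h2 : ((∑ k ∈ K, (4 * α k / (2 * ((k : ℚ) - h) - 1) ^ 2 +
      2 * β k / (2 * ((k : ℚ) - h) - 1)) : ℚ) : ℂ) = 0 := by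
    rw [← h1]
    unfold pfun
    push_cast
    apply sum_congr rfl
    intro k _
    have e : -(2 * (h : ℂ) + 1) / 2 + (k : ℂ) = (2 * ((k : ℂ) - h) - 1) / 2 := by ring
    have e2 : (2 * ((k : ℂ) - h) - 1) ≠ 0 := by
      intro h3
      apply hne k
      exact_mod_cast h3
    rw [e]
    field_simp
    ring
  have h3 : ∑ k ∈ K, (4 * α k / (2 * ((k : ℚ) - h) - 1) ^ 2 +
      2 * β k / (2 * ((k : ℚ) - h) - 1)) = 0 := by exact_mod_cast h2
  have h4 : P2s K α β s h - P2s K α β s (h + 1) =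
      ∑ k ∈ K, (4 * α k / (2 * ((k : ℚ) - h) - 1) ^ 2 +
      2 * β k / (2 * ((k : ℚ) - h) - 1)) := by
    unfold P2s
    rw [← sum_sub_distrib]
    apply sum_congr rfl
    intro k _
    have e1 : (k : ℤ) - ((h + 1 : ℕ) : ℤ) = (k : ℤ) - h - 1 := by push_cast; ring
    have s1 := OH_step 1 ((k : ℤ) - h)
    have s2 := OH_step 2 ((k : ℤ) - h)
    push_cast at s1 s2
    rw [e1]
    rw [pow_one] at s1
    linear_combination (4 * α k) * s2 + (2 * β k) * s1
  linarith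

/-- moving both starts -/
theorem P2s_move (s h s' h' : ℕ) (hs : s' ≤ s) (hh : h' ≤ h) (hK : ∀ k ∈ K, s ≤ k)
    (hg : ∀ t : ℂ, (∀ k ∈ K, t + (k : ℂ) ≠ 0) → g t = pfun K α β t)
    (h0 : ∀ i : ℕ, s' ≤ i → i < s → g (-(i : ℂ)) = 0)
    (h1 : ∀ i : ℕ, h' ≤ i → i < h → g (-((2 * i + 1 : ℕ) : ℂ) / 2) = 0) :
    P2s K α β s h = P2s K α β s' h' := by
  have A : ∀ M : ℕ, s' + M ≤ s → P2s K α β (s' + M) h = P2s K α β s' h := by
    intro M
    induction M with
    | zero => intro _; rfl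
    | succ M ih =>
      intro hM
      rw [← ih (by omega)]
      exact P2s_int g K α β (s' + M) h (fun k hk => by have := hK k hk; omega) hg
        (h0 (s' + M) (by omega) (by omega))
  have B : ∀ M : ℕ, h' + M ≤ h → P2s K α β s' (h' + M) = P2s K α β s' h' := by
    intro M
    induction M with
    | zero => intro _; rfl
    | succ M ih =>
      intro hM
      rw [← ih (by omega)]
      exact P2s_half g K α β s' (h' + M) hg (h1 (h' + M) (by omega) (by omega))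
  have e1 : s' + (s - s') = s := by omega
  have e2 : h' + (h - h') = h := by omega
  have A1 := A (s - s') (by omega)
  have B1 := B (h - h') (by omega)
  rw [e1] at A1
  rw [e2] at B1
  rw [A1, B1]

namespace BD

variable {d : BD}

/-- integer zeros -/
theorem RG_int_zero (kap : ℚ) (j i : ℕ) (hi : d.a1 ≤ i) (hi1 : i < d.a1 + d.l1) :
    d.RG kap j (-(i : ℂ)) = 0 := by
  rw [RG, numL_eq]
  have : ∏ k ∈ Ico d.a1 (d.a1 + d.l1), (-(i : ℂ) + (k : ℂ)) = 0 :=
    prod_eq_zero (i := i) (by rw [mem_Ico]; omega) (by ring)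
  rw [this]
  simp

/-- half-integer zeros -/
theorem RG_half_zero' (kap : ℚ) (j i : ℕ) (hi : d.a3 ≤ i) (hi1 : i < d.a3 + d.l3) :
    d.RG kap j (-((2 * i + 1 : ℕ) : ℂ) / 2) = 0 := by
  rw [RG, numL_eq]
  have : ∏ k ∈ Ico d.a3 (d.a3 + d.l3), (-((2 * i + 1 : ℕ) : ℂ) / 2 + ((k : ℂ) + 1 / 2)) = 0 :=
    prod_eq_zero (i := i) (by rw [mem_Ico]; omega) (by push_cast; ring)
  rw [this]
  simp

/-- the linear form in 1 and zeta(2) with independent starts -/
theorem F2G_eq_s (h : d.OK) (kap : ℚ) (j : ℕ) (hj : j ≤ 2) (s h' : ℕ) (hs : d.a3 + 1 ≤ s)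
    (hs1 : s ≤ d.a1 + d.l1) (hh : d.a3 + 1 ≤ h') (hh1 : h' ≤ d.a3 + d.l3) :
    d.F2G kap j = ((d.QG kap j : ℚ) : ℂ) * (zeta2 : ℂ) -
      ((P2s d.K1 (d.AA kap j) (d.BB kap j) s h' : ℚ) : ℂ) := by
  have hz := h.hz1
  have h1 := h.h1
  have hb := h.hb1
  rw [F2G_eq h kap j hj (2 * (d.a3 + 1)) (by omega) (by omega) (by omega),
    P2_eq_P2s _ _ _ (d.a3 + 1) (fun k hk => by have := K1_ge k hk; omega),
    ← P2s_move (d.RG kap j) d.K1 (d.AA kap j) (d.BB kap j) s h' (d.a3 + 1) (d.a3 + 1) hs hh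
      (fun k hk => (hs1.trans hz).trans (K1_ge k hk)) (fun t ht => RG_pf h kap j (by omega) t ht)
      (fun i hi hi' => RG_int_zero kap j i (by omega) (by omega))
      (fun i hi hi' => RG_half_zero' kap j i (by omega) (by omega))]

end BD

end Pool.Agent.Z23
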