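import Pool.Agent.Z23.TermG
import Pool.Agent.Z23.Split

/-!
The refined termwise rule (no cancellation) with independent starts a (zeta(3) sums), s (integer
part of the zeta(2) sums) and h (half-integer part of the zeta(2) sums).

For a pole k with phi = phiL at the class of k:
* if a + p ≤ k the cost is 1 - phi;
* if s + p ≤ k or 2 h + p + 1 ≤ 2 k or 2 k + p + 1 ≤ 2 h the cost is - phi;
* if k is not the only pole of its class the cost is - phi - 1, otherwise 0.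
-/

open Finset
open scoped BigOperators

namespace Pool.Agent.Z23

open Pool.Agent.Z3 (H cls ncls lv)
open Pool.Agent.Z3.TermAux (cnt norm_H_le norm_H_small norm_sub_inv_le)
open Pool.Agent.Z3.StructAux (card_cls_mem card_cls_notMem)

/-- p-adic bound p^w for the coefficient and both rational parts, independent starts -/
def PBS (Zs Hs : List (Finset ℕ)) (K1 K2 : Finset ℕ) (a s h p : ℕ) (w : ℤ) : Prop :=
  ∀ j : ℕ, j ≤ 2 → padicNorm p (∑ k ∈ K1, AL Zs Hs K1 K2 j k) ≤ (p : ℚ) ^ w ∧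
    padicNorm p (P2s K1 (AL Zs Hs K1 K2 j) (BL Zs Hs K1 K2 j) s h) ≤ (p : ℚ) ^ w ∧
    padicNorm p (P3 K1 (AL Zs Hs K1 K2 j) (BL Zs Hs K1 K2 j) a) ≤ (p : ℚ) ^ w

/-- one term of a sum over odd numbers -/
theorem norm_odd_term (p s i : ℕ) (c : ℚ) (hc : padicNorm p c = 1) (hp : p.Prime)
    (hi : 2 * i + 1 < p ^ 2) :
    padicNorm p (1 / (c * (2 * (i : ℚ) + 1)) ^ s) ≤ (p : ℚ) ^ s := by
  have := Fact.mk hp
  have h1 := norm_sub_inv_le p (2 * i + 1) 0 hp hi (by have := hp.pos; positivity)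
  have h2 : (1 : ℚ) / (c * (2 * (i : ℚ) + 1)) ^ s =
      (1 / c) ^ s * (1 / (((2 * i + 1 : ℕ) : ℚ) - (0 : ℕ))) ^ s := by
    push_cast
    rw [sub_zero, ← mul_pow, div_mul_div_comm, one_mul, div_pow, one_pow]
  rw [h2, padicNorm.mul, padicNorm_pow', padicNorm_pow', padicNorm.div, padicNorm.one, hc, div_one,
    one_pow, one_mul]
  exact pow_le_pow_left₀ (padicNorm.nonneg _) h1 s

theorem norm_odd_small (p s i : ℕ) (c : ℚ) (hc : padicNorm p c = 1) (hp : p.Prime)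
    (hi : 2 * i + 1 < p) :
    padicNorm p (1 / (c * (2 * (i : ℚ) + 1)) ^ s) ≤ 1 := by
  have := Fact.mk hp
  have h3 : padicNorm p (2 * (i : ℚ) + 1) = 1 := by
    have h4 : (2 * (i : ℚ) + 1) = ((2 * i + 1 : ℕ) : ℚ) := by push_cast; ring
    rw [h4, padicNorm.nat_eq_one_iff]
    intro hd
    have := Nat.le_of_dvd (by omega) hd
    omega
  rw [padicNorm.div, padicNorm.one, padicNorm_pow', padicNorm.mul, hc, h3, one_mul, one_pow,
    div_one]

theorem OH_eq_c (s : ℕ) (m : ℤ) : OH s m = ∑ i ∈ range m.toNat, 1 / (1 * (2 * (i : ℚ) + 1)) ^ s -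
    ∑ i ∈ range (-m).toNat, 1 / ((-1) * (2 * (i : ℚ) + 1)) ^ s := by
  unfold OH
  simp only [one_mul, neg_mul]

/-- sums over odd numbers: at most p^s -/
theorem norm_OH_le (p s : ℕ) (m : ℤ) (hp : p.Prime) (h1 : 2 * m < (p : ℤ) ^ 2)
    (h2 : -(2 * m) < (p : ℤ) ^ 2) : padicNorm p (OH s m) ≤ (p : ℚ) ^ s := by
  have := Fact.mk hp
  rw [OH_eq_c]
  refine padicNorm.sub.trans (max_le ?_ ?_)
  · refine padicNorm.sum_le' (fun i hi => ?_) (by positivity)
    rw [mem_range] at hi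
    refine norm_odd_term p s i 1 padicNorm.one hp ?_
    zify
    omega
  · refine padicNorm.sum_le' (fun i hi => ?_) (by positivity)
    rw [mem_range] at hi
    refine norm_odd_term p s i (-1) (by rw [padicNorm.neg, padicNorm.one]) hp ?_
    zify
    omega

/-- sums over odd numbers: p-integral if short -/
theorem norm_OH_small (p s : ℕ) (m : ℤ) (hp : p.Prime) (h1 : 2 * m - 1 < (p : ℤ))
    (h2 : -(2 * m) - 1 < (p : ℤ)) : padicNorm p (OH s m) ≤ 1 := by
  have := Fact.mk hp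
  rw [OH_eq_c]
  refine padicNorm.sub.trans (max_le ?_ ?_)
  · refine padicNorm.sum_le' (fun i hi => ?_) zero_le_one
    rw [mem_range] at hi
    exact norm_odd_small p s i 1 padicNorm.one hp (by omega)
  · refine padicNorm.sum_le' (fun i hi => ?_) zero_le_one
    rw [mem_range] at hi
    exact norm_odd_small p s i (-1) (by rw [padicNorm.neg, padicNorm.one]) hp (by omega)

section Term

variable {Zs Hs : List (Finset ℕ)} {K1 K2 : Finset ℕ} {p : ℕ}

/-- from bounds of all terms to PBS -/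
theorem PBS_of_terms (hp : p.Prime) (a s h : ℕ) (w : ℤ)
    (h0 : ∀ k ∈ K1, padicNorm p (A0L Zs Hs K1 K2 k) ≤ (p : ℚ) ^ w)
    (h1 : ∀ k ∈ K1, padicNorm p (A0L Zs Hs K1 K2 k) *
      max (padicNorm p (OH 2 ((k : ℤ) - h))) (padicNorm p (H 2 (k - s))) ≤ (p : ℚ) ^ w)
    (h2 : ∀ k ∈ K1, max (padicNorm p (B0L Zs Hs K1 K2 k)) (padicNorm p (A0L Zs Hs K1 K2 k)) *
      max (padicNorm p (OH 1 ((k : ℤ) - h))) (padicNorm p (H 1 (k - s))) ≤ (p : ℚ) ^ w)
    (h3 : ∀ k ∈ K1, padicNorm p (A0L Zs Hs K1 K2 k) * padicNorm p (H 3 (k - a)) ≤ (p : ℚ) ^ w)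
    (h4 : ∀ k ∈ K1, max (padicNorm p (B0L Zs Hs K1 K2 k)) (padicNorm p (A0L Zs Hs K1 K2 k)) *
      padicNorm p (H 2 (k - a)) ≤ (p : ℚ) ^ w) : PBS Zs Hs K1 K2 a s h p w := by
  have := Fact.mk hp
  have hw := pz_nonneg p w
  have i2 : padicNorm p (2 : ℚ) ≤ 1 := by exact_mod_cast nint (p := p) 2
  have i4 : padicNorm p (4 : ℚ) ≤ 1 := by exact_mod_cast nint (p := p) 4
  have key : ∀ (c x y t : ℚ), padicNorm p c ≤ 1 → padicNorm p x ≤ t → t * padicNorm p y ≤ (p : ℚ) ^ w →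
      padicNorm p (c * x * y) ≤ (p : ℚ) ^ w := by
    intro c x y t hc hx hy
    rw [mul_assoc]
    refine nmul1 hc ?_
    rw [padicNorm.mul]
    exact (mul_le_mul_of_nonneg_right hx (padicNorm.nonneg _)).trans hy
  have key2 : ∀ (x y c u v : ℚ), padicNorm p c ≤ 1 → padicNorm p x ≤ y →
      y * max (padicNorm p u) (padicNorm p v) ≤ (p : ℚ) ^ w →
      padicNorm p (x * (c * u - v)) ≤ (p : ℚ) ^ w := by
    intro x y c u v hc hx hy
    rw [padicNorm.mul]
    have hd : padicNorm p (c * u - v) ≤ max (padicNorm p u) (padicNorm p v) := by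
      refine padicNorm.sub.trans (max_le ?_ (le_max_right _ _))
      exact (nmul1 hc le_rfl).trans (le_max_left _ _)
    exact (mul_le_mul hx hd (padicNorm.nonneg _) ((padicNorm.nonneg _).trans hx)).trans hy
  intro j _
  refine ⟨padicNorm.sum_le' (fun k hk => (norm_AL_le j k).trans (h0 k hk)) hw, ?_, ?_⟩
  · unfold P2s
    refine padicNorm.sum_le' (fun k hk => nadd ?_ ?_) hw
    · exact key2 _ _ 4 _ _ i4 (norm_AL_le j k) (h1 k hk)
    · exact key2 _ _ 2 _ _ i2 (norm_BL_le j k) (h2 k hk)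
  · unfold P3
    refine padicNorm.sum_le' (fun k hk => nadd ?_ ?_) hw
    · exact key 2 _ _ _ i2 (norm_AL_le j k) (h3 k hk)
    · have := key 1 _ _ _ (by simp) (norm_BL_le j k) (h4 k hk)
      rwa [one_mul] at this

/-! ### classes with a single pole -/

theorem cls_empty_of_cnt {S : Finset ℕ} {k : ℕ} (h : cnt S p (k % p) = 0) : cls S p k = ∅ := by
  unfold cnt at h
  rw [card_eq_zero] at h
  unfold cls
  rw [h]
  simp

theorem cls_empty_of_single {S : Finset ℕ} {k : ℕ} (hk : k ∈ S) (h : cnt S p (k % p) = 1) :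
    cls S p k = ∅ := by
  have h1 := card_cls_mem S p k hk
  rw [h] at h1
  rw [← card_eq_zero]
  have : ((cls S p k).card : ℤ) = 0 := by rw [h1]; norm_num
  exact_mod_cast this

theorem lv_zero {S : Finset ℕ} {k : ℕ} (h : cls S p k = ∅) : lv S p k = 0 := by
  unfold lv
  rw [h, sum_empty]

theorem lvF_zero {S : Finset ℕ} {k : ℕ} (h : cnt S p (k % p) = 0) : lvF S p k = 0 := by
  unfold cnt at h
  rw [card_eq_zero] at h
  unfold lvF clsF
  rw [h, sum_empty]

theorem cnt_mono {S T : Finset ℕ} (h : S ⊆ T) (r : ℕ) : cnt S p r ≤ cnt T p r := by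
  unfold cnt
  exact card_le_card (filter_subset_filter _ h)

theorem cnt_pos {S : Finset ℕ} {k : ℕ} (hk : k ∈ S) : 1 ≤ cnt S p (k % p) := by
  unfold cnt
  exact card_pos.mpr ⟨k, by rw [mem_filter]; exact ⟨hk, rfl⟩⟩

theorem map_sum_nonneg (L : List (Finset ℕ)) (f : Finset ℕ → ℕ) :
    (0 : ℤ) ≤ (L.map fun S => (f S : ℤ)).sum := by
  rw [← sum_cast]
  exact Int.natCast_nonneg _

theorem map_sum_zero (L : List (Finset ℕ)) (f : Finset ℕ → ℕ) (g : Finset ℕ → ℚ)
    (h : (L.map fun S => (f S : ℤ)).sum = 0) (hg : ∀ S, f S = 0 → g S = 0) : (L.map g).sum = 0 := by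
  induction L with
  | nil => simp
  | cons S L ih =>
    rw [List.map_cons, List.sum_cons] at h ⊢
    have h1 := map_sum_nonneg L f
    have h2 : (0 : ℤ) ≤ (f S : ℤ) := Int.natCast_nonneg _
    have h3 : (f S : ℤ) = 0 := by omega
    rw [hg S (by exact_mod_cast h3), ih (by omega), add_zero]

theorem single_A0 (h : Adm Zs Hs K1 K2 p) {k : ℕ} (_ : k ∈ K1) (h1 : cnt K1 p (k % p) = 1) :
    padicNorm p (A0L Zs Hs K1 K2 k) ≤ 1 := by
  have := Fact.mk h.hp
  by_cases hk2 : k ∈ K2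
  · rw [norm_A0L h hk2]
    have c2 : (cnt K2 p (k % p) : ℤ) ≤ 1 := by
      have := cnt_mono (p := p) h.hK (k % p)
      rw [h1] at this
      exact_mod_cast this
    have z1 := map_sum_nonneg Zs (fun S => cnt S p (k % p))
    have z2 := map_sum_nonneg Hs (fun S => cnt (sh p S) p (k % p))
    have hphi : 0 ≤ phiL Zs Hs K1 K2 p (k % p) + 2 := by
      unfold phiL
      rw [h1]
      push_cast
      linarith
    have e : (1 : ℚ) = (p : ℚ) ^ (0 : ℤ) := by simp
    rw [e]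
    exact pz_le (by linarith)
  · rw [A0L_zero hk2, padicNorm.zero]
    exact zero_le_one

theorem single_B0 (h : Adm Zs Hs K1 K2 p) {k : ℕ} (hk : k ∈ K1) (h1 : cnt K1 p (k % p) = 1) :
    padicNorm p (B0L Zs Hs K1 K2 k) ≤ 1 := by
  have := Fact.mk h.hp
  have e : (1 : ℚ) = (p : ℚ) ^ (0 : ℤ) := by simp
  have z1 := map_sum_nonneg Zs (fun S => cnt S p (k % p))
  have z2 := map_sum_nonneg Hs (fun S => cnt (sh p S) p (k % p))
  have c2 : cnt K2 p (k % p) ≤ 1 := by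
    have := cnt_mono (p := p) h.hK (k % p)
    rwa [h1] at this
  by_cases hk2 : k ∈ K2
  · have c3 := cnt_pos (p := p) hk2
    have c4 : cnt K2 p (k % p) = 1 := by omega
    by_cases hz : (Zs.map fun S => (cnt S p (k % p) : ℤ)).sum +
        (Hs.map fun S => (cnt (sh p S) p (k % p) : ℤ)).sum = 0
    · have hz1 : (Zs.map fun S => (cnt S p (k % p) : ℤ)).sum = 0 := by omega
      have hz2 : (Hs.map fun S => (cnt (sh p S) p (k % p) : ℤ)).sum = 0 := by omega
      have hlam : LamL Zs Hs K1 K2 p k = 0 := by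
        unfold LamL
        rw [map_sum_zero Zs (fun S => cnt S p (k % p)) (fun S => lv S p k) hz1
            (fun S hS => lv_zero (cls_empty_of_cnt hS)),
          map_sum_zero Hs (fun S => cnt (sh p S) p (k % p)) (fun S => lvF (sh p S) p k) hz2
            (fun S hS => lvF_zero hS), lv_zero (cls_empty_of_single hk h1),
          lv_zero (cls_empty_of_single hk2 c4)]
        norm_num
      have hLL := LL_struct h hk
      rw [hlam, zero_div, sub_zero] at hLL
      rw [B0L_double hk2]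
      exact nmul1 (single_A0 h hk h1) hLL
    · have hphi : 0 ≤ phiL Zs Hs K1 K2 p (k % p) + 1 := by
        unfold phiL
        rw [h1, c4]
        push_cast
        omega
      rw [e]
      exact (norm_B0L_double h hk2).trans (pz_le (by linarith))
  · have c4 : cnt K2 p (k % p) = 0 := by
      by_contra hne
      have hpos : 0 < cnt K2 p (k % p) := Nat.pos_of_ne_zero hne
      unfold cnt at hpos
      obtain ⟨i, hi⟩ := card_pos.mp hpos
      rw [mem_filter] at hi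
      have hik : i ≠ k := by
        rintro rfl
        exact hk2 hi.1
      have hcls := cls_empty_of_single hk h1
      have : i ∈ cls K1 p k := by
        unfold cls
        rw [mem_erase, mem_filter]
        exact ⟨hik, h.hK hi.1, hi.2⟩
      rw [hcls] at this
      exact absurd this (notMem_empty i)
    have hphi : 0 ≤ phiL Zs Hs K1 K2 p (k % p) + 1 := by
      unfold phiL
      rw [h1, c4]
      push_cast
      omega
    rw [e, norm_B0L_simple h hk hk2]
    exact pz_le (by linarith)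

/-- the refined termwise rule -/
theorem termS (h : Adm Zs Hs K1 K2 p) (a s hh' : ℕ) (w : ℤ) (hw : 0 ≤ w)
    (hb : ∀ k ∈ K1, 2 * hh' < p ^ 2 + 2 * k)
    (c1 : ∀ k ∈ K1, a + p ≤ k → 1 - phiL Zs Hs K1 K2 p (k % p) ≤ w)
    (c2 : ∀ k ∈ K1, (s + p ≤ k ∨ 2 * hh' + p + 1 ≤ 2 * k ∨ 2 * k + p + 1 ≤ 2 * hh') →
      -phiL Zs Hs K1 K2 p (k % p) ≤ w)
    (c3 : ∀ k ∈ K1, cnt K1 p (k % p) ≠ 1 → -phiL Zs Hs K1 K2 p (k % p) - 1 ≤ w) :
    PBS Zs Hs K1 K2 a s hh' p w := by
  have := Fact.mk h.hp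
  have hp0 : (p : ℚ) ≠ 0 := by exact_mod_cast h.hp.ne_zero
  have hpp := h.hp.pos
  have e1 : (1 : ℚ) = (p : ℚ) ^ (0 : ℤ) := by simp
  have one_le_w : (1 : ℚ) ≤ (p : ℚ) ^ w := by rw [e1]; exact pz_le hw
  -- general bounds
  have A1 : ∀ k ∈ K1, padicNorm p (A0L Zs Hs K1 K2 k) ≤
      (p : ℚ) ^ (-(phiL Zs Hs K1 K2 p (k % p) + 2)) := fun k _ => norm_A0L_le h le_rfl
  have B1 : ∀ k ∈ K1, max (padicNorm p (B0L Zs Hs K1 K2 k)) (padicNorm p (A0L Zs Hs K1 K2 k)) ≤
      (p : ℚ) ^ (-(phiL Zs Hs K1 K2 p (k % p) + 1)) := fun k hk =>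
    max_le (norm_B0L_le h hk le_rfl) ((A1 k hk).trans (pz_le (by linarith)))
  -- bounds without polar factors
  have B0 : ∀ k ∈ K1, max (padicNorm p (B0L Zs Hs K1 K2 k)) (padicNorm p (A0L Zs Hs K1 K2 k)) ≤
      (p : ℚ) ^ w := by
    intro k hk
    by_cases h1 : cnt K1 p (k % p) = 1
    · exact (max_le (single_B0 h hk h1) (single_A0 h hk h1)).trans one_le_w
    · exact (B1 k hk).trans (pz_le (by have := c3 k hk h1; linarith))
  have A0 : ∀ k ∈ K1, padicNorm p (A0L Zs Hs K1 K2 k) ≤ (p : ℚ) ^ w := fun k hk =>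
    (le_max_right _ _).trans (B0 k hk)
  have hbd : ∀ (x : ℚ) (e : ℤ) (y : ℚ) (t : ℕ), x ≤ (p : ℚ) ^ e → y ≤ (p : ℚ) ^ t → 0 ≤ y →
      e + t ≤ w → x * y ≤ (p : ℚ) ^ w := by
    intro x e y t hx hy hy0 he
    calc x * y ≤ (p : ℚ) ^ e * (p : ℚ) ^ t := mul_le_mul hx hy hy0 (pz_nonneg p e)
      _ = (p : ℚ) ^ (e + t) := by rw [zpow_add₀ hp0, zpow_natCast]
      _ ≤ _ := pz_le he
  have hsm : ∀ (x y : ℚ), x ≤ (p : ℚ) ^ w → y ≤ 1 → 0 ≤ y → x * y ≤ (p : ℚ) ^ w := by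
    intro x y hx hy hy0
    calc x * y ≤ (p : ℚ) ^ w * 1 := mul_le_mul hx hy hy0 (pz_nonneg p w)
      _ = _ := mul_one _
  have hH : ∀ k ∈ K1, k - a < p ^ 2 ∧ k - s < p ^ 2 := by
    intro k hk
    have := h.bK k hk
    omega
  have hO : ∀ k ∈ K1, 2 * ((k : ℤ) - hh') < (p : ℤ) ^ 2 ∧ -(2 * ((k : ℤ) - hh')) < (p : ℤ) ^ 2 := by
    intro k hk
    have h1 := h.bK k hk
    have h2 := hb k hk
    zify at h1 h2
    constructor <;> omega
  refine PBS_of_terms h.hp a s hh' w A0 ?_ ?_ ?_ ?_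
  · intro k hk
    by_cases hc : s + p ≤ k ∨ 2 * hh' + p + 1 ≤ 2 * k ∨ 2 * k + p + 1 ≤ 2 * hh'
    · exact hbd _ _ _ 2 (A1 k hk) (max_le (norm_OH_le p 2 _ h.hp (hO k hk).1 (hO k hk).2)
        (norm_H_le p 2 _ h.hp (hH k hk).2)) ((padicNorm.nonneg _).trans (le_max_left _ _))
        (by have := c2 k hk hc; push_cast; linarith)
    · refine hsm _ _ (A0 k hk) (max_le (norm_OH_small p 2 _ h.hp (by omega) (by omega))
        (norm_H_small p 2 _ h.hp (by omega))) ((padicNorm.nonneg _).trans (le_max_left _ _))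
  · intro k hk
    by_cases hc : s + p ≤ k ∨ 2 * hh' + p + 1 ≤ 2 * k ∨ 2 * k + p + 1 ≤ 2 * hh'
    · exact hbd _ _ _ 1 (B1 k hk) (max_le (norm_OH_le p 1 _ h.hp (hO k hk).1 (hO k hk).2)
        (norm_H_le p 1 _ h.hp (hH k hk).2)) ((padicNorm.nonneg _).trans (le_max_left _ _))
        (by have := c2 k hk hc; push_cast; linarith)
    · refine hsm _ _ (B0 k hk) (max_le (norm_OH_small p 1 _ h.hp (by omega) (by omega))
        (norm_H_small p 1 _ h.hp (by omega))) ((padicNorm.nonneg _).trans (le_max_left _ _))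
  · intro k hk
    by_cases hc : a + p ≤ k
    · exact hbd _ _ _ 3 (A1 k hk) (norm_H_le p 3 _ h.hp (hH k hk).1) (padicNorm.nonneg _)
        (by have := c1 k hk hc; push_cast; linarith)
    · exact hsm _ _ (A0 k hk) (norm_H_small p 3 _ h.hp (by omega)) (padicNorm.nonneg _)
  · intro k hk
    by_cases hc : a + p ≤ k
    · exact hbd _ _ _ 2 (B1 k hk) (norm_H_le p 2 _ h.hp (hH k hk).1) (padicNorm.nonneg _)
        (by have := c1 k hk hc; push_cast; linarith)
    · exact hsm _ _ (B0 k hk) (norm_H_small p 2 _ h.hp (by omega)) (padicNorm.nonneg _)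

/-- crude corollary: only the minimum of phi over the pole classes -/
theorem termS_min (h : Adm Zs Hs K1 K2 p) (a s hh' : ℕ) (m : ℤ) (hm1 : m ≤ 1)
    (hb : ∀ k ∈ K1, 2 * hh' < p ^ 2 + 2 * k)
    (hm : ∀ k ∈ K1, m ≤ phiL Zs Hs K1 K2 p (k % p)) : PBS Zs Hs K1 K2 a s hh' p (1 - m) :=
  termS h a s hh' (1 - m) (by linarith) hb (fun k hk _ => by have := hm k hk; linarith)
    (fun k hk _ => by have := hm k hk; linarith) (fun k hk _ => by have := hm k hk; linarith)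

end Term

namespace BD

variable {d : BD}

theorem AA_one (j : ℕ) : d.AA 1 j = AL d.Zs d.Hs d.K1 d.K2 j := by
  funext k
  simp [AA, AL]

theorem BB_one (j : ℕ) : d.BB 1 j = BL d.Zs d.Hs d.K1 d.K2 j := by
  funext k
  simp [BB, BL]

/-- the p-adic bounds for block data, independent starts -/
theorem PBD_of_PBS {a s h p w : ℕ} (hp : p.Prime)
    (hP : PBS d.Zs d.Hs d.K1 d.K2 a s h p (w : ℤ)) (j : ℕ) (hj : j ≤ 2) :
    padicNorm p (d.QG 1 j) ≤ (p : ℚ) ^ w ∧
    padicNorm p (P2s d.K1 (d.AA 1 j) (d.BB 1 j) s h) ≤ (p : ℚ) ^ w ∧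
    padicNorm p (P3 d.K1 (d.AA 1 j) (d.BB 1 j) a) ≤ (p : ℚ) ^ w := by
  have := Fact.mk hp
  obtain ⟨h1, h2, h3⟩ := hP j hj
  rw [zpow_natCast] at h1 h2 h3
  rw [AA_one, BB_one]
  refine ⟨?_, h2, h3⟩
  unfold QG
  rw [AA_one]
  exact nmul1 (by exact_mod_cast nint (p := p) 2) h1

end BD

end Pool.Agent.Z23
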