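import Pool.Agent.Z23.TermC
import Pool.Agent.Z23.TermS

/-!
The large primes p > 20n+1 of the frozen configuration: every class contains at most one pole.
-/

open Finset
open scoped BigOperators

namespace Pool.Agent.Z23

open Pool.Agent.Z3.TermAux (cnt)

namespace BigC

theorem cnt_ge_one {S : Finset ℕ} {p i r : ℕ} (hi : i ∈ S) (hr : i % p = r) : 1 ≤ cnt S p r := by
  unfold cnt
  exact card_pos.mpr ⟨i, by rw [mem_filter]; exact ⟨hi, hr⟩⟩

/-- a block of length at most p has at most one element in every class -/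
theorem cnt_le_one {p u L : ℕ} (hL : L ≤ p) (r : ℕ) : cnt (Ico u (u + L)) p r ≤ 1 := by
  unfold cnt
  rw [card_le_one]
  intro i hi j hj
  rw [mem_filter, mem_Ico] at hi hj
  have h1 : i % p = j % p := by rw [hi.2, hj.2]
  rcases le_total i j with h | h
  · have h2 : p ∣ j - i := (Nat.modEq_iff_dvd' h).mp h1
    rcases Nat.eq_zero_or_pos (j - i) with h3 | h3
    · omega
    · have := Nat.le_of_dvd h3 h2
      omega
  · have h2 : p ∣ i - j := (Nat.modEq_iff_dvd' h).mp h1.symm
    rcases Nat.eq_zero_or_pos (i - j) with h3 | h3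
    · omega
    · have := Nat.le_of_dvd h3 h2
      omega

theorem sub_mod {p k : ℕ} (h : p ≤ k) : (k - p) % p = k % p := (Nat.mod_eq_sub_mod h).symm

end BigC

open BigC

/-- the form in zeta(2) with base point 32 n, rewritten with independent starts -/
theorem P2_dd (n j : ℕ) (hn : 1 ≤ n) (hj : j ≤ 2) :
    P2 (dd n).K1 ((dd n).AA 1 j) ((dd n).BB 1 j) (32 * n) =
      P2s (dd n).K1 ((dd n).AA 1 j) ((dd n).BB 1 j) (16 * n) (19 * n) := by
  have hk : ∀ k ∈ (dd n).K1, 16 * n ≤ k := by
    intro k hk
    rw [dd_K1, mem_Ico] at hk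
    omega
  have e : 32 * n = 2 * (16 * n) := by ring
  rw [e, P2_eq_P2s _ _ _ (16 * n) hk]
  refine (P2s_move ((dd n).RG 1 j) (dd n).K1 ((dd n).AA 1 j) ((dd n).BB 1 j) (16 * n) (19 * n)
    (16 * n) (16 * n) le_rfl (by omega) hk
    (fun t ht => BD.RG_pf (dd_ok n hn) 1 j (by omega) t ht) (fun i hi hi' => by omega)
    (fun i hi hi' => BD.RG_half_zero' 1 j i (by simp only [dd]; omega)
      (by simp only [dd]; omega))).symm

theorem PBn_of_PBS (n p w : ℕ) (hn : 1 ≤ n) (hp : p.Prime)
    (h : PBS (dd n).Zs (dd n).Hs (dd n).K1 (dd n).K2 (14 * n) (16 * n) (19 * n) p (w : ℤ)) :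
    PBn n p w := by
  intro j hj
  have := BD.PBD_of_PBS hp h j hj
  rw [P2_dd n j hn hj]
  exact this

namespace BigC

theorem K1_one (n p k : ℕ) (hp : 20 * n + 1 < p) (hk : k ∈ (dd n).K1) :
    cnt (dd n).K1 p (k % p) = 1 := by
  have h1 : cnt (dd n).K1 p (k % p) ≤ 1 := by
    have h2 : (dd n).K1 = Ico (18 * n) (18 * n + (20 * n + 2)) := by
      simp only [BD.K1, dd]
    rw [h2]
    exact cnt_le_one (by omega) _
  have h2 := cnt_ge_one (p := p) hk rfl
  omega

/-- lower bound for phi -/
theorem phi_ge (n p k z : ℕ) (hp : 20 * n + 1 < p) (hk : k ∈ (dd n).K1)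
    (hz : z ≤ cnt (Ico 0 (16 * n)) p (k % p) + cnt (Ico (2 * n) (14 * n)) p (k % p)) :
    (z : ℤ) - 1 - (if k ∈ (dd n).K2 then 1 else 0) ≤
      phiL (dd n).Zs (dd n).Hs (dd n).K1 (dd n).K2 p (k % p) := by
  have h1 := K1_one n p k hp hk
  have hsub : (dd n).K2 ⊆ (dd n).K1 := by
    rw [dd_K1, dd_K2]
    intro i hi
    rw [mem_Ico] at hi ⊢
    omega
  have h2 : (cnt (dd n).K2 p (k % p) : ℤ) ≤ if k ∈ (dd n).K2 then 1 else 0 := by
    split_ifs with hk2
    · have := cnt_mono (p := p) hsub (k % p)
      rw [h1] at this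
      exact_mod_cast this
    · have h3 : cnt (dd n).K2 p (k % p) = 0 := by
        by_contra hne
        have hpos : 0 < cnt (dd n).K2 p (k % p) := Nat.pos_of_ne_zero hne
        unfold cnt at hpos
        obtain ⟨i, hi⟩ := card_pos.mp hpos
        rw [mem_filter] at hi
        have hik : i ≠ k := by
          rintro rfl
          exact hk2 hi.1
        have h4 : (dd n).K1.filter (fun i => i % p = k % p) ⊆ {k} := by
          have h5 : ((dd n).K1.filter (fun i => i % p = k % p)).card ≤ 1 := by
            have := h1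
            unfold cnt at this
            omega
          intro x hx
          rw [mem_singleton]
          exact card_le_one.mp h5 x hx k (by rw [mem_filter]; exact ⟨hk, rfl⟩)
        have h6 : i ∈ (dd n).K1.filter (fun i => i % p = k % p) := by
          rw [mem_filter]
          exact ⟨hsub hi.1, hi.2⟩
        have h7 := h4 h6
        rw [mem_singleton] at h7
        exact hik h7
      rw [h3]
      simp
  unfold phiL
  rw [dd_Zs, h1]
  simp only [List.map_cons, List.map_nil, List.sum_cons, List.sum_nil]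
  have h3 := map_sum_nonneg (dd n).Hs (fun S => cnt (sh p S) p (k % p))
  have h4 : (z : ℤ) ≤ (cnt (Ico 0 (16 * n)) p (k % p) : ℤ) +
      (cnt (Ico (2 * n) (14 * n)) p (k % p) : ℤ) := by exact_mod_cast hz
  push_cast
  linarith

theorem N1_one {n p k : ℕ} (h1 : p ≤ k) (h2 : k < 16 * n + p) :
    1 ≤ cnt (Ico 0 (16 * n)) p (k % p) :=
  cnt_ge_one (i := k - p) (by rw [mem_Ico]; omega) (sub_mod h1)

theorem N2_one {n p k : ℕ} (h1 : 2 * n + p ≤ k) (h2 : k < 14 * n + p) :
    1 ≤ cnt (Ico (2 * n) (14 * n)) p (k % p) :=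
  cnt_ge_one (i := k - p) (by rw [mem_Ico]; omega) (sub_mod (by omega))

end BigC

/-- (T2) -/
theorem big1 (n p : ℕ) (hn : 1 ≤ n) (hp : p.Prime) (hp2 : MM n < p ^ 2) (h : 20 * n + 1 < p) :
    PBn n p 2 := by
  refine PBn_of_PBS n p 2 hn hp (termS (adm_ddT n p hn hp hp2) (14 * n) (16 * n) (19 * n) _
    (by norm_num) ?_ ?_ ?_ ?_)
  · intro k hk
    rw [dd_K1, mem_Ico] at hk
    nlinarith
  · intro k hk hc
    have hk' := hk
    rw [dd_K1, mem_Ico] at hk'
    by_cases hk2 : k ∈ (dd n).K2
    · have hk3 := hk2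
      rw [dd_K2, mem_Ico] at hk3
      have := phi_ge n p k 1 h hk (by
        have := N1_one (n := n) (p := p) (k := k) (by omega) (by omega)
        omega)
      rw [if_pos hk2] at this
      push_cast at this ⊢
      linarith
    · have := phi_ge n p k 0 h hk (by omega)
      rw [if_neg hk2] at this
      push_cast at this ⊢
      linarith
  · intro k hk _
    have := phi_ge n p k 0 h hk (by omega)
    split_ifs at this <;> push_cast at this ⊢ <;> linarith
  · intro k hk hne
    exact absurd (K1_one n p k h hk) hne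

/-- (T2) -/
theorem big2 (n p : ℕ) (hn : 1 ≤ n) (hp : p.Prime) (hp2 : MM n < p ^ 2) (h : 22 * n + 1 < p) :
    PBn n p 1 := by
  have h20 : 20 * n + 1 < p := by omega
  refine PBn_of_PBS n p 1 hn hp (termS (adm_ddT n p hn hp hp2) (14 * n) (16 * n) (19 * n) _
    (by norm_num) ?_ ?_ ?_ ?_)
  · intro k hk
    rw [dd_K1, mem_Ico] at hk
    nlinarith
  · intro k hk hc
    have hk' := hk
    rw [dd_K1, mem_Ico] at hk'
    by_cases hk2 : k ∈ (dd n).K2
    · have hk3 := hk2
      rw [dd_K2, mem_Ico] at hk3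
      omega
    · have := phi_ge n p k 1 h20 hk (by
        have := N1_one (n := n) (p := p) (k := k) (by omega) (by omega)
        omega)
      rw [if_neg hk2] at this
      push_cast at this ⊢
      linarith
  · intro k hk hc
    have hk' := hk
    rw [dd_K1, mem_Ico] at hk'
    by_cases hk2 : k ∈ (dd n).K2
    · have hk3 := hk2
      rw [dd_K2, mem_Ico] at hk3
      have := phi_ge n p k 1 h20 hk (by
        have := N1_one (n := n) (p := p) (k := k) (by omega) (by omega)
        omega)
      rw [if_pos hk2] at this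
      push_cast at this ⊢
      linarith
    · have := phi_ge n p k 0 h20 hk (by omega)
      rw [if_neg hk2] at this
      push_cast at this ⊢
      linarith
  · intro k hk hne
    exact absurd (K1_one n p k h20 hk) hne

/-- (T2) -/
theorem big3 (n p : ℕ) (hn : 1 ≤ n) (hp : p.Prime) (hp2 : MM n < p ^ 2) (h : 24 * n + 1 < p) :
    PBn n p 0 := by
  have h20 : 20 * n + 1 < p := by omega
  refine PBn_of_PBS n p 0 hn hp (termS (adm_ddT n p hn hp hp2) (14 * n) (16 * n) (19 * n) _
    (by norm_num) ?_ ?_ ?_ ?_)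
  · intro k hk
    rw [dd_K1, mem_Ico] at hk
    nlinarith
  · intro k hk hc
    rw [dd_K1, mem_Ico] at hk
    omega
  · intro k hk hc
    have hk' := hk
    rw [dd_K1, mem_Ico] at hk'
    by_cases hk2 : k ∈ (dd n).K2
    · have hk3 := hk2
      rw [dd_K2, mem_Ico] at hk3
      have := phi_ge n p k 2 h20 hk (by
        have h1 := N1_one (n := n) (p := p) (k := k) (by omega) (by omega)
        have h2 := N2_one (n := n) (p := p) (k := k) (by omega) (by omega)
        omega)
      rw [if_pos hk2] at this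
      push_cast at this ⊢
      linarith
    · have hk4 : ¬ (19 * n ≤ k ∧ k < 36 * n + 2) := by
        rw [dd_K2, mem_Ico] at hk2
        exact hk2
      have := phi_ge n p k 1 h20 hk (by
        have h1 := N1_one (n := n) (p := p) (k := k) (by omega) (by omega)
        omega)
      rw [if_neg hk2] at this
      push_cast at this ⊢
      linarith
  · intro k hk hne
    exact absurd (K1_one n p k h20 hk) hne

end Pool.Agent.Z23
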