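import Pool.Agent.Z23.Nonvan

/-!
The block data: zeros at the integers of `[a1, a1 + l1)` and `[a2, a2 + l2)` and at the half-integers
`i + 1/2`, `a3 <= i < a3 + l3`, poles at `[b1, b1 + m1)` and `[b2, b2 + m2)`; line `Re t = -a3 - 1/4`.
-/

open Polynomial Finset

namespace Pool.Agent.Z23

/-- numerator -/
noncomputable def NB (a1 l1 a2 l2 a3 l3 : ℕ) : ℂ[X] :=
  blk a1 l1 * blk a2 l2 * blk ((a3 : ℂ) + 1 / 2) l3

/-- denominator -/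
noncomputable def DB (b1 m1 b2 m2 : ℕ) : ℂ[X] := blk b1 m1 * blk b2 m2

theorem blk_real (a : ℝ) (l : ℕ) (t : ℂ) :
    (blk (a : ℂ) l).eval ((starRingEnd ℂ) t) = (starRingEnd ℂ) ((blk (a : ℂ) l).eval t) := by
  rw [blk_eval, blk_eval, map_prod]
  refine prod_congr rfl ?_
  intro i _
  simp only [map_add, Complex.conj_ofReal, map_natCast]

theorem blk_roots (a : ℝ) (l : ℕ) (t : ℂ) (h : (blk (a : ℂ) l).eval t = 0) : t.im = 0 := by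
  rw [blk_eval, prod_eq_zero_iff] at h
  obtain ⟨i, _, hi⟩ := h
  have := congrArg Complex.im hi
  simpa using this

theorem blk_root (a : ℂ) (l i : ℕ) (hi : i < l) : (blk a l).eval (-(a + (i : ℂ))) = 0 := by
  rw [blk_eval]
  exact prod_eq_zero (mem_range.mpr hi) (by ring)

theorem blk_dvd (a : ℂ) (l i : ℕ) (hi : i < l) : (X + C (a + (i : ℂ))) ∣ blk a l :=
  dvd_prod_of_mem _ (mem_range.mpr hi)

theorem blk_ge (b m : ℕ) (t : ℂ) (ht : 1 - (b : ℝ) ≤ t.re) : 1 ≤ ‖(blk (b : ℂ) m).eval t‖ := by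
  rw [blk_eval, norm_prod]
  refine Finset.one_le_prod ?_
  intro i _
  have h3 : (t + ((b : ℂ) + (i : ℂ))).re ≤ ‖t + ((b : ℂ) + (i : ℂ))‖ := Complex.re_le_norm _
  rw [Complex.add_re, Complex.add_re, Complex.natCast_re, Complex.natCast_re] at h3
  have : (0 : ℝ) ≤ i := Nat.cast_nonneg _
  linarith

theorem lineData_blocks (a1 l1 a2 l2 a3 l3 b1 m1 b2 m2 : ℕ) (h1 : a1 ≤ a3) (h1' : a3 < a1 + l1)
    (h2 : a2 ≤ a3) (h2' : a3 < a2 + l2) (h3 : 1 ≤ l3) (hb1 : a3 + 2 ≤ b1) (hb2 : a3 + 2 ≤ b2) :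
    LineData (NB a1 l1 a2 l2 a3 l3) (DB b1 m1 b2 m2)
      ((X + C ((a1 : ℂ) - 1)) * (X + C ((a2 : ℂ) - 1)) * (X + C ((a3 : ℂ) + 1 / 2 - 1)) *
        (X + C ((b1 : ℂ) + m1 - 1)) * (X + C ((b2 : ℂ) + m2 - 1))) (-(a3 : ℤ)) := by
  have e3 : ((a3 : ℂ) + 1 / 2) = (((a3 : ℝ) + 1 / 2 : ℝ) : ℂ) := by push_cast; ring
  have e1 : ((a1 : ℂ)) = (((a1 : ℝ) : ℝ) : ℂ) := by push_cast; ring
  have e2 : ((a2 : ℂ)) = (((a2 : ℝ) : ℝ) : ℂ) := by push_cast; ring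
  refine ⟨?_, ?_, ?_, ?_, ?_, ?_⟩
  · intro t
    unfold NB
    rw [eval_mul, eval_mul, eval_mul, eval_mul, map_mul, map_mul, e1, e2, e3, blk_real, blk_real,
      blk_real]
  · intro t ht
    unfold NB at ht
    rw [eval_mul, eval_mul, e1, e2, e3] at ht
    rcases mul_eq_zero.mp ht with h | h
    · rcases mul_eq_zero.mp h with h | h
      · exact blk_roots _ _ _ h
      · exact blk_roots _ _ _ h
    · exact blk_roots _ _ _ h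
  · intro t ht
    have hb1' : (a3 : ℝ) + 2 ≤ b1 := by exact_mod_cast hb1
    have hb2' : (a3 : ℝ) + 2 ≤ b2 := by exact_mod_cast hb2
    push_cast at ht
    unfold DB
    rw [eval_mul, norm_mul]
    exact one_le_mul_of_one_le_of_one_le (blk_ge _ _ _ (by linarith)) (blk_ge _ _ _ (by linarith))
  · obtain ⟨i, hi⟩ : ∃ i, a3 = a1 + i := ⟨a3 - a1, by omega⟩
    obtain ⟨j, hj⟩ : ∃ j, a3 = a2 + j := ⟨a3 - a2, by omega⟩
    obtain ⟨P1, hP1⟩ := blk_dvd (a1 : ℂ) l1 i (by omega)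
    obtain ⟨P2, hP2⟩ := blk_dvd (a2 : ℂ) l2 j (by omega)
    refine ⟨P1 * P2 * blk ((a3 : ℂ) + 1 / 2) l3, ?_⟩
    have c1 : (a1 : ℂ) + (i : ℂ) = a3 := by rw [hi]; push_cast; ring
    have c2 : (a2 : ℂ) + (j : ℂ) = a3 := by rw [hj]; push_cast; ring
    have c3 : (X - C (((-(a3 : ℤ) : ℤ)) : ℂ) : ℂ[X]) = X + C (a3 : ℂ) := by
      push_cast
      simp only [C_neg]
      ring
    unfold NB
    rw [hP1, hP2, c1, c2, c3]
    ring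
  · unfold NB
    rw [eval_mul]
    have : (((-(a3 : ℤ) : ℤ)) : ℂ) - 1 / 2 = -(((a3 : ℂ) + 1 / 2) + ((0 : ℕ) : ℂ)) := by
      push_cast; ring
    rw [this, blk_root _ _ _ (by omega), mul_zero]
  · simp only [eval_mul, eval_add, eval_X, eval_C]
    have : ((((-(a3 : ℤ) : ℤ)) : ℂ) + 1 / 2 + ((a3 : ℂ) + 1 / 2 - 1)) = 0 := by
      push_cast; ring
    rw [this]
    ring

/-- **Non-vanishing for the block data.** -/
theorem nonvanish_blocks (a1 l1 a2 l2 a3 l3 b1 m1 b2 m2 : ℕ) (h1 : a1 ≤ a3) (h1' : a3 < a1 + l1)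
    (h2 : a2 ≤ a3) (h2' : a3 < a2 + l2) (h3 : 1 ≤ l3) (hb1 : a3 + 2 ≤ b1) (hb2 : a3 + 2 ≤ b2)
    (hl : m1 + m2 = l1 + l2 + l3 + 4) (x y : ℂ)
    (hv : ∀ j < 3, x * J (2 * (-(a3 : ℤ))) (fun u => (u / 2) ^ j *
        ((NB a1 l1 a2 l2 a3 l3).eval (u / 2) / (DB b1 m1 b2 m2).eval (u / 2))) +
      y * Pool.Agent.Z3.Iint (-(a3 : ℤ)) (fun t => t ^ j *
        ((NB a1 l1 a2 l2 a3 l3).eval t / (DB b1 m1 b2 m2).eval t)) = 0) : x = 0 ∧ y = 0 :=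
  nonvanish (lineData_blocks a1 l1 a2 l2 a3 l3 b1 m1 b2 m2 h1 h1' h2 h2' h3 hb1 hb2)
    (shiftData_blocks (a1 : ℂ) (a2 : ℂ) ((a3 : ℂ) + 1 / 2) (b1 : ℂ) (b2 : ℂ) l1 l2 l3 m1 m2 hl) x y hv

end Pool.Agent.Z23
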