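import Pool.Agent.Z23.PFGen

/-!
# Partial fractions for products of integer blocks and half-integer blocks of zeros
-/

open Finset Polynomial

namespace Pool.Agent.Z23

open Pool.Agent.Z3.PFaux (LX LD LD_LX monic_LX natDegree_LX eval_LX LX_erase prod_ne)

/-- linear factors with a half-integer shift -/
noncomputable def LHX (S : Finset ℕ) : ℚ[X] := ∏ i ∈ S, (X + C ((i : ℚ) + 1 / 2))

theorem monic_LHX (S : Finset ℕ) : (LHX S).Monic :=
  monic_prod_of_monic _ _ fun _ _ => monic_X_add_C _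

theorem natDegree_LHX (S : Finset ℕ) : (LHX S).natDegree = S.card := by
  rw [LHX, natDegree_prod_of_monic _ _ fun _ _ => monic_X_add_C _,
    Finset.sum_congr rfl fun i _ => natDegree_X_add_C _]
  simp

theorem half_shift_ne (i k : ℕ) : (i : ℚ) + 1 / 2 - k ≠ 0 := by
  intro h
  have h1 : (2 * i + 1 : ℚ) = 2 * k := by linarith
  have h2 : 2 * i + 1 = 2 * k := by exact_mod_cast h1
  omega

theorem eval_LHX {F : Type*} [Field F] [CharZero F] (S : Finset ℕ) (t : F) :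
    (LHX S).eval₂ (Rat.castHom F) t = ∏ i ∈ S, (t + ((i : F) + 1 / 2)) := by
  rw [LHX, eval₂_finsetProd]
  apply Finset.prod_congr rfl
  intro i _
  simp

theorem LD_LHX (S : Finset ℕ) (k : ℕ) :
    LD (LHX S) (-(k : ℚ)) (∏ i ∈ S, (-(k : ℚ) + ((i : ℚ) + 1 / 2)))
      (∑ i ∈ S, 1 / ((i : ℚ) + 1 / 2 - k)) := by
  classical
  induction S using Finset.induction_on with
  | empty => exact ⟨by simp [LHX], by simp [LHX]⟩
  | insert a S ha ih =>
    rw [LHX, Finset.prod_insert ha, Finset.prod_insert ha, Finset.sum_insert ha]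
    have h1 := Pool.Agent.Z3.PFaux.LD.lin (-(k : ℚ)) ((a : ℚ) + 1 / 2) (by
      have := half_shift_ne a k
      intro h0
      apply this
      linarith)
    rw [show (-(k : ℚ) + ((a : ℚ) + 1 / 2)) = (a : ℚ) + 1 / 2 - k by ring] at h1 ⊢
    exact h1.mul ih

theorem LD_mapZ (Zs : List (Finset ℕ)) (k : ℕ) (hZ : ∀ S ∈ Zs, k ∉ S) :
    LD ((Zs.map LX).prod) (-(k : ℚ)) ((Zs.map fun S : Finset ℕ => ∏ i ∈ S, (-(k : ℚ) + (i : ℚ))).prod)
      ((Zs.map fun S : Finset ℕ => ∑ i ∈ S, 1 / ((i : ℚ) - k)).sum) := by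
  induction Zs with
  | nil => exact ⟨by simp, by simp⟩
  | cons S Zs ih =>
    simp only [List.map_cons, List.prod_cons, List.sum_cons]
    have h1 := LD_LX S k (hZ S (List.mem_cons_self))
    rw [← Pool.Agent.Z3.PFaux.prod_comm'] at h1
    exact h1.mul (ih fun S' hS' => hZ S' (List.mem_cons_of_mem _ hS'))

theorem LD_mapH (Hs : List (Finset ℕ)) (k : ℕ) :
    LD ((Hs.map LHX).prod) (-(k : ℚ)) ((Hs.map fun S : Finset ℕ => ∏ i ∈ S, (-(k : ℚ) + ((i : ℚ) + 1 / 2))).prod)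
      ((Hs.map fun S : Finset ℕ => ∑ i ∈ S, 1 / ((i : ℚ) + 1 / 2 - k)).sum) := by
  induction Hs with
  | nil => exact ⟨by simp, by simp⟩
  | cons S Hs ih =>
    simp only [List.map_cons, List.prod_cons, List.sum_cons]
    exact (LD_LHX S k).mul ih

/-- the numerator polynomial times X^j -/
noncomputable def PL (j : ℕ) (Zs Hs : List (Finset ℕ)) : ℚ[X] :=
  X ^ j * ((Zs.map LX).prod * (Hs.map LHX).prod)

theorem LD_PL (j : ℕ) (Zs Hs : List (Finset ℕ)) (k : ℕ) (hk : k ≠ 0) (hZ : ∀ S ∈ Zs, k ∉ S) :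
    LD (PL j Zs Hs) (-(k : ℚ)) ((-(k : ℚ)) ^ j * numL Zs Hs (-(k : ℚ)))
      ((j : ℚ) / (-(k : ℚ)) + logL Zs Hs k) := by
  have hk0 : -(k : ℚ) ≠ 0 := by
    have : (k : ℚ) ≠ 0 := by exact_mod_cast hk
    exact neg_ne_zero.2 this
  exact (LD.Xpow j (-(k : ℚ)) hk0).mul ((LD_mapZ Zs k hZ).mul (LD_mapH Hs k))

theorem natDegree_mapZ (Zs : List (Finset ℕ)) : (Zs.map LX).prod.Monic ∧
    (Zs.map LX).prod.natDegree = (Zs.map Finset.card).sum := by
  induction Zs with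
  | nil => simp
  | cons S Zs ih =>
    simp only [List.map_cons, List.prod_cons, List.sum_cons]
    refine ⟨(monic_LX S).mul ih.1, ?_⟩
    rw [(monic_LX S).natDegree_mul ih.1, natDegree_LX, ih.2]

theorem natDegree_mapH (Zs : List (Finset ℕ)) : (Zs.map LHX).prod.Monic ∧
    (Zs.map LHX).prod.natDegree = (Zs.map Finset.card).sum := by
  induction Zs with
  | nil => simp
  | cons S Zs ih =>
    simp only [List.map_cons, List.prod_cons, List.sum_cons]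
    refine ⟨(monic_LHX S).mul ih.1, ?_⟩
    rw [(monic_LHX S).natDegree_mul ih.1, natDegree_LHX, ih.2]

theorem natDegree_PL (j : ℕ) (Zs Hs : List (Finset ℕ)) : (PL j Zs Hs).natDegree = degL Zs Hs + j := by
  obtain ⟨m1, d1⟩ := natDegree_mapZ Zs
  obtain ⟨m2, d2⟩ := natDegree_mapH Hs
  rw [PL, (monic_X_pow j).natDegree_mul (m1.mul m2), m1.natDegree_mul m2, d1, d2, natDegree_X_pow,
    degL]
  omega

theorem eval_PL {F : Type*} [Field F] [CharZero F] (j : ℕ) (Zs Hs : List (Finset ℕ)) (t : F) :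
    (PL j Zs Hs).eval₂ (Rat.castHom F) t = t ^ j * numL Zs Hs t := by
  have h1 : ∀ Zs : List (Finset ℕ), ((Zs.map LX).prod).eval₂ (Rat.castHom F) t =
      (Zs.map fun S : Finset ℕ => ∏ i ∈ S, (t + (i : F))).prod := by
    intro Zs
    induction Zs with
    | nil => simp
    | cons S Zs ih => simp only [List.map_cons, List.prod_cons, eval₂_mul, ih, eval_LX]
  have h2 : ∀ Zs : List (Finset ℕ), ((Zs.map LHX).prod).eval₂ (Rat.castHom F) t =
      (Zs.map fun S : Finset ℕ => ∏ i ∈ S, (t + ((i : F) + 1 / 2))).prod := by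
    intro Zs
    induction Zs with
    | nil => simp
    | cons S Zs ih => simp only [List.map_cons, List.prod_cons, eval₂_mul, ih, eval_LHX]
  rw [PL, eval₂_mul, eval₂_mul, h1, h2, eval₂_pow, eval₂_X, numL]

theorem cA_PL (j : ℕ) (Zs Hs : List (Finset ℕ)) (K1 K2 : Finset ℕ) (k : ℕ) (hk : k ≠ 0)
    (hZ : ∀ S ∈ Zs, k ∉ S) :
    cA (PL j Zs Hs) K1 K2 k = (-(k : ℚ)) ^ j * A0L Zs Hs K1 K2 k := by
  rw [cA, A0L, (LD_PL j Zs Hs k hk hZ).val]
  split_ifs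
  · rw [mul_div_assoc]
  · rw [mul_zero]

theorem cB_PL (j : ℕ) (Zs Hs : List (Finset ℕ)) (K1 K2 : Finset ℕ) (k : ℕ) (hk : k ≠ 0)
    (hZ : ∀ S ∈ Zs, k ∉ S) :
    cB (PL j Zs Hs) K1 K2 k = (-(k : ℚ)) ^ j * B0L Zs Hs K1 K2 k +
      (j : ℚ) * (-(k : ℚ)) ^ (j - 1) * A0L Zs Hs K1 K2 k := by
  have h := LD_PL j Zs Hs k hk hZ
  rw [cB, B0L, A0L, h.val, h.der]
  split_ifs with hk2
  · have hk0 : (k : ℚ) ≠ 0 := by exact_mod_cast hk
    have q1 := dK_ne K1 k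
    have q2 := dK_ne K2 k
    cases j with
    | zero =>
      simp only [pow_zero, Nat.cast_zero]
      field_simp
      ring
    | succ j =>
      simp only [Nat.add_sub_cancel]
      rw [pow_succ]
      field_simp
      ring
  · rw [mul_zero, add_zero, mul_div_assoc]

/-- partial fractions for t^j num / den -/
theorem partial_fraction {F : Type*} [Field F] [CharZero F] (j : ℕ) (Zs Hs : List (Finset ℕ))
    (K1 K2 : Finset ℕ) (hK : K2 ⊆ K1) (h0 : 0 ∉ K1) (hZ : ∀ S ∈ Zs, ∀ k ∈ K1, k ∉ S)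
    (hd : degL Zs Hs + j < K1.card + K2.card) (t : F) (ht : ∀ k ∈ K1, t + (k : F) ≠ 0) :
    t ^ j * numL Zs Hs t / ((∏ i ∈ K1, (t + (i : F))) * ∏ i ∈ K2, (t + (i : F))) =
      ∑ k ∈ K1, ((((-(k : ℚ)) ^ j * A0L Zs Hs K1 K2 k : ℚ) : F) / (t + (k : F)) ^ 2 +
        (((-(k : ℚ)) ^ j * B0L Zs Hs K1 K2 k + (j : ℚ) * (-(k : ℚ)) ^ (j - 1) * A0L Zs Hs K1 K2 k : ℚ)
          : F) / (t + (k : F))) := by
  rw [← eval_PL, pf (PL j Zs Hs) K1 K2 hK (by rw [natDegree_PL]; exact hd) t ht]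
  apply Finset.sum_congr rfl
  intro k hk
  have hk0 : k ≠ 0 := fun h => h0 (h ▸ hk)
  rw [cA_PL j Zs Hs K1 K2 k hk0 fun S hS => hZ S hS k hk,
    cB_PL j Zs Hs K1 K2 k hk0 fun S hS => hZ S hS k hk]

theorem sum_B (j : ℕ) (Zs Hs : List (Finset ℕ)) (K1 K2 : Finset ℕ) (hK : K2 ⊆ K1) (h0 : 0 ∉ K1)
    (hZ : ∀ S ∈ Zs, ∀ k ∈ K1, k ∉ S) (hd : degL Zs Hs + j + 2 ≤ K1.card + K2.card) :
    ∑ k ∈ K1, ((-(k : ℚ)) ^ j * B0L Zs Hs K1 K2 k +
      (j : ℚ) * (-(k : ℚ)) ^ (j - 1) * A0L Zs Hs K1 K2 k) = 0 := by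
  rw [← sum_cB (PL j Zs Hs) K1 K2 hK (by rw [natDegree_PL]; exact hd)]
  apply Finset.sum_congr rfl
  intro k hk
  have hk0 : k ≠ 0 := fun h => h0 (h ▸ hk)
  rw [cB_PL j Zs Hs K1 K2 k hk0 fun S hS => hZ S hS k hk]

end Pool.Agent.Z23
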