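import Pool.Agent.Z23.Move
import Pool.Agent.Z23.PF
import Pool.Agent.Z23.NvBlocks

/-!
# The two linear forms for block data

Integer zero blocks [a1, a1+l1), [a2, a2+l2), half-integer zero block i + 1/2 with i in
[a3, a3+l3), pole blocks [b1, b1+m1) and [b2, b2+m2) inside it.  `RG` is the rational function
(with a rational factor kap and the monomial t^j), `F2G` and `F3G` are its two integrals on the
lines Re t = -a3 - 1/4 and Re t = -a3 - 1/2; `F2G_eq`, `F3G_eq` are the linear forms and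
`nonvanishG` is the nonvanishing.
-/

open Finset Filter Topology Complex
open scoped BigOperators

namespace Pool.Agent.Z23

open Pool.Agent.Z3 (Iint H zeta3)

/-- block data -/
structure BD where
  a1 : ℕ
  l1 : ℕ
  a2 : ℕ
  l2 : ℕ
  a3 : ℕ
  l3 : ℕ
  b1 : ℕ
  m1 : ℕ
  b2 : ℕ
  m2 : ℕ

namespace BD

variable (d : BD)

/-- integer zero blocks -/
def Zs : List (Finset ℕ) := [Ico d.a1 (d.a1 + d.l1), Ico d.a2 (d.a2 + d.l2)]

/-- half-integer zero block -/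
def Hs : List (Finset ℕ) := [Ico d.a3 (d.a3 + d.l3)]

/-- the poles -/
def K1 : Finset ℕ := Ico d.b1 (d.b1 + d.m1)

/-- the double poles -/
def K2 : Finset ℕ := Ico d.b2 (d.b2 + d.m2)

/-- coefficient of 1/(t+k)^2 -/
def AA (kap : ℚ) (j k : ℕ) : ℚ := kap * ((-(k : ℚ)) ^ j * A0L d.Zs d.Hs d.K1 d.K2 k)

/-- coefficient of 1/(t+k) -/
def BB (kap : ℚ) (j k : ℕ) : ℚ :=
  kap * ((-(k : ℚ)) ^ j * B0L d.Zs d.Hs d.K1 d.K2 k +
    (j : ℚ) * (-(k : ℚ)) ^ (j - 1) * A0L d.Zs d.Hs d.K1 d.K2 k)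

/-- the rational function -/
noncomputable def RG (kap : ℚ) (j : ℕ) (t : ℂ) : ℂ :=
  (kap : ℂ) * (t ^ j * numL d.Zs d.Hs t / ((∏ i ∈ d.K1, (t + (i : ℂ))) * ∏ i ∈ d.K2, (t + (i : ℂ))))

/-- the coefficient of both zeta values -/
def QG (kap : ℚ) (j : ℕ) : ℚ := 2 * ∑ k ∈ d.K1, d.AA kap j k

/-- the integral with the kernel 1/cosh on the line Re t = -a3 - 1/4 (with sign) -/
noncomputable def F2G (kap : ℚ) (j : ℕ) : ℂ := -J (2 * (-(d.a3 : ℤ))) (fun u => d.RG kap j (u / 2))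

/-- the integral with the squared kernel on the line Re t = -a3 - 1/2 -/
noncomputable def F3G (kap : ℚ) (j : ℕ) : ℂ := Iint (-(d.a3 : ℤ)) (d.RG kap j)

/-- the conditions on the block data -/
structure OK : Prop where
  h1 : d.a1 ≤ d.a3
  h1' : d.a3 < d.a1 + d.l1
  h2 : d.a2 ≤ d.a3
  h2' : d.a3 < d.a2 + d.l2
  h3 : 1 ≤ d.l3
  hb : d.b1 ≤ d.b2
  hbm : d.b2 + d.m2 ≤ d.b1 + d.m1
  hm1 : 1 ≤ d.m1
  hb1 : d.a3 + 2 ≤ d.b1
  hz1 : d.a1 + d.l1 ≤ d.b1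
  hz2 : d.a2 + d.l2 ≤ d.b1
  hl : d.m1 + d.m2 = d.l1 + d.l2 + d.l3 + 4

variable {d}

theorem K2_sub (h : d.OK) : d.K2 ⊆ d.K1 := by
  intro k hk
  simp only [K1, K2, mem_Ico] at hk ⊢
  have := h.hb
  have := h.hbm
  omega

theorem zero_notMem (h : d.OK) : 0 ∉ d.K1 := by
  simp only [K1, mem_Ico]
  have := h.hb1
  omega

theorem Zs_disj (h : d.OK) : ∀ S ∈ d.Zs, ∀ k ∈ d.K1, k ∉ S := by
  intro S hS k hk
  have := h.hz1
  have := h.hz2
  simp only [K1, mem_Ico] at hk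
  simp only [Zs, List.mem_cons, List.not_mem_nil, or_false] at hS
  rcases hS with rfl | rfl <;> simp only [mem_Ico] <;> omega

theorem card_eq (h : d.OK) : d.K1.card + d.K2.card = degL d.Zs d.Hs + 4 := by
  have := h.hl
  simp only [K1, K2, degL, Zs, Hs, Nat.card_Ico, List.map_cons, List.map_nil, List.sum_cons,
    List.sum_nil]
  omega

/-- partial fractions of the rational function -/
theorem RG_pf (h : d.OK) (kap : ℚ) (j : ℕ) (hj : j ≤ 3) (t : ℂ)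
    (ht : ∀ k ∈ d.K1, t + (k : ℂ) ≠ 0) : d.RG kap j t = pfun d.K1 (d.AA kap j) (d.BB kap j) t := by
  unfold RG pfun
  rw [partial_fraction j d.Zs d.Hs d.K1 d.K2 (K2_sub h) (zero_notMem h) (Zs_disj h)
    (by rw [card_eq h]; omega) t ht, mul_sum]
  apply sum_congr rfl
  intro k _
  unfold AA BB
  push_cast
  ring

theorem sum_BB (h : d.OK) (kap : ℚ) (j : ℕ) (hj : j ≤ 2) : ∑ k ∈ d.K1, d.BB kap j k = 0 := by
  unfold BB
  rw [← mul_sum, sum_B j d.Zs d.Hs d.K1 d.K2 (K2_sub h) (zero_notMem h) (Zs_disj h)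
    (by rw [card_eq h]; omega), mul_zero]

theorem K1_ge (k : ℕ) (hk : k ∈ d.K1) : d.b1 ≤ k := by
  simp only [K1, mem_Ico] at hk
  exact hk.1

/-- the numerator, written out -/
theorem numL_eq (t : ℂ) : numL d.Zs d.Hs t = (∏ i ∈ Ico d.a1 (d.a1 + d.l1), (t + (i : ℂ))) *
    (∏ i ∈ Ico d.a2 (d.a2 + d.l2), (t + (i : ℂ))) *
    (∏ i ∈ Ico d.a3 (d.a3 + d.l3), (t + ((i : ℂ) + 1 / 2))) := by
  simp [numL, Zs, Hs]

theorem den_ne (h : d.OK) (i : ℕ) (hi : i < d.b1) :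
    (∏ k ∈ d.K1, (-(i : ℂ) + (k : ℂ))) * ∏ k ∈ d.K2, (-(i : ℂ) + (k : ℂ)) ≠ 0 := by
  have h1 : ∀ k ∈ d.K1, -(i : ℂ) + (k : ℂ) ≠ 0 := by
    intro k hk h0
    have h2 : (k : ℂ) = i := by linear_combination h0
    have h3 : k = i := by exact_mod_cast h2
    have := K1_ge k hk
    omega
  apply mul_ne_zero
  · exact prod_ne_zero_iff.mpr h1
  · exact prod_ne_zero_iff.mpr (fun k hk => h1 k (K2_sub h hk))

/-- double zeros -/
theorem RG_deriv (h : d.OK) (kap : ℚ) (j i : ℕ) (hi : d.a3 ≤ i) (hi1 : i < d.a1 + d.l1)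
    (hi2 : i < d.a2 + d.l2) : deriv (d.RG kap j) (-(i : ℂ)) = 0 := by
  have hb := h.hz1
  have hne := den_ne h i (by omega)
  have hd : DifferentiableAt ℂ (fun t : ℂ => (∏ k ∈ d.K1, (t + (k : ℂ))) *
      ∏ k ∈ d.K2, (t + (k : ℂ))) (-(i : ℂ)) := by fun_prop
  have hu : DifferentiableAt ℂ (fun t : ℂ => ∏ k ∈ Ico d.a1 (d.a1 + d.l1), (t + (k : ℂ)))
      (-(i : ℂ)) := by fun_prop
  have hv : DifferentiableAt ℂ (fun t : ℂ => (kap : ℂ) * t ^ j *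
      ((∏ k ∈ Ico d.a2 (d.a2 + d.l2), (t + (k : ℂ))) *
      ∏ k ∈ Ico d.a3 (d.a3 + d.l3), (t + ((k : ℂ) + 1 / 2))) /
      ((∏ k ∈ d.K1, (t + (k : ℂ))) * ∏ k ∈ d.K2, (t + (k : ℂ)))) (-(i : ℂ)) := by
    apply DifferentiableAt.div _ hd hne
    fun_prop
  have := h.h1
  have := h.h2
  have h3 := deriv_zero_of_double _ _ _ hu hv
    (prod_eq_zero (i := i) (by rw [mem_Ico]; omega) (by ring))
    (by
      have : ∏ k ∈ Ico d.a2 (d.a2 + d.l2), (-(i : ℂ) + (k : ℂ)) = 0 :=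
        prod_eq_zero (i := i) (by rw [mem_Ico]; omega) (by ring)
      rw [this]
      ring)
  have h4 : d.RG kap j = (fun t => (∏ k ∈ Ico d.a1 (d.a1 + d.l1), (t + (k : ℂ))) *
      ((kap : ℂ) * t ^ j * ((∏ k ∈ Ico d.a2 (d.a2 + d.l2), (t + (k : ℂ))) *
      ∏ k ∈ Ico d.a3 (d.a3 + d.l3), (t + ((k : ℂ) + 1 / 2))) /
      ((∏ k ∈ d.K1, (t + (k : ℂ))) * ∏ k ∈ d.K2, (t + (k : ℂ))))) := by
    funext t
    rw [RG, numL_eq]
    ring
  rw [h4]
  exact h3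

/-- zeros at half integers -/
theorem RG_half_zero (h : d.OK) (kap : ℚ) (j i : ℕ) (hi : 2 * d.a3 + 1 ≤ i)
    (hi1 : i < 2 * (d.a1 + d.l1)) (hi2 : i < 2 * (d.a3 + d.l3) + 1) :
    d.RG kap j (-(i : ℂ) / 2) = 0 := by
  have := h.h1
  rw [RG, numL_eq]
  rcases Nat.even_or_odd' i with ⟨c, rfl | rfl⟩
  · have : ∏ k ∈ Ico d.a1 (d.a1 + d.l1), (-((2 * c : ℕ) : ℂ) / 2 + (k : ℂ)) = 0 :=
      prod_eq_zero (i := c) (by rw [mem_Ico]; omega) (by push_cast; ring)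
    rw [this]
    simp
  · have : ∏ k ∈ Ico d.a3 (d.a3 + d.l3), (-((2 * c + 1 : ℕ) : ℂ) / 2 + ((k : ℂ) + 1 / 2)) = 0 :=
      prod_eq_zero (i := c) (by rw [mem_Ico]; omega) (by push_cast; ring)
    rw [this]
    simp

/-- the linear form in 1 and zeta(3), any base point `a` up to the end of the double zeros -/
theorem F3G_eq (h : d.OK) (kap : ℚ) (j : ℕ) (hj : j ≤ 2) (a : ℕ) (ha : d.a3 + 1 ≤ a)
    (ha1 : a ≤ d.a1 + d.l1) (ha2 : a ≤ d.a2 + d.l2) :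
    d.F3G kap j = ((d.QG kap j : ℚ) : ℂ) * (zeta3 : ℂ) -
      ((P3 d.K1 (d.AA kap j) (d.BB kap j) a : ℚ) : ℂ) := by
  have hz := h.hz1
  have h1 := I_form (d.RG kap j) d.K1 (d.AA kap j) (d.BB kap j) a
    (fun k hk => (ha1.trans hz).trans (K1_ge k hk))
    (fun t ht => RG_pf h kap j (by omega) t ht) (sum_BB h kap j hj) (d.a3 + 1) ha
    (fun i hi1 hi2 => RG_deriv h kap j i (by omega) (by omega) (by omega))
  have e : -((d.a3 + 1 : ℕ) : ℤ) + 1 = -(d.a3 : ℤ) := by push_cast; ring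
  rw [e] at h1
  exact h1

/-- the linear form in 1 and zeta(2), any base point `U` up to the end of the zeros of g(u/2) -/
theorem F2G_eq (h : d.OK) (kap : ℚ) (j : ℕ) (hj : j ≤ 2) (U : ℕ) (hU : 2 * d.a3 + 1 ≤ U)
    (hU1 : U ≤ 2 * (d.a1 + d.l1)) (hU2 : U ≤ 2 * (d.a3 + d.l3) + 1) :
    d.F2G kap j = ((d.QG kap j : ℚ) : ℂ) * (zeta2 : ℂ) -
      ((P2 d.K1 (d.AA kap j) (d.BB kap j) U : ℚ) : ℂ) := by
  have hz := h.hz1
  have h1 := J_form (d.RG kap j) d.K1 (d.AA kap j) (d.BB kap j) U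
    (fun k hk => by have := K1_ge k hk; omega)
    (fun t ht => RG_pf h kap j (by omega) t ht) (sum_BB h kap j hj) (2 * d.a3 + 1) hU
    (fun i hi1 hi2 => RG_half_zero h kap j i hi1 (by omega) (by omega))
  have e : -((2 * d.a3 + 1 : ℕ) : ℤ) + 1 = 2 * (-(d.a3 : ℤ)) := by push_cast; ring
  have e2 : ((-1 : ℂ)) ^ (2 * d.a3 + 1) = -1 := by
    rw [pow_succ, pow_mul]; norm_num
  rw [e, e2] at h1
  rw [F2G]
  rw [neg_one_mul] at h1
  exact h1

/-- change of base point for the rational part of the zeta(3) form -/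
theorem P3G_base (h : d.OK) (kap : ℚ) (j : ℕ) (hj : j ≤ 2) (a a' : ℕ) (ha' : d.a3 + 1 ≤ a')
    (haa : a' ≤ a) (ha1 : a ≤ d.a1 + d.l1) (ha2 : a ≤ d.a2 + d.l2) :
    P3 d.K1 (d.AA kap j) (d.BB kap j) a = P3 d.K1 (d.AA kap j) (d.BB kap j) a' := by
  have hz := h.hz1
  exact P3_base (d.RG kap j) d.K1 (d.AA kap j) (d.BB kap j) a
    (fun k hk => (ha1.trans hz).trans (K1_ge k hk))
    (fun t ht => RG_pf h kap j (by omega) t ht) (sum_BB h kap j hj) a' haa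
    (fun i hi1 hi2 => RG_deriv h kap j i (by omega) (by omega) (by omega))

/-- change of base point for the rational part of the zeta(2) form -/
theorem P2G_base (h : d.OK) (kap : ℚ) (j : ℕ) (hj : j ≤ 2) (U U' : ℕ) (hU' : 2 * d.a3 + 1 ≤ U')
    (hUU : U' ≤ U) (hU1 : U ≤ 2 * (d.a1 + d.l1)) (hU2 : U ≤ 2 * (d.a3 + d.l3) + 1) :
    P2 d.K1 (d.AA kap j) (d.BB kap j) U = P2 d.K1 (d.AA kap j) (d.BB kap j) U' := by
  have hz := h.hz1
  exact P2_base (d.RG kap j) d.K1 (d.AA kap j) (d.BB kap j) U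
    (fun k hk => by have := K1_ge k hk; omega)
    (fun t ht => RG_pf h kap j (by omega) t ht) (sum_BB h kap j hj) U' hUU
    (fun i hi1 hi2 => RG_half_zero h kap j i (by omega) (by omega) (by omega))

theorem prod_Ico_blk (a l : ℕ) (c t : ℂ) :
    ∏ i ∈ Ico a (a + l), (t + ((i : ℂ) + c)) = (blk ((a : ℂ) + c) l).eval t := by
  rw [blk_eval, prod_Ico_eq_prod_range, Nat.add_sub_cancel_left]
  apply prod_congr rfl
  intro i _
  push_cast
  ring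

theorem prod_Ico_blk0 (a l : ℕ) (t : ℂ) :
    ∏ i ∈ Ico a (a + l), (t + (i : ℂ)) = (blk (a : ℂ) l).eval t := by
  have := prod_Ico_blk a l 0 t
  simpa using this

theorem RG_eq_blk (kap : ℚ) (j : ℕ) (t : ℂ) : d.RG kap j t = (kap : ℂ) * (t ^ j *
    ((NB d.a1 d.l1 d.a2 d.l2 d.a3 d.l3).eval t / (DB d.b1 d.m1 d.b2 d.m2).eval t)) := by
  rw [RG, numL_eq, K1, K2, prod_Ico_blk0, prod_Ico_blk0, prod_Ico_blk0, prod_Ico_blk0,
    prod_Ico_blk, NB, DB, Polynomial.eval_mul, Polynomial.eval_mul, Polynomial.eval_mul]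
  ring

/-- nonvanishing: the three pairs of integrals determine the coefficients -/
theorem nonvanishG (h : d.OK) (kap : ℚ) (hk : kap ≠ 0) (x y : ℂ)
    (hv : ∀ j ≤ 2, x * d.F2G kap j + y * d.F3G kap j = 0) : x = 0 ∧ y = 0 := by
  have hk' : (kap : ℂ) ≠ 0 := by exact_mod_cast hk
  have hb2 : d.a3 + 2 ≤ d.b2 := h.hb1.trans h.hb
  have key := nonvanish_blocks d.a1 d.l1 d.a2 d.l2 d.a3 d.l3 d.b1 d.m1 d.b2 d.m2 h.h1 h.h1' h.h2
    h.h2' h.h3 h.hb1 hb2 h.hl (-x) y ?_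
  · exact ⟨neg_eq_zero.mp key.1, key.2⟩
  · intro j hj
    have h1 := hv j (by omega)
    have e1 : d.F2G kap j = -((kap : ℂ) * J (2 * (-(d.a3 : ℤ))) (fun u => (u / 2) ^ j *
        ((NB d.a1 d.l1 d.a2 d.l2 d.a3 d.l3).eval (u / 2) /
          (DB d.b1 d.m1 d.b2 d.m2).eval (u / 2)))) := by
      rw [F2G]
      congr 1
      unfold J
      rw [← MeasureTheory.integral_const_mul]
      congr 1
      funext y
      simp only [RG_eq_blk]
      ring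
    have e2 : d.F3G kap j = (kap : ℂ) * Iint (-(d.a3 : ℤ)) (fun t => t ^ j *
        ((NB d.a1 d.l1 d.a2 d.l2 d.a3 d.l3).eval t / (DB d.b1 d.m1 d.b2 d.m2).eval t)) := by
      rw [F3G]
      unfold Iint
      rw [← MeasureTheory.integral_const_mul]
      congr 1
      funext y
      simp only [RG_eq_blk]
      ring
    rw [e1, e2] at h1
    have h2 : (kap : ℂ) * (-x * J (2 * (-(d.a3 : ℤ))) (fun u => (u / 2) ^ j *
        ((NB d.a1 d.l1 d.a2 d.l2 d.a3 d.l3).eval (u / 2) /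
          (DB d.b1 d.m1 d.b2 d.m2).eval (u / 2))) +
        y * Iint (-(d.a3 : ℤ)) (fun t => t ^ j *
        ((NB d.a1 d.l1 d.a2 d.l2 d.a3 d.l3).eval t / (DB d.b1 d.m1 d.b2 d.m2).eval t))) = 0 := by
      rw [← h1]
      ring
    exact (mul_eq_zero.mp h2).resolve_left hk'

end BD

end Pool.Agent.Z23
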