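import Pool.Agent.Z23.FBound
import Pool.Agent.Z23.FormG

/-!
The size bounds for the integrals `F2G`, `F3G` of the block data `BD`.
-/

open Finset Filter Topology Complex
open scoped BigOperators

namespace Pool.Agent.Z23

open Pool.Agent.Z3 (Iint)

/-- the block data `d` is the configuration `k` in units of `N` -/
structure Fits (k : Cfg) (N : ℕ) (d : BD) : Prop where
  a1 : d.a1 = k.a1 * N
  b1 : d.a1 + d.l1 = k.b1 * N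
  a2 : d.a2 = k.a2 * N
  b2 : d.a2 + d.l2 = k.b2 * N
  a3 : d.a3 = k.h * N
  b3 : d.a3 + d.l3 = k.b3 * N
  c1 : d.b1 = k.c1 * N
  d1 : d.b1 + d.m1 = k.d1 * N + k.e1
  c2 : d.b2 = k.c2 * N
  d2 : d.b2 + d.m2 = k.d2 * N + k.e2

theorem Fits.RG_eq {k : Cfg} {N : ℕ} {d : BD} (h : Fits k N d) (kap : ℚ) (j : ℕ) (t : ℂ) :
    d.RG kap j t = (kap : ℂ) * k.R N j t := by
  unfold BD.RG Cfg.R
  rw [BD.numL_eq]
  unfold BD.K1 BD.K2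
  rw [h.b1, h.b2, h.b3, h.d1, h.d2, h.a1, h.a2, h.a3, h.c1, h.c2]
  congr 3
  congr 1
  exact prod_congr rfl fun i _ => by ring

theorem Fits.F3G_norm {k : Cfg} {N : ℕ} {d : BD} (h : Fits k N d) (kap : ℚ) (j : ℕ) :
    ‖d.F3G kap j‖ = |(kap : ℝ)| * ‖Iint (-((k.h * N : ℕ) : ℤ)) (k.R N j)‖ := by
  have e1 : d.RG kap j = fun t => (kap : ℂ) * k.R N j t := funext fun t => h.RG_eq kap j t
  unfold BD.F3G
  rw [e1, h.a3]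
  unfold Iint
  have e2 : ∀ y : ℝ, (kap : ℂ) * k.R N j ((((-((k.h * N : ℕ) : ℤ) : ℤ)) : ℂ) - 1 / 2 +
      (y : ℂ) * Complex.I) * (Pool.Agent.Z3.Ker y : ℂ) = (kap : ℂ) * (k.R N j
      ((((-((k.h * N : ℕ) : ℤ) : ℤ)) : ℂ) - 1 / 2 + (y : ℂ) * Complex.I) *
      (Pool.Agent.Z3.Ker y : ℂ)) := fun y => by ring
  simp_rw [e2]
  rw [MeasureTheory.integral_const_mul, norm_mul]
  congr 1
  have : ((kap : ℚ) : ℂ) = (((kap : ℚ) : ℝ) : ℂ) := by push_cast; rfl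
  rw [this, Complex.norm_real, Real.norm_eq_abs]

theorem Fits.F2G_norm {k : Cfg} {N : ℕ} {d : BD} (h : Fits k N d) (kap : ℚ) (j : ℕ) :
    ‖d.F2G kap j‖ =
      |(kap : ℝ)| * ‖J (2 * (-((k.h * N : ℕ) : ℤ))) (fun u => k.R N j (u / 2))‖ := by
  have e1 : (fun u => d.RG kap j (u / 2)) = fun u => (kap : ℂ) * k.R N j (u / 2) :=
    funext fun u => h.RG_eq kap j (u / 2)
  unfold BD.F2G
  rw [e1, h.a3, norm_neg]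
  unfold J
  simp_rw [mul_assoc]
  rw [MeasureTheory.integral_const_mul, norm_mul]
  congr 1
  have : ((kap : ℚ) : ℂ) = (((kap : ℚ) : ℝ) : ℂ) := by push_cast; rfl
  rw [this, Complex.norm_real, Real.norm_eq_abs]

/-- multiplication with the constant -/
theorem mul_bound (f : ℕ → ℕ → ℝ) (kp : ℕ → ℝ) (c κ : ℝ) (hf0 : ∀ N j, 0 ≤ f N j)
    (hf : ∃ C : ℝ, ∃ D : ℕ, ∀ N j : ℕ, 1 ≤ N → j ≤ 2 →
      f N j ≤ C * (N : ℝ) ^ D * Real.exp (-(c * N)))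
    (hk : ∃ C : ℝ, ∃ D : ℕ, ∀ N : ℕ, 1 ≤ N → |kp N| ≤ C * (N : ℝ) ^ D * Real.exp (κ * N)) :
    ∃ C : ℝ, ∃ D : ℕ, ∀ N j : ℕ, 1 ≤ N → j ≤ 2 →
      |kp N| * f N j ≤ C * (N : ℝ) ^ D * Real.exp (-((c - κ) * N)) := by
  obtain ⟨C1, D1, h1⟩ := hf
  obtain ⟨C2, D2, h2⟩ := hk
  refine ⟨C2 * C1, D2 + D1, fun N j hN hj => ?_⟩
  have h3 := h2 N hN
  refine (mul_le_mul h3 (h1 N j hN hj) (hf0 N j) ((abs_nonneg _).trans h3)).trans (le_of_eq ?_)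
  have : Real.exp (-((c - κ) * N)) = Real.exp (κ * N) * Real.exp (-(c * N)) := by
    rw [← Real.exp_add]
    congr 1
    ring
  rw [this, pow_add]
  ring

/-- **size of the first form** -/
theorem F3G_bound (k : Cfg) (hk : k.Ok) (d : ℕ → BD) (hd : ∀ N, 1 ≤ N → Fits k N (d N))
    (kap : ℕ → ℚ) (κ : ℝ)
    (hkap : ∃ C : ℝ, ∃ D : ℕ, ∀ N : ℕ, 1 ≤ N →
      |((kap N : ℚ) : ℝ)| ≤ C * (N : ℝ) ^ D * Real.exp (κ * N))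
    (c z0 s : ℝ) (hs : 0 < s) (hz0 : 0 ≤ z0)
    (h1 : ∀ z, 0 ≤ z → PsiL k.l z ≤ -c)
    (h2 : ∀ z, 0 ≤ z → z0 ≤ z → PsiL k.l z ≤ -c - (z - z0) / s) :
    ∃ C : ℝ, ∃ D : ℕ, ∀ N j : ℕ, 1 ≤ N → j ≤ 2 →
      ‖(d N).F3G (kap N) j‖ ≤ C * (N : ℝ) ^ D * Real.exp (-((c - κ) * N)) := by
  obtain ⟨C, D, H⟩ := mul_bound (fun N j => ‖Iint (-((k.h * N : ℕ) : ℤ)) (k.R N j)‖)
    (fun N => ((kap N : ℚ) : ℝ)) c κ (fun _ _ => norm_nonneg _)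
    (k.F3_bound hk c z0 s hs hz0 h1 h2) hkap
  refine ⟨C, D, fun N j hN hj => ?_⟩
  rw [(hd N hN).F3G_norm]
  exact H N j hN hj

/-- **size of the second form** -/
theorem F2G_bound (k : Cfg) (hk : k.Ok) (d : ℕ → BD) (hd : ∀ N, 1 ≤ N → Fits k N (d N))
    (kap : ℕ → ℚ) (κ : ℝ)
    (hkap : ∃ C : ℝ, ∃ D : ℕ, ∀ N : ℕ, 1 ≤ N →
      |((kap N : ℚ) : ℝ)| ≤ C * (N : ℝ) ^ D * Real.exp (κ * N))
    (c z0 s : ℝ) (hs : 0 < s) (hz0 : 0 ≤ z0)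
    (h1 : ∀ z, 0 ≤ z → PsiL k.l z ≤ -c)
    (h2 : ∀ z, 0 ≤ z → z0 ≤ z → PsiL k.l z ≤ -c - (z - z0) / s) :
    ∃ C : ℝ, ∃ D : ℕ, ∀ N j : ℕ, 1 ≤ N → j ≤ 2 →
      ‖(d N).F2G (kap N) j‖ ≤ C * (N : ℝ) ^ D * Real.exp (-((c - κ) * N)) := by
  obtain ⟨C, D, H⟩ := mul_bound
    (fun N j => ‖J (2 * (-((k.h * N : ℕ) : ℤ))) (fun u => k.R N j (u / 2))‖)
    (fun N => ((kap N : ℚ) : ℝ)) c κ (fun _ _ => norm_nonneg _)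
    (k.F2_bound hk c z0 s hs hz0 h1 h2) hkap
  refine ⟨C, D, fun N j hN hj => ?_⟩
  rw [(hd N hN).F2G_norm]
  exact H N j hN hj

end Pool.Agent.Z23
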