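import Pool.Agent.Z23.PsiNum
import Pool.Agent.Z23.FBoundG
import Pool.Agent.Z23.Conf

/-!
The size of the two linear forms for the frozen configuration.
-/

namespace Pool.Agent.Z23

theorem dd_fits (N : ℕ) : Fits (kF 2 2) N (dd N) := by
  constructor <;> simp only [dd, kF] <;> ring

theorem one_kap : ∃ C : ℝ, ∃ D : ℕ, ∀ N : ℕ, 1 ≤ N →
    |(((fun _ => 1 : ℕ → ℚ) N : ℚ) : ℝ)| ≤ C * (N : ℝ) ^ D * Real.exp (0 * N) :=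
  ⟨1, 0, fun N _ => by simp⟩

/-- the size of the form in `zeta(3)` -/
theorem F3_size : ∃ C : ℝ, ∃ D : ℕ, ∀ N j : ℕ, 1 ≤ N → j ≤ 2 →
    ‖(dd N).F3G 1 j‖ ≤ C * (N : ℝ) ^ D * Real.exp (-(64.45 * N)) := by
  obtain ⟨h1, h2⟩ := kF_psi 2 2
  obtain ⟨C, D, H⟩ := F3G_bound (kF 2 2) (kF_ok 2 2) dd (fun N _ => dd_fits N) (fun _ => 1) 0
    one_kap 64.45 3 2 (by norm_num) (by norm_num) h1 h2
  refine ⟨C, D, fun N j hN hj => (H N j hN hj).trans (le_of_eq ?_)⟩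
  rw [sub_zero]

/-- the size of the form in `zeta(2)` -/
theorem F2_size : ∃ C : ℝ, ∃ D : ℕ, ∀ N j : ℕ, 1 ≤ N → j ≤ 2 →
    ‖(dd N).F2G 1 j‖ ≤ C * (N : ℝ) ^ D * Real.exp (-(64.45 * N)) := by
  obtain ⟨h1, h2⟩ := kF_psi 2 2
  obtain ⟨C, D, H⟩ := F2G_bound (kF 2 2) (kF_ok 2 2) dd (fun N _ => dd_fits N) (fun _ => 1) 0
    one_kap 64.45 3 2 (by norm_num) (by norm_num) h1 h2
  refine ⟨C, D, fun N j hN hj => (H N j hN hj).trans (le_of_eq ?_)⟩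
  rw [sub_zero]

/-- the size of the form in `zeta(3)`, sharper -/
theorem F3_size' : ∃ C : ℝ, ∃ D : ℕ, ∀ N j : ℕ, 1 ≤ N → j ≤ 2 →
    ‖(dd N).F3G 1 j‖ ≤ C * (N : ℝ) ^ D * Real.exp (-(64.48 * N)) := by
  obtain ⟨h1, h2⟩ := kF_psi' 2 2
  obtain ⟨C, D, H⟩ := F3G_bound (kF 2 2) (kF_ok 2 2) dd (fun N _ => dd_fits N) (fun _ => 1) 0
    one_kap 64.48 3 2 (by norm_num) (by norm_num) h1 h2
  refine ⟨C, D, fun N j hN hj => (H N j hN hj).trans (le_of_eq ?_)⟩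
  rw [sub_zero]

/-- the size of the form in `zeta(2)`, sharper -/
theorem F2_size' : ∃ C : ℝ, ∃ D : ℕ, ∀ N j : ℕ, 1 ≤ N → j ≤ 2 →
    ‖(dd N).F2G 1 j‖ ≤ C * (N : ℝ) ^ D * Real.exp (-(64.48 * N)) := by
  obtain ⟨h1, h2⟩ := kF_psi' 2 2
  obtain ⟨C, D, H⟩ := F2G_bound (kF 2 2) (kF_ok 2 2) dd (fun N _ => dd_fits N) (fun _ => 1) 0
    one_kap 64.48 3 2 (by norm_num) (by norm_num) h1 h2
  refine ⟨C, D, fun N j hN hj => (H N j hN hj).trans (le_of_eq ?_)⟩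
  rw [sub_zero]

end Pool.Agent.Z23
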