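import Pool.Agent.Z23.Concl

/-!
The measure for 1, pi ^ 2, zeta(3).
-/

open Filter Topology

namespace Pool.Agent.Z23

open Pool.Agent.Z3 (zeta3)

/-- from zeta(2) to pi ^ 2 in the measure -/
theorem measure_pi (κ : ℝ) (hκ : 0 ≤ κ)
    (h : ∃ c : ℝ, 0 < c ∧ ∀ x y z : ℤ, ¬ (x = 0 ∧ y = 0 ∧ z = 0) →
      c * (|(x : ℝ)| + |(y : ℝ)| + 1) ^ (-κ) ≤ |(x : ℝ) * zeta2 + (y : ℝ) * zeta3 + (z : ℝ)|) :
    ∃ c : ℝ, 0 < c ∧ ∀ x y z : ℤ, ¬ (x = 0 ∧ y = 0 ∧ z = 0) →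
      c * (max |(y : ℝ)| |(z : ℝ)| + 1) ^ (-κ) ≤
        |(x : ℝ) + (y : ℝ) * Real.pi ^ 2 + (z : ℝ) * ∑' n : ℕ, 1 / ((n : ℝ) + 1) ^ 3| := by
  obtain ⟨c, hc, H⟩ := h
  refine ⟨c * (12 : ℝ) ^ (-κ), by positivity, fun x y z hne => ?_⟩
  have h1 := H (6 * y) z x (by
    intro ⟨h1, h2, h3⟩
    exact hne ⟨h3, by omega, h2⟩)
  have e1 : ((6 * y : ℤ) : ℝ) * zeta2 + (z : ℝ) * zeta3 + (x : ℝ) =
      (x : ℝ) + (y : ℝ) * Real.pi ^ 2 + (z : ℝ) * ∑' n : ℕ, 1 / ((n : ℝ) + 1) ^ 3 := by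
    rw [zeta2_eq_pi]
    unfold zeta3
    push_cast
    ring
  rw [e1] at h1
  refine le_trans ?_ h1
  rw [mul_assoc]
  refine mul_le_mul_of_nonneg_left ?_ hc.le
  have hm0 : 0 ≤ max |(y : ℝ)| |(z : ℝ)| := le_max_of_le_left (abs_nonneg _)
  rw [← Real.mul_rpow (by norm_num) (by linarith)]
  refine Real.rpow_le_rpow_of_nonpos (by positivity) ?_ (by linarith)
  push_cast
  rw [abs_mul, abs_of_pos (by norm_num : (0 : ℝ) < 6)]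
  have hy := le_max_left |(y : ℝ)| |(z : ℝ)|
  have hz := le_max_right |(y : ℝ)| |(z : ℝ)|
  linarith

end Pool.Agent.Z23
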