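import Pool.Agent.Z3.Assemble

/-!
Explicit linear independence measure from two sequences of linear forms with a common
leading coefficient.
-/

open Filter Topology

namespace Pool.Agent.Z23

/-- The abstract measure: integer forms `u z2 - v` and `u z3 - w` of size `exp (-c0 N)`, with
`|u| <= exp (c1 N)` and a non-vanishing condition, give a lower bound for all integer
combinations `x z2 + y z3 + z`. -/
theorem measure (z2 z3 c0 c1 : ℝ) (hc0 : 0 < c0) (hc1 : 0 < c1)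
    (h : ∀ᶠ N : ℕ in atTop, ∃ u v w : Fin 3 → ℤ,
      (∀ j, |(u j : ℝ)| ≤ Real.exp (c1 * N)) ∧
      (∀ j, |(u j : ℝ) * z2 - v j| ≤ Real.exp (-(c0 * N))) ∧
      (∀ j, |(u j : ℝ) * z3 - w j| ≤ Real.exp (-(c0 * N))) ∧
      ∀ x y z : ℤ, (∀ j, z * u j + x * v j + y * w j = 0) → x = 0 ∧ y = 0 ∧ z = 0) :
    ∃ c : ℝ, 0 < c ∧ ∀ x y z : ℤ, ¬ (x = 0 ∧ y = 0 ∧ z = 0) →
      c * (|(x : ℝ)| + |(y : ℝ)| + 1) ^ (-(c1 / c0)) ≤ |(x : ℝ) * z2 + (y : ℝ) * z3 + (z : ℝ)| := by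
  obtain ⟨N0, hN0⟩ := eventually_atTop.mp h
  refine ⟨Real.exp (-(c1 * (N0 + 1))) * (2 : ℝ) ^ (-(c1 / c0)) / 2, by positivity, ?_⟩
  intro x y z hne
  set Hh : ℝ := |(x : ℝ)| + |(y : ℝ)| + 1 with hHh
  have hH1 : 1 ≤ Hh := by
    have h1 := abs_nonneg (x : ℝ)
    have h2 := abs_nonneg (y : ℝ)
    linarith
  have hHpos : 0 < Hh := by linarith
  -- the choice of N
  obtain ⟨N, hNN0, hNlow, hNup⟩ : ∃ N : ℕ, N0 ≤ N ∧ 2 * Hh ≤ Real.exp (c0 * N) ∧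
      c0 * (N : ℝ) ≤ Real.log (2 * Hh) + c0 * (N0 + 1) := by
    refine ⟨N0 + ⌈Real.log (2 * Hh) / c0⌉₊, by omega, ?_, ?_⟩
    · have h1 : Real.log (2 * Hh) / c0 ≤ (⌈Real.log (2 * Hh) / c0⌉₊ : ℝ) := Nat.le_ceil _
      rw [div_le_iff₀ hc0] at h1
      rw [← Real.exp_log (show (0 : ℝ) < 2 * Hh by positivity)]
      apply Real.exp_le_exp.mpr
      rw [Real.exp_log (show (0 : ℝ) < 2 * Hh by positivity)]
      push_cast
      have : (0 : ℝ) ≤ N0 := Nat.cast_nonneg _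
      nlinarith
    · have h0 : 0 ≤ Real.log (2 * Hh) / c0 :=
        div_nonneg (Real.log_nonneg (by linarith)) hc0.le
      have h1 : (⌈Real.log (2 * Hh) / c0⌉₊ : ℝ) < Real.log (2 * Hh) / c0 + 1 := Nat.ceil_lt_add_one h0
      have h2 : c0 * (⌈Real.log (2 * Hh) / c0⌉₊ : ℝ) ≤ Real.log (2 * Hh) + c0 :=
        calc c0 * (⌈Real.log (2 * Hh) / c0⌉₊ : ℝ) ≤ c0 * (Real.log (2 * Hh) / c0 + 1) :=
              mul_le_mul_of_nonneg_left h1.le hc0.le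
          _ = Real.log (2 * Hh) + c0 := by field_simp
      push_cast
      linarith
  obtain ⟨u, v, w, hu, hv, hw, hnv⟩ := hN0 N hNN0
  -- some integer combination does not vanish
  obtain ⟨j, hj⟩ : ∃ j, z * u j + x * v j + y * w j ≠ 0 := by
    by_contra hcon
    push Not at hcon
    exact hne (hnv x y z hcon)
  set L : ℝ := (x : ℝ) * z2 + (y : ℝ) * z3 + (z : ℝ) with hL
  have h1 : (1 : ℝ) ≤ |((z * u j + x * v j + y * w j : ℤ) : ℝ)| := by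
    have : (1 : ℤ) ≤ |z * u j + x * v j + y * w j| := Int.one_le_abs hj
    exact_mod_cast this
  have h2 : ((z * u j + x * v j + y * w j : ℤ) : ℝ) =
      (u j : ℝ) * L - (x : ℝ) * ((u j : ℝ) * z2 - v j) - (y : ℝ) * ((u j : ℝ) * z3 - w j) := by
    rw [hL]
    push_cast
    ring
  have h3 : |((z * u j + x * v j + y * w j : ℤ) : ℝ)| ≤
      |(u j : ℝ)| * |L| + (|(x : ℝ)| + |(y : ℝ)|) * Real.exp (-(c0 * N)) := by
    rw [h2]
    calc |(u j : ℝ) * L - (x : ℝ) * ((u j : ℝ) * z2 - v j) - (y : ℝ) * ((u j : ℝ) * z3 - w j)|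
        ≤ |(u j : ℝ) * L| + |(x : ℝ) * ((u j : ℝ) * z2 - v j)| +
          |(y : ℝ) * ((u j : ℝ) * z3 - w j)| := by
          refine (abs_sub _ _).trans ?_
          gcongr
          exact abs_sub _ _
      _ = |(u j : ℝ)| * |L| + |(x : ℝ)| * |(u j : ℝ) * z2 - v j| +
          |(y : ℝ)| * |(u j : ℝ) * z3 - w j| := by rw [abs_mul, abs_mul, abs_mul]
      _ ≤ |(u j : ℝ)| * |L| + |(x : ℝ)| * Real.exp (-(c0 * N)) +
          |(y : ℝ)| * Real.exp (-(c0 * N)) := by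
          gcongr
          · exact hv j
          · exact hw j
      _ = _ := by ring
  -- the error is at most one half
  have h4 : (|(x : ℝ)| + |(y : ℝ)|) * Real.exp (-(c0 * N)) ≤ 1 / 2 := by
    rw [Real.exp_neg, ← div_eq_mul_inv, div_le_iff₀ (Real.exp_pos _)]
    linarith
  have h5 : 1 / 2 ≤ Real.exp (c1 * N) * |L| := by
    have h6 : |(u j : ℝ)| * |L| ≤ Real.exp (c1 * N) * |L| :=
      mul_le_mul_of_nonneg_right (hu j) (abs_nonneg _)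
    linarith
  have h7 : Real.exp (c1 * N) ≤ (2 * Hh) ^ (c1 / c0) * Real.exp (c1 * (N0 + 1)) := by
    rw [Real.rpow_def_of_pos (by positivity), ← Real.exp_add]
    apply Real.exp_le_exp.mpr
    have h8 := mul_le_mul_of_nonneg_left hNup (div_nonneg hc1.le hc0.le)
    calc c1 * (N : ℝ) = c1 / c0 * (c0 * N) := by field_simp
      _ ≤ c1 / c0 * (Real.log (2 * Hh) + c0 * (N0 + 1)) := h8
      _ = Real.log (2 * Hh) * (c1 / c0) + c1 * (N0 + 1) := by field_simp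
  have h9 : 1 / 2 ≤ (2 * Hh) ^ (c1 / c0) * Real.exp (c1 * (N0 + 1)) * |L| :=
    h5.trans (mul_le_mul_of_nonneg_right h7 (abs_nonneg _))
  have hp1 : (0 : ℝ) < (2 : ℝ) ^ (c1 / c0) := by positivity
  have hp2 : (0 : ℝ) < Hh ^ (c1 / c0) := Real.rpow_pos_of_pos hHpos _
  have hp3 : (0 : ℝ) < Real.exp (c1 * (N0 + 1)) := Real.exp_pos _
  rw [Real.mul_rpow (by norm_num) hHpos.le] at h9
  rw [Real.rpow_neg hHpos.le, Real.rpow_neg (by norm_num : (0 : ℝ) ≤ 2), Real.exp_neg]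
  have h10 : (Real.exp (c1 * (N0 + 1)))⁻¹ * ((2 : ℝ) ^ (c1 / c0))⁻¹ / 2 * (Hh ^ (c1 / c0))⁻¹ =
      (1 / 2) / ((2 : ℝ) ^ (c1 / c0) * Hh ^ (c1 / c0) * Real.exp (c1 * (N0 + 1))) := by
    field_simp
  rw [h10, div_le_iff₀ (by positivity)]
  calc (1 : ℝ) / 2 ≤ _ := h9
    _ = _ := by ring

/-- The assembly of the measure from the linear forms of the project. -/
theorem assemble_measure (z2 z3 : ℝ) (qq p2 p3 : ℕ → ℕ → ℚ) (DD : ℕ → ℕ) (F2 F3 : ℕ → ℕ → ℂ)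
    (f g δ c0 c1 : ℝ)
    (hDD : ∀ N, 1 ≤ N → 0 < DD N)
    (hF2 : ∀ N j, 1 ≤ N → j ≤ 2 → F2 N j = ((qq N j : ℚ) : ℂ) * (z2 : ℂ) - ((p2 N j : ℚ) : ℂ))
    (hF3 : ∀ N j, 1 ≤ N → j ≤ 2 → F3 N j = ((qq N j : ℚ) : ℂ) * (z3 : ℂ) - ((p3 N j : ℚ) : ℂ))
    (hnv : ∀ N, 1 ≤ N → ∀ x y l : ℝ,
      (∀ j : ℕ, j ≤ 2 → (x : ℂ) * F2 N j + (y : ℂ) * F3 N j = (l : ℂ) * ((qq N j : ℚ) : ℂ)) →
        x = 0 ∧ y = 0)
    (hq0 : ∀ N, 1 ≤ N → qq N 0 ≠ 0)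
    (hb2 : ∃ C : ℝ, ∃ D : ℕ, ∀ N j : ℕ, 1 ≤ N → j ≤ 2 →
      ‖F2 N j‖ ≤ C * (N : ℝ) ^ D * Real.exp (-(f * N)))
    (hb3 : ∃ C : ℝ, ∃ D : ℕ, ∀ N j : ℕ, 1 ≤ N → j ≤ 2 →
      ‖F3 N j‖ ≤ C * (N : ℝ) ^ D * Real.exp (-(f * N)))
    (hqb : ∃ C : ℝ, ∃ D : ℕ, ∀ N j : ℕ, 1 ≤ N → j ≤ 2 →
      |((qq N j : ℚ) : ℝ)| ≤ C * (N : ℝ) ^ D * Real.exp (g * N))
    (hlog : ∀ᶠ N : ℕ in atTop, Real.log (DD N : ℝ) ≤ δ * N)
    (hint : ∀ N j : ℕ, 1 ≤ N → j ≤ 2 →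
      (∃ z : ℤ, (DD N : ℚ) * qq N j = z) ∧ (∃ z : ℤ, (DD N : ℚ) * p2 N j = z) ∧
        ∃ z : ℤ, (DD N : ℚ) * p3 N j = z)
    (hc0 : 0 < c0) (hc1 : 0 < c1) (h0 : c0 < f - δ) (h1 : g + δ < c1) :
    ∃ c : ℝ, 0 < c ∧ ∀ x y z : ℤ, ¬ (x = 0 ∧ y = 0 ∧ z = 0) →
      c * (|(x : ℝ)| + |(y : ℝ)| + 1) ^ (-(c1 / c0)) ≤ |(x : ℝ) * z2 + (y : ℝ) * z3 + (z : ℝ)| := by
  refine measure z2 z3 c0 c1 hc0 hc1 ?_
  obtain ⟨C2, D2, hC2⟩ := hb2
  obtain ⟨C3, D3, hC3⟩ := hb3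
  obtain ⟨C', D', hC'⟩ := hqb
  filter_upwards [eventually_ge_atTop 1, hlog, Z3.poly_exp_le C2 D2 (f - δ - c0) (by linarith),
    Z3.poly_exp_le C3 D3 (f - δ - c0) (by linarith),
    Z3.poly_exp_le C' D' (c1 - (g + δ)) (by linarith)] with N hN hl hp2 hp3 hp'
  have hDpos : (0 : ℝ) < DD N := by exact_mod_cast hDD N hN
  have hDle : (DD N : ℝ) ≤ Real.exp (δ * N) := by
    rw [← Real.exp_log hDpos]
    exact Real.exp_le_exp.mpr hl
  have hex : ∀ j : Fin 3, (∃ z : ℤ, (DD N : ℚ) * qq N j = z) ∧ (∃ z : ℤ, (DD N : ℚ) * p2 N j = z) ∧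
      ∃ z : ℤ, (DD N : ℚ) * p3 N j = z := fun j => hint N j hN (by omega)
  choose hu hv hw using hex
  choose u hu using hu
  choose v hv using hv
  choose w hw using hw
  have cast : ∀ (a : ℤ) (b : ℚ), (DD N : ℚ) * b = a → (a : ℝ) = (DD N : ℝ) * ((b : ℚ) : ℝ) := by
    intro a b hab
    rw [show (a : ℝ) = ((a : ℚ) : ℝ) by push_cast; rfl, ← hab]
    push_cast
    rfl
  have small : ∀ (F : ℕ → ℕ → ℂ) (pp : ℕ → ℕ → ℚ) (zz C : ℝ) (D : ℕ),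
      (∀ j : ℕ, j ≤ 2 → F N j = ((qq N j : ℚ) : ℂ) * (zz : ℂ) - ((pp N j : ℚ) : ℂ)) →
      (∀ j : ℕ, j ≤ 2 → ‖F N j‖ ≤ C * (N : ℝ) ^ D * Real.exp (-(f * N))) →
      C * (N : ℝ) ^ D ≤ Real.exp ((f - δ - c0) * N) →
      ∀ (j : Fin 3) (t : ℤ), (DD N : ℚ) * pp N j = t →
        |(u j : ℝ) * zz - t| ≤ Real.exp (-(c0 * N)) := by
    intro F pp zz C D hF hFb hp j t ht
    have hFj : |((qq N j : ℚ) : ℝ) * zz - ((pp N j : ℚ) : ℝ)| = ‖F N j‖ := by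
      rw [hF j (by omega), ← Real.norm_eq_abs, ← Complex.norm_real]
      push_cast
      rfl
    rw [cast _ _ (hu j), cast _ _ ht, mul_assoc, ← mul_sub, abs_mul, abs_of_pos hDpos, hFj]
    calc (DD N : ℝ) * ‖F N j‖
        ≤ Real.exp (δ * N) * (C * (N : ℝ) ^ D * Real.exp (-(f * N))) :=
          mul_le_mul hDle (hFb j (by omega)) (norm_nonneg _) (Real.exp_pos _).le
      _ ≤ Real.exp (δ * N) * (Real.exp ((f - δ - c0) * N) * Real.exp (-(f * N))) := by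
          gcongr
      _ = Real.exp (-(c0 * N)) := by
          rw [← Real.exp_add, ← Real.exp_add]
          congr 1
          ring
  refine ⟨u, v, w, ?_, ?_, ?_, ?_⟩
  · intro j
    rw [cast _ _ (hu j), abs_mul, abs_of_pos hDpos]
    calc (DD N : ℝ) * |((qq N j : ℚ) : ℝ)|
        ≤ Real.exp (δ * N) * (C' * (N : ℝ) ^ D' * Real.exp (g * N)) :=
          mul_le_mul hDle (hC' N j hN (by omega)) (abs_nonneg _) (Real.exp_pos _).le
      _ ≤ Real.exp (δ * N) * (Real.exp ((c1 - (g + δ)) * N) * Real.exp (g * N)) := by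
          gcongr
      _ = Real.exp (c1 * N) := by
          rw [← Real.exp_add, ← Real.exp_add]
          congr 1
          ring
  · exact fun j => small F2 p2 z2 C2 D2 (fun j hj => hF2 N j hN hj) (fun j hj => hC2 N j hN hj)
      hp2 j (v j) (hv j)
  · exact fun j => small F3 p3 z3 C3 D3 (fun j hj => hF3 N j hN hj) (fun j hj => hC3 N j hN hj)
      hp3 j (w j) (hw j)
  · intro x y z hxyz
    have hD0 : (DD N : ℂ) ≠ 0 := by exact_mod_cast (hDD N hN).ne'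
    obtain ⟨hx, hy⟩ := hnv N hN x y ((x : ℝ) * z2 + (y : ℝ) * z3 + (z : ℝ)) (by
      intro j hj
      have ha : (DD N : ℂ) * ((qq N j : ℚ) : ℂ) = (u ⟨j, by omega⟩ : ℂ) := by
        exact_mod_cast hu ⟨j, by omega⟩
      have hb : (DD N : ℂ) * ((p2 N j : ℚ) : ℂ) = (v ⟨j, by omega⟩ : ℂ) := by
        exact_mod_cast hv ⟨j, by omega⟩
      have hc : (DD N : ℂ) * ((p3 N j : ℚ) : ℂ) = (w ⟨j, by omega⟩ : ℂ) := by
        exact_mod_cast hw ⟨j, by omega⟩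
      have hz : (z : ℂ) * (u ⟨j, by omega⟩ : ℂ) + (x : ℂ) * (v ⟨j, by omega⟩ : ℂ) +
          (y : ℂ) * (w ⟨j, by omega⟩ : ℂ) = 0 := by exact_mod_cast hxyz ⟨j, by omega⟩
      apply mul_left_cancel₀ hD0
      rw [hF2 N j hN hj, hF3 N j hN hj]
      push_cast
      linear_combination -(x : ℂ) * hb - (y : ℂ) * hc - (z : ℂ) * ha - hz)
    have hx' : x = 0 := by exact_mod_cast hx
    have hy' : y = 0 := by exact_mod_cast hy
    refine ⟨hx', hy', ?_⟩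
    have h3 := hxyz 0
    rw [hx', hy'] at h3
    simp only [zero_mul, add_zero] at h3
    rcases mul_eq_zero.mp h3 with h4 | h4
    · exact h4
    · exfalso
      have h5 := hu 0
      rw [h4, Int.cast_zero] at h5
      rcases mul_eq_zero.mp h5 with h6 | h6
      · exact absurd h6 (by exact_mod_cast (hDD N hN).ne')
      · exact hq0 N hN h6

end Pool.Agent.Z23
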