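import Pool.Agent.Z23.NvBlocks

/-!
Non-vanishing with the leading coefficients: if
`x * J(2M, T R) + y * Iint(M, T R) = l * sum_k T(-k) c_k` for `T = 1, t, ..., t^(d-1)`
(c_k the coefficients of the double poles) then `x = y = 0`.
-/

open Polynomial Finset

namespace Pool.Agent.Z23

open Pool.Agent.Z3 (Iint)

variable {N D A B : ℂ[X]} {e d : ℕ} {M : ℤ}

theorem Ph_zero_of' (h : LineData N D B M) (hS : ShiftData N D A B e d) (x y : ℂ)
    (lam : ℂ[X] →ₗ[ℂ] ℂ) (h1 : ∀ S, lam (ES A B S) = 0) (h2 : ∀ W, lam (D * W) = 0) (l : ℂ)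
    (hv : ∀ j < d, Ph N D M x y (X ^ j) = l * lam (X ^ j)) (W : ℂ[X]) :
    Ph N D M x y (D * W) = 0 := by
  obtain ⟨S, q, h3, h4⟩ := hS.decomp (D * W)
  have h5 := hS.top_zero W S q h3 h4
  have hq : Ph N D M x y q = l * lam q := by
    have h6 := q.as_sum_range_C_mul_X_pow' (show q.natDegree < d + 1 by omega)
    rw [sum_range_succ, h5] at h6
    rw [h6, C_0, zero_mul, add_zero, Ph_sum h, map_sum, mul_sum]
    refine sum_congr rfl ?_
    intro j hj
    rw [Ph_C_mul, hv j (mem_range.mp hj), ← smul_eq_C_mul, map_smul, smul_eq_mul]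
    ring
  have hES : Ph N D M x y (ES A B S) = 0 := by
    unfold Ph
    rw [Iint_ES h hS S, J_ES h hS S]
    ring
  have hl : lam q = 0 := by
    have := h2 W
    rw [h3, map_add, h1, add_zero] at this
    exact this
  rw [h3, Ph_add h, hq, hES, add_zero, hl, mul_zero]

/-- **Non-vanishing**, with a functional killed by telescoping and by the denominator. -/
theorem nonvanish_l (h : LineData N D B M) (hS : ShiftData N D A B e d)
    (lam : ℂ[X] →ₗ[ℂ] ℂ) (h1 : ∀ S, lam (ES A B S) = 0) (h2 : ∀ W, lam (D * W) = 0) (x y l : ℂ)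
    (hv : ∀ j < d, x * J (2 * M) (fun u => (u / 2) ^ j * (N.eval (u / 2) / D.eval (u / 2))) +
      y * Iint M (fun t => t ^ j * (N.eval t / D.eval t)) = l * lam (X ^ j)) : x = 0 ∧ y = 0 := by
  have hv' : ∀ j < d, Ph N D M x y (X ^ j) = l * lam (X ^ j) := by
    intro j hj
    have := hv j hj
    unfold Ph RP
    simpa only [eval_pow, eval_X] using this
  have a1 := Ph_zero_of' h hS x y lam h1 h2 l hv' (Nref N (2 * (M : ℂ) - 1))
  have a2 := Ph_zero_of' h hS x y lam h1 h2 l hv' (Nref N (2 * (M : ℂ) - 1 / 2))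
  unfold Ph at a1 a2
  rw [J_sym h, mul_zero, zero_add] at a1
  have hy : y = 0 := (mul_eq_zero.mp a1).resolve_right (Iint_star h)
  rw [hy, zero_mul, add_zero] at a2
  exact ⟨(mul_eq_zero.mp a2).resolve_right (J_star h), hy⟩

/-! ### the double pole functional -/

/-- product of the distances -/
noncomputable def dC (K : Finset ℕ) (k : ℕ) : ℂ := ∏ i ∈ K.erase k, ((i : ℂ) - k)

theorem dC_ne (K : Finset ℕ) (k : ℕ) : dC K k ≠ 0 := by
  unfold dC
  refine prod_ne_zero_iff.mpr ?_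
  intro i hi
  have : i ≠ k := (mem_erase.mp hi).1
  intro h0
  apply this
  have : (i : ℂ) = k := by linear_combination h0
  exact_mod_cast this

/-- linear factors -/
noncomputable def LC (K : Finset ℕ) : ℂ[X] := ∏ i ∈ K, (X + C (i : ℂ))

theorem blk_LC (b m : ℕ) : blk (b : ℂ) m = LC (Ico b (b + m)) := by
  unfold blk LC
  rw [Finset.prod_Ico_eq_prod_range]
  have : b + m - b = m := by omega
  rw [this]
  refine prod_congr rfl ?_
  intro i _
  push_cast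
  rfl

theorem LC_erase {K : Finset ℕ} {k : ℕ} (hk : k ∈ K) : LC K = (X + C (k : ℂ)) * LC (K.erase k) := by
  unfold LC
  rw [mul_prod_erase K (fun i : ℕ => (X + C (i : ℂ) : ℂ[X])) hk]

theorem LC_erase_eval (K : Finset ℕ) (k : ℕ) : (LC (K.erase k)).eval (-(k : ℂ)) = dC K k := by
  unfold LC dC
  rw [eval_prod]
  refine prod_congr rfl ?_
  intro i _
  simp only [eval_add, eval_X, eval_C]
  ring

/-- the coefficient of the double pole -/
noncomputable def cC (N : ℂ[X]) (K1 K2 : Finset ℕ) (k : ℕ) : ℂ :=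
  N.eval (-(k : ℂ)) / (dC K1 k * dC K2 k)

theorem cC_step (N A B : ℂ[X]) (K1 K2 : Finset ℕ)
    (hsh : taylor 1 B * taylor 1 N * (LC K1 * LC K2) = A * N * taylor 1 (LC K1 * LC K2))
    (k : ℕ) (h1 : k ∈ K1) (h1' : k + 1 ∈ K1) (h2 : k ∈ K2) (h2' : k + 1 ∈ K2) :
    A.eval (-((k + 1 : ℕ) : ℂ)) * cC N K1 K2 (k + 1) = B.eval (-(k : ℂ)) * cC N K1 K2 k := by
  have e1 : LC K1 * LC K2 = (X + C ((k + 1 : ℕ) : ℂ)) ^ 2 * (LC (K1.erase (k + 1)) * LC (K2.erase (k + 1))) := by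
    rw [LC_erase h1', LC_erase h2']
    ring
  have e2 : taylor 1 (LC K1 * LC K2) = (X + C ((k + 1 : ℕ) : ℂ)) ^ 2 *
      (taylor 1 (LC (K1.erase k)) * taylor 1 (LC (K2.erase k))) := by
    rw [LC_erase h1, LC_erase h2, taylor_mul, taylor_mul, taylor_mul, taylor_X_add_C]
    push_cast
    ring
  rw [e2] at hsh
  rw [e1] at hsh
  have e3 : (X + C ((k + 1 : ℕ) : ℂ) : ℂ[X]) ^ 2 ≠ 0 := pow_ne_zero 2 (X_add_C_ne_zero _)
  have e4 : taylor 1 B * taylor 1 N * (LC (K1.erase (k + 1)) * LC (K2.erase (k + 1))) =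
      A * N * (taylor 1 (LC (K1.erase k)) * taylor 1 (LC (K2.erase k))) := by
    apply mul_left_cancel₀ e3
    linear_combination hsh
  have e5 := congrArg (fun P : ℂ[X] => P.eval (-((k + 1 : ℕ) : ℂ))) e4
  simp only [eval_mul, taylor_eval, LC_erase_eval] at e5
  have e6 : (-((k + 1 : ℕ) : ℂ)) + 1 = -(k : ℂ) := by push_cast; ring
  rw [e6, LC_erase_eval, LC_erase_eval] at e5
  unfold cC
  have n1 := dC_ne K1 (k + 1)
  have n2 := dC_ne K2 (k + 1)
  have n3 := dC_ne K1 k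
  have n4 := dC_ne K2 k
  field_simp
  linear_combination -e5

theorem telescope_sum (m : ℕ) (g h : ℕ → ℂ) (h1 : ∀ i, i + 1 < m → g (i + 1) = h i)
    (h0 : 0 < m → g 0 = 0) (hm : 0 < m → h (m - 1) = 0) : ∑ i ∈ range m, (g i - h i) = 0 := by
  rcases Nat.eq_zero_or_pos m with rfl | hpos
  · simp
  · obtain ⟨r, rfl⟩ : ∃ r, m = r + 1 := ⟨m - 1, by omega⟩
    rw [sum_sub_distrib, sum_range_succ', sum_range_succ h, h0 hpos]
    have hr := hm hpos
    rw [Nat.add_sub_cancel] at hr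
    rw [hr, add_zero, add_zero, sub_eq_zero]
    refine sum_congr rfl ?_
    intro i hi
    exact h1 i (by have := mem_range.mp hi; omega)

/-- the functional -/
noncomputable def lamK (N : ℂ[X]) (K1 K2 : Finset ℕ) : ℂ[X] →ₗ[ℂ] ℂ where
  toFun P := ∑ k ∈ K2, P.eval (-(k : ℂ)) * cC N K1 K2 k
  map_add' P Q := by
    rw [← sum_add_distrib]
    refine sum_congr rfl ?_
    intro k _
    rw [eval_add]
    ring
  map_smul' c P := by
    rw [RingHom.id_apply, smul_eq_mul, mul_sum]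
    refine sum_congr rfl ?_
    intro k _
    rw [eval_smul, smul_eq_mul]
    ring

theorem lamK_apply (N : ℂ[X]) (K1 K2 : Finset ℕ) (P : ℂ[X]) :
    lamK N K1 K2 P = ∑ k ∈ K2, P.eval (-(k : ℂ)) * cC N K1 K2 k := rfl

theorem lamK_D (N : ℂ[X]) (K1 K2 : Finset ℕ) (W : ℂ[X]) : lamK N K1 K2 (LC K1 * LC K2 * W) = 0 := by
  rw [lamK_apply]
  refine sum_eq_zero ?_
  intro k hk
  have : (LC K2).eval (-(k : ℂ)) = 0 := by
    rw [LC_erase hk, eval_mul, eval_add, eval_X, eval_C]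
    ring
  rw [eval_mul, eval_mul, this]
  ring

theorem lamK_ES (N A B : ℂ[X]) (K1 : Finset ℕ) (b m : ℕ) (hK : Ico b (b + m) ⊆ K1)
    (hsh : taylor 1 B * taylor 1 N * (LC K1 * LC (Ico b (b + m))) =
      A * N * taylor 1 (LC K1 * LC (Ico b (b + m))))
    (hA : A.eval (-(b : ℂ)) = 0) (hB : 0 < m → B.eval (-((b : ℂ) + m - 1)) = 0) (S : ℂ[X]) :
    lamK N K1 (Ico b (b + m)) (ES A B S) = 0 := by
  rw [lamK_apply, Finset.sum_Ico_eq_sum_range]
  have : b + m - b = m := by omega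
  rw [this]
  have key := telescope_sum m
    (fun i => S.eval (-((b + i : ℕ) : ℂ) + 1) * (A.eval (-((b + i : ℕ) : ℂ)) *
      cC N K1 (Ico b (b + m)) (b + i)))
    (fun i => S.eval (-((b + i : ℕ) : ℂ)) * (B.eval (-((b + i : ℕ) : ℂ)) *
      cC N K1 (Ico b (b + m)) (b + i))) ?_ ?_ ?_
  · rw [← key]
    refine sum_congr rfl ?_
    intro i _
    unfold ES
    simp only [eval_sub, eval_mul, taylor_eval]
    ring
  · intro i hi
    have m2 : b + i ∈ Ico b (b + m) := by rw [mem_Ico]; omega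
    have m2' : b + i + 1 ∈ Ico b (b + m) := by rw [mem_Ico]; omega
    have := cC_step N A B K1 (Ico b (b + m)) hsh (b + i) (hK m2) (hK m2') m2 m2'
    have e : -((b + (i + 1) : ℕ) : ℂ) + 1 = -((b + i : ℕ) : ℂ) := by push_cast; ring
    rw [e]
    rw [show b + (i + 1) = b + i + 1 by ring, this]
  · intro _
    simp only [add_zero]
    rw [hA]
    ring
  · intro hm
    have e : ((b + (m - 1) : ℕ) : ℂ) = (b : ℂ) + m - 1 := by
      rw [Nat.cast_add, Nat.cast_sub (by omega)]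
      push_cast
      ring
    rw [e, hB hm]
    ring

/-- **Non-vanishing for the block data, with the leading coefficients.** -/
theorem nonvanish_blocks_l (a1 l1 a2 l2 a3 l3 b1 m1 b2 m2 : ℕ) (h1 : a1 ≤ a3) (h1' : a3 < a1 + l1)
    (h2 : a2 ≤ a3) (h2' : a3 < a2 + l2) (h3 : 1 ≤ l3) (hb1 : a3 + 2 ≤ b1) (hb12 : b1 ≤ b2)
    (hb2 : b2 + m2 ≤ b1 + m1) (hl : m1 + m2 = l1 + l2 + l3 + 4) (x y l : ℂ)
    (hv : ∀ j < 3, x * J (2 * (-(a3 : ℤ))) (fun u => (u / 2) ^ j *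
        ((NB a1 l1 a2 l2 a3 l3).eval (u / 2) / (DB b1 m1 b2 m2).eval (u / 2))) +
      y * Iint (-(a3 : ℤ)) (fun t => t ^ j *
        ((NB a1 l1 a2 l2 a3 l3).eval t / (DB b1 m1 b2 m2).eval t)) =
      l * ∑ k ∈ Ico b2 (b2 + m2), (-(k : ℂ)) ^ j *
        cC (NB a1 l1 a2 l2 a3 l3) (Ico b1 (b1 + m1)) (Ico b2 (b2 + m2)) k) : x = 0 ∧ y = 0 := by
  have hLD := lineData_blocks a1 l1 a2 l2 a3 l3 b1 m1 b2 m2 h1 h1' h2 h2' h3 hb1 (by omega)
  have hSD := shiftData_blocks (a1 : ℂ) (a2 : ℂ) ((a3 : ℂ) + 1 / 2) (b1 : ℂ) (b2 : ℂ) l1 l2 l3 m1 m2 hl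
  have hD : DB b1 m1 b2 m2 = LC (Ico b1 (b1 + m1)) * LC (Ico b2 (b2 + m2)) := by
    unfold DB
    rw [blk_LC, blk_LC]
  have hsh := hSD.shift
  have hD' : blk (b1 : ℂ) m1 * blk (b2 : ℂ) m2 =
      LC (Ico b1 (b1 + m1)) * LC (Ico b2 (b2 + m2)) := hD
  rw [hD'] at hsh
  refine nonvanish_l hLD hSD
    (lamK (NB a1 l1 a2 l2 a3 l3) (Ico b1 (b1 + m1)) (Ico b2 (b2 + m2))) ?_ ?_ x y l ?_
  · intro S
    refine lamK_ES _ _ _ _ b2 m2 ?_ hsh ?_ ?_ S
    · intro k hk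
      rw [mem_Ico] at hk ⊢
      omega
    · simp
    · intro _
      simp only [eval_mul, eval_add, eval_X, eval_C]
      ring
  · intro W
    rw [hD]
    exact lamK_D _ _ _ W
  · intro j hj
    rw [hv j hj, lamK_apply]
    simp only [eval_pow, eval_X]

end Pool.Agent.Z23
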