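import Pool.Agent.Z23.Main
import Pool.Agent.Z23.NvL
import Pool.Agent.Z23.Measure

/-!
The measure form of the main reduction.
-/

open Filter Topology Finset

namespace Pool.Agent.Z23

open Pool.Agent.Z3 (zeta3 Iint)

namespace BD

variable {d : BD}

theorem dK_cast (K : Finset ℕ) (k : ℕ) : ((dK K k : ℚ) : ℂ) = dC K k := by
  unfold dK dC
  push_cast
  rfl

theorem A0L_cast (k : ℕ) (hk : k ∈ d.K2) :
    ((A0L d.Zs d.Hs d.K1 d.K2 k : ℚ) : ℂ) =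
      cC (NB d.a1 d.l1 d.a2 d.l2 d.a3 d.l3) d.K1 d.K2 k := by
  rw [A0L, if_pos hk, cC]
  push_cast
  rw [dK_cast, dK_cast]
  congr 1
  have h1 : ((numL d.Zs d.Hs (-(k : ℚ)) : ℚ) : ℂ) = numL d.Zs d.Hs (-(k : ℂ)) := by
    have h2 : numL d.Zs d.Hs (-(k : ℚ)) = (∏ i ∈ Ico d.a1 (d.a1 + d.l1), (-(k : ℚ) + (i : ℚ))) *
        (∏ i ∈ Ico d.a2 (d.a2 + d.l2), (-(k : ℚ) + (i : ℚ))) *
        (∏ i ∈ Ico d.a3 (d.a3 + d.l3), (-(k : ℚ) + ((i : ℚ) + 1 / 2))) := by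
      simp [numL, Zs, Hs]
    rw [h2, numL_eq]
    push_cast
    rfl
  rw [h1, numL_eq, prod_Ico_blk0, prod_Ico_blk0, prod_Ico_blk, NB, Polynomial.eval_mul,
    Polynomial.eval_mul]

theorem QG_cast (h : d.OK) (j : ℕ) : ((d.QG 1 j : ℚ) : ℂ) =
    2 * ∑ k ∈ Ico d.b2 (d.b2 + d.m2), (-(k : ℂ)) ^ j *
      cC (NB d.a1 d.l1 d.a2 d.l2 d.a3 d.l3) (Ico d.b1 (d.b1 + d.m1)) (Ico d.b2 (d.b2 + d.m2)) k := by
  rw [QG]
  push_cast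
  congr 1
  rw [← Finset.sum_subset (K2_sub h)]
  · refine Finset.sum_congr rfl fun k hk => ?_
    rw [AA]
    push_cast
    rw [A0L_cast k hk, one_mul]
    rfl
  · intro k _ hk
    rw [AA, A0L, if_neg hk]
    simp

/-- nonvanishing with the leading coefficients -/
theorem nonvanishG_l (h : d.OK) (x y l : ℂ)
    (hv : ∀ j ≤ 2, x * d.F2G 1 j + y * d.F3G 1 j = l * ((d.QG 1 j : ℚ) : ℂ)) :
    x = 0 ∧ y = 0 := by
  have key := nonvanish_blocks_l d.a1 d.l1 d.a2 d.l2 d.a3 d.l3 d.b1 d.m1 d.b2 d.m2 h.h1 h.h1' h.h2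
    h.h2' h.h3 h.hb1 h.hb h.hbm h.hl (-x) y (2 * l) ?_
  · exact ⟨neg_eq_zero.mp key.1, key.2⟩
  · intro j hj
    have h1 := hv j (by omega)
    have e1 : d.F2G 1 j = -(J (2 * (-(d.a3 : ℤ))) (fun u => (u / 2) ^ j *
        ((NB d.a1 d.l1 d.a2 d.l2 d.a3 d.l3).eval (u / 2) /
          (DB d.b1 d.m1 d.b2 d.m2).eval (u / 2)))) := by
      rw [F2G]
      congr 1
      unfold J
      congr 1
      funext y
      simp only [RG_eq_blk]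
      push_cast
      ring
    have e2 : d.F3G 1 j = Iint (-(d.a3 : ℤ)) (fun t => t ^ j *
        ((NB d.a1 d.l1 d.a2 d.l2 d.a3 d.l3).eval t / (DB d.b1 d.m1 d.b2 d.m2).eval t)) := by
      rw [F3G]
      unfold Iint
      congr 1
      funext y
      simp only [RG_eq_blk]
      push_cast
      ring
    rw [e1, e2, QG_cast h j] at h1
    linear_combination h1

end BD

/-- the main reduction with a measure -/
theorem main_measure (d : ℕ → BD) (M U a : ℕ → ℕ) (e : ℕ → ℕ → ℕ) (f g δ c0 c1 : ℝ)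
    (hd : ∀ N, 1 ≤ N → (d N).OK)
    (hU : ∀ N, 1 ≤ N → 2 * (d N).a3 + 1 ≤ U N ∧ U N ≤ 2 * ((d N).a1 + (d N).l1) ∧
      U N ≤ 2 * ((d N).a3 + (d N).l3) + 1)
    (ha : ∀ N, 1 ≤ N → (d N).a3 + 1 ≤ a N ∧ a N ≤ (d N).a1 + (d N).l1 ∧ a N ≤ (d N).a2 + (d N).l2)
    (hb2 : ∃ C : ℝ, ∃ D : ℕ, ∀ N j : ℕ, 1 ≤ N → j ≤ 2 →
      ‖(d N).F2G 1 j‖ ≤ C * (N : ℝ) ^ D * Real.exp (-(f * N)))
    (hb3 : ∃ C : ℝ, ∃ D : ℕ, ∀ N j : ℕ, 1 ≤ N → j ≤ 2 →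
      ‖(d N).F3G 1 j‖ ≤ C * (N : ℝ) ^ D * Real.exp (-(f * N)))
    (hqb : ∃ C : ℝ, ∃ D : ℕ, ∀ N j : ℕ, 1 ≤ N → j ≤ 2 →
      |(((d N).QG 1 j : ℚ) : ℝ)| ≤ C * (N : ℝ) ^ D * Real.exp (g * N))
    (hq0 : ∀ N, 1 ≤ N → (d N).QG 1 0 ≠ 0)
    (hp : ∀ N, 1 ≤ N → ∀ p : ℕ, p.Prime → p ≤ M N → PBD (d N) (U N) (a N) p (e N p))
    (hp0 : ∀ N, 1 ≤ N → ∀ p : ℕ, p.Prime → M N < p → PBD (d N) (U N) (a N) p 0)
    (hlog : ∀ᶠ N : ℕ in atTop,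
      ∑ p ∈ (range (M N + 1)).filter Nat.Prime, (e N p : ℝ) * Real.log p ≤ δ * N)
    (hc0 : 0 < c0) (hc1 : 0 < c1) (h0 : c0 < f - δ) (h1 : g + δ < c1) :
    ∃ c : ℝ, 0 < c ∧ ∀ x y z : ℤ, ¬ (x = 0 ∧ y = 0 ∧ z = 0) →
      c * (|(x : ℝ)| + |(y : ℝ)| + 1) ^ (-(c1 / c0)) ≤
        |(x : ℝ) * zeta2 + (y : ℝ) * zeta3 + (z : ℝ)| := by
  refine assemble_measure zeta2 zeta3 (fun N j => (d N).QG 1 j)
    (fun N j => P2 (d N).K1 ((d N).AA 1 j) ((d N).BB 1 j) (U N))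
    (fun N j => P3 (d N).K1 ((d N).AA 1 j) ((d N).BB 1 j) (a N))
    (fun N => DM (M N) (e N)) (fun N j => (d N).F2G 1 j) (fun N j => (d N).F3G 1 j) f g δ c0 c1
    (fun N _ => DM_pos _ _) ?_ ?_ ?_ hq0 hb2 hb3 hqb ?_ ?_ hc0 hc1 h0 h1
  · intro N j hN hj
    obtain ⟨h1, h2, h3⟩ := hU N hN
    exact BD.F2G_eq (hd N hN) 1 j hj (U N) h1 h2 h3
  · intro N j hN hj
    obtain ⟨h1, h2, h3⟩ := ha N hN
    exact BD.F3G_eq (hd N hN) 1 j hj (a N) h1 h2 h3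
  · intro N hN x y l hxy
    obtain ⟨h1, h2⟩ := BD.nonvanishG_l (hd N hN) (x : ℂ) (y : ℂ) (l : ℂ) hxy
    exact ⟨by exact_mod_cast h1, by exact_mod_cast h2⟩
  · filter_upwards [hlog] with N hN
    rw [log_DM]
    exact hN
  · intro N j hN hj
    have key : ∀ q : ℚ, (∀ p : ℕ, p.Prime → p ≤ M N → padicNorm p q ≤ (p : ℚ) ^ e N p) →
        (∀ p : ℕ, p.Prime → M N < p → padicNorm p q ≤ (p : ℚ) ^ 0) →
        ∃ z : ℤ, (DM (M N) (e N) : ℚ) * q = z := fun q h1 h2 =>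
      int_of_bounds _ _ q h1 fun p hp hlt => by simpa using h2 p hp hlt
    refine ⟨key _ (fun p hpp hle => (hp N hN p hpp hle j hj).1)
      (fun p hpp hlt => (hp0 N hN p hpp hlt j hj).1),
      key _ (fun p hpp hle => (hp N hN p hpp hle j hj).2.1)
      (fun p hpp hlt => (hp0 N hN p hpp hlt j hj).2.1),
      key _ (fun p hpp hle => (hp N hN p hpp hle j hj).2.2)
      (fun p hpp hlt => (hp0 N hN p hpp hlt j hj).2.2)⟩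

end Pool.Agent.Z23
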