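import Pool.Agent.Z23.HLogS
import Pool.Agent.Z23.Bounds
import Pool.Agent.Z23.ABound
import Pool.Agent.Z23.BigC
import Pool.Agent.Z23.Main2
import Pool.Agent.Z23.Concl2

/-!
# Linear independence of 1, zeta(2), zeta(3) over the rationals, with a measure
-/

open Filter Topology

namespace Pool.Agent.Z23

open Pool.Agent.Z3 (zeta3)

theorem ee2_large (n p : ℕ) (hn : 1 ≤ n) (hp : p.Prime) (hlt : MM n < p) : PBn n p 0 := by
  refine big3 n p hn hp ?_ ?_
  · nlinarith [hp.two_le]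
  · unfold MM at hlt
    omega

/-- the measure for zeta(2) and zeta(3) -/
theorem z23_measure : ∃ c : ℝ, 0 < c ∧ ∀ x y z : ℤ, ¬ (x = 0 ∧ y = 0 ∧ z = 0) →
    c * (|(x : ℝ)| + |(y : ℝ)| + 1) ^ (-(123.39 / 5.79 : ℝ)) ≤
      |(x : ℝ) * zeta2 + (y : ℝ) * zeta3 + (z : ℝ)| := by
  refine main_measure dd MM (fun n => 32 * n) (fun n => 14 * n) ee2 64.48 64.7 58.68 5.79 123.39
    (fun n hn => dd_ok n hn) (fun n hn => ?_) (fun n hn => ?_) F2_size' F3_size' QG_size QG_ne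
    (fun n hn p hpp hle => ee2_bound n p hn hpp) (fun n hn p hpp hlt => ee2_large n p hn hpp hlt)
    hlogC2s (by norm_num) (by norm_num) (by norm_num) (by norm_num)
  · simp only [dd]
    omega
  · simp only [dd]
    omega

/-- the linear independence measure of 1, pi ^ 2, zeta(3) -/
theorem z23_measure_pi : ∃ c : ℝ, 0 < c ∧ ∀ x y z : ℤ, ¬ (x = 0 ∧ y = 0 ∧ z = 0) →
    c * (max |(y : ℝ)| |(z : ℝ)| + 1) ^ (-21.32 : ℝ) ≤
      |(x : ℝ) + (y : ℝ) * Real.pi ^ 2 + (z : ℝ) * ∑' n : ℕ, 1 / ((n : ℝ) + 1) ^ 3| := by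
  obtain ⟨c, hc, H⟩ := measure_pi (123.39 / 5.79) (by norm_num) z23_measure
  refine ⟨c, hc, fun x y z hne => le_trans ?_ (H x y z hne)⟩
  refine mul_le_mul_of_nonneg_left ?_ hc.le
  have h0 : 0 ≤ max |(y : ℝ)| |(z : ℝ)| := le_max_of_le_left (abs_nonneg _)
  exact Real.rpow_le_rpow_of_exponent_le (by linarith) (by norm_num)

/-- the integer relations -/
theorem z23_int (x y z : ℤ) (h : (x : ℝ) * zeta2 + (y : ℝ) * zeta3 + (z : ℝ) = 0) :
    x = 0 ∧ y = 0 ∧ z = 0 := by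
  by_contra hne
  obtain ⟨c, hc, H⟩ := z23_measure
  have h1 := H x y z hne
  rw [h, abs_zero] at h1
  have h2 : 0 < (|(x : ℝ)| + |(y : ℝ)| + 1) ^ (-(123.39 / 5.79 : ℝ)) := by positivity
  nlinarith

/-- **1, zeta(2), zeta(3) are linearly independent over the rationals.** -/
theorem z23_riemannZeta : LinearIndependent ℚ ![(1 : ℂ), riemannZeta 2, riemannZeta 3] :=
  linInd_riemannZeta z23_int

/-- **1, pi ^ 2, zeta(3) are linearly independent over the rationals.** -/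
theorem z23_pi : LinearIndependent ℚ ![(1 : ℝ), Real.pi ^ 2, ∑' n : ℕ, 1 / ((n : ℝ) + 1) ^ 3] :=
  linInd_pi z23_int

/-- **zeta(3) / pi ^ 2 is irrational.** -/
theorem z23_irrational : Irrational ((∑' n : ℕ, 1 / ((n : ℝ) + 1) ^ 3) / Real.pi ^ 2) :=
  irrational_div z23_int

end Pool.Agent.Z23
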