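import Pool.Agent.Z3.FBound

/-!
General archimedean estimates: products over arithmetic progressions with difference 1 on a vertical
line, and integration against an exponentially decreasing weight.
-/

open Finset Filter Topology Complex
open scoped BigOperators

namespace Pool.Agent.Z23

open Pool.Agent.Z3 (Hf Hf_mvt Hf_zero)

/-! ## one step of `Hf` -/

theorem arctan_le (x : ℝ) (hx : 0 ≤ x) : Real.arctan x ≤ x := by
  have h := Real.le_tan (Real.arctan_nonneg.2 hx) (Real.arctan_lt_pi_div_two x)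
  rwa [Real.tan_arctan] at h

theorem half_log_le (a y : ℝ) (ha : 0 < a) (hy : 0 ≤ y) :
    (1 / 2 : ℝ) * Real.log (a ^ 2 + y ^ 2) ≤ Real.log (a + y) := by
  have h4 : Real.log (a ^ 2 + y ^ 2) ≤ Real.log ((a + y) ^ 2) :=
    Real.log_le_log (by positivity) (by nlinarith [mul_nonneg ha.le hy])
  rw [Real.log_pow] at h4
  push_cast at h4
  linarith

theorem Hf_one_le (y : ℝ) (hy : 0 ≤ y) : Hf 1 y ≤ Real.log (1 + y) := by
  have h1 : y * Real.arctan (1 / y) ≤ 1 := by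
    rcases eq_or_lt_of_le hy with h | h
    · rw [← h]; simp
    · have h2 : Real.arctan (1 / y) ≤ 1 / y := arctan_le _ (by positivity)
      calc y * Real.arctan (1 / y) ≤ y * (1 / y) := mul_le_mul_of_nonneg_left h2 hy
        _ = 1 := by field_simp
  have h3 := half_log_le 1 y one_pos hy
  unfold Hf
  linarith

theorem Hf_succ_le (p : ℕ) (y : ℝ) (hy : 0 ≤ y) :
    Hf (p + 1) y ≤ Hf p y + Real.log (p + 1 + y) := by
  rcases Nat.eq_zero_or_pos p with hp | hp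
  · subst hp
    have h := Hf_one_le y hy
    simp only [Nat.cast_zero, zero_add, Hf_zero]
    exact h
  · have hp' : (1 : ℝ) ≤ p := by exact_mod_cast hp
    have h1 := (Hf_mvt p y (by linarith)).2
    have h2 := half_log_le ((p : ℝ) + 1) y (by linarith) hy
    linarith

/-- `Hf` is increasing for `u ≥ 1` -/
theorem Hf_le_succ (p : ℕ) (hp : 1 ≤ p) (y : ℝ) : Hf p y ≤ Hf (p + 1) y := by
  have hp' : (1 : ℝ) ≤ p := by exact_mod_cast hp
  have h1 := (Hf_mvt p y (by linarith)).1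
  have h2 : 0 ≤ Real.log ((p : ℝ) ^ 2 + y ^ 2) := Real.log_nonneg (by nlinarith [sq_nonneg y])
  linarith

theorem norm_le_exp (x y a : ℝ) (ha : 0 < a) (hx : |x| ≤ a) :
    ‖(x : ℂ) + (y : ℂ) * Complex.I‖ ≤ Real.exp ((1 / 2 : ℝ) * Real.log (a ^ 2 + |y| ^ 2)) := by
  have h1 : 0 < a ^ 2 + |y| ^ 2 := by positivity
  have h2 : (1 / 2 : ℝ) * Real.log (a ^ 2 + |y| ^ 2) = Real.log (√(a ^ 2 + |y| ^ 2)) := by
    rw [Real.log_sqrt h1.le]; ring
  rw [Complex.norm_add_mul_I, h2, Real.exp_log (Real.sqrt_pos.2 h1)]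
  refine Real.sqrt_le_sqrt ?_
  rw [sq_abs]
  have : x ^ 2 ≤ a ^ 2 := sq_le_sq' (by linarith [neg_abs_le x]) ((le_abs_self x).trans hx)
  linarith

theorem exp_le_norm (x y a : ℝ) (ha : 0 < a) (hx : a ≤ |x|) :
    Real.exp ((1 / 2 : ℝ) * Real.log (a ^ 2 + |y| ^ 2)) ≤ ‖(x : ℂ) + (y : ℂ) * Complex.I‖ := by
  have h1 : 0 < a ^ 2 + |y| ^ 2 := by positivity
  have h2 : (1 / 2 : ℝ) * Real.log (a ^ 2 + |y| ^ 2) = Real.log (√(a ^ 2 + |y| ^ 2)) := by
    rw [Real.log_sqrt h1.le]; ring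
  rw [Complex.norm_add_mul_I, h2, Real.exp_log (Real.sqrt_pos.2 h1)]
  refine Real.sqrt_le_sqrt ?_
  rw [sq_abs]
  have : a ^ 2 ≤ x ^ 2 := by
    rw [← sq_abs x]
    exact pow_le_pow_left₀ ha.le hx 2
  linarith

/-- upper bound for a one sided product -/
theorem prod_up (p : ℕ) (x : ℕ → ℝ) (hx : ∀ k < p, |x k| ≤ k + 1) (y : ℝ) :
    ∏ k ∈ range p, ‖(x k : ℂ) + (y : ℂ) * Complex.I‖ ≤
      Real.exp (Hf p |y|) * (p + |y| + 3) ^ 2 := by
  have hy := abs_nonneg y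
  have h1 : ∏ k ∈ range p, ‖(x k : ℂ) + (y : ℂ) * Complex.I‖ ≤
      Real.exp (Hf (p + 1) |y| - Hf 1 |y|) := by
    induction p with
    | zero => simp
    | succ p ih =>
      rw [prod_range_succ]
      have h2 := ih fun k hk => hx k (by omega)
      have h3 := norm_le_exp (x p) y (p + 1) (by positivity) (hx p (by omega))
      have h4 := (Hf_mvt ((p : ℝ) + 1) |y| (by positivity)).1
      refine (mul_le_mul h2 h3 (norm_nonneg _) (Real.exp_pos _).le).trans ?_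
      rw [← Real.exp_add, Real.exp_le_exp]
      push_cast
      linarith
  refine h1.trans ?_
  have h2 := Hf_succ_le p |y| hy
  have h3 := Pool.Agent.Z3.LS_one |y| hy
  have h4 : (0 : ℝ) < p + |y| + 3 := by positivity
  have h5 : Real.log ((p : ℝ) + 1 + |y|) ≤ Real.log (p + |y| + 3) :=
    Real.log_le_log (by positivity) (by linarith)
  have h6 : 1 ≤ Real.log ((p : ℝ) + |y| + 3) := by
    rw [Real.le_log_iff_exp_le h4]
    have := Real.exp_one_lt_d9
    have h7 : (0 : ℝ) ≤ p := Nat.cast_nonneg p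
    linarith
  have h7 : (((p : ℝ) + |y| + 3) ^ 2) = Real.exp (2 * Real.log (p + |y| + 3)) := by
    rw [two_mul, Real.exp_add, Real.exp_log h4]; ring
  rw [h7, ← Real.exp_add, Real.exp_le_exp]
  linarith

/-- lower bound for a one sided product: `x k ≥ u + k - 1` -/
theorem prod_down (u m : ℕ) (hu : 3 ≤ u) (x : ℕ → ℝ) (hx : ∀ k < m, (u : ℝ) + k - 1 ≤ x k)
    (y : ℝ) :
    Real.exp (Hf (u + m : ℕ) |y| - Hf u |y|) ≤
      (∏ k ∈ range m, ‖(x k : ℂ) + (y : ℂ) * Complex.I‖) * (u + m + |y|) ^ 2 := by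
  have hy := abs_nonneg y
  have hu' : (3 : ℝ) ≤ u := by exact_mod_cast hu
  have h1 : Real.exp (Hf ((u : ℝ) + m - 2) |y| - Hf ((u : ℝ) - 2) |y|) ≤
      ∏ k ∈ range m, ‖(x k : ℂ) + (y : ℂ) * Complex.I‖ := by
    induction m with
    | zero => simp
    | succ m ih =>
      rw [prod_range_succ]
      have h2 := ih fun k hk => hx k (by omega)
      have hxm := hx m (by omega)
      have hm : (0 : ℝ) ≤ m := Nat.cast_nonneg m
      have h3 := exp_le_norm (x m) y ((u : ℝ) + m - 1) (by linarith)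
        (by rw [abs_of_nonneg (by linarith)]; exact hxm)
      have h4 := (Hf_mvt ((u : ℝ) + m - 2) |y| (by linarith)).2
      have e1 : (u : ℝ) + m - 2 + 1 = u + m - 1 := by ring
      rw [e1] at h4
      refine le_trans ?_ (mul_le_mul h2 h3 (Real.exp_pos _).le
        (prod_nonneg fun _ _ => norm_nonneg _))
      rw [← Real.exp_add, Real.exp_le_exp]
      push_cast
      have e2 : (u : ℝ) + (m + 1) - 2 = u + m - 1 := by ring
      rw [e2]
      linarith
  have hm : (0 : ℝ) ≤ m := Nat.cast_nonneg m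
  have h4 : (0 : ℝ) < u + m + |y| := by positivity
  have a1 := (Hf_mvt ((u : ℝ) + m - 2) |y| (by linarith)).2
  have a2 := (Hf_mvt ((u : ℝ) + m - 1) |y| (by linarith)).2
  have b1 := (Hf_mvt ((u : ℝ) - 2) |y| (by linarith)).1
  have b2 := (Hf_mvt ((u : ℝ) - 1) |y| (by linarith)).1
  have e1 : (u : ℝ) + m - 2 + 1 = u + m - 1 := by ring
  have e2 : (u : ℝ) + m - 1 + 1 = u + m := by ring
  have e3 : (u : ℝ) - 2 + 1 = u - 1 := by ring
  have e4 : (u : ℝ) - 1 + 1 = u := by ring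
  rw [e1] at a1
  rw [e2] at a2
  rw [e3] at b1
  rw [e4] at b2
  have c1 : 0 ≤ Real.log (((u : ℝ) - 2) ^ 2 + |y| ^ 2) :=
    Real.log_nonneg (by nlinarith [sq_nonneg |y|])
  have c2 : 0 ≤ Real.log (((u : ℝ) - 1) ^ 2 + |y| ^ 2) :=
    Real.log_nonneg (by nlinarith [sq_nonneg |y|])
  have d1 : (1 / 2 : ℝ) * Real.log (((u : ℝ) + m - 1) ^ 2 + |y| ^ 2) ≤ Real.log (u + m + |y|) :=
    (half_log_le _ _ (by linarith) hy).trans (Real.log_le_log (by linarith) (by linarith))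
  have d2 : (1 / 2 : ℝ) * Real.log (((u : ℝ) + m) ^ 2 + |y| ^ 2) ≤ Real.log (u + m + |y|) :=
    half_log_le _ _ (by linarith) hy
  have h7 : (((u : ℝ) + m + |y|) ^ 2) = Real.exp (2 * Real.log (u + m + |y|)) := by
    rw [two_mul, Real.exp_add, Real.exp_log h4]; ring
  refine le_trans ?_ (mul_le_mul_of_nonneg_right h1 (by positivity))
  rw [h7, ← Real.exp_add, Real.exp_le_exp]
  push_cast
  linarith

/-- upper bound for a one sided product starting at distance `u` -/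
theorem prod_up_off (u m : ℕ) (x : ℕ → ℝ) (hx : ∀ k < m, |x k| ≤ (u : ℝ) + k + 1) (y : ℝ) :
    (∏ k ∈ range m, ‖(x k : ℂ) + (y : ℂ) * Complex.I‖) * Real.exp (Hf u |y|) ≤
      Real.exp (Hf (u + m : ℕ) |y|) * (u + m + |y| + 3) ^ 2 := by
  have hy := abs_nonneg y
  have hu : (0 : ℝ) ≤ u := Nat.cast_nonneg u
  have hm : (0 : ℝ) ≤ m := Nat.cast_nonneg m
  have h1 : ∏ k ∈ range m, ‖(x k : ℂ) + (y : ℂ) * Complex.I‖ ≤
      Real.exp (Hf (u + m + 1) |y| - Hf (u + 1) |y|) := by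
    clear hm
    induction m with
    | zero => simp
    | succ m ih =>
      rw [prod_range_succ]
      have h2 := ih fun k hk => hx k (by omega)
      have h3 := norm_le_exp (x m) y (u + m + 1) (by positivity) (hx m (by omega))
      have h4 := (Hf_mvt ((u : ℝ) + m + 1) |y| (by positivity)).1
      refine (mul_le_mul h2 h3 (norm_nonneg _) (Real.exp_pos _).le).trans ?_
      rw [← Real.exp_add, Real.exp_le_exp]
      push_cast
      have e : (u : ℝ) + (m + 1) + 1 = u + m + 1 + 1 := by ring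
      rw [e]
      linarith
  have h2 := Hf_succ_le (u + m) |y| hy
  have h3 : Hf u |y| ≤ Hf (u + 1) |y| + 1 := by
    rcases Nat.eq_zero_or_pos u with h | h
    · subst h
      have := Pool.Agent.Z3.LS_one |y| hy
      simp only [Nat.cast_zero, Hf_zero, zero_add]
      linarith
    · have := Hf_le_succ u h |y|
      linarith
  have h4 : (0 : ℝ) < u + m + |y| + 3 := by positivity
  have h5 : Real.log (((u + m : ℕ) : ℝ) + 1 + |y|) ≤ Real.log (u + m + |y| + 3) := by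
    refine Real.log_le_log (by positivity) ?_
    push_cast
    linarith
  have h6 : 1 ≤ Real.log ((u : ℝ) + m + |y| + 3) := by
    rw [Real.le_log_iff_exp_le h4]
    have := Real.exp_one_lt_d9
    linarith
  have h7 : (((u : ℝ) + m + |y| + 3) ^ 2) = Real.exp (2 * Real.log (u + m + |y| + 3)) := by
    rw [two_mul, Real.exp_add, Real.exp_log h4]; ring
  refine (mul_le_mul_of_nonneg_right h1 (Real.exp_pos _).le).trans ?_
  rw [h7, ← Real.exp_add, ← Real.exp_add, Real.exp_le_exp]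
  push_cast at h2 h5 ⊢
  linarith

/-! ## blocks on the line `Re t = -(h + θ)` -/

/-- the point of the line -/
noncomputable def lin (h : ℕ) (θ y : ℝ) : ℂ := ((-(h : ℝ) - θ : ℝ) : ℂ) + (y : ℂ) * Complex.I

theorem lin_add (h : ℕ) (θ y x : ℝ) :
    lin h θ y + (x : ℂ) = ((x - h - θ : ℝ) : ℂ) + (y : ℂ) * Complex.I := by
  unfold lin
  push_cast
  ring

theorem Hf_pred (m : ℕ) (y : ℝ) (hy : 0 ≤ y) : Hf m y ≤ Hf (m + 1 : ℕ) y + 1 := by
  rcases Nat.eq_zero_or_pos m with h | h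
  · subst h
    have := Pool.Agent.Z3.LS_one y hy
    simp only [Nat.cast_zero, Hf_zero, zero_add, Nat.cast_one]
    linarith
  · have := Hf_le_succ m h y
    push_cast
    linarith

/-- an integer block `[a, b)` with `a ≤ h < b` -/
theorem blk_up (a h b : ℕ) (ha : a ≤ h) (hb : h < b) (θ : ℝ) (h0 : 0 ≤ θ) (h1 : θ ≤ 1) (y X : ℝ)
    (hX : (b : ℝ) + |y| + 5 ≤ X) :
    ‖∏ i ∈ Ico a b, (lin h θ y + (i : ℂ))‖ ≤
      Real.exp (Hf (h - a : ℕ) |y| + Hf (b - h : ℕ) |y|) * X ^ 6 := by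
  have hy := abs_nonneg y
  rw [norm_prod, ← prod_Ico_consecutive _ (show a ≤ h + 1 by omega) (show h + 1 ≤ b by omega)]
  have e1 : ∏ i ∈ Ico a (h + 1), ‖lin h θ y + (i : ℂ)‖ =
      ∏ k ∈ range (h - a + 1), ‖((-(k : ℝ) - θ : ℝ) : ℂ) + (y : ℂ) * Complex.I‖ := by
    rw [prod_Ico_eq_prod_range, ← prod_range_reflect]
    have e0 : h + 1 - a = h - a + 1 := by omega
    rw [e0]
    refine prod_congr rfl fun k hk => ?_
    have hk' := mem_range.1 hk
    have e2 : ((a + (h - a + 1 - 1 - k) : ℕ) : ℂ) = (((h : ℝ) - k : ℝ) : ℂ) := by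
      have : a + (h - a + 1 - 1 - k) = h - k := by omega
      rw [this, Nat.cast_sub (by omega)]
      push_cast
      ring
    rw [e2, lin_add]
    congr 3
    ring
  have e2 : ∏ i ∈ Ico (h + 1) b, ‖lin h θ y + (i : ℂ)‖ =
      ∏ k ∈ range (b - h - 1), ‖((1 + (k : ℝ) - θ : ℝ) : ℂ) + (y : ℂ) * Complex.I‖ := by
    rw [prod_Ico_eq_prod_range]
    have e0 : b - (h + 1) = b - h - 1 := by omega
    rw [e0]
    refine prod_congr rfl fun k _ => ?_
    have e3 : ((h + 1 + k : ℕ) : ℂ) = (((h : ℝ) + 1 + k : ℝ) : ℂ) := by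
      push_cast
      ring
    rw [e3, lin_add]
    congr 3
    ring
  rw [e1, e2]
  have p1 := prod_up (h - a + 1) (fun k => -(k : ℝ) - θ) (fun k _ => by
    have hk : (0 : ℝ) ≤ k := Nat.cast_nonneg k
    rw [abs_le]
    constructor <;> linarith) y
  have p2 := prod_up (b - h - 1) (fun k => 1 + (k : ℝ) - θ) (fun k _ => by
    have hk : (0 : ℝ) ≤ k := Nat.cast_nonneg k
    rw [abs_le]
    constructor <;> linarith) y
  have hX0 : 0 < X := by
    have : (0 : ℝ) ≤ b := Nat.cast_nonneg b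
    linarith
  have hsub1 : ((h - a : ℕ) : ℝ) + 1 ≤ b := by
    have : h - a + 1 ≤ b := by omega
    exact_mod_cast this
  have hsub2 : ((b - h - 1 : ℕ) : ℝ) ≤ b := by
    have : b - h - 1 ≤ b := by omega
    exact_mod_cast this
  have q1 : Real.exp (Hf (h - a + 1 : ℕ) |y|) ≤ Real.exp (Hf (h - a : ℕ) |y|) * X := by
    have h2 := Hf_succ_le (h - a) |y| hy
    have h3 : Real.log (((h - a : ℕ) : ℝ) + 1 + |y|) ≤ Real.log X :=
      Real.log_le_log (by positivity) (by linarith)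
    rw [← Real.exp_log hX0, ← Real.exp_add, Real.exp_le_exp]
    push_cast at h2 ⊢
    linarith
  have q2 : Real.exp (Hf (b - h - 1 : ℕ) |y|) ≤ Real.exp (Hf (b - h : ℕ) |y|) * X := by
    have h2 := Hf_pred (b - h - 1) |y| hy
    have e0 : b - h - 1 + 1 = b - h := by omega
    rw [e0] at h2
    have h3 : 1 ≤ Real.log X := by
      rw [Real.le_log_iff_exp_le hX0]
      have h4 := Real.exp_one_lt_d9
      have : (0 : ℝ) ≤ b := Nat.cast_nonneg b
      linarith
    rw [← Real.exp_log hX0, ← Real.exp_add, Real.exp_le_exp]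
    linarith
  have r1 : (((h - a + 1 : ℕ) : ℝ) + |y| + 3) ^ 2 ≤ X ^ 2 := by
    refine pow_le_pow_left₀ (by positivity) ?_ 2
    push_cast
    linarith
  have r2 : (((b - h - 1 : ℕ) : ℝ) + |y| + 3) ^ 2 ≤ X ^ 2 := by
    refine pow_le_pow_left₀ (by positivity) ?_ 2
    linarith
  have s1 := p1.trans (mul_le_mul q1 r1 (by positivity) (by positivity))
  have s2 := p2.trans (mul_le_mul q2 r2 (by positivity) (by positivity))
  refine (mul_le_mul s1 s2 (prod_nonneg fun _ _ => norm_nonneg _) (by positivity)).trans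
    (le_of_eq ?_)
  rw [Real.exp_add]
  ring

/-- a half-integer block `[h, b)` starting at the line -/
theorem blk_half (h b : ℕ) (θ : ℝ) (h0 : 0 ≤ θ) (h1 : θ ≤ 1) (y X : ℝ)
    (hX : (b : ℝ) + |y| + 5 ≤ X) :
    ‖∏ i ∈ Ico h b, (lin h θ y + (i : ℂ) + 1 / 2)‖ ≤ Real.exp (Hf (b - h : ℕ) |y|) * X ^ 2 := by
  rw [norm_prod]
  have e2 : ∏ i ∈ Ico h b, ‖lin h θ y + (i : ℂ) + 1 / 2‖ =
      ∏ k ∈ range (b - h), ‖(((k : ℝ) + 1 / 2 - θ : ℝ) : ℂ) + (y : ℂ) * Complex.I‖ := by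
    rw [prod_Ico_eq_prod_range]
    refine prod_congr rfl fun k _ => ?_
    have e3 : lin h θ y + ((h + k : ℕ) : ℂ) + 1 / 2 = lin h θ y + (((h : ℝ) + k + 1 / 2 : ℝ) : ℂ) := by
      push_cast
      ring
    rw [e3, lin_add]
    congr 3
    ring
  rw [e2]
  refine (prod_up (b - h) (fun k => (k : ℝ) + 1 / 2 - θ) (fun k _ => by
    have hk : (0 : ℝ) ≤ k := Nat.cast_nonneg k
    rw [abs_le]
    constructor <;> linarith) y).trans ?_
  refine mul_le_mul_of_nonneg_left (pow_le_pow_left₀ (by positivity) ?_ 2) (Real.exp_pos _).le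
  have : ((b - h : ℕ) : ℝ) ≤ b := by exact_mod_cast Nat.sub_le b h
  linarith

/-- a block `[a, b)` with `h + 3 ≤ a`, from below -/
theorem blk_down (a h b : ℕ) (ha : h + 3 ≤ a) (hb : a ≤ b) (θ : ℝ) (h1 : θ ≤ 1) (y X : ℝ)
    (hX : (b : ℝ) + |y| + 5 ≤ X) :
    Real.exp (Hf (b - h : ℕ) |y| - Hf (a - h : ℕ) |y|) ≤
      ‖∏ i ∈ Ico a b, (lin h θ y + (i : ℂ))‖ * X ^ 2 := by
  rw [norm_prod]
  have e2 : ∏ i ∈ Ico a b, ‖lin h θ y + (i : ℂ)‖ =
      ∏ k ∈ range (b - a), ‖(((a : ℝ) + k - h - θ : ℝ) : ℂ) + (y : ℂ) * Complex.I‖ := by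
    rw [prod_Ico_eq_prod_range]
    refine prod_congr rfl fun k _ => ?_
    have e3 : ((a + k : ℕ) : ℂ) = (((a : ℝ) + k : ℝ) : ℂ) := by
      push_cast
      ring
    rw [e3, lin_add]
  rw [e2]
  have hah : ((a - h : ℕ) : ℝ) = a - h := Nat.cast_sub (by omega)
  have p := prod_down (a - h) (b - a) (by omega) (fun k => (a : ℝ) + k - h - θ) (fun k _ => by
    rw [hah]
    linarith) y
  have e3 : a - h + (b - a) = b - h := by omega
  rw [e3] at p
  refine p.trans ?_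
  refine mul_le_mul_of_nonneg_left (pow_le_pow_left₀ (by positivity) ?_ 2)
    (prod_nonneg fun _ _ => norm_nonneg _)
  have hba : ((b - a : ℕ) : ℝ) = b - a := Nat.cast_sub hb
  rw [hah, hba]
  have : (0 : ℝ) ≤ h := Nat.cast_nonneg h
  linarith

/-! ## scaled blocks -/

theorem Hf_scale (u N : ℕ) (hu : 1 ≤ u) (hN : 1 ≤ N) (y : ℝ) :
    Hf (u * N : ℕ) y = N * Hf u (y / N) + N * u * Real.log N := by
  have h := Pool.Agent.Z3.FB_scale u N y (by exact_mod_cast hu) (by exact_mod_cast hN)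
  push_cast
  exact h

theorem Hf_mono_add (p e : ℕ) (hp : 1 ≤ p) (y : ℝ) : Hf p y ≤ Hf (p + e : ℕ) y := by
  induction e with
  | zero => simp
  | succ e ih =>
    have h := Hf_le_succ (p + e) (by omega) y
    push_cast at h ih ⊢
    rw [← add_assoc]
    linarith

/-- the integer block `[aN, bN)` with `a < h < b` -/
theorem sblk_up (a h b N : ℕ) (ha : a < h) (hb : h < b) (hN : 1 ≤ N) (θ : ℝ) (h0 : 0 ≤ θ)
    (h1 : θ ≤ 1) (y L : ℝ) (hX : (b : ℝ) * N + |y| + 5 ≤ Real.exp L) :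
    ‖∏ i ∈ Ico (a * N) (b * N), (lin (h * N) θ y + (i : ℂ))‖ ≤
      Real.exp (N * (Hf (h - a : ℕ) (|y| / N) + Hf (b - h : ℕ) (|y| / N))
        + N * (b - a) * Real.log N + 6 * L) := by
  have hN' : (0 : ℝ) < N := by exact_mod_cast hN
  refine (blk_up (a * N) (h * N) (b * N) (Nat.mul_le_mul_right N ha.le)
    (Nat.mul_lt_mul_of_pos_right hb hN) θ h0 h1 y (Real.exp L) (by push_cast; exact hX)).trans ?_
  rw [← Nat.mul_sub_right_distrib, ← Nat.mul_sub_right_distrib,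
    Hf_scale (h - a) N (by omega) hN, Hf_scale (b - h) N (by omega) hN, ← Real.exp_nat_mul,
    ← Real.exp_add, Real.exp_le_exp]
  have e1 : ((h - a : ℕ) : ℝ) = h - a := Nat.cast_sub ha.le
  have e2 : ((b - h : ℕ) : ℝ) = b - h := Nat.cast_sub hb.le
  have e3 : (N : ℝ) * ((h - a : ℕ) : ℝ) * Real.log N + N * ((b - h : ℕ) : ℝ) * Real.log N
      = N * (b - a) * Real.log N := by
    rw [e1, e2]
    ring
  push_cast
  linarith

/-- the half-integer block `[hN, bN)` -/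
theorem sblk_half (h b N : ℕ) (hb : h < b) (hN : 1 ≤ N) (θ : ℝ) (h0 : 0 ≤ θ)
    (h1 : θ ≤ 1) (y L : ℝ) (hX : (b : ℝ) * N + |y| + 5 ≤ Real.exp L) :
    ‖∏ i ∈ Ico (h * N) (b * N), (lin (h * N) θ y + (i : ℂ) + 1 / 2)‖ ≤
      Real.exp (N * Hf (b - h : ℕ) (|y| / N) + N * (b - h) * Real.log N + 2 * L) := by
  have hN' : (0 : ℝ) < N := by exact_mod_cast hN
  refine (blk_half (h * N) (b * N) θ h0 h1 y (Real.exp L) (by push_cast; exact hX)).trans ?_
  rw [← Nat.mul_sub_right_distrib, Hf_scale (b - h) N (by omega) hN, ← Real.exp_nat_mul,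
    ← Real.exp_add, Real.exp_le_exp]
  have e2 : ((b - h : ℕ) : ℝ) = b - h := Nat.cast_sub hb.le
  have e3 : (N : ℝ) * ((b - h : ℕ) : ℝ) * Real.log N = N * (b - h) * Real.log N := by
    rw [e2]
  push_cast
  linarith

/-- the block `[aN, bN + e)` with `h + 3 ≤ a`, from below -/
theorem sblk_down (a h b e N : ℕ) (ha : h + 3 ≤ a) (hb : a ≤ b) (hN : 1 ≤ N) (θ : ℝ)
    (h1 : θ ≤ 1) (y L : ℝ) (hX : (b : ℝ) * N + e + |y| + 5 ≤ Real.exp L) :
    Real.exp (N * (Hf (b - h : ℕ) (|y| / N) - Hf (a - h : ℕ) (|y| / N))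
        + N * (b - a) * Real.log N - 2 * L) ≤
      ‖∏ i ∈ Ico (a * N) (b * N + e), (lin (h * N) θ y + (i : ℂ))‖ := by
  have hN' : (0 : ℝ) < N := by exact_mod_cast hN
  have hbN : a * N ≤ b * N := Nat.mul_le_mul_right N hb
  have k1 := blk_down (a * N) (h * N) (b * N + e) (by nlinarith) (by omega) θ h1 y (Real.exp L)
    (by push_cast; exact hX)
  have e0 : b * N + e - h * N = (b - h) * N + e := by
    have : h * N ≤ b * N := Nat.mul_le_mul_right N (by omega)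
    rw [Nat.mul_sub_right_distrib]
    omega
  have k2 := Hf_mono_add ((b - h) * N) e (Nat.mul_pos (by omega) hN) |y|
  rw [e0, ← Nat.mul_sub_right_distrib, Hf_scale (a - h) N (by omega) hN] at k1
  rw [Hf_scale (b - h) N (by omega) hN] at k2
  have e1 : ((a - h : ℕ) : ℝ) = a - h := Nat.cast_sub (by omega)
  have e2 : ((b - h : ℕ) : ℝ) = b - h := Nat.cast_sub (by omega)
  have e3 : (N : ℝ) * ((b - h : ℕ) : ℝ) * Real.log N - N * ((a - h : ℕ) : ℝ) * Real.log N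
      = N * (b - a) * Real.log N := by
    rw [e1, e2]
    ring
  have hE : (0 : ℝ) < Real.exp L ^ 2 := by positivity
  have k3 : Real.exp (2 * L) = Real.exp L ^ 2 := by
    rw [← Real.exp_nat_mul]
    norm_num
  rw [Real.exp_sub, k3, div_le_iff₀ hE]
  refine le_trans ?_ k1
  rw [Real.exp_le_exp]
  linarith

/-! ## integration -/

theorem decay (Ψ : ℝ → ℝ) (c z0 s : ℝ) (h1 : ∀ z, 0 ≤ z → Ψ z ≤ -c)
    (h2 : ∀ z, 0 ≤ z → z0 ≤ z → Ψ z ≤ -c - (z - z0) / s) (hs : 0 < s)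
    (N : ℕ) (hN : 1 ≤ N) (z : ℝ) (hz : 0 ≤ z) :
    (N : ℝ) * Ψ (z / N) ≤ -(c * N) + -(max 0 (z - z0 * N) / s) := by
  have hN' : (0 : ℝ) < N := by exact_mod_cast hN
  rcases le_total z (z0 * N) with h | h
  · rw [max_eq_left (by linarith)]
    have h3 := mul_le_mul_of_nonneg_left (h1 (z / N) (by positivity)) hN'.le
    simp only [zero_div, neg_zero, add_zero]
    linarith
  · rw [max_eq_right (by linarith)]
    have h3 : z0 ≤ z / N := by rw [le_div_iff₀ hN']; exact h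
    have h4 := mul_le_mul_of_nonneg_left (h2 (z / N) (by positivity) h3) hN'.le
    have h5 : (N : ℝ) * (-c - (z / N - z0) / s) = -(c * N) + -((z - z0 * N) / s) := by
      field_simp
      ring
    linarith

theorem polyexp (s : ℝ) (hs : 0 < s) (k : ℕ) (x : ℝ) (hx : 0 ≤ x) :
    (1 + x) ^ k * Real.exp (-(x / s)) ≤ s ^ k * (k.factorial : ℝ) * Real.exp (1 / s) := by
  have h := Real.pow_div_factorial_le_exp ((1 + x) / s) (by positivity) k
  have hf : (0 : ℝ) < (k.factorial : ℝ) := by exact_mod_cast k.factorial_pos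
  rw [div_le_iff₀ hf, div_pow, div_le_iff₀ (by positivity)] at h
  have h2 : Real.exp ((1 + x) / s) = Real.exp (1 / s) * Real.exp (x / s) := by
    rw [← Real.exp_add]; congr 1; ring
  have h3 : Real.exp (x / s) * Real.exp (-(x / s)) = 1 := by
    rw [← Real.exp_add]; simp
  calc (1 + x) ^ k * Real.exp (-(x / s))
      ≤ (Real.exp ((1 + x) / s) * (k.factorial : ℝ) * s ^ k) * Real.exp (-(x / s)) :=
        mul_le_mul_of_nonneg_right h (Real.exp_pos _).le
    _ = s ^ k * (k.factorial : ℝ) * Real.exp (1 / s) * (Real.exp (x / s) * Real.exp (-(x / s))) := by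
        rw [h2]; ring
    _ = _ := by rw [h3, mul_one]

theorem growth (s z0 : ℝ) (hs : 0 < s) (hz0 : 0 ≤ z0) (k N : ℕ) (hN : 1 ≤ N) (z : ℝ)
    (hz : 0 ≤ z) :
    (1 + z) ^ k * Real.exp (-(max 0 (z - z0 * N) / s)) ≤
      ((z0 + 1) * (N : ℝ)) ^ k * (s ^ k * (k.factorial : ℝ) * Real.exp (1 / s)) := by
  have hN' : (1 : ℝ) ≤ N := by exact_mod_cast hN
  set x := max 0 (z - z0 * N) with hx
  have hx0 : 0 ≤ x := le_max_left _ _
  have hx1 : z - z0 * N ≤ x := le_max_right _ _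
  have h1 : 1 + z ≤ (z0 + 1) * N * (1 + x) := by
    have h3 : 0 ≤ z0 * N * x := by positivity
    have h4 : 0 ≤ (N - 1) * x := mul_nonneg (by linarith) hx0
    nlinarith
  calc (1 + z) ^ k * Real.exp (-(x / s)) ≤ ((z0 + 1) * N * (1 + x)) ^ k * Real.exp (-(x / s)) := by
        gcongr
    _ = ((z0 + 1) * (N : ℝ)) ^ k * ((1 + x) ^ k * Real.exp (-(x / s))) := by rw [mul_pow]; ring
    _ ≤ _ := mul_le_mul_of_nonneg_left (polyexp s hs k x hx0) (by positivity)

/-- integration of a pointwise bound `exp (N Ψ(|y| / N))` -/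
theorem int_bound (Ψ : ℝ → ℝ) (c z0 s : ℝ) (h1 : ∀ z, 0 ≤ z → Ψ z ≤ -c)
    (h2 : ∀ z, 0 ≤ z → z0 ≤ z → Ψ z ≤ -c - (z - z0) / s) (hs : 0 < s) (hz0 : 0 ≤ z0)
    (A : ℝ) (hA : 0 ≤ A) (K : ℕ) :
    ∃ C : ℝ, ∃ D : ℕ, ∀ N : ℕ, 1 ≤ N → ∀ g : ℝ → ℂ,
      (∀ y : ℝ, ‖g y‖ ≤ (A * ((N : ℝ) + |y|)) ^ K * Real.exp (N * Ψ (|y| / N))) →
      ‖∫ y : ℝ, g y‖ ≤ C * (N : ℝ) ^ D * Real.exp (-(c * N)) := by
  set Q : ℝ := s ^ (K + 2) * ((K + 2).factorial : ℝ) * Real.exp (1 / s) with hQ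
  refine ⟨A ^ K * (z0 + 1) ^ (K + 2) * Q * Real.pi, K + (K + 2), fun N hN g hg => ?_⟩
  have hN' : (1 : ℝ) ≤ N := by exact_mod_cast hN
  set M : ℝ := A ^ K * (z0 + 1) ^ (K + 2) * Q * (N : ℝ) ^ (K + (K + 2)) * Real.exp (-(c * N))
    with hM
  have hpt : ∀ y : ℝ, ‖g y‖ ≤ M * (1 + y ^ 2)⁻¹ := by
    intro y
    refine le_trans (hg y) ?_
    set z := |y| with hz
    have hz0' : 0 ≤ z := abs_nonneg y
    have hzy : z ^ 2 = y ^ 2 := sq_abs y
    have h3 : Real.exp ((N : ℝ) * Ψ (z / N)) ≤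
        Real.exp (-(c * N)) * Real.exp (-(max 0 (z - z0 * N) / s)) := by
      rw [← Real.exp_add]
      exact Real.exp_le_exp.2 (decay Ψ c z0 s h1 h2 hs N hN z hz0')
    have h4 : (A * ((N : ℝ) + z)) ^ K ≤ (A * N) ^ K * (1 + z) ^ K := by
      rw [← mul_pow]
      refine pow_le_pow_left₀ (by positivity) ?_ K
      have h5 : (N : ℝ) + z ≤ N * (1 + z) := by nlinarith
      calc A * ((N : ℝ) + z) ≤ A * (N * (1 + z)) := mul_le_mul_of_nonneg_left h5 hA
        _ = A * N * (1 + z) := by ring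
    have h5 := growth s z0 hs hz0 (K + 2) N hN z hz0'
    rw [← hQ] at h5
    have h6 : (1 + z) ^ K * Real.exp (-(max 0 (z - z0 * N) / s)) ≤
        ((z0 + 1) * (N : ℝ)) ^ (K + 2) * Q * (1 + y ^ 2)⁻¹ := by
      rw [← div_eq_mul_inv, le_div_iff₀ (by positivity)]
      refine le_trans ?_ h5
      rw [← hzy, pow_add]
      have h7 : 1 + z ^ 2 ≤ (1 + z) ^ 2 := by nlinarith
      have h8 : 0 ≤ (1 + z) ^ K * Real.exp (-(max 0 (z - z0 * N) / s)) := by positivity
      calc (1 + z) ^ K * Real.exp (-(max 0 (z - z0 * N) / s)) * (1 + z ^ 2)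
          ≤ (1 + z) ^ K * Real.exp (-(max 0 (z - z0 * N) / s)) * (1 + z) ^ 2 :=
            mul_le_mul_of_nonneg_left h7 h8
        _ = (1 + z) ^ K * (1 + z) ^ 2 * Real.exp (-(max 0 (z - z0 * N) / s)) := by ring
    calc (A * ((N : ℝ) + z)) ^ K * Real.exp (N * Ψ (z / N))
        ≤ ((A * N) ^ K * (1 + z) ^ K) *
          (Real.exp (-(c * N)) * Real.exp (-(max 0 (z - z0 * N) / s))) := by
          gcongr
      _ = (A * N) ^ K * Real.exp (-(c * N)) *
          ((1 + z) ^ K * Real.exp (-(max 0 (z - z0 * N) / s))) := by ring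
      _ ≤ (A * N) ^ K * Real.exp (-(c * N)) *
          (((z0 + 1) * (N : ℝ)) ^ (K + 2) * Q * (1 + y ^ 2)⁻¹) :=
          mul_le_mul_of_nonneg_left h6 (by positivity)
      _ = M * (1 + y ^ 2)⁻¹ := by
          rw [hM, mul_pow, mul_pow, pow_add (N : ℝ) K (K + 2)]; ring
  have hint : MeasureTheory.Integrable (fun y : ℝ => M * (1 + y ^ 2)⁻¹) :=
    integrable_inv_one_add_sq.const_mul M
  have hfin := MeasureTheory.norm_integral_le_of_norm_le hint (MeasureTheory.ae_of_all _ hpt)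
  rw [MeasureTheory.integral_const_mul, integral_univ_inv_one_add_sq] at hfin
  refine le_trans hfin (le_of_eq ?_)
  rw [hM]; ring

end Pool.Agent.Z23
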