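import Pool.Agent.Z3.Assemble

/-!
Final assembly of the project Z23: from two sequences of linear forms with a common
leading coefficient to the linear independence of 1, z2, z3.
-/

open Filter Topology

namespace Pool.Agent.Z23

/-- The general assembly: linear forms `F2 N j = qq N j * z2 - p2 N j` and
`F3 N j = qq N j * z3 - p3 N j` (j = 0, 1, 2) with common denominators `DD N`. -/
theorem assemble (z2 z3 : ℝ) (qq p2 p3 : ℕ → ℕ → ℚ) (DD : ℕ → ℕ) (F2 F3 : ℕ → ℕ → ℂ)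
    (f δ : ℝ)
    (hDD : ∀ N, 1 ≤ N → 0 < DD N)
    (hF2 : ∀ N j, 1 ≤ N → j ≤ 2 → F2 N j = ((qq N j : ℚ) : ℂ) * (z2 : ℂ) - ((p2 N j : ℚ) : ℂ))
    (hF3 : ∀ N j, 1 ≤ N → j ≤ 2 → F3 N j = ((qq N j : ℚ) : ℂ) * (z3 : ℂ) - ((p3 N j : ℚ) : ℂ))
    (hnv : ∀ N, 1 ≤ N → ∀ x y : ℝ,
      (∀ j : ℕ, j ≤ 2 → (x : ℂ) * F2 N j + (y : ℂ) * F3 N j = 0) → x = 0 ∧ y = 0)
    (hb2 : ∃ C : ℝ, ∃ D : ℕ, ∀ N j : ℕ, 1 ≤ N → j ≤ 2 →
      ‖F2 N j‖ ≤ C * (N : ℝ) ^ D * Real.exp (-(f * N)))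
    (hb3 : ∃ C : ℝ, ∃ D : ℕ, ∀ N j : ℕ, 1 ≤ N → j ≤ 2 →
      ‖F3 N j‖ ≤ C * (N : ℝ) ^ D * Real.exp (-(f * N)))
    (hlog : ∀ᶠ N : ℕ in atTop, Real.log (DD N : ℝ) ≤ δ * N)
    (hint : ∀ N j : ℕ, 1 ≤ N → j ≤ 2 →
      (∃ z : ℤ, (DD N : ℚ) * qq N j = z) ∧ (∃ z : ℤ, (DD N : ℚ) * p2 N j = z) ∧
        ∃ z : ℤ, (DD N : ℚ) * p3 N j = z)
    (hδ : δ < f) (x y z : ℤ) (h : (x : ℝ) * z2 + (y : ℝ) * z3 + (z : ℝ) = 0) :
    x = 0 ∧ y = 0 ∧ z = 0 := by
  obtain ⟨C2, D2, hC2⟩ := hb2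
  obtain ⟨C3, D3, hC3⟩ := hb3
  obtain ⟨η, hη, hη2⟩ : ∃ η : ℝ, 0 < η ∧ δ + 2 * η ≤ f := ⟨(f - δ) / 2, by linarith, by linarith⟩
  -- the constant in front
  have hsmall : ∀ᶠ N : ℕ in atTop,
      (|(x : ℝ)| + |(y : ℝ)|) * Real.exp (-(η * N)) < 1 := by
    have h1 : Tendsto (fun N : ℕ => (|(x : ℝ)| + |(y : ℝ)|) * Real.exp (-(η * N))) atTop
        (𝓝 ((|(x : ℝ)| + |(y : ℝ)|) * 0)) := by
      refine Tendsto.const_mul _ ?_
      refine Real.tendsto_exp_neg_atTop_nhds_zero.comp ?_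
      exact tendsto_natCast_atTop_atTop.const_mul_atTop hη
    rw [mul_zero] at h1
    exact h1.eventually_lt_const one_pos
  obtain ⟨N, hN, hl, hp2, hp3, hs⟩ := ((eventually_ge_atTop 1).and (hlog.and
    ((Z3.poly_exp_le C2 D2 η hη).and ((Z3.poly_exp_le C3 D3 η hη).and hsmall)))).exists
  have hDpos : (0 : ℝ) < DD N := by exact_mod_cast hDD N hN
  have hDle : (DD N : ℝ) ≤ Real.exp (δ * N) := by
    rw [← Real.exp_log hDpos]
    exact Real.exp_le_exp.mpr hl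
  have hN0 : (0 : ℝ) ≤ N := Nat.cast_nonneg N
  -- each form times the denominator is small
  have hsm : ∀ (F : ℕ → ℕ → ℂ) (C : ℝ) (D : ℕ),
      (∀ j : ℕ, j ≤ 2 → ‖F N j‖ ≤ C * (N : ℝ) ^ D * Real.exp (-(f * N))) →
      C * (N : ℝ) ^ D ≤ Real.exp (η * N) →
      ∀ j : ℕ, j ≤ 2 → (DD N : ℝ) * ‖F N j‖ ≤ Real.exp (-(η * N)) := by
    intro F C D hF hp j hj
    calc (DD N : ℝ) * ‖F N j‖
        ≤ Real.exp (δ * N) * (C * (N : ℝ) ^ D * Real.exp (-(f * N))) :=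
          mul_le_mul hDle (hF j hj) (norm_nonneg _) (Real.exp_pos _).le
      _ ≤ Real.exp (δ * N) * (Real.exp (η * N) * Real.exp (-(f * N))) := by gcongr
      _ = Real.exp ((δ + η - f) * N) := by
          rw [← Real.exp_add, ← Real.exp_add]
          congr 1
          ring
      _ ≤ Real.exp (-(η * N)) := by
          apply Real.exp_le_exp.mpr
          nlinarith
  have h2 := hsm F2 C2 D2 (fun j hj => hC2 N j hN hj) hp2
  have h3 := hsm F3 C3 D3 (fun j hj => hC3 N j hN hj) hp3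
  have key : ∀ j : ℕ, j ≤ 2 → ((x : ℝ) : ℂ) * F2 N j + ((y : ℝ) : ℂ) * F3 N j = 0 := by
    intro j hj
    obtain ⟨⟨a, ha⟩, ⟨b, hb⟩, ⟨c, hc⟩⟩ := hint N j hN hj
    -- the integer
    have e1 : (DD N : ℂ) * (((x : ℝ) : ℂ) * F2 N j + ((y : ℝ) : ℂ) * F3 N j) =
        ((-(z * a) - x * b - y * c : ℤ) : ℂ) := by
      rw [hF2 N j hN hj, hF3 N j hN hj]
      have ha' : (DD N : ℂ) * ((qq N j : ℚ) : ℂ) = (a : ℂ) := by exact_mod_cast ha
      have hb' : (DD N : ℂ) * ((p2 N j : ℚ) : ℂ) = (b : ℂ) := by exact_mod_cast hb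
      have hc' : (DD N : ℂ) * ((p3 N j : ℚ) : ℂ) = (c : ℂ) := by exact_mod_cast hc
      have hz : (x : ℂ) * (z2 : ℂ) + (y : ℂ) * (z3 : ℂ) = -(z : ℂ) := by
        have hh : (x : ℝ) * z2 + (y : ℝ) * z3 = -(z : ℝ) := by linarith
        exact_mod_cast hh
      push_cast
      linear_combination (x * z2 + y * z3 : ℂ) * ha' - x * hb' - y * hc' + (a : ℂ) * hz
    have e2 : ‖(DD N : ℂ) * (((x : ℝ) : ℂ) * F2 N j + ((y : ℝ) : ℂ) * F3 N j)‖ < 1 := by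
      rw [norm_mul, Complex.norm_natCast]
      calc (DD N : ℝ) * ‖((x : ℝ) : ℂ) * F2 N j + ((y : ℝ) : ℂ) * F3 N j‖
          ≤ (DD N : ℝ) * (|(x : ℝ)| * ‖F2 N j‖ + |(y : ℝ)| * ‖F3 N j‖) := by
            apply mul_le_mul_of_nonneg_left _ hDpos.le
            refine (norm_add_le _ _).trans ?_
            rw [norm_mul, norm_mul, Complex.norm_real, Complex.norm_real, Real.norm_eq_abs,
              Real.norm_eq_abs]
        _ = |(x : ℝ)| * ((DD N : ℝ) * ‖F2 N j‖) + |(y : ℝ)| * ((DD N : ℝ) * ‖F3 N j‖) := by ring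
        _ ≤ |(x : ℝ)| * Real.exp (-(η * N)) + |(y : ℝ)| * Real.exp (-(η * N)) := by
            gcongr
            · exact h2 j hj
            · exact h3 j hj
        _ = (|(x : ℝ)| + |(y : ℝ)|) * Real.exp (-(η * N)) := by ring
        _ < 1 := hs
    rw [e1] at e2
    have e3 : (-(z * a) - x * b - y * c : ℤ) = 0 := by
      rw [Complex.norm_intCast] at e2
      have : |(-(z * a) - x * b - y * c : ℤ)| < 1 := by exact_mod_cast e2
      exact Int.abs_lt_one_iff.mp this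
    rw [e3, Int.cast_zero] at e1
    rcases mul_eq_zero.mp e1 with h0 | h0
    · exact absurd h0 (by exact_mod_cast (hDD N hN).ne')
    · exact h0
  obtain ⟨hx, hy⟩ := hnv N hN x y key
  have hx' : x = 0 := by exact_mod_cast hx
  have hy' : y = 0 := by exact_mod_cast hy
  refine ⟨hx', hy', ?_⟩
  rw [hx', hy'] at h
  have : (z : ℝ) = 0 := by simpa using h
  exact_mod_cast this

/-- From integer relations to linear independence over the rationals. -/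
theorem linInd_of_int (z2 z3 : ℝ)
    (h : ∀ x y z : ℤ, (x : ℝ) * z2 + (y : ℝ) * z3 + (z : ℝ) = 0 → x = 0 ∧ y = 0 ∧ z = 0) :
    LinearIndependent ℚ ![(1 : ℝ), z2, z3] := by
  rw [Fintype.linearIndependent_iff]
  intro g hg
  have hg' : (g 0 : ℝ) + (g 1 : ℝ) * z2 + (g 2 : ℝ) * z3 = 0 := by
    simpa [Fin.sum_univ_three, Rat.smul_def] using hg
  have hden : ∀ q : ℚ, (q : ℝ) * (q.den : ℝ) = (q.num : ℝ) := by
    intro q
    have : q * (q.den : ℚ) = (q.num : ℚ) := Rat.mul_den_eq_num q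
    exact_mod_cast this
  have hd0 : ∀ q : ℚ, (q.den : ℤ) ≠ 0 := fun q => by exact_mod_cast q.den_ne_zero
  have h0 := hden (g 0)
  have h1 := hden (g 1)
  have h2 := hden (g 2)
  obtain ⟨hx, hy, hz⟩ := h ((g 1).num * ((g 0).den * (g 2).den)) ((g 2).num * ((g 0).den * (g 1).den))
    ((g 0).num * ((g 1).den * (g 2).den)) (by
      push_cast
      rw [← h0, ← h1, ← h2]
      linear_combination ((g 0).den * (g 1).den * (g 2).den : ℝ) * hg')
  have k0 : g 0 = 0 := by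
    rcases mul_eq_zero.mp hz with h | h
    · exact Rat.num_eq_zero.mp h
    · exact absurd h (mul_ne_zero (hd0 _) (hd0 _))
  have k1 : g 1 = 0 := by
    rcases mul_eq_zero.mp hx with h | h
    · exact Rat.num_eq_zero.mp h
    · exact absurd h (mul_ne_zero (hd0 _) (hd0 _))
  have k2 : g 2 = 0 := by
    rcases mul_eq_zero.mp hy with h | h
    · exact Rat.num_eq_zero.mp h
    · exact absurd h (mul_ne_zero (hd0 _) (hd0 _))
  intro i
  fin_cases i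
  · exact k0
  · exact k1
  · exact k2

end Pool.Agent.Z23
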