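import Pool.Agent.Z23.FitG

/-!
The cancellation in a gap with phi = -1, arbitrary interval blocks.
-/

open Finset
open scoped BigOperators

namespace Pool.Agent.Z23

open Pool.Agent.Z3 (H H_struct)
open Pool.Agent.Z3.TermAux (cnt norm_H_le norm_H_small)

section

variable {Zs Hs : List (Finset ℕ)} {K1 K2 : Finset ℕ} {p : ℕ}

/-- the part of a term of P3 which depends only on the quotient k/p -/
def ZkL (Zs Hs : List (Finset ℕ)) (K1 K2 : Finset ℕ) (a p k : ℕ) : ℚ :=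
  if k ∈ K2 then WL Zs Hs K1 K2 p k * (2 * H 3 ((k - a) / p) + LamL Zs Hs K1 K2 p k * H 2 ((k - a) / p))
  else WL Zs Hs K1 K2 p k * H 2 ((k - a) / p)

theorem norm_ZkL (h : Adm Zs Hs K1 K2 p) (a : ℕ) {k : ℕ} (hk : k ∈ K1) :
    padicNorm p (ZkL Zs Hs K1 K2 a p k) ≤ 1 := by
  have := Fact.mk h.hp
  have hm : k - a < p ^ 2 := lt_of_le_of_lt (Nat.sub_le _ _) (lt_sq (h.bK k hk))
  have h3 := (H_struct 3 (k - a) p h.hp hm).2
  have h2 := (H_struct 2 (k - a) p h.hp hm).2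
  have hW := (norm_WL h hk).le
  have hL := norm_LamL h hk
  unfold ZkL
  split_ifs
  · refine nmul1 hW (nadd (nmul1 ?_ h3) (nmul1 hL h2))
    exact_mod_cast nint (p := p) 2
  · exact nmul1 hW h2

/-- one term of P3 -/
def tkL (Zs Hs : List (Finset ℕ)) (K1 K2 : Finset ℕ) (a j k : ℕ) : ℚ :=
  2 * AL Zs Hs K1 K2 j k * H 3 (k - a) + BL Zs Hs K1 K2 j k * H 2 (k - a)

theorem term_mainL (h : Adm Zs Hs K1 K2 p) (a j : ℕ) {k : ℕ} (hk : k ∈ K1) :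
    padicNorm p (tkL Zs Hs K1 K2 a j k - (p : ℚ) ^ (phiL Zs Hs K1 K2 p (k % p) - 1) *
      ((-(k : ℚ)) ^ j * UL Zs Hs K1 K2 p k * ZkL Zs Hs K1 K2 a p k)) ≤
      (p : ℚ) ^ (-(phiL Zs Hs K1 K2 p (k % p))) := by
  have := Fact.mk h.hp
  have hp := h.hp
  have hp0 : (p : ℚ) ≠ 0 := by exact_mod_cast hp.ne_zero
  have hm : k - a < p ^ 2 := lt_of_le_of_lt (Nat.sub_le _ _) (lt_sq (h.bK k hk))
  obtain ⟨h3, h3'⟩ := H_struct 3 (k - a) p hp hm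
  obtain ⟨h2, h2'⟩ := H_struct 2 (k - a) p hp hm
  have hW := norm_WL h hk
  have hU := norm_UL h k
  have hL := norm_LamL h hk
  set φ := phiL Zs Hs K1 K2 p (k % p) with hφ
  set m := k - a with hmdef
  obtain ⟨e3, he3⟩ : ∃ e3, e3 = H 3 m - H 3 (m / p) / (p : ℚ) ^ 3 := ⟨_, rfl⟩
  obtain ⟨e2, he2⟩ : ∃ e2, e2 = H 2 m - H 2 (m / p) / (p : ℚ) ^ 2 := ⟨_, rfl⟩
  rw [← he3] at h3
  rw [← he2] at h2
  have hH3 : H 3 m = H 3 (m / p) / (p : ℚ) ^ 3 + e3 := by rw [he3]; ring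
  have hH2 : H 2 m = H 2 (m / p) / (p : ℚ) ^ 2 + e2 := by rw [he2]; ring
  have hp2n : padicNorm p ((p : ℚ) ^ 2)⁻¹ ≤ (p : ℚ) ^ (2 : ℤ) := by
    have : ((p : ℚ) ^ 2)⁻¹ = (p : ℚ) ^ (-2 : ℤ) := by rw [zpow_neg]; norm_cast
    rw [this, npz, neg_neg]
  have hp1n : padicNorm p ((p : ℚ))⁻¹ ≤ (p : ℚ) ^ (1 : ℤ) := by
    have : ((p : ℚ))⁻¹ = (p : ℚ) ^ (-1 : ℤ) := by rw [zpow_neg, zpow_one]
    rw [this, npz, neg_neg]
  by_cases hk2 : k ∈ K2
  · have hA0 := A0L_struct h hk2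
    rw [← hφ] at hA0
    have hnA : padicNorm p (A0L Zs Hs K1 K2 k) = (p : ℚ) ^ (-φ - 2) := by
      rw [hA0, padicNorm.mul, padicNorm.mul, hW, hU, npz, mul_one, mul_one]
      congr 1
      ring
    obtain ⟨l, hl⟩ : ∃ l, l = LL Zs Hs K1 K2 k - LamL Zs Hs K1 K2 p k / p := ⟨_, rfl⟩
    have hl1 := LL_struct h hk
    rw [← hl] at hl1
    have hL0 : LL Zs Hs K1 K2 k = LamL Zs Hs K1 K2 p k / p + l := by rw [hl]; ring
    have hB : BL Zs Hs K1 K2 j k = (-(k : ℚ)) ^ j * (A0L Zs Hs K1 K2 k * LL Zs Hs K1 K2 k) +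
        (j : ℚ) * (-(k : ℚ)) ^ (j - 1) * A0L Zs Hs K1 K2 k := by
      unfold BL
      rw [B0L_double hk2]
    have hAj : AL Zs Hs K1 K2 j k = (-(k : ℚ)) ^ j * A0L Zs Hs K1 K2 k := rfl
    have hZ : ZkL Zs Hs K1 K2 a p k = WL Zs Hs K1 K2 p k * (2 * H 3 (m / p) + LamL Zs Hs K1 K2 p k * H 2 (m / p)) := by
      unfold ZkL
      rw [if_pos hk2]
    have hz : (p : ℚ) ^ (φ - 1) = (p : ℚ) ^ (φ + 2) * ((p : ℚ) ^ 3)⁻¹ := by
      have : ((p : ℚ) ^ 3)⁻¹ = (p : ℚ) ^ (-3 : ℤ) := by rw [zpow_neg]; norm_cast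
      rw [this, ← zpow_add₀ hp0]
      congr 1
      ring
    have key : tkL Zs Hs K1 K2 a j k - (p : ℚ) ^ (φ - 1) * ((-(k : ℚ)) ^ j * UL Zs Hs K1 K2 p k * ZkL Zs Hs K1 K2 a p k) =
        A0L Zs Hs K1 K2 k * ((2 * ((-(k : ℚ)) ^ j * e3) + (-(k : ℚ)) ^ j * (LamL Zs Hs K1 K2 p k * ((p : ℚ))⁻¹ * e2)) +
          ((-(k : ℚ)) ^ j * l + (j : ℚ) * (-(k : ℚ)) ^ (j - 1)) * (H 2 (m / p) * ((p : ℚ) ^ 2)⁻¹ + e2)) := by
      have hmain : (p : ℚ) ^ (φ - 1) * ((-(k : ℚ)) ^ j * UL Zs Hs K1 K2 p k * ZkL Zs Hs K1 K2 a p k) =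
          A0L Zs Hs K1 K2 k * (-(k : ℚ)) ^ j * ((p : ℚ) ^ 3)⁻¹ *
            (2 * H 3 (m / p) + LamL Zs Hs K1 K2 p k * H 2 (m / p)) := by
        rw [hZ, hz, hA0]
        ring
      rw [hmain]
      unfold tkL
      rw [← hmdef, hB, hAj, hL0, hH3, hH2]
      field_simp
      ring
    rw [key]
    have hE : padicNorm p ((2 * ((-(k : ℚ)) ^ j * e3) + (-(k : ℚ)) ^ j * (LamL Zs Hs K1 K2 p k * ((p : ℚ))⁻¹ * e2)) +
          ((-(k : ℚ)) ^ j * l + (j : ℚ) * (-(k : ℚ)) ^ (j - 1)) * (H 2 (m / p) * ((p : ℚ) ^ 2)⁻¹ + e2)) ≤ (p : ℚ) ^ (2 : ℤ) := by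
      have h1p : (1 : ℚ) ≤ (p : ℚ) ^ (2 : ℤ) := by
        have := pz_le (p := p) (a := 0) (b := 2) (by norm_num)
        simpa using this
      have hpp : (p : ℚ) ^ (1 : ℤ) ≤ (p : ℚ) ^ (2 : ℤ) := pz_le (by norm_num)
      refine nadd (nadd ?_ ?_) ?_
      · refine le_trans (nmul1 ?_ (nmul1 (nkj k j) h3)) h1p
        exact_mod_cast nint (p := p) 2
      · refine nmul1 (nkj k j) (nmul2 ?_ h2)
        exact (nmul1 hL hp1n).trans hpp
      · refine nmul1 (nadd (nmul1 (nkj k j) hl1) (nmul1 ?_ (nkj k _))) (nadd (nmul1 h2' hp2n) (h2.trans h1p))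
        exact_mod_cast nint (p := p) (j : ℤ)
    refine (nmul hnA.le hE).trans (le_of_eq ?_)
    rw [← zpow_add₀ hp0]
    congr 1
    ring
  · have hB0 := B0L_struct h hk hk2
    rw [← hφ] at hB0
    have hA0 : A0L Zs Hs K1 K2 k = 0 := A0L_zero hk2
    have hnB : padicNorm p (B0L Zs Hs K1 K2 k) = (p : ℚ) ^ (-φ - 1) := by
      rw [hB0, padicNorm.mul, padicNorm.mul, hW, hU, npz, mul_one, mul_one]
      congr 1
      ring
    have hB : BL Zs Hs K1 K2 j k = (-(k : ℚ)) ^ j * B0L Zs Hs K1 K2 k := by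
      unfold BL
      rw [hA0]
      ring
    have hAj : AL Zs Hs K1 K2 j k = 0 := by unfold AL; rw [hA0, mul_zero]
    have hZ : ZkL Zs Hs K1 K2 a p k = WL Zs Hs K1 K2 p k * H 2 (m / p) := by
      unfold ZkL
      rw [if_neg hk2]
    have hz : (p : ℚ) ^ (φ - 1) = (p : ℚ) ^ (φ + 1) * ((p : ℚ) ^ 2)⁻¹ := by
      have : ((p : ℚ) ^ 2)⁻¹ = (p : ℚ) ^ (-2 : ℤ) := by rw [zpow_neg]; norm_cast
      rw [this, ← zpow_add₀ hp0]
      congr 1
      ring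
    have key : tkL Zs Hs K1 K2 a j k - (p : ℚ) ^ (φ - 1) * ((-(k : ℚ)) ^ j * UL Zs Hs K1 K2 p k * ZkL Zs Hs K1 K2 a p k) =
        B0L Zs Hs K1 K2 k * ((-(k : ℚ)) ^ j * e2) := by
      have hmain : (p : ℚ) ^ (φ - 1) * ((-(k : ℚ)) ^ j * UL Zs Hs K1 K2 p k * ZkL Zs Hs K1 K2 a p k) =
          B0L Zs Hs K1 K2 k * (-(k : ℚ)) ^ j * ((p : ℚ) ^ 2)⁻¹ * H 2 (m / p) := by
        rw [hZ, hz, hB0]
        ring
      rw [hmain]
      unfold tkL
      rw [← hmdef, hB, hAj, hH2]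
      ring
    rw [key]
    refine (nmul2 hnB.le (nmul1 (nkj k j) h2)).trans (pz_le ?_)
    linarith

/-- termwise bound of the coefficient sum -/
theorem q_termwise (h : Adm Zs Hs K1 K2 p) (m : ℤ) (hm : ∀ k ∈ K1, m ≤ phiL Zs Hs K1 K2 p (k % p)) (j : ℕ) :
    padicNorm p (∑ k ∈ K1, AL Zs Hs K1 K2 j k) ≤ (p : ℚ) ^ (-(m + 2)) := by
  have := Fact.mk h.hp
  exact padicNorm.sum_le' (fun k hk => (norm_AL_le j k).trans (norm_A0L_le h (hm k hk))) (pz_nonneg _ _)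

/-- termwise bound of P2 -/
theorem P2_termwise (h : Adm Zs Hs K1 K2 p) (U : ℕ) (m : ℤ) (hm : ∀ k ∈ K1, m ≤ phiL Zs Hs K1 K2 p (k % p)) (j : ℕ) :
    padicNorm p (P2 K1 (AL Zs Hs K1 K2 j) (BL Zs Hs K1 K2 j) U) ≤ (p : ℚ) ^ (-m) := by
  have := Fact.mk h.hp
  have hp0 : (p : ℚ) ≠ 0 := by exact_mod_cast h.hp.ne_zero
  have i2 : padicNorm p (2 : ℚ) ≤ 1 := by exact_mod_cast nint (p := p) 2
  have i4 : padicNorm p (4 : ℚ) ≤ 1 := by exact_mod_cast nint (p := p) 4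
  unfold P2
  refine padicNorm.sum_le' (fun k hk => nadd ?_ ?_) (pz_nonneg _ _)
  · have hkm : 2 * k - U < p ^ 2 := by have := h.bK k hk; omega
    refine (nmul (nmul1 i4 ((norm_AL_le j k).trans (norm_A0L_le h (hm k hk)))) (norm_AH_le p 2 _ h.hp hkm)).trans
      (le_of_eq ?_)
    rw [← zpow_natCast, ← zpow_add₀ hp0]
    congr 1
    push_cast
    ring
  · have hkm : 2 * k - U < p ^ 2 := by have := h.bK k hk; omega
    have hB : padicNorm p (BL Zs Hs K1 K2 j k) ≤ (p : ℚ) ^ (-(m + 1)) :=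
      (norm_BL_le j k).trans (max_le (norm_B0L_le h hk (hm k hk))
        ((norm_A0L_le h (hm k hk)).trans (pz_le (by linarith))))
    refine (nmul (nmul1 i2 hB) (norm_AH_le p 1 _ h.hp hkm)).trans (le_of_eq ?_)
    rw [← zpow_natCast, ← zpow_add₀ hp0]
    congr 1
    push_cast
    ring

end

section

variable {ι : Type*} [Fintype ι] {zs hs : List (ℕ × ℕ)} {k1 l1 k2 l2 p : ℕ} {al be : ι → ℕ}

theorem ZkL_gap {s1 s2 a : ℕ} {pi : Equiv.Perm ι} (F : Fit zs hs k1 l1 k2 l2 p al be)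
    (g : GapG p al be s1 s2 pi) (ha : a % p ≤ s1 ∨ s2 ≤ a % p) {k : ℕ} (h1 : s1 ≤ k % p)
    (h2 : k % p < s2) : (k ∈ Ico k1 l1 ↔ k / p * p + s1 ∈ Ico k1 l1) ∧
      ZkL (ZI zs) (ZI hs) (Ico k1 l1) (Ico k2 l2) a p k =
        ZkL (ZI zs) (ZI hs) (Ico k1 l1) (Ico k2 l2) a p (k / p * p + s1) := by
  have hp := g.hp.pos
  have hs1 : s1 < p := lt_of_lt_of_le g.h12 g.h2p
  have e1 : (k / p * p + s1) % p = s1 := by
    rw [add_comm, Nat.add_mul_mod_self_right, Nat.mod_eq_of_lt hs1]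
  have e2 : (k / p * p + s1) / p = k / p := by
    rw [add_comm, Nat.add_mul_div_right _ _ hp, Nat.div_eq_of_lt hs1, zero_add]
  obtain ⟨c1, c2, c3, c4⟩ := gap_constG F g (k := k) (k' := k / p * p + s1) h1 h2 (by rw [e1])
    (by rw [e1]; exact g.h12) e2.symm
  have c5 := cg_div hp (k := k) (k' := k / p * p + s1) h1 h2 (by rw [e1]) (by rw [e1]; exact g.h12) e2.symm ha
  refine ⟨c1, ?_⟩
  unfold ZkL
  rw [c3, c4, c5]
  simp only [c2]

theorem sum_gapG {s1 s2 a : ℕ} {pi : Equiv.Perm ι}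
    (h : Adm (ZI zs) (ZI hs) (Ico k1 l1) (Ico k2 l2) p) (F : Fit zs hs k1 l1 k2 l2 p al be)
    (g : GapG p al be s1 s2 pi) (ha : a % p ≤ s1 ∨ s2 ≤ a % p) (j : ℕ) (hj : j ≤ 2) :
    padicNorm p (∑ k ∈ (Ico k1 l1).filter (fun k => s1 ≤ k % p ∧ k % p < s2), (-(k : ℚ)) ^ j *
      UL (ZI zs) (ZI hs) (Ico k1 l1) (Ico k2 l2) p k * ZkL (ZI zs) (ZI hs) (Ico k1 l1) (Ico k2 l2) a p k) ≤
      (p : ℚ)⁻¹ := by
  have hF : Fact p.Prime := ⟨g.hp⟩
  have hp := g.hp.pos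
  have hpinv : (0 : ℚ) ≤ (p : ℚ)⁻¹ := by positivity
  have hs1p : s1 < p := lt_of_lt_of_le g.h12 g.h2p
  obtain ⟨c, hc1, hc⟩ := UL_congr h.h2 F g
  set Fs := (Ico k1 l1).filter (fun k => s1 ≤ k % p ∧ k % p < s2) with hFdef
  set Uf : ℕ → ℚ := fun k => UL (ZI zs) (ZI hs) (Ico k1 l1) (Ico k2 l2) p k with hUf
  set Zf : ℕ → ℚ := fun k => ZkL (ZI zs) (ZI hs) (Ico k1 l1) (Ico k2 l2) a p k with hZf
  have hmem : ∀ k ∈ Fs, k ∈ Ico k1 l1 ∧ s1 ≤ k % p ∧ k % p < s2 := by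
    intro k hk
    rw [hFdef, mem_filter] at hk
    exact hk
  have hrep : padicNorm p (∑ k ∈ Fs, ((-(k : ℚ)) ^ j * Uf k * Zf k -
      (-((k % p : ℕ) : ℚ)) ^ j * (c * (PvG p al be pi (k % p : ℕ) : ℚ)) * Zf (k / p * p + s1))) ≤ (p : ℚ)⁻¹ := by
    refine padicNorm.sum_le' (fun k hk => ?_) hpinv
    obtain ⟨h1, h2, h3⟩ := hmem k hk
    rw [← show Zf k = Zf (k / p * p + s1) from (ZkL_gap F g ha h2 h3).2]
    have e : (-(k : ℚ)) ^ j * Uf k * Zf k - (-((k % p : ℕ) : ℚ)) ^ j * (c * (PvG p al be pi (k % p : ℕ) : ℚ)) * Zf k =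
        (((-(k : ℚ)) ^ j - (-((k % p : ℕ) : ℚ)) ^ j) * Uf k +
          (-((k % p : ℕ) : ℚ)) ^ j * (Uf k - c * (PvG p al be pi (k % p : ℕ) : ℚ))) * Zf k := by ring
    rw [e]
    refine nmul2 (nadd (nmul2 ?_ (norm_UL h k).le) (nmul1 (nkj _ _) (hc k h2 h3))) (norm_ZkL h a h1)
    have h4 : (p : ℤ) ∣ (-(k : ℤ)) ^ j - (-((k % p : ℕ) : ℤ)) ^ j := by
      refine dvd_trans ?_ (sub_dvd_pow_sub_pow _ _ j)
      have : (-(k : ℤ)) - (-((k % p : ℕ) : ℤ)) = -((k : ℤ) - ((k % p : ℕ) : ℤ)) := by ring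
      rw [this, dvd_neg]
      push_cast
      exact Int.dvd_self_sub_emod
    have h5 : (-(k : ℚ)) ^ j - (-((k % p : ℕ) : ℚ)) ^ j = (((-(k : ℤ)) ^ j - (-((k % p : ℕ) : ℤ)) ^ j : ℤ) : ℚ) := by
      rw [Int.cast_sub, Int.cast_pow, Int.cast_pow, Int.cast_neg, Int.cast_neg, Int.cast_natCast, Int.cast_natCast]
    rw [h5]
    have h6 := (padicNorm.dvd_iff_norm_le (p := p) (n := 1) (z := (-(k : ℤ)) ^ j - (-((k % p : ℕ) : ℤ)) ^ j)).mp
      (by rw [pow_one]; exact h4)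
    simpa using h6
  have hsum : ∑ k ∈ Fs, (-((k % p : ℕ) : ℚ)) ^ j * (c * (PvG p al be pi (k % p : ℕ) : ℚ)) * Zf (k / p * p + s1) =
      (∑ l ∈ (range l1).filter (fun l => l * p + s1 ∈ Ico k1 l1), c * Zf (l * p + s1)) *
        ((∑ s ∈ Ico s1 s2, (-(s : ℤ)) ^ j * PvG p al be pi s : ℤ) : ℚ) := by
    rw [Int.cast_sum, Finset.sum_mul_sum, ← Finset.sum_product']
    refine Finset.sum_nbij' (fun k => (k / p, k % p)) (fun x => x.1 * p + x.2) ?_ ?_ ?_ ?_ ?_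
    · intro k hk
      obtain ⟨h1, h2, h3⟩ := hmem k hk
      rw [mem_product, mem_filter, mem_range, Finset.mem_Ico (a := s1)]
      refine ⟨⟨?_, (ZkL_gap F g ha h2 h3).1.mp h1⟩, h2, h3⟩
      have h4 : k / p ≤ k := Nat.div_le_self _ _
      rw [mem_Ico] at h1
      dsimp only
      omega
    · rintro ⟨l, s⟩ hx
      rw [mem_product, mem_filter, mem_range, Finset.mem_Ico (a := s1)] at hx
      obtain ⟨⟨h1, h2⟩, h3, h4⟩ := hx
      dsimp only at h1 h2 h3 h4 ⊢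
      have hsp : s < p := lt_of_lt_of_le h4 g.h2p
      have e1 : (l * p + s) % p = s := by
        rw [add_comm, Nat.add_mul_mod_self_right, Nat.mod_eq_of_lt hsp]
      have e2 : (l * p + s) / p = l := by
        rw [add_comm, Nat.add_mul_div_right _ _ hp, Nat.div_eq_of_lt hsp, zero_add]
      rw [hFdef, mem_filter, e1]
      refine ⟨?_, h3, h4⟩
      have := (ZkL_gap F g ha (k := l * p + s) (by rw [e1]; exact h3) (by rw [e1]; exact h4)).1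
      rw [e2] at this
      exact this.mpr h2
    · intro k _
      exact Nat.div_add_mod' k p
    · rintro ⟨l, s⟩ hx
      rw [mem_product, mem_filter, mem_range, Finset.mem_Ico (a := s1)] at hx
      obtain ⟨-, h3, h4⟩ := hx
      dsimp only at h3 h4 ⊢
      have hsp : s < p := lt_of_lt_of_le h4 g.h2p
      have e1 : (l * p + s) % p = s := by
        rw [add_comm, Nat.add_mul_mod_self_right, Nat.mod_eq_of_lt hsp]
      have e2 : (l * p + s) / p = l := by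
        rw [add_comm, Nat.add_mul_div_right _ _ hp, Nat.div_eq_of_lt hsp, zero_add]
      rw [e1, e2]
    · intro k _
      dsimp only
      rw [Int.cast_mul, Int.cast_pow, Int.cast_neg, Int.cast_natCast]
      ring
  have hS1 : padicNorm p (∑ l ∈ (range l1).filter (fun l => l * p + s1 ∈ Ico k1 l1), c * Zf (l * p + s1)) ≤ 1 := by
    refine padicNorm.sum_le' (fun l hl => ?_) zero_le_one
    rw [mem_filter] at hl
    exact nmul1 hc1 (norm_ZkL h a hl.2)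
  have hS2 : padicNorm p ((∑ s ∈ Ico s1 s2, (-(s : ℤ)) ^ j * PvG p al be pi s : ℤ) : ℚ) ≤ (p : ℚ)⁻¹ := by
    have h6 := (padicNorm.dvd_iff_norm_le (p := p) (n := 1) (z := ∑ s ∈ Ico s1 s2, (-(s : ℤ)) ^ j * PvG p al be pi s)).mp
      (by rw [pow_one]; exact sum_PvG g j hj)
    simpa using h6
  have hfin := nadd hrep (nmul1 hS1 hS2)
  rw [← hsum, ← Finset.sum_add_distrib] at hfin
  simpa using hfin

/-- the cancellation: w = 1 -/
theorem cancelG {s1 s2 : ℕ} (a U : ℕ) {pi : Equiv.Perm ι}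
    (h : Adm (ZI zs) (ZI hs) (Ico k1 l1) (Ico k2 l2) p) (F : Fit zs hs k1 l1 k2 l2 p al be)
    (g : GapG p al be s1 s2 pi) (ha : a % p ≤ s1 ∨ s2 ≤ a % p) :
    PB (ZI zs) (ZI hs) (Ico k1 l1) (Ico k2 l2) a U p 1 := by
  have hF : Fact p.Prime := ⟨g.hp⟩
  have hp := g.hp.pos
  have hp0 : (p : ℚ) ≠ 0 := by exact_mod_cast g.hp.ne_zero
  have hpe : ∀ k : ℕ, phiL (ZI zs) (ZI hs) (Ico k1 l1) (Ico k2 l2) p (k % p) = phiG p al be (k % p) :=
    fun k => F.phi_eq hp (Nat.mod_lt _ hp)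
  have hphi : ∀ k : ℕ, -1 ≤ phiL (ZI zs) (ZI hs) (Ico k1 l1) (Ico k2 l2) p (k % p) := fun k => by
    rw [hpe]
    exact g.hphi _ (Nat.mod_lt _ hp)
  intro j hj
  refine ⟨(q_termwise h (-1) (fun k _ => hphi k) j).trans (pz_le (by norm_num)),
    (P2_termwise h U (-1) (fun k _ => hphi k) j).trans (pz_le (by norm_num)), ?_⟩
  have hb : P3 (Ico k1 l1) (AL (ZI zs) (ZI hs) (Ico k1 l1) (Ico k2 l2) j)
      (BL (ZI zs) (ZI hs) (Ico k1 l1) (Ico k2 l2) j) a =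
      ∑ k ∈ Ico k1 l1, tkL (ZI zs) (ZI hs) (Ico k1 l1) (Ico k2 l2) a j k := rfl
  rw [hb]
  set ph : ℕ → ℤ := fun k => phiL (ZI zs) (ZI hs) (Ico k1 l1) (Ico k2 l2) p (k % p) with hph
  set T : ℕ → ℚ := fun k => (-(k : ℚ)) ^ j * UL (ZI zs) (ZI hs) (Ico k1 l1) (Ico k2 l2) p k *
    ZkL (ZI zs) (ZI hs) (Ico k1 l1) (Ico k2 l2) a p k with hT
  have h1 : padicNorm p (∑ k ∈ Ico k1 l1, (tkL (ZI zs) (ZI hs) (Ico k1 l1) (Ico k2 l2) a j k -
      (p : ℚ) ^ (ph k - 1) * T k)) ≤ (p : ℚ) ^ (1 : ℤ) := by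
    refine padicNorm.sum_le' (fun k hk => ?_) (pz_nonneg _ _)
    refine (term_mainL h a j hk).trans (pz_le ?_)
    have := hphi k
    linarith
  have h2 : padicNorm p (∑ k ∈ Ico k1 l1, (p : ℚ) ^ (ph k - 1) * T k) ≤ (p : ℚ) ^ (1 : ℤ) := by
    rw [← Finset.sum_filter_add_sum_filter_not (Ico k1 l1) (fun k => s1 ≤ k % p ∧ k % p < s2)]
    refine nadd ?_ ?_
    · have e : ∑ k ∈ (Ico k1 l1).filter (fun k => s1 ≤ k % p ∧ k % p < s2), (p : ℚ) ^ (ph k - 1) * T k =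
          (p : ℚ) ^ (-2 : ℤ) * ∑ k ∈ (Ico k1 l1).filter (fun k => s1 ≤ k % p ∧ k % p < s2), T k := by
        rw [Finset.mul_sum]
        refine Finset.sum_congr rfl fun k hk => ?_
        rw [mem_filter] at hk
        have : ph k = -1 := by
          rw [hph]
          simp only
          rw [hpe]
          exact phiG_gap g hk.2.1 hk.2.2
        rw [this]
        norm_num
      rw [e]
      have h3 : padicNorm p ((p : ℚ) ^ (-2 : ℤ)) ≤ (p : ℚ) ^ (2 : ℤ) := by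
        rw [npz]
        norm_num
      refine (nmul h3 (sum_gapG h F g ha j hj)).trans (le_of_eq ?_)
      rw [← zpow_neg_one, ← zpow_add₀ hp0]
      norm_num
    · refine padicNorm.sum_le' (fun k hk => ?_) (pz_nonneg _ _)
      rw [mem_filter] at hk
      have hph0 : 0 ≤ ph k := by
        have h3 := hphi k
        by_contra hlt
        push Not at hlt
        have h4 : ph k = -1 := by
          have : -1 ≤ ph k := h3
          omega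
        rw [hph] at h4
        simp only at h4
        rw [hpe] at h4
        exact hk.2 (g.hout _ (Nat.mod_lt _ hp) h4)
      have h5 : padicNorm p ((p : ℚ) ^ (ph k - 1)) ≤ (p : ℚ) ^ (1 : ℤ) := by
        rw [npz]
        refine pz_le ?_
        linarith
      refine nmul2 h5 ?_
      exact nmul1 (nmul1 (nkj k j) (norm_UL h k).le) (norm_ZkL h a hk.1)
  have h3 := nadd h1 h2
  rw [← Finset.sum_add_distrib] at h3
  simpa using h3

end

end Pool.Agent.Z23
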