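import Pool.Agent.Z23.TermG
import Pool.Agent.Z23.Conf

/-!
Termwise p-adic bounds for the frozen configuration.
-/

open Finset
open scoped BigOperators

namespace Pool.Agent.Z23

theorem PBD_of_PB (d : BD) (a U p w : ℕ) (hp : p.Prime) (h : PB d.Zs d.Hs d.K1 d.K2 a U p (w : ℤ)) :
    PBD d U a p w := by
  have := Fact.mk hp
  have e1 : ∀ j, d.AA 1 j = AL d.Zs d.Hs d.K1 d.K2 j := by
    intro j
    funext k
    unfold BD.AA AL
    rw [one_mul]
  have e2 : ∀ j, d.BB 1 j = BL d.Zs d.Hs d.K1 d.K2 j := by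
    intro j
    funext k
    unfold BD.BB BL
    rw [one_mul]
  intro j hj
  obtain ⟨h1, h2, h3⟩ := h j hj
  rw [zpow_natCast] at h1 h2 h3
  rw [e1, e2]
  refine ⟨?_, h2, h3⟩
  unfold BD.QG
  rw [e1, padicNorm.mul]
  have i2 : padicNorm p (2 : ℚ) ≤ 1 := by exact_mod_cast nint (p := p) 2
  calc padicNorm p 2 * padicNorm p (∑ k ∈ d.K1, AL d.Zs d.Hs d.K1 d.K2 j k)
      ≤ 1 * padicNorm p (∑ k ∈ d.K1, AL d.Zs d.Hs d.K1 d.K2 j k) :=
        mul_le_mul_of_nonneg_right i2 (padicNorm.nonneg _)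
    _ ≤ _ := by rw [one_mul]; exact h1

/-- the frozen configuration is admissible -/
theorem adm_ddT (n p : ℕ) (hn : 1 ≤ n) (hp : p.Prime) (hp2 : MM n < p ^ 2) :
    Adm (dd n).Zs (dd n).Hs (dd n).K1 (dd n).K2 p := by
  unfold MM at hp2
  have h18 : 17 ≤ p := by
    by_contra hcon
    have h1 : p ≤ 16 := by omega
    have h2 : p ^ 2 ≤ 16 ^ 2 := Nat.pow_le_pow_left h1 2
    omega
  have hh2 := two_hh hp (by omega)
  have hb : 4 * (19 * n + hh p) < p ^ 2 := by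
    have h3 : 4 * (19 * n + hh p) = 76 * n + 2 * p + 2 := by omega
    rw [h3]
    nlinarith
  refine ⟨hp, by omega, ?_, ?_, ?_, ?_, ?_⟩
  · rw [dd_K1, dd_K2]
    intro k hk
    rw [mem_Ico] at hk ⊢
    omega
  · rw [dd_Zs, dd_K1]
    intro S hS k hk
    rw [mem_Ico] at hk
    simp only [List.mem_cons, List.not_mem_nil, or_false] at hS
    rcases hS with rfl | rfl <;> rw [mem_Ico] <;> omega
  · rw [dd_Zs]
    intro S hS i hi
    simp only [List.mem_cons, List.not_mem_nil, or_false] at hS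
    rcases hS with rfl | rfl <;> rw [mem_Ico] at hi <;> omega
  · rw [dd_Hs]
    intro S hS i hi
    simp only [List.mem_cons, List.not_mem_nil, or_false] at hS
    subst hS
    rw [mem_Ico] at hi
    omega
  · rw [dd_K1]
    intro k hk
    rw [mem_Ico] at hk
    omega

theorem termC (n p : ℕ) (hn : 1 ≤ n) (hp : p.Prime) (hp2 : MM n < p ^ 2) (w : ℕ)
    (hw : ∀ s < p, 1 - (w : ℤ) ≤ phiL (dd n).Zs (dd n).Hs (dd n).K1 (dd n).K2 p s) : PBn n p w := by
  unfold PBn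
  apply PBD_of_PB _ _ _ _ _ hp
  have h := termwise (adm_ddT n p hn hp hp2) (14 * n) (32 * n) (1 - (w : ℤ))
    (fun k _ => hw _ (Nat.mod_lt _ hp.pos))
  rwa [sub_sub_cancel] at h

end Pool.Agent.Z23
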