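import Pool.Agent.Z23.RedG
import Pool.Agent.Z23.TermC

/-!
Cells for the frozen configuration: termwise bound and cancellation from integer checks.
-/

open Finset

namespace Pool.Agent.Z23

/-- ends of zero blocks, starts of pole blocks: (c, o, h) is c n + o + h (p+1)/2 -/
def AF : List (ℕ × ℕ × ℕ) := [(16, 0, 0), (14, 0, 0), (19, 0, 1), (18, 0, 0), (19, 0, 0)]

/-- starts of zero blocks, ends of pole blocks -/
def BF : List (ℕ × ℕ × ℕ) := [(0, 0, 0), (2, 0, 0), (10, 0, 1), (38, 2, 0), (36, 2, 0)]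

def ptsF : List (ℕ × ℕ × ℕ) := AF ++ BF

def alF (i : Fin 5) : ℕ × ℕ × ℕ := AF.getD i (0, 0, 0)

def beF (i : Fin 5) : ℕ × ℕ × ℕ := BF.getD i (0, 0, 0)

theorem ptsF_check : ptsCheck ptsF 200 6 = true := by decide +kernel

theorem alF_mem (i : Fin 5) : alF i ∈ ptsF := by fin_cases i <;> decide

theorem beF_mem (i : Fin 5) : beF i ∈ ptsF := by fin_cases i <;> decide

theorem sumF : ∑ i, (alF i).1 = ∑ i, (beF i).1 := by decide

theorem fitF (n p : ℕ) : Fit [(0, 16 * n), (2 * n, 14 * n)] [(10 * n, 19 * n)] (18 * n) (38 * n + 2)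
    (19 * n) (36 * n + 2) p (fun i => pv n p (alF i)) (fun i => pv n p (beF i)) := by
  refine ⟨?_, ?_, by omega, by omega, ?_, ?_⟩
  · intro x hx
    simp only [List.mem_cons, List.not_mem_nil, or_false] at hx
    rcases hx with rfl | rfl <;> dsimp only <;> omega
  · intro x hx
    simp only [List.mem_cons, List.not_mem_nil, or_false] at hx
    subst hx
    dsimp only
    omega
  · rw [Fin.univ_val_map]
    simp [List.ofFn_succ, alF, AF, pv, Fin.succ]
  · rw [Fin.univ_val_map]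
    simp [List.ofFn_succ, beF, BF, pv, Fin.succ]

theorem hsumF (n p : ℕ) : ∑ i, pv n p (alF i) + 4 ≤ ∑ i, pv n p (beF i) := by
  simp [Fin.sum_univ_five, alF, beF, AF, BF, pv]
  omega

theorem ziF (n : ℕ) : (dd n).Zs = ZI [(0, 16 * n), (2 * n, 14 * n)] ∧ (dd n).Hs = ZI [(10 * n, 19 * n)] :=
  ⟨dd_Zs n, dd_Hs n⟩

theorem p_gt {n p : ℕ} (hp2 : MM n < p ^ 2) : 10 < p := by
  unfold MM at hp2
  by_contra hcon
  have h1 : p ≤ 10 := by omega
  have h2 : p ^ 2 ≤ 10 ^ 2 := Nat.pow_le_pow_left h1 2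
  omega

/-- all break points have phi at least 1 - w -/
def minCheckG (pts A B : List (ℕ × ℕ × ℕ)) (N0 P0 w : ℕ) : Bool :=
  pts.all fun z => decide (1 - (w : ℤ) ≤ phi0L A B N0 P0 (r0 N0 P0 z))

theorem cellHF {n p a b c d N0 P0 m : ℕ} (hp : p.Prime) (hp2 : MM n < p ^ 2) (hg : Good n p)
    (hcc : cellCheck ptsF a b c d N0 P0 = true) (h1 : a * p < (n - m * p) * b)
    (h3 : (n - m * p) * d < c * p) (hm : m * p ≤ n) : CellH ptsF 200 6 n p N0 P0 m :=
  cellH_of_check hp (by have := p_gt hp2; omega) (by have := p_gt hp2; omega) hg ptsF_check hcc h1 h3 hm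

/-- termwise bound on a cell -/
theorem termCell {n p a b c d N0 P0 m w : ℕ} (hn : 1 ≤ n) (hp : p.Prime) (hp2 : MM n < p ^ 2)
    (hg : Good n p) (hcc : cellCheck ptsF a b c d N0 P0 = true)
    (hw : minCheckG ptsF AF BF N0 P0 w = true) (h1 : a * p < (n - m * p) * b)
    (h3 : (n - m * p) * d < c * p) (hm : m * p ≤ n) : PBn n p w := by
  have H := cellHF hp hp2 hg hcc h1 h3 hm
  refine termC n p hn hp hp2 w fun s hs => ?_
  have e := (fitF n p).phi_eq hp.pos hs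
  rw [(ziF n).1, (ziF n).2, dd_K1, dd_K2, e]
  obtain ⟨z, hz, -, -, h⟩ := H.phi alF beF alF_mem beF_mem sumF hs
  rw [h]
  have h5 : phi0G alF beF N0 P0 (r0 N0 P0 z) = phi0L AF BF N0 P0 (r0 N0 P0 z) :=
    phi0G_five AF BF rfl rfl N0 P0 _
  rw [h5]
  unfold minCheckG at hw
  rw [List.all_eq_true] at hw
  exact of_decide_eq_true (hw z hz)

/-- cancellation on a cell -/
theorem redCell {n p a b c d N0 P0 m : ℕ} {z1 : ℕ × ℕ × ℕ} {L : List ℕ} (hn : 1 ≤ n) (hp : p.Prime)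
    (hp2 : MM n < p ^ 2) (hg : Good n p) (hcc : cellCheck ptsF a b c d N0 P0 = true)
    (hr : redCheckG ptsF AF BF N0 P0 z1 L = true) (h1 : a * p < (n - m * p) * b)
    (h3 : (n - m * p) * d < c * p) (hm : m * p ≤ n) : PBn n p 1 := by
  have H := cellHF hp hp2 hg hcc h1 h3 hm
  obtain ⟨pi, R⟩ := redH_of_check (A := AF) (B := BF) rfl rfl hr
  obtain ⟨s2, g, hend⟩ := gapG_of_red H alF beF alF_mem beF_mem sumF R (hsumF n p)
  unfold PBn
  apply PBD_of_PB _ _ _ _ _ hp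
  have hadm := adm_ddT n p hn hp hp2
  rw [(ziF n).1, (ziF n).2, dd_K1, dd_K2] at hadm ⊢
  refine cancelG (14 * n) (32 * n) hadm (fitF n p) g ?_
  have h5 := hend (14, 0, 0) (by decide)
  have h6 : pv n p (14, 0, 0) = 14 * n := by unfold pv; simp
  rwa [h6] at h5

end Pool.Agent.Z23
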