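import Pool.Agent.Z23.FitG
import Pool.Agent.Z23.PSumG

/-!
The residues of the points c n + o + h (p+1)/2 depend only on the cell of n/p.
-/

open Finset

namespace Pool.Agent.Z23

/-- the point (c, o, h) is the number c n + o + h (p+1)/2 -/
def pv (n p : ℕ) (x : ℕ × ℕ × ℕ) : ℕ := x.1 * n + x.2.1 + x.2.2 * hh p

/-- floor of D n / p + t / 2 -/
def fl (n p D t : ℕ) : ℕ := (2 * D * n + t * p) / (2 * p)

def q0 (N0 P0 : ℕ) (x : ℕ × ℕ × ℕ) : ℕ := (2 * x.1 * N0 + x.2.2 * P0) / (2 * P0)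

def r0 (N0 P0 : ℕ) (x : ℕ × ℕ × ℕ) : ℕ := (2 * x.1 * N0 + x.2.2 * P0) % (2 * P0)

def tt (x y : ℕ × ℕ × ℕ) : ℕ := if x.2.2 = y.2.2 then 0 else 1

/-- n/p lies in the cell of N0/P0 (mod 1, m = integer part) -/
structure CellH (pts : List (ℕ × ℕ × ℕ)) (L E n p N0 P0 m : ℕ) : Prop where
  hp : p.Prime
  h2 : p ≠ 2
  hP0 : 0 < P0
  hE : E < p
  hgood : GoodG L E n p
  hh1 : ∀ x ∈ pts, x.2.2 ≤ 1
  hL : ∀ x ∈ pts, 2 * x.1 ≤ L
  hO : ∀ x ∈ pts, 2 * x.2.1 + 1 ≤ E
  h0 : (0, 0, 0) ∈ pts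
  hinj : ∀ x ∈ pts, ∀ y ∈ pts, x.1 = y.1 → x.2.2 = y.2.2 → x = y
  hz : ∀ x ∈ pts, x.1 = 0 → x.2.1 = 0
  hnd : ∀ x ∈ pts, ∀ y ∈ pts, r0 N0 P0 x = r0 N0 P0 y → x = y
  hfl : ∀ x ∈ pts, ∀ y ∈ pts, y.1 ≤ x.1 →
    fl n p (x.1 - y.1) (tt x y) = (x.1 - y.1) * m + fl N0 P0 (x.1 - y.1) (tt x y)

theorem good_not {L E n p : ℕ} (hg : GoodG L E n p) {D : ℕ} (h1 : 1 ≤ D) (h2 : 2 * D ≤ L) {e : ℤ}
    (h3 : |e| ≤ (E : ℤ)) (j : ℤ) : 2 * (D : ℤ) * n + e ≠ p * j := by
  intro h
  refine hg (2 * D) (by omega) h2 e h3 ⟨j, ?_⟩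
  rw [← h]
  push_cast
  ring

theorem div_unique' {A b q : ℕ} (hb : 0 < b) (h1 : b * q ≤ A) (h2 : A < b * q + b) : A / b = q := by
  apply Nat.div_eq_of_lt_le
  · rw [mul_comm]
    exact h1
  · rw [Nat.succ_mul, mul_comm q b]
    exact h2

/-- the quotient of a point -/
theorem CellH.quot {pts : List (ℕ × ℕ × ℕ)} {L E n p N0 P0 m : ℕ} (H : CellH pts L E n p N0 P0 m)
    {x : ℕ × ℕ × ℕ} (hx : x ∈ pts) : pv n p x / p = x.1 * m + q0 N0 P0 x := by
  have hp0 : 0 < p := H.hp.pos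
  have hh2 := two_hh H.hp H.h2
  have h1 := H.hh1 x hx
  have hf := H.hfl x hx (0, 0, 0) H.h0 (Nat.zero_le _)
  have ht : tt x (0, 0, 0) = x.2.2 := by
    unfold tt
    split_ifs with h
    · exact h.symm
    · have : x.2.2 ≠ 0 := h
      omega
  rw [ht] at hf
  simp only [Nat.sub_zero] at hf
  have e0 : fl N0 P0 x.1 x.2.2 = q0 N0 P0 x := rfl
  rw [e0] at hf
  rw [← hf]
  -- now compare pv / p with fl
  obtain ⟨c, o, h⟩ := x
  simp only at h1 ⊢
  have hO := H.hO _ hx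
  simp only at hO
  set f := fl n p c h with hfdef
  have hfd : f = (2 * c * n + h * p) / (2 * p) := rfl
  have hlo : 2 * p * f ≤ 2 * c * n + h * p := by rw [hfd]; exact Nat.mul_div_le _ _
  have hhi : 2 * c * n + h * p < 2 * p * f + 2 * p := by
    rw [hfd]
    have := Nat.lt_mul_div_succ (2 * c * n + h * p) (show 0 < 2 * p by omega)
    rw [Nat.mul_add, mul_one] at this
    exact this
  have e2 : 2 * pv n p (c, o, h) = 2 * c * n + h * p + (2 * o + h) := by
    unfold pv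
    simp only
    have : h * (2 * hh p) = h * (p + 1) := by rw [hh2]
    nlinarith
  apply div_unique' hp0
  · have : 2 * (p * f) ≤ 2 * pv n p (c, o, h) := by
      rw [e2]
      have : 2 * (p * f) = 2 * p * f := by ring
      omega
    omega
  · by_contra hcon
    rw [not_lt] at hcon
    have h3 : 2 * p * f + 2 * p ≤ 2 * c * n + h * p + (2 * o + h) := by
      rw [← e2]
      have : 2 * p * f + 2 * p = 2 * (p * f + p) := by ring
      omega
    rcases Nat.eq_zero_or_pos c with hc | hc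
    · subst hc
      have ho : o = 0 := H.hz _ hx rfl
      subst ho
      have hE := H.hE
      simp only [Nat.mul_zero, Nat.zero_mul, Nat.zero_add] at h3
      rcases Nat.le_one_iff_eq_zero_or_eq_one.1 h1 with h4 | h4
      · subst h4
        omega
      · subst h4
        omega
    · have hLc := H.hL _ hx
      simp only at hLc
      refine good_not H.hgood hc hLc (e := 2 * (p : ℤ) * f + 2 * p - h * p - 2 * c * n) ?_
        (2 * f + 2 - h) (by ring)
      have h3' : 2 * (p : ℤ) * f + 2 * p ≤ 2 * c * n + h * p + (2 * o + h) := by exact_mod_cast h3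
      have hhi' : 2 * (c : ℤ) * n + h * p < 2 * p * f + 2 * p := by exact_mod_cast hhi
      have hO' : 2 * (o : ℤ) + 1 ≤ E := by exact_mod_cast hO
      have h1' : (h : ℤ) ≤ 1 := by exact_mod_cast h1
      rw [abs_le]
      constructor <;> linarith

/-- the order of the residues, one direction of the indices -/
theorem CellH.order_aux {pts : List (ℕ × ℕ × ℕ)} {L E n p N0 P0 m : ℕ} (H : CellH pts L E n p N0 P0 m)
    {x y : ℕ × ℕ × ℕ} (hx : x ∈ pts) (hy : y ∈ pts) (hxy : y.1 ≤ x.1) (hne : x ≠ y) :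
    (pv n p x % p < pv n p y % p ↔ r0 N0 P0 x < r0 N0 P0 y) ∧
      (pv n p y % p < pv n p x % p ↔ r0 N0 P0 y < r0 N0 P0 x) := by
  have hp0 : 0 < p := H.hp.pos
  have hP0 := H.hP0
  have hh2 := two_hh H.hp H.h2
  have hf := H.hfl x hx y hy hxy
  have qx := H.quot hx
  have qy := H.quot hy
  have dx := Nat.div_add_mod (pv n p x) p
  have dy := Nat.div_add_mod (pv n p y) p
  have sx := Nat.div_add_mod (2 * x.1 * N0 + x.2.2 * P0) (2 * P0)
  have sy := Nat.div_add_mod (2 * y.1 * N0 + y.2.2 * P0) (2 * P0)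
  rw [qx] at dx
  rw [qy] at dy
  have ex : (2 * x.1 * N0 + x.2.2 * P0) / (2 * P0) = q0 N0 P0 x := rfl
  have ey : (2 * y.1 * N0 + y.2.2 * P0) / (2 * P0) = q0 N0 P0 y := rfl
  have rx : (2 * x.1 * N0 + x.2.2 * P0) % (2 * P0) = r0 N0 P0 x := rfl
  have ry : (2 * y.1 * N0 + y.2.2 * P0) % (2 * P0) = r0 N0 P0 y := rfl
  rw [ex, rx] at sx
  rw [ey, ry] at sy
  have hx1 := H.hh1 x hx
  have hy1 := H.hh1 y hy
  have hOx := H.hO x hx
  have hOy := H.hO y hy
  have hLx := H.hL x hx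
  have hE := H.hE
  have hinj := H.hinj x hx y hy
  -- the floor of the difference
  set t := tt x y with ht
  set D := x.1 - y.1 with hD
  have hDx : x.1 = y.1 + D := by omega
  set f := fl n p D t with hfdef
  set f0 := fl N0 P0 D t with hf0def
  have hlo : 2 * p * f ≤ 2 * D * n + t * p := by
    rw [hfdef]; exact Nat.mul_div_le _ _
  have hhi : 2 * D * n + t * p < 2 * p * f + 2 * p := by
    rw [hfdef]
    have := Nat.lt_mul_div_succ (2 * D * n + t * p) (show 0 < 2 * p by omega)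
    rw [Nat.mul_add, mul_one] at this
    exact this
  have hlo0 : 2 * P0 * f0 ≤ 2 * D * N0 + t * P0 := by
    rw [hf0def]; exact Nat.mul_div_le _ _
  have hhi0 : 2 * D * N0 + t * P0 < 2 * P0 * f0 + 2 * P0 := by
    rw [hf0def]
    have := Nat.lt_mul_div_succ (2 * D * N0 + t * P0) (show 0 < 2 * P0 by omega)
    rw [Nat.mul_add, mul_one] at this
    exact this
  -- integers
  obtain ⟨u, hu, hut⟩ : ∃ u : ℤ, (x.2.2 : ℤ) - y.2.2 = t - 2 * u ∧ (u = 0 ∨ u = 1) := by
    by_cases h : x.2.2 = y.2.2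
    · refine ⟨0, ?_, Or.inl rfl⟩
      have : t = 0 := by rw [ht]; unfold tt; rw [if_pos h]
      rw [this, h]
      simp
    · have h1t : t = 1 := by rw [ht]; unfold tt; rw [if_neg h]
      rcases Nat.le_one_iff_eq_zero_or_eq_one.1 hx1 with h3 | h3 <;>
        rcases Nat.le_one_iff_eq_zero_or_eq_one.1 hy1 with h4 | h4
      · exact absurd (h3.trans h4.symm) h
      · exact ⟨1, by rw [h1t, h3, h4]; norm_num, Or.inr rfl⟩
      · exact ⟨0, by rw [h1t, h3, h4]; norm_num, Or.inl rfl⟩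
      · exact absurd (h3.trans h4.symm) h
  set M0 : ℤ := (q0 N0 P0 x : ℤ) - q0 N0 P0 y + u with hM0
  set e : ℤ := (2 * x.2.1 + x.2.2 : ℤ) - (2 * y.2.1 + y.2.2) with he
  have heE : |e| ≤ (E : ℤ) := by
    have a1 : 2 * (x.2.1 : ℤ) + 1 ≤ E := by exact_mod_cast hOx
    have a2 : 2 * (y.2.1 : ℤ) + 1 ≤ E := by exact_mod_cast hOy
    have a3 : (x.2.2 : ℤ) ≤ 1 := by exact_mod_cast hx1
    have a4 : (y.2.2 : ℤ) ≤ 1 := by exact_mod_cast hy1
    have a5 : (0 : ℤ) ≤ x.2.1 := by positivity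
    have a6 : (0 : ℤ) ≤ y.2.1 := by positivity
    have a7 : (0 : ℤ) ≤ x.2.2 := by positivity
    have a8 : (0 : ℤ) ≤ y.2.2 := by positivity
    rw [abs_le]
    constructor <;> linarith
  -- difference of the residues
  have key : 2 * (((pv n p x % p : ℕ) : ℤ) - ((pv n p y % p : ℕ) : ℤ)) =
      (2 * D * n + t * p + e) - 2 * p * (D * m + M0) := by
    have c1 : ((p * (x.1 * m + q0 N0 P0 x) + pv n p x % p : ℕ) : ℤ) = (pv n p x : ℤ) := by
      exact_mod_cast dx
    have c2 : ((p * (y.1 * m + q0 N0 P0 y) + pv n p y % p : ℕ) : ℤ) = (pv n p y : ℤ) := by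
      exact_mod_cast dy
    have c3 : (2 : ℤ) * hh p = p + 1 := by exact_mod_cast hh2
    have c4 : (pv n p x : ℤ) = x.1 * n + x.2.1 + x.2.2 * hh p := by unfold pv; push_cast; ring
    have c5 : (pv n p y : ℤ) = y.1 * n + y.2.1 + y.2.2 * hh p := by unfold pv; push_cast; ring
    have c6 : (x.1 : ℤ) = y.1 + D := by exact_mod_cast hDx
    push_cast at c1 c2
    rw [c4] at c1
    rw [c5] at c2
    rw [hM0, he]
    have c7 : 2 * ((pv n p x % p : ℕ) : ℤ) = 2 * (x.1 * n + x.2.1) + x.2.2 * (p + 1) -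
        2 * p * (x.1 * m + q0 N0 P0 x) := by
      rw [← c3]; push_cast; linarith
    have c8 : 2 * ((pv n p y % p : ℕ) : ℤ) = 2 * (y.1 * n + y.2.1) + y.2.2 * (p + 1) -
        2 * p * (y.1 * m + q0 N0 P0 y) := by
      rw [← c3]; push_cast; linarith
    have c9 : (x.2.2 : ℤ) = y.2.2 + (t - 2 * u) := by linarith
    rw [mul_sub, c7, c8, c6, c9]
    ring
  have key0 : ((r0 N0 P0 x : ℕ) : ℤ) - ((r0 N0 P0 y : ℕ) : ℤ) =
      (2 * D * N0 + t * P0) - 2 * P0 * M0 := by
    have c1 : ((2 * P0 * q0 N0 P0 x + r0 N0 P0 x : ℕ) : ℤ) = ((2 * x.1 * N0 + x.2.2 * P0 : ℕ) : ℤ) := by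
      exact_mod_cast sx
    have c2 : ((2 * P0 * q0 N0 P0 y + r0 N0 P0 y : ℕ) : ℤ) = ((2 * y.1 * N0 + y.2.2 * P0 : ℕ) : ℤ) := by
      exact_mod_cast sy
    have c6 : (x.1 : ℤ) = y.1 + D := by exact_mod_cast hDx
    have c9 : (x.2.2 : ℤ) = y.2.2 + (t - 2 * u) := by linarith
    push_cast at c1 c2
    rw [hM0]
    rw [c6, c9] at c1
    linarith
  -- no coincidence
  have hno : ∀ e' : ℤ, |e'| ≤ (E : ℤ) → (D = 0 → t = 1) → ∀ M : ℤ, 2 * (D : ℤ) * n + t * p + e' ≠ 2 * p * M := by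
    intro e' he' hDt M h
    rcases Nat.eq_zero_or_pos D with hD0 | hD0
    · have ht1 := hDt hD0
      rw [hD0, ht1] at h
      push_cast at h
      have hpE : (E : ℤ) < p := by exact_mod_cast hE
      obtain ⟨b1, b2⟩ := abs_le.1 he'
      have h5 : (p : ℤ) * (2 * M - 1) = e' := by linarith
      rcases lt_trichotomy (2 * M - 1) 0 with h6 | h6 | h6
      · have h7 : (p : ℤ) * (2 * M - 1) ≤ p * (-1) := mul_le_mul_of_nonneg_left (by omega) (by positivity)
        linarith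
      · omega
      · have h7 : (p : ℤ) * 1 ≤ p * (2 * M - 1) := mul_le_mul_of_nonneg_left (by omega) (by positivity)
        linarith
    · exact good_not H.hgood hD0 (by omega) he' (2 * M - t) (by linarith)
  have hDt : D = 0 → t = 1 := by
    intro hD0
    rw [ht]
    unfold tt
    rw [if_neg]
    intro h
    exact hne (hinj (by omega) h)
  -- the comparison by f
  have hlo' : 2 * (p : ℤ) * f ≤ 2 * D * n + t * p := by exact_mod_cast hlo
  have hhi' : 2 * (D : ℤ) * n + t * p < 2 * p * f + 2 * p := by exact_mod_cast hhi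
  have hlo0' : 2 * (P0 : ℤ) * f0 ≤ 2 * D * N0 + t * P0 := by exact_mod_cast hlo0
  have hhi0' : 2 * (D : ℤ) * N0 + t * P0 < 2 * P0 * f0 + 2 * P0 := by exact_mod_cast hhi0
  have hff : (f : ℤ) = D * m + f0 := by exact_mod_cast hf
  have hpz : (0 : ℤ) < p := by exact_mod_cast hp0
  have hP0z : (0 : ℤ) < P0 := by exact_mod_cast hP0
  rcases le_or_gt M0 (f0 : ℤ) with hc | hc
  · -- x above y
    have s1 : 2 * (P0 : ℤ) * M0 ≤ 2 * P0 * f0 := mul_le_mul_of_nonneg_left hc (by positivity)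
    have s2 : 2 * (p : ℤ) * (D * m + M0) ≤ 2 * p * f := by
      rw [hff]
      exact mul_le_mul_of_nonneg_left (by linarith) (by positivity)
    have n1 : 2 * (p : ℤ) * (D * m + M0) < 2 * D * n + t * p + e := by
      by_contra hcon
      rw [not_lt] at hcon
      refine hno (2 * p * (D * m + M0) - 2 * D * n - t * p) ?_ hDt (D * m + M0) (by ring)
      obtain ⟨b1, b2⟩ := abs_le.1 heE
      rw [abs_le]
      constructor <;> linarith
    have n0 : 2 * (P0 : ℤ) * M0 ≤ 2 * D * N0 + t * P0 := by linarith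
    -- strictness on the sample is needed only for y < x
    constructor
    · constructor
      · intro h; exfalso; have : ((pv n p x % p : ℕ) : ℤ) < ((pv n p y % p : ℕ) : ℤ) := by exact_mod_cast h
        linarith
      · intro h; exfalso; have : ((r0 N0 P0 x : ℕ) : ℤ) < ((r0 N0 P0 y : ℕ) : ℤ) := by exact_mod_cast h
        linarith
    · constructor
      · intro _
        have h5 : ((r0 N0 P0 y : ℕ) : ℤ) ≤ ((r0 N0 P0 x : ℕ) : ℤ) := by linarith
        have h6 : r0 N0 P0 y ≤ r0 N0 P0 x := by exact_mod_cast h5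
        exact lt_of_le_of_ne h6 fun h7 => hne (H.hnd y hy x hx h7).symm
      · intro _
        have : ((pv n p y % p : ℕ) : ℤ) < ((pv n p x % p : ℕ) : ℤ) := by linarith
        exact_mod_cast this
  · have s1 : 2 * (P0 : ℤ) * (f0 + 1) ≤ 2 * P0 * M0 := mul_le_mul_of_nonneg_left (by omega) (by positivity)
    have s2 : 2 * (p : ℤ) * (f + 1) ≤ 2 * p * (D * m + M0) := by
      rw [hff]
      exact mul_le_mul_of_nonneg_left (by linarith) (by positivity)
    have n1 : 2 * (D : ℤ) * n + t * p + e < 2 * p * (D * m + M0) := by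
      by_contra hcon
      rw [not_lt] at hcon
      refine hno (2 * p * (D * m + M0) - 2 * D * n - t * p) ?_ hDt (D * m + M0) (by ring)
      obtain ⟨b1, b2⟩ := abs_le.1 heE
      rw [abs_le]
      constructor <;> linarith
    have l1 : ((pv n p x % p : ℕ) : ℤ) < ((pv n p y % p : ℕ) : ℤ) := by linarith
    have l0 : ((r0 N0 P0 x : ℕ) : ℤ) < ((r0 N0 P0 y : ℕ) : ℤ) := by linarith
    have l1' : pv n p x % p < pv n p y % p := by exact_mod_cast l1
    have l0' : r0 N0 P0 x < r0 N0 P0 y := by exact_mod_cast l0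
    exact ⟨⟨fun _ => l0', fun _ => l1'⟩, ⟨fun h => absurd h (by omega), fun h => absurd h (by omega)⟩⟩

/-- the order of the residues -/
theorem CellH.order {pts : List (ℕ × ℕ × ℕ)} {L E n p N0 P0 m : ℕ} (H : CellH pts L E n p N0 P0 m)
    {x y : ℕ × ℕ × ℕ} (hx : x ∈ pts) (hy : y ∈ pts) :
    pv n p x % p < pv n p y % p ↔ r0 N0 P0 x < r0 N0 P0 y := by
  by_cases hne : x = y
  · subst hne
    simp
  · rcases le_total y.1 x.1 with h | h
    · exact (H.order_aux hx hy h hne).1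
    · exact (H.order_aux hy hx h (Ne.symm hne)).2

section

variable {ι : Type*} [Fintype ι]

/-- phi of the sample at the threshold t -/
def phi0G (ap bp : ι → ℕ × ℕ × ℕ) (N0 P0 t : ℕ) : ℤ :=
  (∑ i, ((q0 N0 P0 (ap i) : ℕ) : ℤ) + ∑ i, (if t < r0 N0 P0 (ap i) then 1 else 0 : ℤ)) -
    (∑ i, ((q0 N0 P0 (bp i) : ℕ) : ℤ) + ∑ i, (if t < r0 N0 P0 (bp i) then 1 else 0 : ℤ))

/-- phi on [0,p) is phi of the sample at a point -/
theorem CellH.phi {pts : List (ℕ × ℕ × ℕ)} {L E n p N0 P0 m : ℕ} (H : CellH pts L E n p N0 P0 m)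
    (ap bp : ι → ℕ × ℕ × ℕ) (ha : ∀ i, ap i ∈ pts) (hb : ∀ i, bp i ∈ pts)
    (hab : ∑ i, (ap i).1 = ∑ i, (bp i).1) {s : ℕ} (hs : s < p) :
    ∃ z ∈ pts, pv n p z % p ≤ s ∧ (∀ y ∈ pts, pv n p y % p ≤ s → pv n p y % p ≤ pv n p z % p) ∧
      phiG p (fun i => pv n p (ap i)) (fun i => pv n p (bp i)) s = phi0G ap bp N0 P0 (r0 N0 P0 z) := by
  classical
  obtain ⟨z, hz, hmax⟩ := Finset.exists_max_image (pts.toFinset.filter fun y => pv n p y % p ≤ s)
    (fun y => pv n p y % p) ⟨(0, 0, 0), by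
      rw [mem_filter, List.mem_toFinset]
      refine ⟨H.h0, ?_⟩
      unfold pv
      simp⟩
  rw [mem_filter, List.mem_toFinset] at hz
  refine ⟨z, hz.1, hz.2, fun y hy hys => hmax y (by rw [mem_filter, List.mem_toFinset]; exact ⟨hy, hys⟩), ?_⟩
  have key : ∀ y ∈ pts, (s < pv n p y % p ↔ r0 N0 P0 z < r0 N0 P0 y) := by
    intro y hy
    rw [← H.order hz.1 hy]
    constructor
    · intro h
      exact lt_of_le_of_lt hz.2 h
    · intro h
      by_contra hcon
      rw [not_lt] at hcon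
      exact absurd (hmax y (by rw [mem_filter, List.mem_toFinset]; exact ⟨hy, hcon⟩)) (not_le.2 h)
  unfold phiG phi0G
  have e1 : ∀ i, (if s < pv n p (ap i) % p then (1 : ℤ) else 0) =
      if r0 N0 P0 z < r0 N0 P0 (ap i) then 1 else 0 := fun i => by simp only [key _ (ha i)]
  have e2 : ∀ i, (if s < pv n p (bp i) % p then (1 : ℤ) else 0) =
      if r0 N0 P0 z < r0 N0 P0 (bp i) then 1 else 0 := fun i => by simp only [key _ (hb i)]
  have e3 : ∑ i, ((pv n p (ap i) / p : ℕ) : ℤ) = (∑ i, ((ap i).1 : ℤ)) * m + ∑ i, ((q0 N0 P0 (ap i) : ℕ) : ℤ) := by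
    rw [Finset.sum_mul, ← Finset.sum_add_distrib]
    refine Finset.sum_congr rfl fun i _ => ?_
    rw [H.quot (ha i)]
    push_cast
    ring
  have e4 : ∑ i, ((pv n p (bp i) / p : ℕ) : ℤ) = (∑ i, ((bp i).1 : ℤ)) * m + ∑ i, ((q0 N0 P0 (bp i) : ℕ) : ℤ) := by
    rw [Finset.sum_mul, ← Finset.sum_add_distrib]
    refine Finset.sum_congr rfl fun i _ => ?_
    rw [H.quot (hb i)]
    push_cast
    ring
  have hab' : (∑ i, ((ap i).1 : ℤ)) = ∑ i, ((bp i).1 : ℤ) := by exact_mod_cast hab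
  simp only [e1, e2]
  rw [e3, e4, hab']
  ring

end

/-- the floors in the cell (a/b, c/d) of N0/P0 -/
theorem fl_of_mem {a b c d p n N0 P0 m D t : ℕ} (hp : 0 < p) (hP0 : 0 < P0) (hb : 0 < b) (hd : 0 < d)
    (ht : t ≤ 1) (h1 : a * p < (n - m * p) * b) (h2 : (n - m * p) * d < c * p) (hm : m * p ≤ n)
    (hlo : 2 * b * fl N0 P0 D t ≤ 2 * D * a + t * b) (hhi : 2 * D * c + t * d ≤ 2 * d * (fl N0 P0 D t + 1)) :
    fl n p D t = D * m + fl N0 P0 D t := by
  obtain ⟨r, hr⟩ := Nat.exists_eq_add_of_le hm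
  subst hr
  rw [Nat.add_sub_cancel_left] at h1 h2
  set f := fl N0 P0 D t
  unfold fl
  apply div_unique' (by omega)
  · have e : 2 * p * (D * m + f) = 2 * D * (m * p) + 2 * p * f := by ring
    rw [e]
    have h3 : 2 * p * f ≤ 2 * D * r + t * p := by
      have h4 : b * (2 * p * f) ≤ b * (2 * D * r + t * p) := by
        calc b * (2 * p * f) = p * (2 * b * f) := by ring
          _ ≤ p * (2 * D * a + t * b) := Nat.mul_le_mul_left _ hlo
          _ = 2 * D * (a * p) + t * b * p := by ring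
          _ ≤ 2 * D * (r * b) + t * b * p := Nat.add_le_add_right (Nat.mul_le_mul_left _ h1.le) _
          _ = b * (2 * D * r + t * p) := by ring
      exact Nat.le_of_mul_le_mul_left h4 hb
    have e2 : 2 * D * (m * p + r) = 2 * D * (m * p) + 2 * D * r := by ring
    omega
  · have e : 2 * p * (D * m + f) + 2 * p = 2 * D * (m * p) + 2 * p * (f + 1) := by ring
    rw [e]
    have h3 : 2 * D * r + t * p < 2 * p * (f + 1) := by
      rcases Nat.eq_zero_or_pos D with hD | hD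
      · subst hD
        have : t * p ≤ 1 * p := Nat.mul_le_mul_right _ ht
        have h5 : 2 * p * 1 ≤ 2 * p * (f + 1) := Nat.mul_le_mul_left _ (by omega)
        omega
      · have h4 : d * (2 * D * r + t * p) < d * (2 * p * (f + 1)) := by
          calc d * (2 * D * r + t * p) = 2 * D * (r * d) + t * d * p := by ring
            _ < 2 * D * (c * p) + t * d * p :=
              Nat.add_lt_add_right (Nat.mul_lt_mul_of_pos_left h2 (by omega)) _
            _ = p * (2 * D * c + t * d) := by ring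
            _ ≤ p * (2 * d * (f + 1)) := Nat.mul_le_mul_left _ hhi
            _ = d * (2 * p * (f + 1)) := by ring
        exact Nat.lt_of_mul_lt_mul_left h4
    have e2 : 2 * D * (m * p + r) = 2 * D * (m * p) + 2 * D * r := by ring
    omega

/-- integer check on the cell (a/b, c/d) with sample N0/P0 -/
def cellCheck (pts : List (ℕ × ℕ × ℕ)) (a b c d N0 P0 : ℕ) : Bool :=
  decide (0 < P0) && decide (0 < b) && decide (0 < d) &&
    pts.all (fun x => pts.all (fun y => decide (y.1 ≤ x.1 →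
      (2 * b * fl N0 P0 (x.1 - y.1) (tt x y) ≤ 2 * (x.1 - y.1) * a + tt x y * b ∧
        2 * (x.1 - y.1) * c + tt x y * d ≤ 2 * d * (fl N0 P0 (x.1 - y.1) (tt x y) + 1))) &&
      decide (r0 N0 P0 x = r0 N0 P0 y → x = y)))

/-- the parameter-free part of the conditions on the points -/
def ptsCheck (pts : List (ℕ × ℕ × ℕ)) (L E : ℕ) : Bool :=
  decide ((0, 0, 0) ∈ pts) && pts.all (fun x => decide (x.2.2 ≤ 1) && decide (2 * x.1 ≤ L) &&
    decide (2 * x.2.1 + 1 ≤ E) && decide (x.1 = 0 → x.2.1 = 0)) &&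
    pts.all (fun x => pts.all (fun y => decide (x.1 = y.1 → x.2.2 = y.2.2 → x = y)))

theorem cellH_of_check {pts : List (ℕ × ℕ × ℕ)} {L E n p a b c d N0 P0 m : ℕ} (hp : p.Prime) (h2 : p ≠ 2)
    (hE : E < p) (hg : GoodG L E n p) (hpc : ptsCheck pts L E = true)
    (hcc : cellCheck pts a b c d N0 P0 = true)
    (h1 : a * p < (n - m * p) * b) (h3 : (n - m * p) * d < c * p) (hm : m * p ≤ n) :
    CellH pts L E n p N0 P0 m := by
  unfold ptsCheck at hpc
  unfold cellCheck at hcc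
  simp only [Bool.and_eq_true, decide_eq_true_eq, List.all_eq_true] at hpc hcc
  obtain ⟨⟨hp0, hpa⟩, hpb⟩ := hpc
  obtain ⟨⟨⟨hP0, hb⟩, hd⟩, hall⟩ := hcc
  refine ⟨hp, h2, hP0, hE, hg, fun x hx => (hpa x hx).1.1.1, fun x hx => (hpa x hx).1.1.2,
    fun x hx => (hpa x hx).1.2, hp0, fun x hx y hy h h' => hpb x hx y hy h h', fun x hx h => (hpa x hx).2 h,
    fun x hx y hy h => (hall x hx y hy).2 h, ?_⟩
  intro x hx y hy hxy
  obtain ⟨c1, c2⟩ := (hall x hx y hy).1 hxy
  refine fl_of_mem hp.pos hP0 hb hd ?_ h1 h3 hm c1 c2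
  unfold tt
  split_ifs <;> norm_num

end Pool.Agent.Z23
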