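import Pool.Agent.Z23.PhiCell

/-!
# The cells of n/p mod 1 for the frozen configuration

Between two consecutive break points the order of the residues of the ten end points mod p is
constant; `lf1` .. `lf4` list the 220 cells with the weight 1 - min phi, `lm` is the merged list.
-/

open Finset

namespace Pool.Agent.Z23

/-- ends of zero blocks and starts of pole blocks -/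
def alF : List Pt := [⟨16, 0, 0⟩, ⟨14, 0, 0⟩, ⟨19, 1, 0⟩, ⟨18, 0, 0⟩, ⟨19, 0, 0⟩]

/-- starts of zero blocks and ends of pole blocks -/
def beF : List Pt := [⟨0, 0, 0⟩, ⟨2, 0, 0⟩, ⟨10, 1, 0⟩, ⟨38, 0, 2⟩, ⟨36, 0, 2⟩]

theorem ptsF_ok : PtsOK alF beF 200 6 := by
  constructor
  · decide
  · decide
  · decide
  · decide
  · decide

/-- the merged list: weight 2 on six intervals, else 3 -/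
def lm : List Cell :=
  [⟨0, 1, 1, 16, 3⟩, ⟨1, 16, 3, 10, 2⟩, ⟨3, 10, 5, 16, 3⟩, ⟨5, 16, 9, 22, 2⟩, ⟨9, 22, 5, 12, 3⟩,
   ⟨5, 12, 11, 24, 2⟩, ⟨11, 24, 9, 16, 3⟩, ⟨9, 16, 4, 5, 2⟩, ⟨4, 5, 13, 16, 3⟩,
   ⟨13, 16, 10, 11, 2⟩, ⟨10, 11, 11, 12, 3⟩, ⟨11, 12, 23, 24, 2⟩, ⟨23, 24, 1, 1, 3⟩]

/-- period 0 (n < p) with the special ranges p > 20 n -/
def l0 : List Cell :=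
  [⟨0, 1, 1, 24, 0⟩, ⟨1, 24, 1, 22, 1⟩, ⟨1, 22, 1, 20, 2⟩, ⟨1, 20, 1, 16, 3⟩, ⟨1, 16, 3, 10, 2⟩,
   ⟨3, 10, 5, 16, 3⟩, ⟨5, 16, 9, 22, 2⟩, ⟨9, 22, 5, 12, 3⟩, ⟨5, 12, 11, 24, 2⟩,
   ⟨11, 24, 9, 16, 3⟩, ⟨9, 16, 4, 5, 2⟩, ⟨4, 5, 13, 16, 3⟩, ⟨13, 16, 10, 11, 2⟩,
   ⟨10, 11, 11, 12, 3⟩, ⟨11, 12, 23, 24, 2⟩, ⟨23, 24, 1, 1, 3⟩]

def lf1 : List Cell :=
  [⟨0, 1, 1, 56, 3⟩, ⟨1, 56, 1, 52, 3⟩, ⟨1, 52, 1, 38, 3⟩, ⟨1, 38, 1, 36, 3⟩, ⟨1, 36, 1, 34, 3⟩,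
   ⟨1, 34, 1, 24, 3⟩, ⟨1, 24, 1, 22, 3⟩, ⟨1, 22, 1, 20, 3⟩, ⟨1, 20, 1, 19, 3⟩, ⟨1, 19, 3, 56, 3⟩,
   ⟨3, 56, 1, 18, 3⟩, ⟨1, 18, 3, 52, 3⟩, ⟨3, 52, 1, 17, 3⟩, ⟨1, 17, 1, 16, 3⟩, ⟨1, 16, 1, 14, 2⟩,
   ⟨1, 14, 3, 38, 2⟩, ⟨3, 38, 1, 12, 2⟩, ⟨1, 12, 3, 34, 2⟩, ⟨3, 34, 5, 56, 2⟩, ⟨5, 56, 1, 11, 2⟩,
   ⟨1, 11, 5, 52, 2⟩, ⟨5, 52, 1, 10, 2⟩, ⟨1, 10, 2, 19, 2⟩, ⟨2, 19, 1, 9, 2⟩, ⟨1, 9, 2, 17, 2⟩,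
   ⟨2, 17, 1, 8, 2⟩, ⟨1, 8, 5, 38, 2⟩, ⟨5, 38, 7, 52, 2⟩, ⟨7, 52, 3, 22, 2⟩, ⟨3, 22, 5, 36, 2⟩,
   ⟨5, 36, 1, 7, 2⟩, ⟨1, 7, 5, 34, 2⟩, ⟨5, 34, 3, 20, 2⟩, ⟨3, 20, 3, 19, 2⟩, ⟨3, 19, 9, 56, 2⟩,
   ⟨9, 56, 1, 6, 2⟩, ⟨1, 6, 9, 52, 2⟩, ⟨9, 52, 3, 17, 2⟩, ⟨3, 17, 2, 11, 2⟩, ⟨2, 11, 7, 38, 2⟩,
   ⟨7, 38, 3, 16, 2⟩, ⟨3, 16, 7, 36, 2⟩, ⟨7, 36, 11, 56, 2⟩, ⟨11, 56, 1, 5, 2⟩, ⟨1, 5, 7, 34, 2⟩,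
   ⟨7, 34, 5, 24, 2⟩, ⟨5, 24, 4, 19, 2⟩, ⟨4, 19, 11, 52, 2⟩, ⟨11, 52, 3, 14, 2⟩,
   ⟨3, 14, 2, 9, 2⟩, ⟨2, 9, 5, 22, 2⟩, ⟨5, 22, 13, 56, 2⟩, ⟨13, 56, 4, 17, 2⟩, ⟨4, 17, 9, 38, 2⟩,
   ⟨9, 38, 1, 4, 2⟩]

def lf2 : List Cell :=
  [⟨1, 4, 5, 19, 2⟩, ⟨5, 19, 9, 34, 2⟩, ⟨9, 34, 15, 56, 2⟩, ⟨15, 56, 3, 11, 2⟩,
   ⟨3, 11, 5, 18, 2⟩, ⟨5, 18, 2, 7, 2⟩, ⟨2, 7, 15, 52, 2⟩, ⟨15, 52, 11, 38, 2⟩,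
   ⟨11, 38, 7, 24, 2⟩, ⟨7, 24, 5, 17, 2⟩, ⟨5, 17, 3, 10, 2⟩, ⟨3, 10, 17, 56, 3⟩,
   ⟨17, 56, 11, 36, 3⟩, ⟨11, 36, 5, 16, 3⟩, ⟨5, 16, 6, 19, 2⟩, ⟨6, 19, 7, 22, 2⟩,
   ⟨7, 22, 11, 34, 2⟩, ⟨11, 34, 17, 52, 2⟩, ⟨17, 52, 1, 3, 2⟩, ⟨1, 3, 19, 56, 2⟩,
   ⟨19, 56, 13, 38, 2⟩, ⟨13, 38, 7, 20, 2⟩, ⟨7, 20, 6, 17, 2⟩, ⟨6, 17, 5, 14, 2⟩,
   ⟨5, 14, 13, 36, 2⟩, ⟨13, 36, 4, 11, 2⟩, ⟨4, 11, 19, 52, 2⟩, ⟨19, 52, 7, 19, 2⟩,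
   ⟨7, 19, 3, 8, 2⟩, ⟨3, 8, 13, 34, 2⟩, ⟨13, 34, 7, 18, 2⟩, ⟨7, 18, 15, 38, 2⟩,
   ⟨15, 38, 2, 5, 2⟩, ⟨2, 5, 21, 52, 2⟩, ⟨21, 52, 9, 22, 2⟩, ⟨9, 22, 23, 56, 3⟩,
   ⟨23, 56, 7, 17, 3⟩, ⟨7, 17, 5, 12, 3⟩, ⟨5, 12, 8, 19, 2⟩, ⟨8, 19, 3, 7, 2⟩, ⟨3, 7, 7, 16, 2⟩,
   ⟨7, 16, 15, 34, 2⟩, ⟨15, 34, 23, 52, 2⟩, ⟨23, 52, 4, 9, 2⟩, ⟨4, 9, 25, 56, 2⟩,
   ⟨25, 56, 17, 38, 2⟩, ⟨17, 38, 9, 20, 2⟩, ⟨9, 20, 5, 11, 2⟩, ⟨5, 11, 11, 24, 2⟩,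
   ⟨11, 24, 8, 17, 3⟩, ⟨8, 17, 17, 36, 3⟩, ⟨17, 36, 9, 19, 3⟩, ⟨9, 19, 25, 52, 3⟩,
   ⟨25, 52, 27, 56, 3⟩, ⟨27, 56, 1, 2, 3⟩]

def lf3 : List Cell :=
  [⟨1, 2, 29, 56, 3⟩, ⟨29, 56, 27, 52, 3⟩, ⟨27, 52, 10, 19, 3⟩, ⟨10, 19, 19, 36, 3⟩,
   ⟨19, 36, 9, 17, 3⟩, ⟨9, 17, 13, 24, 3⟩, ⟨13, 24, 6, 11, 3⟩, ⟨6, 11, 11, 20, 3⟩,
   ⟨11, 20, 21, 38, 3⟩, ⟨21, 38, 31, 56, 3⟩, ⟨31, 56, 5, 9, 3⟩, ⟨5, 9, 29, 52, 3⟩,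
   ⟨29, 52, 19, 34, 3⟩, ⟨19, 34, 9, 16, 3⟩, ⟨9, 16, 4, 7, 2⟩, ⟨4, 7, 11, 19, 2⟩,
   ⟨11, 19, 7, 12, 2⟩, ⟨7, 12, 10, 17, 2⟩, ⟨10, 17, 33, 56, 2⟩, ⟨33, 56, 13, 22, 2⟩,
   ⟨13, 22, 31, 52, 2⟩, ⟨31, 52, 3, 5, 2⟩, ⟨3, 5, 23, 38, 2⟩, ⟨23, 38, 11, 18, 2⟩,
   ⟨11, 18, 21, 34, 2⟩, ⟨21, 34, 5, 8, 2⟩, ⟨5, 8, 12, 19, 2⟩, ⟨12, 19, 33, 52, 2⟩,
   ⟨33, 52, 7, 11, 2⟩, ⟨7, 11, 23, 36, 2⟩, ⟨23, 36, 9, 14, 2⟩, ⟨9, 14, 11, 17, 2⟩,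
   ⟨11, 17, 13, 20, 2⟩, ⟨13, 20, 25, 38, 2⟩, ⟨25, 38, 37, 56, 2⟩, ⟨37, 56, 2, 3, 2⟩,
   ⟨2, 3, 35, 52, 2⟩, ⟨35, 52, 23, 34, 2⟩, ⟨23, 34, 15, 22, 2⟩, ⟨15, 22, 13, 19, 2⟩,
   ⟨13, 19, 11, 16, 2⟩, ⟨11, 16, 25, 36, 2⟩, ⟨25, 36, 39, 56, 2⟩, ⟨39, 56, 7, 10, 2⟩,
   ⟨7, 10, 12, 17, 2⟩, ⟨12, 17, 17, 24, 2⟩, ⟨17, 24, 27, 38, 2⟩, ⟨27, 38, 37, 52, 2⟩,
   ⟨37, 52, 5, 7, 2⟩, ⟨5, 7, 13, 18, 2⟩, ⟨13, 18, 8, 11, 2⟩, ⟨8, 11, 41, 56, 2⟩,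
   ⟨41, 56, 25, 34, 2⟩, ⟨25, 34, 14, 19, 2⟩, ⟨14, 19, 3, 4, 2⟩]

def lf4 : List Cell :=
  [⟨3, 4, 29, 38, 2⟩, ⟨29, 38, 13, 17, 2⟩, ⟨13, 17, 43, 56, 2⟩, ⟨43, 56, 17, 22, 2⟩,
   ⟨17, 22, 7, 9, 2⟩, ⟨7, 9, 11, 14, 2⟩, ⟨11, 14, 41, 52, 2⟩, ⟨41, 52, 15, 19, 2⟩,
   ⟨15, 19, 19, 24, 2⟩, ⟨19, 24, 27, 34, 2⟩, ⟨27, 34, 4, 5, 2⟩, ⟨4, 5, 45, 56, 3⟩,
   ⟨45, 56, 29, 36, 3⟩, ⟨29, 36, 13, 16, 3⟩, ⟨13, 16, 31, 38, 2⟩, ⟨31, 38, 9, 11, 2⟩,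
   ⟨9, 11, 14, 17, 2⟩, ⟨14, 17, 43, 52, 2⟩, ⟨43, 52, 5, 6, 2⟩, ⟨5, 6, 47, 56, 2⟩,
   ⟨47, 56, 16, 19, 2⟩, ⟨16, 19, 17, 20, 2⟩, ⟨17, 20, 29, 34, 2⟩, ⟨29, 34, 6, 7, 2⟩,
   ⟨6, 7, 31, 36, 2⟩, ⟨31, 36, 19, 22, 2⟩, ⟨19, 22, 45, 52, 2⟩, ⟨45, 52, 33, 38, 2⟩,
   ⟨33, 38, 7, 8, 2⟩, ⟨7, 8, 15, 17, 2⟩, ⟨15, 17, 8, 9, 2⟩, ⟨8, 9, 17, 19, 2⟩,
   ⟨17, 19, 9, 10, 2⟩, ⟨9, 10, 47, 52, 2⟩, ⟨47, 52, 10, 11, 2⟩, ⟨10, 11, 51, 56, 3⟩,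
   ⟨51, 56, 31, 34, 3⟩, ⟨31, 34, 11, 12, 3⟩, ⟨11, 12, 35, 38, 2⟩, ⟨35, 38, 13, 14, 2⟩,
   ⟨13, 14, 15, 16, 2⟩, ⟨15, 16, 16, 17, 2⟩, ⟨16, 17, 49, 52, 2⟩, ⟨49, 52, 17, 18, 2⟩,
   ⟨17, 18, 53, 56, 2⟩, ⟨53, 56, 18, 19, 2⟩, ⟨18, 19, 19, 20, 2⟩, ⟨19, 20, 21, 22, 2⟩,
   ⟨21, 22, 23, 24, 2⟩, ⟨23, 24, 33, 34, 3⟩, ⟨33, 34, 35, 36, 3⟩, ⟨35, 36, 37, 38, 3⟩,
   ⟨37, 38, 51, 52, 3⟩, ⟨51, 52, 55, 56, 3⟩, ⟨55, 56, 1, 1, 3⟩]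

def lf : List Cell := lf1 ++ (lf2 ++ (lf3 ++ lf4))

/-- the check of one cell at its mediant -/
def fCheck (x : Cell) : Bool := cellChk alF beF x (x.a + x.c) (x.b + x.d) (1 - (x.w : ℤ))

theorem lf1_check : lf1.all fCheck = true := by decide +kernel
theorem lf2_check : lf2.all fCheck = true := by decide +kernel
theorem lf3_check : lf3.all fCheck = true := by decide +kernel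
theorem lf4_check : lf4.all fCheck = true := by decide +kernel

theorem lf_check (x : Cell) (hx : x ∈ lf) :
    cellChk alF beF x (x.a + x.c) (x.b + x.d) (1 - (x.w : ℤ)) = true := by
  unfold lf at hx
  rw [List.mem_append, List.mem_append, List.mem_append] at hx
  rcases hx with h | h | h | h
  · exact List.all_eq_true.mp lf1_check x h
  · exact List.all_eq_true.mp lf2_check x h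
  · exact List.all_eq_true.mp lf3_check x h
  · exact List.all_eq_true.mp lf4_check x h

theorem lf_chain : chainG 200 0 1 lf = true := by decide +kernel

theorem lm_chain : chainG 200 0 1 lm = true := by decide +kernel

theorem l0_chain : chainG 200 0 1 l0 = true := by decide +kernel

theorem lm_ok : ∀ x ∈ lm, x.ok = true := by decide +kernel

theorem l0_ok : ∀ x ∈ l0, x.ok = true := by decide +kernel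

theorem lm_w : ∀ x ∈ lm, x.w ≤ 3 := by decide +kernel

theorem l0_zero : ∀ x ∈ l0, x.a = 0 → x.w = 0 := by decide +kernel

/-- x and y overlap only if the first weight is at most the second -/
def ovl (x y : Cell) : Bool :=
  decide (x.c * y.b ≤ y.a * x.d) || decide (y.c * x.b ≤ x.a * y.d) || decide (x.w ≤ y.w)

theorem lf_lm : (lf.all fun x => lm.all fun y => ovl x y) = true := by decide +kernel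

/-- two cells containing r/p overlap -/
theorem ovl_le {x y : Cell} {r p : ℕ} (h : ovl x y = true) (hx : x.Mem r p) (hy : y.Mem r p) :
    x.w ≤ y.w := by
  unfold ovl at h
  simp only [Bool.or_eq_true, decide_eq_true_eq] at h
  obtain ⟨x1, x2⟩ := hx
  obtain ⟨y1, y2⟩ := hy
  have aux : ∀ a b c d : ℕ, c * b ≤ a * d → r * d < c * p → a * p < r * b → False := by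
    intro a b c d h1 h2 h3
    have e1 : r * d * b ≤ c * p * b := Nat.mul_le_mul_right _ h2.le
    have e2 : c * b * p ≤ a * d * p := Nat.mul_le_mul_right _ h1
    have hd : 0 < d ∨ d = 0 := (Nat.eq_zero_or_pos d).symm
    rcases hd with hd | hd
    · have e3 : a * p * d < r * b * d := Nat.mul_lt_mul_of_pos_right h3 hd
      have e4 : c * p * b = c * b * p := by ring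
      have e5 : a * d * p = a * p * d := by ring
      have e6 : r * d * b = r * b * d := by ring
      omega
    · subst hd
      have e7 : 0 < c * p := by omega
      have e8 : 0 < c := Nat.pos_of_mul_pos_right e7
      have e9 : c * b ≤ 0 := by simpa using h1
      have hb : b = 0 := by
        rcases Nat.eq_zero_or_pos b with h | h
        · exact h
        · have := Nat.mul_pos e8 h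
          omega
      rw [hb, Nat.mul_zero] at h3
      omega
  rcases h with (h | h) | h
  · exact (aux y.a y.b x.c x.d h x2 y1).elim
  · exact (aux x.a x.b y.c y.d h y2 x1).elim
  · exact h

end Pool.Agent.Z23
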