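import Pool.Agent.Z23.Sech
import Pool.Agent.Z3.Form

/-!
# The values of the 1/cosh integral on rational functions

For g(t) = sum over k in K of alpha_k/(t+k)^2 + beta_k/(t+k) with sum of beta = 0 this file gives
`J_form_gen` (the integral of g(u/2) against 1/(2 cosh) is 2 (sum alpha) zeta(2) - rational) and
`Iint_form` (the integral of g against the squared kernel is 2 (sum alpha) zeta(3) - rational),
together with analyticity, growth and the moves across zeros of g.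
-/

open Finset Filter Topology Complex
open scoped BigOperators

namespace Pool.Agent.Z23

open Pool.Agent.Z3 (PolyGrowth line_re line_im Iint H Ker zeta3)

/-- alternating harmonic sums -/
def AH (s r : ℕ) : ℚ := ∑ i ∈ range r, (-1) ^ i / ((i : ℚ) + 1) ^ s

/-- zeta(2) -/
noncomputable def zeta2 : ℝ := ∑' n : ℕ, 1 / ((n : ℝ) + 1) ^ 2

theorem norm_J_le (m : ℤ) (g : ℂ → ℂ) (C : ℝ)
    (h : ∀ y : ℝ, ‖g ((m : ℂ) - 1 / 2 + (y : ℂ) * Complex.I)‖ ≤ C) : ‖J m g‖ ≤ C / 2 := by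
  unfold J
  calc ‖∫ y : ℝ, g ((m : ℂ) - 1 / 2 + (y : ℂ) * Complex.I) * (Ks y : ℂ)‖
      ≤ ∫ y : ℝ, ‖g ((m : ℂ) - 1 / 2 + (y : ℂ) * Complex.I) * (Ks y : ℂ)‖ :=
        MeasureTheory.norm_integral_le_integral_norm _
    _ ≤ ∫ y : ℝ, C * Ks y := by
        apply MeasureTheory.integral_mono_of_nonneg
        · exact Filter.Eventually.of_forall (fun y => norm_nonneg _)
        · exact integrable_Ks.const_mul C
        · refine Filter.Eventually.of_forall (fun y => ?_)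
          simp only [norm_mul, Complex.norm_real, Real.norm_of_nonneg (Ks_pos y).le]
          exact mul_le_mul_of_nonneg_right (h y) (Ks_pos y).le
    _ = C / 2 := by rw [MeasureTheory.integral_const_mul, integral_Ks]; ring

theorem J_telescope (m : ℤ) (g : ℂ → ℂ) (M : ℕ)
    (h : ∀ i : ℕ, i < M → J (m + i) g + J (m + i + 1) g = g ((m + i : ℤ) : ℂ)) :
    J m g = (-1) ^ M * J (m + M) g + ∑ i ∈ range M, (-1) ^ i * g ((m + i : ℤ) : ℂ) := by
  induction M with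
  | zero => simp
  | succ M ih =>
    rw [sum_range_succ, ih (fun i hi => h i (by omega))]
    have h1 := h M (by omega)
    have h2 : m + ((M + 1 : ℕ) : ℤ) = m + (M : ℤ) + 1 := by push_cast; ring
    rw [h2, ← h1]
    ring

/-- the integral of a power of 1/u over the line Re u = r + 1/2 -/
noncomputable def cc (s r : ℕ) : ℂ := J ((r : ℤ) + 1) (fun u => 1 / u ^ s)

theorem J_pole (m k : ℤ) (s r : ℕ) (h : m + k = (r : ℤ) + 1) :
    J m (fun u => 1 / (u + (k : ℂ)) ^ s) = cc s r := by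
  unfold cc J
  rw [← h]
  congr 1
  funext y
  have e : (m : ℂ) - 1 / 2 + (y : ℂ) * Complex.I + (k : ℂ) =
      ((m + k : ℤ) : ℂ) - 1 / 2 + (y : ℂ) * Complex.I := by push_cast; ring
  simp only [e]

theorem cc_succ (s r : ℕ) : cc s r + cc s (r + 1) = 1 / ((r : ℂ) + 1) ^ s := by
  have hr : (0 : ℝ) ≤ (r : ℝ) := Nat.cast_nonneg r
  have h := J_shift ((r : ℤ) + 1) (fun u => 1 / u ^ s) {t : ℂ | 0 < t.re}
    (isOpen_lt continuous_const Complex.continuous_re) ?_ ?_ ?_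
  · unfold cc
    have e : (((r + 1 : ℕ) : ℤ) + 1) = (r : ℤ) + 1 + 1 := by push_cast; ring
    rw [e, h]
    push_cast
    rfl
  · intro t h1 _
    simp only [Set.mem_ofPred_eq]
    push_cast at h1
    linarith
  · intro t ht
    have hne : t ≠ 0 := by
      intro h0
      simp only [Set.mem_ofPred_eq, h0, Complex.zero_re] at ht
      exact absurd ht (lt_irrefl _)
    apply DifferentiableAt.differentiableWithinAt
    apply DifferentiableAt.div (differentiableAt_const _)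
    · fun_prop
    · exact pow_ne_zero _ hne
  · refine ⟨2 ^ s, 0, fun t h1 h2 => ?_⟩
    rw [pow_zero, mul_one, norm_div, norm_pow, norm_one]
    have h3 : (1 / 2 : ℝ) ≤ ‖t‖ := by
      have := Complex.re_le_norm t
      push_cast at h1
      linarith
    rw [div_le_iff₀ (by positivity)]
    calc (1 : ℝ) = 2 ^ s * (1 / 2) ^ s := by rw [← mul_pow]; norm_num
      _ ≤ 2 ^ s * ‖t‖ ^ s := by gcongr

theorem cc_eq (s r : ℕ) : cc s r = (-1) ^ r * (cc s 0 - ((AH s r : ℚ) : ℂ)) := by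
  induction r with
  | zero => simp [AH]
  | succ r ih =>
    have h := cc_succ s r
    have h2 : cc s (r + 1) = 1 / ((r : ℂ) + 1) ^ s - cc s r := by rw [← h]; ring
    have h3 : ((AH s (r + 1) : ℚ) : ℂ) = ((AH s r : ℚ) : ℂ) + (-1) ^ r / ((r : ℂ) + 1) ^ s := by
      unfold AH
      rw [sum_range_succ]
      push_cast
      ring
    have h4 : ((-1 : ℂ) ^ r) * (-1) ^ r = 1 := by
      rw [← mul_pow]; norm_num
    rw [h2, h3, ih, pow_succ]
    linear_combination (1 / ((r : ℂ) + 1) ^ s) * (-h4)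

theorem cc_norm (s r : ℕ) (hs : 1 ≤ s) (hr : 1 ≤ r) : ‖cc s r‖ ≤ 1 / (r : ℝ) := by
  have hr' : (1 : ℝ) ≤ (r : ℝ) := by exact_mod_cast hr
  have h := norm_J_le ((r : ℤ) + 1) (fun u => 1 / u ^ s) (1 / (r : ℝ)) ?_
  · have h2 : (0 : ℝ) < 1 / (r : ℝ) := by positivity
    unfold cc
    linarith
  · intro y
    rw [norm_div, norm_pow, norm_one]
    have h3 : (r : ℝ) ≤ ‖(((r : ℤ) + 1 : ℤ) : ℂ) - 1 / 2 + (y : ℂ) * Complex.I‖ := by
      have := Complex.re_le_norm ((((r : ℤ) + 1 : ℤ) : ℂ) - 1 / 2 + (y : ℂ) * Complex.I)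
      rw [line_re] at this
      push_cast at this ⊢
      linarith
    apply one_div_le_one_div_of_le (by positivity)
    calc (r : ℝ) ≤ ‖(((r : ℤ) + 1 : ℤ) : ℂ) - 1 / 2 + (y : ℂ) * Complex.I‖ := h3
      _ ≤ _ := le_self_pow₀ (by linarith) (by omega)

theorem cc_tend (s : ℕ) (hs : 1 ≤ s) : Tendsto (fun r : ℕ => cc s r) atTop (𝓝 0) := by
  apply squeeze_zero_norm' (a := fun r : ℕ => 1 / (r : ℝ))
  · filter_upwards [eventually_ge_atTop 1] with r hr
    exact cc_norm s r hs hr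
  · exact tendsto_const_div_atTop_nhds_zero_nat 1

theorem AH_tend (s : ℕ) (hs : 1 ≤ s) :
    Tendsto (fun r : ℕ => ((AH s r : ℚ) : ℂ)) atTop (𝓝 (cc s 0)) := by
  have h := cc_tend s hs
  have h2 : Tendsto (fun r : ℕ => cc s 0 - (-1) ^ r * cc s r) atTop (𝓝 (cc s 0 - 0)) := by
    refine tendsto_const_nhds.sub ?_
    apply squeeze_zero_norm (a := fun r : ℕ => ‖cc s r‖)
    · intro r
      rw [norm_mul, norm_pow, norm_neg, norm_one, one_pow, one_mul]
    · simpa using h.norm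
  rw [sub_zero] at h2
  refine h2.congr (fun r => ?_)
  have h4 : ((-1 : ℂ) ^ r) * (-1) ^ r = 1 := by
    rw [← mul_pow]; norm_num
  rw [cc_eq s r]
  linear_combination (-(cc s 0 - ((AH s r : ℚ) : ℂ))) * h4

/-- the alternating sum over an even range in terms of the ordinary sums -/
theorem AH_even (r : ℕ) : AH 2 (2 * r) = H 2 (2 * r) - H 2 r / 2 := by
  induction r with
  | zero => simp [AH, H]
  | succ r ih =>
    have e : 2 * (r + 1) = 2 * r + 1 + 1 := by ring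
    have h1 : AH 2 (2 * (r + 1)) = AH 2 (2 * r) + (-1) ^ (2 * r) / (((2 * r : ℕ) : ℚ) + 1) ^ 2 +
        (-1) ^ (2 * r + 1) / (((2 * r + 1 : ℕ) : ℚ) + 1) ^ 2 := by
      rw [e]; unfold AH; rw [sum_range_succ, sum_range_succ]
    have h2 : H 2 (2 * (r + 1)) = H 2 (2 * r) + 1 / (((2 * r : ℕ) : ℚ) + 1) ^ 2 +
        1 / (((2 * r + 1 : ℕ) : ℚ) + 1) ^ 2 := by
      rw [e]; unfold H; rw [sum_range_succ, sum_range_succ]
    have h3 : H 2 (r + 1) = H 2 r + 1 / ((r : ℚ) + 1) ^ 2 := by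
      unfold H; rw [sum_range_succ]
    have h6 : (-1 : ℚ) ^ (2 * r) = 1 := by rw [pow_mul]; norm_num
    have h7 : (-1 : ℚ) ^ (2 * r + 1) = -1 := by rw [pow_add, h6]; norm_num
    rw [h1, h2, h3, ih, h6, h7]
    have h5 : ((r : ℚ) + 1) ≠ 0 := by positivity
    push_cast
    field_simp
    ring

theorem H2_tend : Tendsto (fun r : ℕ => ((H 2 r : ℚ) : ℝ)) atTop (𝓝 zeta2) := by
  have hsum : Summable (fun i : ℕ => 1 / ((i : ℝ) + 1) ^ 2) := by
    have := (summable_nat_add_iff 1).mpr (Real.summable_one_div_nat_pow.mpr (show 1 < 2 by omega))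
    simpa using this
  have hlim := hsum.hasSum.tendsto_sum_nat
  refine hlim.congr (fun r => ?_)
  unfold H
  push_cast
  rfl

theorem cc_two : cc 2 0 = ((zeta2 / 2 : ℝ) : ℂ) := by
  have h1 := AH_tend 2 (by norm_num)
  have h2 : Tendsto (fun r : ℕ => 2 * r) atTop atTop :=
    tendsto_atTop_mono (fun r => Nat.le_mul_of_pos_left r (by norm_num)) tendsto_id
  have h3 := h1.comp h2
  have h4 : Tendsto (fun r : ℕ => ((H 2 (2 * r) : ℚ) : ℝ) - ((H 2 r : ℚ) : ℝ) / 2) atTop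
      (𝓝 (zeta2 - zeta2 / 2)) := (H2_tend.comp h2).sub (H2_tend.div_const 2)
  have h5 : Tendsto (fun r : ℕ => (((((H 2 (2 * r) : ℚ) : ℝ) - ((H 2 r : ℚ) : ℝ) / 2 : ℝ)) : ℂ))
      atTop (𝓝 ((zeta2 - zeta2 / 2 : ℝ) : ℂ)) := (Complex.continuous_ofReal.tendsto _).comp h4
  have h6 := tendsto_nhds_unique h3 (h5.congr (fun r => by
    simp only [Function.comp_apply]
    rw [AH_even]
    push_cast
    ring))
  rw [h6]
  push_cast
  ring

/-- the value on a double pole -/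
theorem J_pole2 (m k : ℤ) (r : ℕ) (h : m + k = (r : ℤ) + 1) :
    J m (fun u => 1 / (u + (k : ℂ)) ^ 2) = (-1) ^ r * ((zeta2 : ℂ) / 2 - ((AH 2 r : ℚ) : ℂ)) := by
  rw [J_pole m k 2 r h, cc_eq, cc_two]
  push_cast
  ring

/-- the value on a simple pole -/
theorem J_pole1 (m k : ℤ) (r : ℕ) (h : m + k = (r : ℤ) + 1) :
    J m (fun u => 1 / (u + (k : ℂ))) = (-1) ^ r * (cc 1 0 - ((AH 1 r : ℚ) : ℂ)) := by
  have := J_pole m k 1 r h
  simp only [pow_one] at this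
  rw [this, cc_eq]

/-- a rational function given by its partial fractions -/
noncomputable def pfun (K : Finset ℕ) (α β : ℕ → ℚ) (t : ℂ) : ℂ :=
  ∑ k ∈ K, ((α k : ℂ) / (t + (k : ℂ)) ^ 2 + (β k : ℂ) / (t + (k : ℂ)))

theorem ne_of_re (a k : ℕ) (hk : a ≤ k) {t : ℂ} (ht : -(a : ℝ) < t.re) : t + (k : ℂ) ≠ 0 := by
  intro h0
  have h1 := congrArg Complex.re h0
  have h2 : (a : ℝ) ≤ k := by exact_mod_cast hk
  simp at h1
  linarith

theorem pf_diffOn (K : Finset ℕ) (α β : ℕ → ℚ) (a : ℕ) (ha : ∀ k ∈ K, a ≤ k) :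
    DifferentiableOn ℂ (pfun K α β) {t : ℂ | -(a : ℝ) < t.re} := by
  intro t ht
  apply DifferentiableAt.differentiableWithinAt
  unfold pfun
  apply DifferentiableAt.fun_sum
  intro k hk
  have := ne_of_re a k (ha k hk) ht
  apply DifferentiableAt.add
  · exact (differentiableAt_const _).div (by fun_prop) (pow_ne_zero _ this)
  · exact (differentiableAt_const _).div (by fun_prop) this

theorem pf_bound (K : Finset ℕ) (α β : ℕ → ℚ) (a : ℕ) (ha : ∀ k ∈ K, a ≤ k) (δ : ℝ) (hδ : 0 < δ)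
    (t : ℂ) (ht : -(a : ℝ) + δ ≤ t.re) :
    ‖pfun K α β t‖ ≤ ∑ k ∈ K, (‖(α k : ℂ)‖ / δ ^ 2 + ‖(β k : ℂ)‖ / δ) := by
  unfold pfun
  apply (norm_sum_le _ _).trans
  apply sum_le_sum
  intro k hk
  have h3 : δ ≤ ‖t + (k : ℂ)‖ := by
    have h4 := Complex.re_le_norm (t + (k : ℂ))
    have h2 : (a : ℝ) ≤ k := by exact_mod_cast ha k hk
    simp only [Complex.add_re, Complex.natCast_re] at h4
    linarith
  have h5 : (0 : ℝ) < ‖t + (k : ℂ)‖ := by linarith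
  apply (norm_add_le _ _).trans
  apply add_le_add
  · rw [norm_div, norm_pow]
    gcongr
  · rw [norm_div]
    gcongr

theorem jpole_integrable (m : ℤ) (k : ℕ) (s : ℕ) (hm : 1 ≤ m + k) (c : ℂ) :
    MeasureTheory.Integrable
      (fun y : ℝ => c / (((m : ℂ) - 1 / 2 + (y : ℂ) * Complex.I) + (k : ℂ)) ^ s * (Ks y : ℂ)) := by
  have h1 : (1 : ℝ) ≤ (m : ℝ) + k := by exact_mod_cast hm
  have hre : ∀ y : ℝ, (((m : ℂ) - 1 / 2 + (y : ℂ) * Complex.I) + (k : ℂ)).re =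
      (m : ℝ) - 1 / 2 + k := by
    intro y; simp
  have hge : ∀ y : ℝ, (1 / 2 : ℝ) ≤ ‖((m : ℂ) - 1 / 2 + (y : ℂ) * Complex.I) + (k : ℂ)‖ := by
    intro y
    have := Complex.re_le_norm (((m : ℂ) - 1 / 2 + (y : ℂ) * Complex.I) + (k : ℂ))
    rw [hre] at this
    linarith
  apply integrable_Ks_mul (fun y : ℝ => c / (((m : ℂ) - 1 / 2 + (y : ℂ) * Complex.I) + (k : ℂ)) ^ s)
    (C := ‖c‖ * 2 ^ s) (d := 0)
  · apply Continuous.div continuous_const (by fun_prop)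
    intro y
    apply pow_ne_zero
    intro h0
    have := hge y
    rw [h0, norm_zero] at this
    linarith
  · intro y
    rw [pow_zero, mul_one, norm_div, norm_pow,
      div_le_iff₀ (pow_pos (lt_of_lt_of_le (by norm_num) (hge y)) _), mul_assoc]
    calc ‖c‖ = ‖c‖ * (2 ^ s * (1 / 2) ^ s) := by rw [← mul_pow]; norm_num
      _ ≤ ‖c‖ * (2 ^ s * ‖((m : ℂ) - 1 / 2 + (y : ℂ) * Complex.I) + (k : ℂ)‖ ^ s) := by
        gcongr
        exact hge y

theorem ipole_integrable (m : ℤ) (k : ℕ) (s : ℕ) (hm : 1 ≤ m + k) (c : ℂ) :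
    MeasureTheory.Integrable
      (fun y : ℝ => c / (((m : ℂ) - 1 / 2 + (y : ℂ) * Complex.I) + (k : ℂ)) ^ s * (Ker y : ℂ)) := by
  have h1 : (1 : ℝ) ≤ (m : ℝ) + k := by exact_mod_cast hm
  have hre : ∀ y : ℝ, (((m : ℂ) - 1 / 2 + (y : ℂ) * Complex.I) + (k : ℂ)).re =
      (m : ℝ) - 1 / 2 + k := by
    intro y; simp
  have hge : ∀ y : ℝ, (1 / 2 : ℝ) ≤ ‖((m : ℂ) - 1 / 2 + (y : ℂ) * Complex.I) + (k : ℂ)‖ := by
    intro y
    have := Complex.re_le_norm (((m : ℂ) - 1 / 2 + (y : ℂ) * Complex.I) + (k : ℂ))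
    rw [hre] at this
    linarith
  apply Z3.integrable_Ker_mul
    (fun y : ℝ => c / (((m : ℂ) - 1 / 2 + (y : ℂ) * Complex.I) + (k : ℂ)) ^ s)
    (C := ‖c‖ * 2 ^ s) (d := 0)
  · apply Continuous.div continuous_const (by fun_prop)
    intro y
    apply pow_ne_zero
    intro h0
    have := hge y
    rw [h0, norm_zero] at this
    linarith
  · intro y
    rw [pow_zero, mul_one, norm_div, norm_pow,
      div_le_iff₀ (pow_pos (lt_of_lt_of_le (by norm_num) (hge y)) _), mul_assoc]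
    calc ‖c‖ = ‖c‖ * (2 ^ s * (1 / 2) ^ s) := by rw [← mul_pow]; norm_num
      _ ≤ ‖c‖ * (2 ^ s * ‖((m : ℂ) - 1 / 2 + (y : ℂ) * Complex.I) + (k : ℂ)‖ ^ s) := by
        gcongr
        exact hge y

theorem line_re_lt (m : ℤ) (a : ℕ) (hm : 1 ≤ m + a) (y : ℝ) :
    -(a : ℝ) < ((m : ℂ) - 1 / 2 + (y : ℂ) * Complex.I).re := by
  have : (1 : ℝ) ≤ (m : ℝ) + a := by exact_mod_cast hm
  rw [line_re]
  linarith

/-- linearity of `J` on partial fractions -/
theorem J_pf (m : ℤ) (K : Finset ℕ) (α β : ℕ → ℚ) (a : ℕ) (ha : ∀ k ∈ K, a ≤ k)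
    (hm : 1 ≤ m + a) :
    J m (pfun K α β) = ∑ k ∈ K, ((α k : ℂ) * J m (fun t => 1 / (t + ((k : ℤ) : ℂ)) ^ 2) +
      (β k : ℂ) * J m (fun t => 1 / (t + ((k : ℤ) : ℂ)))) := by
  unfold J
  have h1 : ∀ y : ℝ, pfun K α β ((m : ℂ) - 1 / 2 + (y : ℂ) * Complex.I) * (Ks y : ℂ) =
      ∑ k ∈ K, ((α k : ℂ) / (((m : ℂ) - 1 / 2 + (y : ℂ) * Complex.I) + (k : ℂ)) ^ 2 * (Ks y : ℂ) +
        (β k : ℂ) / (((m : ℂ) - 1 / 2 + (y : ℂ) * Complex.I) + (k : ℂ)) ^ 1 * (Ks y : ℂ)) := by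
    intro y
    rw [pfun, sum_mul]
    apply sum_congr rfl
    intro k _
    rw [add_mul, pow_one]
  simp_rw [h1]
  have hmk : ∀ k ∈ K, (1 : ℤ) ≤ m + k := fun k hk => by
    have := ha k hk
    omega
  rw [MeasureTheory.integral_finsetSum]
  · apply sum_congr rfl
    intro k hk
    rw [MeasureTheory.integral_add (jpole_integrable m k 2 (hmk k hk) _)
      (jpole_integrable m k 1 (hmk k hk) _)]
    congr 1
    · rw [← MeasureTheory.integral_const_mul]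
      congr 1
      funext y
      push_cast
      ring
    · rw [← MeasureTheory.integral_const_mul]
      congr 1
      funext y
      push_cast
      ring
  · intro k hk
    exact (jpole_integrable m k 2 (hmk k hk) _).add (jpole_integrable m k 1 (hmk k hk) _)

/-- linearity of `Iint` on partial fractions -/
theorem Iint_pf (m : ℤ) (K : Finset ℕ) (α β : ℕ → ℚ) (a : ℕ) (ha : ∀ k ∈ K, a ≤ k)
    (hm : 1 ≤ m + a) :
    Iint m (pfun K α β) = ∑ k ∈ K, ((α k : ℂ) * Iint m (fun t => 1 / (t + ((k : ℤ) : ℂ)) ^ 2) +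
      (β k : ℂ) * Iint m (fun t => 1 / (t + ((k : ℤ) : ℂ)))) := by
  unfold Iint
  have h1 : ∀ y : ℝ, pfun K α β ((m : ℂ) - 1 / 2 + (y : ℂ) * Complex.I) * (Ker y : ℂ) =
      ∑ k ∈ K, ((α k : ℂ) / (((m : ℂ) - 1 / 2 + (y : ℂ) * Complex.I) + (k : ℂ)) ^ 2 * (Ker y : ℂ) +
        (β k : ℂ) / (((m : ℂ) - 1 / 2 + (y : ℂ) * Complex.I) + (k : ℂ)) ^ 1 * (Ker y : ℂ)) := by
    intro y
    rw [pfun, sum_mul]
    apply sum_congr rfl
    intro k _
    rw [add_mul, pow_one]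
  simp_rw [h1]
  have hmk : ∀ k ∈ K, (1 : ℤ) ≤ m + k := fun k hk => by
    have := ha k hk
    omega
  rw [MeasureTheory.integral_finsetSum]
  · apply sum_congr rfl
    intro k hk
    rw [MeasureTheory.integral_add (ipole_integrable m k 2 (hmk k hk) _)
      (ipole_integrable m k 1 (hmk k hk) _)]
    congr 1
    · rw [← MeasureTheory.integral_const_mul]
      congr 1
      funext y
      push_cast
      ring
    · rw [← MeasureTheory.integral_const_mul]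
      congr 1
      funext y
      push_cast
      ring
  · intro k hk
    exact (ipole_integrable m k 2 (hmk k hk) _).add (ipole_integrable m k 1 (hmk k hk) _)

/-- `J` only sees the values on the line -/
theorem J_congr (m : ℤ) (f g : ℂ → ℂ)
    (h : ∀ y : ℝ, f ((m : ℂ) - 1 / 2 + (y : ℂ) * Complex.I) =
      g ((m : ℂ) - 1 / 2 + (y : ℂ) * Complex.I)) : J m f = J m g := by
  unfold J
  congr 1
  funext y
  rw [h y]

theorem Iint_congr (m : ℤ) (f g : ℂ → ℂ)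
    (h : ∀ y : ℝ, f ((m : ℂ) - 1 / 2 + (y : ℂ) * Complex.I) =
      g ((m : ℂ) - 1 / 2 + (y : ℂ) * Complex.I)) : Iint m f = Iint m g := by
  unfold Iint
  congr 1
  funext y
  rw [h y]

/-- the form with zeta(3) -/
theorem Iint_form (g : ℂ → ℂ) (K : Finset ℕ) (α β : ℕ → ℚ) (a : ℕ) (ha : ∀ k ∈ K, a ≤ k)
    (hg : ∀ t : ℂ, (∀ k ∈ K, t + (k : ℂ) ≠ 0) → g t = pfun K α β t) (hβ : ∑ k ∈ K, β k = 0) :
    Iint (-(a : ℤ) + 1) g = ((2 * ∑ k ∈ K, α k : ℚ) : ℂ) * (zeta3 : ℂ) -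
      ((∑ k ∈ K, (2 * α k * H 3 (k - a) + β k * H 2 (k - a)) : ℚ) : ℂ) := by
  rw [Iint_congr _ g (pfun K α β) (fun y => hg _ (fun k hk =>
    ne_of_re a k (ha k hk) (line_re_lt _ a (by omega) y))),
    Iint_pf _ K α β a ha (by omega)]
  have h2 : ∀ k ∈ K, ((α k : ℂ) * Iint (-(a : ℤ) + 1) (fun t => 1 / (t + ((k : ℤ) : ℂ)) ^ 2) +
      (β k : ℂ) * Iint (-(a : ℤ) + 1) (fun t => 1 / (t + ((k : ℤ) : ℂ)))) =
      2 * (α k : ℂ) * (zeta3 : ℂ) -
      (2 * (α k : ℂ) * ((H 3 (k - a) : ℚ) : ℂ) + (β k : ℂ) * ((H 2 (k - a) : ℚ) : ℂ)) +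
      (β k : ℂ) * ((∑' i : ℕ, 1 / ((i : ℝ) + 1) ^ 2 : ℝ) : ℂ) := by
    intro k hk
    have hk1 := ha k hk
    have h3 : ((-(a : ℤ) + 1) + (k : ℤ) - 1).toNat = k - a := by omega
    rw [Z3.Iint_pole2 _ _ (by omega), Z3.Iint_pole1 _ _ (by omega), h3]
    ring
  rw [sum_congr rfl h2, sum_add_distrib, sum_sub_distrib, ← sum_mul, ← sum_mul]
  have h4 : ∑ k ∈ K, (β k : ℂ) = 0 := by exact_mod_cast hβ
  rw [h4, zero_mul, add_zero]
  push_cast
  rw [mul_sum]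

theorem ne_of_re_half (U k : ℕ) (hk : U ≤ 2 * k) {u : ℂ} (hu : -(U : ℝ) < u.re) :
    u / 2 + (k : ℂ) ≠ 0 := by
  intro h0
  have h1 := congrArg Complex.re h0
  have h2 : (U : ℝ) ≤ 2 * k := by exact_mod_cast hk
  have h3 : (u / 2).re = u.re / 2 := by simp
  rw [Complex.add_re, h3, Complex.natCast_re, Complex.zero_re] at h1
  linarith

/-- the form with zeta(2): the function `g (u/2)` on the line Re u = -U + 1/2 -/
theorem J_form_gen (g : ℂ → ℂ) (K : Finset ℕ) (α β : ℕ → ℚ) (U : ℕ) (hU : ∀ k ∈ K, U ≤ 2 * k)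
    (hg : ∀ t : ℂ, (∀ k ∈ K, t + (k : ℂ) ≠ 0) → g t = pfun K α β t) (hβ : ∑ k ∈ K, β k = 0) :
    (-1) ^ U * J (-(U : ℤ) + 1) (fun u => g (u / 2)) =
      ((2 * ∑ k ∈ K, α k : ℚ) : ℂ) * (zeta2 : ℂ) -
      ((∑ k ∈ K, (4 * α k * AH 2 (2 * k - U) + 2 * β k * AH 1 (2 * k - U)) : ℚ) : ℂ) := by
  classical
  set K' : Finset ℕ := K.image (fun k => 2 * k) with hK'
  set α' : ℕ → ℚ := fun k => 4 * α (k / 2) with hα'
  set β' : ℕ → ℚ := fun k => 2 * β (k / 2) with hβ'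
  have hinj : ∀ x ∈ K, ∀ y ∈ K, (fun k => 2 * k) x = (fun k => 2 * k) y → x = y := by
    intro x _ y _ hxy
    simp only at hxy
    omega
  have ha' : ∀ k ∈ K', U ≤ k := by
    intro k hk
    rw [hK', mem_image] at hk
    obtain ⟨k0, h0, rfl⟩ := hk
    have := hU k0 h0
    omega
  have hpf : ∀ u : ℂ, pfun K α β (u / 2) = pfun K' α' β' u := by
    intro u
    unfold pfun
    rw [hK', sum_image hinj]
    apply sum_congr rfl
    intro k _
    have e1 : (2 * k) / 2 = k := by omega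
    simp only [hα', hβ', e1]
    have e2 : u / 2 + (k : ℂ) = (u + ((2 * k : ℕ) : ℂ)) / 2 := by push_cast; ring
    rw [e2]
    by_cases h0 : u + ((2 * k : ℕ) : ℂ) = 0
    · rw [h0]; simp
    · push_cast at h0 ⊢
      field_simp
      ring
  have hline : ∀ y : ℝ, (fun u => g (u / 2)) (((-(U : ℤ) + 1 : ℤ) : ℂ) - 1 / 2 +
      (y : ℂ) * Complex.I) = pfun K' α' β' (((-(U : ℤ) + 1 : ℤ) : ℂ) - 1 / 2 +
      (y : ℂ) * Complex.I) := by
    intro y
    rw [← hpf]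
    apply hg
    intro k hk
    exact ne_of_re_half U k (hU k hk) (line_re_lt (-(U : ℤ) + 1) U (by omega) y)
  rw [J_congr _ _ _ hline, J_pf _ K' α' β' U ha' (by omega), hK', sum_image hinj, mul_sum]
  have h2 : ∀ k ∈ K, (-1) ^ U * ((α' (2 * k) : ℂ) *
      J (-(U : ℤ) + 1) (fun t => 1 / (t + (((2 * k : ℕ) : ℤ) : ℂ)) ^ 2) +
      (β' (2 * k) : ℂ) * J (-(U : ℤ) + 1) (fun t => 1 / (t + (((2 * k : ℕ) : ℤ) : ℂ)))) =
      2 * (α k : ℂ) * (zeta2 : ℂ) -
      (4 * (α k : ℂ) * ((AH 2 (2 * k - U) : ℚ) : ℂ) +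
        2 * (β k : ℂ) * ((AH 1 (2 * k - U) : ℚ) : ℂ)) +
      (β k : ℂ) * (2 * cc 1 0) := by
    intro k hk
    have hk1 := hU k hk
    have e1 : (2 * k) / 2 = k := by omega
    have h3 : (-(U : ℤ) + 1) + ((2 * k : ℕ) : ℤ) = ((2 * k - U : ℕ) : ℤ) + 1 := by
      push_cast [Nat.cast_sub hk1]
      ring
    have h5 : ((-1 : ℂ)) ^ U * (-1) ^ (2 * k - U) = 1 := by
      rw [← pow_add, show U + (2 * k - U) = 2 * k by omega, pow_mul]
      norm_num
    rw [J_pole2 _ _ _ h3, J_pole1 _ _ _ h3]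
    simp only [hα', hβ', e1]
    push_cast
    linear_combination ((4 * (α k : ℂ) * ((zeta2 : ℂ) / 2 - ((AH 2 (2 * k - U) : ℚ) : ℂ))) +
      2 * (β k : ℂ) * (cc 1 0 - ((AH 1 (2 * k - U) : ℚ) : ℂ))) * h5
  rw [sum_congr rfl h2, sum_add_distrib, sum_sub_distrib, ← sum_mul, ← sum_mul]
  have h4 : ∑ k ∈ K, (β k : ℂ) = 0 := by exact_mod_cast hβ
  rw [h4, zero_mul, add_zero]
  push_cast
  rw [mul_sum]

end Pool.Agent.Z23
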