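import Pool.Agent.Z23.Assemble
import Pool.Agent.Z23.JForm

/-!
Conclusions: from integer relations between 1, zeta(2), zeta(3) to statements about pi ^ 2 and the
Riemann zeta function.
-/

open Filter Topology

namespace Pool.Agent.Z23

open Pool.Agent.Z3 (zeta3)

/-- the series for zeta(2) -/
theorem zeta2_eq_pi : zeta2 = Real.pi ^ 2 / 6 := by
  have h := hasSum_zeta_two
  have h1 := h.summable.tsum_eq_zero_add
  rw [h.tsum_eq] at h1
  rw [h1]
  unfold zeta2
  simp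

/-- from the pair (zeta(2), zeta(3)) to the pair (pi ^ 2, zeta(3)) -/
theorem linInd_pi (h : ∀ x y z : ℤ, (x : ℝ) * zeta2 + (y : ℝ) * zeta3 + (z : ℝ) = 0 →
    x = 0 ∧ y = 0 ∧ z = 0) :
    LinearIndependent ℚ ![(1 : ℝ), Real.pi ^ 2, ∑' n : ℕ, 1 / ((n : ℝ) + 1) ^ 3] := by
  refine linInd_of_int _ _ fun x y z hxyz => ?_
  have h1 : Real.pi ^ 2 = 6 * zeta2 := by
    rw [zeta2_eq_pi]
    ring
  rw [h1] at hxyz
  obtain ⟨hx, hy, hz⟩ := h (6 * x) y z (by
    unfold zeta3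
    push_cast
    linear_combination hxyz)
  exact ⟨by omega, hy, hz⟩

/-- zeta(3) is not a rational combination of 1 and pi ^ 2 -/
theorem zeta3_ne (h : ∀ x y z : ℤ, (x : ℝ) * zeta2 + (y : ℝ) * zeta3 + (z : ℝ) = 0 →
    x = 0 ∧ y = 0 ∧ z = 0) (r s : ℚ) :
    ∑' n : ℕ, 1 / ((n : ℝ) + 1) ^ 3 ≠ r + s * Real.pi ^ 2 := by
  intro hcon
  have hl := linInd_pi h
  rw [Fintype.linearIndependent_iff] at hl
  have := hl ![r, s, -1] (by
    simp only [Fin.sum_univ_three, Rat.smul_def, Matrix.cons_val_zero, Matrix.cons_val_one,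
      Matrix.cons_val]
    rw [hcon]
    push_cast
    ring) 2
  simp at this

/-- zeta(3) / pi ^ 2 is irrational -/
theorem irrational_div (h : ∀ x y z : ℤ, (x : ℝ) * zeta2 + (y : ℝ) * zeta3 + (z : ℝ) = 0 →
    x = 0 ∧ y = 0 ∧ z = 0) :
    Irrational ((∑' n : ℕ, 1 / ((n : ℝ) + 1) ^ 3) / Real.pi ^ 2) := by
  rintro ⟨q, hq⟩
  have hpi : Real.pi ^ 2 ≠ 0 := by positivity
  rw [eq_div_iff hpi] at hq
  exact zeta3_ne h 0 q (by rw [← hq]; push_cast; ring)

/-- the values of the Riemann zeta function -/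
theorem linInd_riemannZeta (h : ∀ x y z : ℤ, (x : ℝ) * zeta2 + (y : ℝ) * zeta3 + (z : ℝ) = 0 →
    x = 0 ∧ y = 0 ∧ z = 0) :
    LinearIndependent ℚ ![(1 : ℂ), riemannZeta 2, riemannZeta 3] := by
  have hl := linInd_of_int _ _ h
  have e2 : riemannZeta 2 = ((zeta2 : ℝ) : ℂ) := by
    rw [zeta2_eq_pi, riemannZeta_two]
    push_cast
    ring
  have e3 : riemannZeta 3 = ((zeta3 : ℝ) : ℂ) := by
    have h := zeta_nat_eq_tsum_of_gt_one (k := 3) (by norm_num)
    rw [show ((3 : ℕ) : ℂ) = 3 by norm_num] at h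
    rw [h, zeta3]
    push_cast
    have hs : Summable (fun n : ℕ => 1 / (n : ℂ) ^ 3) := by
      have h1 : Summable (fun n : ℕ => 1 / (n : ℝ) ^ 3) :=
        Real.summable_one_div_nat_pow.mpr (by norm_num)
      have h2 := Complex.ofRealCLM.summable h1
      refine h2.congr fun n => ?_
      simp
    rw [hs.tsum_eq_zero_add]
    simp
  rw [Fintype.linearIndependent_iff] at hl ⊢
  intro g hg
  refine hl g ?_
  simp only [Fin.sum_univ_three, Rat.smul_def, Matrix.cons_val_zero, Matrix.cons_val_one,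
    Matrix.cons_val] at hg ⊢
  rw [e2, e3] at hg
  exact_mod_cast hg

end Pool.Agent.Z23
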