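import Pool.Agent.Z23.CrudeGen
import Pool.Agent.Z23.FormG

/-!
Crude p-adic bounds for the two linear forms of block data, all primes.
-/

open Finset

namespace Pool.Agent.Z23

open Pool.Agent.Z3 (H)

section

variable {p : ℕ} [hp : Fact p.Prime]

theorem cg_H (s m M : ℕ) (hm : m ≤ M) : padicNorm p (H s m) ≤ (p : ℚ) ^ (s * Nat.log p M) := by
  unfold H
  refine padicNorm.sum_le' (fun i hi => ?_) (by positivity)
  have h1 : (1 : ℚ) / ((i : ℚ) + 1) ^ s = (1 / (((i + 1 : ℕ) : ℤ) : ℚ)) ^ s := by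
    push_cast
    rw [div_pow, one_pow]
  rw [h1, cg_pow, mul_comm s, pow_mul]
  refine pow_le_pow_left₀ (padicNorm.nonneg _) (cg_inv_le (by positivity) ?_) s
  rw [Finset.mem_range] at hi
  rw [Int.natAbs_natCast]
  omega

theorem cg_AH (s m M : ℕ) (hm : m ≤ M) : padicNorm p (AH s m) ≤ (p : ℚ) ^ (s * Nat.log p M) := by
  unfold AH
  refine padicNorm.sum_le' (fun i hi => ?_) (by positivity)
  have h1 : (-1 : ℚ) ^ i / ((i : ℚ) + 1) ^ s = (-1) ^ i * (1 / (((i + 1 : ℕ) : ℤ) : ℚ)) ^ s := by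
    push_cast
    rw [div_pow, one_pow, mul_one_div]
  rw [h1, cg_neg_one_pow, cg_pow, mul_comm s, pow_mul]
  refine pow_le_pow_left₀ (padicNorm.nonneg _) (cg_inv_le (by positivity) ?_) s
  rw [Finset.mem_range] at hi
  rw [Int.natAbs_natCast]
  omega

theorem cg_nat (m : ℕ) : padicNorm p (m : ℚ) ≤ 1 := by
  exact padicNorm.of_nat m

theorem cg_negpow (j k : ℕ) : padicNorm p ((-(k : ℚ)) ^ j) ≤ 1 := by
  have : (-(k : ℚ)) ^ j = (((-(k : ℤ)) ^ j : ℤ) : ℚ) := by push_cast; rfl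
  rw [this]
  exact padicNorm.of_int _

theorem cg_mul_le {x y c : ℚ} (hx : padicNorm p x ≤ 1) (hy : padicNorm p y ≤ c) :
    padicNorm p (x * y) ≤ c := by
  rw [padicNorm.mul]
  calc _ ≤ 1 * c := mul_le_mul hx hy (padicNorm.nonneg _) zero_le_one
    _ = c := one_mul c

/-- the crude exponent -/
def exC (p M l : ℕ) : ℕ := 6 * Nat.log p M + 7 + if p = 2 then 2 * l else 0

omit hp in
theorem cg_hc (l : ℕ) : hc p l = (p : ℚ) ^ (if p = 2 then 2 * l else 0) := by
  unfold hc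
  split_ifs with h
  · rw [h, pow_mul]
    norm_num
  · rw [pow_zero]

/-- crude bounds for the coefficients and for the two rational parts -/
theorem crudeBD (d : BD) (h : d.OK) (kap : ℚ) (hkap : padicNorm p kap ≤ 1) (M a U : ℕ)
    (hm2 : 1 ≤ d.m2) (hM : 2 * (d.b1 + d.m1) ≤ M) (hM3 : 2 * (d.a3 + d.l3) ≤ M) (j : ℕ) :
    padicNorm p (d.QG kap j) ≤ (p : ℚ) ^ exC p M d.l3 ∧
      padicNorm p (P2 d.K1 (d.AA kap j) (d.BB kap j) U) ≤ (p : ℚ) ^ exC p M d.l3 ∧
      padicNorm p (P3 d.K1 (d.AA kap j) (d.BB kap j) a) ≤ (p : ℚ) ^ exC p M d.l3 := by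
  set L := Nat.log p M with hL
  have hZ : ∀ S ∈ d.Zs, IsBlock S := by
    intro S hS
    simp only [BD.Zs, List.mem_cons, List.not_mem_nil, or_false] at hS
    rcases hS with rfl | rfl
    · exact ⟨_, _, rfl⟩
    · exact ⟨_, _, rfl⟩
  have hH : ∀ S ∈ d.Hs, IsBlock S := by
    intro S hS
    simp only [BD.Hs, List.mem_cons, List.not_mem_nil, or_false] at hS
    subst hS
    exact ⟨_, _, rfl⟩
  have hK1 : IsBlock d.K1 := ⟨_, _, rfl⟩
  have hK2 : IsBlock d.K2 := ⟨_, _, rfl⟩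
  have hlen : d.Zs.length + d.Hs.length = 3 := rfl
  have hsum : (d.Hs.map Finset.card).sum = d.l3 := by
    simp [BD.Hs]
  have hcard : d.K1.card + d.K2.card ≤ degL d.Zs d.Hs + 4 := (BD.card_eq h).le
  have o1 := h.hz1
  have o2 := h.hz2
  have o3 := h.hb
  have o4 := h.hbm
  have hZM : ∀ S ∈ d.Zs, S.card ≤ M := by
    intro S hS
    simp only [BD.Zs, List.mem_cons, List.not_mem_nil, or_false] at hS
    rcases hS with rfl | rfl <;> rw [Nat.card_Ico] <;> omega
  have hHM : ∀ S ∈ d.Hs, S.card ≤ M := by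
    intro S hS
    simp only [BD.Hs, List.mem_cons, List.not_mem_nil, or_false] at hS
    subst hS
    rw [Nat.card_Ico]
    omega
  have hX := fun k => cg_A0L (p := p) d.Zs d.Hs d.K1 d.K2 4 M k hZ hH hK1 hK2 (BD.K2_sub h) hcard hZM hHM
  have hY : ∀ k ∈ d.K1, _ := fun k hk => cg_B0L (p := p) d.Zs d.Hs d.K1 d.K2 4 M k hZ hH hK1 hK2
    (BD.K2_sub h) (by
      refine ⟨d.b2, ?_⟩
      rw [BD.K2, Finset.mem_Ico]
      omega) hcard hZM hHM (by
      intro S hS i hi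
      refine ⟨?_, ?_⟩
      · simp only [BD.Zs, List.mem_cons, List.not_mem_nil, or_false] at hS
        rcases hS with rfl | rfl <;> rw [Finset.mem_Ico] at hi <;> omega
      · rintro rfl
        exact BD.Zs_disj h S hS _ hk hi) (by
      intro S hS i hi
      simp only [BD.Hs, List.mem_cons, List.not_mem_nil, or_false] at hS
      subst hS
      rw [Finset.mem_Ico] at hi
      omega) (by
      intro i hi
      rw [BD.K1, Finset.mem_Ico] at hi
      omega) (by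
      rw [BD.K1, Finset.mem_Ico] at hk
      omega) hk
  rw [hlen, hsum, cg_hc, ← hL] at hX
  rw [hlen, hsum, cg_hc, ← hL] at hY
  simp only [← pow_add] at hX hY
  set c := (if p = 2 then 2 * d.l3 else 0) with hc'
  have hE : exC p M d.l3 = 6 * L + 7 + c := rfl
  rw [hE]
  have hp1 : (1 : ℚ) ≤ (p : ℚ) := cg_one_le hp.out
  have hA : ∀ k, padicNorm p (d.AA kap j k) ≤ (p : ℚ) ^ (4 + 3 * (L + 1) + c) := fun k =>
    cg_mul_le hkap (cg_mul_le (cg_negpow j k) (hX k))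
  have hB : ∀ k ∈ d.K1, padicNorm p (d.BB kap j k) ≤ (p : ℚ) ^ (4 + 3 * (L + 1) + L + c) := by
    intro k hk
    refine cg_mul_le hkap (cg_add_le (cg_mul_le (cg_negpow j k) (hY k hk)) ?_)
    refine (cg_mul_le ?_ (hX k)).trans (pow_le_pow_right₀ hp1 (by omega))
    exact cg_mul_le (cg_nat j) (cg_negpow (j - 1) k)
  have hk1 : ∀ k ∈ d.K1, 2 * k ≤ M := by
    intro k hk
    rw [BD.K1, Finset.mem_Ico] at hk
    omega
  have mulb : ∀ (x y : ℚ) (e f : ℕ), padicNorm p x ≤ (p : ℚ) ^ e → padicNorm p y ≤ (p : ℚ) ^ f →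
      e + f ≤ 6 * L + 7 + c → padicNorm p (x * y) ≤ (p : ℚ) ^ (6 * L + 7 + c) := by
    intro x y e f hx hy hef
    rw [padicNorm.mul]
    calc _ ≤ (p : ℚ) ^ e * (p : ℚ) ^ f := mul_le_mul hx hy (padicNorm.nonneg _) (by positivity)
      _ = (p : ℚ) ^ (e + f) := (pow_add _ _ _).symm
      _ ≤ _ := pow_le_pow_right₀ hp1 hef
  refine ⟨?_, ?_, ?_⟩
  · unfold BD.QG
    refine cg_mul_le (x := (2 : ℚ)) (by exact_mod_cast cg_nat (p := p) 2) ?_
    refine padicNorm.sum_le' (fun k _ => (hA k).trans (pow_le_pow_right₀ hp1 (by omega)))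
      (by positivity)
  · unfold P2
    refine padicNorm.sum_le' (fun k hk => ?_) (by positivity)
    have h2 := hk1 k hk
    refine cg_add_le ?_ ?_
    · refine mulb _ _ (4 + 3 * (L + 1) + c) (2 * L) ?_ (cg_AH 2 _ M (by omega)) (by omega)
      exact cg_mul_le (by exact_mod_cast cg_nat (p := p) 4) (hA k)
    · refine mulb _ _ (4 + 3 * (L + 1) + L + c) (1 * L) ?_ (cg_AH 1 _ M (by omega)) (by omega)
      exact cg_mul_le (by exact_mod_cast cg_nat (p := p) 2) (hB k hk)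
  · unfold P3
    refine padicNorm.sum_le' (fun k hk => ?_) (by positivity)
    have h2 := hk1 k hk
    refine cg_add_le ?_ ?_
    · refine mulb _ _ (4 + 3 * (L + 1) + c) (3 * L) ?_ (cg_H 3 _ M (by omega)) (by omega)
      exact cg_mul_le (by exact_mod_cast cg_nat (p := p) 2) (hA k)
    · exact mulb _ _ (4 + 3 * (L + 1) + L + c) (2 * L) (hB k hk) (cg_H 2 _ M (by omega)) (by omega)

end

end Pool.Agent.Z23
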