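import Pool.Agent.Z23.PF
import Pool.Agent.Z3.Defs

/-!
Crude p-adic bounds, valid for all primes, for products of integer blocks and half-integer
blocks. Everything is parameter-free.
-/

open Finset

namespace Pool.Agent.Z23

section

variable {p : ℕ} [hp : Fact p.Prime]

omit hp in
theorem cg_one_le (hp : p.Prime) : (1 : ℚ) ≤ (p : ℚ) := by exact_mod_cast hp.one_lt.le

/-- the p-adic norm of a block of consecutive shifts of a p-integral number -/
theorem cg_block (q : ℚ) (hq : padicNorm p q ≤ 1) (m : ℕ) :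
    padicNorm p (∏ i ∈ range m, (q + (i : ℚ))) ≤ padicNorm p (m.factorial : ℚ) := by
  have hq' : ‖(q : ℚ_[p])‖ ≤ 1 := by
    rw [Padic.eq_padicNorm]
    exact_mod_cast hq
  obtain ⟨x, hx⟩ : ∃ x : ℤ_[p], (x : ℚ_[p]) = (q : ℚ_[p]) := ⟨⟨_, hq'⟩, rfl⟩
  have h1 := PadicInt.norm_ascPochhammer_le m x
  have h2 : (((ascPochhammer ℤ_[p] m).eval x : ℤ_[p]) : ℚ_[p]) =
      ((∏ i ∈ range m, (q + (i : ℚ)) : ℚ) : ℚ_[p]) := by
    clear h1
    induction m with
    | zero => simp
    | succ m ih =>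
      rw [ascPochhammer_succ_eval, PadicInt.coe_mul, ih, Finset.prod_range_succ, PadicInt.coe_add,
        PadicInt.coe_natCast, hx]
      push_cast
      rfl
  have h3 : ((m.factorial : ℤ_[p]) : ℚ_[p]) = (((m.factorial : ℕ) : ℚ) : ℚ_[p]) := by
    push_cast
    rfl
  rw [PadicInt.norm_def, PadicInt.norm_def, h2, h3, Padic.eq_padicNorm, Padic.eq_padicNorm] at h1
  exact_mod_cast h1

theorem cg_prod_le (S : Finset ℕ) (f : ℕ → ℚ) (c : ℚ) (h : ∀ i ∈ S, padicNorm p (f i) ≤ c) :
    padicNorm p (∏ i ∈ S, f i) ≤ c ^ S.card := by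
  classical
  induction S using Finset.induction_on with
  | empty => simp
  | insert a S ha ih =>
    rw [Finset.prod_insert ha, padicNorm.mul, Finset.card_insert_of_notMem ha, pow_succ, mul_comm]
    have h1 := h a (Finset.mem_insert_self a S)
    have h2 := ih fun i hi => h i (Finset.mem_insert_of_mem hi)
    exact mul_le_mul h2 h1 (padicNorm.nonneg _) ((padicNorm.nonneg _).trans h2)

/-- a finite set of consecutive naturals -/
def IsBlock (S : Finset ℕ) : Prop := ∃ a b : ℕ, S = Ico a b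

theorem cg_zero_block (S : Finset ℕ) (hS : IsBlock S) (k : ℕ) :
    padicNorm p (∏ i ∈ S, (-(k : ℚ) + (i : ℚ))) ≤ padicNorm p (S.card.factorial : ℚ) := by
  obtain ⟨a, b, rfl⟩ := hS
  rw [Finset.prod_Ico_eq_prod_range, Nat.card_Ico]
  have h1 : padicNorm p (((a : ℤ) - (k : ℤ) : ℤ) : ℚ) ≤ 1 := padicNorm.of_int _
  refine le_trans (le_of_eq ?_) (cg_block _ h1 (b - a))
  congr 1
  refine Finset.prod_congr rfl fun i _ => ?_
  push_cast
  ring

/-- the price of the half-integer blocks at the prime two -/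
def hc (p m : ℕ) : ℚ := if p = 2 then 4 ^ m else 1

theorem cg_padicValNat_factorial_le (m : ℕ) : (p - 1) * padicValNat p m.factorial ≤ m := by
  rw [sub_one_mul_padicValNat_factorial]
  omega

omit hp in
theorem cg_fact (m : ℕ) : padicNorm p (m.factorial : ℚ) = ((p : ℚ) ^ padicValNat p m.factorial)⁻¹ := by
  rw [padicNorm.eq_zpow_of_nonzero (by exact_mod_cast m.factorial_ne_zero), padicValRat.of_nat,
    zpow_neg, zpow_natCast]

theorem cg_half_factor_two (i k : ℕ) : padicNorm 2 (-(k : ℚ) + ((i : ℚ) + 1 / 2)) ≤ 2 := by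
  have : Fact (Nat.Prime 2) := ⟨Nat.prime_two⟩
  have h1 : (-(k : ℚ) + ((i : ℚ) + 1 / 2)) = ((2 * (i : ℤ) + 1 - 2 * (k : ℤ) : ℤ) : ℚ) / ((2 : ℕ) : ℚ) := by
    push_cast
    ring
  rw [h1, padicNorm.div, padicNorm.padicNorm_p_of_prime, div_inv_eq_mul]
  calc padicNorm 2 ((2 * (i : ℤ) + 1 - 2 * (k : ℤ) : ℤ) : ℚ) * ((2 : ℕ) : ℚ) ≤ 1 * ((2 : ℕ) : ℚ) :=
        mul_le_mul_of_nonneg_right (padicNorm.of_int _) (by positivity)
    _ = 2 := by norm_num

theorem cg_half_block (S : Finset ℕ) (hS : IsBlock S) (k : ℕ) :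
    padicNorm p (∏ i ∈ S, (-(k : ℚ) + ((i : ℚ) + 1 / 2))) ≤
      padicNorm p (S.card.factorial : ℚ) * hc p S.card := by
  unfold hc
  split_ifs with h2
  · subst h2
    have h3 : padicNorm 2 (∏ i ∈ S, (-(k : ℚ) + ((i : ℚ) + 1 / 2))) ≤ 2 ^ S.card := by
      exact cg_prod_le S _ 2 fun i _ => cg_half_factor_two i k
    have h4 : padicValNat 2 S.card.factorial ≤ S.card := by
      have := cg_padicValNat_factorial_le (p := 2) S.card
      omega
    rw [cg_fact]
    refine h3.trans ?_
    rw [inv_mul_eq_div, le_div_iff₀ (by positivity)]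
    calc (2 : ℚ) ^ S.card * ((2 : ℕ) : ℚ) ^ padicValNat 2 S.card.factorial ≤
        2 ^ S.card * 2 ^ S.card := by
          push_cast
          gcongr
          norm_num
      _ = 4 ^ S.card := by rw [← mul_pow]; norm_num
  · rw [mul_one]
    obtain ⟨a, b, rfl⟩ := hS
    rw [Finset.prod_Ico_eq_prod_range, Nat.card_Ico]
    have h5 : padicNorm p (1 / 2 : ℚ) ≤ 1 := by
      have h6 : padicNorm p ((2 : ℕ) : ℚ) = 1 := by
        have : Fact (Nat.Prime 2) := ⟨Nat.prime_two⟩
        exact padicNorm.padicNorm_of_prime_of_ne h2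
      rw [padicNorm.div, padicNorm.one]
      push_cast at h6
      rw [h6]
      norm_num
    have h1 : padicNorm p ((((a : ℤ) - (k : ℤ) : ℤ) : ℚ) + 1 / 2) ≤ 1 :=
      padicNorm.nonarchimedean.trans (max_le (padicNorm.of_int _) h5)
    refine le_trans (le_of_eq ?_) (cg_block _ h1 (b - a))
    congr 1
    refine Finset.prod_congr rfl fun i _ => ?_
    push_cast
    ring

/-- bound for the numerator -/
theorem cg_numL (Zs Hs : List (Finset ℕ)) (hZ : ∀ S ∈ Zs, IsBlock S) (hH : ∀ S ∈ Hs, IsBlock S)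
    (k : ℕ) :
    padicNorm p (numL Zs Hs (-(k : ℚ))) ≤
      (Zs.map fun S => padicNorm p (S.card.factorial : ℚ)).prod *
        ((Hs.map fun S => padicNorm p (S.card.factorial : ℚ)).prod * hc p (Hs.map Finset.card).sum) := by
  unfold numL
  rw [padicNorm.mul]
  have h1 : padicNorm p ((Zs.map fun S : Finset ℕ => ∏ i ∈ S, (-(k : ℚ) + (i : ℚ))).prod) ≤
      (Zs.map fun S => padicNorm p (S.card.factorial : ℚ)).prod := by
    clear hH
    induction Zs with
    | nil => simp
    | cons S Zs ih =>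
      simp only [List.map_cons, List.prod_cons]
      rw [padicNorm.mul]
      exact mul_le_mul (cg_zero_block S (hZ S (by simp)) k)
        (ih fun T hT => hZ T (List.mem_cons_of_mem _ hT)) (padicNorm.nonneg _) (padicNorm.nonneg _)
  have h2 : padicNorm p ((Hs.map fun S : Finset ℕ => ∏ i ∈ S, (-(k : ℚ) + ((i : ℚ) + 1 / 2))).prod) ≤
      (Hs.map fun S => padicNorm p (S.card.factorial : ℚ)).prod * hc p (Hs.map Finset.card).sum := by
    clear hZ h1
    induction Hs with
    | nil =>
      unfold hc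
      split_ifs <;> simp
    | cons S Hs ih =>
      simp only [List.map_cons, List.prod_cons, List.sum_cons]
      rw [padicNorm.mul]
      have h3 : hc p (S.card + (Hs.map Finset.card).sum) = hc p S.card * hc p (Hs.map Finset.card).sum := by
        unfold hc
        split_ifs
        · rw [pow_add]
        · rw [mul_one]
      rw [h3]
      calc _ ≤ (padicNorm p (S.card.factorial : ℚ) * hc p S.card) *
          ((Hs.map fun S => padicNorm p (S.card.factorial : ℚ)).prod * hc p (Hs.map Finset.card).sum) :=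
            mul_le_mul (cg_half_block S (hH S (by simp)) k)
              (ih fun T hT => hH T (List.mem_cons_of_mem _ hT)) (padicNorm.nonneg _) (by
                unfold hc
                split_ifs
                · exact mul_nonneg (padicNorm.nonneg _) (by positivity)
                · exact mul_nonneg (padicNorm.nonneg _) (by positivity))
        _ = _ := by ring
  refine mul_le_mul h1 h2 (padicNorm.nonneg _) ?_
  refine List.prod_nonneg ?_
  intro x hx
  rw [List.mem_map] at hx
  obtain ⟨S, _, rfl⟩ := hx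
  exact padicNorm.nonneg _

/-- `1 / m` for a nonzero integer of absolute value at most `M` -/
theorem cg_inv_le {m : ℤ} (hm : m ≠ 0) {M : ℕ} (hM : m.natAbs ≤ M) :
    padicNorm p (1 / (m : ℚ)) ≤ (p : ℚ) ^ Nat.log p M := by
  have hm' : (m : ℚ) ≠ 0 := by exact_mod_cast hm
  rw [padicNorm.div, padicNorm.one, padicNorm.eq_zpow_of_nonzero hm', zpow_neg, one_div, inv_inv,
    padicValRat.of_int, padicValInt, zpow_natCast]
  refine pow_le_pow_right₀ (cg_one_le hp.out) ?_
  exact (padicValNat_le_nat_log _).trans (Nat.log_mono_right hM)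

theorem cg_pow (q : ℚ) (s : ℕ) : padicNorm p (q ^ s) = padicNorm p q ^ s := by
  induction s with
  | zero => simp
  | succ s ih => rw [pow_succ, padicNorm.mul, ih, pow_succ]

theorem cg_add_le {x y c : ℚ} (hx : padicNorm p x ≤ c) (hy : padicNorm p y ≤ c) :
    padicNorm p (x + y) ≤ c :=
  padicNorm.nonarchimedean.trans (max_le hx hy)

theorem cg_sub_le {x y c : ℚ} (hx : padicNorm p x ≤ c) (hy : padicNorm p y ≤ c) :
    padicNorm p (x - y) ≤ c :=
  padicNorm.sub.trans (max_le hx hy)

omit hp in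
theorem cg_neg_one_pow (m : ℕ) (q : ℚ) : padicNorm p ((-1) ^ m * q) = padicNorm p q := by
  rcases neg_one_pow_eq_or ℚ m with h | h
  · rw [h, one_mul]
  · rw [h, neg_one_mul, padicNorm.neg]

/-- a term of the logarithmic derivative, integer case -/
theorem cg_term {i k M : ℕ} (hik : i ≠ k) (hi : i ≤ M) (hk : k ≤ M) :
    padicNorm p (1 / ((i : ℚ) - k)) ≤ (p : ℚ) ^ Nat.log p M := by
  have h1 : (i : ℚ) - k = (((i : ℤ) - k : ℤ) : ℚ) := by push_cast; ring
  rw [h1]
  refine cg_inv_le (by omega) ?_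
  omega

omit hp in
theorem cg_half_ne (i k : ℕ) : (i : ℚ) + 1 / 2 - k ≠ 0 := by
  intro h
  have h1 : (2 * i + 1 : ℚ) = 2 * k := by linarith
  have h2 : 2 * i + 1 = 2 * k := by exact_mod_cast h1
  omega

/-- a term of the logarithmic derivative, half-integer case -/
theorem cg_term_half {i k M : ℕ} (hi : 2 * i + 1 ≤ M) (hk : 2 * k ≤ M) :
    padicNorm p (1 / ((i : ℚ) + 1 / 2 - k)) ≤ (p : ℚ) ^ Nat.log p M := by
  have h1 : 1 / ((i : ℚ) + 1 / 2 - k) = ((2 : ℤ) : ℚ) * (1 / ((2 * (i : ℤ) + 1 - 2 * k : ℤ) : ℚ)) := by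
    have h2 : ((2 * (i : ℤ) + 1 - 2 * k : ℤ) : ℚ) ≠ 0 := by
      have : (2 * (i : ℤ) + 1 - 2 * k : ℤ) ≠ 0 := by omega
      exact_mod_cast this
    have h3 : (i : ℚ) + 1 / 2 - k ≠ 0 := cg_half_ne i k
    rw [← div_eq_mul_one_div, div_eq_div_iff h3 h2]
    push_cast
    ring
  rw [h1, padicNorm.mul]
  calc _ ≤ 1 * (p : ℚ) ^ Nat.log p M :=
        mul_le_mul (padicNorm.of_int _) (cg_inv_le (by omega) (by omega)) (padicNorm.nonneg _)
          zero_le_one
    _ = _ := one_mul _

/-- `m! / (x (x + 1) ... (x + m))` -/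
theorem cg_frac (M m : ℕ) : ∀ x : ℤ, (∀ l : ℕ, l ≤ m → x + l ≠ 0 ∧ (x + l).natAbs ≤ M) →
    padicNorm p ((m.factorial : ℚ) / ∏ l ∈ range (m + 1), ((x : ℚ) + l)) ≤
      (p : ℚ) ^ Nat.log p M := by
  induction m with
  | zero =>
    intro x hx
    have h1 := hx 0 le_rfl
    simp only [Nat.cast_zero, add_zero] at h1
    simpa using cg_inv_le (p := p) h1.1 h1.2
  | succ m ih =>
    intro x hx
    have h1 := ih x fun l hl => hx l (by omega)
    have h2 := ih (x + 1) fun l hl => by
      have := hx (l + 1) (by omega)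
      push_cast at this
      rw [add_assoc, add_comm 1 (l : ℤ)]
      exact this
    have hne : ∀ l : ℕ, l ≤ m + 1 → (x : ℚ) + l ≠ 0 := by
      intro l hl
      have := (hx l hl).1
      exact_mod_cast this
    have h3 : ((m + 1).factorial : ℚ) / ∏ l ∈ range (m + 1 + 1), ((x : ℚ) + l) =
        (m.factorial : ℚ) / ∏ l ∈ range (m + 1), ((x : ℚ) + l) -
        (m.factorial : ℚ) / ∏ l ∈ range (m + 1), (((x + 1 : ℤ) : ℚ) + l) := by
      have e1 : ∏ l ∈ range (m + 1), (((x + 1 : ℤ) : ℚ) + l) =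
          ∏ l ∈ range (m + 1), ((x : ℚ) + ((l + 1 : ℕ) : ℚ)) := by
        refine Finset.prod_congr rfl fun l _ => ?_
        push_cast
        ring
      have e2 : ∏ l ∈ range (m + 1 + 1), ((x : ℚ) + l) =
          (∏ l ∈ range (m + 1), ((x : ℚ) + ((l + 1 : ℕ) : ℚ))) * x := by
        rw [Finset.prod_range_succ']
        simp
      have e3 : ∏ l ∈ range (m + 1 + 1), ((x : ℚ) + l) =
          (∏ l ∈ range (m + 1), ((x : ℚ) + l)) * ((x : ℚ) + ((m + 1 : ℕ) : ℚ)) :=
        Finset.prod_range_succ _ _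
      have hx0 : (x : ℚ) ≠ 0 := by simpa using hne 0 (by omega)
      have hxm : (x : ℚ) + ((m + 1 : ℕ) : ℚ) ≠ 0 := hne (m + 1) le_rfl
      have p1 : ∏ l ∈ range (m + 1), ((x : ℚ) + l) ≠ 0 :=
        Finset.prod_ne_zero_iff.2 fun l hl => hne l (by rw [Finset.mem_range] at hl; omega)
      have p2 : ∏ l ∈ range (m + 1), ((x : ℚ) + ((l + 1 : ℕ) : ℚ)) ≠ 0 :=
        Finset.prod_ne_zero_iff.2 fun l hl => hne (l + 1) (by rw [Finset.mem_range] at hl; omega)
      have p3 : ∏ l ∈ range (m + 1 + 1), ((x : ℚ) + l) ≠ 0 := by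
        rw [e2]
        exact mul_ne_zero p2 hx0
      rw [e1, div_sub_div _ _ p1 p2, div_eq_div_iff p3 (mul_ne_zero p1 p2), Nat.factorial_succ]
      have e4 : (∏ l ∈ range (m + 1), ((x : ℚ) + ((l + 1 : ℕ) : ℚ))) * x =
          (∏ l ∈ range (m + 1), ((x : ℚ) + l)) * ((x : ℚ) + ((m + 1 : ℕ) : ℚ)) := by
        rw [← e2, e3]
      set P := ∏ l ∈ range (m + 1), ((x : ℚ) + l) with hP
      set P' := ∏ l ∈ range (m + 1), ((x : ℚ) + ((l + 1 : ℕ) : ℚ)) with hP'
      rw [e3]
      push_cast at e4 ⊢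
      linear_combination (-((m.factorial : ℚ)) * P) * e4
    rw [h3]
    exact cg_sub_le h1 h2

omit hp in
/-- a block of zeros in closed form -/
theorem cg_block_formula (a b k : ℕ) (hab : a ≤ b) (hbk : b ≤ k) :
    ∏ i ∈ Ico a b, (-(k : ℚ) + (i : ℚ)) =
      (-1) ^ (b - a) * (((b - a).factorial : ℚ) * ((k - a).choose (b - a) : ℚ)) := by
  induction b, hab using Nat.le_induction with
  | base => simp
  | succ b hab ih =>
    rw [Finset.prod_Ico_succ_top (by omega), ih (by omega)]
    have h1 : b + 1 - a = (b - a) + 1 := by omega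
    rw [h1, Nat.factorial_succ]
    have h2 := Nat.choose_succ_right_eq (k - a) (b - a)
    have h3 : (k - a) - (b - a) = k - b := by omega
    rw [h3] at h2
    have h4 : (((k - a).choose (b - a + 1) * (b - a + 1) : ℕ) : ℚ) =
        (((k - a).choose (b - a) * (k - b) : ℕ) : ℚ) := by rw [h2]
    push_cast at h4
    rw [Nat.cast_sub (by omega : b ≤ k)] at h4
    rw [pow_succ]
    push_cast
    linear_combination ((-1 : ℚ) ^ (b - a) * ((b - a).factorial : ℚ)) * h4

omit hp in
theorem cg_erase_formula (a b k : ℕ) (hak : a ≤ k) (hkb : k < b) :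
    ∏ i ∈ (Ico a b).erase k, ((i : ℚ) - k) =
      (-1) ^ (k - a) * (((k - a).factorial : ℚ) * ((b - 1 - k).factorial : ℚ)) := by
  have h1 : (Ico a b).erase k = Ico a k ∪ Ico (k + 1) b := by
    ext i
    simp only [Finset.mem_erase, Finset.mem_Ico, Finset.mem_union]
    omega
  have h2 : Disjoint (Ico a k) (Ico (k + 1) b) := by
    rw [Finset.disjoint_left]
    intro i hi hi'
    rw [Finset.mem_Ico] at hi hi'
    omega
  have h3 : ∏ i ∈ Ico a k, ((i : ℚ) - k) = (-1) ^ (k - a) * ((k - a).factorial : ℚ) := by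
    have := cg_block_formula a k k hak le_rfl
    rw [Nat.choose_self, Nat.cast_one, mul_one] at this
    rw [← this]
    exact Finset.prod_congr rfl fun i _ => by ring
  have h4 : ∏ i ∈ Ico (k + 1) b, ((i : ℚ) - k) = ((b - 1 - k).factorial : ℚ) := by
    rw [Finset.prod_Ico_eq_prod_range]
    have h5 : b - (k + 1) = b - 1 - k := by omega
    rw [h5, ← Finset.prod_range_add_one_eq_factorial, Nat.cast_prod]
    refine Finset.prod_congr rfl fun i _ => ?_
    push_cast
    ring
  rw [h1, Finset.prod_union h2, h3, h4]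
  ring

/-- the product over the other poles of a block -/
theorem cg_dK_ge (K : Finset ℕ) (hK : IsBlock K) (k : ℕ) (hk : k ∈ K) :
    padicNorm p ((K.card - 1).factorial : ℚ) ≤ padicNorm p (dK K k) := by
  obtain ⟨a, b, rfl⟩ := hK
  rw [Finset.mem_Ico] at hk
  rw [dK, cg_erase_formula a b k hk.1 hk.2, cg_neg_one_pow, Nat.card_Ico]
  have h6 := Nat.choose_mul_factorial_mul_factorial (n := b - a - 1) (k := k - a) (by omega)
  have e1 : b - a - 1 - (k - a) = b - 1 - k := by omega
  rw [e1] at h6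
  rw [← h6]
  push_cast
  rw [mul_assoc, padicNorm.mul]
  calc _ ≤ 1 * padicNorm p (((k - a).factorial : ℚ) * ((b - 1 - k).factorial : ℚ)) :=
        mul_le_mul_of_nonneg_right (padicNorm.of_nat _) (padicNorm.nonneg _)
    _ = _ := one_mul _

/-- the product over a block of poles not containing the point -/
theorem cg_dK_out (K : Finset ℕ) (hK : IsBlock K) (hne : K.Nonempty) (k M : ℕ) (hk : k ∉ K) (hkM : k ≤ M)
    (hKM : ∀ i ∈ K, i ≤ M) :
    padicNorm p (1 / dK K k) ≤ (p : ℚ) ^ Nat.log p M / padicNorm p ((K.card - 1).factorial : ℚ) := by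
  obtain ⟨a, b, rfl⟩ := hK
  rw [Finset.nonempty_Ico] at hne
  rw [Finset.mem_Ico] at hk
  have h0 : (0 : ℚ) < padicNorm p (((Ico a b).card - 1).factorial : ℚ) := by
    have h1 : padicNorm p (((Ico a b).card - 1).factorial : ℚ) ≠ 0 :=
      padicNorm.nonzero (by exact_mod_cast Nat.factorial_ne_zero _)
    exact lt_of_le_of_ne (padicNorm.nonneg _) (Ne.symm h1)
  rw [le_div_iff₀ h0, ← padicNorm.mul]
  have h2 := cg_frac (p := p) M (b - a - 1) ((a : ℤ) - k) fun l hl => by
    constructor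
    · omega
    · have := hKM (a + l) (by rw [Finset.mem_Ico]; omega)
      omega
  refine le_trans (le_of_eq ?_) h2
  congr 1
  rw [dK, Finset.erase_eq_of_notMem (by rw [Finset.mem_Ico]; exact hk), Finset.prod_Ico_eq_prod_range,
    Nat.card_Ico, show b - a - 1 + 1 = b - a by omega, one_div, mul_comm, ← div_eq_mul_inv]
  congr 1
  refine Finset.prod_congr rfl fun i _ => ?_
  push_cast
  ring

/-- lower bound for the valuation of a factorial -/
theorem cg_le_padicValNat_factorial (m M : ℕ) (hm : m ≤ M) :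
    m ≤ (p - 1) * padicValNat p m.factorial + (p - 1) * (Nat.log p M + 1) := by
  have h1 := sub_one_mul_padicValNat_factorial (p := p) m
  have h2 : (p.digits m).sum ≤ (p - 1) * (Nat.log p M + 1) := by
    rcases Nat.eq_zero_or_pos m with h0 | h0
    · subst h0
      simp
    · have h3 : (p.digits m).sum ≤ (p.digits m).length • (p - 1) := by
        refine List.sum_le_card_nsmul _ _ fun x hx => ?_
        have := Nat.digits_lt_base hp.out.one_lt hx
        omega
      rw [Nat.length_digits p m hp.out.one_lt (by omega), smul_eq_mul] at h3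
      calc (p.digits m).sum ≤ (Nat.log p m + 1) * (p - 1) := h3
        _ ≤ (Nat.log p M + 1) * (p - 1) := by
            gcongr
        _ = _ := by ring
  omega

omit hp in
theorem cg_prod_fact (Zs : List (Finset ℕ)) :
    (Zs.map fun S => padicNorm p (S.card.factorial : ℚ)).prod =
      ((p : ℚ) ^ (Zs.map fun S => padicValNat p S.card.factorial).sum)⁻¹ := by
  induction Zs with
  | nil => simp
  | cons S Zs ih =>
    simp only [List.map_cons, List.prod_cons, List.sum_cons]
    rw [ih, cg_fact, pow_add, mul_inv]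

theorem cg_sum_legendre (Zs : List (Finset ℕ)) (M : ℕ) (hM : ∀ S ∈ Zs, S.card ≤ M) :
    (Zs.map Finset.card).sum ≤ (p - 1) * (Zs.map fun S => padicValNat p S.card.factorial).sum +
      Zs.length * ((p - 1) * (Nat.log p M + 1)) := by
  induction Zs with
  | nil => simp
  | cons S Zs ih =>
    simp only [List.map_cons, List.sum_cons, List.length_cons]
    have h1 := ih fun T hT => hM T (List.mem_cons_of_mem _ hT)
    have h2 := cg_le_padicValNat_factorial (p := p) S.card M (hM S (by simp))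
    nlinarith

/-- the central estimate -/
theorem cg_core_bound (Zs Hs : List (Finset ℕ)) (c1 c2 e M : ℕ)
    (hcard : c1 + c2 ≤ degL Zs Hs + e) (hZM : ∀ S ∈ Zs, S.card ≤ M) (hHM : ∀ S ∈ Hs, S.card ≤ M) :
    (Zs.map fun S => padicNorm p (S.card.factorial : ℚ)).prod *
        (Hs.map fun S => padicNorm p (S.card.factorial : ℚ)).prod /
        (padicNorm p ((c1 - 1).factorial : ℚ) * padicNorm p ((c2 - 1).factorial : ℚ)) ≤
      (p : ℚ) ^ (e + (Zs.length + Hs.length) * (Nat.log p M + 1)) := by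
  rw [cg_prod_fact, cg_prod_fact, cg_fact, cg_fact]
  set v1 := (Zs.map fun S => padicValNat p S.card.factorial).sum with hv1
  set v2 := (Hs.map fun S => padicValNat p S.card.factorial).sum with hv2
  set w1 := padicValNat p (c1 - 1).factorial with hw1
  set w2 := padicValNat p (c2 - 1).factorial with hw2
  set L := Nat.log p M with hL
  have hp1 : 1 ≤ p - 1 := by
    have := hp.out.two_le
    omega
  have h1 := cg_sum_legendre (p := p) Zs M hZM
  have h2 := cg_sum_legendre (p := p) Hs M hHM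
  have h3 := cg_padicValNat_factorial_le (p := p) (c1 - 1)
  have h4 := cg_padicValNat_factorial_le (p := p) (c2 - 1)
  rw [← hv1, ← hL] at h1
  rw [← hv2, ← hL] at h2
  rw [← hw1] at h3
  rw [← hw2] at h4
  unfold degL at hcard
  have h5 : (p - 1) * (w1 + w2) ≤ (p - 1) * (v1 + v2 + (e + (Zs.length + Hs.length) * (L + 1))) := by
    have h6 : e ≤ (p - 1) * e := Nat.le_mul_of_pos_left _ (by omega)
    have h7 : (p - 1) * (v1 + v2 + (e + (Zs.length + Hs.length) * (L + 1))) =
        (p - 1) * v1 + (p - 1) * v2 + (p - 1) * e + Zs.length * ((p - 1) * (L + 1)) +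
          Hs.length * ((p - 1) * (L + 1)) := by ring
    rw [h7, mul_add]
    omega
  have h8 : w1 + w2 ≤ v1 + v2 + (e + (Zs.length + Hs.length) * (L + 1)) :=
    Nat.le_of_mul_le_mul_left h5 (by omega)
  have hp0 : (0 : ℚ) < p := by exact_mod_cast hp.out.pos
  rw [← mul_inv, ← mul_inv, ← pow_add, ← pow_add, div_inv_eq_mul, inv_mul_le_iff₀ (by positivity),
    ← pow_add]
  exact pow_le_pow_right₀ (cg_one_le hp.out) h8

/-- the double coefficients -/
theorem cg_A0L (Zs Hs : List (Finset ℕ)) (K1 K2 : Finset ℕ) (e M k : ℕ)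
    (hZ : ∀ S ∈ Zs, IsBlock S) (hH : ∀ S ∈ Hs, IsBlock S) (hK1 : IsBlock K1) (hK2 : IsBlock K2)
    (hK : K2 ⊆ K1)
    (hcard : K1.card + K2.card ≤ degL Zs Hs + e) (hZM : ∀ S ∈ Zs, S.card ≤ M)
    (hHM : ∀ S ∈ Hs, S.card ≤ M) :
    padicNorm p (A0L Zs Hs K1 K2 k) ≤
      (p : ℚ) ^ (e + (Zs.length + Hs.length) * (Nat.log p M + 1)) * hc p (Hs.map Finset.card).sum := by
  have hc0 : 0 ≤ hc p (Hs.map Finset.card).sum := by
    unfold hc
    split_ifs <;> positivity
  unfold A0L
  split_ifs with hk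
  · have h1 := cg_dK_ge (p := p) K1 hK1 k (hK hk)
    have h2 := cg_dK_ge (p := p) K2 hK2 k hk
    have f1 : 0 < padicNorm p ((K1.card - 1).factorial : ℚ) :=
      lt_of_le_of_ne (padicNorm.nonneg _)
        (Ne.symm (padicNorm.nonzero (by exact_mod_cast Nat.factorial_ne_zero _)))
    have f2 : 0 < padicNorm p ((K2.card - 1).factorial : ℚ) :=
      lt_of_le_of_ne (padicNorm.nonneg _)
        (Ne.symm (padicNorm.nonzero (by exact_mod_cast Nat.factorial_ne_zero _)))
    have h3 := cg_core_bound (p := p) Zs Hs K1.card K2.card e M hcard hZM hHM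
    have h4 := cg_numL (p := p) Zs Hs hZ hH k
    rw [padicNorm.div, padicNorm.mul]
    calc padicNorm p (numL Zs Hs (-(k : ℚ))) / (padicNorm p (dK K1 k) * padicNorm p (dK K2 k))
        ≤ ((Zs.map fun S => padicNorm p (S.card.factorial : ℚ)).prod *
          ((Hs.map fun S => padicNorm p (S.card.factorial : ℚ)).prod *
            hc p (Hs.map Finset.card).sum)) /
          (padicNorm p ((K1.card - 1).factorial : ℚ) * padicNorm p ((K2.card - 1).factorial : ℚ)) := by
          refine div_le_div₀ ((padicNorm.nonneg _).trans h4) h4 (by positivity) ?_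
          exact mul_le_mul h1 h2 f2.le (padicNorm.nonneg _)
      _ = ((Zs.map fun S => padicNorm p (S.card.factorial : ℚ)).prod *
          (Hs.map fun S => padicNorm p (S.card.factorial : ℚ)).prod /
          (padicNorm p ((K1.card - 1).factorial : ℚ) * padicNorm p ((K2.card - 1).factorial : ℚ))) *
            hc p (Hs.map Finset.card).sum := by ring
      _ ≤ _ := mul_le_mul_of_nonneg_right h3 hc0
  · rw [padicNorm.zero]
    exact mul_nonneg (by positivity) hc0

theorem cg_lK (K : Finset ℕ) (k M : ℕ) (hKM : ∀ i ∈ K, i ≤ M) (hk : k ≤ M) :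
    padicNorm p (lK K k) ≤ (p : ℚ) ^ Nat.log p M := by
  unfold lK
  refine padicNorm.sum_le' (fun i hi => ?_) (by positivity)
  rw [Finset.mem_erase] at hi
  exact cg_term hi.1 (hKM i hi.2) hk

theorem cg_logL (Zs Hs : List (Finset ℕ)) (k M : ℕ) (hZM : ∀ S ∈ Zs, ∀ i ∈ S, i ≤ M ∧ i ≠ k)
    (hHM : ∀ S ∈ Hs, ∀ i ∈ S, 2 * i + 1 ≤ M) (hk : 2 * k ≤ M) :
    padicNorm p (logL Zs Hs k) ≤ (p : ℚ) ^ Nat.log p M := by
  unfold logL
  refine cg_add_le ?_ ?_
  · clear hHM
    induction Zs with
    | nil => simp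
    | cons S Zs ih =>
      simp only [List.map_cons, List.sum_cons]
      refine cg_add_le ?_ (ih fun T hT => hZM T (List.mem_cons_of_mem _ hT))
      refine padicNorm.sum_le' (fun i hi => ?_) (by positivity)
      obtain ⟨h1, h2⟩ := hZM S (by simp) i hi
      exact cg_term h2 h1 (by omega)
  · clear hZM
    induction Hs with
    | nil => simp
    | cons S Hs ih =>
      simp only [List.map_cons, List.sum_cons]
      refine cg_add_le ?_ (ih fun T hT => hHM T (List.mem_cons_of_mem _ hT))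
      refine padicNorm.sum_le' (fun i hi => ?_) (by positivity)
      exact cg_term_half (hHM S (by simp) i hi) hk

/-- the simple coefficients -/
theorem cg_B0L (Zs Hs : List (Finset ℕ)) (K1 K2 : Finset ℕ) (e M k : ℕ)
    (hZ : ∀ S ∈ Zs, IsBlock S) (hH : ∀ S ∈ Hs, IsBlock S) (hK1 : IsBlock K1) (hK2 : IsBlock K2)
    (hK : K2 ⊆ K1) (hne : K2.Nonempty)
    (hcard : K1.card + K2.card ≤ degL Zs Hs + e) (hZM : ∀ S ∈ Zs, S.card ≤ M)
    (hHM : ∀ S ∈ Hs, S.card ≤ M) (hZM' : ∀ S ∈ Zs, ∀ i ∈ S, i ≤ M ∧ i ≠ k)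
    (hHM' : ∀ S ∈ Hs, ∀ i ∈ S, 2 * i + 1 ≤ M) (hKM : ∀ i ∈ K1, i ≤ M) (hkM : 2 * k ≤ M)
    (hk : k ∈ K1) :
    padicNorm p (B0L Zs Hs K1 K2 k) ≤
      (p : ℚ) ^ (e + (Zs.length + Hs.length) * (Nat.log p M + 1) + Nat.log p M) *
        hc p (Hs.map Finset.card).sum := by
  have hc0 : 0 ≤ hc p (Hs.map Finset.card).sum := by
    unfold hc
    split_ifs <;> positivity
  have hA := cg_A0L (p := p) Zs Hs K1 K2 e M k hZ hH hK1 hK2 hK hcard hZM hHM
  unfold B0L
  split_ifs with hk2
  · rw [padicNorm.mul]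
    have h1 : padicNorm p (logL Zs Hs k - lK K1 k - lK K2 k) ≤ (p : ℚ) ^ Nat.log p M :=
      cg_sub_le (cg_sub_le (cg_logL Zs Hs k M hZM' hHM' hkM) (cg_lK K1 k M hKM (by omega)))
        (cg_lK K2 k M (fun i hi => hKM i (hK hi)) (by omega))
    calc _ ≤ ((p : ℚ) ^ (e + (Zs.length + Hs.length) * (Nat.log p M + 1)) *
          hc p (Hs.map Finset.card).sum) * (p : ℚ) ^ Nat.log p M :=
          mul_le_mul hA h1 (padicNorm.nonneg _) (mul_nonneg (by positivity) hc0)
      _ = _ := by
          rw [pow_add _ (e + _) (Nat.log p M)]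
          ring
  · have h1 := cg_dK_ge (p := p) K1 hK1 k hk
    have h2 := cg_dK_out (p := p) K2 hK2 hne k M hk2 (by omega) fun i hi => hKM i (hK hi)
    have f1 : 0 < padicNorm p ((K1.card - 1).factorial : ℚ) :=
      lt_of_le_of_ne (padicNorm.nonneg _)
        (Ne.symm (padicNorm.nonzero (by exact_mod_cast Nat.factorial_ne_zero _)))
    have f2 : 0 < padicNorm p ((K2.card - 1).factorial : ℚ) :=
      lt_of_le_of_ne (padicNorm.nonneg _)
        (Ne.symm (padicNorm.nonzero (by exact_mod_cast Nat.factorial_ne_zero _)))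
    have h3 := cg_core_bound (p := p) Zs Hs K1.card K2.card e M hcard hZM hHM
    have h4 := cg_numL (p := p) Zs Hs hZ hH k
    have h5 : numL Zs Hs (-(k : ℚ)) / (dK K1 k * dK K2 k) =
        numL Zs Hs (-(k : ℚ)) / dK K1 k * (1 / dK K2 k) := by
      rw [div_mul_div_comm, mul_one]
    rw [h5, padicNorm.mul, padicNorm.div]
    calc padicNorm p (numL Zs Hs (-(k : ℚ))) / padicNorm p (dK K1 k) * padicNorm p (1 / dK K2 k)
        ≤ ((Zs.map fun S => padicNorm p (S.card.factorial : ℚ)).prod *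
          ((Hs.map fun S => padicNorm p (S.card.factorial : ℚ)).prod *
            hc p (Hs.map Finset.card).sum)) / padicNorm p ((K1.card - 1).factorial : ℚ) *
            ((p : ℚ) ^ Nat.log p M / padicNorm p ((K2.card - 1).factorial : ℚ)) := by
          refine mul_le_mul (div_le_div₀ ((padicNorm.nonneg _).trans h4) h4 f1 h1) h2
            (padicNorm.nonneg _) (div_nonneg ((padicNorm.nonneg _).trans h4) f1.le)
      _ = ((Zs.map fun S => padicNorm p (S.card.factorial : ℚ)).prod *
          (Hs.map fun S => padicNorm p (S.card.factorial : ℚ)).prod /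
          (padicNorm p ((K1.card - 1).factorial : ℚ) * padicNorm p ((K2.card - 1).factorial : ℚ))) *
            ((p : ℚ) ^ Nat.log p M * hc p (Hs.map Finset.card).sum) := by
          field_simp
      _ ≤ (p : ℚ) ^ (e + (Zs.length + Hs.length) * (Nat.log p M + 1)) *
            ((p : ℚ) ^ Nat.log p M * hc p (Hs.map Finset.card).sum) :=
          mul_le_mul_of_nonneg_right h3 (mul_nonneg (by positivity) hc0)
      _ = _ := by
          rw [pow_add _ (e + _) (Nat.log p M)]
          ring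

end

end Pool.Agent.Z23
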