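import Pool.Agent.Z3.CancelFp
import Pool.Agent.Z3.CancelDefs
import Pool.Agent.Z3.CancelPoly

/-!
Gaps for arbitrary end points al i, be i (which may depend on p).
-/

open Finset
open scoped BigOperators

namespace Pool.Agent.Z23

open Pool.Agent.Z3

variable {ι : Type*} [Fintype ι]

/-- number of zeros minus number of poles in the class s, from the end points -/
def phiG (p : ℕ) (al be : ι → ℕ) (s : ℕ) : ℤ :=
  (∑ i, ((al i / p : ℕ) : ℤ) + ∑ i, (if s < al i % p then 1 else 0 : ℤ)) -
    (∑ i, ((be i / p : ℕ) : ℤ) + ∑ i, (if s < be i % p then 1 else 0 : ℤ))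

/-- length of the arc from beta_i to alpha_(pi i) -/
def arcG (p : ℕ) (al be : ι → ℕ) (pi : Equiv.Perm ι) (i : ι) : ℕ := (((al (pi i) : ℤ) - be i) % p).toNat

/-- the polynomial P evaluated at s -/
def PvG (p : ℕ) (al be : ι → ℕ) (pi : Equiv.Perm ι) (s : ℤ) : ℤ :=
  ∏ i : ι, ∏ i' ∈ range (arcG p al be pi i), ((be i : ℤ) + i' - s)

/-- all hypotheses on the gap [s1,s2) -/
structure GapG (p : ℕ) (al be : ι → ℕ) (s1 s2 : ℕ) (pi : Equiv.Perm ι) : Prop where
  hp : p.Prime
  hphi : ∀ s < p, -1 ≤ phiG p al be s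
  h12 : s1 < s2
  h2p : s2 ≤ p
  hs1 : phiG p al be s1 = -1
  hout : ∀ s < p, phiG p al be s = -1 → s1 ≤ s ∧ s < s2
  hal : ∀ i, al i % p ≤ s1 ∨ s2 ≤ al i % p
  hbe : ∀ i, be i % p ≤ s1 ∨ s2 ≤ be i % p
  harc : ∀ i, ((al (pi i) : ℤ) - be i) % p ≤ ((s1 : ℤ) - be i) % p
  hsum : ∑ i, al i + 4 ≤ ∑ i, be i

/-- phi is -1 on the gap -/
theorem phiG_gap {p s1 s2 : ℕ} {al be : ι → ℕ} {pi : Equiv.Perm ι} (g : GapG p al be s1 s2 pi)
    {s : ℕ} (h1 : s1 ≤ s) (h2 : s < s2) : phiG p al be s = -1 := by
  have e1 : ∀ i, (if s < al i % p then (1 : ℤ) else 0) = if s1 < al i % p then 1 else 0 := by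
    intro i
    rcases g.hal i with h | h
    · rw [if_neg (by omega), if_neg (by omega)]
    · rw [if_pos (by omega), if_pos (by omega)]
  have e2 : ∀ i, (if s < be i % p then (1 : ℤ) else 0) = if s1 < be i % p then 1 else 0 := by
    intro i
    rcases g.hbe i with h | h
    · rw [if_neg (by omega), if_neg (by omega)]
    · rw [if_pos (by omega), if_pos (by omega)]
  have h4 := g.hs1
  unfold phiG at h4 ⊢
  simp only [e1, e2]
  exact h4

/-- the sum over the gap vanishes mod p -/
theorem sum_PvG {p s1 s2 : ℕ} {al be : ι → ℕ} {pi : Equiv.Perm ι} (g : GapG p al be s1 s2 pi)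
    (j : ℕ) (hj : j ≤ 2) : (p : ℤ) ∣ ∑ s ∈ Ico s1 s2, (-(s : ℤ)) ^ j * PvG p al be pi s := by
  have hp := g.hp
  have : Fact p.Prime := ⟨hp⟩
  have hp0 : (0 : ℤ) < p := by exact_mod_cast hp.pos
  have h12 := g.h12
  have h2p := g.h2p
  set l : ι → ℕ := arcG p al be pi with hl
  set q : ι → ℤ := fun m => ((al (pi m) : ℤ) - be m) / p with hq
  have hl' : ∀ m, (l m : ℤ) = ((al (pi m) : ℤ) - be m) % p := by
    intro m
    rw [hl]; exact Int.toNat_of_nonneg (Int.emod_nonneg _ hp0.ne')
  have hlq : ∀ m, (al (pi m) : ℤ) = be m + l m + p * q m := by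
    intro m
    have h2 := Int.emod_add_mul_ediv ((al (pi m) : ℤ) - be m) p
    rw [hl' m]
    simp only [hq]
    linarith
  -- counts
  have hcount : ∀ s < p, phiG p al be s =
      ∑ m, q m + ∑ m, (((range (l m)).filter (fun i => (be m + i) % p = s)).card : ℤ) := by
    intro s hs
    unfold phiG
    rw [← Finset.sum_add_distrib, ← Finset.sum_add_distrib,
      ← Equiv.sum_comp pi (fun m => ((al m / p : ℕ) : ℤ) + (if s < al m % p then 1 else 0)),
      ← Finset.sum_sub_distrib, ← Finset.sum_add_distrib]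
    refine Finset.sum_congr rfl fun m _ => ?_
    rw [arc_count p (al (pi m)) (be m) (l m) s (q m) hp.pos hs (hlq m)]
    ring
  -- the arcs do not contain s1
  have hno : ∀ m, ((range (l m)).filter (fun i => (be m + i) % p = s1)).card = 0 := by
    intro m
    rw [Finset.card_eq_zero, Finset.filter_eq_empty_iff]
    intro i hi hmod
    have hi' := mem_range.1 hi
    have hm := g.harc m
    rw [← hl' m] at hm
    have hip : (i : ℤ) < p := by
      have h3 : (l m : ℤ) < p := by rw [hl' m]; exact Int.emod_lt_of_pos _ hp0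
      have : (i : ℤ) < l m := by exact_mod_cast hi'
      linarith
    have h1 : ((s1 : ℤ) - be m) % p = (i : ℤ) := by
      have h2 : ((be m + i : ℕ) : ℤ) % p = (s1 : ℤ) := by exact_mod_cast hmod
      have h3 : (s1 : ℤ) ≡ be m + i [ZMOD p] := by
        rw [Int.ModEq, ← h2, Int.emod_emod_of_dvd _ (dvd_refl _)]
        push_cast
        rfl
      have h4 : (s1 : ℤ) - be m ≡ (be m + i) - be m [ZMOD p] := h3.sub_right _
      rw [Int.ModEq] at h4
      rw [h4, add_sub_cancel_left]
      exact Int.emod_eq_of_lt (by positivity) hip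
    rw [h1] at hm
    have : (i : ℤ) < l m := by exact_mod_cast hi'
    linarith
  have hqsum : ∑ m, q m = -1 := by
    have h1 := hcount s1 (by omega)
    have h2 : ∑ m, (((range (l m)).filter (fun i => (be m + i) % p = s1)).card : ℤ) = 0 :=
      Finset.sum_eq_zero fun m _ => by rw [hno m]; rfl
    rw [g.hs1, h2] at h1
    linarith
  have hlsum : (∑ m, l m) + 4 ≤ p := by
    have h1 : ∑ m, (al m : ℤ) = ∑ m, (be m : ℤ) + ∑ m, (l m : ℤ) + p * ∑ m, q m := by
      rw [← Equiv.sum_comp pi (fun m => (al m : ℤ)), Finset.mul_sum, ← Finset.sum_add_distrib,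
        ← Finset.sum_add_distrib]
      exact Finset.sum_congr rfl fun m _ => hlq m
    have h2 : ((∑ m, al m + 4 : ℕ) : ℤ) ≤ ((∑ m, be m : ℕ) : ℤ) := by exact_mod_cast g.hsum
    push_cast at h2
    rw [hqsum] at h1
    have h3 : ((∑ m, l m + 4 : ℕ) : ℤ) ≤ (p : ℤ) := by
      push_cast
      linarith
    exact_mod_cast h3
  -- value of P in ZMod p
  have hPv : ∀ s : ℕ, ((PvG p al be pi (s : ℤ) : ℤ) : ZMod p) = (Ppol p be l).eval (s : ZMod p) := by
    intro s
    rw [Ppol_eval]
    unfold PvG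
    push_cast
    rfl
  -- vanishing outside the gap
  have hout0 : ∀ s < p, ¬ (s1 ≤ s ∧ s < s2) → ((PvG p al be pi (s : ℤ) : ℤ) : ZMod p) = 0 := by
    intro s hs hns
    have h2 : 0 ≤ phiG p al be s := by
      have h3 := g.hphi s hs
      have h4 : phiG p al be s ≠ -1 := fun h => hns (g.hout s hs h)
      omega
    rw [hcount s hs, hqsum] at h2
    have h3 : 0 < ∑ m, (((range (l m)).filter (fun i => (be m + i) % p = s)).card : ℤ) := by linarith
    obtain ⟨m, _, hm⟩ := Finset.exists_ne_zero_of_sum_ne_zero h3.ne'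
    have h4 : ((range (l m)).filter (fun i => (be m + i) % p = s)).Nonempty := by
      rw [← Finset.card_pos]
      have : ((range (l m)).filter (fun i => (be m + i) % p = s)).card ≠ 0 := by exact_mod_cast hm
      omega
    obtain ⟨i, hi⟩ := h4
    rw [mem_filter] at hi
    rw [hPv, Ppol_eval]
    refine Finset.prod_eq_zero (mem_univ m) (Finset.prod_eq_zero hi.1 ?_)
    rw [sub_eq_zero, ZMod.natCast_eq_natCast_iff', Nat.mod_eq_of_lt hs]
    exact hi.2
  rw [← ZMod.intCast_zmod_eq_zero_iff_dvd]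
  push_cast
  have hsub : Ico s1 s2 ⊆ range p := by
    intro s hs
    rw [mem_Ico] at hs
    exact mem_range.2 (by omega)
  rw [Finset.sum_subset hsub (fun s hs hns => by
    rw [hout0 s (mem_range.1 hs) (fun h => hns (mem_Ico.2 h)), mul_zero])]
  have hfin : ∑ s ∈ range p, (-(s : ZMod p)) ^ j * ((PvG p al be pi (s : ℤ) : ℤ) : ZMod p) =
      ∑ s ∈ range p, ((-Polynomial.X) ^ j * Ppol p be l).eval (s : ZMod p) := by
    refine Finset.sum_congr rfl fun s _ => ?_
    rw [hPv]
    simp only [Polynomial.eval_mul, Polynomial.eval_pow, Polynomial.eval_neg, Polynomial.eval_X]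
  rw [hfin]
  apply sum_eval_range
  refine lt_of_le_of_lt Polynomial.natDegree_mul_le ?_
  have h1 : ((-Polynomial.X : Polynomial (ZMod p)) ^ j).natDegree ≤ j := by
    refine (Polynomial.natDegree_pow_le).trans ?_
    simp
  have h2 := Ppol_natDegree (p := p) be l
  omega

/-- (-1)^q as the cast of an integer -/
theorem neg_one_zpow_castG {p : ℕ} [Fact p.Prime] (q : ℤ) :
    (-1 : ZMod p) ^ q = (((-1 : ℤ) ^ q.natAbs : ℤ) : ZMod p) := by
  push_cast
  rcases Int.natAbs_eq q with h | h
  · conv_lhs => rw [h]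
    rw [zpow_natCast]
  · conv_lhs => rw [h]
    rw [zpow_neg, zpow_natCast, ← inv_pow, inv_neg_one]

/-- the values of the theta products on the gap -/
theorem Th_gapG {p s1 s2 : ℕ} {al be : ι → ℕ} {pi : Equiv.Perm ι} (g : GapG p al be s1 s2 pi) [Fact p.Prime]
    (s : ℕ) (h1 : s1 ≤ s) (h2 : s < s2) :
    ∏ m, Th p (al m) s =
      ((∏ m, (-1 : ZMod p) ^ (((al (pi m) : ℤ) - be m) / p)) * ((PvG p al be pi (s : ℤ) : ℤ) : ZMod p)) *
        ∏ m, Th p (be m) s := by
  have hp := g.hp
  have hp0 : (0 : ℤ) < p := by exact_mod_cast hp.pos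
  have h12 := g.h12
  have h2p := g.h2p
  set l : ι → ℕ := arcG p al be pi with hl
  set q : ι → ℤ := fun m => ((al (pi m) : ℤ) - be m) / p with hq
  have hl' : ∀ m, (l m : ℤ) = ((al (pi m) : ℤ) - be m) % p := by
    intro m
    rw [hl]; exact Int.toNat_of_nonneg (Int.emod_nonneg _ hp0.ne')
  have hlq : ∀ m, (al (pi m) : ℤ) = be m + l m + p * q m := by
    intro m
    have h2 := Int.emod_add_mul_ediv ((al (pi m) : ℤ) - be m) p
    rw [hl' m]
    simp only [hq]
    linarith
  have hllt : ∀ m, (l m : ℤ) ≤ ((s1 : ℤ) - be m) % p := by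
    intro m
    rw [hl' m]; exact g.harc m
  have hsp : s < p := by omega
  -- no arc contains s
  have hno : ∀ m, ∀ i ∈ range (l m), ¬ (be m + i) % p = s := by
    intro m i hi hmod
    have hi' := mem_range.1 hi
    have hm := hllt m
    have hb := g.hbe m
    have hbp : be m % p < p := Nat.mod_lt _ hp.pos
    have hbdiv := Nat.mod_add_div (be m) p
    set r := be m % p with hr
    set d := be m / p with hd
    have hcast : ((s1 : ℤ) - be m) % p = ((s1 : ℤ) - r) % p := by
      have : (be m : ℤ) = r + p * d := by exact_mod_cast hbdiv.symm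
      rw [this]
      have : (s1 : ℤ) - (r + p * d) = (s1 - r) + p * (-d) := by ring
      rw [this, Int.add_mul_emod_self_left]
    rw [hcast] at hm
    have hmod2 : (r + i) % p = s := by
      have : be m + i = (r + i) + p * d := by omega
      rw [this, Nat.add_mul_mod_self_left] at hmod
      exact hmod
    rcases hb with hb | hb
    · have h1 : ((s1 : ℤ) - r) % p = s1 - r := by
        apply Int.emod_eq_of_lt
        · have : (r : ℤ) ≤ s1 := by exact_mod_cast hb
          linarith
        · have : (s1 : ℤ) < p := by exact_mod_cast (by omega : s1 < p)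
          have : (0 : ℤ) ≤ r := by positivity
          linarith
      rw [h1] at hm
      have h2 : r + i < s1 := by
        have : (l m : ℤ) + r ≤ s1 := by linarith
        have : l m + r ≤ s1 := by exact_mod_cast this
        omega
      rw [Nat.mod_eq_of_lt (by omega)] at hmod2
      omega
    · have h1 : ((s1 : ℤ) - r) % p = s1 - r + p := by
        rw [← Int.add_emod_right]
        apply Int.emod_eq_of_lt
        · have : (r : ℤ) < p := by exact_mod_cast hbp
          have : (0 : ℤ) ≤ s1 := by positivity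
          linarith
        · have : (s1 : ℤ) < r := by exact_mod_cast (by omega : s1 < r)
          linarith
      rw [h1] at hm
      have h2 : r + i < s1 + p := by
        have : (l m : ℤ) + r ≤ s1 + p := by linarith
        have : l m + r ≤ s1 + p := by exact_mod_cast this
        omega
      by_cases h3 : r + i < p
      · rw [Nat.mod_eq_of_lt h3] at hmod2
        omega
      · rw [Nat.mod_eq_sub_mod (by omega), Nat.mod_eq_of_lt (by omega)] at hmod2
        omega
  have hPv : ((PvG p al be pi (s : ℤ) : ℤ) : ZMod p) =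
      ∏ m : ι, ∏ i ∈ range (l m), (((be m + i : ℕ) : ZMod p) - (s : ZMod p)) := by
    unfold PvG
    push_cast
    rfl
  rw [hPv, ← Equiv.prod_comp pi (fun m => Th p (al m) s), ← Finset.prod_mul_distrib,
    ← Finset.prod_mul_distrib]
  refine Finset.prod_congr rfl fun m _ => ?_
  rw [(arc_rel (al (pi m)) (be m) (l m) s (q m) (hlq m) hsp).1, Th_add]
  have h3 : ∏ i ∈ range (l m), (if (be m + i) % p = s then (1 : ZMod p)
      else (((be m + i : ℕ) : ZMod p) - (s : ZMod p))) =
      ∏ i ∈ range (l m), (((be m + i : ℕ) : ZMod p) - (s : ZMod p)) := by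
    refine Finset.prod_congr rfl fun i hi => ?_
    rw [if_neg (hno m i hi)]
  rw [h3]
  ring

end Pool.Agent.Z23
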