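import Pool.Agent.Z23.TermG
import Pool.Agent.Z23.GapG
import Pool.Agent.Z3.CancelU

/-!
Blocks which are intervals: phi from the end points, constancy on a gap, congruence of the unit part.
-/

open Finset
open scoped BigOperators

namespace Pool.Agent.Z23

open Pool.Agent.Z3 (Th Th_ne_zero uz uz_block uv_eq_uz uv wv lv cls ncls)
open Pool.Agent.Z3.TermAux (cnt)

/-- the list of intervals -/
def ZI (zs : List (ℕ × ℕ)) : List (Finset ℕ) := zs.map fun x => Ico x.1 x.2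

/-- the end points al, be belong to the blocks -/
structure Fit {ι : Type*} [Fintype ι] (zs hs : List (ℕ × ℕ)) (k1 l1 k2 l2 p : ℕ) (al be : ι → ℕ) : Prop where
  hzs : ∀ x ∈ zs, x.1 ≤ x.2
  hhs : ∀ x ∈ hs, x.1 ≤ x.2
  h1 : k1 ≤ l1
  h2 : k2 ≤ l2
  hal : Multiset.map al univ.val = ((zs.map Prod.snd ++ (hs.map (fun x => x.2 + hh p) ++ [k1, k2]) : List ℕ) : Multiset ℕ)
  hbe : Multiset.map be univ.val = ((zs.map Prod.fst ++ (hs.map (fun x => x.1 + hh p) ++ [l1, l2]) : List ℕ) : Multiset ℕ)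

section

variable {ι : Type*} [Fintype ι] {zs hs : List (ℕ × ℕ)} {k1 l1 k2 l2 p : ℕ} {al be : ι → ℕ}

theorem Fit.prod_al (F : Fit zs hs k1 l1 k2 l2 p al be) {M : Type*} [CommMonoid M] (f : ℕ → M) :
    ∏ i, f (al i) = (zs.map (fun x => f x.2)).prod * ((hs.map (fun x => f (x.2 + hh p))).prod * (f k1 * f k2)) := by
  have h : ∏ i, f (al i) = (Multiset.map f (Multiset.map al univ.val)).prod := by
    rw [Multiset.map_map]
    rfl
  rw [h, F.hal]
  simp [List.map_append, List.prod_append, List.map_map, Function.comp_def]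

theorem Fit.prod_be (F : Fit zs hs k1 l1 k2 l2 p al be) {M : Type*} [CommMonoid M] (f : ℕ → M) :
    ∏ i, f (be i) = (zs.map (fun x => f x.1)).prod * ((hs.map (fun x => f (x.1 + hh p))).prod * (f l1 * f l2)) := by
  have h : ∏ i, f (be i) = (Multiset.map f (Multiset.map be univ.val)).prod := by
    rw [Multiset.map_map]
    rfl
  rw [h, F.hbe]
  simp [List.map_append, List.prod_append, List.map_map, Function.comp_def]

theorem Fit.sum_al (F : Fit zs hs k1 l1 k2 l2 p al be) (f : ℕ → ℤ) :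
    ∑ i, f (al i) = (zs.map (fun x => f x.2)).sum + ((hs.map (fun x => f (x.2 + hh p))).sum + (f k1 + f k2)) := by
  have h : ∑ i, f (al i) = (Multiset.map f (Multiset.map al univ.val)).sum := by
    rw [Multiset.map_map]
    rfl
  rw [h, F.hal]
  simp [List.map_append, List.sum_append, List.map_map, Function.comp_def]

theorem Fit.sum_be (F : Fit zs hs k1 l1 k2 l2 p al be) (f : ℕ → ℤ) :
    ∑ i, f (be i) = (zs.map (fun x => f x.1)).sum + ((hs.map (fun x => f (x.1 + hh p))).sum + (f l1 + f l2)) := by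
  have h : ∑ i, f (be i) = (Multiset.map f (Multiset.map be univ.val)).sum := by
    rw [Multiset.map_map]
    rfl
  rw [h, F.hbe]
  simp [List.map_append, List.sum_append, List.map_map, Function.comp_def]

theorem mem_range_of_map {β : Type*} {f : ι → β} {L : List β} (h : Multiset.map f univ.val = (L : Multiset β))
    {c : β} (hc : c ∈ L) : ∃ i, f i = c := by
  have h1 : c ∈ (L : Multiset β) := Multiset.mem_coe.2 hc
  rw [← h, Multiset.mem_map] at h1
  obtain ⟨i, _, hi⟩ := h1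
  exact ⟨i, hi⟩

theorem sum_map_sub (L : List (ℕ × ℕ)) (f g : ℕ × ℕ → ℤ) :
    (L.map f).sum - (L.map g).sum = (L.map fun x => f x - g x).sum := by
  induction L with
  | nil => simp
  | cons x L ih =>
    simp only [List.map_cons, List.sum_cons]
    rw [← ih]
    ring

/-- phi from the end points -/
theorem Fit.phi_eq (F : Fit zs hs k1 l1 k2 l2 p al be) (hp : 0 < p) {s : ℕ} (hs' : s < p) :
    phiL (ZI zs) (ZI hs) (Ico k1 l1) (Ico k2 l2) p s = phiG p al be s := by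
  set f : ℕ → ℤ := fun g => ((g / p : ℕ) : ℤ) + (if s < g % p then 1 else 0) with hf
  have e1 : phiG p al be s = ∑ i, f (al i) - ∑ i, f (be i) := by
    unfold phiG
    rw [hf]
    simp only [Finset.sum_add_distrib]
  have c1 : ∀ a b, a ≤ b → (cnt (Ico a b) p s : ℤ) = f b - f a := fun a b hab =>
    cnt_block p s a b hp hs' hab
  have z1 : (List.map (fun S => (cnt S p s : ℤ)) (ZI zs)).sum = (zs.map fun x => f x.2 - f x.1).sum := by
    unfold ZI
    rw [List.map_map]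
    congr 1
    refine List.map_congr_left fun x hx => ?_
    simp only [Function.comp_apply]
    exact c1 _ _ (F.hzs x hx)
  have z2 : (List.map (fun S => (cnt (sh p S) p s : ℤ)) (ZI hs)).sum =
      (hs.map fun x => f (x.2 + hh p) - f (x.1 + hh p)).sum := by
    unfold ZI
    rw [List.map_map]
    congr 1
    refine List.map_congr_left fun x hx => ?_
    simp only [Function.comp_apply]
    rw [sh_Ico]
    exact c1 _ _ (Nat.add_le_add_right (F.hhs x hx) _)
  rw [e1, F.sum_al f, F.sum_be f]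
  unfold phiL
  rw [z1, z2, c1 _ _ F.h1, c1 _ _ F.h2, ← sum_map_sub, ← sum_map_sub]
  ring

/-! ### constancy on the gap -/

theorem cg_le_iff {s1 s2 k k' c : ℕ} (hp : 0 < p) (h1 : s1 ≤ k % p) (h2 : k % p < s2)
    (h1' : s1 ≤ k' % p) (h2' : k' % p < s2) (hkk : k / p = k' / p)
    (hc : c % p ≤ s1 ∨ s2 ≤ c % p) : c ≤ k ↔ c ≤ k' := by
  have e1 := Nat.div_add_mod k p
  have e2 := Nat.div_add_mod k' p
  have e3 := Nat.div_add_mod c p
  rw [← hkk] at e2
  have m1 := Nat.mod_lt k hp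
  have m2 := Nat.mod_lt k' hp
  have m3 := Nat.mod_lt c hp
  rcases lt_trichotomy (c / p) (k / p) with h | h | h
  · have h5 : p * (c / p) + p ≤ p * (k / p) := by
      calc p * (c / p) + p = p * (c / p + 1) := by ring
        _ ≤ p * (k / p) := Nat.mul_le_mul_left _ h
    constructor <;> intro _ <;> omega
  · rw [h] at e3
    rcases hc with hc | hc
    · constructor <;> intro _ <;> omega
    · constructor <;> intro _ <;> omega
  · have h5 : p * (k / p) + p ≤ p * (c / p) := by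
      calc p * (k / p) + p = p * (k / p + 1) := by ring
        _ ≤ p * (c / p) := Nat.mul_le_mul_left _ h
    constructor <;> intro _ <;> omega

theorem cg_div {s1 s2 k k' c : ℕ} (hp : 0 < p) (h1 : s1 ≤ k % p) (h2 : k % p < s2)
    (h1' : s1 ≤ k' % p) (h2' : k' % p < s2) (hkk : k / p = k' / p)
    (hc : c % p ≤ s1 ∨ s2 ≤ c % p) : (k - c) / p = (k' - c) / p := by
  have hle := cg_le_iff hp h1 h2 h1' h2' hkk hc
  by_cases h : c ≤ k
  · have h' := hle.1 h
    have e1 := Nat.div_add_mod k p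
    have e2 := Nat.div_add_mod k' p
    have e3 := Nat.div_add_mod c p
    rw [← hkk] at e2
    have m1 := Nat.mod_lt k hp
    have m2 := Nat.mod_lt k' hp
    have m3 := Nat.mod_lt c hp
    have hq : c / p ≤ k / p := Nat.div_le_div_right h
    obtain ⟨t, ht⟩ := Nat.exists_eq_add_of_le hq
    have hpt : p * (k / p) = p * (c / p) + p * t := by rw [ht]; ring
    rcases hc with hc | hc
    · have a1 : k - c = p * t + (k % p - c % p) := by omega
      have a2 : k' - c = p * t + (k' % p - c % p) := by omega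
      rw [a1, a2, Nat.mul_add_div hp, Nat.mul_add_div hp, Nat.div_eq_of_lt (by omega),
        Nat.div_eq_of_lt (by omega)]
    · have ht1 : 1 ≤ t := by
        by_contra h0
        have : t = 0 := by omega
        rw [this, Nat.mul_zero, Nat.add_zero] at hpt
        omega
      obtain ⟨u, rfl⟩ := Nat.exists_eq_add_of_le ht1
      have hpu : p * (1 + u) = p + p * u := by ring
      have a1 : k - c = p * u + (p + k % p - c % p) := by omega
      have a2 : k' - c = p * u + (p + k' % p - c % p) := by omega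
      rw [a1, a2, Nat.mul_add_div hp, Nat.mul_add_div hp, Nat.div_eq_of_lt (by omega),
        Nat.div_eq_of_lt (by omega)]
  · have h' : ¬ c ≤ k' := fun h0 => h (hle.2 h0)
    rw [Nat.sub_eq_zero_of_le (by omega), Nat.sub_eq_zero_of_le (by omega)]

/-- the bijection between the classes -/
theorem cg_map {s1 s2 k k' a b : ℕ} (hp : 0 < p) (h1 : s1 ≤ k % p)
    (h2 : k % p < s2) (h1' : s1 ≤ k' % p) (h2' : k' % p < s2)
    (ha : a % p ≤ s1 ∨ s2 ≤ a % p) (hb : b % p ≤ s1 ∨ s2 ≤ b % p) {i : ℕ}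
    (hi : i ∈ Ico a b) (him : i % p = k % p) :
    p * (i / p) + k' % p ∈ Ico a b ∧ (p * (i / p) + k' % p) % p = k' % p ∧
      (p * (i / p) + k' % p) / p = i / p ∧ p * ((p * (i / p) + k' % p) / p) + k % p = i := by
  rw [Finset.mem_Ico] at hi ⊢
  have e0 := Nat.div_add_mod i p
  have hdiv : (p * (i / p) + k' % p) / p = i / p := by
    rw [Nat.mul_add_div hp, Nat.div_eq_of_lt (Nat.mod_lt _ hp), Nat.add_zero]
  have hmod : (p * (i / p) + k' % p) % p = k' % p := by
    rw [Nat.mul_add_mod, Nat.mod_mod]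
  have hle : ∀ c, (c % p ≤ s1 ∨ s2 ≤ c % p) → (c ≤ i ↔ c ≤ p * (i / p) + k' % p) := by
    intro c hc
    refine cg_le_iff hp (s1 := s1) (s2 := s2) ?_ ?_ ?_ ?_ ?_ hc
    · rw [him]; exact h1
    · rw [him]; exact h2
    · rw [hmod]; exact h1'
    · rw [hmod]; exact h2'
    · rw [hdiv]
  refine ⟨⟨(hle a ha).1 hi.1, ?_⟩, hmod, hdiv, ?_⟩
  · by_contra h0
    exact absurd ((hle b hb).2 (not_lt.1 h0)) (not_le.2 hi.2)
  · rw [hdiv, ← him]
    exact e0

theorem cg_wv {s1 s2 k k' a b : ℕ} (hp : 0 < p) (h1 : s1 ≤ k % p)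
    (h2 : k % p < s2) (h1' : s1 ≤ k' % p) (h2' : k' % p < s2) (hkk : k / p = k' / p)
    (ha : a % p ≤ s1 ∨ s2 ≤ a % p) (hb : b % p ≤ s1 ∨ s2 ≤ b % p) :
    wv (Ico a b) p k = wv (Ico a b) p k' ∧ lv (Ico a b) p k = lv (Ico a b) p k' := by
  have key : ∀ {k k' : ℕ}, s1 ≤ k % p → k % p < s2 → s1 ≤ k' % p → k' % p < s2 → k / p = k' / p →
      ∀ i ∈ cls (Ico a b) p k, p * (i / p) + k' % p ∈ cls (Ico a b) p k' ∧
        p * ((p * (i / p) + k' % p) / p) + k % p = i ∧ (p * (i / p) + k' % p) / p = i / p := by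
    intro k k' h1 h2 h1' h2' hkk i hi
    unfold cls at hi ⊢
    rw [Finset.mem_erase, Finset.mem_filter] at hi
    obtain ⟨hne, hiab, him⟩ := hi
    obtain ⟨m1, m2, m3, m4⟩ := cg_map hp h1 h2 h1' h2' ha hb hiab him
    refine ⟨?_, m4, m3⟩
    rw [Finset.mem_erase, Finset.mem_filter]
    refine ⟨?_, m1, m2⟩
    intro h0
    apply hne
    have e1 := Nat.div_add_mod k p
    have e2 : i / p = k / p := by rw [hkk, ← h0, m3]
    rw [← Nat.div_add_mod i p, ← e1, e2, him]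
  constructor
  · unfold wv
    refine Finset.prod_nbij' (fun i => p * (i / p) + k' % p) (fun i => p * (i / p) + k % p)
      (fun i hi => (key h1 h2 h1' h2' hkk i hi).1) (fun i hi => (key h1' h2' h1 h2 hkk.symm i hi).1)
      (fun i hi => (key h1 h2 h1' h2' hkk i hi).2.1) (fun i hi => (key h1' h2' h1 h2 hkk.symm i hi).2.1)
      fun i hi => ?_
    rw [(key h1 h2 h1' h2' hkk i hi).2.2, hkk]
  · unfold lv
    refine Finset.sum_nbij' (fun i => p * (i / p) + k' % p) (fun i => p * (i / p) + k % p)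
      (fun i hi => (key h1 h2 h1' h2' hkk i hi).1) (fun i hi => (key h1' h2' h1 h2 hkk.symm i hi).1)
      (fun i hi => (key h1 h2 h1' h2' hkk i hi).2.1) (fun i hi => (key h1' h2' h1 h2 hkk.symm i hi).2.1)
      fun i hi => ?_
    rw [(key h1 h2 h1' h2' hkk i hi).2.2, hkk]

theorem cg_wvF {s1 s2 k k' a b : ℕ} (hp : 0 < p) (h1 : s1 ≤ k % p)
    (h2 : k % p < s2) (h1' : s1 ≤ k' % p) (h2' : k' % p < s2) (hkk : k / p = k' / p)
    (ha : a % p ≤ s1 ∨ s2 ≤ a % p) (hb : b % p ≤ s1 ∨ s2 ≤ b % p) :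
    wvF (Ico a b) p k = wvF (Ico a b) p k' ∧ lvF (Ico a b) p k = lvF (Ico a b) p k' := by
  have key : ∀ {k k' : ℕ}, s1 ≤ k % p → k % p < s2 → s1 ≤ k' % p → k' % p < s2 →
      ∀ i ∈ clsF (Ico a b) p k, p * (i / p) + k' % p ∈ clsF (Ico a b) p k' ∧
        p * ((p * (i / p) + k' % p) / p) + k % p = i ∧ (p * (i / p) + k' % p) / p = i / p := by
    intro k k' h1 h2 h1' h2' i hi
    unfold clsF at hi ⊢
    rw [Finset.mem_filter] at hi
    obtain ⟨m1, m2, m3, m4⟩ := cg_map hp h1 h2 h1' h2' ha hb hi.1 hi.2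
    rw [Finset.mem_filter]
    exact ⟨⟨m1, m2⟩, m4, m3⟩
  constructor
  · unfold wvF
    refine Finset.prod_nbij' (fun i => p * (i / p) + k' % p) (fun i => p * (i / p) + k % p)
      (fun i hi => (key h1 h2 h1' h2' i hi).1) (fun i hi => (key h1' h2' h1 h2 i hi).1)
      (fun i hi => (key h1 h2 h1' h2' i hi).2.1) (fun i hi => (key h1' h2' h1 h2 i hi).2.1)
      fun i hi => ?_
    rw [(key h1 h2 h1' h2' i hi).2.2, hkk]
  · unfold lvF
    refine Finset.sum_nbij' (fun i => p * (i / p) + k' % p) (fun i => p * (i / p) + k % p)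
      (fun i hi => (key h1 h2 h1' h2' i hi).1) (fun i hi => (key h1' h2' h1 h2 i hi).1)
      (fun i hi => (key h1 h2 h1' h2' i hi).2.1) (fun i hi => (key h1' h2' h1 h2 i hi).2.1)
      fun i hi => ?_
    rw [(key h1 h2 h1' h2' i hi).2.2, hkk]

theorem gap_constG {s1 s2 : ℕ} {pi : Equiv.Perm ι} (F : Fit zs hs k1 l1 k2 l2 p al be)
    (g : GapG p al be s1 s2 pi) {k k' : ℕ}
    (h1 : s1 ≤ k % p) (h2 : k % p < s2) (h1' : s1 ≤ k' % p) (h2' : k' % p < s2) (hkk : k / p = k' / p) :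
    (k ∈ Ico k1 l1 ↔ k' ∈ Ico k1 l1) ∧ (k ∈ Ico k2 l2 ↔ k' ∈ Ico k2 l2) ∧
      WL (ZI zs) (ZI hs) (Ico k1 l1) (Ico k2 l2) p k = WL (ZI zs) (ZI hs) (Ico k1 l1) (Ico k2 l2) p k' ∧
      LamL (ZI zs) (ZI hs) (Ico k1 l1) (Ico k2 l2) p k = LamL (ZI zs) (ZI hs) (Ico k1 l1) (Ico k2 l2) p k' := by
  have hp : 0 < p := g.hp.pos
  have hA : ∀ c ∈ zs.map Prod.snd ++ (hs.map (fun x => x.2 + hh p) ++ [k1, k2]),
      c % p ≤ s1 ∨ s2 ≤ c % p := by
    intro c hc
    obtain ⟨i, rfl⟩ := mem_range_of_map F.hal hc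
    exact g.hal i
  have hB : ∀ c ∈ zs.map Prod.fst ++ (hs.map (fun x => x.1 + hh p) ++ [l1, l2]),
      c % p ≤ s1 ∨ s2 ≤ c % p := by
    intro c hc
    obtain ⟨i, rfl⟩ := mem_range_of_map F.hbe hc
    exact g.hbe i
  have a1 : ∀ x ∈ zs, (x.1 % p ≤ s1 ∨ s2 ≤ x.1 % p) ∧ (x.2 % p ≤ s1 ∨ s2 ≤ x.2 % p) := fun x hx =>
    ⟨hB _ (List.mem_append_left _ (List.mem_map_of_mem hx)), hA _ (List.mem_append_left _ (List.mem_map_of_mem hx))⟩
  have a2 : ∀ x ∈ hs, ((x.1 + hh p) % p ≤ s1 ∨ s2 ≤ (x.1 + hh p) % p) ∧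
      ((x.2 + hh p) % p ≤ s1 ∨ s2 ≤ (x.2 + hh p) % p) := fun x hx =>
    ⟨hB _ (List.mem_append_right _ (List.mem_append_left _ (List.mem_map_of_mem (f := fun x : ℕ × ℕ => x.1 + hh p) hx))),
      hA _ (List.mem_append_right _ (List.mem_append_left _ (List.mem_map_of_mem (f := fun x : ℕ × ℕ => x.2 + hh p) hx)))⟩
  have a3 : (k1 % p ≤ s1 ∨ s2 ≤ k1 % p) ∧ (k2 % p ≤ s1 ∨ s2 ≤ k2 % p) := ⟨hA _ (by simp), hA _ (by simp)⟩
  have a4 : (l1 % p ≤ s1 ∨ s2 ≤ l1 % p) ∧ (l2 % p ≤ s1 ∨ s2 ≤ l2 % p) := ⟨hB _ (by simp), hB _ (by simp)⟩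
  have hle : ∀ c, (c % p ≤ s1 ∨ s2 ≤ c % p) → (c ≤ k ↔ c ≤ k') := fun c hc =>
    cg_le_iff hp h1 h2 h1' h2' hkk hc
  have hmem : ∀ a b, (a % p ≤ s1 ∨ s2 ≤ a % p) → (b % p ≤ s1 ∨ s2 ≤ b % p) →
      (k ∈ Ico a b ↔ k' ∈ Ico a b) := by
    intro a b ha hb
    rw [Finset.mem_Ico, Finset.mem_Ico]
    have x1 := hle a ha
    have x2 := hle b hb
    omega
  have hw : ∀ a b, (a % p ≤ s1 ∨ s2 ≤ a % p) → (b % p ≤ s1 ∨ s2 ≤ b % p) →
      wv (Ico a b) p k = wv (Ico a b) p k' ∧ lv (Ico a b) p k = lv (Ico a b) p k' :=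
    fun a b ha hb => cg_wv hp h1 h2 h1' h2' hkk ha hb
  have hwF : ∀ a b, (a % p ≤ s1 ∨ s2 ≤ a % p) → (b % p ≤ s1 ∨ s2 ≤ b % p) →
      wvF (Ico a b) p k = wvF (Ico a b) p k' ∧ lvF (Ico a b) p k = lvF (Ico a b) p k' :=
    fun a b ha hb => cg_wvF hp h1 h2 h1' h2' hkk ha hb
  have z1 : List.map (fun S => wv S p k) (ZI zs) = List.map (fun S => wv S p k') (ZI zs) := by
    unfold ZI
    rw [List.map_map, List.map_map]
    exact List.map_congr_left fun x hx => (hw _ _ (a1 x hx).1 (a1 x hx).2).1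
  have z2 : List.map (fun S => lv S p k) (ZI zs) = List.map (fun S => lv S p k') (ZI zs) := by
    unfold ZI
    rw [List.map_map, List.map_map]
    exact List.map_congr_left fun x hx => (hw _ _ (a1 x hx).1 (a1 x hx).2).2
  have z3 : List.map (fun S => wvF (sh p S) p k) (ZI hs) = List.map (fun S => wvF (sh p S) p k') (ZI hs) := by
    unfold ZI
    rw [List.map_map, List.map_map]
    refine List.map_congr_left fun x hx => ?_
    simp only [Function.comp_apply, sh_Ico]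
    exact (hwF _ _ (a2 x hx).1 (a2 x hx).2).1
  have z4 : List.map (fun S => lvF (sh p S) p k) (ZI hs) = List.map (fun S => lvF (sh p S) p k') (ZI hs) := by
    unfold ZI
    rw [List.map_map, List.map_map]
    refine List.map_congr_left fun x hx => ?_
    simp only [Function.comp_apply, sh_Ico]
    exact (hwF _ _ (a2 x hx).1 (a2 x hx).2).2
  refine ⟨hmem _ _ a3.1 a4.1, hmem _ _ a3.2 a4.2, ?_, ?_⟩
  · unfold WL
    rw [z1, z3, (hw _ _ a3.1 a4.1).1, (hw _ _ a3.2 a4.2).1]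
  · unfold LamL
    rw [z2, z4, (hw _ _ a3.1 a4.1).2, (hw _ _ a3.2 a4.2).2]

/-! ### the unit part -/

theorem map_uz_block [Fact p.Prime] (L : List (ℕ × ℕ)) (k c : ℕ) (hL : ∀ x ∈ L, x.1 ≤ x.2) :
    (L.map fun x => Th p (x.1 + c) (k % p)).prod *
      ((((L.map fun x => uz (Ico (x.1 + c) (x.2 + c)) p k).prod : ℤ)) : ZMod p) =
      (L.map fun x => Th p (x.2 + c) (k % p)).prod := by
  induction L with
  | nil => simp
  | cons x L ih =>
    simp only [List.map_cons, List.prod_cons, Int.cast_mul]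
    rw [← ih fun y hy => hL y (List.mem_cons_of_mem _ hy),
      ← uz_block (p := p) (x.1 + c) (x.2 + c) k (Nat.add_le_add_right (hL x List.mem_cons_self) c)]
    ring

theorem map_Th_ne [Fact p.Prime] (L : List (ℕ × ℕ)) (f : ℕ × ℕ → ℕ) {s : ℕ} (hs' : s < p) :
    (L.map fun x => Th p (f x) s).prod ≠ 0 := by
  induction L with
  | nil => simp
  | cons x L ih =>
    simp only [List.map_cons, List.prod_cons]
    exact mul_ne_zero (Th_ne_zero _ _ hs') ih

theorem list_congr_mod [Fact p.Prime] (L : List (ℕ × ℕ)) (f g : ℕ × ℕ → ℚ) (t : ℚ) (ht : 0 ≤ t)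
    (hf : ∀ x ∈ L, padicNorm p (f x) ≤ 1) (hg : ∀ x ∈ L, padicNorm p (g x) ≤ 1)
    (hfg : ∀ x ∈ L, padicNorm p (f x - g x) ≤ t) :
    padicNorm p ((L.map f).prod - (L.map g).prod) ≤ t ∧ padicNorm p (L.map f).prod ≤ 1 ∧
      padicNorm p (L.map g).prod ≤ 1 := by
  induction L with
  | nil => simpa using ht
  | cons x L ih =>
    simp only [List.map_cons, List.prod_cons]
    obtain ⟨i1, i2, i3⟩ := ih (fun y hy => hf y (List.mem_cons_of_mem _ hy))
      (fun y hy => hg y (List.mem_cons_of_mem _ hy)) (fun y hy => hfg y (List.mem_cons_of_mem _ hy))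
    have e : f x * (L.map f).prod - g x * (L.map g).prod =
        (f x - g x) * (L.map f).prod + g x * ((L.map f).prod - (L.map g).prod) := by ring
    refine ⟨?_, nmul1 (hf x List.mem_cons_self) i2, nmul1 (hg x List.mem_cons_self) i3⟩
    rw [e]
    exact nadd (nmul2 (hfg x List.mem_cons_self) i2) (nmul1 (hg x List.mem_cons_self) i1)

theorem map_cast_prod (L : List (ℕ × ℕ)) (f : ℕ × ℕ → ℤ) :
    (((L.map f).prod : ℤ) : ℚ) = (L.map fun x => ((f x : ℤ) : ℚ)).prod := by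
  induction L with
  | nil => simp
  | cons x L ih =>
    simp only [List.map_cons, List.prod_cons, Int.cast_mul, ih]

/-- the unit part is a constant times P -/
theorem UL_congr {s1 s2 : ℕ} {pi : Equiv.Perm ι} (h2 : p ≠ 2) (F : Fit zs hs k1 l1 k2 l2 p al be)
    (g : GapG p al be s1 s2 pi) :
    ∃ c : ℚ, padicNorm p c ≤ 1 ∧ ∀ k, s1 ≤ k % p → k % p < s2 →
      padicNorm p (UL (ZI zs) (ZI hs) (Ico k1 l1) (Ico k2 l2) p k -
        c * (PvG p al be pi (k % p : ℕ) : ℚ)) ≤ (p : ℚ)⁻¹ := by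
  have hp := g.hp
  have : Fact p.Prime := ⟨hp⟩
  have hpinv : (0 : ℚ) ≤ (p : ℚ)⁻¹ := by positivity
  set e : ℤ := ∏ m, (-1 : ℤ) ^ ((((al (pi m) : ℤ) - be m) / p)).natAbs with he
  refine ⟨(e : ℚ), padicNorm.of_int e, fun k hs1 hs2 => ?_⟩
  set s := k % p with hsdef
  have hsp : s < p := Nat.mod_lt _ hp.pos
  -- integers
  set X1 : ℤ := (zs.map fun x => uz (Ico (x.1 + 0) (x.2 + 0)) p k).prod with hX1
  set X2 : ℤ := (hs.map fun x => uz (Ico (x.1 + hh p) (x.2 + hh p)) p k).prod with hX2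
  set Y : ℤ := uz (Ico k1 l1) p k * uz (Ico k2 l2) p k with hY
  have t1 := map_uz_block (p := p) zs k 0 F.hzs
  have t2 := map_uz_block (p := p) hs k (hh p) F.hhs
  have t4 := uz_block (p := p) k1 l1 k F.h1
  have t5 := uz_block (p := p) k2 l2 k F.h2
  rw [← hsdef] at t1 t2 t4 t5
  rw [← hX1] at t1
  rw [← hX2] at t2
  have hT := Th_gapG g s hs1 hs2
  have hec : (∏ m, (-1 : ZMod p) ^ (((al (pi m) : ℤ) - be m) / p)) = ((e : ℤ) : ZMod p) := by
    rw [he, Int.cast_prod]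
    exact Finset.prod_congr rfl fun m _ => neg_one_zpow_castG _
  rw [hec, F.prod_al (fun c => Th p c s), F.prod_be (fun c => Th p c s)] at hT
  have hne : ∀ c : ℕ, Th p c s ≠ 0 := fun c => Th_ne_zero c s hsp
  have hYne : ((Y : ℤ) : ZMod p) ≠ 0 := by
    rw [hY, Int.cast_mul]
    refine mul_ne_zero ?_ ?_
    · intro h0
      rw [h0, mul_zero] at t4
      exact hne _ t4.symm
    · intro h0
      rw [h0, mul_zero] at t5
      exact hne _ t5.symm
  have n1 := map_Th_ne (p := p) zs (fun x => x.1 + 0) hsp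
  have n2 := map_Th_ne (p := p) hs (fun x => x.1 + hh p) hsp
  have hXY : ((X1 * X2 : ℤ) : ZMod p) = (e : ZMod p) * ((PvG p al be pi (s : ℤ) : ℤ) : ZMod p) * ((Y : ℤ) : ZMod p) := by
    have hA : (zs.map fun x => Th p (x.1 + 0) s).prod * (hs.map fun x => Th p (x.1 + hh p) s).prod *
        (Th p k1 s * Th p k2 s) ≠ 0 := mul_ne_zero (mul_ne_zero n1 n2) (mul_ne_zero (hne _) (hne _))
    apply mul_left_cancel₀ hA
    have e1 : (zs.map fun x => Th p (x.1 + 0) s).prod * (hs.map fun x => Th p (x.1 + hh p) s).prod *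
        (Th p k1 s * Th p k2 s) * ((X1 * X2 : ℤ) : ZMod p) =
        (zs.map fun x => Th p x.2 s).prod * ((hs.map fun x => Th p (x.2 + hh p) s).prod *
        (Th p k1 s * Th p k2 s)) := by
      have t1' : (zs.map fun x => Th p (x.1 + 0) s).prod * ((X1 : ℤ) : ZMod p) = (zs.map fun x => Th p x.2 s).prod := t1
      rw [← t1', ← t2]
      push_cast
      ring
    have e2 : (zs.map fun x => Th p (x.1 + 0) s).prod * (hs.map fun x => Th p (x.1 + hh p) s).prod *
        (Th p k1 s * Th p k2 s) * ((e : ZMod p) * ((PvG p al be pi (s : ℤ) : ℤ) : ZMod p) * ((Y : ℤ) : ZMod p)) =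
        (e : ZMod p) * ((PvG p al be pi (s : ℤ) : ℤ) : ZMod p) * ((zs.map fun x => Th p x.1 s).prod *
        ((hs.map fun x => Th p (x.1 + hh p) s).prod * (Th p l1 s * Th p l2 s))) := by
      rw [← t4, ← t5, hY]
      simp only [add_zero]
      push_cast
      ring
    rw [e1, e2, hT]
  have hdvd : (p : ℤ) ∣ X1 * X2 - e * PvG p al be pi (s : ℤ) * Y := by
    rw [← ZMod.intCast_zmod_eq_zero_iff_dvd]
    rw [Int.cast_sub, hXY]
    push_cast
    rw [sub_self]
  have hYn : padicNorm p (Y : ℚ) = 1 := by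
    rw [padicNorm.int_eq_one_iff]
    intro h
    exact hYne ((ZMod.intCast_zmod_eq_zero_iff_dvd _ _).2 h)
  have hY0 : (Y : ℚ) ≠ 0 := by
    intro h
    rw [h, padicNorm.zero] at hYn
    exact zero_ne_one hYn
  have hle : padicNorm p ((X1 * X2 - e * PvG p al be pi (s : ℤ) * Y : ℤ) : ℚ) ≤ (p : ℚ)⁻¹ := by
    have := (padicNorm.dvd_iff_norm_le (p := p) (n := 1) (z := X1 * X2 - e * PvG p al be pi (s : ℤ) * Y)).1
      (by rwa [pow_one])
    simpa using this
  -- the rational unit part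
  have hu1 : ((ZI zs).map fun S => uv S p k).prod = ((X1 : ℤ) : ℚ) := by
    rw [hX1, map_cast_prod]
    unfold ZI
    rw [List.map_map]
    congr 1
    refine List.map_congr_left fun x _ => ?_
    simp only [Function.comp_apply, add_zero]
    exact uv_eq_uz _ _ _
  have hu2 := list_congr_mod (p := p) hs (fun x => uvF (Ico (x.1 + hh p) (x.2 + hh p)) p k)
    (fun x => ((uz (Ico (x.1 + hh p) (x.2 + hh p)) p k : ℤ) : ℚ)) (p : ℚ)⁻¹ hpinv
    (fun x _ => (norm_uvF hp h2 _ k).le) (fun x _ => nint _) (fun x _ => by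
      rw [← uv_eq_uz]
      exact uvF_congr hp h2 _ k)
  have hu3 : ((ZI hs).map fun S => uvF (sh p S) p k).prod =
      (hs.map fun x => uvF (Ico (x.1 + hh p) (x.2 + hh p)) p k).prod := by
    unfold ZI
    rw [List.map_map]
    congr 1
    refine List.map_congr_left fun x _ => ?_
    simp only [Function.comp_apply, sh_Ico]
  rw [← map_cast_prod, ← hX2] at hu2
  have hUL : UL (ZI zs) (ZI hs) (Ico k1 l1) (Ico k2 l2) p k - (e : ℚ) * (PvG p al be pi (s : ℤ) : ℚ) =
      (((X1 : ℤ) : ℚ) * ((hs.map fun x => uvF (Ico (x.1 + hh p) (x.2 + hh p)) p k).prod - ((X2 : ℤ) : ℚ)) +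
        ((X1 * X2 - e * PvG p al be pi (s : ℤ) * Y : ℤ) : ℚ)) / (Y : ℚ) := by
    unfold UL
    rw [hu1, hu3, uv_eq_uz, uv_eq_uz, ← Int.cast_mul (uz (Ico k1 l1) p k), ← hY]
    push_cast
    field_simp
    ring
  rw [hUL, padicNorm.div, hYn, div_one]
  exact nadd (nmul1 (nint _) hu2.1) hle

end

end Pool.Agent.Z23
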