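import Mathlib

/-!
# Generic definitions for the project Z23 (blocks of zeros at integers and at half-integers)
-/

open Finset

namespace Pool.Agent.Z23

/-- product of the numbers i - k over K without k -/
def dK (K : Finset ℕ) (k : ℕ) : ℚ := ∏ i ∈ K.erase k, ((i : ℚ) - k)

/-- sum of the numbers 1 / (i - k) over K without k -/
def lK (K : Finset ℕ) (k : ℕ) : ℚ := ∑ i ∈ K.erase k, 1 / ((i : ℚ) - k)

/-- the numerator with integer blocks Zs and half-integer blocks Hs -/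
def numL {F : Type*} [Field F] (Zs Hs : List (Finset ℕ)) (t : F) : F :=
  (Zs.map fun S : Finset ℕ => ∏ i ∈ S, (t + (i : F))).prod * (Hs.map fun S : Finset ℕ => ∏ i ∈ S, (t + ((i : F) + 1 / 2))).prod

/-- the logarithmic derivative of the numerator at -k -/
def logL (Zs Hs : List (Finset ℕ)) (k : ℕ) : ℚ :=
  (Zs.map fun S : Finset ℕ => ∑ i ∈ S, 1 / ((i : ℚ) - k)).sum +
    (Hs.map fun S : Finset ℕ => ∑ i ∈ S, 1 / ((i : ℚ) + 1 / 2 - k)).sum

/-- number of zeros -/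
def degL (Zs Hs : List (Finset ℕ)) : ℕ := (Zs.map Finset.card).sum + (Hs.map Finset.card).sum

/-- coefficient of 1/(t+k)^2 for j = 0 -/
def A0L (Zs Hs : List (Finset ℕ)) (K1 K2 : Finset ℕ) (k : ℕ) : ℚ :=
  if k ∈ K2 then numL Zs Hs (-(k : ℚ)) / (dK K1 k * dK K2 k) else 0

/-- coefficient of 1/(t+k) for j = 0 -/
def B0L (Zs Hs : List (Finset ℕ)) (K1 K2 : Finset ℕ) (k : ℕ) : ℚ :=
  if k ∈ K2 then A0L Zs Hs K1 K2 k * (logL Zs Hs k - lK K1 k - lK K2 k)
  else numL Zs Hs (-(k : ℚ)) / (dK K1 k * dK K2 k)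

end Pool.Agent.Z23
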