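import Pool.Agent.Z23.Conf
import Pool.Agent.Z23.CrudeBD

/-!
# The exponent function of the frozen configuration and the sum over the primes
-/

open Finset Filter Topology

namespace Pool.Agent.Z23

/-- the cells of n/p mod 1; the weight is the bound of the p-exponent for p < 20 n -/
def cells1 : List Cell :=
  [⟨0, 1, 1, 20, 3⟩, ⟨1, 20, 1, 16, 3⟩, ⟨1, 16, 3, 10, 2⟩, ⟨3, 10, 5, 16, 3⟩, ⟨5, 16, 9, 22, 2⟩,
   ⟨9, 22, 5, 12, 3⟩, ⟨5, 12, 11, 24, 2⟩, ⟨11, 24, 9, 16, 3⟩, ⟨9, 16, 4, 5, 2⟩, ⟨4, 5, 13, 16, 3⟩,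
   ⟨13, 16, 10, 11, 2⟩, ⟨10, 11, 11, 12, 3⟩, ⟨11, 12, 23, 24, 2⟩, ⟨23, 24, 1, 1, 3⟩]

/-- the period 0: p > n -/
def cells0 (l1 : List Cell) : List Cell :=
  ⟨0, 1, 1, 24, 0⟩ :: ⟨1, 24, 1, 22, 1⟩ :: ⟨1, 22, 1, 20, 2⟩ ::
    l1.filter (fun x => decide (x.b ≤ 20 * x.a))

/-- the exponent of p: crude for the small and the bad primes, 0, 1, 2 in the ranges p > 20 n,
else the weight w (n % p) p -/
noncomputable def eeG (w : ℕ → ℕ → ℕ) (n p : ℕ) : ℕ :=
  open Classical in
  if p ^ 2 ≤ MM n ∨ ¬ Good n p then exC p (MM n) (9 * n)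
  else if 24 * n + 1 < p then 0 else if 22 * n + 1 < p then 1 else if 20 * n + 1 < p then 2
  else w (n % p) p

theorem eeG_bad {w : ℕ → ℕ → ℕ} {n p : ℕ} (h : p ^ 2 ≤ MM n ∨ ¬ Good n p) :
    eeG w n p = exC p (MM n) (9 * n) := by
  unfold eeG
  exact if_pos h

theorem eeG_good {w : ℕ → ℕ → ℕ} {n p : ℕ} (h : ¬ (p ^ 2 ≤ MM n ∨ ¬ Good n p)) :
    eeG w n p = if 24 * n + 1 < p then 0 else if 22 * n + 1 < p then 1
      else if 20 * n + 1 < p then 2 else w (n % p) p := by
  unfold eeG
  exact if_neg h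

/-- the checks of a table -/
def okTab (l1 : List Cell) (T S : ℕ) : Bool :=
  chainG 200 0 1 l1 && l1.all Cell.ok && l1.all (fun x => decide (x.w ≤ 3)) &&
  l1.all (fun x => decide (x.b ≤ 20 * x.a) || decide (20 * x.c ≤ x.d)) &&
  decide (scG (cells0 l1) l1 T < S)

theorem MM_eq (n : ℕ) : MM n = 200 * n + 100 := rfl

/-- crude exponent against the logarithm -/
theorem exC_le {p M : ℕ} (l : ℕ) (hp : 2 ≤ p) (h2 : p ≠ 2) (hM : p ≤ M) :
    exC p M l ≤ 13 * Nat.log p M := by
  have : 1 ≤ Nat.log p M := Nat.log_pos hp hM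
  unfold exC
  rw [if_neg h2]
  omega

theorem exC_two {M : ℕ} (l : ℕ) (hM : 2 ≤ M) :
    exC 2 M l ≤ 13 * Nat.log 2 M + 2 * l := by
  have : 1 ≤ Nat.log 2 M := Nat.log_pos (by norm_num) hM
  unfold exC
  rw [if_pos rfl]
  omega

/-- **The logarithm of the denominator**, for any table with checks. -/
theorem hlogG (l1 : List Cell) (T S : ℕ) (h : okTab l1 T S = true) :
    ∀ᶠ n : ℕ in atTop, ∑ p ∈ (range (MM n + 1)).filter Nat.Prime,
      (eeG (tabW l1) n p : ℝ) * Real.log p ≤ ((S : ℝ) / 10 ^ 12 + 12.477) * n := by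
  classical
  unfold okTab at h
  simp only [Bool.and_eq_true, decide_eq_true_eq, List.all_eq_true, Bool.or_eq_true] at h
  obtain ⟨⟨⟨⟨hch, hok⟩, hw⟩, hcut⟩, hS⟩ := h
  set ex : ℕ → ℕ → ℕ := fun n p => if p = 2 ∨ MM n < p then 0 else eeG (tabW l1) n p with hex
  have hgen : ∀ᶠ n : ℕ in atTop, ∀ P : Finset ℕ, (∀ p ∈ P, p.Prime) →
      ∑ p ∈ P, (ex n p : ℝ) * Real.log (p : ℝ) ≤ ((S : ℝ) / 10 ^ 12) * n := by
    refine prime_sumG 200 6 100 13 T (by norm_num) (by norm_num) (cells0 l1) l1 ?_ hok ?_ hw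
      ((S : ℝ) / 10 ^ 12) ?_ ex ?_ ?_ ?_
    · intro x hx
      unfold cells0 at hx
      rw [List.mem_cons, List.mem_cons, List.mem_cons, List.mem_filter] at hx
      rcases hx with rfl | rfl | rfl | hx
      · decide
      · decide
      · decide
      · exact hok x hx.1
    · intro x hx hx0
      unfold cells0 at hx
      rw [List.mem_cons, List.mem_cons, List.mem_cons, List.mem_filter, decide_eq_true_eq] at hx
      rcases hx with rfl | rfl | rfl | hx
      · rfl
      · exact absurd hx0 (by decide)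
      · exact absurd hx0 (by decide)
      · have h1 := ((Cell.ok_iff x).1 (hok x hx.1)).1
        rw [hx0] at hx
        omega
    · exact div_lt_div_of_pos_right (by exact_mod_cast hS) (by positivity)
    · intro n p hn hp hbad
      rw [hex]
      simp only
      split_ifs with h1
      · exact Nat.zero_le _
      · push Not at h1
        rw [eeG_bad hbad]
        exact exC_le _ hp.two_le h1.1 h1.2
    · intro n p hn hp hng hnp
      have hg : Good n p := by
        by_contra hcon
        exact hng (Or.inr hcon)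
      have hdv : ∀ d : ℕ, 1 ≤ d → d ≤ 200 → ∀ e : ℕ, e ≤ 6 → p ≠ d * n + e := by
        intro d h1 h2 e he hcon
        refine hg d h1 h2 (e : ℤ) (by rw [Nat.abs_cast]; exact_mod_cast he) ?_
        rw [hcon]
        push_cast
        exact dvd_refl _
      have k20 := hdv 20 (by norm_num) (by norm_num) 0 (by norm_num)
      have k20' := hdv 20 (by norm_num) (by norm_num) 1 (by norm_num)
      have k22 := hdv 22 (by norm_num) (by norm_num) 0 (by norm_num)
      have k22' := hdv 22 (by norm_num) (by norm_num) 1 (by norm_num)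
      have k24 := hdv 24 (by norm_num) (by norm_num) 0 (by norm_num)
      have k24' := hdv 24 (by norm_num) (by norm_num) 1 (by norm_num)
      have hmod : n % p = n := Nat.mod_eq_of_lt hnp
      -- the exponent
      have hexle : ex n p ≤ eeG (tabW l1) n p := by
        rw [hex]
        simp only
        split_ifs
        · exact Nat.zero_le _
        · exact le_rfl
      have hee : eeG (tabW l1) n p = if 24 * n + 1 < p then 0 else if 22 * n + 1 < p then 1
          else if 20 * n + 1 < p then 2 else tabW l1 (n % p) p := eeG_good hng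
      unfold cells0
      rcases Nat.lt_or_ge (24 * n + 1) p with h24 | h24
      · refine ⟨⟨0, 1, 1, 24, 0⟩, List.mem_cons_self, ⟨?_, ?_⟩, ?_⟩
        · simp only [zero_mul]
          omega
        · simp only
          omega
        · rw [hee, if_pos h24] at hexle
          exact hexle
      rw [if_neg (by omega)] at hee
      rcases Nat.lt_or_ge (22 * n + 1) p with h22 | h22
      · refine ⟨⟨1, 24, 1, 22, 1⟩, List.mem_cons_of_mem _ List.mem_cons_self, ⟨?_, ?_⟩, ?_⟩
        · simp only
          omega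
        · simp only
          omega
        · rw [hee, if_pos h22] at hexle
          exact hexle
      rw [if_neg (by omega)] at hee
      rcases Nat.lt_or_ge (20 * n + 1) p with h20 | h20
      · refine ⟨⟨1, 22, 1, 20, 2⟩,
          List.mem_cons_of_mem _ (List.mem_cons_of_mem _ List.mem_cons_self), ⟨?_, ?_⟩, ?_⟩
        · simp only
          omega
        · simp only
          omega
        · rw [hee, if_pos h20] at hexle
          exact hexle
      rw [if_neg (by omega)] at hee
      obtain ⟨x, hx, hxm, hxw⟩ := tabW_eq (E := 6) hch (by norm_num) hp.pos hg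
      refine ⟨x, ?_, ?_, ?_⟩
      · refine List.mem_cons_of_mem _ (List.mem_cons_of_mem _ (List.mem_cons_of_mem _ ?_))
        rw [List.mem_filter, decide_eq_true_eq]
        refine ⟨hx, ?_⟩
        rcases hcut x hx with h3 | h3
        · exact h3
        · exfalso
          have h4 := hxm.2
          rw [hmod] at h4
          obtain ⟨-, k2, -, -⟩ := (Cell.ok_iff x).1 (hok x hx)
          have h5 : 20 * (n * x.d) < 20 * (x.c * p) := Nat.mul_lt_mul_of_pos_left h4 (by norm_num)
          have h6 : 20 * (x.c * p) ≤ x.d * p := by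
            calc 20 * (x.c * p) = (20 * x.c) * p := by ring
              _ ≤ x.d * p := Nat.mul_le_mul_right _ h3
          have h7 : x.d * (20 * n) < x.d * p := by
            calc x.d * (20 * n) = 20 * (n * x.d) := by ring
              _ < x.d * p := lt_of_lt_of_le h5 h6
          have h8 := Nat.lt_of_mul_lt_mul_left h7
          omega
      · rw [hmod] at hxm
        exact hxm
      · rw [hee, hxw] at hexle
        exact hexle
    · intro n p hn hp hng hnp
      have hg : Good n p := by
        by_contra hcon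
        exact hng (Or.inr hcon)
      obtain ⟨x, hx, hxm, hxw⟩ := tabW_eq (E := 6) hch (by norm_num) hp.pos hg
      refine ⟨x, hx, hxm, ?_⟩
      rw [hex]
      simp only
      split_ifs with h1
      · exact Nat.zero_le _
      · rw [eeG_good hng, if_neg (by omega), if_neg (by omega), if_neg (by omega), hxw]
  -- the prime 2
  have h2 := sum_badG 200 6 100 13 (by norm_num) (by norm_num) 0.0001 (by norm_num)
  filter_upwards [hgen, h2, eventually_ge_atTop 1] with n h3 h4 hn
  have hmem : 2 ∈ (range (MM n + 1)).filter Nat.Prime := by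
    rw [mem_filter, mem_range]
    exact ⟨by unfold MM; omega, Nat.prime_two⟩
  rw [← Finset.add_sum_erase _ _ hmem]
  have h5 : ∑ p ∈ ((range (MM n + 1)).filter Nat.Prime).erase 2, (eeG (tabW l1) n p : ℝ) * Real.log p =
      ∑ p ∈ ((range (MM n + 1)).filter Nat.Prime).erase 2, (ex n p : ℝ) * Real.log p := by
    refine Finset.sum_congr rfl fun p hp => ?_
    rw [mem_erase, mem_filter, mem_range] at hp
    rw [hex]
    simp only
    rw [if_neg]
    push Not
    exact ⟨hp.1, by omega⟩
  have h6 := h3 (((range (MM n + 1)).filter Nat.Prime).erase 2) (by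
    intro p hp
    rw [mem_erase, mem_filter] at hp
    exact hp.2.2)
  have h7 := h4 {2} (by
    intro p hp
    rw [mem_singleton] at hp
    subst hp
    exact ⟨Nat.prime_two, Or.inl (by omega)⟩)
  rw [sum_singleton] at h7
  have h8 : (eeG (tabW l1) n 2 : ℝ) ≤ ((13 : ℕ) : ℝ) * (Nat.log 2 (200 * n + 100) : ℝ) + 18 * n := by
    have e1 : eeG (tabW l1) n 2 = exC 2 (MM n) (9 * n) := eeG_bad (Or.inl (by unfold MM; omega))
    rw [e1]
    have h9 := exC_two (M := MM n) (9 * n) (by unfold MM; omega)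
    have e2 : 2 * (9 * n) = 18 * n := by ring
    rw [e2] at h9
    have h10 : (exC 2 (MM n) (9 * n) : ℝ) ≤ ((13 * Nat.log 2 (MM n) + 18 * n : ℕ) : ℝ) := by
      exact_mod_cast h9
    refine h10.trans (le_of_eq ?_)
    rw [MM_eq]
    push_cast
    ring
  have hn0 : (0 : ℝ) ≤ n := Nat.cast_nonneg n
  have hl2 := Real.log_two_lt_d9
  have hl2' := Real.log_two_gt_d9
  have h9 : (eeG (tabW l1) n 2 : ℝ) * Real.log ((2 : ℕ) : ℝ) ≤ 12.477 * n := by
    have h10 : (eeG (tabW l1) n 2 : ℝ) * Real.log ((2 : ℕ) : ℝ) ≤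
        (((13 : ℕ) : ℝ) * (Nat.log 2 (200 * n + 100) : ℝ) + 18 * n) * Real.log ((2 : ℕ) : ℝ) :=
      mul_le_mul_of_nonneg_right h8 (Real.log_natCast_nonneg 2)
    refine h10.trans ?_
    rw [add_mul]
    have h11 : 18 * (n : ℝ) * Real.log ((2 : ℕ) : ℝ) ≤ 12.4767 * n := by
      have : Real.log ((2 : ℕ) : ℝ) = Real.log 2 := by norm_num
      rw [this]
      nlinarith
    linarith
  rw [add_mul, h5]
  linarith

end Pool.Agent.Z23
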