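import Pool.Agent.Z23.CellC

/-!
The table of the cells of n/p mod 1 for the frozen configuration, with the cancelling cells.
-/

open Finset

namespace Pool.Agent.Z23

/-- a cell (a/b, c/d), a sample N0/P0 in it, its weight; for a cancelling cell the point z1 at which
the unique gap begins and the permutation L -/
structure RC where
  a : ℕ
  b : ℕ
  c : ℕ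
  d : ℕ
  N0 : ℕ
  P0 : ℕ
  w : ℕ
  z1 : ℕ × ℕ × ℕ
  L : List ℕ

/-- all cells -/
def rcs : List RC := [
  ⟨0, 1, 1, 56, 1, 57, 3, (0, 0, 0), []⟩,
  ⟨1, 56, 1, 52, 2, 108, 3, (0, 0, 0), []⟩,
  ⟨1, 52, 1, 38, 2, 90, 3, (0, 0, 0), []⟩,
  ⟨1, 38, 1, 36, 2, 74, 3, (0, 0, 0), []⟩,
  ⟨1, 36, 1, 34, 2, 70, 3, (0, 0, 0), []⟩,
  ⟨1, 34, 1, 24, 2, 58, 3, (0, 0, 0), []⟩,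
  ⟨1, 24, 1, 22, 2, 46, 3, (0, 0, 0), []⟩,
  ⟨1, 22, 1, 20, 2, 42, 3, (0, 0, 0), []⟩,
  ⟨1, 20, 1, 19, 2, 39, 3, (0, 0, 0), []⟩,
  ⟨1, 19, 3, 56, 4, 75, 3, (0, 0, 0), []⟩,
  ⟨3, 56, 1, 18, 4, 74, 3, (0, 0, 0), []⟩,
  ⟨1, 18, 3, 52, 4, 70, 3, (0, 0, 0), []⟩,
  ⟨3, 52, 1, 17, 4, 69, 3, (0, 0, 0), []⟩,
  ⟨1, 17, 1, 16, 2, 33, 3, (0, 0, 0), []⟩,
  ⟨1, 16, 1, 14, 2, 30, 2, (0, 0, 0), []⟩,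
  ⟨1, 14, 3, 38, 4, 52, 1, (19, 0, 0), [0, 3, 4, 1, 2]⟩,
  ⟨3, 38, 1, 12, 4, 50, 1, (19, 0, 0), [0, 3, 4, 1, 2]⟩,
  ⟨1, 12, 3, 34, 4, 46, 1, (19, 0, 0), [0, 1, 3, 4, 2]⟩,
  ⟨3, 34, 5, 56, 8, 90, 1, (19, 0, 0), [0, 2, 3, 4, 1]⟩,
  ⟨5, 56, 1, 11, 6, 67, 1, (19, 0, 0), [0, 2, 3, 4, 1]⟩,
  ⟨1, 11, 5, 52, 6, 63, 2, (0, 0, 0), []⟩,
  ⟨5, 52, 1, 10, 6, 62, 2, (0, 0, 0), []⟩,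
  ⟨1, 10, 2, 19, 3, 29, 2, (0, 0, 0), []⟩,
  ⟨2, 19, 1, 9, 3, 28, 2, (0, 0, 0), []⟩,
  ⟨1, 9, 2, 17, 3, 26, 2, (0, 0, 0), []⟩,
  ⟨2, 17, 1, 8, 3, 25, 2, (0, 0, 0), []⟩,
  ⟨1, 8, 5, 38, 6, 46, 1, (19, 0, 0), [0, 3, 1, 2, 4]⟩,
  ⟨5, 38, 7, 52, 12, 90, 1, (19, 0, 0), [0, 3, 1, 4, 2]⟩,
  ⟨7, 52, 3, 22, 10, 74, 1, (19, 0, 0), [0, 3, 1, 4, 2]⟩,
  ⟨3, 22, 5, 36, 8, 58, 2, (0, 0, 0), []⟩,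
  ⟨5, 36, 1, 7, 6, 43, 2, (0, 0, 0), []⟩,
  ⟨1, 7, 5, 34, 6, 41, 1, (19, 0, 0), [0, 3, 1, 4, 2]⟩,
  ⟨5, 34, 3, 20, 8, 54, 1, (19, 0, 0), [0, 2, 1, 3, 4]⟩,
  ⟨3, 20, 3, 19, 6, 39, 2, (0, 0, 0), []⟩,
  ⟨3, 19, 9, 56, 12, 75, 2, (0, 0, 0), []⟩,
  ⟨9, 56, 1, 6, 10, 62, 2, (0, 0, 0), []⟩,
  ⟨1, 6, 9, 52, 10, 58, 2, (0, 0, 0), []⟩,
  ⟨9, 52, 3, 17, 12, 69, 2, (0, 0, 0), []⟩,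
  ⟨3, 17, 2, 11, 5, 28, 2, (0, 0, 0), []⟩,
  ⟨2, 11, 7, 38, 9, 49, 2, (0, 0, 0), []⟩,
  ⟨7, 38, 3, 16, 10, 54, 2, (0, 0, 0), []⟩,
  ⟨3, 16, 7, 36, 10, 52, 2, (0, 0, 0), []⟩,
  ⟨7, 36, 11, 56, 18, 92, 2, (0, 0, 0), []⟩,
  ⟨11, 56, 1, 5, 12, 61, 2, (0, 0, 0), []⟩,
  ⟨1, 5, 7, 34, 8, 39, 2, (0, 0, 0), []⟩,
  ⟨7, 34, 5, 24, 12, 58, 2, (0, 0, 0), []⟩,
  ⟨5, 24, 4, 19, 9, 43, 2, (0, 0, 0), []⟩,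
  ⟨4, 19, 11, 52, 15, 71, 2, (0, 0, 0), []⟩,
  ⟨11, 52, 3, 14, 14, 66, 2, (0, 0, 0), []⟩,
  ⟨3, 14, 2, 9, 5, 23, 2, (0, 0, 0), []⟩,
  ⟨2, 9, 5, 22, 7, 31, 1, (19, 0, 0), [1, 0, 2, 3, 4]⟩,
  ⟨5, 22, 13, 56, 18, 78, 2, (0, 0, 0), []⟩,
  ⟨13, 56, 4, 17, 17, 73, 2, (0, 0, 0), []⟩,
  ⟨4, 17, 9, 38, 13, 55, 2, (0, 0, 0), []⟩,
  ⟨9, 38, 1, 4, 10, 42, 2, (0, 0, 0), []⟩,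
  ⟨1, 4, 5, 19, 6, 23, 2, (0, 0, 0), []⟩,
  ⟨5, 19, 9, 34, 14, 53, 2, (0, 0, 0), []⟩,
  ⟨9, 34, 15, 56, 24, 90, 2, (0, 0, 0), []⟩,
  ⟨15, 56, 3, 11, 18, 67, 2, (0, 0, 0), []⟩,
  ⟨3, 11, 5, 18, 8, 29, 2, (0, 0, 0), []⟩,
  ⟨5, 18, 2, 7, 7, 25, 2, (0, 0, 0), []⟩,
  ⟨2, 7, 15, 52, 17, 59, 1, (18, 0, 0), [1, 0, 2, 3, 4]⟩,
  ⟨15, 52, 11, 38, 26, 90, 1, (18, 0, 0), [1, 0, 2, 3, 4]⟩,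
  ⟨11, 38, 7, 24, 18, 62, 1, (18, 0, 0), [1, 0, 2, 3, 4]⟩,
  ⟨7, 24, 5, 17, 12, 41, 2, (0, 0, 0), []⟩,
  ⟨5, 17, 3, 10, 8, 27, 2, (0, 0, 0), []⟩,
  ⟨3, 10, 17, 56, 20, 66, 3, (0, 0, 0), []⟩,
  ⟨17, 56, 11, 36, 28, 92, 3, (0, 0, 0), []⟩,
  ⟨11, 36, 5, 16, 16, 52, 3, (0, 0, 0), []⟩,
  ⟨5, 16, 6, 19, 11, 35, 1, (19, 0, 1), [0, 1, 3, 4, 2]⟩,
  ⟨6, 19, 7, 22, 13, 41, 1, (19, 0, 1), [0, 3, 4, 1, 2]⟩,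
  ⟨7, 22, 11, 34, 18, 56, 2, (0, 0, 0), []⟩,
  ⟨11, 34, 17, 52, 28, 86, 2, (0, 0, 0), []⟩,
  ⟨17, 52, 1, 3, 18, 55, 2, (0, 0, 0), []⟩,
  ⟨1, 3, 19, 56, 20, 59, 2, (0, 0, 0), []⟩,
  ⟨19, 56, 13, 38, 32, 94, 2, (0, 0, 0), []⟩,
  ⟨13, 38, 7, 20, 20, 58, 2, (0, 0, 0), []⟩,
  ⟨7, 20, 6, 17, 13, 37, 2, (0, 0, 0), []⟩,
  ⟨6, 17, 5, 14, 11, 31, 2, (0, 0, 0), []⟩,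
  ⟨5, 14, 13, 36, 18, 50, 2, (0, 0, 0), []⟩,
  ⟨13, 36, 4, 11, 17, 47, 2, (0, 0, 0), []⟩,
  ⟨4, 11, 19, 52, 23, 63, 2, (0, 0, 0), []⟩,
  ⟨19, 52, 7, 19, 26, 71, 2, (0, 0, 0), []⟩,
  ⟨7, 19, 3, 8, 10, 27, 2, (0, 0, 0), []⟩,
  ⟨3, 8, 13, 34, 16, 42, 2, (0, 0, 0), []⟩,
  ⟨13, 34, 7, 18, 20, 52, 2, (0, 0, 0), []⟩,
  ⟨7, 18, 15, 38, 22, 56, 1, (14, 0, 0), [0, 2, 1, 3, 4]⟩,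
  ⟨15, 38, 2, 5, 17, 43, 1, (14, 0, 0), [0, 2, 1, 3, 4]⟩,
  ⟨2, 5, 21, 52, 23, 57, 2, (0, 0, 0), []⟩,
  ⟨21, 52, 9, 22, 30, 74, 2, (0, 0, 0), []⟩,
  ⟨9, 22, 23, 56, 32, 78, 3, (0, 0, 0), []⟩,
  ⟨23, 56, 7, 17, 30, 73, 3, (0, 0, 0), []⟩,
  ⟨7, 17, 5, 12, 12, 29, 3, (0, 0, 0), []⟩,
  ⟨5, 12, 8, 19, 13, 31, 2, (0, 0, 0), []⟩,
  ⟨8, 19, 3, 7, 11, 26, 2, (0, 0, 0), []⟩,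
  ⟨3, 7, 7, 16, 10, 23, 2, (0, 0, 0), []⟩,
  ⟨7, 16, 15, 34, 22, 50, 1, (19, 0, 0), [0, 1, 3, 2, 4]⟩,
  ⟨15, 34, 23, 52, 38, 86, 1, (19, 0, 0), [0, 1, 3, 2, 4]⟩,
  ⟨23, 52, 4, 9, 27, 61, 1, (19, 0, 0), [0, 1, 3, 2, 4]⟩,
  ⟨4, 9, 25, 56, 29, 65, 1, (19, 0, 0), [0, 1, 2, 3, 4]⟩,
  ⟨25, 56, 17, 38, 42, 94, 1, (19, 0, 0), [0, 1, 2, 3, 4]⟩,
  ⟨17, 38, 9, 20, 26, 58, 1, (19, 0, 0), [0, 1, 2, 3, 4]⟩,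
  ⟨9, 20, 5, 11, 14, 31, 1, (19, 0, 0), [0, 2, 3, 1, 4]⟩,
  ⟨5, 11, 11, 24, 16, 35, 2, (0, 0, 0), []⟩,
  ⟨11, 24, 8, 17, 19, 41, 3, (0, 0, 0), []⟩,
  ⟨8, 17, 17, 36, 25, 53, 3, (0, 0, 0), []⟩,
  ⟨17, 36, 9, 19, 26, 55, 3, (0, 0, 0), []⟩,
  ⟨9, 19, 25, 52, 34, 71, 3, (0, 0, 0), []⟩,
  ⟨25, 52, 27, 56, 52, 108, 3, (0, 0, 0), []⟩,
  ⟨27, 56, 1, 2, 28, 58, 3, (0, 0, 0), []⟩,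
  ⟨1, 2, 29, 56, 30, 58, 3, (0, 0, 0), []⟩,
  ⟨29, 56, 27, 52, 56, 108, 3, (0, 0, 0), []⟩,
  ⟨27, 52, 10, 19, 37, 71, 3, (0, 0, 0), []⟩,
  ⟨10, 19, 19, 36, 29, 55, 3, (0, 0, 0), []⟩,
  ⟨19, 36, 9, 17, 28, 53, 3, (0, 0, 0), []⟩,
  ⟨9, 17, 13, 24, 22, 41, 3, (0, 0, 0), []⟩,
  ⟨13, 24, 6, 11, 19, 35, 3, (0, 0, 0), []⟩,
  ⟨6, 11, 11, 20, 17, 31, 3, (0, 0, 0), []⟩,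
  ⟨11, 20, 21, 38, 32, 58, 3, (0, 0, 0), []⟩,
  ⟨21, 38, 31, 56, 52, 94, 3, (0, 0, 0), []⟩,
  ⟨31, 56, 5, 9, 36, 65, 3, (0, 0, 0), []⟩,
  ⟨5, 9, 29, 52, 34, 61, 3, (0, 0, 0), []⟩,
  ⟨29, 52, 19, 34, 48, 86, 3, (0, 0, 0), []⟩,
  ⟨19, 34, 9, 16, 28, 50, 3, (0, 0, 0), []⟩,
  ⟨9, 16, 4, 7, 13, 23, 2, (0, 0, 0), []⟩,
  ⟨4, 7, 11, 19, 15, 26, 1, (19, 0, 1), [0, 2, 3, 1, 4]⟩,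
  ⟨11, 19, 7, 12, 18, 31, 1, (19, 0, 1), [0, 2, 3, 1, 4]⟩,
  ⟨7, 12, 10, 17, 17, 29, 1, (19, 0, 1), [0, 1, 2, 3, 4]⟩,
  ⟨10, 17, 33, 56, 43, 73, 1, (19, 0, 1), [0, 4, 2, 3, 1]⟩,
  ⟨33, 56, 13, 22, 46, 78, 1, (19, 0, 1), [0, 4, 2, 3, 1]⟩,
  ⟨13, 22, 31, 52, 44, 74, 2, (0, 0, 0), []⟩,
  ⟨31, 52, 3, 5, 34, 57, 2, (0, 0, 0), []⟩,
  ⟨3, 5, 23, 38, 26, 43, 2, (0, 0, 0), []⟩,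
  ⟨23, 38, 11, 18, 34, 56, 2, (0, 0, 0), []⟩,
  ⟨11, 18, 21, 34, 32, 52, 2, (0, 0, 0), []⟩,
  ⟨21, 34, 5, 8, 26, 42, 2, (0, 0, 0), []⟩,
  ⟨5, 8, 12, 19, 17, 27, 1, (19, 0, 1), [0, 2, 1, 3, 4]⟩,
  ⟨12, 19, 33, 52, 45, 71, 1, (19, 0, 1), [0, 2, 1, 3, 4]⟩,
  ⟨33, 52, 7, 11, 40, 63, 1, (19, 0, 1), [0, 2, 1, 3, 4]⟩,
  ⟨7, 11, 23, 36, 30, 47, 2, (0, 0, 0), []⟩,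
  ⟨23, 36, 9, 14, 32, 50, 2, (0, 0, 0), []⟩,
  ⟨9, 14, 11, 17, 20, 31, 1, (19, 0, 1), [0, 2, 1, 3, 4]⟩,
  ⟨11, 17, 13, 20, 24, 37, 1, (19, 0, 1), [0, 4, 1, 2, 3]⟩,
  ⟨13, 20, 25, 38, 38, 58, 2, (0, 0, 0), []⟩,
  ⟨25, 38, 37, 56, 62, 94, 2, (0, 0, 0), []⟩,
  ⟨37, 56, 2, 3, 39, 59, 2, (0, 0, 0), []⟩,
  ⟨2, 3, 35, 52, 37, 55, 2, (0, 0, 0), []⟩,
  ⟨35, 52, 23, 34, 58, 86, 2, (0, 0, 0), []⟩,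
  ⟨23, 34, 15, 22, 38, 56, 2, (0, 0, 0), []⟩,
  ⟨15, 22, 13, 19, 28, 41, 2, (0, 0, 0), []⟩,
  ⟨13, 19, 11, 16, 24, 35, 2, (0, 0, 0), []⟩,
  ⟨11, 16, 25, 36, 36, 52, 2, (0, 0, 0), []⟩,
  ⟨25, 36, 39, 56, 64, 92, 2, (0, 0, 0), []⟩,
  ⟨39, 56, 7, 10, 46, 66, 2, (0, 0, 0), []⟩,
  ⟨7, 10, 12, 17, 19, 27, 2, (0, 0, 0), []⟩,
  ⟨12, 17, 17, 24, 29, 41, 2, (0, 0, 0), []⟩,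
  ⟨17, 24, 27, 38, 44, 62, 2, (0, 0, 0), []⟩,
  ⟨27, 38, 37, 52, 64, 90, 2, (0, 0, 0), []⟩,
  ⟨37, 52, 5, 7, 42, 59, 2, (0, 0, 0), []⟩,
  ⟨5, 7, 13, 18, 18, 25, 2, (0, 0, 0), []⟩,
  ⟨13, 18, 8, 11, 21, 29, 1, (19, 0, 1), [1, 0, 3, 4, 2]⟩,
  ⟨8, 11, 41, 56, 49, 67, 2, (0, 0, 0), []⟩,
  ⟨41, 56, 25, 34, 66, 90, 2, (0, 0, 0), []⟩,
  ⟨25, 34, 14, 19, 39, 53, 2, (0, 0, 0), []⟩,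
  ⟨14, 19, 3, 4, 17, 23, 2, (0, 0, 0), []⟩,
  ⟨3, 4, 29, 38, 32, 42, 2, (0, 0, 0), []⟩,
  ⟨29, 38, 13, 17, 42, 55, 2, (0, 0, 0), []⟩,
  ⟨13, 17, 43, 56, 56, 73, 2, (0, 0, 0), []⟩,
  ⟨43, 56, 17, 22, 60, 78, 2, (0, 0, 0), []⟩,
  ⟨17, 22, 7, 9, 24, 31, 2, (0, 0, 0), []⟩,
  ⟨7, 9, 11, 14, 18, 23, 2, (0, 0, 0), []⟩,
  ⟨11, 14, 41, 52, 52, 66, 1, (18, 0, 0), [1, 0, 2, 3, 4]⟩,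
  ⟨41, 52, 15, 19, 56, 71, 1, (18, 0, 0), [1, 0, 2, 3, 4]⟩,
  ⟨15, 19, 19, 24, 34, 43, 1, (18, 0, 0), [1, 0, 2, 3, 4]⟩,
  ⟨19, 24, 27, 34, 46, 58, 2, (0, 0, 0), []⟩,
  ⟨27, 34, 4, 5, 31, 39, 2, (0, 0, 0), []⟩,
  ⟨4, 5, 45, 56, 49, 61, 3, (0, 0, 0), []⟩,
  ⟨45, 56, 29, 36, 74, 92, 3, (0, 0, 0), []⟩,
  ⟨29, 36, 13, 16, 42, 52, 3, (0, 0, 0), []⟩,
  ⟨13, 16, 31, 38, 44, 54, 1, (19, 0, 0), [0, 1, 3, 2, 4]⟩,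
  ⟨31, 38, 9, 11, 40, 49, 1, (19, 0, 0), [0, 2, 3, 1, 4]⟩,
  ⟨9, 11, 14, 17, 23, 28, 2, (0, 0, 0), []⟩,
  ⟨14, 17, 43, 52, 57, 69, 2, (0, 0, 0), []⟩,
  ⟨43, 52, 5, 6, 48, 58, 2, (0, 0, 0), []⟩,
  ⟨5, 6, 47, 56, 52, 62, 2, (0, 0, 0), []⟩,
  ⟨47, 56, 16, 19, 63, 75, 2, (0, 0, 0), []⟩,
  ⟨16, 19, 17, 20, 33, 39, 2, (0, 0, 0), []⟩,
  ⟨17, 20, 29, 34, 46, 54, 2, (0, 0, 0), []⟩,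
  ⟨29, 34, 6, 7, 35, 41, 2, (0, 0, 0), []⟩,
  ⟨6, 7, 31, 36, 37, 43, 2, (0, 0, 0), []⟩,
  ⟨31, 36, 19, 22, 50, 58, 2, (0, 0, 0), []⟩,
  ⟨19, 22, 45, 52, 64, 74, 2, (0, 0, 0), []⟩,
  ⟨45, 52, 33, 38, 78, 90, 2, (0, 0, 0), []⟩,
  ⟨33, 38, 7, 8, 40, 46, 2, (0, 0, 0), []⟩,
  ⟨7, 8, 15, 17, 22, 25, 2, (0, 0, 0), []⟩,
  ⟨15, 17, 8, 9, 23, 26, 2, (0, 0, 0), []⟩,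
  ⟨8, 9, 17, 19, 25, 28, 1, (14, 0, 0), [0, 3, 1, 4, 2]⟩,
  ⟨17, 19, 9, 10, 26, 29, 1, (14, 0, 0), [0, 4, 1, 3, 2]⟩,
  ⟨9, 10, 47, 52, 56, 62, 2, (0, 0, 0), []⟩,
  ⟨47, 52, 10, 11, 57, 63, 2, (0, 0, 0), []⟩,
  ⟨10, 11, 51, 56, 61, 67, 3, (0, 0, 0), []⟩,
  ⟨51, 56, 31, 34, 82, 90, 3, (0, 0, 0), []⟩,
  ⟨31, 34, 11, 12, 42, 46, 3, (0, 0, 0), []⟩,
  ⟨11, 12, 35, 38, 46, 50, 2, (0, 0, 0), []⟩,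
  ⟨35, 38, 13, 14, 48, 52, 2, (0, 0, 0), []⟩,
  ⟨13, 14, 15, 16, 28, 30, 2, (0, 0, 0), []⟩,
  ⟨15, 16, 16, 17, 31, 33, 1, (19, 0, 1), [0, 1, 2, 3, 4]⟩,
  ⟨16, 17, 49, 52, 65, 69, 1, (19, 0, 1), [0, 1, 2, 4, 3]⟩,
  ⟨49, 52, 17, 18, 66, 70, 1, (19, 0, 1), [0, 1, 2, 4, 3]⟩,
  ⟨17, 18, 53, 56, 70, 74, 1, (19, 0, 1), [0, 1, 3, 4, 2]⟩,
  ⟨53, 56, 18, 19, 71, 75, 1, (19, 0, 1), [0, 1, 3, 4, 2]⟩,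
  ⟨18, 19, 19, 20, 37, 39, 1, (19, 0, 1), [0, 1, 4, 3, 2]⟩,
  ⟨19, 20, 21, 22, 40, 42, 1, (19, 0, 1), [0, 3, 4, 1, 2]⟩,
  ⟨21, 22, 23, 24, 44, 46, 2, (0, 0, 0), []⟩,
  ⟨23, 24, 33, 34, 56, 58, 3, (0, 0, 0), []⟩,
  ⟨33, 34, 35, 36, 68, 70, 3, (0, 0, 0), []⟩,
  ⟨35, 36, 37, 38, 72, 74, 3, (0, 0, 0), []⟩,
  ⟨37, 38, 51, 52, 88, 90, 3, (0, 0, 0), []⟩,
  ⟨51, 52, 55, 56, 106, 108, 3, (0, 0, 0), []⟩,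
  ⟨55, 56, 1, 1, 56, 57, 3, (0, 0, 0), []⟩]

def RC.chk (x : RC) : Bool :=
  cellCheck ptsF x.a x.b x.c x.d x.N0 x.P0 &&
    (minCheckG ptsF AF BF x.N0 x.P0 x.w || (redCheckG ptsF AF BF x.N0 x.P0 x.z1 x.L && decide (x.w = 1)))

def RC.cell (x : RC) : Cell := ⟨x.a, x.b, x.c, x.d, x.w⟩

/-- the cells for the periods -/
def l1r : List Cell := rcs.map RC.cell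

/-- the cells for p > n -/
def l0r : List Cell := [⟨0, 1, 1, 24, 0⟩, ⟨1, 24, 1, 22, 1⟩, ⟨1, 22, 1, 20, 2⟩] ++
  (rcs.filter fun x => decide (x.b ≤ 20 * x.a)).map RC.cell

theorem rcs_chk : rcs.all RC.chk = true := by decide +kernel

theorem l1r_chain : chainG 200 0 1 l1r = true := by decide +kernel

theorem l0r_chain : chainG 200 0 1 l0r = true := by decide +kernel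

theorem l1r_ok : (l1r.all fun x => x.ok) = true := by decide +kernel

theorem l0r_ok : (l0r.all fun x => x.ok) = true := by decide +kernel

theorem l1r_w : (l1r.all fun x => decide (x.w ≤ 3)) = true := by decide +kernel

theorem l0r_z : (l0r.all fun x => decide (x.a = 0 → x.w = 0)) = true := by decide +kernel

/-- the p-adic bound from the table -/
theorem table_bound2 (n p : ℕ) (hn : 1 ≤ n) (hp : p.Prime) (hp2 : MM n < p ^ 2) (hg : Good n p) :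
    PBn n p (tabW l1r (n % p) p) := by
  obtain ⟨x, hx, hm, hw⟩ := tabW_eq (L := 200) (E := 6) l1r_chain (by norm_num) hp.pos hg
  rw [hw]
  unfold l1r at hx
  rw [List.mem_map] at hx
  obtain ⟨y, hy, rfl⟩ := hx
  have hc := rcs_chk
  rw [List.all_eq_true] at hc
  have h1 := hc y hy
  unfold RC.chk at h1
  simp only [Bool.and_eq_true, Bool.or_eq_true, decide_eq_true_eq] at h1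
  obtain ⟨h2, h3⟩ := h1
  have e : n - n / p * p = n % p := by
    have := Nat.div_add_mod' n p
    omega
  have hle : n / p * p ≤ n := Nat.div_mul_le_self n p
  have m1 : y.a * p < (n - n / p * p) * y.b := by rw [e]; exact hm.1
  have m2 : (n - n / p * p) * y.d < y.c * p := by rw [e]; exact hm.2
  rcases h3 with h4 | ⟨h4, h5⟩
  · exact termCell hn hp hp2 hg h2 h4 m1 m2 hle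
  · have h6 : y.cell.w = 1 := h5
    rw [h6]
    exact redCell hn hp hp2 hg h2 h4 m1 m2 hle

end Pool.Agent.Z23
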