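import Pool.Agent.Z23.HLog
import Pool.Agent.Z23.BigC
import Pool.Agent.Z23.RedTab

/-!
# The exponent function of the frozen configuration: p-adic bound and sum over the primes
-/

open Finset Filter Topology

namespace Pool.Agent.Z23

/-- the exponent of p in the denominator (full table with cancellation) -/
noncomputable def ee2 (n p : ℕ) : ℕ := eeG (tabW l1r) n p

theorem l1r_tab : okTab l1r 49 46300000000000 = true := by decide +kernel

/-- the crude bound for all primes -/
theorem crude_dd (n p : ℕ) (hn : 1 ≤ n) (hp : p.Prime) : PBn n p (exC p (MM n) (9 * n)) := by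
  haveI : Fact p.Prime := ⟨hp⟩
  intro j _
  exact crudeBD (dd n) (dd_ok n hn) 1 (by simp) (MM n) (14 * n) (32 * n) (by simp only [dd]; omega)
    (by simp only [dd, MM]; omega) (by simp only [dd, MM]; omega) j

/-- the p-adic bound for the exponent function -/
theorem eeG_bound (w : ℕ → ℕ → ℕ)
    (hw : ∀ n p : ℕ, 1 ≤ n → p.Prime → MM n < p ^ 2 → Good n p → p ≤ 20 * n + 1 →
      PBn n p (w (n % p) p))
    (n p : ℕ) (hn : 1 ≤ n) (hp : p.Prime) : PBn n p (eeG w n p) := by
  by_cases h : p ^ 2 ≤ MM n ∨ ¬ Good n p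
  · rw [eeG_bad h]
    exact crude_dd n p hn hp
  · rw [eeG_good h]
    push Not at h
    obtain ⟨h1, h2⟩ := h
    split_ifs with h24 h22 h20
    · exact big3 n p hn hp h1 h24
    · exact big2 n p hn hp h1 h22
    · exact big1 n p hn hp h1 h20
    · exact hw n p hn hp h1 h2 (by omega)

theorem ee2_bound (n p : ℕ) (hn : 1 ≤ n) (hp : p.Prime) : PBn n p (ee2 n p) :=
  eeG_bound (tabW l1r) (fun n p hn hp h1 h2 _ => table_bound2 n p hn hp h1 h2) n p hn hp

/-- no prime above MM n in the denominators -/
theorem big_MM (n p : ℕ) (hn : 1 ≤ n) (hp : p.Prime) (h : MM n < p) : PBn n p 0 := by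
  refine big3 n p hn hp ?_ ?_
  · have := hp.two_le
    nlinarith
  · unfold MM at h
    omega

/-- **the logarithm of the denominator**, with cancellation -/
theorem hlogC2 : ∀ᶠ n : ℕ in atTop, ∑ p ∈ (range (MM n + 1)).filter Nat.Prime,
    (ee2 n p : ℝ) * Real.log p ≤ 58.78 * n := by
  filter_upwards [hlogG l1r 49 46300000000000 l1r_tab] with n hn
  refine hn.trans ?_
  have h0 : (0 : ℝ) ≤ n := Nat.cast_nonneg n
  refine mul_le_mul_of_nonneg_right ?_ h0
  norm_num

end Pool.Agent.Z23
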