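import Pool.Agent.Z23.HLogC

/-!
# The sharper value of the logarithm of the denominator (200 periods)
-/

open Finset Filter Topology

namespace Pool.Agent.Z23

theorem l1r_tabS : okTab l1r 200 46201500000000 = true := by decide +kernel

/-- **the logarithm of the denominator**, with cancellation, sharp form -/
theorem hlogC2s : ∀ᶠ n : ℕ in atTop, ∑ p ∈ (range (MM n + 1)).filter Nat.Prime,
    (ee2 n p : ℝ) * Real.log p ≤ 58.68 * n := by
  filter_upwards [hlogG l1r 200 46201500000000 l1r_tabS] with n hn
  refine hn.trans ?_
  have h0 : (0 : ℝ) ≤ n := Nat.cast_nonneg n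
  refine mul_le_mul_of_nonneg_right ?_ h0
  norm_num

end Pool.Agent.Z23
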