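import Pool.Agent.Z3.Struct
import Pool.Agent.Z3.CancelDefs

/-!
p-adic structure of a product over a block of half-integers: the numbers i + 1/2 - k, a <= i < b.
With h = (p+1)/2 and i' = i + h the factor is i' - k - p/2.
-/

open Finset
open scoped BigOperators

namespace Pool.Agent.Z23

open Pool.Agent.Z3 Pool.Agent.Z3.TermAux Pool.Agent.Z3.StructAux

/-- (p+1)/2, the class of 1/2 mod p -/
def hh (p : ℕ) : ℕ := (p + 1) / 2

theorem two_hh {p : ℕ} (hp : p.Prime) (h2 : p ≠ 2) : 2 * hh p = p + 1 := by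
  have h := hp.eq_two_or_odd
  unfold hh
  omega

theorem hh_cast {p : ℕ} (hp : p.Prime) (h2 : p ≠ 2) : ((hh p : ℕ) : ℚ) = ((p : ℚ) + 1) / 2 := by
  have h : ((2 * hh p : ℕ) : ℚ) = ((p + 1 : ℕ) : ℚ) := by rw [two_hh hp h2]
  push_cast at h
  linarith

/-- all elements congruent to k (k itself allowed) -/
def clsF (T : Finset ℕ) (p k : ℕ) : Finset ℕ := T.filter (fun i => i % p = k % p)

def wvF (T : Finset ℕ) (p k : ℕ) : ℚ :=
  ∏ i ∈ clsF T p k, (((i / p : ℕ) : ℚ) - ((k / p : ℕ) : ℚ) - 1 / 2)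

def lvF (T : Finset ℕ) (p k : ℕ) : ℚ :=
  ∑ i ∈ clsF T p k, 1 / (((i / p : ℕ) : ℚ) - ((k / p : ℕ) : ℚ) - 1 / 2)

def uvF (T : Finset ℕ) (p k : ℕ) : ℚ := ∏ i ∈ ncls T p k, ((i : ℚ) - k - p / 2)

/-- the shifted block -/
theorem half_prod {p : ℕ} (hp : p.Prime) (h2 : p ≠ 2) (a b : ℕ) (x : ℚ) :
    ∏ i ∈ Ico a b, ((i : ℚ) + 1 / 2 - x) = ∏ i ∈ Ico (a + hh p) (b + hh p), ((i : ℚ) - x - p / 2) := by
  rw [← Finset.prod_Ico_add' (fun i : ℕ => ((i : ℚ) - x - p / 2)) a b (hh p)]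
  refine prod_congr rfl fun i _ => ?_
  push_cast
  rw [hh_cast hp h2]
  ring

theorem half_sum {p : ℕ} (hp : p.Prime) (h2 : p ≠ 2) (a b : ℕ) (x : ℚ) :
    ∑ i ∈ Ico a b, 1 / ((i : ℚ) + 1 / 2 - x) =
      ∑ i ∈ Ico (a + hh p) (b + hh p), 1 / ((i : ℚ) - x - p / 2) := by
  rw [← Finset.sum_Ico_add' (fun i : ℕ => 1 / ((i : ℚ) - x - p / 2)) a b (hh p)]
  refine sum_congr rfl fun i _ => ?_
  push_cast
  rw [hh_cast hp h2]
  congr 1
  ring

theorem clsF_union (T : Finset ℕ) (p k : ℕ) : T = clsF T p k ∪ ncls T p k := by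
  ext i
  simp only [clsF, ncls, mem_union, mem_filter]
  tauto

theorem clsF_disj (T : Finset ℕ) (p k : ℕ) : Disjoint (clsF T p k) (ncls T p k) := by
  rw [Finset.disjoint_left]
  intro i hi hi2
  simp only [clsF, ncls, mem_filter] at hi hi2
  exact hi2.2 hi.2

theorem sub_clsF {T : Finset ℕ} {p k i : ℕ} (hi : i ∈ clsF T p k) :
    (i : ℚ) - k - p / 2 = p * (((i / p : ℕ) : ℚ) - ((k / p : ℕ) : ℚ) - 1 / 2) := by
  simp only [clsF, mem_filter] at hi
  have h1 : ((p * (i / p) + i % p : ℕ) : ℚ) = (i : ℚ) := by rw [Nat.div_add_mod]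
  have h2 : ((p * (k / p) + k % p : ℕ) : ℚ) = (k : ℚ) := by rw [Nat.div_add_mod]
  rw [← h1, ← h2, hi.2]
  push_cast
  ring

theorem norm_two {p : ℕ} (hp : p.Prime) (h2 : p ≠ 2) : padicNorm p (2 : ℚ) = 1 := by
  have := Fact.mk hp
  have h : padicNorm p ((2 : ℕ) : ℚ) = 1 := by
    rw [padicNorm.nat_eq_one_iff]
    intro hd
    exact h2 ((Nat.prime_dvd_prime_iff_eq hp Nat.prime_two).1 hd)
  exact_mod_cast h

theorem half_sub_ne (q r : ℕ) : ((q : ℚ) - (r : ℚ) - 1 / 2) ≠ 0 := by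
  intro h
  have h1 : (2 * (q : ℤ) - 2 * r : ℤ) = 1 := by
    have : (2 * (q : ℚ) - 2 * r : ℚ) = 1 := by linarith
    exact_mod_cast this
  omega

/-- l - j - 1/2 is a unit -/
theorem norm_half_sub {p : ℕ} (hp : p.Prime) (h2 : p ≠ 2) {q r : ℕ} (hq : 4 * q < p) (hr : 4 * r < p) :
    padicNorm p ((q : ℚ) - (r : ℚ) - 1 / 2) = 1 := by
  have := Fact.mk hp
  have e : ((q : ℚ) - (r : ℚ) - 1 / 2) = ((2 * (q : ℤ) - 2 * r - 1 : ℤ) : ℚ) / 2 := by
    push_cast
    ring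
  rw [e, padicNorm.div, norm_two hp h2, div_one, padicNorm.int_eq_one_iff]
  rintro ⟨c, hc⟩
  have hp3 : 3 ≤ p := by
    have := hp.two_le
    omega
  have hc0 : c ≠ 0 := by
    rintro rfl
    omega
  have hp0 : (0 : ℤ) < p := by exact_mod_cast hp.pos
  rcases lt_or_gt_of_ne hc0 with h | h
  · have h3 : (p : ℤ) * c ≤ (p : ℤ) * (-1) := mul_le_mul_of_nonneg_left (by omega) hp0.le
    omega
  · have h3 : (p : ℤ) * 1 ≤ (p : ℤ) * c := mul_le_mul_of_nonneg_left (by omega) hp0.le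
    omega

theorem four_div_lt {p i : ℕ} (hp : 0 < p) (hi : 4 * i < p ^ 2) : 4 * (i / p) < p := by
  have h1 : p * (i / p) ≤ i := Nat.mul_div_le i p
  by_contra h
  push Not at h
  have h3 : p * p ≤ p * (4 * (i / p)) := Nat.mul_le_mul_left p h
  have h4 : p * (4 * (i / p)) = 4 * (p * (i / p)) := by ring
  rw [h4] at h3
  have h5 : p ^ 2 = p * p := by ring
  omega

/-- a factor not in the class is a unit -/
theorem norm_half_ne {p : ℕ} (hp : p.Prime) (h2 : p ≠ 2) {i k : ℕ} (h : i % p ≠ k % p) :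
    padicNorm p ((i : ℚ) - k - p / 2) = 1 := by
  have := Fact.mk hp
  have e : ((i : ℚ) - k - p / 2) = ((2 * ((i : ℤ) - k) - p : ℤ) : ℚ) / 2 := by
    push_cast
    ring
  rw [e, padicNorm.div, norm_two hp h2, div_one, padicNorm.int_eq_one_iff]
  intro hd
  have h3 : (p : ℤ) ∣ 2 * ((i : ℤ) - k) := by
    have := dvd_add hd (dvd_refl (p : ℤ))
    rwa [sub_add_cancel] at this
  rcases Int.Prime.dvd_mul' hp h3 with h4 | h4
  · have : p ∣ 2 := by exact_mod_cast h4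
    exact h2 ((Nat.prime_dvd_prime_iff_eq hp Nat.prime_two).1 this)
  · exact h (Nat.modEq_iff_dvd.mpr h4).symm

theorem norm_half_le_one {p : ℕ} (hp : p.Prime) (h2 : p ≠ 2) (i k : ℕ) :
    padicNorm p ((i : ℚ) - k - p / 2) ≤ 1 := by
  have := Fact.mk hp
  have e : ((i : ℚ) - k - p / 2) = ((2 * ((i : ℤ) - k) - p : ℤ) : ℚ) / 2 := by
    push_cast
    ring
  rw [e, padicNorm.div, norm_two hp h2, div_one]
  exact padicNorm.of_int _

theorem norm_half_cls {p : ℕ} (hp : p.Prime) (h2 : p ≠ 2) {T : Finset ℕ} {i k : ℕ}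
    (hT : ∀ i ∈ T, 4 * i < p ^ 2) (hk : 4 * k < p ^ 2) (hi : i ∈ clsF T p k) :
    padicNorm p (((i / p : ℕ) : ℚ) - ((k / p : ℕ) : ℚ) - 1 / 2) = 1 := by
  have hi' := hi
  simp only [clsF, mem_filter] at hi'
  exact norm_half_sub hp h2 (four_div_lt hp.pos (hT i hi'.1)) (four_div_lt hp.pos hk)

theorem norm_wvF {p : ℕ} (hp : p.Prime) (h2 : p ≠ 2) (T : Finset ℕ) (k : ℕ)
    (hT : ∀ i ∈ T, 4 * i < p ^ 2) (hk : 4 * k < p ^ 2) : padicNorm p (wvF T p k) = 1 := by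
  have := Fact.mk hp
  unfold wvF
  rw [padicNorm_prod]
  exact prod_eq_one fun i hi => norm_half_cls hp h2 hT hk hi

theorem norm_uvF {p : ℕ} (hp : p.Prime) (h2 : p ≠ 2) (T : Finset ℕ) (k : ℕ) :
    padicNorm p (uvF T p k) = 1 := by
  have := Fact.mk hp
  unfold uvF
  rw [padicNorm_prod]
  refine prod_eq_one fun i hi => ?_
  simp only [ncls, mem_filter] at hi
  exact norm_half_ne hp h2 hi.2

theorem norm_lvF_le {p : ℕ} (hp : p.Prime) (h2 : p ≠ 2) (T : Finset ℕ) (k : ℕ)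
    (hT : ∀ i ∈ T, 4 * i < p ^ 2) (hk : 4 * k < p ^ 2) : padicNorm p (lvF T p k) ≤ 1 := by
  have := Fact.mk hp
  unfold lvF
  refine padicNorm.sum_le' (fun i hi => ?_) zero_le_one
  rw [padicNorm.div, padicNorm.one, norm_half_cls hp h2 hT hk hi, div_one]

theorem wvF_ne (T : Finset ℕ) (p k : ℕ) : wvF T p k ≠ 0 := by
  unfold wvF
  exact prod_ne_zero_iff.mpr fun i _ => half_sub_ne _ _

theorem uvF_ne {p : ℕ} (hp : p.Prime) (h2 : p ≠ 2) (T : Finset ℕ) (k : ℕ) : uvF T p k ≠ 0 := by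
  intro h
  have h1 := norm_uvF hp h2 T k
  rw [h, padicNorm.zero] at h1
  exact zero_ne_one h1

theorem card_clsF (T : Finset ℕ) (p k : ℕ) : (clsF T p k).card = cnt T p (k % p) := rfl

/-- the product over a shifted block -/
theorem prod_splitF (T : Finset ℕ) (p k : ℕ) :
    ∏ i ∈ T, ((i : ℚ) - k - p / 2) = (p : ℚ) ^ (cnt T p (k % p)) * wvF T p k * uvF T p k := by
  conv_lhs => rw [clsF_union T p k]
  rw [prod_union (clsF_disj T p k), uvF, wvF, prod_congr rfl (fun i hi => sub_clsF hi),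
    prod_mul_distrib, prod_const, card_clsF]

theorem norm_prodF {p : ℕ} (hp : p.Prime) (h2 : p ≠ 2) (T : Finset ℕ) (k : ℕ)
    (hT : ∀ i ∈ T, 4 * i < p ^ 2) (hk : 4 * k < p ^ 2) :
    padicNorm p (∏ i ∈ T, ((i : ℚ) - k - p / 2)) = (p : ℚ) ^ (-(cnt T p (k % p) : ℤ)) := by
  have := Fact.mk hp
  rw [prod_splitF, padicNorm.mul, padicNorm.mul, norm_wvF hp h2 T k hT hk, norm_uvF hp h2 T k,
    mul_one, mul_one, zpow_neg, zpow_natCast]
  have hpn : padicNorm p (p : ℚ) = (p : ℚ)⁻¹ := padicNorm.padicNorm_p_of_prime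
  generalize cnt T p (k % p) = m
  induction m with
  | zero => simp
  | succ m ih => rw [pow_succ, padicNorm.mul, ih, hpn, mul_inv]

/-- the sum over a shifted block -/
theorem sum_splitF {p : ℕ} (hp : p.Prime) (h2 : p ≠ 2) (T : Finset ℕ) (k : ℕ) :
    padicNorm p (∑ i ∈ T, 1 / ((i : ℚ) - k - p / 2) - lvF T p k / p) ≤ 1 := by
  have := Fact.mk hp
  have hp0 : (p : ℚ) ≠ 0 := by exact_mod_cast hp.ne_zero
  have h1 : ∑ i ∈ clsF T p k, 1 / ((i : ℚ) - k - p / 2) = lvF T p k / p := by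
    rw [lvF, sum_div]
    refine sum_congr rfl fun i hi => ?_
    rw [sub_clsF hi]
    have := half_sub_ne (i / p) (k / p)
    field_simp
  have h3 : ∑ i ∈ T, 1 / ((i : ℚ) - k - p / 2) = ∑ i ∈ clsF T p k, 1 / ((i : ℚ) - k - p / 2) +
      ∑ i ∈ ncls T p k, 1 / ((i : ℚ) - k - p / 2) := by
    conv_lhs => rw [clsF_union T p k]
    rw [sum_union (clsF_disj T p k)]
  rw [h3, h1, add_sub_cancel_left]
  refine padicNorm.sum_le' (fun i hi => ?_) zero_le_one
  simp only [ncls, mem_filter] at hi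
  rw [padicNorm.div, padicNorm.one, norm_half_ne hp h2 hi.2, div_one]

/-- congruence of products of p-integral factors -/
theorem prod_congr_mod {p : ℕ} [Fact p.Prime] (T : Finset ℕ) (f g : ℕ → ℚ) (t : ℚ) (ht : 0 ≤ t)
    (hf : ∀ i ∈ T, padicNorm p (f i) ≤ 1) (hg : ∀ i ∈ T, padicNorm p (g i) ≤ 1)
    (hfg : ∀ i ∈ T, padicNorm p (f i - g i) ≤ t) :
    padicNorm p (∏ i ∈ T, f i - ∏ i ∈ T, g i) ≤ t := by
  classical
  induction T using Finset.induction_on with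
  | empty => simpa using ht
  | insert a s ha ih =>
    rw [prod_insert ha, prod_insert ha]
    have e : f a * ∏ i ∈ s, f i - g a * ∏ i ∈ s, g i =
        (f a - g a) * ∏ i ∈ s, f i + g a * (∏ i ∈ s, f i - ∏ i ∈ s, g i) := by ring
    rw [e]
    have h1 : padicNorm p (∏ i ∈ s, f i) ≤ 1 := by
      rw [padicNorm_prod]
      exact prod_le_one (fun i _ => padicNorm.nonneg _) fun i hi => hf i (mem_insert_of_mem hi)
    have h2 := ih (fun i hi => hf i (mem_insert_of_mem hi)) (fun i hi => hg i (mem_insert_of_mem hi))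
      (fun i hi => hfg i (mem_insert_of_mem hi))
    refine padicNorm.nonarchimedean.trans (max_le ?_ ?_)
    · rw [padicNorm.mul]
      calc padicNorm p (f a - g a) * padicNorm p (∏ i ∈ s, f i) ≤ t * 1 :=
            mul_le_mul (hfg a (mem_insert_self a s)) h1 (padicNorm.nonneg _) ht
        _ = t := mul_one t
    · rw [padicNorm.mul]
      calc padicNorm p (g a) * padicNorm p (∏ i ∈ s, f i - ∏ i ∈ s, g i) ≤ 1 * t :=
            mul_le_mul (hg a (mem_insert_self a s)) h2 (padicNorm.nonneg _) zero_le_one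
        _ = t := one_mul t

/-- the unit part of the half block is congruent to the product over the shifted integer block -/
theorem uvF_congr {p : ℕ} (hp : p.Prime) (h2 : p ≠ 2) (T : Finset ℕ) (k : ℕ) :
    padicNorm p (uvF T p k - uv T p k) ≤ (p : ℚ)⁻¹ := by
  have := Fact.mk hp
  unfold uvF uv
  refine prod_congr_mod _ _ _ _ (by positivity) (fun i _ => norm_half_le_one hp h2 i k) ?_ ?_
  · intro i _
    have : ((i : ℚ) - k) = (((i : ℤ) - k : ℤ) : ℚ) := by push_cast; ring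
    rw [this]
    exact padicNorm.of_int _
  · intro i _
    have : ((i : ℚ) - k - p / 2) - ((i : ℚ) - k) = -((p : ℚ) / 2) := by ring
    rw [this, padicNorm.neg, padicNorm.div, norm_two hp h2, div_one,
      padicNorm.padicNorm_p_of_prime]

/-- number of elements of a shifted block in a class -/
theorem cnt_block (p s a b : ℕ) (hp : 0 < p) (hs : s < p) (hab : a ≤ b) :
    (cnt (Ico a b) p s : ℤ) =
      (((b / p : ℕ) : ℤ) + (if s < b % p then 1 else 0)) - (((a / p : ℕ) : ℤ) + (if s < a % p then 1 else 0)) :=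
  card_block p s a b hp hs hab

end Pool.Agent.Z23
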