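import Pool.Agent.Z3.IntAux

/-!
Clearing denominators by a product of prime powers, general form.
-/

open Finset

namespace Pool.Agent.Z23

/-- the product of the prime powers up to M -/
def DM (M : ℕ) (e : ℕ → ℕ) : ℕ := ∏ p ∈ (range (M + 1)).filter Nat.Prime, p ^ e p

theorem DM_pos (M : ℕ) (e : ℕ → ℕ) : 0 < DM M e :=
  Finset.prod_pos fun _ hp => pow_pos (Finset.mem_filter.mp hp).2.pos _

/-- clearing denominators -/
theorem int_of_bounds (M : ℕ) (e : ℕ → ℕ) (x : ℚ)
    (hx : ∀ p : ℕ, p.Prime → p ≤ M → padicNorm p x ≤ (p : ℚ) ^ e p)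
    (hx0 : ∀ p : ℕ, p.Prime → M < p → padicNorm p x ≤ 1) :
    ∃ z : ℤ, (DM M e : ℚ) * x = z := by
  refine Z3.int_of_padicNorm_le _ fun p hp => ?_
  have : Fact p.Prime := ⟨hp⟩
  have hp0 : (0 : ℚ) < p := by exact_mod_cast hp.pos
  unfold DM
  rw [padicNorm.mul, Z3.padicNorm_prod_pow _ (fun q hq => (Finset.mem_filter.mp hq).2) e p hp]
  by_cases hle : p ≤ M
  · rw [if_pos (Finset.mem_filter.mpr ⟨Finset.mem_range.mpr (by omega), hp⟩)]
    calc (p : ℚ) ^ (-(e p : ℤ)) * padicNorm p x ≤ (p : ℚ) ^ (-(e p : ℤ)) * (p : ℚ) ^ e p := by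
          gcongr
          exact hx p hp hle
      _ = 1 := by rw [zpow_neg, zpow_natCast, inv_mul_cancel₀ (by positivity)]
  · push Not at hle
    rw [if_neg (fun h => absurd (Finset.mem_range.mp (Finset.mem_filter.mp h).1) (by omega)), one_mul]
    exact hx0 p hp hle

/-- the logarithm of the common denominator -/
theorem log_DM (M : ℕ) (e : ℕ → ℕ) :
    Real.log (DM M e : ℝ) = ∑ p ∈ (range (M + 1)).filter Nat.Prime, (e p : ℝ) * Real.log p := by
  unfold DM
  push_cast
  rw [Real.log_prod]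
  · refine Finset.sum_congr rfl fun p _ => ?_
    rw [Real.log_pow]
  · intro p hp
    have := (Finset.mem_filter.mp hp).2.pos
    positivity

end Pool.Agent.Z23
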