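import Pool.Agent.Z23.PsiGen

/-!
Numerical inequalities between logarithms of natural numbers, by one comparison of integers,
and a cubic lower bound for the arctangent.
-/

namespace Pool.Agent.Z23

theorem log_list (l : List (ℕ × ℕ)) (h : ∀ q ∈ l, 0 < q.1) :
    0 < (l.map (fun q => q.1 ^ q.2)).prod ∧
    Real.log (((l.map (fun q => q.1 ^ q.2)).prod : ℕ) : ℝ) =
      (l.map (fun q => (q.2 : ℝ) * Real.log q.1)).sum := by
  induction l with
  | nil => simp
  | cons q l ih =>
    obtain ⟨h1, h2⟩ := ih fun r hr => h r (List.mem_cons_of_mem _ hr)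
    have h3 := h q List.mem_cons_self
    simp only [List.map_cons, List.prod_cons, List.sum_cons]
    refine ⟨Nat.mul_pos (Nat.pow_pos h3) h1, ?_⟩
    have h4 : (((l.map (fun q => q.1 ^ q.2)).prod : ℕ) : ℝ) ≠ 0 := by
      exact_mod_cast h1.ne'
    have h5 : ((q.1 ^ q.2 : ℕ) : ℝ) ≠ 0 := by
      exact_mod_cast (Nat.pow_pos h3).ne'
    rw [Nat.cast_mul, Real.log_mul h5 h4, h2, Nat.cast_pow, Real.log_pow]

/-- comparison of two products of powers, with a factor `e^T` -/
theorem log_list_le (pos neg : List (ℕ × ℕ)) (hp : ∀ q ∈ pos, 0 < q.1) (hn : ∀ q ∈ neg, 0 < q.1)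
    (T : ℕ) (h : (pos.map (fun q => q.1 ^ q.2)).prod * 27183 ^ T ≤
      (neg.map (fun q => q.1 ^ q.2)).prod * 10000 ^ T) :
    (pos.map (fun q => (q.2 : ℝ) * Real.log q.1)).sum + T ≤
      (neg.map (fun q => (q.2 : ℝ) * Real.log q.1)).sum := by
  obtain ⟨p1, p2⟩ := log_list pos hp
  obtain ⟨n1, n2⟩ := log_list neg hn
  rw [← p2, ← n2]
  have h1 : (((pos.map (fun q => q.1 ^ q.2)).prod : ℕ) : ℝ) * 27183 ^ T ≤
      (((neg.map (fun q => q.1 ^ q.2)).prod : ℕ) : ℝ) * 10000 ^ T := by
    exact_mod_cast h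
  have hP : (0 : ℝ) < (((pos.map (fun q => q.1 ^ q.2)).prod : ℕ) : ℝ) := by exact_mod_cast p1
  have hN : (0 : ℝ) < (((neg.map (fun q => q.1 ^ q.2)).prod : ℕ) : ℝ) := by exact_mod_cast n1
  have h2 := Real.log_le_log (by positivity) h1
  rw [Real.log_mul hP.ne' (by positivity), Real.log_mul hN.ne' (by positivity), Real.log_pow,
    Real.log_pow] at h2
  have h3 : (1 : ℝ) ≤ Real.log (27183 / 10000) := by
    rw [Real.le_log_iff_exp_le (by norm_num)]
    have := Real.exp_one_lt_d9
    linarith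
  rw [Real.log_div (by norm_num) (by norm_num)] at h3
  have h4 : (0 : ℝ) ≤ T := Nat.cast_nonneg T
  nlinarith

theorem arctan_cubic (x : ℝ) (hx : 0 ≤ x) : x - x ^ 3 / 3 ≤ Real.arctan x := by
  have hd : ∀ z : ℝ, HasDerivAt (fun z => Real.arctan z - (z - z ^ 3 / 3))
      (1 / (1 + z ^ 2) - (1 - z ^ 2)) z := by
    intro z
    have h1 := Real.hasDerivAt_arctan z
    have h2 : HasDerivAt (fun z : ℝ => z ^ 3 / 3) (z ^ 2) z := by
      have := (hasDerivAt_pow 3 z).div_const 3
      refine this.congr_deriv ?_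
      norm_num
    exact h1.fun_sub ((hasDerivAt_id' z).fun_sub h2)
  have hm : MonotoneOn (fun z => Real.arctan z - (z - z ^ 3 / 3)) (Set.Ici 0) := by
    apply monotoneOn_of_deriv_nonneg (convex_Ici 0)
    · intro z _
      exact (hd z).continuousAt.continuousWithinAt
    · intro z _
      exact (hd z).differentiableAt.differentiableWithinAt
    · intro z _
      rw [(hd z).deriv]
      have h1 : 0 < 1 + z ^ 2 := by positivity
      rw [sub_nonneg, le_div_iff₀ h1]
      nlinarith [sq_nonneg (z ^ 2)]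
  have := hm (Set.mem_Ici.mpr le_rfl) (Set.mem_Ici.mpr hx) hx
  simp only [Real.arctan_zero] at this
  norm_num at this
  linarith

end Pool.Agent.Z23
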