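import Pool.Agent.Z23.Concl
import Pool.Agent.Z23.FormG
import Pool.Agent.Z23.IntG

/-!
The main reduction: what remains to be proved about a family of block data.
-/

open Filter Topology Finset

namespace Pool.Agent.Z23

open Pool.Agent.Z3 (zeta3)

/-- all three rational numbers of the two linear forms are p-adically bounded by p ^ w -/
def PBD (d : BD) (U a p w : ℕ) : Prop :=
  ∀ j : ℕ, j ≤ 2 → padicNorm p (d.QG 1 j) ≤ (p : ℚ) ^ w ∧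
    padicNorm p (P2 d.K1 (d.AA 1 j) (d.BB 1 j) U) ≤ (p : ℚ) ^ w ∧
    padicNorm p (P3 d.K1 (d.AA 1 j) (d.BB 1 j) a) ≤ (p : ℚ) ^ w

/-- the main reduction -/
theorem main_red (d : ℕ → BD) (M U a : ℕ → ℕ) (e : ℕ → ℕ → ℕ) (f δ : ℝ)
    (hd : ∀ N, 1 ≤ N → (d N).OK)
    (hU : ∀ N, 1 ≤ N → 2 * (d N).a3 + 1 ≤ U N ∧ U N ≤ 2 * ((d N).a1 + (d N).l1) ∧
      U N ≤ 2 * ((d N).a3 + (d N).l3) + 1)
    (ha : ∀ N, 1 ≤ N → (d N).a3 + 1 ≤ a N ∧ a N ≤ (d N).a1 + (d N).l1 ∧ a N ≤ (d N).a2 + (d N).l2)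
    (hb2 : ∃ C : ℝ, ∃ D : ℕ, ∀ N j : ℕ, 1 ≤ N → j ≤ 2 →
      ‖(d N).F2G 1 j‖ ≤ C * (N : ℝ) ^ D * Real.exp (-(f * N)))
    (hb3 : ∃ C : ℝ, ∃ D : ℕ, ∀ N j : ℕ, 1 ≤ N → j ≤ 2 →
      ‖(d N).F3G 1 j‖ ≤ C * (N : ℝ) ^ D * Real.exp (-(f * N)))
    (hp : ∀ N, 1 ≤ N → ∀ p : ℕ, p.Prime → p ≤ M N → PBD (d N) (U N) (a N) p (e N p))
    (hp0 : ∀ N, 1 ≤ N → ∀ p : ℕ, p.Prime → M N < p → PBD (d N) (U N) (a N) p 0)
    (hlog : ∀ᶠ N : ℕ in atTop,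
      ∑ p ∈ (range (M N + 1)).filter Nat.Prime, (e N p : ℝ) * Real.log p ≤ δ * N)
    (hδ : δ < f) (x y z : ℤ) (h : (x : ℝ) * zeta2 + (y : ℝ) * zeta3 + (z : ℝ) = 0) :
    x = 0 ∧ y = 0 ∧ z = 0 := by
  refine assemble zeta2 zeta3 (fun N j => (d N).QG 1 j)
    (fun N j => P2 (d N).K1 ((d N).AA 1 j) ((d N).BB 1 j) (U N))
    (fun N j => P3 (d N).K1 ((d N).AA 1 j) ((d N).BB 1 j) (a N))
    (fun N => DM (M N) (e N)) (fun N j => (d N).F2G 1 j) (fun N j => (d N).F3G 1 j) f δ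
    (fun N _ => DM_pos _ _) ?_ ?_ ?_ hb2 hb3 ?_ ?_ hδ x y z h
  · intro N j hN hj
    obtain ⟨h1, h2, h3⟩ := hU N hN
    exact BD.F2G_eq (hd N hN) 1 j hj (U N) h1 h2 h3
  · intro N j hN hj
    obtain ⟨h1, h2, h3⟩ := ha N hN
    exact BD.F3G_eq (hd N hN) 1 j hj (a N) h1 h2 h3
  · intro N hN x y hxy
    obtain ⟨h1, h2⟩ := BD.nonvanishG (hd N hN) 1 one_ne_zero (x : ℂ) (y : ℂ) hxy
    exact ⟨by exact_mod_cast h1, by exact_mod_cast h2⟩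
  · filter_upwards [hlog] with N hN
    rw [log_DM]
    exact hN
  · intro N j hN hj
    have key : ∀ q : ℚ, (∀ p : ℕ, p.Prime → p ≤ M N → padicNorm p q ≤ (p : ℚ) ^ e N p) →
        (∀ p : ℕ, p.Prime → M N < p → padicNorm p q ≤ (p : ℚ) ^ 0) →
        ∃ z : ℤ, (DM (M N) (e N) : ℚ) * q = z := fun q h1 h2 =>
      int_of_bounds _ _ q h1 fun p hp hlt => by simpa using h2 p hp hlt
    refine ⟨key _ (fun p hpp hle => (hp N hN p hpp hle j hj).1)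
      (fun p hpp hlt => (hp0 N hN p hpp hlt j hj).1),
      key _ (fun p hpp hle => (hp N hN p hpp hle j hj).2.1)
      (fun p hpp hlt => (hp0 N hN p hpp hlt j hj).2.1),
      key _ (fun p hpp hle => (hp N hN p hpp hle j hj).2.2)
      (fun p hpp hlt => (hp0 N hN p hpp hlt j hj).2.2)⟩

end Pool.Agent.Z23
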