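import Pool.Agent.Z23.JForm

/-!
# Moving the lines of integration across zeros, and the change of base point

`g` is a function which agrees with partial fractions away from the poles; the J-integral of
`g (u/2)` changes by a sign when the line crosses an integer `m` with `g (m/2) = 0`, and the
squared kernel integral does not change when the line crosses an integer with `deriv g m = 0`.
Base points: `a` (the line Re t = -a + 1/2) for zeta(3), `U` (the line Re u = -U + 1/2, u = 2t)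
for zeta(2).
-/

open Finset Filter Topology Complex
open scoped BigOperators

namespace Pool.Agent.Z23

open Pool.Agent.Z3 (PolyGrowth line_re line_im Iint H Ker zeta3)

/-- the rational part of the zeta(3) form with base point a -/
def P3 (K : Finset ℕ) (α β : ℕ → ℚ) (a : ℕ) : ℚ :=
  ∑ k ∈ K, (2 * α k * H 3 (k - a) + β k * H 2 (k - a))

/-- the rational part of the zeta(2) form with base point U -/
def P2 (K : Finset ℕ) (α β : ℕ → ℚ) (U : ℕ) : ℚ :=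
  ∑ k ∈ K, (4 * α k * AH 2 (2 * k - U) + 2 * β k * AH 1 (2 * k - U))

variable (g : ℂ → ℂ) (K : Finset ℕ) (α β : ℕ → ℚ) (a U : ℕ)

theorem g_diffOn (ha : ∀ k ∈ K, a ≤ k)
    (hg : ∀ t : ℂ, (∀ k ∈ K, t + (k : ℂ) ≠ 0) → g t = pfun K α β t) :
    DifferentiableOn ℂ g {t : ℂ | -(a : ℝ) < t.re} := by
  apply (pf_diffOn K α β a ha).congr
  intro t ht
  exact hg t (fun k hk => ne_of_re a k (ha k hk) ht)

theorem g_growth (ha : ∀ k ∈ K, a ≤ k)
    (hg : ∀ t : ℂ, (∀ k ∈ K, t + (k : ℂ) ≠ 0) → g t = pfun K α β t) (m : ℤ) (hm : 1 ≤ m + a) :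
    PolyGrowth m g := by
  refine ⟨∑ k ∈ K, (‖(α k : ℂ)‖ / (1 / 2) ^ 2 + ‖(β k : ℂ)‖ / (1 / 2)), 0, fun t h1 _ => ?_⟩
  have hm' : (1 : ℝ) ≤ (m : ℝ) + a := by exact_mod_cast hm
  rw [pow_zero, mul_one, hg t (fun k hk => ne_of_re a k (ha k hk) (by linarith))]
  exact pf_bound K α β a ha (1 / 2) (by norm_num) t (by linarith)

theorem half_diffOn (hU : ∀ k ∈ K, U ≤ 2 * k)
    (hg : ∀ t : ℂ, (∀ k ∈ K, t + (k : ℂ) ≠ 0) → g t = pfun K α β t) :
    DifferentiableOn ℂ (fun u => g (u / 2)) {t : ℂ | -(U : ℝ) < t.re} := by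
  have h1 : DifferentiableOn ℂ (fun u => pfun K α β (u / 2)) {t : ℂ | -(U : ℝ) < t.re} := by
    intro t ht
    apply DifferentiableAt.differentiableWithinAt
    unfold pfun
    apply DifferentiableAt.fun_sum
    intro k hk
    have := ne_of_re_half U k (hU k hk) ht
    apply DifferentiableAt.add
    · exact (differentiableAt_const _).div (by fun_prop) (pow_ne_zero _ this)
    · exact (differentiableAt_const _).div (by fun_prop) this
  apply h1.congr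
  intro t ht
  exact hg (t / 2) (fun k hk => ne_of_re_half U k (hU k hk) ht)

theorem half_growth (hU : ∀ k ∈ K, U ≤ 2 * k)
    (hg : ∀ t : ℂ, (∀ k ∈ K, t + (k : ℂ) ≠ 0) → g t = pfun K α β t) (m : ℤ) (hm : 1 ≤ m + U) :
    PolyGrowth m (fun u => g (u / 2)) := by
  refine ⟨∑ k ∈ K, (‖(α k : ℂ)‖ / (1 / 4) ^ 2 + ‖(β k : ℂ)‖ / (1 / 4)), 0, fun t h1 _ => ?_⟩
  have hm' : (1 : ℝ) ≤ (m : ℝ) + U := by exact_mod_cast hm
  have h2 : (t / 2).re = t.re / 2 := by simp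
  rw [pow_zero, mul_one]
  change ‖g (t / 2)‖ ≤ _
  rw [hg (t / 2) (fun k hk => ne_of_re_half U k (hU k hk) (by linarith))]
  unfold pfun
  apply (norm_sum_le _ _).trans
  apply sum_le_sum
  intro k hk
  have h3 : (1 / 4 : ℝ) ≤ ‖t / 2 + (k : ℂ)‖ := by
    have h4 := Complex.re_le_norm (t / 2 + (k : ℂ))
    have h5 : (U : ℝ) ≤ 2 * k := by exact_mod_cast hU k hk
    rw [Complex.add_re, h2, Complex.natCast_re] at h4
    linarith
  have h5 : (0 : ℝ) < ‖t / 2 + (k : ℂ)‖ := by linarith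
  apply (norm_add_le _ _).trans
  apply add_le_add
  · rw [norm_div, norm_pow]
    gcongr
  · rw [norm_div]
    gcongr

/-- one step of the J-integral -/
theorem J_step (hU : ∀ k ∈ K, U ≤ 2 * k)
    (hg : ∀ t : ℂ, (∀ k ∈ K, t + (k : ℂ) ≠ 0) → g t = pfun K α β t) (m : ℤ) (hm : 1 ≤ m + U) :
    J m (fun u => g (u / 2)) + J (m + 1) (fun u => g (u / 2)) = g ((m : ℂ) / 2) := by
  have hm' : (1 : ℝ) ≤ (m : ℝ) + U := by exact_mod_cast hm
  exact J_shift m (fun u => g (u / 2)) {t : ℂ | -(U : ℝ) < t.re}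
    (isOpen_lt continuous_const Complex.continuous_re)
    (fun t h1 _ => by simp only [Set.mem_ofPred_eq]; linarith)
    (half_diffOn g K α β U hU hg) (half_growth g K α β U hU hg m hm)

/-- moving the J-integral across zeros: base point `U' ≤ U` -/
theorem J_move (hU : ∀ k ∈ K, U ≤ 2 * k)
    (hg : ∀ t : ℂ, (∀ k ∈ K, t + (k : ℂ) ≠ 0) → g t = pfun K α β t) (U' : ℕ) (h : U' ≤ U)
    (h0 : ∀ j : ℕ, U' ≤ j → j < U → g (-(j : ℂ) / 2) = 0) :
    (-1) ^ U * J (-(U : ℤ) + 1) (fun u => g (u / 2)) =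
      (-1) ^ U' * J (-(U' : ℤ) + 1) (fun u => g (u / 2)) := by
  obtain ⟨M, rfl⟩ : ∃ M, U = U' + M := ⟨U - U', by omega⟩
  rw [J_telescope (-((U' + M : ℕ) : ℤ) + 1) (fun u => g (u / 2)) M
    (fun i _ => J_step g K α β (U' + M) hU hg (-((U' + M : ℕ) : ℤ) + 1 + i) (by omega)),
    sum_eq_zero, add_zero]
  · have e : -((U' + M : ℕ) : ℤ) + 1 + (M : ℤ) = -(U' : ℤ) + 1 := by push_cast; ring
    have e2 : ((-1 : ℂ)) ^ M * (-1) ^ M = 1 := by rw [← mul_pow]; norm_num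
    rw [e, pow_add]
    linear_combination ((-1) ^ U' * J (-(U' : ℤ) + 1) (fun u => g (u / 2))) * e2
  · intro i hi
    rw [mem_range] at hi
    have h1 := h0 (U' + M - 1 - i) (by omega) (by omega)
    have e : ((-((U' + M : ℕ) : ℤ) + 1 + (i : ℤ) : ℤ) : ℂ) = -((U' + M - 1 - i : ℕ) : ℂ) := by
      have : (-((U' + M : ℕ) : ℤ) + 1 + (i : ℤ) : ℤ) = -((U' + M - 1 - i : ℕ) : ℤ) := by omega
      rw [this]
      push_cast
      rfl
    rw [e, h1, mul_zero]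

/-- moving the integral against the squared kernel: base point `a' ≤ a` -/
theorem Iint_move (ha : ∀ k ∈ K, a ≤ k)
    (hg : ∀ t : ℂ, (∀ k ∈ K, t + (k : ℂ) ≠ 0) → g t = pfun K α β t) (a' : ℕ) (h : a' ≤ a)
    (h0 : ∀ j : ℕ, a' ≤ j → j < a → deriv g (-(j : ℂ)) = 0) :
    Iint (-(a : ℤ) + 1) g = Iint (-(a' : ℤ) + 1) g := by
  obtain ⟨M, rfl⟩ : ∃ M, a = a' + M := ⟨a - a', by omega⟩
  have hm' : (1 : ℝ) ≤ ((-((a' + M : ℕ) : ℤ) + 1 : ℤ) : ℝ) + ((a' + M : ℕ) : ℝ) := by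
    push_cast; linarith
  rw [Z3.Iint_telescope (-((a' + M : ℕ) : ℤ) + 1) g M (fun i _ => Z3.Iint_shift
    (-((a' + M : ℕ) : ℤ) + 1 + i) g
    {t : ℂ | -((a' + M : ℕ) : ℝ) < t.re} (isOpen_lt continuous_const Complex.continuous_re)
    (fun t h3 _ => by
      simp only [Set.mem_ofPred_eq]
      have hi0 : (0 : ℝ) ≤ (i : ℝ) := Nat.cast_nonneg i
      push_cast at h3 ⊢
      linarith) (g_diffOn g K α β (a' + M) ha hg)
    (g_growth g K α β (a' + M) ha hg (-((a' + M : ℕ) : ℤ) + 1 + i) (by omega))), sum_eq_zero,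
    add_zero]
  · congr 1
    push_cast
    ring
  · intro i hi
    rw [mem_range] at hi
    have h1 := h0 (a' + M - 1 - i) (by omega) (by omega)
    have e : ((-((a' + M : ℕ) : ℤ) + 1 + (i : ℤ) : ℤ) : ℂ) = -((a' + M - 1 - i : ℕ) : ℂ) := by
      have : (-((a' + M : ℕ) : ℤ) + 1 + (i : ℤ) : ℤ) = -((a' + M - 1 - i : ℕ) : ℤ) := by omega
      rw [this]
      push_cast
      rfl
    rw [e, h1, neg_zero]

/-- the linear form in 1 and zeta(2), rational part with base point `U`, integral on the line of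
the base point `U' ≤ U` -/
theorem J_form (hU : ∀ k ∈ K, U ≤ 2 * k)
    (hg : ∀ t : ℂ, (∀ k ∈ K, t + (k : ℂ) ≠ 0) → g t = pfun K α β t) (hβ : ∑ k ∈ K, β k = 0)
    (U' : ℕ) (h : U' ≤ U) (h0 : ∀ j : ℕ, U' ≤ j → j < U → g (-(j : ℂ) / 2) = 0) :
    (-1) ^ U' * J (-(U' : ℤ) + 1) (fun u => g (u / 2)) =
      ((2 * ∑ k ∈ K, α k : ℚ) : ℂ) * (zeta2 : ℂ) - ((P2 K α β U : ℚ) : ℂ) := by
  rw [← J_move g K α β U hU hg U' h h0, J_form_gen g K α β U hU hg hβ]
  rfl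

/-- the linear form in 1 and zeta(3), rational part with base point `a`, integral on the line of
the base point `a' ≤ a` -/
theorem I_form (ha : ∀ k ∈ K, a ≤ k)
    (hg : ∀ t : ℂ, (∀ k ∈ K, t + (k : ℂ) ≠ 0) → g t = pfun K α β t) (hβ : ∑ k ∈ K, β k = 0)
    (a' : ℕ) (h : a' ≤ a) (h0 : ∀ j : ℕ, a' ≤ j → j < a → deriv g (-(j : ℂ)) = 0) :
    Iint (-(a' : ℤ) + 1) g = ((2 * ∑ k ∈ K, α k : ℚ) : ℂ) * (zeta3 : ℂ) -
      ((P3 K α β a : ℚ) : ℂ) := by
  rw [← Iint_move g K α β a ha hg a' h h0, Iint_form g K α β a ha hg hβ]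
  rfl

/-- change of base point for zeta(2) -/
theorem P2_base (hU : ∀ k ∈ K, U ≤ 2 * k)
    (hg : ∀ t : ℂ, (∀ k ∈ K, t + (k : ℂ) ≠ 0) → g t = pfun K α β t) (hβ : ∑ k ∈ K, β k = 0)
    (U' : ℕ) (h : U' ≤ U) (h0 : ∀ j : ℕ, U' ≤ j → j < U → g (-(j : ℂ) / 2) = 0) :
    P2 K α β U = P2 K α β U' := by
  have h1 := J_form g K α β U hU hg hβ U' h h0
  have h2 := J_form_gen g K α β U' (fun k hk => h.trans (hU k hk)) hg hβ
  rw [h1] at h2
  have h3 : ((P2 K α β U : ℚ) : ℂ) = ((P2 K α β U' : ℚ) : ℂ) := by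
    unfold P2 at h2 ⊢
    linear_combination -h2
  exact_mod_cast h3

/-- change of base point for zeta(3) -/
theorem P3_base (ha : ∀ k ∈ K, a ≤ k)
    (hg : ∀ t : ℂ, (∀ k ∈ K, t + (k : ℂ) ≠ 0) → g t = pfun K α β t) (hβ : ∑ k ∈ K, β k = 0)
    (a' : ℕ) (h : a' ≤ a) (h0 : ∀ j : ℕ, a' ≤ j → j < a → deriv g (-(j : ℂ)) = 0) :
    P3 K α β a = P3 K α β a' := by
  have h1 := I_form g K α β a ha hg hβ a' h h0
  have h2 := Iint_form g K α β a' (fun k hk => h.trans (ha k hk)) hg hβ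
  rw [h1] at h2
  have h3 : ((P3 K α β a : ℚ) : ℂ) = ((P3 K α β a' : ℚ) : ℂ) := by
    unfold P3 at h2 ⊢
    linear_combination -h2
  exact_mod_cast h3

/-- a function with a double factor has vanishing derivative at the zero -/
theorem deriv_zero_of_double (u v : ℂ → ℂ) (x : ℂ) (hu : DifferentiableAt ℂ u x)
    (hv : DifferentiableAt ℂ v x) (hu0 : u x = 0) (hv0 : v x = 0) :
    deriv (fun t => u t * v t) x = 0 := by
  have h3 := hu.hasDerivAt.mul hv.hasDerivAt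
  have h4 : (fun t => u t * v t) = u * v := rfl
  rw [h4, h3.deriv, hu0, hv0]
  simp

end Pool.Agent.Z23
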