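import Mathlib

/-!
Algebra of telescoping polynomials for a hypergeometric quotient N/D (generic block data):
every polynomial is a telescoping polynomial plus a remainder of degree at most d, and a multiple of the
denominator has a remainder with vanishing coefficient of degree d.
-/

open Polynomial

namespace Pool.Agent.Z23

/-- numerator `N` (degree `e`), denominator `D` (degree `e + d + 1`), shift polynomials `A`, `B`
(degree `d + 2`): `N(t+1)/D(t+1) = (A(t)/B(t+1)) * N(t)/D(t)` -/
structure ShiftData (N D A B : ℂ[X]) (e d : ℕ) : Prop where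
  shift : taylor 1 B * taylor 1 N * D = A * N * taylor 1 D
  Nm : N.Monic
  Dm : D.Monic
  Nd : N.natDegree = e
  Dd : D.natDegree = e + (d + 1)
  Am : A.Monic
  Bm : B.Monic
  Ad : A.natDegree = d + 2
  Bd : B.natDegree = d + 2
  next : A.nextCoeff = B.nextCoeff + 1

/-- telescoping polynomials -/
noncomputable def ES (A B S : ℂ[X]) : ℂ[X] := taylor 1 S * A - S * B

theorem ES_add (A B S T : ℂ[X]) : ES A B (S + T) = ES A B S + ES A B T := by
  unfold ES
  rw [map_add]
  ring

theorem ES_C_mul (A B : ℂ[X]) (c : ℂ) (S : ℂ[X]) : ES A B (C c * S) = C c * ES A B S := by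
  unfold ES
  rw [taylor_mul, taylor_C]
  ring

variable {N D A B : ℂ[X]} {e d : ℕ}

theorem ShiftData.ES_X_pow (h : ShiftData N D A B e d) (s : ℕ) :
    (ES A B (X ^ s)).natDegree ≤ s + (d + 1) ∧
      (ES A B (X ^ s)).coeff (s + (d + 1)) = (s : ℂ) + 1 := by
  have t1 : taylor (1 : ℂ) (X ^ s) = (X + C 1) ^ s := by
    rw [taylor_pow, taylor_X]
  have mp : ((X + C (1 : ℂ)) ^ s * A).Monic := ((monic_X_add_C _).pow s).mul h.Am
  have mq : (X ^ s * B : ℂ[X]).Monic := ((monic_X).pow s).mul h.Bm
  have dp : ((X + C (1 : ℂ)) ^ s * A).natDegree = s + (d + 2) := by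
    rw [((monic_X_add_C _).pow s).natDegree_mul h.Am, (monic_X_add_C _).natDegree_pow,
      natDegree_X_add_C, h.Ad, mul_one]
  have dq : (X ^ s * B : ℂ[X]).natDegree = s + (d + 2) := by
    rw [((monic_X).pow s).natDegree_mul h.Bm, natDegree_X_pow, h.Bd]
  have np : ((X + C (1 : ℂ)) ^ s * A).nextCoeff = (s : ℂ) + A.nextCoeff := by
    rw [((monic_X_add_C _).pow s).nextCoeff_mul h.Am, (monic_X_add_C _).nextCoeff_pow,
      nextCoeff_X_add_C]
    simp
  have nq : (X ^ s * B : ℂ[X]).nextCoeff = B.nextCoeff := by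
    have : (X : ℂ[X]).nextCoeff = 0 := by
      have := nextCoeff_X_add_C (0 : ℂ)
      simpa using this
    rw [((monic_X).pow s).nextCoeff_mul h.Bm, (monic_X).nextCoeff_pow, this]
    simp
  have cp : ((X + C (1 : ℂ)) ^ s * A).coeff (s + (d + 1)) = (s : ℂ) + A.nextCoeff := by
    rw [← np, nextCoeff_of_natDegree_pos (by omega), dp]
    rfl
  have cq : (X ^ s * B : ℂ[X]).coeff (s + (d + 1)) = B.nextCoeff := by
    rw [← nq, nextCoeff_of_natDegree_pos (by omega), dq]
    rfl
  constructor
  · unfold ES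
    rw [t1]
    rw [natDegree_le_iff_coeff_eq_zero]
    intro n hn
    rw [coeff_sub]
    rcases Nat.lt_or_ge (s + (d + 2)) n with h' | h'
    · rw [coeff_eq_zero_of_natDegree_lt (by omega), coeff_eq_zero_of_natDegree_lt (by omega),
        sub_zero]
    · have hN5 : n = s + (d + 2) := by omega
      have h1 := mp.coeff_natDegree
      have h2 := mq.coeff_natDegree
      rw [dp] at h1
      rw [dq] at h2
      rw [hN5, h1, h2, sub_self]
  · unfold ES
    rw [t1, coeff_sub, cp, cq, h.next]
    ring

theorem ShiftData.decomp_aux (h : ShiftData N D A B e d) : ∀ k : ℕ, ∀ Q : ℂ[X], Q.natDegree ≤ k →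
    ∃ S q : ℂ[X], Q = q + ES A B S ∧ q.natDegree ≤ d := by
  intro k
  induction k with
  | zero =>
    intro Q hQ
    refine ⟨0, Q, ?_, by omega⟩
    simp [ES]
  | succ k ih =>
    intro Q hQ
    rcases Nat.lt_or_ge k d with h3 | h3
    · refine ⟨0, Q, ?_, by omega⟩
      simp [ES]
    · obtain ⟨s, rfl⟩ : ∃ s, k = s + d := ⟨k - d, by omega⟩
      obtain ⟨e1, e2⟩ := h.ES_X_pow s
      have hd : ((s : ℂ) + 1) ≠ 0 := by exact_mod_cast Nat.succ_ne_zero s
      set c : ℂ := Q.coeff (s + (d + 1)) / ((s : ℂ) + 1) with hc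
      have hQ' : (Q - C c * ES A B (X ^ s)).natDegree ≤ s + d := by
        rw [natDegree_le_iff_coeff_eq_zero]
        intro n hn
        rw [coeff_sub, coeff_C_mul]
        rcases Nat.lt_or_ge (s + (d + 1)) n with h | h
        · rw [coeff_eq_zero_of_natDegree_lt (by omega), coeff_eq_zero_of_natDegree_lt (by omega)]
          simp
        · have hN5 : n = s + (d + 1) := by omega
          rw [hN5, e2, hc]
          field_simp
          ring
      obtain ⟨S, q, h1, h2⟩ := ih _ hQ'
      refine ⟨S + C c * X ^ s, q, ?_, h2⟩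
      rw [ES_add, ES_C_mul, ← add_assoc, ← h1]
      ring

theorem ShiftData.decomp (h : ShiftData N D A B e d) (Q : ℂ[X]) :
    ∃ S q : ℂ[X], Q = q + ES A B S ∧ q.natDegree ≤ d :=
  h.decomp_aux _ Q le_rfl

/-- the top coefficient of the remainder of a multiple of the denominator vanishes -/
theorem ShiftData.top_zero (h : ShiftData N D A B e d) (W S q : ℂ[X]) (hW : D * W = q + ES A B S)
    (hq : q.natDegree ≤ d) : q.coeff d = 0 := by
  set Z : ℂ[X] := S * B * N with hZ
  set P0 : ℂ[X] := Z /ₘ D with hP0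
  set U : ℂ[X] := Z %ₘ D with hU
  have hdiv : U + D * P0 = Z := modByMonic_add_div Z D
  have hUd : U.natDegree < D.natDegree := by
    refine natDegree_modByMonic_lt Z h.Dm ?_
    intro h1
    have := h.Dd
    rw [h1, natDegree_one] at this
    omega
  rw [h.Dd] at hUd
  have hsh := h.shift
  have hmain : D * taylor 1 D * (W * N - (taylor 1 P0 - P0)) =
      q * N * taylor 1 D + (taylor 1 U * D - U * taylor 1 D) := by
    have h1 : D * taylor 1 D * (W * N) =
        q * N * taylor 1 D + (taylor 1 Z * D - Z * taylor 1 D) := by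
      calc D * taylor 1 D * (W * N)
          = (D * W) * N * taylor 1 D := by ring
        _ = (q + (taylor 1 S * A - S * B)) * N * taylor 1 D := by
            rw [hW]; rfl
        _ = q * N * taylor 1 D + (taylor 1 S * (A * N * taylor 1 D) -
              S * B * N * taylor 1 D) := by ring
        _ = q * N * taylor 1 D +
              (taylor 1 S * (taylor 1 B * taylor 1 N * D) -
              S * B * N * taylor 1 D) := by rw [hsh]
        _ = _ := by
            rw [hZ, taylor_mul, taylor_mul]
            ring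
    have h2 : taylor 1 Z = taylor 1 U + taylor 1 D * taylor 1 P0 := by
      rw [← hdiv, map_add, taylor_mul]
    rw [mul_sub, h1, h2, ← hdiv]
    ring
  have hdD : D.natDegree = e + (d + 1) := h.Dd
  have hdT : (taylor (1 : ℂ) D).natDegree = e + (d + 1) := by
    rw [natDegree_taylor, hdD]
  have hdTU : (taylor (1 : ℂ) U).natDegree ≤ e + d := by
    rw [natDegree_taylor]; omega
  have cU : (taylor (1 : ℂ) U).coeff (e + d) = U.coeff (e + d) := by
    rcases Nat.lt_or_ge U.natDegree (e + d) with h3 | h3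
    · rw [coeff_eq_zero_of_natDegree_lt h3, coeff_eq_zero_of_natDegree_lt]
      rw [natDegree_taylor]; exact h3
    · have h4 : U.natDegree = e + d := by omega
      have h5 : (taylor (1 : ℂ) U).leadingCoeff = U.leadingCoeff := by
        exact leadingCoeff_taylor ..
      unfold leadingCoeff at h5
      rw [natDegree_taylor, h4] at h5
      exact h5
  have cD : D.coeff (e + (d + 1)) = 1 := by
    have := h.Dm.coeff_natDegree
    rwa [hdD] at this
  have cT : (taylor (1 : ℂ) D).coeff (e + (d + 1)) = 1 := by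
    have h5 : (taylor (1 : ℂ) D).leadingCoeff = D.leadingCoeff := by
      exact leadingCoeff_taylor ..
    rw [h.Dm.leadingCoeff] at h5
    unfold leadingCoeff at h5
    rwa [hdT] at h5
  have cN : N.coeff e = 1 := by
    have := h.Nm.coeff_natDegree
    rwa [h.Nd] at this
  have hNd := h.Nd
  have hrhs : (q * N * taylor 1 D +
      (taylor 1 U * D - U * taylor 1 D)).natDegree ≤ (d + e) + (e + (d + 1)) := by
    refine (natDegree_add_le _ _).trans (max_le ?_ ((natDegree_sub_le _ _).trans (max_le ?_ ?_)))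
    · refine natDegree_mul_le.trans ?_
      have h6 : (q * N).natDegree ≤ d + e := by
        refine natDegree_mul_le.trans ?_
        omega
      omega
    · refine natDegree_mul_le.trans ?_
      omega
    · refine natDegree_mul_le.trans ?_
      omega
  have hR : W * N - (taylor 1 P0 - P0) = 0 := by
    by_contra hne
    have h7 : (D * taylor 1 D).Monic := by
      refine h.Dm.mul ?_
      unfold Monic leadingCoeff
      rw [hdT]
      exact cT
    have h8 : (D * taylor 1 D * (W * N - (taylor 1 P0 - P0))).natDegree =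
        (D * taylor 1 D).natDegree + (W * N - (taylor 1 P0 - P0)).natDegree :=
      natDegree_mul h7.ne_zero hne
    have h9 : (D * taylor 1 D).natDegree = (e + (d + 1)) + (e + (d + 1)) := by
      rw [natDegree_mul h.Dm.ne_zero (by
        intro h0
        rw [h0] at cT
        simp at cT), hdD, hdT]
    rw [hmain] at h8
    omega
  rw [hR, mul_zero] at hmain
  have hco : (q * N * taylor 1 D +
      (taylor 1 U * D - U * taylor 1 D)).coeff ((d + e) + (e + (d + 1))) = 0 := by
    rw [← hmain, coeff_zero]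
  rw [coeff_add, coeff_sub] at hco
  have e1 : (q * N * taylor 1 D).coeff ((d + e) + (e + (d + 1))) = q.coeff d := by
    have h6 : (q * N).natDegree ≤ d + e := by
      refine natDegree_mul_le.trans ?_
      omega
    have h7 := coeff_mul_add_eq_of_natDegree_le h6 hdT.le
    have h8 := coeff_mul_add_eq_of_natDegree_le hq h.Nd.le
    rw [h8, cN, cT] at h7
    rw [h7]; ring
  have e2 : (taylor 1 U * D).coeff ((d + e) + (e + (d + 1))) = U.coeff (e + d) := by
    have h7 := coeff_mul_add_eq_of_natDegree_le hdTU hdD.le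
    rw [show e + d + (e + (d + 1)) = (d + e) + (e + (d + 1)) by ring, cU, cD] at h7
    rw [h7]; ring
  have e3 : (U * taylor 1 D).coeff ((d + e) + (e + (d + 1))) = U.coeff (e + d) := by
    have h7 := coeff_mul_add_eq_of_natDegree_le (show U.natDegree ≤ e + d by omega) hdT.le
    rw [show e + d + (e + (d + 1)) = (d + e) + (e + (d + 1)) by ring, cT] at h7
    rw [h7]; ring
  rw [e1, e2, e3] at hco
  simpa using hco

/-- block polynomial `(t + a)(t + a + 1) ... (t + a + l - 1)` -/
noncomputable def blk (a : ℂ) (l : ℕ) : ℂ[X] := ∏ i ∈ Finset.range l, (X + C (a + (i : ℂ)))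

theorem blk_monic (a : ℂ) (l : ℕ) : (blk a l).Monic :=
  monic_prod_of_monic _ _ (fun _ _ => monic_X_add_C _)

theorem blk_natDegree (a : ℂ) (l : ℕ) : (blk a l).natDegree = l := by
  have h : ∀ i ∈ Finset.range l, (X + C (a + (i : ℂ))).natDegree = 1 := fun i _ => natDegree_X_add_C _
  unfold blk
  rw [natDegree_prod_of_monic _ _ (fun _ _ => monic_X_add_C _), Finset.sum_congr rfl h]
  simp

theorem blk_eval (a : ℂ) (l : ℕ) (t : ℂ) :
    (blk a l).eval t = ∏ i ∈ Finset.range l, (t + (a + (i : ℂ))) := by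
  unfold blk
  rw [eval_prod]
  simp

theorem blk_taylor (a : ℂ) (l : ℕ) :
    (X + C a) * taylor 1 (blk a l) = blk a l * (X + C (a + (l : ℂ))) := by
  induction l with
  | zero => simp [blk]
  | succ l ih =>
    have e : blk a (l + 1) = blk a l * (X + C (a + (l : ℂ))) := by
      unfold blk
      rw [Finset.prod_range_succ]
    have e2 : taylor (1 : ℂ) (X + C (a + (l : ℂ))) = X + C (a + ((l + 1 : ℕ) : ℂ)) := by
      rw [map_add, taylor_X, taylor_C]
      push_cast
      simp only [C_add]
      ring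
    rw [e, taylor_mul, ← mul_assoc, ih, e2]

theorem taylor_X_add_C (x : ℂ) : taylor (1 : ℂ) (X + C x) = X + C (x + 1) := by
  rw [map_add, taylor_X, taylor_C, C_add]
  ring

theorem five_next (a b c d e : ℂ) :
    ((X + C a) * (X + C b) * (X + C c) * (X + C d) * (X + C e)).nextCoeff = a + b + c + d + e := by
  have m1 := monic_X_add_C a
  have m2 := m1.mul (monic_X_add_C b)
  have m3 := m2.mul (monic_X_add_C c)
  have m4 := m3.mul (monic_X_add_C d)
  rw [m4.nextCoeff_mul (monic_X_add_C e), m3.nextCoeff_mul (monic_X_add_C d),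
    m2.nextCoeff_mul (monic_X_add_C c), m1.nextCoeff_mul (monic_X_add_C b)]
  simp [nextCoeff_X_add_C]

/-- three zero blocks, two pole blocks -/
theorem shiftData_blocks (a1 a2 a3 b1 b2 : ℂ) (l1 l2 l3 m1 m2 : ℕ)
    (hl : m1 + m2 = l1 + l2 + l3 + 4) :
    ShiftData (blk a1 l1 * blk a2 l2 * blk a3 l3) (blk b1 m1 * blk b2 m2)
      ((X + C (a1 + l1)) * (X + C (a2 + l2)) * (X + C (a3 + l3)) * (X + C b1) * (X + C b2))
      ((X + C (a1 - 1)) * (X + C (a2 - 1)) * (X + C (a3 - 1)) * (X + C (b1 + m1 - 1)) *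
        (X + C (b2 + m2 - 1))) (l1 + l2 + l3) 3 := by
  have t1 := blk_taylor a1 l1
  have t2 := blk_taylor a2 l2
  have t3 := blk_taylor a3 l3
  have t4 := blk_taylor b1 m1
  have t5 := blk_taylor b2 m2
  refine ⟨?_, ((blk_monic _ _).mul (blk_monic _ _)).mul (blk_monic _ _),
    (blk_monic _ _).mul (blk_monic _ _), ?_, ?_, ?_, ?_, ?_, ?_, ?_⟩
  · simp only [taylor_mul, taylor_X_add_C, sub_add_cancel]
    calc (X + C a1) * (X + C a2) * (X + C a3) * (X + C (b1 + (m1 : ℂ))) * (X + C (b2 + (m2 : ℂ))) *
          (taylor 1 (blk a1 l1) * taylor 1 (blk a2 l2) * taylor 1 (blk a3 l3)) *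
          (blk b1 m1 * blk b2 m2)
        = ((X + C a1) * taylor 1 (blk a1 l1)) * ((X + C a2) * taylor 1 (blk a2 l2)) *
          ((X + C a3) * taylor 1 (blk a3 l3)) * (blk b1 m1 * (X + C (b1 + (m1 : ℂ)))) *
          (blk b2 m2 * (X + C (b2 + (m2 : ℂ)))) := by ring
      _ = (blk a1 l1 * (X + C (a1 + (l1 : ℂ)))) * (blk a2 l2 * (X + C (a2 + (l2 : ℂ)))) *
          (blk a3 l3 * (X + C (a3 + (l3 : ℂ)))) * ((X + C b1) * taylor 1 (blk b1 m1)) *
          ((X + C b2) * taylor 1 (blk b2 m2)) := by rw [t1, t2, t3, t4, t5]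
      _ = _ := by ring
  · rw [((blk_monic _ _).mul (blk_monic _ _)).natDegree_mul (blk_monic _ _),
      (blk_monic _ _).natDegree_mul (blk_monic _ _), blk_natDegree, blk_natDegree, blk_natDegree]
  · rw [(blk_monic _ _).natDegree_mul (blk_monic _ _), blk_natDegree, blk_natDegree]
    omega
  · exact ((((monic_X_add_C _).mul (monic_X_add_C _)).mul (monic_X_add_C _)).mul
      (monic_X_add_C _)).mul (monic_X_add_C _)
  · exact ((((monic_X_add_C _).mul (monic_X_add_C _)).mul (monic_X_add_C _)).mul
      (monic_X_add_C _)).mul (monic_X_add_C _)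
  · compute_degree!
  · compute_degree!
  · rw [five_next, five_next]
    have : (m1 : ℂ) + m2 = l1 + l2 + l3 + 4 := by exact_mod_cast hl
    linear_combination -this

end Pool.Agent.Z23
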