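import Pool.Agent.Z23.Sech
import Pool.Agent.Z23.NvAlg
import Pool.Agent.Z3.Nonvan

/-!
Non-vanishing: if `x * J(2M, T R) + y * Iint(M, T R) = 0` for `T = 1, t, ..., t^(d-1)` then `x = y = 0`.
-/

open Polynomial MeasureTheory Finset Filter

namespace Pool.Agent.Z23

open Pool.Agent.Z3 (PolyGrowth Iint Iint_shift Ker Ker_pos line_re line_im line_integrable)
open Pool.Agent.Z3.NV (pg_poly)

/-- the data on the line: `N` real with real roots, double zero at `M`, zero at `M - 1/2`,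
`B` vanishes at `M + 1/2`, the denominator is at least 1 to the right of `M - 1` -/
structure LineData (N D B : ℂ[X]) (M : ℤ) : Prop where
  real : ∀ t : ℂ, N.eval ((starRingEnd ℂ) t) = (starRingEnd ℂ) (N.eval t)
  roots : ∀ t : ℂ, N.eval t = 0 → t.im = 0
  Dge : ∀ t : ℂ, (M : ℝ) - 1 < t.re → 1 ≤ ‖D.eval t‖
  dbl : ∃ N' : ℂ[X], N = (X - C (M : ℂ)) ^ 2 * N'
  half : N.eval ((M : ℂ) - 1 / 2) = 0
  half' : B.eval ((M : ℂ) + 1 / 2) = 0

/-- polynomial times the rational function -/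
noncomputable def RP (N D P : ℂ[X]) (t : ℂ) : ℂ := P.eval t * (N.eval t / D.eval t)

/-- the half plane for `t` -/
def Um (M : ℤ) : Set ℂ := {t : ℂ | (M : ℝ) - 1 < t.re}

/-- the half plane for `u = 2t` -/
def Uu (M : ℤ) : Set ℂ := {t : ℂ | 2 * (M : ℝ) - 2 < t.re}

theorem Um_open (M : ℤ) : IsOpen (Um M) := isOpen_lt continuous_const Complex.continuous_re

theorem Uu_open (M : ℤ) : IsOpen (Uu M) := isOpen_lt continuous_const Complex.continuous_re

theorem half_mem {M : ℤ} {u : ℂ} (hu : u ∈ Uu M) : u / 2 ∈ Um M := by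
  have h1 : 2 * (M : ℝ) - 2 < u.re := hu
  show (M : ℝ) - 1 < (u / 2).re
  rw [Complex.div_ofNat_re]
  linarith

variable {N D A B : ℂ[X]} {e d : ℕ} {M : ℤ}

theorem LineData.Dne (h : LineData N D B M) {t : ℂ} (ht : t ∈ Um M) : D.eval t ≠ 0 := by
  intro h0
  have := h.Dge t ht
  rw [h0, norm_zero] at this
  linarith

theorem LineData.RP_diff (h : LineData N D B M) (P : ℂ[X]) :
    DifferentiableOn ℂ (RP N D P) (Um M) := by
  refine DifferentiableOn.mul (Polynomial.differentiable _).differentiableOn ?_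
  refine DifferentiableOn.div (Polynomial.differentiable _).differentiableOn
    (Polynomial.differentiable _).differentiableOn ?_
  intro t ht
  exact h.Dne ht

theorem LineData.RP_diff2 (h : LineData N D B M) (P : ℂ[X]) :
    DifferentiableOn ℂ (fun u => RP N D P (u / 2)) (Uu M) := by
  refine (h.RP_diff P).comp (differentiableOn_id.div_const 2) ?_
  intro u hu
  exact half_mem hu

theorem LineData.RP_norm (h : LineData N D B M) (P : ℂ[X]) {t : ℂ} (ht : t ∈ Um M) :
    ‖RP N D P t‖ ≤ ‖(P * N).eval t‖ := by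
  have h4 := h.Dge t ht
  have h5 : ‖D.eval t‖⁻¹ ≤ 1 := inv_le_one_of_one_le₀ h4
  unfold RP
  rw [eval_mul, norm_mul, norm_div, norm_mul, div_eq_mul_inv]
  calc ‖P.eval t‖ * (‖N.eval t‖ * ‖D.eval t‖⁻¹) ≤ ‖P.eval t‖ * (‖N.eval t‖ * 1) := by gcongr
    _ = _ := by ring

theorem LineData.RP_growth (h : LineData N D B M) (P : ℂ[X]) {m : ℤ} (hm : M ≤ m) :
    PolyGrowth m (RP N D P) := by
  obtain ⟨C0, k, hk⟩ := pg_poly m (P * N)
  have hm' : (M : ℝ) ≤ m := by exact_mod_cast hm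
  refine ⟨C0, k, fun t h1 h2 => (h.RP_norm P ?_).trans (hk t h1 h2)⟩
  show (M : ℝ) - 1 < t.re
  linarith

theorem LineData.RP_growth2 (h : LineData N D B M) (P : ℂ[X]) {m : ℤ} (hm : 2 * M ≤ m) :
    PolyGrowth m (fun u => RP N D P (u / 2)) := by
  obtain ⟨C0, k, hk⟩ := pg_poly m ((P * N).comp (C (1 / 2) * X))
  have hm' : 2 * (M : ℝ) ≤ m := by exact_mod_cast hm
  refine ⟨C0, k, fun t h1 h2 => (h.RP_norm P ?_).trans ?_⟩
  · apply half_mem
    show 2 * (M : ℝ) - 2 < t.re
    linarith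
  · have h3 := hk t h1 h2
    simp only [eval_comp, eval_mul, eval_C, eval_X] at h3 ⊢
    rw [show (1 / 2 : ℂ) * t = t / 2 by ring] at h3
    exact h3

theorem LineData.RP_int (h : LineData N D B M) (P : ℂ[X]) (m' : ℤ) (hm' : m' = M ∨ m' = M + 1) :
    Integrable (fun y : ℝ => RP N D P ((m' : ℂ) - 1 / 2 + (y : ℂ) * Complex.I) * (Ker y : ℂ)) :=
  line_integrable M (RP N D P) (Um M) (Um_open _)
    (fun t h1 _ => by show (M : ℝ) - 1 < t.re; linarith) (h.RP_diff P) (h.RP_growth P le_rfl) m' hm'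

theorem LineData.RP_int2 (h : LineData N D B M) (P : ℂ[X]) (m m' : ℤ) (hm : 2 * M ≤ m)
    (hm' : m' = m ∨ m' = m + 1) :
    Integrable (fun y : ℝ => (fun u => RP N D P (u / 2))
      ((m' : ℂ) - 1 / 2 + (y : ℂ) * Complex.I) * (Ks y : ℂ)) := by
  have hmr : 2 * (M : ℝ) ≤ m := by exact_mod_cast hm
  exact line1_integrable m (fun u => RP N D P (u / 2)) (Uu M) (Uu_open _)
    (fun t h1 _ => by show 2 * (M : ℝ) - 2 < t.re; linarith) (h.RP_diff2 P) (h.RP_growth2 P hm) m' hm'

theorem RP_shift (hS : ShiftData N D A B e d) (S : ℂ[X]) (t : ℂ) (h1 : D.eval t ≠ 0)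
    (h2 : D.eval (t + 1) ≠ 0) :
    RP N D (ES A B S) t = RP N D (S * B) (t + 1) - RP N D (S * B) t := by
  have hs := congrArg (fun P : ℂ[X] => P.eval t) hS.shift
  simp only [eval_mul, taylor_eval] at hs
  unfold RP ES
  simp only [eval_mul, eval_sub, taylor_eval]
  field_simp
  linear_combination (-(S.eval (t + 1))) * hs

theorem LineData.deriv_zero (h : LineData N D B M) (P : ℂ[X]) :
    deriv (RP N D P) (M : ℂ) = 0 := by
  obtain ⟨N', hN'⟩ := h.dbl
  have e : RP N D P = fun t : ℂ => (t - (M : ℂ)) ^ 2 * (P.eval t * (N'.eval t / D.eval t)) := by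
    funext t
    unfold RP
    rw [hN', eval_mul]
    simp only [eval_pow, eval_sub, eval_X, eval_C]
    ring
  have hmem : (M : ℂ) ∈ Um M := by
    show (M : ℝ) - 1 < ((M : ℂ)).re
    rw [Complex.intCast_re]
    linarith
  have hR : DifferentiableAt ℂ (fun t : ℂ => P.eval t * (N'.eval t / D.eval t)) (M : ℂ) := by
    refine DifferentiableAt.mul (Polynomial.differentiable _).differentiableAt ?_
    exact DifferentiableAt.div (Polynomial.differentiable _).differentiableAt
      (Polynomial.differentiable _).differentiableAt (h.Dne hmem)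
  have h5 : DifferentiableAt ℂ (fun t : ℂ => (t - (M : ℂ)) ^ 2) (M : ℂ) := by fun_prop
  rw [e, deriv_fun_mul h5 hR]
  have h6 : deriv (fun t : ℂ => (t - (M : ℂ)) ^ 2) (M : ℂ) = 0 := by
    have h7 : HasDerivAt (fun t : ℂ => (t - (M : ℂ)) ^ 2)
        ((2 : ℕ) * ((M : ℂ) - (M : ℂ)) ^ (2 - 1) * 1) (M : ℂ) :=
      ((hasDerivAt_id (M : ℂ)).sub_const (M : ℂ)).pow 2
    rw [h7.deriv]
    simp
  rw [h6]
  simp

theorem Iint_ES (h : LineData N D B M) (hS : ShiftData N D A B e d) (S : ℂ[X]) :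
    Iint M (RP N D (ES A B S)) = 0 := by
  have hsh := Iint_shift M (RP N D (S * B)) (Um M) (Um_open _)
    (fun t h1 _ => by show (M : ℝ) - 1 < t.re; linarith) (h.RP_diff _) (h.RP_growth _ le_rfl)
  rw [h.deriv_zero, neg_zero] at hsh
  have hI : Iint M (RP N D (ES A B S)) =
      Iint (M + 1) (RP N D (S * B)) - Iint M (RP N D (S * B)) := by
    unfold Iint
    rw [← integral_sub (h.RP_int _ (M + 1) (Or.inr rfl)) (h.RP_int _ M (Or.inl rfl))]
    refine integral_congr_ae (Filter.Eventually.of_forall ?_)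
    intro y
    have hre : ((M : ℂ) - 1 / 2 + (y : ℂ) * Complex.I).re = (M : ℝ) - 1 / 2 := line_re M y
    have h1 : ((M : ℂ) - 1 / 2 + (y : ℂ) * Complex.I) ∈ Um M := by
      show (M : ℝ) - 1 < _
      rw [hre]; linarith
    have h2 : ((M : ℂ) - 1 / 2 + (y : ℂ) * Complex.I) + 1 ∈ Um M := by
      show (M : ℝ) - 1 < _
      rw [Complex.add_re, hre, Complex.one_re]
      linarith
    have h3 := RP_shift hS S _ (h.Dne h1) (h.Dne h2)
    have h4 : ((M : ℂ) - 1 / 2 + (y : ℂ) * Complex.I) + 1 =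
        (((M + 1 : ℤ) : ℂ) - 1 / 2 + (y : ℂ) * Complex.I) := by push_cast; ring
    show RP N D (ES A B S) ((M : ℂ) - 1 / 2 + (y : ℂ) * Complex.I) * (Ker y : ℂ) = _
    rw [h3, h4]
    ring
  rw [hI]
  linear_combination -hsh

theorem J_ES (h : LineData N D B M) (hS : ShiftData N D A B e d) (S : ℂ[X]) :
    J (2 * M) (fun u => RP N D (ES A B S) (u / 2)) = 0 := by
  have hg := h.RP_diff2 (S * B)
  have s1 := J_shift (2 * M) (fun u => RP N D (S * B) (u / 2)) (Uu M) (Uu_open _)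
    (fun t h1 _ => by show 2 * (M : ℝ) - 2 < t.re; push_cast at h1; linarith) hg
    (h.RP_growth2 _ le_rfl)
  have s2 := J_shift (2 * M + 1) (fun u => RP N D (S * B) (u / 2)) (Uu M) (Uu_open _)
    (fun t h1 _ => by show 2 * (M : ℝ) - 2 < t.re; push_cast at h1; linarith) hg
    (h.RP_growth2 _ (by omega))
  obtain ⟨N', hN'⟩ := h.dbl
  have v1 : RP N D (S * B) ((((2 * M : ℤ)) : ℂ) / 2) = 0 := by
    have : (((2 * M : ℤ)) : ℂ) / 2 = (M : ℂ) := by push_cast; ring
    rw [this]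
    unfold RP
    rw [hN']
    simp
  have v2 : RP N D (S * B) ((((2 * M + 1 : ℤ)) : ℂ) / 2) = 0 := by
    have : (((2 * M + 1 : ℤ)) : ℂ) / 2 = (M : ℂ) + 1 / 2 := by push_cast; ring
    rw [this]
    unfold RP
    rw [eval_mul, h.half']
    simp
  rw [v1] at s1
  rw [v2] at s2
  have hI : J (2 * M) (fun u => RP N D (ES A B S) (u / 2)) =
      J (2 * M + 1 + 1) (fun u => RP N D (S * B) (u / 2)) -
        J (2 * M) (fun u => RP N D (S * B) (u / 2)) := by
    unfold J
    rw [← integral_sub (h.RP_int2 _ (2 * M + 1) (2 * M + 1 + 1) (by omega) (Or.inr rfl))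
      (h.RP_int2 _ (2 * M) (2 * M) le_rfl (Or.inl rfl))]
    refine integral_congr_ae (Filter.Eventually.of_forall ?_)
    intro y
    have hre : (((((2 * M : ℤ)) : ℂ) - 1 / 2 + (y : ℂ) * Complex.I) / 2).re =
        (M : ℝ) - 1 / 4 := by
      rw [Complex.div_ofNat_re, line_re]
      push_cast
      ring
    have h1 : ((((2 * M : ℤ)) : ℂ) - 1 / 2 + (y : ℂ) * Complex.I) / 2 ∈ Um M := by
      show (M : ℝ) - 1 < _
      rw [hre]; linarith
    have h2 : ((((2 * M : ℤ)) : ℂ) - 1 / 2 + (y : ℂ) * Complex.I) / 2 + 1 ∈ Um M := by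
      show (M : ℝ) - 1 < _
      rw [Complex.add_re, hre, Complex.one_re]
      linarith
    have h3 := RP_shift hS S _ (h.Dne h1) (h.Dne h2)
    have h4 : ((((2 * M : ℤ)) : ℂ) - 1 / 2 + (y : ℂ) * Complex.I) / 2 + 1 =
        ((((2 * M + 1 + 1 : ℤ)) : ℂ) - 1 / 2 + (y : ℂ) * Complex.I) / 2 := by push_cast; ring
    show RP N D (ES A B S) (((((2 * M : ℤ)) : ℂ) - 1 / 2 + (y : ℂ) * Complex.I) / 2) *
      (Ks y : ℂ) = _
    rw [h3, h4]
    ring
  rw [hI]
  linear_combination s2 - s1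

/-- the reflected numerator -/
noncomputable def Nref (N : ℂ[X]) (c : ℂ) : ℂ[X] := N.comp (C c - X)

theorem Nref_eval (N : ℂ[X]) (c t : ℂ) : (Nref N c).eval t = N.eval (c - t) := by
  unfold Nref
  rw [eval_comp]
  simp

/-- a nonnegative density with real roots of the numerator has a positive integral -/
theorem pos_integral (h : LineData N D B M) (c s : ℝ) (hs : s ≠ 0) (K : ℝ → ℝ) (hK : ∀ y, 0 < K y)
    (hint : Integrable (fun y : ℝ => ‖N.eval ((c : ℂ) + ((s * y : ℝ) : ℂ) * Complex.I)‖ ^ 2 * K y)) :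
    0 < ∫ y : ℝ, ‖N.eval ((c : ℂ) + ((s * y : ℝ) : ℂ) * Complex.I)‖ ^ 2 * K y := by
  have hnn : ∀ y : ℝ, 0 ≤ ‖N.eval ((c : ℂ) + ((s * y : ℝ) : ℂ) * Complex.I)‖ ^ 2 * K y :=
    fun y => mul_nonneg (by positivity) (hK y).le
  rw [integral_pos_iff_support_of_nonneg hnn hint]
  have hsub : Set.Ioi (0 : ℝ) ⊆ Function.support (fun y : ℝ =>
      ‖N.eval ((c : ℂ) + ((s * y : ℝ) : ℂ) * Complex.I)‖ ^ 2 * K y) := by
    intro y hy
    rw [Set.mem_Ioi] at hy
    rw [Function.mem_support]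
    refine mul_ne_zero (pow_ne_zero 2 ?_) (hK y).ne'
    rw [norm_ne_zero_iff]
    intro h0
    have h1 := h.roots _ h0
    have h2 : ((c : ℂ) + ((s * y : ℝ) : ℂ) * Complex.I).im = s * y := by
      rw [Complex.add_im, Complex.ofReal_im, Complex.im_ofReal_mul, Complex.I_im]
      ring
    rw [h2] at h1
    rcases mul_eq_zero.mp h1 with h3 | h3
    · exact hs h3
    · exact hy.ne' h3
  calc (0 : ENNReal) < volume (Set.Ioi (0 : ℝ)) := by simp
    _ ≤ _ := measure_mono hsub

/-- the double integral kernel part: positivity on the symmetric polynomial -/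
theorem Iint_star (h : LineData N D B M) :
    Iint M (RP N D (D * Nref N (2 * (M : ℂ) - 1))) ≠ 0 := by
  have key : ∀ y : ℝ, RP N D (D * Nref N (2 * (M : ℂ) - 1)) ((M : ℂ) - 1 / 2 + (y : ℂ) * Complex.I) *
      (Ker y : ℂ) = ((‖N.eval ((((M : ℝ) - 1 / 2 : ℝ) : ℂ) + ((1 * y : ℝ) : ℂ) * Complex.I)‖ ^ 2 *
        Ker y : ℝ) : ℂ) := by
    intro y
    have e0 : (((M : ℝ) - 1 / 2 : ℝ) : ℂ) + ((1 * y : ℝ) : ℂ) * Complex.I =
        (M : ℂ) - 1 / 2 + (y : ℂ) * Complex.I := by push_cast; ring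
    rw [e0]
    set t : ℂ := (M : ℂ) - 1 / 2 + (y : ℂ) * Complex.I with ht
    have hre : t.re = (M : ℝ) - 1 / 2 := line_re M y
    have h1 : t ∈ Um M := by show (M : ℝ) - 1 < _; rw [hre]; linarith
    have hd := h.Dne h1
    have hconj : 2 * (M : ℂ) - 1 - t = (starRingEnd ℂ) t := by
      rw [ht]
      simp only [map_add, map_sub, map_mul, map_div₀, map_one, map_ofNat, Complex.conj_ofReal,
        Complex.conj_I, map_intCast]
      ring
    have h2 : RP N D (D * Nref N (2 * (M : ℂ) - 1)) t = (starRingEnd ℂ) (N.eval t) * N.eval t := by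
      unfold RP
      rw [eval_mul, Nref_eval, hconj, h.real]
      field_simp
    rw [h2, Complex.conj_mul']
    push_cast
    ring
  unfold Iint
  rw [integral_congr_ae (Filter.Eventually.of_forall key), integral_complex_ofReal]
  have hint : Integrable (fun y : ℝ =>
      ‖N.eval ((((M : ℝ) - 1 / 2 : ℝ) : ℂ) + ((1 * y : ℝ) : ℂ) * Complex.I)‖ ^ 2 * Ker y) := by
    have h1 := h.RP_int (D * Nref N (2 * (M : ℂ) - 1)) M (Or.inl rfl)
    have h2 := (h1.congr (Filter.Eventually.of_forall key)).re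
    refine h2.congr (Filter.Eventually.of_forall ?_)
    intro y
    exact Complex.ofReal_re _
  have hpos := pos_integral h ((M : ℝ) - 1 / 2) 1 one_ne_zero Ker Ker_pos hint
  exact_mod_cast hpos.ne'

/-- the simple kernel part: positivity on the quarter line -/
theorem J_star (h : LineData N D B M) :
    J (2 * M) (fun u => RP N D (D * Nref N (2 * (M : ℂ) - 1 / 2)) (u / 2)) ≠ 0 := by
  have key : ∀ y : ℝ, (fun u => RP N D (D * Nref N (2 * (M : ℂ) - 1 / 2)) (u / 2))
      ((((2 * M : ℤ)) : ℂ) - 1 / 2 + (y : ℂ) * Complex.I) * (Ks y : ℂ) =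
      ((‖N.eval ((((M : ℝ) - 1 / 4 : ℝ) : ℂ) + ((1 / 2 * y : ℝ) : ℂ) * Complex.I)‖ ^ 2 *
        Ks y : ℝ) : ℂ) := by
    intro y
    have e0 : (((M : ℝ) - 1 / 4 : ℝ) : ℂ) + ((1 / 2 * y : ℝ) : ℂ) * Complex.I =
        ((((2 * M : ℤ)) : ℂ) - 1 / 2 + (y : ℂ) * Complex.I) / 2 := by push_cast; ring
    rw [e0]
    simp only
    set t : ℂ := ((((2 * M : ℤ)) : ℂ) - 1 / 2 + (y : ℂ) * Complex.I) / 2 with ht
    have hre : t.re = (M : ℝ) - 1 / 4 := by
      rw [ht, Complex.div_ofNat_re, line_re]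
      push_cast
      ring
    have h1 : t ∈ Um M := by show (M : ℝ) - 1 < _; rw [hre]; linarith
    have hd := h.Dne h1
    have hconj : 2 * (M : ℂ) - 1 / 2 - t = (starRingEnd ℂ) t := by
      rw [ht]
      simp only [map_add, map_sub, map_mul, map_div₀, map_one, map_ofNat, Complex.conj_ofReal,
        Complex.conj_I, map_intCast]
      push_cast
      ring
    have h2 : RP N D (D * Nref N (2 * (M : ℂ) - 1 / 2)) t =
        (starRingEnd ℂ) (N.eval t) * N.eval t := by
      unfold RP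
      rw [eval_mul, Nref_eval, hconj, h.real]
      field_simp
    rw [h2, Complex.conj_mul']
    push_cast
    ring
  unfold J
  rw [integral_congr_ae (Filter.Eventually.of_forall key), integral_complex_ofReal]
  have hint : Integrable (fun y : ℝ =>
      ‖N.eval ((((M : ℝ) - 1 / 4 : ℝ) : ℂ) + ((1 / 2 * y : ℝ) : ℂ) * Complex.I)‖ ^ 2 * Ks y) := by
    have h1 := h.RP_int2 (D * Nref N (2 * (M : ℂ) - 1 / 2)) (2 * M) (2 * M) le_rfl (Or.inl rfl)
    have h2 := (h1.congr (Filter.Eventually.of_forall key)).re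
    refine h2.congr (Filter.Eventually.of_forall ?_)
    intro y
    exact Complex.ofReal_re _
  have hpos := pos_integral h ((M : ℝ) - 1 / 4) (1 / 2) (by norm_num) Ks Ks_pos hint
  exact_mod_cast hpos.ne'

/-- on the symmetric polynomial the simple kernel integral vanishes -/
theorem J_sym (h : LineData N D B M) :
    J (2 * M) (fun u => RP N D (D * Nref N (2 * (M : ℂ) - 1)) (u / 2)) = 0 := by
  -- the polynomial integrand
  set P : ℂ[X] := (N * Nref N (2 * (M : ℂ) - 1)).comp (C (1 / 2) * X) with hP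
  have hPe : ∀ u : ℂ, P.eval u = N.eval (u / 2) * N.eval (2 * (M : ℂ) - 1 - u / 2) := by
    intro u
    rw [hP, eval_comp, eval_mul, Nref_eval]
    simp only [eval_mul, eval_C, eval_X]
    rw [show (1 / 2 : ℂ) * u = u / 2 by ring]
  have e1 : J (2 * M) (fun u => RP N D (D * Nref N (2 * (M : ℂ) - 1)) (u / 2)) =
      J (2 * M) (fun u => P.eval u) := by
    unfold J
    refine integral_congr_ae (Filter.Eventually.of_forall ?_)
    intro y
    simp only
    have hre : (((((2 * M : ℤ)) : ℂ) - 1 / 2 + (y : ℂ) * Complex.I) / 2).re =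
        (M : ℝ) - 1 / 4 := by
      rw [Complex.div_ofNat_re, line_re]
      push_cast
      ring
    have h1 : ((((2 * M : ℤ)) : ℂ) - 1 / 2 + (y : ℂ) * Complex.I) / 2 ∈ Um M := by
      show (M : ℝ) - 1 < _
      rw [hre]; linarith
    have hd := h.Dne h1
    rw [hPe]
    generalize ((((2 * M : ℤ)) : ℂ) - 1 / 2 + (y : ℂ) * Complex.I) / 2 = t at hd ⊢
    unfold RP
    rw [eval_mul, Nref_eval]
    field_simp
  have s1 := J_shift (2 * M - 1) (fun u => P.eval u) Set.univ isOpen_univ (fun _ _ _ => Set.mem_univ _)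
    (Polynomial.differentiable P).differentiableOn (pg_poly _ P)
  rw [sub_add_cancel] at s1
  have v1 : P.eval (((2 * M - 1 : ℤ)) : ℂ) = 0 := by
    rw [hPe]
    have : (((2 * M - 1 : ℤ)) : ℂ) / 2 = (M : ℂ) - 1 / 2 := by push_cast; ring
    rw [this, h.half, zero_mul]
  rw [v1] at s1
  have e2 : J (2 * M - 1) (fun u => P.eval u) = J (2 * M) (fun u => P.eval u) := by
    unfold J
    rw [← integral_neg_eq_self (fun v : ℝ => P.eval ((((2 * M : ℤ)) : ℂ) - 1 / 2 +
      (v : ℂ) * Complex.I) * (Ks v : ℂ)) volume]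
    refine integral_congr_ae (Filter.Eventually.of_forall ?_)
    intro y
    have hk : Ks (-y) = Ks y := by unfold Ks; rw [mul_neg, Real.cosh_neg]
    simp only
    rw [hk, hPe, hPe]
    have a1 : (((((2 * M : ℤ)) : ℂ) - 1 / 2 + (((-y : ℝ)) : ℂ) * Complex.I) / 2) =
        2 * (M : ℂ) - 1 - ((((2 * M - 1 : ℤ)) : ℂ) - 1 / 2 + (y : ℂ) * Complex.I) / 2 := by
      push_cast; ring
    have a2 : 2 * (M : ℂ) - 1 - ((((2 * M : ℤ)) : ℂ) - 1 / 2 + (((-y : ℝ)) : ℂ) * Complex.I) / 2 =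
        ((((2 * M - 1 : ℤ)) : ℂ) - 1 / 2 + (y : ℂ) * Complex.I) / 2 := by
      push_cast; ring
    rw [a2, a1]
    ring
  rw [e1]
  rw [e2] at s1
  have : (2 : ℂ) * J (2 * M) (fun u => P.eval u) = 0 := by linear_combination s1
  simpa using this

/-- the functional -/
noncomputable def Ph (N D : ℂ[X]) (M : ℤ) (x y : ℂ) (P : ℂ[X]) : ℂ :=
  x * J (2 * M) (fun u => RP N D P (u / 2)) + y * Iint M (RP N D P)

theorem Ph_add (h : LineData N D B M) (x y : ℂ) (P Q : ℂ[X]) :
    Ph N D M x y (P + Q) = Ph N D M x y P + Ph N D M x y Q := by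
  have h1 : Iint M (RP N D (P + Q)) = Iint M (RP N D P) + Iint M (RP N D Q) := by
    unfold Iint
    rw [← integral_add (h.RP_int P _ (Or.inl rfl)) (h.RP_int Q _ (Or.inl rfl))]
    refine integral_congr_ae (Filter.Eventually.of_forall ?_)
    intro y
    simp only [RP, eval_add]
    ring
  have h2 : J (2 * M) (fun u => RP N D (P + Q) (u / 2)) =
      J (2 * M) (fun u => RP N D P (u / 2)) + J (2 * M) (fun u => RP N D Q (u / 2)) := by
    unfold J
    rw [← integral_add (h.RP_int2 P (2 * M) _ le_rfl (Or.inl rfl))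
      (h.RP_int2 Q (2 * M) _ le_rfl (Or.inl rfl))]
    refine integral_congr_ae (Filter.Eventually.of_forall ?_)
    intro y
    simp only [RP, eval_add]
    ring
  unfold Ph
  rw [h1, h2]
  ring

theorem Ph_C_mul (N D : ℂ[X]) (M : ℤ) (x y c : ℂ) (P : ℂ[X]) :
    Ph N D M x y (C c * P) = c * Ph N D M x y P := by
  have h1 : Iint M (RP N D (C c * P)) = c * Iint M (RP N D P) := by
    unfold Iint
    rw [← integral_const_mul]
    refine integral_congr_ae (Filter.Eventually.of_forall ?_)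
    intro y
    simp only [RP, eval_mul, eval_C]
    ring
  have h2 : J (2 * M) (fun u => RP N D (C c * P) (u / 2)) =
      c * J (2 * M) (fun u => RP N D P (u / 2)) := by
    unfold J
    rw [← integral_const_mul]
    refine integral_congr_ae (Filter.Eventually.of_forall ?_)
    intro y
    simp only [RP, eval_mul, eval_C]
    ring
  unfold Ph
  rw [h1, h2]
  ring

theorem Ph_sum (h : LineData N D B M) (x y : ℂ) (s : Finset ℕ) (f : ℕ → ℂ[X]) :
    Ph N D M x y (∑ i ∈ s, f i) = ∑ i ∈ s, Ph N D M x y (f i) := by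
  classical
  induction s using Finset.induction_on with
  | empty =>
    have := Ph_C_mul N D M x y 0 0
    simpa using this
  | insert a s ha ih =>
    rw [sum_insert ha, sum_insert ha, Ph_add h, ih]

theorem Ph_zero_of (h : LineData N D B M) (hS : ShiftData N D A B e d) (x y : ℂ)
    (hv : ∀ j < d, Ph N D M x y (X ^ j) = 0) (W : ℂ[X]) : Ph N D M x y (D * W) = 0 := by
  obtain ⟨S, q, h1, h2⟩ := hS.decomp (D * W)
  have h3 := hS.top_zero W S q h1 h2
  have hq : Ph N D M x y q = 0 := by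
    have h4 := q.as_sum_range_C_mul_X_pow' (show q.natDegree < d + 1 by omega)
    rw [sum_range_succ, h3] at h4
    rw [h4, C_0, zero_mul, add_zero, Ph_sum h]
    refine sum_eq_zero ?_
    intro j hj
    rw [Ph_C_mul, hv j (mem_range.mp hj), mul_zero]
  have hES : Ph N D M x y (ES A B S) = 0 := by
    unfold Ph
    rw [Iint_ES h hS S, J_ES h hS S]
    ring
  rw [h1, Ph_add h, hq, hES, add_zero]

/-- **Non-vanishing.** -/
theorem nonvanish (h : LineData N D B M) (hS : ShiftData N D A B e d) (x y : ℂ)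
    (hv : ∀ j < d, x * J (2 * M) (fun u => (u / 2) ^ j * (N.eval (u / 2) / D.eval (u / 2))) +
      y * Iint M (fun t => t ^ j * (N.eval t / D.eval t)) = 0) : x = 0 ∧ y = 0 := by
  have hv' : ∀ j < d, Ph N D M x y (X ^ j) = 0 := by
    intro j hj
    have := hv j hj
    unfold Ph RP
    simpa only [eval_pow, eval_X] using this
  have a1 := Ph_zero_of h hS x y hv' (Nref N (2 * (M : ℂ) - 1))
  have a2 := Ph_zero_of h hS x y hv' (Nref N (2 * (M : ℂ) - 1 / 2))
  unfold Ph at a1 a2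
  rw [J_sym h, mul_zero, zero_add] at a1
  have hy : y = 0 := (mul_eq_zero.mp a1).resolve_right (Iint_star h)
  rw [hy, zero_mul, add_zero] at a2
  exact ⟨(mul_eq_zero.mp a2).resolve_right (J_star h), hy⟩

end Pool.Agent.Z23
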