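import Pool.Agent.Z3.PF
import Pool.Agent.Z23.GDefs

/-!
# Partial fractions of P / (prod_{K1} (t+i) prod_{K2} (t+i)) for a general numerator
-/

open Finset Polynomial

namespace Pool.Agent.Z23

open Pool.Agent.Z3.PFaux (LX LD LD_LX monic_LX natDegree_LX eval_LX LX_erase key_double key_simple
  prod_ne)

/-- the coefficient of 1/(t+k)^2 -/
noncomputable def cA (P : ℚ[X]) (K1 K2 : Finset ℕ) (k : ℕ) : ℚ :=
  if k ∈ K2 then P.eval (-(k : ℚ)) / (dK K1 k * dK K2 k) else 0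

/-- the coefficient of 1/(t+k) -/
noncomputable def cB (P : ℚ[X]) (K1 K2 : Finset ℕ) (k : ℕ) : ℚ :=
  if k ∈ K2 then (P.derivative.eval (-(k : ℚ)) - P.eval (-(k : ℚ)) * (lK K1 k + lK K2 k)) /
    (dK K1 k * dK K2 k)
  else P.eval (-(k : ℚ)) / (dK K1 k * dK K2 k)

theorem dK_ne (K : Finset ℕ) (k : ℕ) : dK K k ≠ 0 := prod_ne _ k (by simp)

/-- numerator over the square of the linear factors -/
noncomputable def PY (P : ℚ[X]) (K1 K2 : Finset ℕ) : ℚ[X] := P * LX (K1 \ K2)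

noncomputable def EY (K1 : Finset ℕ) (k : ℕ) : ℚ[X] := LX (K1.erase k) * LX (K1.erase k)

noncomputable def TY (P : ℚ[X]) (K1 K2 : Finset ℕ) (k : ℕ) : ℚ[X] :=
  (C (cA P K1 K2 k) + C (cB P K1 K2 k) * (X + C (k : ℚ))) * EY K1 k

theorem sq_dvd' (D : ℚ[X]) (c : ℚ) (h0 : D.eval (-c) = 0) (h1 : D.derivative.eval (-c) = 0) :
    (X + C c) ^ 2 ∣ D := by
  have := Pool.Agent.Z3.PFaux.sq_dvd D (-c) h0 h1
  simpa using this

theorem local_double' (P : ℚ[X]) (K1 K2 : Finset ℕ) (hK : K2 ⊆ K1) (k : ℕ) (hk : k ∈ K2) :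
    (X + C (k : ℚ)) ^ 2 ∣ PY P K1 K2 - TY P K1 K2 k := by
  have hk1 : k ∈ K1 := hK hk
  have m4 : k ∉ K1 \ K2 := fun h => (Finset.mem_sdiff.1 h).2 hk
  have m5 : k ∉ K1.erase k := by simp
  have h4 := LD_LX _ k m4
  have h5 := LD_LX _ k m5
  have hE := h5.mul h5
  have hsplit : (K1 \ K2) ∪ K2.erase k = K1.erase k := by
    ext i
    simp only [Finset.mem_union, Finset.mem_sdiff, Finset.mem_erase]
    constructor
    · rintro (⟨h1, h2⟩ | ⟨h1, h2⟩)
      · exact ⟨fun h => h2 (h ▸ hk), h1⟩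
      · exact ⟨h1, hK h2⟩
    · rintro ⟨h1, h2⟩
      by_cases h3 : i ∈ K2
      · exact Or.inr ⟨h1, h3⟩
      · exact Or.inl ⟨h2, h3⟩
  have hdis : Disjoint (K1 \ K2) (K2.erase k) := by
    rw [Finset.disjoint_left]
    intro i hi hi'
    exact (Finset.mem_sdiff.1 hi).2 (Finset.mem_of_mem_erase hi')
  have hprod : dK K1 k = (∏ i ∈ K1 \ K2, ((i : ℚ) - k)) * dK K2 k := by
    rw [dK, dK, ← Finset.prod_union hdis, hsplit]
  have hsum : lK K1 k = (∑ i ∈ K1 \ K2, 1 / ((i : ℚ) - k)) + lK K2 k := by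
    rw [lK, lK, ← Finset.sum_union hdis, hsplit]
  have q1 := prod_ne _ k m4
  have q2 := dK_ne K2 k
  have q3 := dK_ne K1 k
  have d1 : ∏ i ∈ K1.erase k, ((i : ℚ) - k) = dK K1 k := rfl
  have s1 : ∑ i ∈ K1.erase k, 1 / ((i : ℚ) - k) = lK K1 k := rfl
  rw [d1, s1] at hE
  set D1 := dK K1 k with hD1
  set D2 := dK K2 k with hD2
  set D3 := ∏ i ∈ K1 \ K2, ((i : ℚ) - k) with hD3
  set S3 := ∑ i ∈ K1 \ K2, 1 / ((i : ℚ) - k) with hS3
  have hA : cA P K1 K2 k * (D1 * D1) = P.eval (-(k : ℚ)) * D3 := by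
    rw [cA, if_pos hk, ← hD1, ← hD2, hprod]
    field_simp
  have hB : cB P K1 K2 k * (D1 * D1) + cA P K1 K2 k * (D1 * D1) * (lK K1 k + lK K1 k) =
      P.derivative.eval (-(k : ℚ)) * D3 + P.eval (-(k : ℚ)) * (D3 * S3) := by
    rw [hA, cB, if_pos hk, ← hD1, ← hD2, hsum, hprod]
    field_simp
    ring
  have hE' : LD (EY K1 k) (-(k : ℚ)) (D1 * D1) (lK K1 k + lK K1 k) := hE
  apply sq_dvd'
  · rw [eval_sub, PY, TY, eval_mul, h4.val, eval_mul, hE'.val]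
    simp only [eval_add, eval_mul, eval_C, eval_X, neg_add_cancel, mul_zero, add_zero]
    rw [hA, sub_self]
  · rw [derivative_sub, eval_sub, PY, TY, derivative_mul, eval_add, eval_mul, eval_mul, h4.val,
      h4.der, derivative_mul, eval_add, eval_mul, eval_mul, hE'.val, hE'.der]
    simp only [derivative_add, derivative_mul, derivative_X, derivative_C, eval_add, eval_mul,
      eval_C, eval_X, neg_add_cancel, mul_zero, add_zero, zero_mul, zero_add, mul_one]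
    linear_combination -hB

theorem local_simple' (P : ℚ[X]) (K1 K2 : Finset ℕ) (hK : K2 ⊆ K1) (k : ℕ) (hk1 : k ∈ K1)
    (hk : k ∉ K2) : (X + C (k : ℚ)) ^ 2 ∣ PY P K1 K2 - TY P K1 K2 k := by
  have m5 : k ∉ K1.erase k := by simp
  have m7 : k ∉ (K1 \ K2).erase k := by simp
  have h7 := LD_LX _ k m7
  have h5 := LD_LX _ k m5
  have hE := h5.mul h5
  have hmem : k ∈ K1 \ K2 := Finset.mem_sdiff.2 ⟨hk1, hk⟩
  have hsplit : (K1 \ K2).erase k ∪ K2 = K1.erase k := by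
    ext i
    simp only [Finset.mem_union, Finset.mem_sdiff, Finset.mem_erase]
    constructor
    · rintro (⟨h1, h2, h3⟩ | h2)
      · exact ⟨h1, h2⟩
      · exact ⟨fun h => hk (h ▸ h2), hK h2⟩
    · rintro ⟨h1, h2⟩
      by_cases h3 : i ∈ K2
      · exact Or.inr h3
      · exact Or.inl ⟨h1, h2, h3⟩
  have hdis : Disjoint ((K1 \ K2).erase k) K2 := by
    rw [Finset.disjoint_left]
    intro i hi hi'
    exact (Finset.mem_sdiff.1 (Finset.mem_of_mem_erase hi)).2 hi'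
  have he : K2.erase k = K2 := Finset.erase_eq_of_notMem hk
  have hprod : dK K1 k = (∏ i ∈ (K1 \ K2).erase k, ((i : ℚ) - k)) * dK K2 k := by
    rw [dK, dK, he, ← Finset.prod_union hdis, hsplit]
  have q1 := prod_ne _ k m7
  have q2 := dK_ne K2 k
  have q3 := dK_ne K1 k
  have d1 : ∏ i ∈ K1.erase k, ((i : ℚ) - k) = dK K1 k := rfl
  rw [d1] at hE
  set D1 := dK K1 k with hD1
  set D2 := dK K2 k with hD2
  set D3 := ∏ i ∈ (K1 \ K2).erase k, ((i : ℚ) - k) with hD3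
  have hB : cB P K1 K2 k * (D1 * D1) = P.eval (-(k : ℚ)) * D3 := by
    rw [cB, if_neg hk, ← hD1, ← hD2, hprod]
    field_simp
  have hPX : PY P K1 K2 = (X + C (k : ℚ)) * (P * LX ((K1 \ K2).erase k)) := by
    rw [PY, LX_erase (K1 \ K2) k hmem]
    ring
  have hA : cA P K1 K2 k = 0 := by rw [cA, if_neg hk]
  have hf : PY P K1 K2 - TY P K1 K2 k =
      (X + C (k : ℚ)) * (P * LX ((K1 \ K2).erase k) - C (cB P K1 K2 k) * EY K1 k) := by
    rw [hPX, TY, hA, C_0]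
    ring
  rw [hf, pow_two]
  apply mul_dvd_mul_left
  have h2 : X + C (k : ℚ) = X - C (-(k : ℚ)) := by simp
  rw [h2, dvd_iff_isRoot, IsRoot, eval_sub, eval_mul, eval_mul, h7.val, EY, hE.val, eval_C, hB,
    sub_self]

theorem EY_dvd (K1 : Finset ℕ) (k k' : ℕ) (hk : k ∈ K1) (h : k ≠ k') :
    (X + C (k : ℚ)) ^ 2 ∣ EY K1 k' := by
  have h1 : k ∈ K1.erase k' := Finset.mem_erase.2 ⟨h, hk⟩
  rw [EY, LX_erase _ k h1]
  exact ⟨LX ((K1.erase k').erase k) ^ 2, by ring⟩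

/-- the difference of the two sides -/
noncomputable def DY (P : ℚ[X]) (K1 K2 : Finset ℕ) : ℚ[X] := PY P K1 K2 - ∑ k ∈ K1, TY P K1 K2 k

theorem DY_local (P : ℚ[X]) (K1 K2 : Finset ℕ) (hK : K2 ⊆ K1) (k : ℕ) (hk : k ∈ K1) :
    (X + C (k : ℚ)) ^ 2 ∣ DY P K1 K2 := by
  rw [DY, ← Finset.add_sum_erase _ _ hk, ← sub_sub]
  apply dvd_sub
  · by_cases h : k ∈ K2
    · exact local_double' P K1 K2 hK k h
    · exact local_simple' P K1 K2 hK k hk h
  · apply Finset.dvd_sum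
    intro k' hk'
    exact Dvd.dvd.mul_left (EY_dvd K1 k k' hk (Finset.ne_of_mem_erase hk').symm) _

theorem DY_dvd (P : ℚ[X]) (K1 K2 : Finset ℕ) (hK : K2 ⊆ K1) : LX K1 ^ 2 ∣ DY P K1 K2 := by
  rw [LX, ← Finset.prod_pow]
  apply Finset.prod_dvd_of_coprime
  · intro i _ i' _ hii
    apply IsCoprime.pow
    have hne : (i : ℚ) - i' ≠ 0 := by
      intro h
      exact hii (by exact_mod_cast (sub_eq_zero.1 h))
    refine ⟨C (((i : ℚ) - i')⁻¹), -C (((i : ℚ) - i')⁻¹), ?_⟩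
    have : C (((i : ℚ) - i')⁻¹) * (X + C (i : ℚ)) + -C (((i : ℚ) - i')⁻¹) * (X + C (i' : ℚ)) =
        C (((i : ℚ) - i')⁻¹ * ((i : ℚ) - i')) := by
      rw [C_mul, C_sub]
      ring
    rw [this, inv_mul_cancel₀ hne, C_1]
  · intro k hk
    exact DY_local P K1 K2 hK k hk

theorem monic_EY (K1 : Finset ℕ) (k : ℕ) : (EY K1 k).Monic := (monic_LX _).mul (monic_LX _)

theorem natDegree_EY (K1 : Finset ℕ) (k : ℕ) (hk : k ∈ K1) :
    (EY K1 k).natDegree + 2 = 2 * K1.card := by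
  have h : 0 < K1.card := Finset.card_pos.2 ⟨k, hk⟩
  rw [EY, (monic_LX _).natDegree_mul (monic_LX _), natDegree_LX, Finset.card_erase_of_mem hk]
  omega

theorem degree_TY (P : ℚ[X]) (K1 K2 : Finset ℕ) (k : ℕ) (hk : k ∈ K1) :
    (TY P K1 K2 k).natDegree < 2 * K1.card := by
  have h0 := natDegree_EY K1 k hk
  have h1 : (C (cA P K1 K2 k) + C (cB P K1 K2 k) * (X + C (k : ℚ))).natDegree ≤ 1 := by
    compute_degree
  have h2 : (TY P K1 K2 k).natDegree ≤ 1 + (EY K1 k).natDegree := by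
    rw [TY]
    exact natDegree_mul_le.trans (Nat.add_le_add_right h1 _)
  omega

theorem degree_PY (P : ℚ[X]) (K1 K2 : Finset ℕ) (hK : K2 ⊆ K1) (m : ℕ)
    (hP : P.natDegree + m ≤ K1.card + K2.card) : (PY P K1 K2).natDegree + m ≤ 2 * K1.card := by
  have h1 : (PY P K1 K2).natDegree ≤ P.natDegree + (K1.card - K2.card) := by
    rw [PY]
    refine natDegree_mul_le.trans ?_
    rw [natDegree_LX, Finset.card_sdiff_of_subset hK]
  have h2 := Finset.card_le_card hK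
  omega

theorem DY_zero (P : ℚ[X]) (K1 K2 : Finset ℕ) (hK : K2 ⊆ K1) (hne : K1.Nonempty)
    (hP : P.natDegree < K1.card + K2.card) : DY P K1 K2 = 0 := by
  by_contra h
  have h1 := natDegree_le_of_dvd (DY_dvd P K1 K2 hK) h
  rw [(monic_LX _).natDegree_pow, natDegree_LX] at h1
  have h0 : 0 < K1.card := Finset.card_pos.2 hne
  have h3 := degree_PY P K1 K2 hK 1 hP
  have h2 : (DY P K1 K2).natDegree ≤ 2 * K1.card - 1 := by
    rw [DY]
    refine (natDegree_sub_le _ _).trans (max_le (by omega) ?_)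
    refine natDegree_sum_le_of_forall_le _ _ fun k hk => ?_
    have := degree_TY P K1 K2 k hk
    omega
  omega

theorem PY_sum (P : ℚ[X]) (K1 K2 : Finset ℕ) (hK : K2 ⊆ K1) (hne : K1.Nonempty)
    (hP : P.natDegree < K1.card + K2.card) : PY P K1 K2 = ∑ k ∈ K1, TY P K1 K2 k :=
  sub_eq_zero.1 (DY_zero P K1 K2 hK hne hP)

theorem coeff_TY (P : ℚ[X]) (K1 K2 : Finset ℕ) (k : ℕ) (hk : k ∈ K1) :
    (TY P K1 K2 k).coeff (2 * K1.card - 1) = cB P K1 K2 k := by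
  have h0 := natDegree_EY K1 k hk
  have h : TY P K1 K2 k = C (cB P K1 K2 k) * (EY K1 k * X) +
      C (cA P K1 K2 k + cB P K1 K2 k * k) * EY K1 k := by
    rw [TY]
    simp only [C_add, C_mul]
    ring
  have e : 2 * K1.card - 1 = (EY K1 k).natDegree + 1 := by omega
  have h1 : (EY K1 k).coeff ((EY K1 k).natDegree) = 1 := monic_EY K1 k
  have h2 : (EY K1 k).coeff ((EY K1 k).natDegree + 1) = 0 :=
    coeff_eq_zero_of_natDegree_lt (Nat.lt_succ_self _)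
  rw [e, h, coeff_add, coeff_C_mul, coeff_C_mul, h2, mul_zero, add_zero, coeff_mul_X, h1, mul_one]

/-- partial fractions -/
theorem pf {F : Type*} [Field F] [CharZero F] (P : ℚ[X]) (K1 K2 : Finset ℕ) (hK : K2 ⊆ K1)
    (hP : P.natDegree < K1.card + K2.card) (t : F) (ht : ∀ k ∈ K1, t + (k : F) ≠ 0) :
    P.eval₂ (Rat.castHom F) t / ((∏ i ∈ K1, (t + (i : F))) * ∏ i ∈ K2, (t + (i : F))) =
      ∑ k ∈ K1, ((cA P K1 K2 k : F) / (t + (k : F)) ^ 2 + (cB P K1 K2 k : F) / (t + (k : F))) := by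
  have hne : K1.Nonempty := by
    rw [Finset.nonempty_iff_ne_empty]
    rintro rfl
    have : K2 = ∅ := Finset.subset_empty.1 hK
    rw [this] at hP
    simp at hP
  have h := congrArg (fun P : ℚ[X] => P.eval₂ (Rat.castHom F) t) (PY_sum P K1 K2 hK hne hP)
  simp only [PY, TY, EY, eval₂_mul, eval_LX, eval₂_finsetSum, eval₂_add, eval₂_C, eval₂_X] at h
  simp only [Rat.coe_castHom, Rat.cast_natCast] at h
  have hE : ∏ i ∈ K1, (t + (i : F)) ≠ 0 := Finset.prod_ne_zero_iff.2 ht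
  have hsplit : ∏ i ∈ K1, (t + (i : F)) = (∏ i ∈ K1 \ K2, (t + (i : F))) * ∏ i ∈ K2, (t + (i : F)) :=
    (Finset.prod_sdiff hK).symm
  have hE1 : ∏ i ∈ K1 \ K2, (t + (i : F)) ≠ 0 := fun h0 => hE (by rw [hsplit, h0, zero_mul])
  have hE2 : ∏ i ∈ K2, (t + (i : F)) ≠ 0 := fun h0 => hE (by rw [hsplit, h0, mul_zero])
  have hG : P.eval₂ (Rat.castHom F) t / ((∏ i ∈ K1, (t + (i : F))) * ∏ i ∈ K2, (t + (i : F))) =
      (P.eval₂ (Rat.castHom F) t * ∏ i ∈ K1 \ K2, (t + (i : F))) / (∏ i ∈ K1, (t + (i : F))) ^ 2 := by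
    rw [hsplit]
    field_simp
  rw [hG, h, Finset.sum_div]
  apply Finset.sum_congr rfl
  intro k hk
  have hk0 := ht k hk
  have hkE : ∏ i ∈ K1.erase k, (t + (i : F)) ≠ 0 :=
    Finset.prod_ne_zero_iff.2 fun i hi => ht i (Finset.mem_of_mem_erase hi)
  rw [← Finset.mul_prod_erase K1 (fun i => (t + (i : F))) hk]
  field_simp

/-- the sum of the residues -/
theorem sum_cB (P : ℚ[X]) (K1 K2 : Finset ℕ) (hK : K2 ⊆ K1)
    (hP : P.natDegree + 2 ≤ K1.card + K2.card) : ∑ k ∈ K1, cB P K1 K2 k = 0 := by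
  have hne : K1.Nonempty := by
    rw [Finset.nonempty_iff_ne_empty]
    rintro rfl
    have : K2 = ∅ := Finset.subset_empty.1 hK
    rw [this] at hP
    simp at hP
  have h0 : 0 < K1.card := Finset.card_pos.2 hne
  have h := congrArg (fun P : ℚ[X] => P.coeff (2 * K1.card - 1)) (PY_sum P K1 K2 hK hne (by omega))
  simp only [finsetSum_coeff] at h
  have h1 := degree_PY P K1 K2 hK 2 hP
  rw [coeff_eq_zero_of_natDegree_lt (by omega)] at h
  rw [h]
  exact Finset.sum_congr rfl fun k hk => (coeff_TY P K1 K2 k hk).symm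

end Pool.Agent.Z23
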