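import Pool.Agent.Z23.StructG
import Pool.Agent.Z23.PSumG

/-!
# The counting function phi on a cell, parameter-free

Points `c * n + h * hh p + e` (h = 0 or 1, e small).  The order of their residues mod p and the
quotients depend only on the cell that contains n/p mod 1; they are read off from a sample N0/P0.
-/

open Finset
open scoped BigOperators

namespace Pool.Agent.Z23

/-- an end point of a block: multiplier of n, half flag, offset -/
structure Pt where
  c : ℕ
  h : ℕ
  e : ℕ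
  deriving DecidableEq

/-- the actual end point -/
def Pt.val (x : Pt) (n p : ℕ) : ℕ := x.c * n + x.h * hh p + x.e

/-- twice the end point in the model N/P, modulus 2P -/
def Pt.mv (x : Pt) (N P : ℕ) : ℕ := 2 * x.c * N + x.h * P

/-- contribution of an end point -/
def Pt.ct (x : Pt) (n p s : ℕ) : ℤ :=
  ((x.val n p / p : ℕ) : ℤ) + if s < x.val n p % p then 1 else 0

/-- contribution in the model -/
def Pt.ct0 (x : Pt) (N P t : ℕ) : ℤ :=
  ((x.mv N P / (2 * P) : ℕ) : ℤ) + if t < x.mv N P % (2 * P) then 1 else 0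

/-- zeros minus poles in the class s -/
def phiP (al be : List Pt) (n p s : ℕ) : ℤ :=
  (al.map (fun x => x.ct n p s)).sum - (be.map (fun x => x.ct n p s)).sum

/-- the same in the model -/
def phiP0 (al be : List Pt) (N P t : ℕ) : ℤ :=
  (al.map (fun x => x.ct0 N P t)).sum - (be.map (fun x => x.ct0 N P t)).sum

/-- no number of the form (2m - h)/(2d) lies in the cell -/
def dchk (x : Cell) (N P d h : ℕ) : Bool :=
  decide ((2 * d * N + h * P) / (2 * P) * (2 * x.b) ≤ 2 * d * x.a + h * x.b) &&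
    decide (2 * d * x.c + h * x.d ≤ ((2 * d * N + h * P) / (2 * P) + 1) * (2 * x.d))

/-- the complete check of a cell with lower bound m for phi -/
def cellChk (al be : List Pt) (x : Cell) (N P : ℕ) (m : ℤ) : Bool :=
  decide (0 < P) && decide (0 < x.b) && decide (0 < x.d) &&
  ((al ++ be).all fun y => dchk x N P y.c y.h && (al ++ be).all fun z =>
    decide (y.c < z.c) || dchk x N P (y.c - z.c) ((y.h + z.h) % 2)) &&
  decide (((al ++ be).map (fun y => y.mv N P % (2 * P))).Nodup) &&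
  ((al ++ be).all fun y => decide (m ≤ phiP0 al be N P (y.mv N P % (2 * P))))

/-- conditions on the lists of end points -/
structure PtsOK (al be : List Pt) (L E : ℕ) : Prop where
  hc : ∀ y ∈ al ++ be, 2 * y.c ≤ L
  hh : ∀ y ∈ al ++ be, y.h ≤ 1
  he : ∀ y ∈ al ++ be, y.h + 2 * y.e ≤ E
  h0 : (⟨0, 0, 0⟩ : Pt) ∈ al ++ be
  hbal : (al.map Pt.c).sum = (be.map Pt.c).sum

section Core

variable {n p : ℕ} {x : Cell} {N P : ℕ}

/-- the quotient of the main part -/
theorem main_quot (hx : x.Mem (n % p) p) (hb : 0 < x.b) (hd : 0 < x.d) (hp : 0 < p) {d h : ℕ} (hh1 : h ≤ 1)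
    (hc : dchk x N P d h = true) :
    (2 * d * N + h * P) / (2 * P) * (2 * p) ≤ 2 * d * (n % p) + h * p ∧
      2 * d * (n % p) + h * p < ((2 * d * N + h * P) / (2 * P) + 1) * (2 * p) := by
  unfold dchk at hc
  simp only [Bool.and_eq_true, decide_eq_true_eq] at hc
  obtain ⟨h1, h2⟩ := hc
  obtain ⟨m1, m2⟩ := hx
  set q := (2 * d * N + h * P) / (2 * P) with hq
  set r := n % p with hr
  constructor
  · have h3 : q * (2 * p) * x.b ≤ (2 * d * r + h * p) * x.b := by
      calc q * (2 * p) * x.b = q * (2 * x.b) * p := by ring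
        _ ≤ (2 * d * x.a + h * x.b) * p := Nat.mul_le_mul_right _ h1
        _ = 2 * d * (x.a * p) + h * x.b * p := by ring
        _ ≤ 2 * d * (r * x.b) + h * x.b * p := by
            have := Nat.mul_le_mul_left (2 * d) m1.le
            omega
        _ = _ := by ring
    exact Nat.le_of_mul_le_mul_right h3 hb
  · rcases Nat.eq_zero_or_pos d with h0 | h0
    · subst h0
      have h4 : h * p ≤ 1 * p := Nat.mul_le_mul_right _ hh1
      have h5 : 1 * (2 * p) ≤ (q + 1) * (2 * p) := Nat.mul_le_mul_right _ (Nat.le_add_left 1 q)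
      rw [Nat.mul_zero, Nat.zero_mul, Nat.zero_add]
      omega
    · have h3 : (2 * d * r + h * p) * x.d < ((q + 1) * (2 * p)) * x.d := by
        calc (2 * d * r + h * p) * x.d = 2 * d * (r * x.d) + h * x.d * p := by ring
          _ < 2 * d * (x.c * p) + h * x.d * p := by
              have := Nat.mul_lt_mul_of_pos_left m2 (k := 2 * d) (by omega)
              omega
          _ = (2 * d * x.c + h * x.d) * p := by ring
          _ ≤ (q + 1) * (2 * x.d) * p := Nat.mul_le_mul_right _ h2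
          _ = _ := by ring
      exact Nat.lt_of_mul_lt_mul_right h3

/-- p does not divide 2 d n + e -/
theorem good_no {L E : ℕ} (hg : GoodG L E n p) {d : ℕ} (h1 : 1 ≤ d) (h2 : 2 * d ≤ L) {D e : ℤ}
    (he : |e| ≤ E) (hD : ∃ k : ℤ, D = 2 * d * ((n % p : ℕ) : ℤ) + k * p) : D ≠ e := by
  rintro rfl
  obtain ⟨k, hk⟩ := hD
  refine hg (2 * d) (by omega) h2 (-D) (by rwa [abs_neg]) ?_
  refine ⟨2 * d * ((n / p : ℕ) : ℤ) - k, ?_⟩
  have h3 : (p : ℤ) * ((n / p : ℕ) : ℤ) + ((n % p : ℕ) : ℤ) = n := by exact_mod_cast Nat.div_add_mod n p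
  rw [hk]
  generalize n % p = r at h3 ⊢
  generalize n / p = q at h3 ⊢
  push_cast
  linear_combination (-2 * (d : ℤ)) * h3

/-- twice the end point with n replaced by its residue -/
theorem two_vr (hp : p.Prime) (h2 : p ≠ 2) (y : Pt) :
    2 * (y.c * (n % p) + y.h * hh p + y.e) = 2 * y.c * (n % p) + y.h * p + (y.h + 2 * y.e) := by
  have h := two_hh hp h2
  have : 2 * (y.c * (n % p) + y.h * hh p + y.e) = 2 * y.c * (n % p) + y.h * (2 * hh p) + 2 * y.e := by
    ring
  rw [this, h]
  ring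

theorem val_eq (y : Pt) : y.val n p = (y.c * (n % p) + y.h * hh p + y.e) + p * (y.c * (n / p)) := by
  unfold Pt.val
  conv_lhs => rw [← Nat.div_add_mod n p]
  ring

/-- quotient and residue of an end point -/
theorem val_quot {L E : ℕ} (hp : p.Prime) (h2 : p ≠ 2) (hEp : E < p) (hg : GoodG L E n p)
    (hx : x.Mem (n % p) p) (hb : 0 < x.b) (hd : 0 < x.d)
    (y : Pt) (hyc : 2 * y.c ≤ L) (hyh : y.h ≤ 1) (hye : y.h + 2 * y.e ≤ E)
    (hc : dchk x N P y.c y.h = true) :
    y.val n p / p = y.c * (n / p) + y.mv N P / (2 * P) ∧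
      2 * (y.val n p % p) + y.mv N P / (2 * P) * (2 * p) =
        2 * y.c * (n % p) + y.h * p + (y.h + 2 * y.e) := by
  have hp0 := hp.pos
  obtain ⟨a1, a2⟩ := main_quot hx hb hd hp0 hyh hc
  have hmv : (2 * y.c * N + y.h * P) / (2 * P) = y.mv N P / (2 * P) := rfl
  rw [hmv] at a1 a2
  set q := y.mv N P / (2 * P) with hq
  set v := y.c * (n % p) + y.h * hh p + y.e with hv
  have h3 : 2 * v = 2 * y.c * (n % p) + y.h * p + (y.h + 2 * y.e) := two_vr hp h2 y
  have hlt : 2 * v < (q + 1) * (2 * p) := by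
    by_contra hcon
    push Not at hcon
    rcases Nat.eq_zero_or_pos y.c with h0 | h0
    · rw [h0, Nat.mul_zero, Nat.zero_mul, Nat.zero_add] at h3
      have h5 : 1 * (2 * p) ≤ (q + 1) * (2 * p) := Nat.mul_le_mul_right _ (Nat.le_add_left 1 q)
      have h6 : y.h * p ≤ 1 * p := Nat.mul_le_mul_right _ hyh
      omega
    · refine good_no hg h0 hyc (D := 2 * y.c * ((n % p : ℕ) : ℤ) + ((y.h : ℤ) - 2 * (q + 1)) * p)
        (e := 2 * y.c * ((n % p : ℕ) : ℤ) + ((y.h : ℤ) - 2 * (q + 1)) * p) ?_ ⟨_, rfl⟩ rfl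
      have a2' : 2 * (y.c : ℤ) * ((n % p : ℕ) : ℤ) + y.h * p < ((q : ℤ) + 1) * (2 * p) := by
        exact_mod_cast a2
      have hcon' : ((q : ℤ) + 1) * (2 * p) ≤ 2 * (y.c : ℤ) * ((n % p : ℕ) : ℤ) + y.h * p +
          ((y.h : ℤ) + 2 * y.e) := by
        rw [h3] at hcon
        exact_mod_cast hcon
      have hye' : (y.h : ℤ) + 2 * y.e ≤ E := by exact_mod_cast hye
      rw [abs_le]
      constructor
      · linarith
      · have : (0 : ℤ) ≤ E := by positivity
        linarith
  have h4 : v / p = q := by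
    rw [Nat.div_eq_iff hp0]
    have e1 : q * (2 * p) = 2 * (q * p) := by ring
    have e2 : (q + 1) * (2 * p) = 2 * (q * p + p) := by ring
    have e3 : (q + 1) * p = q * p + p := by ring
    omega
  have hval := val_eq (n := n) (p := p) y
  rw [← hv] at hval
  constructor
  · rw [hval, Nat.add_mul_div_left _ _ hp0, h4, Nat.add_comm]
  · rw [hval, Nat.add_mul_mod_self_left]
    have h5 := Nat.div_add_mod v p
    rw [h4] at h5
    have e1 : q * (2 * p) = 2 * (p * q) := by ring
    omega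

/-- the order of two residues is the order in the model -/
theorem order_aux {L E : ℕ} (hp : p.Prime) (h2 : p ≠ 2) (hEp : E < p) (hg : GoodG L E n p)
    (hx : x.Mem (n % p) p) (hb : 0 < x.b) (hd : 0 < x.d) (hP : 0 < P)
    (y z : Pt) (hyc : 2 * y.c ≤ L) (hyh : y.h ≤ 1) (hye : y.h + 2 * y.e ≤ E)
    (hzc : 2 * z.c ≤ L) (hzh : z.h ≤ 1) (hze : z.h + 2 * z.e ≤ E)
    (hy : dchk x N P y.c y.h = true) (hz : dchk x N P z.c z.h = true)
    (hcc : z.c ≤ y.c) (hyz : dchk x N P (y.c - z.c) ((y.h + z.h) % 2) = true)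
    (hne : y.mv N P % (2 * P) ≠ z.mv N P % (2 * P)) :
    (y.val n p % p < z.val n p % p ↔ y.mv N P % (2 * P) < z.mv N P % (2 * P)) ∧
    (z.val n p % p < y.val n p % p ↔ z.mv N P % (2 * P) < y.mv N P % (2 * P)) := by
  have hp0 := hp.pos
  obtain ⟨-, y2⟩ := val_quot hp h2 hEp hg hx hb hd y hyc hyh hye hy
  obtain ⟨-, z2⟩ := val_quot hp h2 hEp hg hx hb hd z hzc hzh hze hz
  obtain ⟨q1, q2⟩ := main_quot hx hb hd hp0 (h := (y.h + z.h) % 2) (by omega) hyz
  set Q := (2 * (y.c - z.c) * N + (y.h + z.h) % 2 * P) / (2 * P) with hQ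
  have m1 := Nat.div_add_mod (2 * (y.c - z.c) * N + (y.h + z.h) % 2 * P) (2 * P)
  have m2 := Nat.mod_lt (2 * (y.c - z.c) * N + (y.h + z.h) % 2 * P) (show 0 < 2 * P by omega)
  rw [← hQ] at m1
  have my := Nat.div_add_mod (y.mv N P) (2 * P)
  have mz := Nat.div_add_mod (z.mv N P) (2 * P)
  set qy := y.mv N P / (2 * P) with hqy
  set qz := z.mv N P / (2 * P) with hqz
  set ry := y.mv N P % (2 * P) with hry
  set rz := z.mv N P % (2 * P) with hrz
  set Ry := y.val n p % p with hRy
  set Rz := z.val n p % p with hRz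
  obtain ⟨d, hdd⟩ : ∃ d, y.c = z.c + d := ⟨y.c - z.c, by omega⟩
  have hsub : y.c - z.c = d := by omega
  rw [hsub] at m1 m2 q1 q2
  -- the parity shift
  obtain ⟨j, hj⟩ : ∃ j : ℤ, ((y.h : ℤ) - z.h) = (((y.h + z.h) % 2 : ℕ) : ℤ) - 2 * j := by
    rcases Nat.lt_or_ge y.h z.h with h | h
    · have a1 : y.h = 0 := by omega
      have a2 : z.h = 1 := by omega
      exact ⟨1, by rw [a1, a2]; norm_num⟩
    · rcases Nat.lt_or_ge z.h y.h with h' | h'
      · have a1 : y.h = 1 := by omega
        have a2 : z.h = 0 := by omega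
        exact ⟨0, by rw [a1, a2]; norm_num⟩
      · have a1 : y.h = z.h := by omega
        refine ⟨0, ?_⟩
        rw [a1]
        have : (z.h + z.h) % 2 = 0 := by omega
        rw [this]
        simp
  set δ : ℕ := (y.h + z.h) % 2 with hδ
  -- integers
  have Y : (2 * (Ry : ℤ) + qy * (2 * p)) = 2 * y.c * ((n % p : ℕ) : ℤ) + y.h * p + (y.h + 2 * y.e) := by
    exact_mod_cast y2
  have Z : (2 * (Rz : ℤ) + qz * (2 * p)) = 2 * z.c * ((n % p : ℕ) : ℤ) + z.h * p + (z.h + 2 * z.e) := by
    exact_mod_cast z2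
  have Q1 : (Q : ℤ) * (2 * p) ≤ 2 * d * ((n % p : ℕ) : ℤ) + δ * p := by exact_mod_cast q1
  have Q2 : 2 * (d : ℤ) * ((n % p : ℕ) : ℤ) + δ * p < (Q + 1) * (2 * p) := by exact_mod_cast q2
  have M1 : (2 * (P : ℤ)) * Q + ((2 * d * N + δ * P) % (2 * P) : ℕ) = 2 * d * N + δ * P := by
    exact_mod_cast m1
  have M2 : (((2 * d * N + δ * P) % (2 * P) : ℕ) : ℤ) < 2 * P := by exact_mod_cast m2
  have M3 : (0 : ℤ) ≤ (((2 * d * N + δ * P) % (2 * P) : ℕ) : ℤ) := by positivity
  have MY : (2 * (P : ℤ)) * qy + ry = 2 * y.c * N + y.h * P := by exact_mod_cast my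
  have MZ : (2 * (P : ℤ)) * qz + rz = 2 * z.c * N + z.h * P := by exact_mod_cast mz
  have hdc : (y.c : ℤ) = z.c + d := by exact_mod_cast hdd
  have hp0' : (0 : ℤ) < p := by exact_mod_cast hp0
  have hP' : (0 : ℤ) < P := by exact_mod_cast hP
  -- K
  set K : ℤ := (qy : ℤ) - qz + j with hK
  set D : ℤ := 2 * d * ((n % p : ℕ) : ℤ) + δ * p - 2 * p * K with hD
  set D0 : ℤ := 2 * d * N + δ * P - 2 * P * K with hD0
  have eR : 2 * ((Ry : ℤ) - Rz) = D + ((y.h : ℤ) + 2 * y.e - (z.h + 2 * z.e)) := by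
    rw [hD, hK]
    have : ((y.h : ℤ) - z.h) * p = (δ - 2 * j) * p := by rw [hj]
    linear_combination Y - Z + this + 2 * ((n % p : ℕ) : ℤ) * hdc
  have eR0 : (ry : ℤ) - rz = D0 := by
    rw [hD0, hK]
    have : ((y.h : ℤ) - z.h) * P = (δ - 2 * j) * P := by rw [hj]
    linear_combination MY - MZ + this + 2 * (N : ℤ) * hdc
  have hsign : D < 0 ↔ D0 < 0 := by
    rcases le_or_gt K Q with h | h
    · have e1 : 0 ≤ D := by
        rw [hD]
        linarith [mul_le_mul_of_nonneg_left h hp0'.le]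
      have e2 : 0 ≤ D0 := by
        rw [hD0]
        linarith [mul_le_mul_of_nonneg_left h hP'.le]
      constructor
      · intro h'; linarith
      · intro h'; linarith
    · have h' : (Q : ℤ) + 1 ≤ K := by omega
      have e1 : D < 0 := by
        rw [hD]
        linarith [mul_le_mul_of_nonneg_left h' hp0'.le]
      have e2 : D0 < 0 := by
        rw [hD0]
        linarith [mul_le_mul_of_nonneg_left h' hP'.le]
      exact ⟨fun _ => e2, fun _ => e1⟩
  have hne0 : D0 ≠ 0 := by
    rw [← eR0]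
    intro h
    exact hne (by exact_mod_cast (sub_eq_zero.mp h))
  -- smallness
  set ε : ℤ := (y.h : ℤ) + 2 * y.e - (z.h + 2 * z.e) with hε
  have hye' : (y.h : ℤ) + 2 * y.e ≤ E := by exact_mod_cast hye
  have hze' : (z.h : ℤ) + 2 * z.e ≤ E := by exact_mod_cast hze
  have hε1 : |ε| ≤ E := by
    rw [hε, abs_le]
    constructor
    · have : (0 : ℤ) ≤ (y.h : ℤ) + 2 * y.e := by positivity
      linarith
    · have : (0 : ℤ) ≤ (z.h : ℤ) + 2 * z.e := by positivity
      linarith
  have hbig : ∀ e : ℤ, |e| ≤ E → D ≠ e := by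
    intro e he
    rcases Nat.eq_zero_or_pos d with h0 | h0
    · intro hcon
      have hD' : D = (δ - 2 * K) * p := by rw [hD, h0]; push_cast; ring
      have hD0' : D0 = (δ - 2 * K) * P := by rw [hD0, h0]; push_cast; ring
      have hnz : (δ : ℤ) - 2 * K ≠ 0 := by
        intro h
        rw [h, zero_mul] at hD0'
        exact hne0 hD0'
      have h5 : (p : ℤ) ≤ |D| := by
        rw [hD', abs_mul, abs_of_pos hp0']
        have h6 : (1 : ℤ) ≤ |(δ : ℤ) - 2 * K| := Int.one_le_abs hnz
        have h7 := mul_le_mul_of_nonneg_right h6 hp0'.le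
        linarith
      rw [hcon] at h5
      have : (E : ℤ) < p := by exact_mod_cast hEp
      linarith
    · exact good_no hg h0 (by omega) he ⟨δ - 2 * K, by rw [hD]; ring⟩
  have hDbig : (E : ℤ) < |D| := by
    by_contra hcon
    push Not at hcon
    exact hbig D hcon rfl
  constructor
  · have a1 : Ry < Rz ↔ (2 * ((Ry : ℤ) - Rz)) < 0 := by omega
    have a2 : ry < rz ↔ ((ry : ℤ) - rz) < 0 := by omega
    rw [a1, a2, eR, eR0, ← hsign]
    rcases lt_or_ge D 0 with h | h
    · rw [abs_of_neg h] at hDbig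
      have := (abs_le.mp hε1).2
      constructor
      · intro _; exact h
      · intro _; linarith
    · rw [abs_of_nonneg h] at hDbig
      have := (abs_le.mp hε1).1
      constructor
      · intro h'; linarith
      · intro h'; linarith
  · have a1 : Rz < Ry ↔ 0 < (2 * ((Ry : ℤ) - Rz)) := by omega
    have a2 : rz < ry ↔ 0 < ((ry : ℤ) - rz) := by omega
    rw [a1, a2, eR, eR0]
    have a3 : 0 < D0 ↔ ¬ D0 < 0 := by omega
    rw [a3, ← hsign]
    rcases lt_or_ge D 0 with h | h
    · rw [abs_of_neg h] at hDbig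
      have := (abs_le.mp hε1).2
      constructor
      · intro h'; linarith
      · intro h'; exact absurd h h'
    · rw [abs_of_nonneg h] at hDbig
      have := (abs_le.mp hε1).1
      constructor
      · intro _; linarith
      · intro _; linarith

end Core

/-- phi takes on a cell only the values of the model -/
theorem phiP_cell {al be : List Pt} {L E : ℕ} (hok : PtsOK al be L E) {n p : ℕ} (hp : p.Prime)
    (h2 : p ≠ 2) (hEp : E < p) (hg : GoodG L E n p) {x : Cell} {N P : ℕ} {m : ℤ}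
    (hx : x.Mem (n % p) p) (hchk : cellChk al be x N P m = true) (s : ℕ) :
    m ≤ phiP al be n p s := by
  unfold cellChk at hchk
  simp only [Bool.and_eq_true, decide_eq_true_eq, List.all_eq_true, Bool.or_eq_true] at hchk
  obtain ⟨⟨⟨⟨⟨hP, hb⟩, hd⟩, hpair⟩, hnd⟩, hm⟩ := hchk
  have hq : ∀ y ∈ al ++ be, y.val n p / p = y.c * (n / p) + y.mv N P / (2 * P) := fun y hy =>
    (val_quot hp h2 hEp hg hx hb hd y (hok.hc y hy) (hok.hh y hy) (hok.he y hy) (hpair y hy).1).1
  have hinj : ∀ y ∈ al ++ be, ∀ z ∈ al ++ be, y.mv N P % (2 * P) = z.mv N P % (2 * P) → y = z :=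
    fun y hy z hz h => List.inj_on_of_nodup_map hnd hy hz h
  have hord : ∀ y ∈ al ++ be, ∀ z ∈ al ++ be,
      (y.val n p % p < z.val n p % p ↔ y.mv N P % (2 * P) < z.mv N P % (2 * P)) := by
    intro y hy z hz
    by_cases hyz : y = z
    · subst hyz
      simp
    have hne : y.mv N P % (2 * P) ≠ z.mv N P % (2 * P) := fun h => hyz (hinj y hy z hz h)
    rcases Nat.lt_or_ge y.c z.c with h | h
    · have h3 := ((hpair z hz).2 y hy).resolve_left (by omega)
      exact (order_aux hp h2 hEp hg hx hb hd hP z y (hok.hc z hz) (hok.hh z hz) (hok.he z hz)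
        (hok.hc y hy) (hok.hh y hy) (hok.he y hy) (hpair z hz).1 (hpair y hy).1 h.le h3 hne.symm).2
    · have h3 := ((hpair y hy).2 z hz).resolve_left (by omega)
      exact (order_aux hp h2 hEp hg hx hb hd hP y z (hok.hc y hy) (hok.hh y hy) (hok.he y hy)
        (hok.hc z hz) (hok.hh z hz) (hok.he z hz) (hpair y hy).1 (hpair z hz).1 h h3 hne).1
  -- the last point with residue at most s
  obtain ⟨w, hwm, hwmax⟩ := Finset.exists_max_image
    ((al ++ be).toFinset.filter fun y => y.val n p % p ≤ s) (fun y => y.mv N P % (2 * P))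
    ⟨⟨0, 0, 0⟩, by
      rw [Finset.mem_filter]
      refine ⟨List.mem_toFinset.mpr hok.h0, ?_⟩
      simp [Pt.val]⟩
  rw [Finset.mem_filter, List.mem_toFinset] at hwm
  obtain ⟨hw, hws⟩ := hwm
  have key : ∀ y ∈ al ++ be, (s < y.val n p % p ↔ w.mv N P % (2 * P) < y.mv N P % (2 * P)) := by
    intro y hy
    constructor
    · intro h
      exact (hord w hw y hy).1 (by omega)
    · intro h
      by_contra h3
      have := hwmax y (by
        rw [Finset.mem_filter, List.mem_toFinset]
        exact ⟨hy, by omega⟩)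
      omega
  have hct : ∀ y ∈ al ++ be, y.ct n p s = (y.c : ℤ) * ((n / p : ℕ) : ℤ) + y.ct0 N P (w.mv N P % (2 * P)) := by
    intro y hy
    unfold Pt.ct Pt.ct0
    rw [hq y hy]
    simp only [key y hy]
    push_cast
    ring
  have hsum : ∀ l : List Pt, (∀ y ∈ l, y ∈ al ++ be) → (l.map (fun y => y.ct n p s)).sum =
      ((l.map Pt.c).sum : ℤ) * ((n / p : ℕ) : ℤ) + (l.map (fun y => y.ct0 N P (w.mv N P % (2 * P)))).sum := by
    intro l
    induction l with
    | nil => intro _; simp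
    | cons a l ih =>
      intro h
      simp only [List.map_cons, List.sum_cons]
      rw [ih fun y hy => h y (List.mem_cons_of_mem _ hy), hct a (h a List.mem_cons_self)]
      push_cast
      ring
  have h3 := hm w hw
  unfold phiP0 at h3
  unfold phiP
  rw [hsum al fun y hy => List.mem_append_left _ hy, hsum be fun y hy => List.mem_append_right _ hy,
    hok.hbal]
  linarith

end Pool.Agent.Z23
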