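import Pool.Agent.Z23.LogList
import Pool.Agent.Z23.FBound

/-!
The size inequality for the configuration
N1 = [0,16n), N2 = [2n,14n), H = [10n,19n) + 1/2, K1 = [18n,38n+e1), K2 = [19n,36n+e2).
-/

namespace Pool.Agent.Z23

/-- the configuration -/
def kF (e1 e2 : ℕ) : Cfg where
  a1 := 0
  b1 := 16
  a2 := 2
  b2 := 14
  h := 10
  b3 := 19
  c1 := 18
  d1 := 38
  e1 := e1
  c2 := 19
  d2 := 36
  e2 := e2

theorem kF_ok (e1 e2 : ℕ) : (kF e1 e2).Ok := by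
  constructor <;> simp [kF]

theorem kF_l (e1 e2 : ℕ) : (kF e1 e2).l =
    [(1, 10), (1, 6), (1, 8), (1, 4), (1, 9), (-1, 28), (1, 8), (-1, 26), (1, 9)] := by
  simp [Cfg.l, kF]

theorem kF_adm (e1 e2 : ℕ) : AdmPsi (kF e1 e2).l 10 := by
  rw [kF_l]
  refine ⟨by norm_num, ?_, by norm_num⟩
  intro q hq
  simp only [List.mem_cons, List.not_mem_nil, or_false] at hq
  rcases hq with rfl | rfl | rfl | rfl | rfl | rfl | rfl | rfl | rfl <;> norm_num

theorem logq (n q : ℕ) (x : ℝ) (hn : 0 < n) (hq : 0 < q) (h : x = n / q) :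
    Real.log x = Real.log n - Real.log q := by
  rw [h, Real.log_div (by exact_mod_cast hn.ne') (by exact_mod_cast hq.ne')]

theorem kF_Ta (e1 e2 : ℕ) : TL (kF e1 e2).l (7 / 4) ≤ -64.52 := by
  have h := log_list_le
    [(1649, 10 * 25), (625, 6 * 25), (1073, 16 * 25), (305, 4 * 25), (1345, 18 * 25)]
    [(12593, 28 * 25), (10865, 26 * 25)] (by decide) (by decide) 3226 (by decide +kernel)
  rw [kF_l]
  unfold TL
  simp only [List.map_cons, List.map_nil, List.sum_cons, List.sum_nil] at h ⊢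
  rw [logq 1649 16 ((10 : ℝ) ^ 2 + (7 / 4) ^ 2) (by norm_num) (by norm_num) (by norm_num),
    logq 625 16 ((6 : ℝ) ^ 2 + (7 / 4) ^ 2) (by norm_num) (by norm_num) (by norm_num),
    logq 1073 16 ((8 : ℝ) ^ 2 + (7 / 4) ^ 2) (by norm_num) (by norm_num) (by norm_num),
    logq 305 16 ((4 : ℝ) ^ 2 + (7 / 4) ^ 2) (by norm_num) (by norm_num) (by norm_num),
    logq 1345 16 ((9 : ℝ) ^ 2 + (7 / 4) ^ 2) (by norm_num) (by norm_num) (by norm_num),
    logq 12593 16 ((28 : ℝ) ^ 2 + (7 / 4) ^ 2) (by norm_num) (by norm_num) (by norm_num),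
    logq 10865 16 ((26 : ℝ) ^ 2 + (7 / 4) ^ 2) (by norm_num) (by norm_num) (by norm_num)]
  push_cast at h ⊢
  linarith

theorem kF_Tb (e1 e2 : ℕ) : TL (kF e1 e2).l (5 / 2) ≤ -63.2 := by
  have h := log_list_le
    [(425, 10 * 25), (169, 6 * 25), (281, 16 * 25), (89, 4 * 25), (349, 18 * 25)]
    [(3161, 28 * 25), (2729, 26 * 25)] (by decide) (by decide) 3160 (by decide +kernel)
  rw [kF_l]
  unfold TL
  simp only [List.map_cons, List.map_nil, List.sum_cons, List.sum_nil] at h ⊢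
  rw [logq 425 4 ((10 : ℝ) ^ 2 + (5 / 2) ^ 2) (by norm_num) (by norm_num) (by norm_num),
    logq 169 4 ((6 : ℝ) ^ 2 + (5 / 2) ^ 2) (by norm_num) (by norm_num) (by norm_num),
    logq 281 4 ((8 : ℝ) ^ 2 + (5 / 2) ^ 2) (by norm_num) (by norm_num) (by norm_num),
    logq 89 4 ((4 : ℝ) ^ 2 + (5 / 2) ^ 2) (by norm_num) (by norm_num) (by norm_num),
    logq 349 4 ((9 : ℝ) ^ 2 + (5 / 2) ^ 2) (by norm_num) (by norm_num) (by norm_num),
    logq 3161 4 ((28 : ℝ) ^ 2 + (5 / 2) ^ 2) (by norm_num) (by norm_num) (by norm_num),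
    logq 2729 4 ((26 : ℝ) ^ 2 + (5 / 2) ^ 2) (by norm_num) (by norm_num) (by norm_num)]
  push_cast at h ⊢
  linarith

theorem kF_Da (e1 e2 : ℕ) : DL (kF e1 e2).l (7 / 4) ≤ 0.021 := by
  rw [DL_eq _ (fun q hq => ((kF_adm e1 e2).sgn q hq).1) _ (by norm_num), kF_l]
  simp only [List.map_cons, List.map_nil, List.sum_cons, List.sum_nil]
  have h1 := arctan_cubic ((7 / 4) / 10) (by norm_num)
  have h2 := arctan_cubic ((7 / 4) / 6) (by norm_num)
  have h3 := arctan_cubic ((7 / 4) / 8) (by norm_num)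
  have h4 := arctan_cubic ((7 / 4) / 4) (by norm_num)
  have h5 := arctan_cubic ((7 / 4) / 9) (by norm_num)
  have h6 := arctan_le ((7 / 4) / 28) (by norm_num)
  have h7 := arctan_le ((7 / 4) / 26) (by norm_num)
  have hpi := Real.pi_lt_d4
  norm_num at h1 h2 h3 h4 h5 h6 h7 hpi ⊢
  linarith

theorem kF_Db (e1 e2 : ℕ) : DL (kF e1 e2).l (5 / 2) ≤ -(1 / 2) := by
  rw [DL_eq _ (fun q hq => ((kF_adm e1 e2).sgn q hq).1) _ (by norm_num), kF_l]
  simp only [List.map_cons, List.map_nil, List.sum_cons, List.sum_nil]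
  have h1 := arctan_cubic ((5 / 2) / 10) (by norm_num)
  have h2 := arctan_cubic ((5 / 2) / 6) (by norm_num)
  have h3 := arctan_cubic ((5 / 2) / 8) (by norm_num)
  have h4 := arctan_cubic ((5 / 2) / 4) (by norm_num)
  have h5 := arctan_cubic ((5 / 2) / 9) (by norm_num)
  have h6 := arctan_le ((5 / 2) / 28) (by norm_num)
  have h7 := arctan_le ((5 / 2) / 26) (by norm_num)
  have hpi := Real.pi_lt_d4
  norm_num at h1 h2 h3 h4 h5 h6 h7 hpi ⊢
  linarith

/-- **the size inequality** -/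
theorem kF_psi (e1 e2 : ℕ) : (∀ z, 0 ≤ z → PsiL (kF e1 e2).l z ≤ -64.45) ∧
    ∀ z, 0 ≤ z → 3 ≤ z → PsiL (kF e1 e2).l z ≤ -64.45 - (z - 3) / 2 := by
  have h1 := kF_Ta e1 e2
  have h2 := kF_Tb e1 e2
  refine two_tangents (kF e1 e2).l 10 (kF_adm e1 e2) (7 / 4) (5 / 2) 0.021 2 64.45 3 (by norm_num)
    (by norm_num) (by norm_num) (by norm_num) (kF_Da e1 e2) (kF_Db e1 e2) ?_ ?_
  · linarith
  · linarith

theorem kF_Ta' (e1 e2 : ℕ) : TL (kF e1 e2).l (16 / 9) ≤ -64.48 := by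
  have h := log_list_le
    [(8356, 10 * 25), (3172, 6 * 25), (5440, 16 * 25), (1552, 4 * 25), (6817, 18 * 25)]
    [(63760, 28 * 25), (55012, 26 * 25)] (by decide) (by decide) 3224 (by decide +kernel)
  rw [kF_l]
  unfold TL
  simp only [List.map_cons, List.map_nil, List.sum_cons, List.sum_nil] at h ⊢
  rw [logq 8356 81 ((10 : ℝ) ^ 2 + (16 / 9) ^ 2) (by norm_num) (by norm_num) (by norm_num),
    logq 3172 81 ((6 : ℝ) ^ 2 + (16 / 9) ^ 2) (by norm_num) (by norm_num) (by norm_num),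
    logq 5440 81 ((8 : ℝ) ^ 2 + (16 / 9) ^ 2) (by norm_num) (by norm_num) (by norm_num),
    logq 1552 81 ((4 : ℝ) ^ 2 + (16 / 9) ^ 2) (by norm_num) (by norm_num) (by norm_num),
    logq 6817 81 ((9 : ℝ) ^ 2 + (16 / 9) ^ 2) (by norm_num) (by norm_num) (by norm_num),
    logq 63760 81 ((28 : ℝ) ^ 2 + (16 / 9) ^ 2) (by norm_num) (by norm_num) (by norm_num),
    logq 55012 81 ((26 : ℝ) ^ 2 + (16 / 9) ^ 2) (by norm_num) (by norm_num) (by norm_num)]
  push_cast at h ⊢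
  linarith

theorem kF_Da' (e1 e2 : ℕ) : DL (kF e1 e2).l (16 / 9) ≤ 0 := by
  rw [DL_eq _ (fun q hq => ((kF_adm e1 e2).sgn q hq).1) _ (by norm_num), kF_l]
  simp only [List.map_cons, List.map_nil, List.sum_cons, List.sum_nil]
  have h1 := arctan_cubic ((16 / 9) / 10) (by norm_num)
  have h2 := arctan_cubic ((16 / 9) / 6) (by norm_num)
  have h3 := arctan_cubic ((16 / 9) / 8) (by norm_num)
  have h4 := arctan_cubic ((16 / 9) / 4) (by norm_num)
  have h5 := arctan_cubic ((16 / 9) / 9) (by norm_num)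
  have h6 := arctan_le ((16 / 9) / 28) (by norm_num)
  have h7 := arctan_le ((16 / 9) / 26) (by norm_num)
  have hpi := Real.pi_lt_d4
  norm_num at h1 h2 h3 h4 h5 h6 h7 hpi ⊢
  linarith

/-- **the size inequality**, sharper constant -/
theorem kF_psi' (e1 e2 : ℕ) : (∀ z, 0 ≤ z → PsiL (kF e1 e2).l z ≤ -64.48) ∧
    ∀ z, 0 ≤ z → 3 ≤ z → PsiL (kF e1 e2).l z ≤ -64.48 - (z - 3) / 2 := by
  have h1 := kF_Ta' e1 e2
  have h2 := kF_Tb e1 e2
  refine two_tangents (kF e1 e2).l 10 (kF_adm e1 e2) (16 / 9) (5 / 2) 0 2 64.48 3 (by norm_num)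
    (by norm_num) (by norm_num) (by norm_num) (kF_Da' e1 e2) (kF_Db e1 e2) ?_ ?_
  · linarith
  · linarith

end Pool.Agent.Z23
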