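import Pool.Agent.Z23.CellG
import Pool.Agent.Z23.CancelG
import Pool.Agent.Z3.Red

/-!
Cells with exactly one gap in which phi is -1: the cancellation applies.
-/

open Finset

namespace Pool.Agent.Z23

open Pool.Agent.Z3.Red (arc_transfer)

/-- the end of the gap -/
theorem exists_endG {α : Type*} (p s1 : ℕ) (h1 : s1 < p) (f : α → ℕ) (L : List α) :
    ∃ s2, s1 < s2 ∧ s2 ≤ p ∧ (∀ c ∈ L, f c ≤ s1 ∨ s2 ≤ f c) ∧
      (s2 = p ∨ ∃ c ∈ L, f c = s2) := by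
  induction L with
  | nil => exact ⟨p, h1, le_rfl, by simp, Or.inl rfl⟩
  | cons a L ih =>
    obtain ⟨s2, h2, h3, h4, h5⟩ := ih
    by_cases ha : f a ≤ s1 ∨ s2 ≤ f a
    · refine ⟨s2, h2, h3, ?_, ?_⟩
      · intro c hc
        rcases List.mem_cons.1 hc with rfl | hc
        · exact ha
        · exact h4 c hc
      · rcases h5 with h5 | ⟨c, hc, h5⟩
        · exact Or.inl h5
        · exact Or.inr ⟨c, List.mem_cons_of_mem _ hc, h5⟩
    · push Not at ha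
      refine ⟨f a, ha.1, by omega, ?_, Or.inr ⟨a, List.mem_cons_self .., rfl⟩⟩
      intro c hc
      rcases List.mem_cons.1 hc with rfl | hc
      · exact Or.inr le_rfl
      · rcases h4 c hc with h | h
        · exact Or.inl h
        · exact Or.inr (by omega)

section

variable {ι : Type*} [Fintype ι]

/-- numerator of the sample point over 2 P0 -/
def v0 (N0 P0 : ℕ) (x : ℕ × ℕ × ℕ) : ℤ := 2 * x.1 * N0 + x.2.2 * P0

theorem v0_emod (N0 P0 : ℕ) (x : ℕ × ℕ × ℕ) : v0 N0 P0 x % ((2 * P0 : ℕ) : ℤ) = (r0 N0 P0 x : ℕ) := by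
  unfold v0 r0
  push_cast
  rfl

/-- data of a red cell -/
structure RedH (pts : List (ℕ × ℕ × ℕ)) (ap bp : ι → ℕ × ℕ × ℕ) (N0 P0 : ℕ) (z1 : ℕ × ℕ × ℕ)
    (pi : Equiv.Perm ι) : Prop where
  hz1 : z1 ∈ pts
  hphi : ∀ z ∈ pts, 0 ≤ phi0G ap bp N0 P0 (r0 N0 P0 z) ∨ z = z1
  hphi1 : phi0G ap bp N0 P0 (r0 N0 P0 z1) = -1
  harc : ∀ i, (v0 N0 P0 (ap (pi i)) - v0 N0 P0 (bp i)) % ((2 * P0 : ℕ) : ℤ) ≤
    (v0 N0 P0 z1 - v0 N0 P0 (bp i)) % ((2 * P0 : ℕ) : ℤ)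

theorem gapG_of_red {pts : List (ℕ × ℕ × ℕ)} {L E n p N0 P0 m : ℕ} (H : CellH pts L E n p N0 P0 m)
    (ap bp : ι → ℕ × ℕ × ℕ) (ha : ∀ i, ap i ∈ pts) (hb : ∀ i, bp i ∈ pts)
    (hab : ∑ i, (ap i).1 = ∑ i, (bp i).1) {z1 : ℕ × ℕ × ℕ} {pi : Equiv.Perm ι}
    (R : RedH pts ap bp N0 P0 z1 pi)
    (hsum : ∑ i, pv n p (ap i) + 4 ≤ ∑ i, pv n p (bp i)) :
    ∃ s2, GapG p (fun i => pv n p (ap i)) (fun i => pv n p (bp i)) (pv n p z1 % p) s2 pi ∧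
      ∀ c ∈ pts, pv n p c % p ≤ pv n p z1 % p ∨ s2 ≤ pv n p c % p := by
  have hp0 : 0 < p := H.hp.pos
  have hP0 := H.hP0
  set rho : (ℕ × ℕ × ℕ) → ℕ := fun c => pv n p c % p with hrho
  have hs1p : rho z1 < p := Nat.mod_lt _ hp0
  obtain ⟨s2, h12, h2p, hend, hatt⟩ := exists_endG p (rho z1) hs1p rho pts
  have hval : ∀ z ∈ pts, -1 ≤ phi0G ap bp N0 P0 (r0 N0 P0 z) ∧
      (phi0G ap bp N0 P0 (r0 N0 P0 z) = -1 → z = z1) := by
    intro z hz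
    rcases R.hphi z hz with h | h
    · exact ⟨by omega, fun h' => by omega⟩
    · subst h
      exact ⟨by rw [R.hphi1], fun _ => rfl⟩
  have hcell := fun s (hs : s < p) => H.phi ap bp ha hb hab hs
  refine ⟨s2, ?_, hend⟩
  refine ⟨H.hp, ?_, h12, h2p, ?_, ?_, fun i => hend _ (ha i), fun i => hend _ (hb i), ?_, hsum⟩
  · intro s hs
    obtain ⟨z, hz, -, -, h⟩ := hcell s hs
    rw [h]
    exact (hval z hz).1
  · obtain ⟨z, hz, h1, h2, h⟩ := hcell (rho z1) hs1p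
    have h3 := h2 z1 R.hz1 le_rfl
    have h4 : ¬ (rho z1 < rho z) := not_lt.2 h1
    have h6 : ¬ (r0 N0 P0 z1 < r0 N0 P0 z) := fun h' => h4 ((H.order R.hz1 hz).2 h')
    have h7 : ¬ (r0 N0 P0 z < r0 N0 P0 z1) := fun h' => absurd ((H.order hz R.hz1).2 h') (not_lt.2 h3)
    have h5 : r0 N0 P0 z = r0 N0 P0 z1 := by omega
    rw [h, h5, R.hphi1]
  · intro s hs hm
    obtain ⟨z, hz, h1, h2, h⟩ := hcell s hs
    rw [h] at hm
    have h3 := (hval z hz).2 hm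
    subst h3
    refine ⟨h1, ?_⟩
    by_contra hcon
    push Not at hcon
    rcases hatt with h4 | ⟨d, hd, h4⟩
    · omega
    · have h5 := h2 d hd (by change rho d ≤ s; omega)
      have h6 : rho d ≤ rho z := h5
      omega
  · intro i
    have h1 := R.harc i
    have hz : ((rho z1 : ℕ) : ℤ) % (p : ℤ) = (rho z1 : ℕ) := by
      exact_mod_cast Nat.mod_eq_of_lt hs1p
    have hc : ∀ c : ℕ × ℕ × ℕ, ((pv n p c : ℕ) : ℤ) % (p : ℤ) = (rho c : ℕ) := fun c => by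
      rw [hrho]; push_cast; rfl
    refine arc_transfer _ _ _ (v0 N0 P0 (ap (pi i))) (v0 N0 P0 (bp i)) (v0 N0 P0 z1) _ ((2 * P0 : ℕ) : ℤ)
      (by exact_mod_cast hp0) (by exact_mod_cast (show 0 < 2 * P0 by omega)) ?_ ?_ ?_ h1
    · rw [hc, hc, v0_emod, v0_emod]
      exact_mod_cast H.order (ha _) (hb _)
    · rw [hc, hz, v0_emod, v0_emod]
      exact_mod_cast H.order R.hz1 (hb _)
    · rw [hc, hz, v0_emod, v0_emod]
      exact_mod_cast H.order R.hz1 (ha _)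

end

/-! ### five points -/

/-- permutation given by a list -/
theorem exists_perm5 (L : List ℕ) (h5 : L.length = 5) (hnd : L.Nodup) (hlt : ∀ x ∈ L, x < 5) :
    ∃ pi : Equiv.Perm (Fin 5), ∀ i : Fin 5, ((pi i : Fin 5) : ℕ) = L.getD (i : ℕ) 0 :=
  Pool.Agent.Z3.Red.exists_perm L h5 hnd hlt

/-- integer check of a red cell, five al points and five be points as lists -/
def redCheckG (pts A B : List (ℕ × ℕ × ℕ)) (N0 P0 : ℕ) (z1 : ℕ × ℕ × ℕ) (L : List ℕ) : Bool :=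
  decide (z1 ∈ pts) &&
  pts.all (fun z => decide (0 ≤ ((A.map fun x => ((q0 N0 P0 x : ℕ) : ℤ) + if r0 N0 P0 z < r0 N0 P0 x then 1 else 0).sum -
    (B.map fun x => ((q0 N0 P0 x : ℕ) : ℤ) + if r0 N0 P0 z < r0 N0 P0 x then 1 else 0).sum)) || decide (z = z1)) &&
  decide (((A.map fun x => ((q0 N0 P0 x : ℕ) : ℤ) + if r0 N0 P0 z1 < r0 N0 P0 x then 1 else 0).sum -
    (B.map fun x => ((q0 N0 P0 x : ℕ) : ℤ) + if r0 N0 P0 z1 < r0 N0 P0 x then 1 else 0).sum) = -1) &&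
  decide (L.length = 5) && decide (L.Nodup) && L.all (fun x => decide (x < 5)) &&
  ((List.range 5).all (fun i => decide ((v0 N0 P0 (A.getD (L.getD i 0) (0, 0, 0)) - v0 N0 P0 (B.getD i (0, 0, 0))) %
    ((2 * P0 : ℕ) : ℤ) ≤ (v0 N0 P0 z1 - v0 N0 P0 (B.getD i (0, 0, 0))) % ((2 * P0 : ℕ) : ℤ))))

/-- phi of the sample with lists -/
def phi0L (A B : List (ℕ × ℕ × ℕ)) (N0 P0 t : ℕ) : ℤ :=
  (A.map fun x => ((q0 N0 P0 x : ℕ) : ℤ) + if t < r0 N0 P0 x then 1 else 0).sum -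
    (B.map fun x => ((q0 N0 P0 x : ℕ) : ℤ) + if t < r0 N0 P0 x then 1 else 0).sum

theorem phi0G_five (A B : List (ℕ × ℕ × ℕ)) (hA : A.length = 5) (hB : B.length = 5) (N0 P0 t : ℕ) :
    phi0G (fun i : Fin 5 => A.getD i (0, 0, 0)) (fun i : Fin 5 => B.getD i (0, 0, 0)) N0 P0 t =
      phi0L A B N0 P0 t := by
  obtain ⟨a0, a1, a2, a3, a4, rfl⟩ : ∃ a0 a1 a2 a3 a4, A = [a0, a1, a2, a3, a4] := by
    match A, hA with
    | [a0, a1, a2, a3, a4], _ => exact ⟨a0, a1, a2, a3, a4, rfl⟩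
  obtain ⟨b0, b1, b2, b3, b4, rfl⟩ : ∃ a0 a1 a2 a3 a4, B = [a0, a1, a2, a3, a4] := by
    match B, hB with
    | [a0, a1, a2, a3, a4], _ => exact ⟨a0, a1, a2, a3, a4, rfl⟩
  unfold phi0G phi0L
  simp only [Fin.sum_univ_five, List.map_cons, List.map_nil, List.sum_cons, List.sum_nil]
  simp only [Fin.val_zero, Fin.val_one, Fin.val_two, List.getD_cons_zero, List.getD_cons_succ]
  simp [List.getD_eq_getElem?_getD]
  ring

theorem redH_of_check {pts A B : List (ℕ × ℕ × ℕ)} {N0 P0 : ℕ} {z1 : ℕ × ℕ × ℕ} {L : List ℕ}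
    (hA : A.length = 5) (hB : B.length = 5) (h : redCheckG pts A B N0 P0 z1 L = true) :
    ∃ pi : Equiv.Perm (Fin 5), RedH pts (fun i : Fin 5 => A.getD i (0, 0, 0))
      (fun i : Fin 5 => B.getD i (0, 0, 0)) N0 P0 z1 pi := by
  unfold redCheckG at h
  simp only [Bool.and_eq_true, decide_eq_true_eq, List.all_eq_true, Bool.or_eq_true, List.mem_range] at h
  obtain ⟨⟨⟨⟨⟨⟨hz1, hphi⟩, hphi1⟩, hlen⟩, hLnd⟩, hLlt⟩, harc⟩ := h
  obtain ⟨pi, hpi⟩ := exists_perm5 L hlen hLnd hLlt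
  refine ⟨pi, hz1, ?_, ?_, ?_⟩
  · intro z hz
    rw [phi0G_five A B hA hB]
    exact hphi z hz
  · rw [phi0G_five A B hA hB]
    exact hphi1
  · intro i
    have h1 := harc i i.isLt
    rw [← hpi i] at h1
    exact h1

end Pool.Agent.Z23
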