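import Pool.Agent.Z23.Half
import Pool.Agent.Z23.PF

/-!
p-adic structure of the coefficients A0L, B0L for arbitrary blocks.
-/

open Finset
open scoped BigOperators

namespace Pool.Agent.Z23

open Pool.Agent.Z3 Pool.Agent.Z3.TermAux Pool.Agent.Z3.StructAux

/-- the shifted block -/
def sh (p : ℕ) (S : Finset ℕ) : Finset ℕ := S.map (addRightEmbedding (hh p))

theorem sh_Ico (p a b : ℕ) : sh p (Ico a b) = Ico (a + hh p) (b + hh p) := by
  unfold sh
  rw [Finset.map_add_right_Ico]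

theorem sh_prod {p : ℕ} (hp : p.Prime) (h2 : p ≠ 2) (S : Finset ℕ) (k : ℕ) :
    ∏ i ∈ S, (-(k : ℚ) + ((i : ℚ) + 1 / 2)) = ∏ i ∈ sh p S, ((i : ℚ) - k - p / 2) := by
  unfold sh
  rw [Finset.prod_map]
  refine prod_congr rfl fun i _ => ?_
  rw [addRightEmbedding_apply]
  push_cast
  rw [hh_cast hp h2]
  ring

theorem sh_sum {p : ℕ} (hp : p.Prime) (h2 : p ≠ 2) (S : Finset ℕ) (k : ℕ) :
    ∑ i ∈ S, 1 / ((i : ℚ) + 1 / 2 - k) = ∑ i ∈ sh p S, 1 / ((i : ℚ) - k - p / 2) := by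
  unfold sh
  rw [Finset.sum_map]
  refine sum_congr rfl fun i _ => ?_
  rw [addRightEmbedding_apply]
  push_cast
  rw [hh_cast hp h2]
  congr 1
  ring

theorem mem_sh {p : ℕ} {S : Finset ℕ} {B : ℕ} (h : ∀ i ∈ S, 4 * (i + hh p) < B) :
    ∀ i ∈ sh p S, 4 * i < B := by
  intro i hi
  unfold sh at hi
  rw [Finset.mem_map] at hi
  obtain ⟨a, ha, rfl⟩ := hi
  exact h a ha

/-- zeros minus poles in the class s -/
def phiL (Zs Hs : List (Finset ℕ)) (K1 K2 : Finset ℕ) (p s : ℕ) : ℤ :=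
  (Zs.map fun S => (cnt S p s : ℤ)).sum + (Hs.map fun S => (cnt (sh p S) p s : ℤ)).sum -
    (cnt K1 p s : ℤ) - (cnt K2 p s : ℤ)

/-- admissible blocks -/
structure Adm (Zs Hs : List (Finset ℕ)) (K1 K2 : Finset ℕ) (p : ℕ) : Prop where
  hp : p.Prime
  h2 : p ≠ 2
  hK : K2 ⊆ K1
  hZ : ∀ S ∈ Zs, ∀ k ∈ K1, k ∉ S
  bZ : ∀ S ∈ Zs, ∀ i ∈ S, 4 * i < p ^ 2
  bH : ∀ S ∈ Hs, ∀ i ∈ S, 4 * (i + hh p) < p ^ 2
  bK : ∀ k ∈ K1, 4 * k < p ^ 2

def WL (Zs Hs : List (Finset ℕ)) (K1 K2 : Finset ℕ) (p k : ℕ) : ℚ :=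
  (Zs.map fun S => wv S p k).prod * (Hs.map fun S => wvF (sh p S) p k).prod / (wv K1 p k * wv K2 p k)

def UL (Zs Hs : List (Finset ℕ)) (K1 K2 : Finset ℕ) (p k : ℕ) : ℚ :=
  (Zs.map fun S => uv S p k).prod * (Hs.map fun S => uvF (sh p S) p k).prod / (uv K1 p k * uv K2 p k)

def LamL (Zs Hs : List (Finset ℕ)) (K1 K2 : Finset ℕ) (p k : ℕ) : ℚ :=
  (Zs.map fun S => lv S p k).sum + (Hs.map fun S => lvF (sh p S) p k).sum - lv K1 p k - lv K2 p k

/-- the logarithmic derivative of num / den -/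
def LL (Zs Hs : List (Finset ℕ)) (K1 K2 : Finset ℕ) (k : ℕ) : ℚ :=
  logL Zs Hs k - lK K1 k - lK K2 k

theorem lt_sq {p i : ℕ} (h : 4 * i < p ^ 2) : i < p ^ 2 := by omega

theorem splitZ (Zs : List (Finset ℕ)) (p k : ℕ) (hZ : ∀ S ∈ Zs, k ∉ S) :
    (Zs.map fun S : Finset ℕ => ∏ i ∈ S, (-(k : ℚ) + (i : ℚ))).prod =
      (p : ℚ) ^ (Zs.map fun S => cnt S p (k % p)).sum * (Zs.map fun S => wv S p k).prod *
        (Zs.map fun S => uv S p k).prod := by
  induction Zs with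
  | nil => simp
  | cons S Zs ih =>
    simp only [List.map_cons, List.prod_cons, List.sum_cons]
    have hS : k ∉ S := hZ S List.mem_cons_self
    have e : ∏ i ∈ S, (-(k : ℚ) + (i : ℚ)) = (p : ℚ) ^ (cnt S p (k % p)) * wv S p k * uv S p k := by
      rw [← card_cls_notMem S p k hS, ← prod_split S p k, erase_eq_of_notMem hS]
      exact prod_congr rfl fun i _ => by ring
    rw [e, ih fun S' hS' => hZ S' (List.mem_cons_of_mem _ hS'), pow_add]
    ring

theorem splitH {p : ℕ} (hp : p.Prime) (h2 : p ≠ 2) (Hs : List (Finset ℕ)) (k : ℕ) :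
    (Hs.map fun S : Finset ℕ => ∏ i ∈ S, (-(k : ℚ) + ((i : ℚ) + 1 / 2))).prod =
      (p : ℚ) ^ (Hs.map fun S => cnt (sh p S) p (k % p)).sum * (Hs.map fun S => wvF (sh p S) p k).prod *
        (Hs.map fun S => uvF (sh p S) p k).prod := by
  induction Hs with
  | nil => simp
  | cons S Hs ih =>
    simp only [List.map_cons, List.prod_cons, List.sum_cons]
    rw [sh_prod hp h2, prod_splitF, ih, pow_add]
    ring

theorem numL_split {Zs Hs : List (Finset ℕ)} {K1 K2 : Finset ℕ} {p k : ℕ} (h : Adm Zs Hs K1 K2 p)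
    (hk : k ∈ K1) : numL Zs Hs (-(k : ℚ)) =
      (p : ℚ) ^ ((Zs.map fun S => cnt S p (k % p)).sum + (Hs.map fun S => cnt (sh p S) p (k % p)).sum) *
      ((Zs.map fun S => wv S p k).prod * (Hs.map fun S => wvF (sh p S) p k).prod) *
      ((Zs.map fun S => uv S p k).prod * (Hs.map fun S => uvF (sh p S) p k).prod) := by
  unfold numL
  rw [splitZ Zs p k fun S hS => h.hZ S hS k hk, splitH h.hp h.h2 Hs k, pow_add]
  ring

theorem norm_map_prod {p : ℕ} [Fact p.Prime] (L : List (Finset ℕ)) (f : Finset ℕ → ℚ)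
    (hf : ∀ S ∈ L, padicNorm p (f S) = 1) : padicNorm p (L.map f).prod = 1 := by
  induction L with
  | nil => simp
  | cons S L ih =>
    rw [List.map_cons, List.prod_cons, padicNorm.mul, hf S List.mem_cons_self,
      ih fun S' hS' => hf S' (List.mem_cons_of_mem _ hS'), mul_one]

theorem norm_map_sum {p : ℕ} [Fact p.Prime] (L : List (Finset ℕ)) (f : Finset ℕ → ℚ) (t : ℚ) (ht : 0 ≤ t)
    (hf : ∀ S ∈ L, padicNorm p (f S) ≤ t) : padicNorm p (L.map f).sum ≤ t := by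
  induction L with
  | nil => simpa using ht
  | cons S L ih =>
    rw [List.map_cons, List.sum_cons]
    exact padicNorm.nonarchimedean.trans (max_le (hf S List.mem_cons_self)
      (ih fun S' hS' => hf S' (List.mem_cons_of_mem _ hS')))

theorem norm_WL {Zs Hs : List (Finset ℕ)} {K1 K2 : Finset ℕ} {p k : ℕ} (h : Adm Zs Hs K1 K2 p)
    (hk : k ∈ K1) : padicNorm p (WL Zs Hs K1 K2 p k) = 1 := by
  have := Fact.mk h.hp
  have hkl := lt_sq (h.bK k hk)
  unfold WL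
  rw [padicNorm.div, padicNorm.mul, padicNorm.mul,
    norm_map_prod Zs _ fun S hS => norm_wv S p k h.hp (fun i hi => lt_sq (h.bZ S hS i hi)) hkl,
    norm_map_prod Hs _ fun S hS => norm_wvF h.hp h.h2 (sh p S) k (mem_sh (h.bH S hS)) (h.bK k hk),
    norm_wv K1 p k h.hp (fun i hi => lt_sq (h.bK i hi)) hkl,
    norm_wv K2 p k h.hp (fun i hi => lt_sq (h.bK i (h.hK hi))) hkl]
  norm_num

theorem norm_UL {Zs Hs : List (Finset ℕ)} {K1 K2 : Finset ℕ} {p : ℕ} (h : Adm Zs Hs K1 K2 p)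
    (k : ℕ) : padicNorm p (UL Zs Hs K1 K2 p k) = 1 := by
  have := Fact.mk h.hp
  unfold UL
  rw [padicNorm.div, padicNorm.mul, padicNorm.mul,
    norm_map_prod Zs _ fun S _ => norm_uv S p k h.hp,
    norm_map_prod Hs _ fun S _ => norm_uvF h.hp h.h2 (sh p S) k,
    norm_uv K1 p k h.hp, norm_uv K2 p k h.hp]
  norm_num

theorem norm_LamL {Zs Hs : List (Finset ℕ)} {K1 K2 : Finset ℕ} {p k : ℕ} (h : Adm Zs Hs K1 K2 p)
    (hk : k ∈ K1) : padicNorm p (LamL Zs Hs K1 K2 p k) ≤ 1 := by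
  have := Fact.mk h.hp
  have hkl := lt_sq (h.bK k hk)
  unfold LamL
  refine padicNorm.sub.trans (max_le ?_
    (norm_lv_le K2 p k h.hp (fun i hi => lt_sq (h.bK i (h.hK hi))) hkl))
  refine padicNorm.sub.trans (max_le ?_ (norm_lv_le K1 p k h.hp (fun i hi => lt_sq (h.bK i hi)) hkl))
  refine padicNorm.nonarchimedean.trans (max_le ?_ ?_)
  · exact norm_map_sum Zs _ 1 zero_le_one fun S hS =>
      norm_lv_le S p k h.hp (fun i hi => lt_sq (h.bZ S hS i hi)) hkl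
  · exact norm_map_sum Hs _ 1 zero_le_one fun S hS =>
      norm_lvF_le h.hp h.h2 (sh p S) k (mem_sh (h.bH S hS)) (h.bK k hk)

theorem sum_cast (L : List (Finset ℕ)) (f : Finset ℕ → ℕ) :
    (((L.map f).sum : ℕ) : ℤ) = (L.map fun S => (f S : ℤ)).sum := by
  induction L with
  | nil => simp
  | cons S L ih =>
    rw [List.map_cons, List.sum_cons, List.map_cons, List.sum_cons, ← ih]
    push_cast
    rfl

theorem A0L_struct {Zs Hs : List (Finset ℕ)} {K1 K2 : Finset ℕ} {p k : ℕ} (h : Adm Zs Hs K1 K2 p)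
    (hk : k ∈ K2) : A0L Zs Hs K1 K2 k =
      (p : ℚ) ^ (phiL Zs Hs K1 K2 p (k % p) + 2) * WL Zs Hs K1 K2 p k * UL Zs Hs K1 K2 p k := by
  have hp0 : (p : ℚ) ≠ 0 := by exact_mod_cast h.hp.ne_zero
  have hk1 := h.hK hk
  rw [A0L, if_pos hk, numL_split h hk1, dK, dK, prod_split K1 p k, prod_split K2 p k, WL, UL, phiL]
  have e1 := card_cls_mem K1 p k hk1
  have e2 := card_cls_mem K2 p k hk
  have hw1 := wv_ne K1 p k
  have hw2 := wv_ne K2 p k
  have hu1 := uv_ne K1 p k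
  have hu2 := uv_ne K2 p k
  have e3 : ((Zs.map fun S => (cnt S p (k % p) : ℤ)).sum + (Hs.map fun S => (cnt (sh p S) p (k % p) : ℤ)).sum -
      (cnt K1 p (k % p) : ℤ) - (cnt K2 p (k % p) : ℤ)) + 2 =
      (((Zs.map fun S => cnt S p (k % p)).sum + (Hs.map fun S => cnt (sh p S) p (k % p)).sum : ℕ) : ℤ) -
      (((cls K1 p k).card + (cls K2 p k).card : ℕ) : ℤ) := by
    push_cast
    rw [e1, e2]
    simp only [List.map_map, Function.comp_def]
    ring
  rw [e3, zpow_sub₀ hp0, zpow_natCast, zpow_natCast, pow_add (p : ℚ) (cls K1 p k).card]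
  field_simp

theorem B0L_struct {Zs Hs : List (Finset ℕ)} {K1 K2 : Finset ℕ} {p k : ℕ} (h : Adm Zs Hs K1 K2 p)
    (hk : k ∈ K1) (hk2 : k ∉ K2) : B0L Zs Hs K1 K2 k =
      (p : ℚ) ^ (phiL Zs Hs K1 K2 p (k % p) + 1) * WL Zs Hs K1 K2 p k * UL Zs Hs K1 K2 p k := by
  have hp0 : (p : ℚ) ≠ 0 := by exact_mod_cast h.hp.ne_zero
  rw [B0L, if_neg hk2, numL_split h hk, dK, dK, prod_split K1 p k, prod_split K2 p k, WL, UL, phiL]
  have e1 := card_cls_mem K1 p k hk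
  have e2 := card_cls_notMem K2 p k hk2
  have hw1 := wv_ne K1 p k
  have hw2 := wv_ne K2 p k
  have hu1 := uv_ne K1 p k
  have hu2 := uv_ne K2 p k
  have e3 : ((Zs.map fun S => (cnt S p (k % p) : ℤ)).sum + (Hs.map fun S => (cnt (sh p S) p (k % p) : ℤ)).sum -
      (cnt K1 p (k % p) : ℤ) - (cnt K2 p (k % p) : ℤ)) + 1 =
      (((Zs.map fun S => cnt S p (k % p)).sum + (Hs.map fun S => cnt (sh p S) p (k % p)).sum : ℕ) : ℤ) -
      (((cls K1 p k).card + (cls K2 p k).card : ℕ) : ℤ) := by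
    push_cast
    rw [e1, e2]
    simp only [List.map_map, Function.comp_def]
    ring
  rw [e3, zpow_sub₀ hp0, zpow_natCast, zpow_natCast, pow_add (p : ℚ) (cls K1 p k).card]
  field_simp

theorem B0L_double {Zs Hs : List (Finset ℕ)} {K1 K2 : Finset ℕ} {k : ℕ} (hk : k ∈ K2) :
    B0L Zs Hs K1 K2 k = A0L Zs Hs K1 K2 k * LL Zs Hs K1 K2 k := by
  rw [B0L, if_pos hk, LL]

theorem map_sum_sub (L : List (Finset ℕ)) (f g : Finset ℕ → ℚ) (c : ℚ) :
    (L.map f).sum - (L.map g).sum / c = (L.map fun S => f S - g S / c).sum := by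
  induction L with
  | nil => simp
  | cons S L ih =>
    simp only [List.map_cons, List.sum_cons]
    rw [← ih]
    ring

theorem LL_struct {Zs Hs : List (Finset ℕ)} {K1 K2 : Finset ℕ} {p k : ℕ} (h : Adm Zs Hs K1 K2 p)
    (hk : k ∈ K1) : padicNorm p (LL Zs Hs K1 K2 k - LamL Zs Hs K1 K2 p k / p) ≤ 1 := by
  have := Fact.mk h.hp
  have s4 := sum_split K1 p k h.hp
  have s5 := sum_split K2 p k h.hp
  have e : LL Zs Hs K1 K2 k - LamL Zs Hs K1 K2 p k / p =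
      ((Zs.map fun S : Finset ℕ => (∑ i ∈ S, 1 / ((i : ℚ) - k)) - lv S p k / p).sum +
      (Hs.map fun S : Finset ℕ => (∑ i ∈ S, 1 / ((i : ℚ) + 1 / 2 - k)) - lvF (sh p S) p k / p).sum) -
      (∑ i ∈ K1.erase k, 1 / ((i : ℚ) - k) - lv K1 p k / p) -
      (∑ i ∈ K2.erase k, 1 / ((i : ℚ) - k) - lv K2 p k / p) := by
    rw [← map_sum_sub, ← map_sum_sub]
    unfold LL LamL logL lK
    ring
  rw [e]
  refine padicNorm.sub.trans (max_le ?_ s5)
  refine padicNorm.sub.trans (max_le ?_ s4)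
  refine padicNorm.nonarchimedean.trans (max_le ?_ ?_)
  · refine norm_map_sum Zs _ 1 zero_le_one fun S hS => ?_
    have s1 := sum_split S p k h.hp
    rwa [erase_eq_of_notMem (h.hZ S hS k hk)] at s1
  · refine norm_map_sum Hs _ 1 zero_le_one fun S hS => ?_
    rw [sh_sum h.hp h.h2]
    exact sum_splitF h.hp h.h2 (sh p S) k

end Pool.Agent.Z23
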