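import Pool.Agent.Z23.Cells
import Pool.Agent.Z23.TermC

/-!
# The bound for the primes p <= 20 n + 1 with p^2 > MM n
-/

open Finset

namespace Pool.Agent.Z23

open Pool.Agent.Z3.TermAux (cnt)

/-- the weight of the cell containing r/p -/
def wtab (r p : ℕ) : ℕ := tabW lm r p

theorem wtab_le (r p : ℕ) : wtab r p ≤ 3 := by
  unfold wtab tabW
  rcases hf : lm.find? (fun x => decide (x.Mem r p)) with _ | x
  · rw [hf, Option.map_none, Option.getD_none]
  · rw [hf, Option.map_some, Option.getD_some]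
    exact lm_w x (List.mem_of_find?_eq_some hf)

/-- the counting function of the frozen configuration from its ten end points -/
theorem phiL_dd (n p s : ℕ) (hn : 1 ≤ n) (hp : 0 < p) (hs : s < p) :
    phiL (dd n).Zs (dd n).Hs (dd n).K1 (dd n).K2 p s = phiP alF beF n p s := by
  unfold phiL phiP
  rw [dd_Zs, dd_Hs, dd_K1, dd_K2]
  simp only [List.map_cons, List.map_nil, List.sum_cons, List.sum_nil, sh_Ico, alF, beF, Pt.ct,
    Pt.val]
  rw [cnt_block p s 0 (16 * n) hp hs (by omega), cnt_block p s (2 * n) (14 * n) hp hs (by omega),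
    cnt_block p s (10 * n + hh p) (19 * n + hh p) hp hs (by omega),
    cnt_block p s (18 * n) (38 * n + 2) hp hs (by omega),
    cnt_block p s (19 * n) (36 * n + 2) hp hs (by omega)]
  simp only [Nat.zero_mul, Nat.one_mul, Nat.add_zero]
  ring

/-- every good prime: n/p mod 1 lies in a cell of the merged list and phi is at least 1 - w -/
theorem phiL_cell (n p : ℕ) (hn : 1 ≤ n) (hp : p.Prime) (hp2 : MM n < p ^ 2) (hg : Good n p)
    (s : ℕ) (hs : s < p) :
    1 - ((wtab (n % p) p : ℕ) : ℤ) ≤ phiL (dd n).Zs (dd n).Hs (dd n).K1 (dd n).K2 p s := by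
  unfold MM at hp2
  have h17 : 17 ≤ p := by
    by_contra hcon
    have h1 : p ≤ 16 := by omega
    have h2 : p ^ 2 ≤ 16 ^ 2 := Nat.pow_le_pow_left h1 2
    omega
  obtain ⟨X, hX, hXm, hXw⟩ := tabW_eq lm_chain (by norm_num) hp.pos hg
  obtain ⟨x, hx, hxm, -⟩ := tabW_eq lf_chain (by norm_num) hp.pos hg
  have hle : x.w ≤ X.w :=
    ovl_le (List.all_eq_true.mp (List.all_eq_true.mp lf_lm x hx) X hX) hxm hXm
  have h3 := phiP_cell ptsF_ok hp (by omega) (by omega) hg hxm (lf_check x hx) s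
  rw [← phiL_dd n p s hn hp.pos hs] at h3
  have h4 : wtab (n % p) p = X.w := hXw
  rw [h4]
  have h5 : (x.w : ℤ) ≤ X.w := by exact_mod_cast hle
  linarith

/-- (Table.lean) -/
theorem table_bound (n p : ℕ) (hn : 1 ≤ n) (hp : p.Prime) (hp2 : MM n < p ^ 2) (hg : Good n p) :
    PBn n p (wtab (n % p) p) :=
  termC n p hn hp hp2 _ fun s hs => phiL_cell n p hn hp hp2 hg s hs

/-- for the sum: the cell of n/p in period 0 -/
theorem wtab_l0 (n p : ℕ) (hp : p.Prime) (hg : Good n p) (hnp : n < p) :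
    ∃ x ∈ l0, x.Mem n p ∧ (p ≤ 20 * n → wtab (n % p) p ≤ x.w) ∧ (p ≤ 22 * n → 2 ≤ x.w) ∧
      (p ≤ 24 * n → 1 ≤ x.w) := by
  obtain ⟨X, hX, hXm, hXw⟩ := tabW_eq lm_chain (by norm_num) hp.pos hg
  obtain ⟨x, hx, hxm, -⟩ := tabW_eq l0_chain (by norm_num) hp.pos hg
  have hmod : n % p = n := Nat.mod_eq_of_lt hnp
  have h4 : wtab (n % p) p = X.w := hXw
  rw [hmod] at hxm hXm
  have chk : (l0.all fun x => lm.all fun y => decide (20 * x.c ≤ x.d) || ovl y x) = true := by
    decide +kernel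
  have c22 : (l0.all fun x => decide (22 * x.c ≤ x.d) || decide (2 ≤ x.w)) = true := by
    decide +kernel
  have c24 : (l0.all fun x => decide (24 * x.c ≤ x.d) || decide (1 ≤ x.w)) = true := by
    decide +kernel
  have key : ∀ k : ℕ, k * x.c ≤ x.d → ¬ p ≤ k * n := by
    intro k hk hpk
    have h5 : n * x.d < x.c * p := hxm.2
    have h6 : n * (k * x.c) ≤ n * x.d := Nat.mul_le_mul_left _ hk
    have h7 : x.c * p ≤ x.c * (k * n) := Nat.mul_le_mul_left _ hpk
    have e1 : n * (k * x.c) = x.c * (k * n) := by ring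
    omega
  have h22 := List.all_eq_true.mp c22 x hx
  have h24 := List.all_eq_true.mp c24 x hx
  have h20 := List.all_eq_true.mp (List.all_eq_true.mp chk x hx) X hX
  simp only [Bool.or_eq_true, decide_eq_true_eq] at h22 h24 h20
  refine ⟨x, hx, hxm, ?_, ?_, ?_⟩
  · intro h
    rw [h4]
    exact ovl_le (h20.resolve_left fun h5 => key 20 h5 h) hXm hxm
  · intro h
    exact h22.resolve_left fun h5 => key 22 h5 h
  · intro h
    exact h24.resolve_left fun h5 => key 24 h5 h

/-- for the sum: the cell of n/p in the other periods -/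
theorem wtab_lm (n p : ℕ) (hp : p.Prime) (hg : Good n p) :
    ∃ x ∈ lm, x.Mem (n % p) p ∧ wtab (n % p) p = x.w :=
  tabW_eq lm_chain (by norm_num) hp.pos hg

/-- the scaled sum of the weights -/
theorem scG_lm : scG l0 lm 49 ≤ 50930000000000 := by decide +kernel

end Pool.Agent.Z23
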