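import Pool.Agent.Z23.StructG
import Pool.Agent.Z23.Move

/-!
Term by term p-adic bounds for the linear forms, arbitrary blocks.
-/

open Finset
open scoped BigOperators

namespace Pool.Agent.Z23

open Pool.Agent.Z3 (H cls ncls)
open Pool.Agent.Z3.TermAux (cnt norm_H_le norm_H_small norm_sub_inv_le)

/-- coefficient of 1/(t+k)^2 -/
def AL (Zs Hs : List (Finset ℕ)) (K1 K2 : Finset ℕ) (j k : ℕ) : ℚ :=
  (-(k : ℚ)) ^ j * A0L Zs Hs K1 K2 k

/-- coefficient of 1/(t+k) -/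
def BL (Zs Hs : List (Finset ℕ)) (K1 K2 : Finset ℕ) (j k : ℕ) : ℚ :=
  (-(k : ℚ)) ^ j * B0L Zs Hs K1 K2 k + (j : ℚ) * (-(k : ℚ)) ^ (j - 1) * A0L Zs Hs K1 K2 k

/-- p-adic bound p^w for the coefficient and both rational parts -/
def PB (Zs Hs : List (Finset ℕ)) (K1 K2 : Finset ℕ) (a U p : ℕ) (w : ℤ) : Prop :=
  ∀ j : ℕ, j ≤ 2 → padicNorm p (∑ k ∈ K1, AL Zs Hs K1 K2 j k) ≤ (p : ℚ) ^ w ∧
    padicNorm p (P2 K1 (AL Zs Hs K1 K2 j) (BL Zs Hs K1 K2 j) U) ≤ (p : ℚ) ^ w ∧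
    padicNorm p (P3 K1 (AL Zs Hs K1 K2 j) (BL Zs Hs K1 K2 j) a) ≤ (p : ℚ) ^ w

/-! ### small tools -/

theorem nadd {p : ℕ} [Fact p.Prime] {x y t : ℚ} (hx : padicNorm p x ≤ t) (hy : padicNorm p y ≤ t) :
    padicNorm p (x + y) ≤ t :=
  (padicNorm.nonarchimedean).trans (max_le hx hy)

theorem nmul {p : ℕ} [Fact p.Prime] {x y s t : ℚ} (hx : padicNorm p x ≤ s) (hy : padicNorm p y ≤ t) :
    padicNorm p (x * y) ≤ s * t := by
  rw [padicNorm.mul]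
  exact mul_le_mul hx hy (padicNorm.nonneg _) ((padicNorm.nonneg _).trans hx)

theorem nmul1 {p : ℕ} [Fact p.Prime] {x y t : ℚ} (hx : padicNorm p x ≤ 1) (hy : padicNorm p y ≤ t) :
    padicNorm p (x * y) ≤ t := by
  have := nmul hx hy
  rwa [one_mul] at this

theorem nmul2 {p : ℕ} [Fact p.Prime] {x y t : ℚ} (hx : padicNorm p x ≤ t) (hy : padicNorm p y ≤ 1) :
    padicNorm p (x * y) ≤ t := by
  have := nmul hx hy
  rwa [mul_one] at this

theorem nint {p : ℕ} [Fact p.Prime] (z : ℤ) : padicNorm p (z : ℚ) ≤ 1 := padicNorm.of_int z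

theorem nkj {p : ℕ} [Fact p.Prime] (k j : ℕ) : padicNorm p ((-(k : ℚ)) ^ j) ≤ 1 := by
  have h : (-(k : ℚ)) ^ j = (((-(k : ℤ)) ^ j : ℤ) : ℚ) := by push_cast; ring
  rw [h]
  exact nint _

theorem npz {p : ℕ} [Fact p.Prime] (z : ℤ) : padicNorm p ((p : ℚ) ^ z) = (p : ℚ) ^ (-z) := by
  have hp : p.Prime := Fact.out
  have h0 : (p : ℚ) ^ z ≠ 0 := zpow_ne_zero _ (by exact_mod_cast hp.ne_zero)
  have hpn : padicNorm p (p : ℚ) = (p : ℚ)⁻¹ := padicNorm.padicNorm_p_of_prime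
  have hpow : ∀ m : ℕ, padicNorm p ((p : ℚ) ^ m) = ((p : ℚ) ^ m)⁻¹ := by
    intro m
    induction m with
    | zero => simp
    | succ m ih => rw [pow_succ, padicNorm.mul, ih, hpn, mul_inv]
  cases z with
  | ofNat m => rw [Int.ofNat_eq_natCast, zpow_natCast, hpow, zpow_neg, zpow_natCast]
  | negSucc m =>
    rw [zpow_negSucc, ← one_div, padicNorm.div, padicNorm.one, hpow, one_div, inv_inv, Int.neg_negSucc]
    norm_cast

theorem pz_le {p : ℕ} [Fact p.Prime] {a b : ℤ} (h : a ≤ b) : (p : ℚ) ^ a ≤ (p : ℚ) ^ b := by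
  have hp : p.Prime := Fact.out
  exact zpow_le_zpow_right₀ (by exact_mod_cast hp.one_le) h

theorem pz_nonneg (p : ℕ) (z : ℤ) : (0 : ℚ) ≤ (p : ℚ) ^ z := zpow_nonneg (by positivity) z

theorem padicNorm_pow' {p : ℕ} [Fact p.Prime] (x : ℚ) (r : ℕ) : padicNorm p (x ^ r) = padicNorm p x ^ r := by
  induction r with
  | zero => simp
  | succ r ih => rw [pow_succ, pow_succ, padicNorm.mul, ih]

/-- alternating sums: at most p^s -/
theorem norm_AH_le (p s m : ℕ) (hp : p.Prime) (hm : m < p ^ 2) : padicNorm p (AH s m) ≤ (p : ℚ) ^ s := by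
  have := Fact.mk hp
  have hp0 : (0 : ℚ) ≤ p := by exact_mod_cast hp.pos.le
  unfold AH
  apply padicNorm.sum_le' _ (by positivity)
  intro i hi
  rw [mem_range] at hi
  have h1 := norm_sub_inv_le p (i + 1) 0 hp (by omega) (by have := hp.pos; positivity)
  have h2 : ((-1 : ℚ)) ^ i / ((i : ℚ) + 1) ^ s = (-1) ^ i * (1 / (((i + 1 : ℕ) : ℚ) - (0 : ℕ))) ^ s := by
    push_cast
    rw [sub_zero, div_pow, one_pow]
    ring
  have h3 : padicNorm p ((-1 : ℚ) ^ i) = 1 := by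
    rw [padicNorm_pow', padicNorm.neg, padicNorm.one, one_pow]
  rw [h2, padicNorm.mul, h3, one_mul, padicNorm_pow']
  exact pow_le_pow_left₀ (padicNorm.nonneg _) h1 s

/-- alternating sums: p-integral if short -/
theorem norm_AH_small (p s m : ℕ) (hp : p.Prime) (hm : m < p) : padicNorm p (AH s m) ≤ 1 := by
  have := Fact.mk hp
  unfold AH
  apply padicNorm.sum_le' _ (by norm_num)
  intro i hi
  rw [mem_range] at hi
  have h2 : ((i : ℚ) + 1) ^ s = (((i + 1) ^ s : ℕ) : ℚ) := by push_cast; ring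
  have h3 : padicNorm p ((-1 : ℚ) ^ i) = 1 := by
    rw [padicNorm_pow', padicNorm.neg, padicNorm.one, one_pow]
  rw [padicNorm.div, h3, h2, (padicNorm.nat_eq_one_iff _).mpr, div_one]
  intro hd
  have := Nat.le_of_dvd (by omega) (hp.dvd_of_dvd_pow hd)
  omega

section Term

variable {Zs Hs : List (Finset ℕ)} {K1 K2 : Finset ℕ} {p : ℕ}

theorem norm_A0L (h : Adm Zs Hs K1 K2 p) {k : ℕ} (hk : k ∈ K2) :
    padicNorm p (A0L Zs Hs K1 K2 k) = (p : ℚ) ^ (-(phiL Zs Hs K1 K2 p (k % p) + 2)) := by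
  have := Fact.mk h.hp
  rw [A0L_struct h hk, padicNorm.mul, padicNorm.mul, norm_WL h (h.hK hk), norm_UL h k, npz, mul_one,
    mul_one]

theorem A0L_zero {k : ℕ} (hk : k ∉ K2) : A0L Zs Hs K1 K2 k = 0 := by
  rw [A0L, if_neg hk]

theorem norm_B0L_simple (h : Adm Zs Hs K1 K2 p) {k : ℕ} (hk : k ∈ K1) (hk2 : k ∉ K2) :
    padicNorm p (B0L Zs Hs K1 K2 k) = (p : ℚ) ^ (-(phiL Zs Hs K1 K2 p (k % p) + 1)) := by
  have := Fact.mk h.hp
  rw [B0L_struct h hk hk2, padicNorm.mul, padicNorm.mul, norm_WL h hk, norm_UL h k, npz, mul_one,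
    mul_one]

theorem norm_LL_le (h : Adm Zs Hs K1 K2 p) {k : ℕ} (hk : k ∈ K1) :
    padicNorm p (LL Zs Hs K1 K2 k) ≤ p := by
  have := Fact.mk h.hp
  have hp1 : (1 : ℚ) ≤ p := by exact_mod_cast h.hp.one_le
  have e : LL Zs Hs K1 K2 k = (LL Zs Hs K1 K2 k - LamL Zs Hs K1 K2 p k / p) +
      LamL Zs Hs K1 K2 p k / p := by ring
  rw [e]
  refine nadd ((LL_struct h hk).trans hp1) ?_
  rw [padicNorm.div, padicNorm.padicNorm_p_of_prime, div_inv_eq_mul]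
  calc padicNorm p (LamL Zs Hs K1 K2 p k) * p ≤ 1 * p :=
        mul_le_mul_of_nonneg_right (norm_LamL h hk) (by positivity)
    _ = p := one_mul _

theorem norm_B0L_double (h : Adm Zs Hs K1 K2 p) {k : ℕ} (hk : k ∈ K2) :
    padicNorm p (B0L Zs Hs K1 K2 k) ≤ (p : ℚ) ^ (-(phiL Zs Hs K1 K2 p (k % p) + 1)) := by
  have := Fact.mk h.hp
  have hp0 : (p : ℚ) ≠ 0 := by exact_mod_cast h.hp.ne_zero
  rw [B0L_double hk]
  refine (nmul (norm_A0L h hk).le (norm_LL_le h (h.hK hk))).trans (le_of_eq ?_)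
  rw [← zpow_add_one₀ hp0]
  congr 1
  ring

theorem norm_A0L_le (h : Adm Zs Hs K1 K2 p) {k : ℕ} {m : ℤ} (hm : m ≤ phiL Zs Hs K1 K2 p (k % p)) :
    padicNorm p (A0L Zs Hs K1 K2 k) ≤ (p : ℚ) ^ (-(m + 2)) := by
  have := Fact.mk h.hp
  by_cases hk : k ∈ K2
  · rw [norm_A0L h hk]
    exact pz_le (by linarith)
  · rw [A0L_zero hk, padicNorm.zero]
    exact pz_nonneg _ _

theorem norm_B0L_le (h : Adm Zs Hs K1 K2 p) {k : ℕ} (hk : k ∈ K1) {m : ℤ}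
    (hm : m ≤ phiL Zs Hs K1 K2 p (k % p)) :
    padicNorm p (B0L Zs Hs K1 K2 k) ≤ (p : ℚ) ^ (-(m + 1)) := by
  have := Fact.mk h.hp
  by_cases hk2 : k ∈ K2
  · exact (norm_B0L_double h hk2).trans (pz_le (by linarith))
  · rw [norm_B0L_simple h hk hk2]
    exact pz_le (by linarith)

theorem norm_AL_le [Fact p.Prime] (j k : ℕ) :
    padicNorm p (AL Zs Hs K1 K2 j k) ≤ padicNorm p (A0L Zs Hs K1 K2 k) :=
  nmul1 (nkj k j) le_rfl

theorem norm_BL_le [Fact p.Prime] (j k : ℕ) :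
    padicNorm p (BL Zs Hs K1 K2 j k) ≤
      max (padicNorm p (B0L Zs Hs K1 K2 k)) (padicNorm p (A0L Zs Hs K1 K2 k)) := by
  unfold BL
  refine nadd (le_trans (nmul1 (nkj k j) le_rfl) (le_max_left _ _)) (le_trans (nmul1 ?_ le_rfl) (le_max_right _ _))
  exact nmul1 (by exact_mod_cast nint (p := p) (j : ℤ)) (nkj k (j - 1))

/-- from bounds of all terms to PB -/
theorem PB_of_terms (hp : p.Prime) (a U : ℕ) (w : ℤ)
    (h0 : ∀ k ∈ K1, padicNorm p (A0L Zs Hs K1 K2 k) ≤ (p : ℚ) ^ w)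
    (h1 : ∀ k ∈ K1, padicNorm p (A0L Zs Hs K1 K2 k) * padicNorm p (AH 2 (2 * k - U)) ≤ (p : ℚ) ^ w)
    (h2 : ∀ k ∈ K1, max (padicNorm p (B0L Zs Hs K1 K2 k)) (padicNorm p (A0L Zs Hs K1 K2 k)) *
      padicNorm p (AH 1 (2 * k - U)) ≤ (p : ℚ) ^ w)
    (h3 : ∀ k ∈ K1, padicNorm p (A0L Zs Hs K1 K2 k) * padicNorm p (H 3 (k - a)) ≤ (p : ℚ) ^ w)
    (h4 : ∀ k ∈ K1, max (padicNorm p (B0L Zs Hs K1 K2 k)) (padicNorm p (A0L Zs Hs K1 K2 k)) *
      padicNorm p (H 2 (k - a)) ≤ (p : ℚ) ^ w) : PB Zs Hs K1 K2 a U p w := by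
  have := Fact.mk hp
  have hw := pz_nonneg p w
  have i2 : padicNorm p (2 : ℚ) ≤ 1 := by exact_mod_cast nint (p := p) 2
  have i4 : padicNorm p (4 : ℚ) ≤ 1 := by exact_mod_cast nint (p := p) 4
  have key : ∀ (c x y t : ℚ), padicNorm p c ≤ 1 → padicNorm p x ≤ t → t * padicNorm p y ≤ (p : ℚ) ^ w →
      padicNorm p (c * x * y) ≤ (p : ℚ) ^ w := by
    intro c x y t hc hx hy
    rw [mul_assoc]
    refine nmul1 hc ?_
    rw [padicNorm.mul]
    exact (mul_le_mul_of_nonneg_right hx (padicNorm.nonneg _)).trans hy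
  intro j _
  refine ⟨padicNorm.sum_le' (fun k hk => (norm_AL_le j k).trans (h0 k hk)) hw, ?_, ?_⟩
  · unfold P2
    refine padicNorm.sum_le' (fun k hk => nadd ?_ ?_) hw
    · exact key 4 _ _ _ i4 (norm_AL_le j k) (h1 k hk)
    · exact key 2 _ _ _ i2 (norm_BL_le j k) (h2 k hk)
  · unfold P3
    refine padicNorm.sum_le' (fun k hk => nadd ?_ ?_) hw
    · exact key 2 _ _ _ i2 (norm_AL_le j k) (h3 k hk)
    · have := key 1 _ _ _ (by simp) (norm_BL_le j k) (h4 k hk)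
      rwa [one_mul] at this

/-- termwise bound: w = 1 - min phi -/
theorem termwise (h : Adm Zs Hs K1 K2 p) (a U : ℕ) (m : ℤ)
    (hm : ∀ k ∈ K1, m ≤ phiL Zs Hs K1 K2 p (k % p)) : PB Zs Hs K1 K2 a U p (1 - m) := by
  have := Fact.mk h.hp
  have hp0 : (p : ℚ) ≠ 0 := by exact_mod_cast h.hp.ne_zero
  have hbd : ∀ (x : ℚ) (e : ℤ) (y : ℚ) (s : ℕ), x ≤ (p : ℚ) ^ e → y ≤ (p : ℚ) ^ s → 0 ≤ y →
      e + s ≤ 1 - m → x * y ≤ (p : ℚ) ^ (1 - m) := by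
    intro x e y s hx hy hy0 he
    calc x * y ≤ (p : ℚ) ^ e * (p : ℚ) ^ s := mul_le_mul hx hy hy0 (pz_nonneg p e)
      _ = (p : ℚ) ^ (e + s) := by rw [zpow_add₀ hp0, zpow_natCast]
      _ ≤ _ := pz_le he
  have hk2 : ∀ k ∈ K1, k - a < p ^ 2 ∧ 2 * k - U < p ^ 2 := by
    intro k hk
    have := h.bK k hk
    omega
  have hAB : ∀ k ∈ K1, max (padicNorm p (B0L Zs Hs K1 K2 k)) (padicNorm p (A0L Zs Hs K1 K2 k)) ≤
      (p : ℚ) ^ (-(m + 1)) := by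
    intro k hk
    refine max_le (norm_B0L_le h hk (hm k hk)) ((norm_A0L_le h (hm k hk)).trans (pz_le (by linarith)))
  refine PB_of_terms h.hp a U (1 - m) ?_ ?_ ?_ ?_ ?_
  · intro k hk
    exact (norm_A0L_le h (hm k hk)).trans (pz_le (by linarith))
  · intro k hk
    exact hbd _ _ _ 2 (norm_A0L_le h (hm k hk)) (norm_AH_le p 2 _ h.hp (hk2 k hk).2) (padicNorm.nonneg _)
      (by push_cast; linarith)
  · intro k hk
    exact hbd _ _ _ 1 (hAB k hk) (norm_AH_le p 1 _ h.hp (hk2 k hk).2) (padicNorm.nonneg _)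
      (by push_cast; linarith)
  · intro k hk
    exact hbd _ _ _ 3 (norm_A0L_le h (hm k hk)) (norm_H_le p 3 _ h.hp (hk2 k hk).1) (padicNorm.nonneg _)
      (by push_cast; linarith)
  · intro k hk
    exact hbd _ _ _ 2 (hAB k hk) (norm_H_le p 2 _ h.hp (hk2 k hk).1) (padicNorm.nonneg _)
      (by push_cast; linarith)

end Term

end Pool.Agent.Z23
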